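import Pool.Agent.H94.PN.GENC
import Pool.Agent.H94.PM.DC

set_option autoImplicit false

/-!
# [H94 PN GENA] The hypothesis on the Laplace operators of the primes

`lapv ℓ A v` is the operator `(L_v x) k = ∑ i ≠ k, mult_v (A k - A i) (x k - x i)`.  `GenA ℓ A`: the operators of the irreducible polynomials `v` generate the algebra of all endomorphisms.
* `genA_DC`: it suffices that `lapv ℓ A v` is in `adjoin (range (DC ..).L)` for every irreducible `v` (`adjoin_le`): if `v ∤ dl A` then all multiplicities are `0` (`k ≠ i`: `A k - A i ∣ ± dl A`), `lapv = 0`; otherwise the monic multiple `v' = normalize v` is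
  in `pf (dl A)` (`mem_pf`), `multiplicity` is the same (associated), and `(DC ..).L v' = lapv ℓ A v'`.
* `genA_conn`: `genc` applied to `L : {v // Irreducible v} → ..`, `v ↦ lapv ℓ A v`: `Dtc ℓ A i k` gives `Det L i k` by `lap_single` (as in `det_DC`).
-/

namespace Pool.Agent.H94.PN

open Polynomial
open Pool.Agent.H94.PL
open Pool.Agent.H94.PM
open Pool.Agent.H94.PC (Mo Sq Pr pf om Mn mem_Mo mem_Sq mem_Pr mem_pf mem_pf')

variable {ℓ m : ℕ} [hl : Fact ℓ.Prime] {F : Type} [Field F]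

/-- the Laplace operator of `v` -/
noncomputable def lapv (ℓ : ℕ) [Fact ℓ.Prime] {m : ℕ} {F : Type} [Field F] [Finite F] (A : Fin m → F[X])
    (v : F[X]) :
    XX m ℓ →ₗ[ZMod ℓ] XX m ℓ :=
  lap (add_zero 0) (mlt ℓ A v) (fun _ _ _ => mlt_symm A v _ _)

/-- the Laplace operators generate the algebra of all endomorphisms -/
def GenA (ℓ : ℕ) [Fact ℓ.Prime] {m : ℕ} {F : Type} [Field F] [Finite F] (A : Fin m → F[X]) : Prop :=
  Algebra.adjoin (ZMod ℓ) {f : Module.End (ZMod ℓ) (XX m ℓ) |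
    ∃ v : F[X], Irreducible v ∧ f = lapv ℓ A v} = ⊤

theorem genA_DC [Finite F] (χ : LChar F ℓ) (c : F) {A : Fin m → F[X]}
    (hA : ∀ i k, i ≠ k → A i ≠ A k) (hG : GenA ℓ A)
    (Wl : pf (dl A) → ZMod ℓ → Submodule (ZMod ℓ) (XX m ℓ × XX m ℓ))
    (Wi : ZMod ℓ → Submodule (ZMod ℓ) (XX m ℓ × XX m ℓ)) :
    Algebra.adjoin (ZMod ℓ) (Set.range (DC χ c A Wl Wi).L) =
      (⊤ : Subalgebra (ZMod ℓ) (Module.End (ZMod ℓ) (XX m ℓ))) := by
  rw [eq_top_iff]
  have hG' : Algebra.adjoin (ZMod ℓ) {f : Module.End (ZMod ℓ) (XX m ℓ) |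
    ∃ v : F[X], Irreducible v ∧ f = lapv ℓ A v} = ⊤ := hG
  rw [← hG']
  refine Algebra.adjoin_le ?_
  rintro f ⟨v, hv, rfl⟩
  have hdl : dl A ≠ 0 := by
    unfold dl
    rw [Finset.prod_ne_zero_iff]
    intro p hp
    exact sub_ne_zero.2 (hA _ _ (mem_prs.1 hp).ne)
  have hgen : ∀ p ∈ prs m, A p.1 - A p.2 ∣ dl A := by
    intro p hp
    unfold dl
    exact Finset.dvd_prod_of_mem _ hp
  by_cases hd : v ∣ dl A
  · have hv0 : v ≠ 0 := hv.ne_zero
    have hass0 : Associated (v * C v.leadingCoeff⁻¹) v :=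
      associated_mul_unit_left _ _ (isUnit_C.2 (inv_ne_zero (leadingCoeff_ne_zero.2 hv0)).isUnit)
    have hmon0 : (v * C v.leadingCoeff⁻¹).Monic := monic_mul_leadingCoeff_inv hv0
    generalize v * C v.leadingCoeff⁻¹ = u at hass0 hmon0
    have hirr : Irreducible u := hass0.irreducible_iff.2 hv
    have hmul : ∀ a, multiplicity u a = multiplicity v a := fun a =>
      multiplicity_eq_of_associated_left hass0.symm
    have hdd : u ∣ dl A := (hass0.dvd_iff_dvd_left).2 hd
    have hmlt : mlt ℓ A v = mlt ℓ A u := by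
      funext k i
      unfold mlt
      rw [hmul]
    have h1 : lapv ℓ A v = (DC χ c A Wl Wi).L ⟨u, (mem_pf hdl).2 ⟨hmon0, hirr, hdd⟩⟩ := by
      refine LinearMap.ext fun x => ?_
      apply Subtype.ext
      funext k
      change ∑ i ∈ Finset.univ.erase k, mlt ℓ A v k i * (x.1 k - x.1 i) =
        ∑ i ∈ Finset.univ.erase k, mlt ℓ A u k i * (x.1 k - x.1 i)
      rw [hmlt]
    rw [h1]
    exact Algebra.subset_adjoin (Set.mem_range_self _)
  · have h1 : lapv ℓ A v = 0 := by
      refine LinearMap.ext fun x => ?_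
      apply Subtype.ext
      funext k
      change ∑ i ∈ Finset.univ.erase k, mlt ℓ A v k i * (x.1 k - x.1 i) = 0
      refine Finset.sum_eq_zero fun i hi => ?_
      have hki : k ≠ i := (Finset.ne_of_mem_erase hi).symm
      have h2 : ¬ v ∣ A k - A i := by
        intro h3
        apply hd
        rcases lt_or_gt_of_ne hki with h4 | h4
        · have h6 : (k, i) ∈ prs m := mem_prs.2 h4
          exact dvd_trans h3 (hgen (k, i) h6)
        · have h6 : (i, k) ∈ prs m := mem_prs.2 h4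
          have h5 : v ∣ A i - A k := by
            rw [← neg_sub]
            exact (dvd_neg).2 h3
          exact dvd_trans h5 (hgen (i, k) h6)
      unfold mlt
      rw [multiplicity_eq_zero.2 h2, Nat.cast_zero, zero_mul]
    rw [h1]
    exact Subalgebra.zero_mem _

theorem genA_conn [Finite F] (hm : Nat.Coprime m ℓ) {A : Fin m → F[X]} (hA : ∀ i k, i ≠ k → A i ≠ A k)
    (hconn : ∀ i k, Relation.ReflTransGen (Dtc ℓ A) i k) : GenA ℓ A := by
  unfold GenA
  have h1 : {f : Module.End (ZMod ℓ) (XX m ℓ) | ∃ v : F[X], Irreducible v ∧ f = lapv ℓ A v} =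
      Set.range fun v : {v : F[X] // Irreducible v} => lapv ℓ A v.1 := by
    ext f
    constructor
    · rintro ⟨v, hv, rfl⟩
      exact ⟨⟨v, hv⟩, rfl⟩
    · rintro ⟨v, rfl⟩
      exact ⟨v.1, v.2, rfl⟩
  rw [h1]
  refine genc hm (fun v : {v : F[X] // Irreducible v} => lapv ℓ A v.1) fun i k => ?_
  refine (Relation.ReflTransGen.mono ?_ : _ ≤ _) i k (hconn i k)
  rintro a b ⟨hab, v, hv, hm', h0⟩
  refine ⟨hab, ⟨v, hv⟩, mlt ℓ A v a b, ?_, ?_⟩
  · unfold mlt
    rw [Ne, ZMod.natCast_eq_zero_iff]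
    exact hm'
  · intro x
    refine lap_single (add_zero 0) rfl (mlt ℓ A v) (fun _ _ _ => mlt_symm A v _ _) hab ?_ x
    intro c d hcd h2 h3
    unfold mlt
    rw [multiplicity_eq_zero.2 (h0 c d hcd h2 h3), Nat.cast_zero]

end Pool.Agent.H94.PN
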