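import Pool.Agent.H94.PM.TVN

/-!
# [H94 PN SCL1] Scaling of the `A_k` and the values over a field

* `scl_mum`: `s = D0 ^ α`, `P' = P.scaleRoots s` (`P'(X) = s ^ n P (X / s)`, monic; `P' (s a) = s ^ n P a`: `Polynomial.scaleRoots_eval_mul` or via `eval₂`), `α m + 1 = ℓ e`, `Q' = C (D0 ^ e) * Q.comp (C s⁻¹ * X)`: in `P ∣ C (D0 * D) * Q ^ ℓ - fA A` substitute `X / s` and multiply by `s ^ m`:
  `P (X / s) ∣ C D * (D0 ^ e Q (X / s)) ^ ℓ - ∏ (X - C (s * A k))`, and `P' = s ^ n P (X / s)` is a unit times `P (X / s)`.  `dvn α D P' (s * a) = ((-D) ^ α) ^ n * s ^ n * P a = ((-(D0 * D)) ^ α) ^ n * P a = dvn α (D0 * D) P a`.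
* `scl_vln`: direction `→` for all `D0 ≠ 0` from `scl_mum`; `←`: apply `→` to `D0⁻¹`, `D0 * D`, `A' = D0 ^ α * A`.
-/

set_option autoImplicit false

namespace Pool.Agent.H94.PN

open Polynomial WithZero IsDedekindDomain
open Pool.Agent.H94.PL
open Pool.Agent.H94.PM

private theorem scl_roots {M : Type} [Field M] (P : M[X]) {s : M} (hs : s ≠ 0) :
    P.scaleRoots s = C (s ^ P.natDegree) * P.comp (C s⁻¹ * X) := by
  ext i
  rw [coeff_scaleRoots, coeff_C_mul, comp_C_mul_X_coeff]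
  rcases le_or_gt i P.natDegree with h | h
  · rw [inv_pow, pow_sub₀ _ hs h]
    ring
  · rw [coeff_eq_zero_of_natDegree_lt h]
    ring

theorem scl_mum {M : Type} [Field M] {ℓ m α : ℕ} (hα : ℓ ∣ α * m + 1) {D0 D : M} (h0 : D0 ≠ 0)
    {A : Fin m → M} {P Q : M[X]} (h : IsMum ℓ (D0 * D) A P Q) :
    ∃ P' Q' : M[X], IsMum ℓ D (fun k => D0 ^ α * A k) P' Q' ∧
      ∀ k, dvn α D P' (D0 ^ α * A k) = dvn α (D0 * D) P (A k) := by
  obtain ⟨e, he⟩ := hα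
  obtain ⟨hP, hne, hdvd⟩ := h
  set s := D0 ^ α with hs
  have hs0 : s ≠ 0 := pow_ne_zero _ h0
  have hmon : (P.scaleRoots s).Monic := (monic_scaleRoots_iff s).2 hP
  have hroots := scl_roots P hs0
  have heval : ∀ a, (P.scaleRoots s).eval (s * a) = s ^ P.natDegree * P.eval a := by
    intro a
    rw [hroots, eval_mul, eval_C, eval_comp, eval_mul, eval_C, eval_X, ← mul_assoc, inv_mul_cancel₀ hs0, one_mul]
  refine ⟨P.scaleRoots s, C (D0 ^ e) * Q.comp (C s⁻¹ * X), ⟨hmon, ?_, ?_⟩, ?_⟩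
  · intro k
    show (P.scaleRoots s).eval (s * A k) ≠ 0
    rw [heval]
    exact mul_ne_zero (pow_ne_zero _ hs0) (hne k)
  · have hu : IsUnit (C (s ^ P.natDegree) : M[X]) := isUnit_C.2 (IsUnit.mk0 _ (pow_ne_zero _ hs0))
    rw [hroots, hu.mul_left_dvd]
    obtain ⟨R, hR⟩ := hdvd
    refine ⟨C (s ^ m) * R.comp (C s⁻¹ * X), ?_⟩
    have h1 : C (D0 * D) * (Q.comp (C s⁻¹ * X)) ^ ℓ - (fA A).comp (C s⁻¹ * X) =
        P.comp (C s⁻¹ * X) * R.comp (C s⁻¹ * X) := by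
      rw [← mul_comp, ← hR, sub_comp, mul_comp, C_comp, pow_comp]
    have h2 : C (s ^ m) * (fA A).comp (C s⁻¹ * X) = fA (fun k => s * A k) := by
      unfold fA
      rw [prod_comp, C_pow]
      have e1 : (C s : M[X]) ^ m = ∏ _k : Fin m, C s := by simp
      rw [e1, ← Finset.prod_mul_distrib]
      refine Finset.prod_congr rfl fun k _ => ?_
      rw [sub_comp, X_comp, C_comp, mul_sub, ← mul_assoc, ← C_mul, ← C_mul, mul_inv_cancel₀ hs0, C_1, one_mul]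
    have h3 : C D * (C (D0 ^ e) * Q.comp (C s⁻¹ * X)) ^ ℓ = C (s ^ m) * (C (D0 * D) * (Q.comp (C s⁻¹ * X)) ^ ℓ) := by
      have e1 : D * (D0 ^ e) ^ ℓ = s ^ m * (D0 * D) := by
        rw [hs, ← pow_mul, ← pow_mul, mul_comm e ℓ, ← he, pow_succ]
        ring
      rw [mul_pow, ← mul_assoc, ← mul_assoc, ← C_pow, ← C_mul, ← C_mul, e1]
    rw [← h2, h3, ← mul_sub, h1]
    ring
  · intro k
    unfold dvn
    rw [natDegree_scaleRoots, heval, hs, show -(D0 * D) = D0 * (-D) by ring, mul_pow D0, mul_pow (D0 ^ α)]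
    ring

private theorem scl_vln_fwd {M : Type} [Field M] {ℓ m α : ℕ} (hα : ℓ ∣ α * m + 1) {D0 D : M} (h0 : D0 ≠ 0)
    (A δ : Fin m → M) (h : IsVln ℓ α (D0 * D) A δ) : IsVln ℓ α D (fun k => D0 ^ α * A k) δ := by
  obtain ⟨r, P, Q, γ, h1, h2, h3⟩ := h
  choose P' Q' h4 h5 using fun i => scl_mum hα h0 (h1 i)
  refine ⟨r, P', Q', γ, h4, h2, fun k => ?_⟩
  rw [h3 k]
  exact Finset.prod_congr rfl fun i _ => (h5 i k).symm

theorem scl_vln {M : Type} [Field M] {ℓ m α : ℕ} (hα : ℓ ∣ α * m + 1) {D0 D : M} (h0 : D0 ≠ 0)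
    (A δ : Fin m → M) :
    IsVln ℓ α (D0 * D) A δ ↔ IsVln ℓ α D (fun k => D0 ^ α * A k) δ := by
  refine ⟨scl_vln_fwd hα h0 A δ, fun h => ?_⟩
  have h1 : IsVln ℓ α (D0⁻¹ * (D0 * D)) (fun k => D0 ^ α * A k) δ := by
    rwa [← mul_assoc, inv_mul_cancel₀ h0, one_mul]
  have h2 := scl_vln_fwd hα (inv_ne_zero h0) _ δ h1
  have h3 : (fun k => D0⁻¹ ^ α * (D0 ^ α * A k)) = A := by
    funext k
    rw [← mul_assoc, ← mul_pow, inv_mul_cancel₀ h0, one_pow, one_mul]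
  rwa [h3] at h2

end Pool.Agent.H94.PN
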