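import Pool.Agent.H94.PN.SCD
import Pool.Agent.H94.PN.SCL1
import Pool.Agent.H94.PN.GENA

set_option autoImplicit false

/-!
# [H94 PN SCL] Twisting by a divisor of the discriminant is a change of the `A_k`

* `scl_sln`, `scl_sel`: `scl_vln` at each completion: the map `ι` is a ring homomorphism: `DK c (D0 * D) = D0 * DK c D`, `AK (D0 ^ α * A k) = D0 ^ α * AK A k`, `ι D0 ≠ 0`.  So `SelC`, `rkS` are the same.
* `scl_gen`: for `v` irreducible `mult_v (D0 ^ α (A k - A i)) = α d + mult_v (A k - A i)`, `d = mult_v D0` (`i ≠ k`, nonzero polynomials), and `∑ i ≠ k, (x k - x i) = m x k` on `XX`, so `lapv ℓ (D0 ^ α * A) v = lapv ℓ A v + (α d m) • 1`; so `lapv ℓ A v ∈ adjoin` of the others.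
* `scl_dl`: `dl (D0 ^ α * A) = D0 ^ (α * card (prs m)) * dl A`.  `scl_cls`: `D0 ∣ dl A`: `IsCoprime D (dl A)` implies `IsCoprime D D0`, so `IsCoprime D (D0 ^ N * dl A) ↔ IsCoprime D (dl A)`.
-/

namespace Pool.Agent.H94.PN

open Polynomial WithZero IsDedekindDomain
open Pool.Agent.H94.PL
open Pool.Agent.H94.PM
open Pool.Agent.H94.PC (Mo Sq Pr pf om Mn mem_Mo mem_Sq mem_Pr mem_pf mem_pf')

variable {F : Type} [Field F] {ℓ m : ℕ} {α : ℕ} {A : Fin m → F[X]} {D0 : F[X]}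

private theorem scl_key {M : Type} [Field M] (hα : ℓ ∣ α * m + 1) (h0 : D0 ≠ 0) (c : F) (D : F[X])
    (φ : RatFunc F →+* M) (δ : Fin m → RatFunc F) :
    IsVln ℓ α (φ (DK c (D0 * D))) (fun k => φ (AK A k)) (fun k => φ (δ k)) ↔
      IsVln ℓ α (φ (DK c D)) (fun k => φ (AK (fun k => D0 ^ α * A k) k)) (fun k => φ (δ k)) := by
  have h1 : φ (DK c (D0 * D)) = φ (algebraMap F[X] (RatFunc F) D0) * φ (DK c D) := by
    rw [DK, DK, ← map_mul, ← map_mul]
    congr 2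
    ring
  have h2 : (fun k => φ (AK (fun k => D0 ^ α * A k) k)) =
      fun k => φ (algebraMap F[X] (RatFunc F) D0) ^ α * φ (AK A k) := by
    funext k
    rw [AK, AK, ← map_pow, ← map_pow, ← map_mul, ← map_mul]
  rw [h1, h2]
  exact scl_vln hα ((map_ne_zero φ).2 (RatFunc.algebraMap_ne_zero h0)) _ _

theorem scl_sln [DecidableEq (RatFunc F)] (hα : ℓ ∣ α * m + 1) (h0 : D0 ≠ 0) (c : F) (D : F[X])
    (δ : Fin m → RatFunc F) :
    IsSln ℓ α c A (D0 * D) δ ↔ IsSln ℓ α c (fun k => D0 ^ α * A k) D δ := by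
  constructor
  · intro h
    exact ⟨h.ne, h.prod, fun v => (scl_key hα h0 c D _ δ).1 (h.fin v),
      (scl_key hα h0 c D _ δ).1 h.inf⟩
  · intro h
    exact ⟨h.ne, h.prod, fun v => (scl_key hα h0 c D _ δ).2 (h.fin v),
      (scl_key hα h0 c D _ δ).2 h.inf⟩

theorem scl_sel [DecidableEq (RatFunc F)] (hα : ℓ ∣ α * m + 1) (h0 : D0 ≠ 0) (c : F) (D : F[X]) :
    SelC ℓ α c A (D0 * D) = SelC ℓ α c (fun k => D0 ^ α * A k) D := by
  ext x
  constructor
  · rintro ⟨δ, h1, h2⟩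
    exact ⟨δ, h1, (scl_sln hα h0 c D _).1 h2⟩
  · rintro ⟨δ, h1, h2⟩
    exact ⟨δ, h1, (scl_sln hα h0 c D _).2 h2⟩

theorem scl_dl : dl (fun k => D0 ^ α * A k) = D0 ^ (α * (prs m).card) * dl A := by
  unfold dl
  have h1 : ∀ p ∈ prs m, D0 ^ α * A p.1 - D0 ^ α * A p.2 = D0 ^ α * (A p.1 - A p.2) := fun p _ =>
    (mul_sub _ _ _).symm
  rw [Finset.prod_congr rfl h1, Finset.prod_mul_distrib, Finset.prod_const, ← pow_mul]

theorem scl_cls [Finite F] (h : D0 ∣ dl A) (n : ℕ) :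
    Cls (dl fun k => D0 ^ α * A k) n = Cls (dl A) n := by
  ext D
  rw [mem_Cls, mem_Cls, scl_dl]
  have h1 : IsCoprime D (D0 ^ (α * (prs m).card) * dl A) ↔ IsCoprime D (dl A) := by
    constructor
    · exact fun h2 => h2.of_mul_right_right
    · intro h2
      exact IsCoprime.mul_right (h2.of_isCoprime_of_dvd_right h).pow_right h2
  rw [h1]

theorem scl_gen [Finite F] [hl : Fact ℓ.Prime] (hA : ∀ i k, i ≠ k → A i ≠ A k) (h0 : D0 ≠ 0)
    (hG : GenA ℓ A) : GenA ℓ (fun k => D0 ^ α * A k) := by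
  classical
  unfold GenA at hG ⊢
  rw [eq_top_iff, ← hG]
  refine Algebra.adjoin_le ?_
  rintro f ⟨v, hv, rfl⟩
  obtain ⟨d, hd⟩ : ∃ d : ℕ, d = multiplicity v D0 := ⟨_, rfl⟩
  have hmul : ∀ k i, k ≠ i → mlt ℓ (fun k => D0 ^ α * A k) v k i =
      ((α * d : ℕ) : ZMod ℓ) + mlt ℓ A v k i := by
    intro k i hki
    unfold mlt
    have h1 : D0 ^ α * A k - D0 ^ α * A i = D0 ^ α * (A k - A i) := by ring
    have h2 : A k - A i ≠ 0 := sub_ne_zero.2 (hA k i hki)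
    have h3 : D0 ^ α ≠ 0 := pow_ne_zero _ h0
    have hfin : FiniteMultiplicity v (D0 ^ α * (A k - A i)) :=
      FiniteMultiplicity.of_not_isUnit hv.not_isUnit (mul_ne_zero h3 h2)
    rw [h1, multiplicity_mul hv.prime hfin,
      (FiniteMultiplicity.of_not_isUnit hv.not_isUnit h0).multiplicity_pow hv.prime,
      Nat.cast_add, hd]
  have key : lapv ℓ A v = lapv ℓ (fun k => D0 ^ α * A k) v -
      algebraMap (ZMod ℓ) (Module.End (ZMod ℓ) (XX m ℓ)) (((α * d : ℕ) : ZMod ℓ) * (m : ZMod ℓ)) := by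
    refine LinearMap.ext fun x => Subtype.ext (funext fun k => ?_)
    have e1 : (lapv ℓ A v x).1 k =
        ∑ i ∈ Finset.univ.erase k, mlt ℓ A v k i * (x.1 k - x.1 i) := rfl
    have e2 : (lapv ℓ (fun k => D0 ^ α * A k) v x).1 k =
        ∑ i ∈ Finset.univ.erase k, mlt ℓ (fun k => D0 ^ α * A k) v k i * (x.1 k - x.1 i) := rfl
    have e3 : ((lapv ℓ (fun k => D0 ^ α * A k) v - algebraMap (ZMod ℓ)
        (Module.End (ZMod ℓ) (XX m ℓ)) (((α * d : ℕ) : ZMod ℓ) * (m : ZMod ℓ))) x).1 k =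
        (lapv ℓ (fun k => D0 ^ α * A k) v x).1 k -
          (((α * d : ℕ) : ZMod ℓ) * (m : ZMod ℓ)) * x.1 k := by
      rw [LinearMap.sub_apply, Module.algebraMap_end_apply]
      rfl
    have e4 : ∑ i ∈ Finset.univ.erase k, (x.1 k - x.1 i) = (m : ZMod ℓ) * x.1 k := by
      have h1 := Finset.add_sum_erase Finset.univ (fun i => x.1 k - x.1 i) (Finset.mem_univ k)
      simp only [sub_self, zero_add] at h1
      rw [h1, Finset.sum_sub_distrib, XX_sum, sub_zero, Finset.sum_const, Finset.card_univ,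
        Fintype.card_fin, nsmul_eq_mul]
    have e5 : ∑ i ∈ Finset.univ.erase k, mlt ℓ (fun k => D0 ^ α * A k) v k i * (x.1 k - x.1 i) =
        ((α * d : ℕ) : ZMod ℓ) * ∑ i ∈ Finset.univ.erase k, (x.1 k - x.1 i) +
          ∑ i ∈ Finset.univ.erase k, mlt ℓ A v k i * (x.1 k - x.1 i) := by
      rw [Finset.mul_sum, ← Finset.sum_add_distrib]
      refine Finset.sum_congr rfl fun i hi => ?_
      rw [hmul k i (Finset.ne_of_mem_erase hi).symm]
      ring
    rw [e3, e1, e2, e5, e4]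
    ring
  rw [key]
  exact Subalgebra.sub_mem _ (Algebra.subset_adjoin ⟨v, hv, rfl⟩) (Subalgebra.algebraMap_mem _ _)

end Pool.Agent.H94.PN
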