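import Pool.Agent.H94.PL.Defs
import Pool.Agent.H94.PC.Facs

set_option autoImplicit false

/-!
# [H94 PN SQF] Squarefree polynomials and their parts prime to `Δ`

For `T ⊆ pf Δ` let `D_T = ∏ P ∈ T, P`.  A monic squarefree `D` of degree `n` is uniquely `D_T * D'` with `T ⊆ pf Δ`, `D' ∈ Cls Δ (n - deg D_T)`: `T = {P ∈ pf Δ | P ∣ D}`, `D' = D / D_T`.
(`D_T` divides `D`: product of pairwise coprime divisors, `Finset.prod_coprime_dvd` / `Finset.prod_primes_dvd`; `D'` is monic, squarefree, and no `P ∈ pf Δ` divides it: `P ∉ T` does not divide `D`, `P ∈ T` with `P ∣ D'` gives `P ^ 2 ∣ D`; so `IsCoprime D' Δ` (a common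
irreducible factor could be taken monic).  Conversely `D_T * D'` is monic and squarefree (`squarefree_mul_iff`, `IsCoprime D_T D'`; `D_T` is squarefree as product of different monic irreducible polynomials), and `{P ∈ pf Δ | P ∣ D_T * D'} = T`.)
Use `Finset.sum_bij'` / `Finset.sum_sigma'`, or: partition `Sq F n` by `T` (`Finset.sum_fiberwise_of_maps_to`) and in each fibre the bijection `D' ↦ D_T * D'`.
* `sqf_law`: `sqf_sum` for `f`, `g`, `h`; for `n` larger than all `deg D_T` and all `n_T + deg D_T` (finitely many `T`): sum the inequalities for the `T` (`Finset.abs_sum_le_sum_abs`).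
-/

namespace Pool.Agent.H94.PN

open Polynomial
open Pool.Agent.H94.PL
open Pool.Agent.H94.PC (Mo Sq Pr pf om Mn mem_Mo mem_Sq mem_Pr mem_pf mem_pf')

variable {F : Type} [Field F] [Finite F]

theorem sqf_dvd {Δ : F[X]} (hΔ : Δ ≠ 0) {T : Finset F[X]} (hT : T ∈ (pf Δ).powerset) :
    (∏ P ∈ T, P).Monic ∧ (∏ P ∈ T, P) ∣ Δ := by
  classical
  rw [Finset.mem_powerset] at hT
  have h1 : ∀ P ∈ T, P.Monic ∧ Irreducible P ∧ P ∣ Δ := fun P hP => mem_pf' (hT hP)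
  have h2 : ∀ P ∈ T, P.Monic ∧ Irreducible P := fun P hP => ⟨(h1 P hP).1, (h1 P hP).2.1⟩
  refine ⟨Pool.Agent.H94.PC.monic_prod_irr T h2, ?_⟩
  refine Finset.prod_dvd_of_coprime ?_ fun P hP => (h1 P hP).2.2
  intro P hP Q hQ hPQ
  exact Pool.Agent.H94.PC.isCoprime_irr (h2 P hP).1 (h2 P hP).2 (h2 Q hQ).1 (h2 Q hQ).2 hPQ

theorem sqf_sum {Δ : F[X]} (hΔ : Δ ≠ 0) (f : F[X] → ℝ) (n : ℕ) :
    ∑ D ∈ Sq F n, f D = ∑ T ∈ (pf Δ).powerset, (if (∏ P ∈ T, P).natDegree ≤ n then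
      ∑ D ∈ Cls Δ (n - (∏ P ∈ T, P).natDegree), f ((∏ P ∈ T, P) * D) else 0) := by
  classical
  have hmaps : ∀ D ∈ Sq F n, (pf Δ).filter (fun P => P ∣ D) ∈ (pf Δ).powerset := fun D _ =>
    Finset.mem_powerset.2 (Finset.filter_subset _ _)
  rw [← Finset.sum_fiberwise_of_maps_to hmaps]
  refine Finset.sum_congr rfl fun T hT => ?_
  obtain ⟨hTm, hTd⟩ := sqf_dvd hΔ hT
  rw [Finset.mem_powerset] at hT
  have h1 : ∀ P ∈ T, P.Monic ∧ Irreducible P ∧ P ∣ Δ := fun P hP => mem_pf' (hT hP)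
  have h2 : ∀ P ∈ T, P.Monic ∧ Irreducible P := fun P hP => ⟨(h1 P hP).1, (h1 P hP).2.1⟩
  have hdvd : ∀ D : F[X], (pf Δ).filter (fun P => P ∣ D) = T → (∏ P ∈ T, P) ∣ D := by
    intro D hD
    refine Finset.prod_dvd_of_coprime ?_ fun P hP => ?_
    · intro P hP Q hQ hPQ
      exact Pool.Agent.H94.PC.isCoprime_irr (h2 P hP).1 (h2 P hP).2 (h2 Q hQ).1 (h2 Q hQ).2 hPQ
    · rw [← hD, Finset.mem_filter] at hP
      exact hP.2
  split_ifs with hdeg
  · symm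
    refine Finset.sum_bij (fun D' _ => (∏ P ∈ T, P) * D') ?_ ?_ ?_ ?_
    · intro D' hD'
      obtain ⟨hm, hn, hs, hc⟩ := mem_Cls.1 hD'
      have hcop : IsCoprime (∏ P ∈ T, P) D' := (hc.of_isCoprime_of_dvd_right hTd).symm
      refine Finset.mem_filter.2 ⟨mem_Sq.2 ⟨hTm.mul hm, ?_, ?_⟩, ?_⟩
      · rw [hTm.natDegree_mul hm, hn]
        omega
      · rw [squarefree_mul_iff]
        exact ⟨hcop.isRelPrime, Pool.Agent.H94.PC.squarefree_prod_irr T h2, hs⟩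
      · ext P
        rw [Finset.mem_filter]
        constructor
        · rintro ⟨hP1, hP2⟩
          obtain ⟨a1, a2, a3⟩ := mem_pf' hP1
          rcases a2.prime.dvd_or_dvd hP2 with h3 | h3
          · have h4 : P ∈ pf (∏ P ∈ T, P) := (mem_pf hTm.ne_zero).2 ⟨a1, a2, h3⟩
            rwa [Pool.Agent.H94.PC.pf_prod_irr T h2] at h4
          · exact absurd (hc.isUnit_of_dvd' h3 a3) a2.not_isUnit
        · intro hP
          exact ⟨hT hP, (Finset.dvd_prod_of_mem (fun P => P) hP).mul_right D'⟩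
    · intro a _ b _ hab
      exact mul_left_cancel₀ hTm.ne_zero hab
    · intro D hD
      obtain ⟨hD1, hD2⟩ := Finset.mem_filter.1 hD
      obtain ⟨hm, hn, hs⟩ := mem_Sq.1 hD1
      obtain ⟨E, hE⟩ := hdvd D hD2
      have hEm : E.Monic := by
        rw [hE] at hm
        exact hTm.of_mul_monic_left hm
      have hEs : Squarefree E := by
        rw [hE] at hs
        exact hs.of_mul_right
      refine ⟨E, mem_Cls.2 ⟨hEm, ?_, hEs, ?_⟩, hE.symm⟩
      · have h3 := hTm.natDegree_mul hEm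
        rw [← hE, hn] at h3
        omega
      · refine isCoprime_of_dvd E Δ (fun h0 => hΔ h0.2) ?_
        intro z hz _ hzE hzΔ
        obtain ⟨P, hP1, hP2, hP3⟩ := exists_monic_irreducible_factor z hz
        have hPT : P ∈ T := by
          rw [← hD2, Finset.mem_filter]
          exact ⟨(mem_pf hΔ).2 ⟨hP1, hP2, hP3.trans hzΔ⟩, by
            rw [hE]
            exact (hP3.trans hzE).mul_left _⟩
        have h3 : P * P ∣ D := by
          rw [hE]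
          exact mul_dvd_mul (Finset.dvd_prod_of_mem (fun P => P) hPT) (hP3.trans hzE)
        exact hP2.not_isUnit (hs P h3)
    · intro a _
      rfl
  · refine Finset.sum_eq_zero fun D hD => ?_
    obtain ⟨hD1, hD2⟩ := Finset.mem_filter.1 hD
    obtain ⟨hm, hn, hs⟩ := mem_Sq.1 hD1
    exact absurd (hn ▸ natDegree_le_of_dvd (hdvd D hD2) hm.ne_zero) hdeg

theorem sqf_law {Δ : F[X]} (hΔ : Δ ≠ 0) (f g h : F[X] → ℝ)
    (hl : ∀ T ∈ (pf Δ).powerset, ∀ ε : ℝ, 0 < ε → ∃ n₀ : ℕ, ∀ n : ℕ, n₀ ≤ n →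
      |∑ D ∈ Cls Δ n, f ((∏ P ∈ T, P) * D) - ∑ D ∈ Cls Δ n, g ((∏ P ∈ T, P) * D)| ≤
        ε * ∑ D ∈ Cls Δ n, h ((∏ P ∈ T, P) * D)) (ε : ℝ) (hε : 0 < ε) :
    ∃ n₀ : ℕ, ∀ n : ℕ, n₀ ≤ n →
      |∑ D ∈ Sq F n, f D - ∑ D ∈ Sq F n, g D| ≤ ε * ∑ D ∈ Sq F n, h D := by
  classical
  have hl' : ∀ T : Finset F[X], ∃ n₀ : ℕ, T ∈ (pf Δ).powerset → ∀ n : ℕ, n₀ ≤ n →
      |∑ D ∈ Cls Δ n, f ((∏ P ∈ T, P) * D) - ∑ D ∈ Cls Δ n, g ((∏ P ∈ T, P) * D)| ≤
        ε * ∑ D ∈ Cls Δ n, h ((∏ P ∈ T, P) * D) := by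
    intro T
    by_cases hT : T ∈ (pf Δ).powerset
    · obtain ⟨n₀, hn₀⟩ := hl T hT ε hε
      exact ⟨n₀, fun _ => hn₀⟩
    · exact ⟨0, fun hT' => absurd hT' hT⟩
  choose n₀ hn₀ using hl'
  refine ⟨(pf Δ).powerset.sup fun T => n₀ T + (∏ P ∈ T, P).natDegree, fun n hn => ?_⟩
  have hT0 : ∀ T ∈ (pf Δ).powerset, n₀ T + (∏ P ∈ T, P).natDegree ≤ n := fun T hT =>
    (Finset.le_sup (f := fun T : Finset F[X] => n₀ T + (∏ P ∈ T, P).natDegree) hT).trans hn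
  rw [sqf_sum hΔ f n, sqf_sum hΔ g n, sqf_sum hΔ h n, ← Finset.sum_sub_distrib, Finset.mul_sum]
  refine (Finset.abs_sum_le_sum_abs _ _).trans ?_
  refine Finset.sum_le_sum fun T hT => ?_
  have h1 := hT0 T hT
  rw [if_pos (by omega), if_pos (by omega), if_pos (by omega)]
  exact hn₀ T hT (n - (∏ P ∈ T, P).natDegree) (by omega)

end Pool.Agent.H94.PN
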