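import Pool.Agent.H94.PN.WT

set_option autoImplicit false

/-!
# [H94 PN EUL] The sum of the weights is an infinite product

`q > 1`, `f z = ∑' r, wt z q r`, so `wt z q r = z ^ r * wt 1 q r` (`wt_smul`).  `f (q z) = (1 + z) f z`: `wt (q z) q r = wt z q r * q ^ r`, so `f (q z) = Sm z q 1 = (1 + z) Sm z q 0` (`sm_succ`).
So `f z = (1 + z / q) f (z / q) = ... = (∏ i < n, (1 + z / q ^ (i + 1))) f (z / q ^ n)`.  `f (z / q ^ n) → f 0 = 1`: for `|z| ≤ C`: `|f z - 1| ≤ |z| * ∑' r, |wt C' q (r+1)|..`, or `|wt z q r| ≤ |z| * wt 1 q r` for `r ≥ 1`, `|z| ≤ 1`, so `|f z - 1| ≤ |z| * Sm 1 q 0`.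
The product `∏' i, (1 + z / q ^ (i + 1))` converges (`multipliable_one_add_of_summable` or as the limit of the partial products: `Multipliable` is needed: for `z ≥ 0` use `Real.multipliable_one_add_of_summable` / `multipliable_of_summable_log`), and
`Multipliable.hasProd.tendsto_prod_nat` identifies the limit.
* `eul1`: `z = 1`.  `eul2`: `b = q`: `Sm q q 0 = f q = Sm 1 q 1 = 2 * Sm 1 q 0`, `∏' i, (1 + 1 / q ^ i) = 2 * ∏' i, (1 + 1 / q ^ (i + 1))` (`Multipliable.tprod_eq_zero_mul` or similar).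
-/

namespace Pool.Agent.H94.PN

private theorem wt_smul (z q : ℝ) (r : ℕ) : wt z q r = z ^ r * wt 1 q r := by
  unfold wt
  have : ∀ i : ℕ, z / (q ^ (i + 1) - 1) = z * (1 / (q ^ (i + 1) - 1)) := by
    intro i; ring
  simp_rw [this]
  rw [Finset.prod_mul_distrib, Finset.prod_const, Finset.card_range]

private theorem sm_mul {q : ℝ} (hq : 1 < q) (z : ℝ) :
    Sm (q * z) q 0 = (1 + z) * Sm z q 0 := by
  have h1 : Sm (q * z) q 0 = Sm z q 1 := by
    unfold Sm
    refine tsum_congr fun r => ?_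
    rw [wt_smul (q * z), wt_smul z, mul_pow, pow_zero, pow_one]
    ring
  have h2 := sm_succ z hq 0
  rw [zero_add, pow_zero, mul_one] at h2
  rw [h1, h2]

private theorem sm_iter {q : ℝ} (hq : 1 < q) (n : ℕ) :
    Sm 1 q 0 = (∏ i ∈ Finset.range n, (1 + 1 / q ^ (i + 1))) * Sm (1 / q ^ n) q 0 := by
  have hq0 : q ≠ 0 := by linarith
  induction n with
  | zero => simp
  | succ n ih =>
    have h1 : (1 : ℝ) / q ^ n = q * (1 / q ^ (n + 1)) := by
      rw [pow_succ]
      field_simp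
    rw [ih, Finset.prod_range_succ, h1, sm_mul hq]
    ring

private theorem sm_near {q : ℝ} (hq : 1 < q) {z : ℝ} (hz0 : 0 ≤ z) (hz1 : z ≤ 1) :
    |Sm z q 0 - 1| ≤ z * Sm 1 q 0 := by
  have hs := wt_summable z hq 0
  have hs1 := wt_summable 1 hq 0
  have h1 : Sm z q 0 = 1 + ∑' r, wt z q (r + 1) * (q ^ (r + 1)) ^ 0 := by
    unfold Sm
    rw [hs.tsum_eq_zero_add, wt_zero, pow_zero, mul_one]
  have h2 : Sm 1 q 0 = 1 + ∑' r, wt 1 q (r + 1) * (q ^ (r + 1)) ^ 0 := by
    unfold Sm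
    rw [hs1.tsum_eq_zero_add, wt_zero, pow_zero, mul_one]
  have hw : ∀ r, 0 < wt 1 q r := fun r => wt_pos one_pos hq r
  rw [h1, add_sub_cancel_left, ← Real.norm_eq_abs]
  have hs1' : Summable fun r => wt 1 q (r + 1) * (q ^ (r + 1)) ^ 0 :=
    (summable_nat_add_iff 1).2 hs1
  have h3 : z * ∑' r, wt 1 q (r + 1) * (q ^ (r + 1)) ^ 0 ≤ z * Sm 1 q 0 := by
    refine mul_le_mul_of_nonneg_left ?_ hz0
    linarith
  refine le_trans ?_ h3
  refine tsum_of_norm_bounded (hs1'.hasSum.mul_left z) fun r => ?_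
  rw [pow_zero, mul_one, mul_one, Real.norm_of_nonneg, wt_smul]
  · refine mul_le_mul_of_nonneg_right ?_ (hw _).le
    calc z ^ (r + 1) = z ^ r * z := pow_succ _ _
      _ ≤ 1 * z := mul_le_mul_of_nonneg_right (pow_le_one₀ hz0 hz1) hz0
      _ = z := one_mul _
  · rw [wt_smul]
    exact mul_nonneg (pow_nonneg hz0 _) (hw _).le

private theorem geo_sum {q : ℝ} (hq : 1 < q) : Summable fun i : ℕ => 1 / q ^ (i + 1) := by
  have h : Summable fun i : ℕ => (1 / q) ^ i :=
    summable_geometric_of_lt_one (by positivity) (by rw [div_lt_one (by linarith)]; exact hq)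
  have h2 := (summable_nat_add_iff 1).2 h
  simpa [one_div] using h2

private theorem geo_mult {q : ℝ} (hq : 1 < q) :
    Multipliable fun i : ℕ => (1 + 1 / q ^ (i + 1)) :=
  Real.multipliable_one_add_of_summable (geo_sum hq)

theorem eul1 {q : ℝ} (hq : 1 < q) : Sm 1 q 0 = ∏' i : ℕ, (1 + 1 / q ^ (i + 1)) := by
  have hm := (geo_mult hq).hasProd.tendsto_prod_nat
  have hz : Filter.Tendsto (fun n : ℕ => 1 / q ^ n) Filter.atTop (nhds 0) := by
    have := tendsto_pow_atTop_nhds_zero_of_lt_one (r := 1 / q) (by positivity)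
      (by rw [div_lt_one (by linarith)]; exact hq)
    simpa [one_div] using this
  have hf : Filter.Tendsto (fun n : ℕ => Sm (1 / q ^ n) q 0) Filter.atTop (nhds 1) := by
    rw [tendsto_iff_norm_sub_tendsto_zero]
    have h0 : Filter.Tendsto (fun n : ℕ => (1 / q ^ n) * Sm 1 q 0) Filter.atTop (nhds 0) := by
      have := hz.mul_const (Sm 1 q 0)
      rwa [zero_mul] at this
    refine squeeze_zero (fun n => norm_nonneg _) (fun n => ?_) h0
    rw [Real.norm_eq_abs]
    refine sm_near hq (by positivity) ?_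
    rw [div_le_one (by positivity)]
    exact one_le_pow₀ hq.le
  have h1 := hm.mul hf
  rw [mul_one] at h1
  have h2 : (fun n : ℕ => (∏ i ∈ Finset.range n, (1 + 1 / q ^ (i + 1))) * Sm (1 / q ^ n) q 0)
      = fun _ => Sm 1 q 0 := by
    funext n
    rw [← sm_iter hq n]
  rw [h2] at h1
  exact tendsto_nhds_unique tendsto_const_nhds h1

theorem eul2 {q : ℝ} (hq : 1 < q) : Sm q q 0 = ∏' i : ℕ, (1 + 1 / q ^ i) := by
  have h1 := sm_mul hq 1
  rw [mul_one] at h1
  have h2 : ∏' i : ℕ, (1 + 1 / q ^ i) = (1 + 1 / q ^ 0) * ∏' i : ℕ, (1 + 1 / q ^ (i + 1)) :=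
    _root_.tprod_eq_zero_mul' (f := fun i : ℕ => (1 + 1 / q ^ i)) (geo_mult hq)
  rw [h1, h2, eul1 hq]
  norm_num

end Pool.Agent.H94.PN
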