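import Pool.Agent.H94.PN.LAW2
import Pool.Agent.H94.PN.SCL
import Pool.Agent.H94.PN.SQF
import Pool.Agent.H94.PN.EUL

set_option autoImplicit false

/-!
# [H94 PN ALL2] The law of the rank for squarefree polynomials, `ℓ = 2`

`a = wt 2 2 r / Sm 2 2 0 = (∏' i, (1 + 1 / 2 ^ i))⁻¹ * ∏ i < r, 2 / (2 ^ (i + 1) - 1)` (`eul2`, `wt`).  `Δ = dl A ≠ 0`; for `T ⊆ pf Δ`: `D0 = ∏ P ∈ T, P` is monic and divides `Δ` (`sqf_dvd`), `A_T = D0 ^ α * A` is injective, `GenA 2 A_T` (`scl_gen`), `Cls (dl A_T) n = Cls Δ n`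
(`scl_cls`), `SelC (A, D0 * D) = SelC (A_T, D)` (`scl_sel`), `card SelC (A_T, D) = 2 ^ (m - 1 + s) ↔ rkS A_T D = s` (`rkS_spec`, `n ≥ 1`).
* `all2c`: `sqf_law` with `f D = [card SelC = 2 ^ (m - 1 + r)]`, `g D = 2 a [∃ s, s % 2 = r % 2 ∧ card SelC = 2 ^ (m - 1 + s)]`, `h D = 1`: `law2c` for `A_T`.
* `all2`: `sqf_law` with `f D = [SomeDtv A D ∧ card SelC = 2 ^ (m - 1 + r)]`, `g D = a [SomeDtv A D]`, `h D = [SomeDtv A D]`.  For `D ∈ Cls Δ n` and a detecting prime `v` (`Dtv A v`; it divides `Δ`, so it does not divide `D`): `v ∣ D0 * D ↔ v ∣ D0`; so `SomeDtv A (D0 * D)` does not depend on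
  `D ∈ Cls Δ n`.  If it is false all three sums are `0`.  If it is true, `v` a detecting prime with `v ∤ D0`, with the pair `i, k`: `Dtc 2 A_T i k` with the same `v`: `multiplicity v (D0 ^ α * (A i - A k)) = multiplicity v (A i - A k)`, `v ∤ D0 ^ α * (A a - A b)`; so `law2` for `A_T`.
-/

namespace Pool.Agent.H94.PN

open Polynomial
open Pool.Agent.H94.PL
open Pool.Agent.H94.PM
open Pool.Agent.H94.PC (Mo Sq Pr pf om Mn mem_Mo mem_Sq mem_Pr mem_pf mem_pf')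

/-- `v` divides one difference with odd multiplicity and no other difference -/
def Dtv {F : Type} [Field F] {m : ℕ} (A : Fin m → F[X]) (v : F[X]) : Prop :=
  Irreducible v ∧ ∃ i k : Fin m, i ≠ k ∧ ¬ 2 ∣ multiplicity v (A i - A k) ∧
    ∀ a b, a ≠ b → ¬ (a = i ∧ b = k) → ¬ (a = k ∧ b = i) → ¬ v ∣ A a - A b

/-- some detecting prime does not divide `D` -/
def SomeDtv {F : Type} [Field F] {m : ℕ} (A : Fin m → F[X]) (D : F[X]) : Prop :=
  ∃ v : F[X], Dtv A v ∧ ¬ v ∣ D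

variable {F : Type} [Field F] [Finite F] {m : ℕ}
variable [DecidableEq (RatFunc F)] {α : ℕ} {c : F} {A : Fin m → F[X]}

theorem wt2_eul (r : ℕ) : wt 2 (2 : ℝ) r / Sm 2 (2 : ℝ) 0 =
    (∏' i : ℕ, (1 + 1 / (2 : ℝ) ^ i))⁻¹ *
      ∏ i ∈ Finset.range r, (2 / ((2 : ℝ) ^ (i + 1) - 1)) := by
  rw [eul2 (by norm_num : (1 : ℝ) < 2), wt, div_eq_inv_mul]

omit [Finite F] [DecidableEq (RatFunc F)] in
theorem all2_dl0 (hA : ∀ i k, i ≠ k → A i ≠ A k) : dl A ≠ 0 := by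
  rw [dl, Finset.prod_ne_zero_iff]
  intro p hp
  exact sub_ne_zero.2 (hA _ _ (mem_prs.1 hp).ne)

omit [Finite F] [DecidableEq (RatFunc F)] in
theorem all2_inj {D0 : F[X]} (h0 : D0 ≠ 0) (hA : ∀ i k, i ≠ k → A i ≠ A k) :
    ∀ i k, i ≠ k → D0 ^ α * A i ≠ D0 ^ α * A k := fun i k hik h =>
  hA i k hik (mul_left_cancel₀ (pow_ne_zero _ h0) h)

/-- the ranks of `A`, `D0 * D` and of `D0 ^ α * A`, `D` -/
theorem all2_rk (hq : 2 ∣ Nat.card F - 1) (hm : Nat.Coprime m 2)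
    (hα : 2 ∣ α * m + 1) (hc : c ≠ 0) (hA : ∀ i k, i ≠ k → A i ≠ A k) {D0 : F[X]} (h0 : D0 ≠ 0)
    (hd : D0 ∣ dl A) {n : ℕ} (hn : 1 ≤ n) {D : F[X]} (hD : D ∈ Cls (dl A) n) (s : ℕ) :
    Nat.card (SelC 2 α c A (D0 * D)) = 2 ^ (m - 1 + s) ↔
      rkS 2 α c (fun k => D0 ^ α * A k) D = s := by
  rw [scl_sel hα h0]
  refine rkS_spec hq hm hα hc (all2_inj h0 hA) hn ?_ s
  rw [scl_cls hd n]
  exact hD

omit [DecidableEq (RatFunc F)] in
/-- a detecting prime divides the discriminant -/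
theorem dtv_dvd {v : F[X]} (hv : Dtv A v) : v ∣ dl A := by
  obtain ⟨-, i, k, hik, h6, -⟩ := hv
  have hv1 : v ∣ A i - A k := by
    by_contra h
    exact h6 (by rw [multiplicity_eq_zero.2 h]; exact dvd_zero 2)
  exact wl2_dvd hik hv1

omit [DecidableEq (RatFunc F)] in
theorem someDtv_iff {D0 D : F[X]} {n : ℕ} (hD : D ∈ Cls (dl A) n) :
    SomeDtv A (D0 * D) ↔ SomeDtv A D0 := by
  constructor
  · rintro ⟨v, hv, h⟩
    exact ⟨v, hv, fun h1 => h (h1.mul_right D)⟩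
  · rintro ⟨v, hv, h⟩
    refine ⟨v, hv, fun h1 => ?_⟩
    rcases hv.1.prime.dvd_or_dvd h1 with h2 | h2
    · exact h h2
    · have hc : IsCoprime D (dl A) := (mem_Cls.1 hD).2.2.2
      exact hv.1.not_isUnit (hc.isUnit_of_dvd' h2 (dtv_dvd hv))

omit [Finite F] [DecidableEq (RatFunc F)] in
/-- a detecting prime which does not divide `D0` -/
theorem dtv_scl {D0 v : F[X]} (hv : Dtv A v) (h : ¬ v ∣ D0) :
    ∃ i k, Dtc 2 (fun k => D0 ^ α * A k) i k := by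
  obtain ⟨hvi, i, k, hik, h6, h7⟩ := hv
  have hp : ¬ v ∣ D0 ^ α := fun h1 => h (hvi.prime.dvd_of_dvd_pow h1)
  have hs : ∀ a b, D0 ^ α * A a - D0 ^ α * A b = D0 ^ α * (A a - A b) := fun a b => by ring
  have hdv : ∀ a b (n : ℕ), v ^ n ∣ D0 ^ α * (A a - A b) ↔ v ^ n ∣ A a - A b := by
    intro a b n
    constructor
    · intro h1
      have hc : IsCoprime (v ^ n) (D0 ^ α) := ((hvi.coprime_iff_not_dvd.2 hp).pow_left)
      exact hc.dvd_of_dvd_mul_left h1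
    · intro h1
      exact h1.mul_left _
  refine ⟨i, k, hik, v, hvi, ?_, ?_⟩
  · have e : multiplicity v (D0 ^ α * A i - D0 ^ α * A k) = multiplicity v (A i - A k) := by
      rw [hs]
      have e2 : emultiplicity v (D0 ^ α * (A i - A k)) = emultiplicity v (A i - A k) := by
        refine le_antisymm ?_ ?_
        · exact emultiplicity_le_emultiplicity_iff.2 fun n hn => (hdv i k n).1 hn
        · exact emultiplicity_le_emultiplicity_iff.2 fun n hn => (hdv i k n).2 hn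
      unfold multiplicity
      rw [e2]
    change ¬ 2 ∣ multiplicity v (D0 ^ α * A i - D0 ^ α * A k)
    rw [e]
    exact h6
  · intro a b hab h1 h2 h3
    refine h7 a b hab h1 h2 ?_
    have h4 : v ^ 1 ∣ D0 ^ α * (A a - A b) := by
      rw [pow_one, ← hs]
      exact h3
    have h5 := (hdv a b 1).1 h4
    rwa [pow_one] at h5

open Classical in
theorem all2c (hq : 2 ∣ Nat.card F - 1) (hm : Nat.Coprime m 2) (hm3 : 3 ≤ m)
    (hα : 2 ∣ α * m + 1) (hc : c ≠ 0) (hA : ∀ i k, i ≠ k → A i ≠ A k) (hG : GenA 2 A)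
    (r : ℕ) (ε : ℝ) (hε : 0 < ε) :
    ∃ n₀ : ℕ, ∀ n : ℕ, n₀ ≤ n →
      |(((Sq F n).filter fun D => Nat.card (SelC 2 α c A D) = 2 ^ (m - 1 + r)).card : ℝ) -
        2 * ((∏' i : ℕ, (1 + 1 / (2 : ℝ) ^ i))⁻¹ *
          ∏ i ∈ Finset.range r, (2 / ((2 : ℝ) ^ (i + 1) - 1))) *
          (((Sq F n).filter fun D => ∃ s, s % 2 = r % 2 ∧
            Nat.card (SelC 2 α c A D) = 2 ^ (m - 1 + s)).card : ℝ)| ≤ ε * ((Sq F n).card : ℝ) := by
  have hdl := all2_dl0 hA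
  rw [← wt2_eul r]
  set a : ℝ := wt 2 (2 : ℝ) r / Sm 2 (2 : ℝ) 0 with ha
  have key := sqf_law hdl
    (fun D => if Nat.card (SelC 2 α c A D) = 2 ^ (m - 1 + r) then (1 : ℝ) else 0)
    (fun D => 2 * a * if (∃ s, s % 2 = r % 2 ∧ Nat.card (SelC 2 α c A D) = 2 ^ (m - 1 + s))
      then (1 : ℝ) else 0) (fun _ => 1) ?_ ε hε
  · obtain ⟨n₀, h⟩ := key
    refine ⟨n₀, fun n hn => ?_⟩
    have h1 := h n hn
    rw [Finset.sum_const, nsmul_eq_mul, mul_one, Finset.sum_boole, ← Finset.mul_sum,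
      Finset.sum_boole] at h1
    exact h1
  · intro T hT ε hε
    obtain ⟨hTm, hTd⟩ := sqf_dvd hdl hT
    set D0 : F[X] := ∏ P ∈ T, P with hD0
    have h0 : D0 ≠ 0 := hTm.ne_zero
    have hG' : GenA 2 (fun k => D0 ^ α * A k) := scl_gen hA h0 hG
    obtain ⟨n₀, h⟩ := law2c hq hm hm3 hα hc (all2_inj h0 hA) hG' r ε hε
    refine ⟨max n₀ 1, fun n hn => ?_⟩
    have h1 := h n ((le_max_left _ _).trans hn)
    have hn1 : 1 ≤ n := (le_max_right _ _).trans hn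
    rw [scl_cls hTd n] at h1
    rw [Finset.sum_const, nsmul_eq_mul, mul_one, Finset.sum_boole, ← Finset.mul_sum,
      Finset.sum_boole]
    have h3 : (Cls (dl A) n).filter (fun D => Nat.card (SelC 2 α c A (D0 * D)) = 2 ^ (m - 1 + r)) =
        (Cls (dl A) n).filter fun D => rkS 2 α c (fun k => D0 ^ α * A k) D = r :=
      Finset.filter_congr fun D hD => all2_rk hq hm hα hc hA h0 hTd hn1 hD r
    have h4 : (Cls (dl A) n).filter (fun D => ∃ s, s % 2 = r % 2 ∧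
          Nat.card (SelC 2 α c A (D0 * D)) = 2 ^ (m - 1 + s)) =
        (Cls (dl A) n).filter fun D => rkS 2 α c (fun k => D0 ^ α * A k) D % 2 = r % 2 := by
      refine Finset.filter_congr fun D hD => ?_
      constructor
      · rintro ⟨s, hs, h5⟩
        rw [(all2_rk hq hm hα hc hA h0 hTd hn1 hD s).1 h5]
        exact hs
      · intro h5
        exact ⟨_, h5, (all2_rk hq hm hα hc hA h0 hTd hn1 hD _).2 rfl⟩
    rw [h3, h4]
    exact h1

open Classical in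
theorem all2 (hq : 2 ∣ Nat.card F - 1) (hm : Nat.Coprime m 2) (hm3 : 3 ≤ m)
    (hα : 2 ∣ α * m + 1) (hc : c ≠ 0) (hA : ∀ i k, i ≠ k → A i ≠ A k) (hG : GenA 2 A)
    (r : ℕ) (ε : ℝ) (hε : 0 < ε) :
    ∃ n₀ : ℕ, ∀ n : ℕ, n₀ ≤ n →
      |(((Sq F n).filter fun D => SomeDtv A D ∧
          Nat.card (SelC 2 α c A D) = 2 ^ (m - 1 + r)).card : ℝ) -
        (∏' i : ℕ, (1 + 1 / (2 : ℝ) ^ i))⁻¹ *
          (∏ i ∈ Finset.range r, (2 / ((2 : ℝ) ^ (i + 1) - 1))) *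
          (((Sq F n).filter fun D => SomeDtv A D).card : ℝ)| ≤
        ε * (((Sq F n).filter fun D => SomeDtv A D).card : ℝ) := by
  have hdl := all2_dl0 hA
  rw [← wt2_eul r]
  set a : ℝ := wt 2 (2 : ℝ) r / Sm 2 (2 : ℝ) 0 with ha
  have key := sqf_law hdl
    (fun D => if (SomeDtv A D ∧ Nat.card (SelC 2 α c A D) = 2 ^ (m - 1 + r)) then (1 : ℝ) else 0)
    (fun D => a * if SomeDtv A D then (1 : ℝ) else 0)
    (fun D => if SomeDtv A D then (1 : ℝ) else 0) ?_ ε hε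
  · obtain ⟨n₀, h⟩ := key
    refine ⟨n₀, fun n hn => ?_⟩
    have h1 := h n hn
    rw [← Finset.mul_sum, Finset.sum_boole, Finset.sum_boole] at h1
    exact h1
  · intro T hT ε hε
    obtain ⟨hTm, hTd⟩ := sqf_dvd hdl hT
    set D0 : F[X] := ∏ P ∈ T, P with hD0
    have h0 : D0 ≠ 0 := hTm.ne_zero
    by_cases hS : SomeDtv A D0
    · obtain ⟨v, hv, hvD⟩ := hS
      obtain ⟨i, k, hik⟩ := dtv_scl (α := α) hv hvD
      have hG' : GenA 2 (fun k => D0 ^ α * A k) := scl_gen hA h0 hG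
      obtain ⟨n₀, h⟩ := law2 hq hm hm3 hα hc (all2_inj h0 hA) hG' hik r ε hε
      refine ⟨max n₀ 1, fun n hn => ?_⟩
      have h1 := h n ((le_max_left _ _).trans hn)
      have hn1 : 1 ≤ n := (le_max_right _ _).trans hn
      rw [scl_cls hTd n] at h1
      rw [← Finset.mul_sum, Finset.sum_boole, Finset.sum_boole]
      have h2 : (Cls (dl A) n).filter (fun D => SomeDtv A (D0 * D)) = Cls (dl A) n :=
        Finset.filter_true_of_mem fun D hD => (someDtv_iff hD).2 ⟨v, hv, hvD⟩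
      have h3 : (Cls (dl A) n).filter (fun D => SomeDtv A (D0 * D) ∧
            Nat.card (SelC 2 α c A (D0 * D)) = 2 ^ (m - 1 + r)) =
          (Cls (dl A) n).filter fun D => rkS 2 α c (fun k => D0 ^ α * A k) D = r := by
        refine Finset.filter_congr fun D hD => ?_
        rw [← all2_rk hq hm hα hc hA h0 hTd hn1 hD r]
        exact ⟨fun h4 => h4.2, fun h4 => ⟨(someDtv_iff hD).2 ⟨v, hv, hvD⟩, h4⟩⟩
      rw [h2, h3]
      exact h1
    · refine ⟨0, fun n _ => ?_⟩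
      have h5 : ∀ D ∈ Cls (dl A) n, ¬ SomeDtv A (D0 * D) := fun D hD h => hS ((someDtv_iff hD).1 h)
      have e1 : ∑ D ∈ Cls (dl A) n, (if (SomeDtv A (D0 * D) ∧
          Nat.card (SelC 2 α c A (D0 * D)) = 2 ^ (m - 1 + r)) then (1 : ℝ) else 0) = 0 :=
        Finset.sum_eq_zero fun D hD => if_neg fun h => h5 D hD h.1
      have e2 : ∑ D ∈ Cls (dl A) n, (a * if SomeDtv A (D0 * D) then (1 : ℝ) else 0) = 0 :=
        Finset.sum_eq_zero fun D hD => by rw [if_neg (h5 D hD), mul_zero]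
      have e3 : ∑ D ∈ Cls (dl A) n, (if SomeDtv A (D0 * D) then (1 : ℝ) else 0) = 0 :=
        Finset.sum_eq_zero fun D hD => if_neg (h5 D hD)
      rw [e1, e2, e3]
      simp

end Pool.Agent.H94.PN
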