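import Pool.Agent.H94.PN.GENA

set_option autoImplicit false

/-!
# [H94 PN GENF] The hypothesis on the Laplace operators without the space `XX`

`lapf ℓ A v` acts on all of `Fin m → ZMod ℓ`.  `genF_A`: `f : XX → XX` linear; `m` is invertible in `ZMod ℓ`; `p x = x - (m⁻¹ ∑ x) (1, ..., 1)` is a linear map onto `XX`, the identity on `XX`; `f' = f ∘ p` (as a map to `Fin m → ZMod ℓ`) preserves the
sum-zero vectors, so by `hG` there is `g ∈ adjoin {lapf v}` with `g = f'` on the sum-zero vectors.  By `Algebra.adjoin_induction`: for every `g ∈ adjoin {lapf v}` there is `g₀ ∈ adjoin {lapv v}` with `(g₀ x).1 = g x.1` for all `x : XX` (`lapf v`: `g₀ = lapv v`, `lap_apply`, the term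
`i = k` of `lapf` is `0`; scalars, sums, products).  So `f = g₀ ∈ adjoin {lapv v}`.
* `genA_F` (converse): `f` restricts to `f₀ : XX → XX`; by `Algebra.adjoin_induction` for every `g₀ ∈ adjoin {lapv v}` there is `g ∈ adjoin {lapf v}` with `g x.1 = (g₀ x).1` on `XX`.
-/

namespace Pool.Agent.H94.PN

open Polynomial
open Pool.Agent.H94.PL
open Pool.Agent.H94.PM

/-- the Laplace operator on all vectors -/
noncomputable def lapf (ℓ : ℕ) {m : ℕ} {F : Type} [Field F] (A : Fin m → F[X]) (v : F[X]) :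
    Module.End (ZMod ℓ) (Fin m → ZMod ℓ) where
  toFun x k := ∑ i, ((multiplicity v (A k - A i) : ℕ) : ZMod ℓ) * (x k - x i)
  map_add' x y := by
    funext k
    simp only [Pi.add_apply, ← Finset.sum_add_distrib]
    exact Finset.sum_congr rfl fun i _ => by ring
  map_smul' r x := by
    funext k
    simp only [Pi.smul_apply, smul_eq_mul, RingHom.id_apply, Finset.mul_sum]
    exact Finset.sum_congr rfl fun i _ => by ring

/-- the operators `lapf` generate all endomorphisms of the space of the vectors with sum zero -/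
def GenF (ℓ : ℕ) {m : ℕ} {F : Type} [Field F] (A : Fin m → F[X]) : Prop :=
  ∀ f : Module.End (ZMod ℓ) (Fin m → ZMod ℓ),
    (∀ x : Fin m → ZMod ℓ, ∑ k, x k = 0 → ∑ k, f x k = 0) →
    ∃ g ∈ Algebra.adjoin (ZMod ℓ) {L | ∃ v : F[X], Irreducible v ∧ L = lapf ℓ A v},
      ∀ x : Fin m → ZMod ℓ, ∑ k, x k = 0 → g x = f x

private theorem lapf_lapv {ℓ m : ℕ} [hl : Fact ℓ.Prime] {F : Type} [Field F] [Finite F]
    (A : Fin m → F[X]) (v : F[X]) (x : XX m ℓ) :
    lapf ℓ A v x.1 = (lapv ℓ A v x).1 := by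
  classical
  funext k
  change ∑ i, ((multiplicity v (A k - A i) : ℕ) : ZMod ℓ) * (x.1 k - x.1 i) =
    (lap (add_zero 0) (mlt ℓ A v) (fun _ _ _ => mlt_symm A v _ _) x).1 k
  rw [lap_apply, ← Finset.add_sum_erase Finset.univ _ (Finset.mem_univ k), sub_self (x.1 k),
    mul_zero, zero_add]
  rfl

private theorem lift_fv {ℓ m : ℕ} [hl : Fact ℓ.Prime] {F : Type} [Field F] [Finite F]
    {A : Fin m → F[X]} {g : Module.End (ZMod ℓ) (Fin m → ZMod ℓ)}
    (hg : g ∈ Algebra.adjoin (ZMod ℓ) {L | ∃ v : F[X], Irreducible v ∧ L = lapf ℓ A v}) :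
    ∃ g₀ ∈ Algebra.adjoin (ZMod ℓ) {f : Module.End (ZMod ℓ) (XX m ℓ) |
      ∃ v : F[X], Irreducible v ∧ f = lapv ℓ A v}, ∀ x : XX m ℓ, g x.1 = (g₀ x).1 := by
  induction hg using Algebra.adjoin_induction with
  | mem g hg =>
    obtain ⟨v, hv, rfl⟩ := hg
    exact ⟨lapv ℓ A v, Algebra.subset_adjoin ⟨v, hv, rfl⟩, fun x => lapf_lapv A v x⟩
  | algebraMap r =>
    refine ⟨algebraMap _ _ r, Subalgebra.algebraMap_mem _ r, fun x => ?_⟩
    rw [Module.algebraMap_end_apply, Module.algebraMap_end_apply]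
    rfl
  | add g g' _ _ h h' =>
    obtain ⟨g₀, h1, h2⟩ := h
    obtain ⟨g₁, h3, h4⟩ := h'
    refine ⟨g₀ + g₁, Subalgebra.add_mem _ h1 h3, fun x => ?_⟩
    rw [LinearMap.add_apply, LinearMap.add_apply, h2, h4]
    rfl
  | mul g g' _ _ h h' =>
    obtain ⟨g₀, h1, h2⟩ := h
    obtain ⟨g₁, h3, h4⟩ := h'
    refine ⟨g₀ * g₁, Subalgebra.mul_mem _ h1 h3, fun x => ?_⟩
    rw [Module.End.mul_apply, Module.End.mul_apply, h4, h2]

private theorem lift_vf {ℓ m : ℕ} [hl : Fact ℓ.Prime] {F : Type} [Field F] [Finite F]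
    {A : Fin m → F[X]} {g₀ : Module.End (ZMod ℓ) (XX m ℓ)}
    (hg : g₀ ∈ Algebra.adjoin (ZMod ℓ) {f : Module.End (ZMod ℓ) (XX m ℓ) |
      ∃ v : F[X], Irreducible v ∧ f = lapv ℓ A v}) :
    ∃ g ∈ Algebra.adjoin (ZMod ℓ) {L | ∃ v : F[X], Irreducible v ∧ L = lapf ℓ A v},
      ∀ x : XX m ℓ, g x.1 = (g₀ x).1 := by
  induction hg using Algebra.adjoin_induction with
  | mem g hg =>
    obtain ⟨v, hv, rfl⟩ := hg
    exact ⟨lapf ℓ A v, Algebra.subset_adjoin ⟨v, hv, rfl⟩, fun x => lapf_lapv A v x⟩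
  | algebraMap r =>
    refine ⟨algebraMap _ _ r, Subalgebra.algebraMap_mem _ r, fun x => ?_⟩
    rw [Module.algebraMap_end_apply, Module.algebraMap_end_apply]
    rfl
  | add g g' _ _ h h' =>
    obtain ⟨g₀, h1, h2⟩ := h
    obtain ⟨g₁, h3, h4⟩ := h'
    refine ⟨g₀ + g₁, Subalgebra.add_mem _ h1 h3, fun x => ?_⟩
    rw [LinearMap.add_apply, LinearMap.add_apply, h2, h4]
    rfl
  | mul g g' _ _ h h' =>
    obtain ⟨g₀, h1, h2⟩ := h
    obtain ⟨g₁, h3, h4⟩ := h'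
    refine ⟨g₀ * g₁, Subalgebra.mul_mem _ h1 h3, fun x => ?_⟩
    rw [Module.End.mul_apply, Module.End.mul_apply, h4, h2]

theorem genF_A {ℓ m : ℕ} [hl : Fact ℓ.Prime] {F : Type} [Field F] [Finite F] (hm : Nat.Coprime m ℓ)
    {A : Fin m → F[X]} (hG : GenF ℓ A) : GenA ℓ A := by
  classical
  have hm0 : (m : ZMod ℓ) ≠ 0 := by
    intro h0
    rw [ZMod.natCast_eq_zero_iff] at h0
    have h1 := Nat.dvd_gcd h0 dvd_rfl
    rw [Nat.Coprime] at hm
    rw [hm] at h1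
    exact hl.out.one_lt.ne' (Nat.dvd_one.1 h1)
  -- the projection
  let p0 : (Fin m → ZMod ℓ) →ₗ[ZMod ℓ] (Fin m → ZMod ℓ) :=
    { toFun := fun x k => x k - (m : ZMod ℓ)⁻¹ * ∑ i, x i
      map_add' := by
        intro x y
        funext k
        simp only [Pi.add_apply, Finset.sum_add_distrib]
        ring
      map_smul' := by
        intro r x
        funext k
        simp only [Pi.smul_apply, smul_eq_mul, RingHom.id_apply, ← Finset.mul_sum]
        ring }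
  have hp0 : ∀ x, p0 x ∈ XM m ℓ := by
    intro x
    change ∑ k, (x k - (m : ZMod ℓ)⁻¹ * ∑ i, x i) = 0
    rw [Finset.sum_sub_distrib, Finset.sum_const, Finset.card_univ, Fintype.card_fin,
      nsmul_eq_mul, ← mul_assoc, mul_inv_cancel₀ hm0, one_mul, sub_self]
  let p : (Fin m → ZMod ℓ) →ₗ[ZMod ℓ] XX m ℓ := p0.codRestrict (XM m ℓ) hp0
  have hpx : ∀ x : XX m ℓ, p x.1 = x := by
    intro x
    apply Subtype.ext
    funext k
    change x.1 k - (m : ZMod ℓ)⁻¹ * ∑ i, x.1 i = x.1 k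
    rw [XX_sum, mul_zero, sub_zero]
  unfold GenA
  rw [eq_top_iff]
  intro f _
  let f' : Module.End (ZMod ℓ) (Fin m → ZMod ℓ) := (XM m ℓ).subtype ∘ₗ (f ∘ₗ p)
  obtain ⟨g, hg1, hg2⟩ := hG f' fun x _ => XX_sum (f (p x))
  obtain ⟨g₀, h1, h2⟩ := lift_fv hg1
  have h3 : f = g₀ := by
    refine LinearMap.ext fun x => Subtype.ext ?_
    rw [← h2 x, hg2 x.1 (XX_sum x)]
    change (f x).1 = (f (p x.1)).1
    rw [hpx]
  rw [h3]
  exact h1

theorem genA_F {ℓ m : ℕ} [hl : Fact ℓ.Prime] {F : Type} [Field F] [Finite F]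
    {A : Fin m → F[X]} (hG : GenA ℓ A) : GenF ℓ A := by
  classical
  intro f hf
  let f₀ : Module.End (ZMod ℓ) (XX m ℓ) := f.restrict (p := XM m ℓ) (q := XM m ℓ) fun x hx => hf x hx
  have h0 : f₀ ∈ Algebra.adjoin (ZMod ℓ) {f : Module.End (ZMod ℓ) (XX m ℓ) |
      ∃ v : F[X], Irreducible v ∧ f = lapv ℓ A v} := by
    rw [hG]
    exact Algebra.mem_top
  obtain ⟨g, h1, h2⟩ := lift_vf h0
  refine ⟨g, h1, fun x hx => ?_⟩
  have h3 := h2 ⟨x, hx⟩
  exact h3

end Pool.Agent.H94.PN
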