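import Pool.Agent.H94.PN.PHI
import Pool.Agent.H94.PN.GS
import Pool.Agent.H94.PM.AVU

set_option autoImplicit false

/-!
# [H94 PN AUE] The averages `AU` for the cosets of `X ⊗ Λ` are equal to `1`

`N = card X`, `S = pf Δ`, `V = EE X S` with the form `⟨ε, ξ⟩ = B ε.1 ξ.1 + ∑ v, B (ε.2 v) (ξ.2 v)` (good), `Mv a = (bet a.1, fun v => L v (a.2 v))`; elements of `EE X^k S` are identified with `Fin k → V` by `cpt`.  Let `x₀ = u₀.1`, `c₀ = u₀.2`,
`U = u₀ + TX`, `card U = N ^ k`.  Assume `R t` (otherwise `avu_zero`).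
(1) In `AU` substitute `(a, b) = ∑ τ_u ⊗ (u - u₀)` (see `PHI`): the map `τ ↦ (a, b)` from `{τ | ∑ τ = t}` to `EE(TX) = {(a, b) | (a.1, b.1) ∈ TX, (a.2 v, b.2 v) ∈ TX for all v}` is onto with fibres of equal size (it is a translate of an additive map; onto: for
each coordinate take `τ` with values `1` at `u₀ + λ` and `t - 1` at `u₀`, `0` elsewhere (`λ ≠ 0`)), and `#{τ | ∑ τ = t} = card(Tp) ^ (card U - 1)`, `card EE(TX) = (N ^ k) ^ (1 + card S) = card V ^ k`.  So
`AU = (1 / card V ^ k) ∑_{(a, b) ∈ EE(TX)} ∑_{ε : (ε, a + t ⊗ x₀) ∈ W^k} ps (E)`, `E` the right side of `phi` (with `e = lg (-1)`; the factor `ps (lg (-1) * rS ..)` of `AU` is in the left side of `phi`), `γ = b + t ⊗ c₀`.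
(2) `ε = ε' - (bet x₀, L v x₀)`: by `tor` in each component `(-(bet x₀), -(L_v x₀); t ⊗ x₀) ∈ W^k`, so the condition becomes `(ε', a) ∈ W^k`.  `sym` for `z = (-(bet c₀), -(L_v c₀); t ⊗ c₀)`, `z' = (ε', a)` (summed over the components), with
`bet`: `a.1 · bet c₀ = c₀ · bet a.1 + e (c₀ · a.1)` and `self`, gives `⟨t ⊗ c₀, ε'⟩ = - (c₀ · bet a.1 + ∑ v, c₀ · L_v a_v) + e (t.1 - 1) (c₀ · a.1)`.  Inserting: `E = ⟨b, ε' + Mv a⟩` (`e (t.1 - 1) + e (t.1 + 1) = 2 e t.1 = 0`).
(In detail: `⟨γ, ε⟩ = ⟨b, ε'⟩ + ⟨t ⊗ c₀, ε'⟩ - (b.1 · bet x₀ + t.1 c₀ · bet x₀) - ∑ v, (b_v · L_v x₀ + t.2 v c₀ · L_v x₀)`.)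
(3) `gs` for `V`, `Mv`, `W = dt.W t`: the sum over `(a, b) ∈ TX ⟨,⟩ Λ = EE(TX)` (componentwise: `(a, b) ∈ TX ⟨,⟩ Λ` iff the coordinates are in `TX B Λ`, take `y ∈ V` with one nonzero coordinate; conversely sums) is `card V ^ k`.  So `AU = 1`.
-/

namespace Pool.Agent.H94.PN

open Polynomial
open Pool.Agent.H94.PL
open Pool.Agent.H94.PM
open Pool.Agent.H94.PC (Mo Sq Pr pf om Mn mem_Mo mem_Sq mem_Pr mem_pf mem_pf')

section
variable {ℓ : ℕ} {X S : Type} [AddCommGroup X] [Module (ZMod ℓ) X] [Fintype S]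

/-- the form of the phases -/
def bt (B : X →ₗ[ZMod ℓ] X →ₗ[ZMod ℓ] ZMod ℓ) (dt : Dat ℓ X S) (z z' : EE X S × EE X S) : ZMod ℓ :=
  B z.2.1 (z'.1.1 + dt.bet z'.2.1) + ∑ v, B (z.2.2 v) (z'.1.2 v + dt.L v (z'.2.2 v))

/-- the properties of the local conditions for the type `t` -/
structure TOK (B : X →ₗ[ZMod ℓ] X →ₗ[ZMod ℓ] ZMod ℓ) (dt : Dat ℓ X S) (t : Tp ℓ S) : Prop where
  card : Nat.card (dt.W t) = Nat.card (EE X S)
  sym : ∀ z ∈ dt.W t, ∀ z' ∈ dt.W t, bt B dt z z' = bt B dt z' z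
  alt : ℓ = 2 → ∀ z ∈ dt.W t, bt B dt z z = 0
  tor : ∀ σ : X, (((-dt.bet σ, fun v => -dt.L v σ), (t.1 • σ, fun v => t.2 v • σ)) :
    EE X S × EE X S) ∈ dt.W t

end

section mg
variable {V : Type} [Fintype V] [DecidableEq V] (U : Finset V) {M : Type} [AddCommMonoid M]

private theorem aue_mg {M' : Type} [AddCommMonoid M'] (φ : V → M → M') (hφ : ∀ u, φ u 0 = 0)
    (τ : {u // u ∈ U} → M) :
    ∑ u, φ u (mgU U τ (fun _ => 0) u) = ∑ u : {u // u ∈ U}, φ u.1 (τ u) := by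
  rw [add_mgU U (fun u => φ u (mgU U τ (fun _ => 0) u))]
  simp only [mgU_in, mgU_out, hφ, Finset.sum_const_zero, add_zero]

private theorem aue_sum0 (τ : {u // u ∈ U} → M) :
    ∑ u, mgU U τ (fun _ => 0) u = ∑ u, τ u :=
  aue_mg U (fun _ m => m) (fun _ => rfl) τ

end mg

private theorem aue_sum_inst {α M : Type*} [AddCommMonoid M] (i1 i2 : Fintype α) (f : α → M) :
    (@Finset.univ α i1).sum f = (@Finset.univ α i2).sum f := by
  rw [Subsingleton.elim i1 i2]

private theorem aue_card_inst {α : Type*} (i1 i2 : Fintype α) :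
    @Fintype.card α i1 = @Fintype.card α i2 := by
  rw [Subsingleton.elim i1 i2]

section gk
variable {ℓ : ℕ} [hl : Fact ℓ.Prime] {X : Type} [AddCommGroup X] [Module (ZMod ℓ) X] [Fintype X]
variable {S : Type} [Fintype S] (B : X →ₗ[ZMod ℓ] X →ₗ[ZMod ℓ] ZMod ℓ) (dt : Dat ℓ X S)

open Classical in
/-- one term of `GK` -/
private noncomputable def aueT (τ : X × X → Tp ℓ S) (ε : EE X S) : ℂ :=
  if (ε, tens τ) ∈ dt.W (∑ u, τ u) then ps (phs B dt ε τ) else 0

private theorem aue_gk [i : Fintype (EE X S)] (R : Tp ℓ S → Prop) (τ : X × X → Tp ℓ S)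
    (hR : R (∑ u, τ u)) : GK B dt R τ = ∑ ε : EE X S, aueT B dt τ ε := by
  unfold GK
  rw [if_pos hR]
  exact aue_sum_inst _ _ _

end gk

section au
variable {ℓ : ℕ} [hl : Fact ℓ.Prime] {V : Type} [Fintype V] [DecidableEq V]
  {F : Type} [Field F] [Finite F] (χ : LChar F ℓ) {Δ : F[X]}

open Classical in
/-- one term of `AU` -/
private noncomputable def aueA (C : CD V ℓ) (G : (V → Tp ℓ (pf Δ)) → ℂ)
    (U : Finset V) (t : Tp ℓ (pf Δ)) (τ : {u // u ∈ U} → Tp ℓ (pf Δ)) : ℂ :=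
  if ∑ u, τ u = t then
    G (mgU U τ fun _ => 0) * ps (χ.lg (-1) * rS C U fun u => (τ u).1) else 0

private theorem aue_eq [i : Fintype (Tp ℓ (pf Δ))] (C : CD V ℓ)
    (G : (V → Tp ℓ (pf Δ)) → ℂ) (U : Finset V) (t : Tp ℓ (pf Δ)) :
    AU χ C Δ G U t = (1 / (Fintype.card (Tp ℓ (pf Δ)) : ℂ) ^ (U.card - 1)) *
      ∑ τ : {u // u ∈ U} → Tp ℓ (pf Δ), aueA χ C G U t τ := by
  unfold AU
  refine congrArg₂ (fun a b : ℂ => a * b) (congrArg (fun n : ℕ => 1 / (n : ℂ) ^ (U.card - 1))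
    (aue_card_inst _ _)) ?_
  refine (Finset.sum_congr rfl fun τ _ => ?_).trans (aue_sum_inst _ _ _)
  by_cases h : ∑ u, τ u = t
  · rw [if_pos h, aueA, if_pos h]
  · rw [if_neg h, aueA, if_neg h]

end au

section form
variable {ℓ : ℕ} {X : Type} [AddCommGroup X] [Module (ZMod ℓ) X] {S : Type} [Fintype S]

/-- the form on `EE X S` -/
private noncomputable def aueB (B : X →ₗ[ZMod ℓ] X →ₗ[ZMod ℓ] ZMod ℓ) :
    EE X S →ₗ[ZMod ℓ] EE X S →ₗ[ZMod ℓ] ZMod ℓ :=
  LinearMap.mk₂ (ZMod ℓ) (fun x y => B x.1 y.1 + ∑ v, B (x.2 v) (y.2 v))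
    (fun x x' y => by
      simp only [Prod.fst_add, Prod.snd_add, Pi.add_apply, map_add, LinearMap.add_apply, Finset.sum_add_distrib]
      ring)
    (fun c x y => by
      simp only [Prod.smul_fst, Prod.smul_snd, Pi.smul_apply, map_smul, LinearMap.smul_apply, smul_eq_mul,
        Finset.mul_sum, mul_add])
    (fun x y y' => by
      simp only [Prod.fst_add, Prod.snd_add, Pi.add_apply, map_add, Finset.sum_add_distrib]
      ring)
    (fun c x y => by
      simp only [Prod.smul_fst, Prod.smul_snd, Pi.smul_apply, map_smul, smul_eq_mul,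
        Finset.mul_sum, mul_add])

private theorem aueB_apply (B : X →ₗ[ZMod ℓ] X →ₗ[ZMod ℓ] ZMod ℓ) (x y : EE X S) :
    aueB B x y = B x.1 y.1 + ∑ v, B (x.2 v) (y.2 v) := rfl

private theorem aueB_good {B : X →ₗ[ZMod ℓ] X →ₗ[ZMod ℓ] ZMod ℓ} (hB : BGood B) :
    BGood (aueB (S := S) B) := by
  classical
  refine ⟨?_, ?_⟩
  · intro x y
    rw [aueB_apply, aueB_apply, hB.symm]
    congr 1
    exact Finset.sum_congr rfl fun v _ => hB.symm _ _
  · intro x hx
    refine Prod.ext ?_ ?_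
    · refine hB.nondeg _ fun y => ?_
      have := hx (y, 0)
      rw [aueB_apply] at this
      simpa using this
    · funext v
      refine hB.nondeg _ fun y => ?_
      have h1 := hx (0, Pi.single v y)
      rw [aueB_apply, Finset.sum_eq_single v] at h1
      · simpa using h1
      · intro w _ hw
        simp [Pi.single_eq_of_ne hw]
      · intro h
        exact absurd (Finset.mem_univ _) h

/-- the map on `EE X S` -/
private def aueM (dt : Dat ℓ X S) : EE X S →ₗ[ZMod ℓ] EE X S where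
  toFun a := (dt.bet a.1, fun v => dt.L v (a.2 v))
  map_add' a b := by
    refine Prod.ext ?_ ?_
    · simp
    · funext v
      simp
  map_smul' c a := by
    refine Prod.ext ?_ ?_
    · simp
    · funext v
      simp

private theorem aueM_apply (dt : Dat ℓ X S) (a : EE X S) :
    aueM dt a = (dt.bet a.1, fun v => dt.L v (a.2 v)) := rfl

end form

variable {ℓ k : ℕ} [hl : Fact ℓ.Prime] {X : Type} [AddCommGroup X] [Module (ZMod ℓ) X] [Fintype X]
  [DecidableEq X] {B : X →ₗ[ZMod ℓ] X →ₗ[ZMod ℓ] ZMod ℓ}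
  {F : Type} [Field F] [Finite F] (χ : LChar F ℓ) {Δ : F[X]}

/-- the coordinates -/
private def aueE (X : Type) (k : ℕ) (S : Type) : (Fin k → EE X S) ≃ EE (Fin k → X) S where
  toFun f := (fun i => (f i).1, fun v i => (f i).2 v)
  invFun z := fun i => cpt i z
  left_inv _ := rfl
  right_inv _ := rfl

private theorem aue_TX {S : Type} [Fintype S] {Λ : Submodule (ZMod ℓ) (H0 ℓ k)} (a b : EE (Fin k → X) S) :
    ((aueE X k S).symm a, (aueE X k S).symm b) ∈ TX (aueB (S := S) B) Λ ↔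
      (a.1, b.1) ∈ TX B Λ ∧ ∀ v, (a.2 v, b.2 v) ∈ TX B Λ := by
  classical
  constructor
  · intro h
    constructor
    · intro y
      have h1 := h (y, 0)
      have h2 : ((fun i => aueB (S := S) B (y, 0) ((aueE X k S).symm a i),
          fun i => aueB (S := S) B (y, 0) ((aueE X k S).symm b i)) : H0 ℓ k) =
          (fun i => B y (a.1 i), fun i => B y (b.1 i)) := by
        refine Prod.ext ?_ ?_
        · funext i
          change aueB (S := S) B (y, 0) (cpt i a) = B y (a.1 i)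
          rw [aueB_apply]
          simp [cpt]
        · funext i
          change aueB (S := S) B (y, 0) (cpt i b) = B y (b.1 i)
          rw [aueB_apply]
          simp [cpt]
      rw [← h2]
      exact h1
    · intro v y
      have h1 := h (0, Pi.single v y)
      have h3 : ∀ (c : EE (Fin k → X) S) (i : Fin k), aueB (S := S) B (0, Pi.single v y) (cpt i c) = B y (c.2 v i) := by
        intro c i
        rw [aueB_apply, Finset.sum_eq_single v]
        · simp [cpt]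
        · intro w _ hw
          simp [Pi.single_eq_of_ne hw]
        · intro h
          exact absurd (Finset.mem_univ _) h
      have h2 : ((fun i => aueB (S := S) B (0, Pi.single v y) ((aueE X k S).symm a i),
          fun i => aueB (S := S) B (0, Pi.single v y) ((aueE X k S).symm b i)) : H0 ℓ k) =
          (fun i => B y (a.2 v i), fun i => B y (b.2 v i)) := by
        refine Prod.ext ?_ ?_
        · funext i
          exact h3 a i
        · funext i
          exact h3 b i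
      rw [← h2]
      exact h1
  · rintro ⟨h1, h2⟩ y
    have h3 : ((fun i => aueB (S := S) B y ((aueE X k S).symm a i),
        fun i => aueB (S := S) B y ((aueE X k S).symm b i)) : H0 ℓ k) =
        ((fun i => B y.1 (a.1 i), fun i => B y.1 (b.1 i)) : H0 ℓ k) +
          ∑ v, ((fun i => B (y.2 v) (a.2 v i), fun i => B (y.2 v) (b.2 v i)) : H0 ℓ k) := by
      refine Prod.ext ?_ ?_
      · rw [Prod.fst_add, Prod.fst_sum]
        funext i
        rw [Pi.add_apply, Finset.sum_apply]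
        rfl
      · rw [Prod.snd_add, Prod.snd_sum]
        funext i
        rw [Pi.add_apply, Finset.sum_apply]
        rfl
    change ((fun i => aueB (S := S) B y ((aueE X k S).symm a i),
        fun i => aueB (S := S) B y ((aueE X k S).symm b i)) : H0 ℓ k) ∈ Λ
    rw [h3]
    exact Λ.add_mem (h1 y.1) (Λ.sum_mem fun v _ => h2 v (y.2 v))

open Classical in
/-- the sum over the constants -/
private noncomputable def aueK {S : Type} [Fintype S] (B : X →ₗ[ZMod ℓ] X →ₗ[ZMod ℓ] ZMod ℓ) (dt : Dat ℓ X S)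
    (k : ℕ) (t : Tp ℓ S) (a b : EE (Fin k → X) S) : ℂ :=
  ∑ ε : EE (Fin k → X) S, if (ε, a) ∈ (dtk dt k).W t then
    ps (aueB (Bk B k) b (ε + aueM (dtk dt k) a)) else 0

open Classical in
private theorem aue_gs {S : Type} [Fintype S] (hB : BGood B) {dt : Dat ℓ X S} {t : Tp ℓ S} (ht : TOK B dt t)
    {Λ : Submodule (ZMod ℓ) (H0 ℓ k)} (hΛ : Lag ℓ k Λ) :
    ∑ p : EE (Fin k → X) S × EE (Fin k → X) S, (if (p.1.1, p.2.1) ∈ TX B Λ ∧ ∀ v, (p.1.2 v, p.2.2 v) ∈ TX B Λ then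
      aueK B dt k t p.1 p.2 else 0) = (Nat.card (EE X S) : ℂ) ^ k := by
  rw [Nat.card_eq_fintype_card, ← gs (aueB_good (S := S) hB) (aueM dt) (dt.W t) ht.card (fun z hz z' hz' => ht.sym z hz z' hz')
    (fun h2 z hz => ht.alt h2 z hz) hΛ]
  rw [← Equiv.sum_comp ((aueE X k S).symm.prodCongr (aueE X k S).symm)]
  refine Finset.sum_congr rfl fun p _ => ?_
  have h1 := aue_TX (B := B) (Λ := Λ) p.1 p.2
  have h2 : ((aueE X k S).symm.prodCongr (aueE X k S).symm) p = ((aueE X k S).symm p.1, (aueE X k S).symm p.2) := rfl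
  rw [h2]
  by_cases h3 : (p.1.1, p.2.1) ∈ TX B Λ ∧ ∀ v, (p.1.2 v, p.2.2 v) ∈ TX B Λ
  · rw [if_pos h3, if_pos (h1.2 h3)]
    unfold aueK
    rw [← Equiv.sum_comp (aueE X k S).symm]
    refine Finset.sum_congr rfl fun ε _ => ?_
    by_cases h4 : (ε, p.1) ∈ (dtk dt k).W t
    · rw [if_pos h4, if_pos (show ∀ i, ((aueE X k S).symm ε i, ((aueE X k S).symm p.1, (aueE X k S).symm p.2).1 i) ∈
        dt.W t from mem_dtk_W.1 h4)]
      congr 1
      have h5 : ∀ i, aueB (S := S) B ((aueE X k S).symm p.2 i) ((aueE X k S).symm ε i + aueM dt ((aueE X k S).symm p.1 i)) =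
          B (p.2.1 i) (ε.1 i + dt.bet (p.1.1 i)) + ∑ v, B (p.2.2 v i) (ε.2 v i + dt.L v (p.1.2 v i)) := fun i => rfl
      rw [Finset.sum_congr rfl fun i _ => h5 i, Finset.sum_add_distrib, Finset.sum_comm]
      rfl
    · rw [if_neg h4, if_neg (show ¬ ∀ i, ((aueE X k S).symm ε i, ((aueE X k S).symm p.1, (aueE X k S).symm p.2).1 i) ∈
        dt.W t from fun h => h4 (mem_dtk_W.2 h))]
  · rw [if_neg h3, if_neg (fun h => h3 (h1.1 h))]

private theorem aue_resum {S : Type} [Fintype S] (Λ : Submodule (ZMod ℓ) (H0 ℓ k))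
    (f : EE (Fin k → X) S → EE (Fin k → X) S → ℂ) [i1 : Fintype (TX B Λ × (S → TX B Λ))]
    [i2 : Fintype (EE (Fin k → X) S × EE (Fin k → X) S)]
    [DecidablePred fun p : EE (Fin k → X) S × EE (Fin k → X) S =>
      (p.1.1, p.2.1) ∈ TX B Λ ∧ ∀ v, (p.1.2 v, p.2.2 v) ∈ TX B Λ] :
    ∑ g : TX B Λ × (S → TX B Λ), f (g.1.1.1, fun v => (g.2 v).1.1) (g.1.1.2, fun v => (g.2 v).1.2) =
      ∑ p : EE (Fin k → X) S × EE (Fin k → X) S,
        (if (p.1.1, p.2.1) ∈ TX B Λ ∧ ∀ v, (p.1.2 v, p.2.2 v) ∈ TX B Λ then f p.1 p.2 else 0) := by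
  rw [← Finset.sum_filter]
  apply Finset.sum_bij (fun g _ => (((g.1.1.1, fun v => (g.2 v).1.1), (g.1.1.2, fun v => (g.2 v).1.2)) :
    EE (Fin k → X) S × EE (Fin k → X) S))
  · intro g _
    rw [Finset.mem_filter]
    exact ⟨Finset.mem_univ _, g.1.2, fun v => (g.2 v).2⟩
  · intro g _ g' _ hg
    have e1 : g.1.1.1 = g'.1.1.1 := congrArg (fun p => p.1.1) hg
    have e2 : g.1.1.2 = g'.1.1.2 := congrArg (fun p => p.2.1) hg
    have e3 : ∀ v, (g.2 v).1.1 = (g'.2 v).1.1 := fun v => congrArg (fun p => p.1.2 v) hg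
    have e4 : ∀ v, (g.2 v).1.2 = (g'.2 v).1.2 := fun v => congrArg (fun p => p.2.2 v) hg
    refine Prod.ext (Subtype.ext (Prod.ext e1 e2)) ?_
    funext v
    exact Subtype.ext (Prod.ext (e3 v) (e4 v))
  · intro p hp
    obtain ⟨_, h1, h2⟩ := Finset.mem_filter.1 hp
    exact ⟨(⟨_, h1⟩, fun v => ⟨_, h2 v⟩), Finset.mem_univ _, rfl⟩
  · intro g _
    rfl

/-- symmetry for the powers -/
private theorem aue_sym {S : Type} [Fintype S] {dt : Dat ℓ X S} {t : Tp ℓ S} (ht : TOK B dt t)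
    {z z' : EE (Fin k → X) S × EE (Fin k → X) S} (hz : z ∈ (dtk dt k).W t) (hz' : z' ∈ (dtk dt k).W t) :
    bt (Bk B k) (dtk dt k) z z' = bt (Bk B k) (dtk dt k) z' z := by
  have key : ∀ w w' : EE (Fin k → X) S × EE (Fin k → X) S, bt (Bk B k) (dtk dt k) w w' =
      ∑ i, bt B dt (cpt i w.1, cpt i w.2) (cpt i w'.1, cpt i w'.2) := by
    intro w w'
    unfold bt
    rw [Finset.sum_add_distrib, Finset.sum_comm]
    rfl
  rw [key, key]
  exact Finset.sum_congr rfl fun i _ => ht.sym _ (hz i) _ (hz' i)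

private theorem aue_tor {S : Type} [Fintype S] {dt : Dat ℓ X S} {t : Tp ℓ S} (ht : TOK B dt t) (σ : Fin k → X) :
    (((-(dtk dt k).bet σ, fun v => -(dtk dt k).L v σ), (t.1 • σ, fun v => t.2 v • σ)) :
      EE (Fin k → X) S × EE (Fin k → X) S) ∈ (dtk dt k).W t := fun i => ht.tor (σ i)

private theorem aue_bet {S : Type} {dt : Dat ℓ X S} {e : ZMod ℓ} (hd : DOK B dt e) (x y : Fin k → X) :
    Bk B k y ((dtk dt k).bet x) = Bk B k x ((dtk dt k).bet y) + e * Bk B k x y := by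
  rw [Bk_apply, Bk_apply, Bk_apply, Finset.mul_sum, ← Finset.sum_add_distrib]
  exact Finset.sum_congr rfl fun i _ => hd.bet (x i) (y i)

private theorem aue_self {S : Type} (hB : BGood B) {dt : Dat ℓ X S} {e : ZMod ℓ} (hd : DOK B dt e) (v : S)
    (x y : Fin k → X) :
    Bk B k y ((dtk dt k).L v x) = Bk B k x ((dtk dt k).L v y) := by
  rw [Bk_apply, Bk_apply]
  refine Finset.sum_congr rfl fun i _ => ?_
  change B (y i) (dt.L v (x i)) = B (x i) (dt.L v (y i))
  rw [← hd.self, hB.symm]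

/-- the value for one tuple of types -/
private theorem aue_val {S : Type} [Fintype S] (hB : BGood B) {dt : Dat ℓ X S} {e : ZMod ℓ} (hd : DOK B dt e)
    {t : Tp ℓ S} (ht : TOK B dt t) {Λ : Submodule (ZMod ℓ) (H0 ℓ k)} (hΛ : Lag ℓ k Λ)
    (u₀ : (Fin k → X) × (Fin k → X)) (U : Finset ((Fin k → X) × (Fin k → X)))
    (h : ∀ u ∈ U, u - u₀ ∈ TX B Λ) (R : Tp ℓ S → Prop) (hR : R t) (τ : {u // u ∈ U} → Tp ℓ S) (hτ : ∑ u, τ u = t) :
    GK (Bk B k) (dtk dt k) R (mgU U τ fun _ => 0) * ps (e * rS (CDX (Bk B k)) U (fun u => (τ u).1)) =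
      aueK B dt k t (tens (mgU U τ fun _ => 0) - (t.1 • u₀.1, fun v => t.2 v • u₀.1))
        (tens2 (mgU U τ fun _ => 0) - (t.1 • u₀.2, fun v => t.2 v • u₀.2)) := by
  classical
  have hs : ∑ u, mgU U τ (fun _ => 0) u = t := (aue_sum0 U τ).trans hτ
  rw [aue_gk (Bk B k) (dtk dt k) R _ (by rw [hs]; exact hR)]
  set T := mgU U τ fun _ => 0 with hT
  set a : EE (Fin k → X) S := tens T - (t.1 • u₀.1, fun v => t.2 v • u₀.1) with ha
  set γ : EE (Fin k → X) S := tens2 T with hγ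
  set b : EE (Fin k → X) S := γ - (t.1 • u₀.2, fun v => t.2 v • u₀.2) with hb
  set σ : EE (Fin k → X) S := (-(dtk dt k).bet u₀.1, fun v => -(dtk dt k).L v u₀.1) with hσ
  rw [Finset.sum_mul, ← Equiv.sum_comp (Equiv.addRight σ)]
  have hK : aueK B dt k t a b = ∑ ε : EE (Fin k → X) S, if (ε, a) ∈ (dtk dt k).W t then
    ps (aueB (Bk B k) b (ε + aueM (dtk dt k) a)) else 0 := by
    unfold aueK
    refine (aue_sum_inst _ _ _).trans (Finset.sum_congr rfl fun ε _ => ?_)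
    by_cases h4 : (ε, a) ∈ (dtk dt k).W t
    · rw [if_pos h4]
    · rw [if_neg h4]
  rw [hK]
  refine Finset.sum_congr rfl fun ε _ => ?_
  have hmem : (Equiv.addRight σ ε, tens T) ∈ (dtk dt k).W (∑ u, T u) ↔ (ε, a) ∈ (dtk dt k).W t := by
    rw [hs]
    have e1 : ((Equiv.addRight σ ε, tens T) : EE (Fin k → X) S × EE (Fin k → X) S) =
        (ε, a) + (((-(dtk dt k).bet u₀.1, fun v => -(dtk dt k).L v u₀.1), (t.1 • u₀.1, fun v => t.2 v • u₀.1)) :
      EE (Fin k → X) S × EE (Fin k → X) S) := by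
      refine Prod.ext rfl ?_
      change tens T = a + _
      rw [ha]
      exact (sub_add_cancel _ _).symm
    rw [e1]
    exact Submodule.add_mem_iff_left _ (aue_tor ht u₀.1)
  by_cases h4 : (ε, a) ∈ (dtk dt k).W t
  · rw [aueT, if_pos (hmem.2 h4), if_pos h4, ← ps_add]
    congr 1
    rw [phi hB hd hΛ u₀ U h τ (Equiv.addRight σ ε) hτ hγ ha hb]
    have hsym := aue_sym ht (aue_tor ht u₀.2) h4
    unfold bt at hsym
    simp only at hsym
    have g1 : γ.1 = b.1 + t.1 • u₀.2 := by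
      rw [hb]
      exact (sub_add_cancel _ _).symm
    have g2 : ∀ v, γ.2 v = b.2 v + t.2 v • u₀.2 := by
      intro v
      rw [hb]
      exact (sub_add_cancel _ _).symm
    have e1 : (Equiv.addRight σ ε).1 = ε.1 - (dtk dt k).bet u₀.1 := by
      change ε.1 + -(dtk dt k).bet u₀.1 = _
      rw [sub_eq_add_neg]
    have e2 : ∀ v, (Equiv.addRight σ ε).2 v = ε.2 v - (dtk dt k).L v u₀.1 := by
      intro v
      change ε.2 v + -(dtk dt k).L v u₀.1 = _
      rw [sub_eq_add_neg]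
    rw [aueB_apply, aueM_apply]
    simp only [Prod.fst_add, Prod.snd_add, Pi.add_apply]
    rw [g1, e1]
    have s1 : ∑ v, Bk B k (γ.2 v) ((Equiv.addRight σ ε).2 v) + ∑ v, (t.2 v * Bk B k u₀.2 ((dtk dt k).L v u₀.1) +
        Bk B k u₀.2 ((dtk dt k).L v (a.2 v)) +
        Bk B k (b.2 v) ((dtk dt k).L v u₀.1) + Bk B k (b.2 v) ((dtk dt k).L v (a.2 v))) =
        ∑ v, Bk B k (b.2 v) (ε.2 v + (dtk dt k).L v (a.2 v)) +
        (∑ v, t.2 v * Bk B k u₀.2 (ε.2 v) + ∑ v, Bk B k u₀.2 ((dtk dt k).L v (a.2 v))) := by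
      rw [← Finset.sum_add_distrib, ← Finset.sum_add_distrib, ← Finset.sum_add_distrib]
      refine Finset.sum_congr rfl fun v _ => ?_
      rw [g2, e2]
      simp only [map_add, map_sub, map_smul, LinearMap.add_apply, LinearMap.smul_apply, smul_eq_mul]
      ring
    have s2 : ∑ v, Bk B k (t.2 v • u₀.2) (ε.2 v + (dtk dt k).L v (a.2 v)) =
        ∑ v, t.2 v * Bk B k u₀.2 (ε.2 v) + ∑ v, t.2 v * Bk B k u₀.2 ((dtk dt k).L v (a.2 v)) := by
      rw [← Finset.sum_add_distrib]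
      refine Finset.sum_congr rfl fun v _ => ?_
      simp only [map_add, map_smul, LinearMap.smul_apply, smul_eq_mul]
    have s3 : ∑ v, Bk B k (a.2 v) (-(dtk dt k).L v u₀.2 + (dtk dt k).L v (t.2 v • u₀.2)) =
        ∑ v, t.2 v * Bk B k u₀.2 ((dtk dt k).L v (a.2 v)) - ∑ v, Bk B k u₀.2 ((dtk dt k).L v (a.2 v)) := by
      rw [← Finset.sum_sub_distrib]
      refine Finset.sum_congr rfl fun v _ => ?_
      have h5 := aue_self hB hd v u₀.2 (a.2 v)
      simp only [map_add, map_neg, map_smul, smul_eq_mul]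
      linear_combination (t.2 v - 1) * h5
    rw [s2, s3] at hsym
    have h6 := aue_bet hd u₀.2 a.1
    simp only [map_add, map_neg, map_sub, map_smul, LinearMap.smul_apply, LinearMap.add_apply, smul_eq_mul] at hsym ⊢
    simp only [map_add] at s1
    linear_combination s1 + hsym + (t.1 - 1) * h6 + (t.1 * Bk B k u₀.2 a.1) * hd.two
  · rw [aueT, if_neg (fun h5 => h4 (hmem.1 h5)), if_neg h4, zero_mul]

open Classical in
theorem au_one (hB : BGood B) {dt : Dat ℓ X (pf Δ)} (hd : DOK B dt (χ.lg (-1)))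
    {t : Tp ℓ (pf Δ)} (ht : TOK B dt t) {Λ : Submodule (ZMod ℓ) (H0 ℓ k)} (hΛ : Lag ℓ k Λ)
    (u₀ : (Fin k → X) × (Fin k → X)) (U : Finset ((Fin k → X) × (Fin k → X)))
    (h : ∀ u, u ∈ U ↔ u - u₀ ∈ TX B Λ) (R : Tp ℓ (pf Δ) → Prop) :
    AU χ (CDX (Bk B k)) Δ (GK (Bk B k) (dtk dt k) R) U t = if R t then 1 else 0 := by
  by_cases hR : R t
  swap
  · rw [if_neg hR]
    exact avu_zero (Bk B k) χ (dtk dt k) R U t hR
  rw [if_pos hR]
  have hU : ∀ w ∈ TX B Λ, u₀ + w ∈ U := fun w hw => by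
    rw [h, add_sub_cancel_left]
    exact hw
  have hu : ∀ u ∈ U, u - u₀ ∈ TX B Λ := fun u huU => (h u).1 huU
  obtain ⟨ν, hν⟩ : ∃ ν : {u // u ∈ U} → TX B Λ, ∀ u, (ν u : (Fin k → X) × (Fin k → X)) = u.1 - u₀ :=
    ⟨fun u => ⟨u.1 - u₀, hu u.1 u.2⟩, fun u => rfl⟩
  let Lam : ({u // u ∈ U} → Tp ℓ (pf Δ)) →+ Tp ℓ (pf Δ) × (TX B Λ × (pf Δ → TX B Λ)) :=
    { toFun := fun τ => (∑ u, τ u, (∑ u : {u // u ∈ U}, (τ u).1 • ν u,
        fun v => ∑ u : {u // u ∈ U}, (τ u).2 v • ν u))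
      map_zero' := by
        refine Prod.ext ?_ (Prod.ext ?_ ?_)
        · simp
        · simp
        · funext v
          simp
      map_add' := fun τ η => by
        refine Prod.ext ?_ (Prod.ext ?_ ?_)
        · simp [Finset.sum_add_distrib]
        · simp [Finset.sum_add_distrib, add_smul]
        · funext v
          simp [Finset.sum_add_distrib, add_smul] }
  have hLd : ∀ τ, Lam τ = (∑ u, τ u, (∑ u : {u // u ∈ U}, (τ u).1 • ν u,
        fun v => ∑ u : {u // u ∈ U}, (τ u).2 v • ν u)) := fun τ => rfl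
  have hsur : Function.Surjective Lam := by
    rintro ⟨s, w, W⟩
    let δ : TX B Λ → {u // u ∈ U} → ZMod ℓ := fun x u => if u = ⟨u₀ + x.1, hU x.1 x.2⟩ then 1 else 0
    have hδ1 : ∀ x, ∑ u, δ x u = 1 := fun x => by
      simp only [δ, Finset.sum_ite_eq', Finset.mem_univ, if_true]
    have hδ2 : ∀ x : TX B Λ, ∑ u : {u // u ∈ U}, δ x u • (ν u : (Fin k → X) × (Fin k → X)) = x.1 := fun x => by
      simp only [δ, ite_smul, one_smul, zero_smul, Finset.sum_ite_eq', Finset.mem_univ, if_true]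
      rw [hν]
      exact add_sub_cancel_left _ _
    refine ⟨fun u => (s.1 * δ 0 u + δ w u - δ 0 u, fun v => s.2 v * δ 0 u + δ (W v) u - δ 0 u), ?_⟩
    rw [hLd]
    refine Prod.ext (Prod.ext ?_ ?_) (Prod.ext ?_ ?_)
    · show (∑ u, _ : Tp ℓ (pf Δ)).1 = s.1
      rw [Prod.fst_sum]
      simp only [Finset.sum_sub_distrib, Finset.sum_add_distrib, ← Finset.mul_sum, hδ1]
      ring
    · funext v
      show (∑ u, _ : Tp ℓ (pf Δ)).2 v = s.2 v
      rw [Prod.snd_sum, Finset.sum_apply]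
      simp only [Finset.sum_sub_distrib, Finset.sum_add_distrib, ← Finset.mul_sum, hδ1]
      ring
    · apply Subtype.ext
      change ((∑ u : {u // u ∈ U}, (s.1 * δ 0 u + δ w u - δ 0 u) • ν u : TX B Λ) : (Fin k → X) × (Fin k → X)) = w.1
      rw [Submodule.coe_sum]
      simp only [Submodule.coe_smul, add_smul, sub_smul, mul_smul, Finset.sum_sub_distrib, Finset.sum_add_distrib,
        ← Finset.smul_sum, hδ2, Submodule.coe_zero, smul_zero, zero_add, sub_zero]
    · funext v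
      apply Subtype.ext
      change ((∑ u : {u // u ∈ U}, (s.2 v * δ 0 u + δ (W v) u - δ 0 u) • ν u : TX B Λ) :
        (Fin k → X) × (Fin k → X)) = (W v).1
      rw [Submodule.coe_sum]
      simp only [Submodule.coe_smul, add_smul, sub_smul, mul_smul, Finset.sum_sub_distrib, Finset.sum_add_distrib,
        ← Finset.smul_sum, hδ2, Submodule.coe_zero, smul_zero, zero_add, sub_zero]
  obtain ⟨c, hc⟩ : ∃ c : ℕ, c = (Finset.univ.filter fun τ => Lam τ = 0).card := ⟨_, rfl⟩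
  have hfib : ∀ y, (Finset.univ.filter fun τ => Lam τ = y).card = c := by
    intro y
    rw [hc]
    exact AddMonoidHom.card_fiber_eq_of_mem_range Lam (hsur y) (hsur 0)
  have hk : 0 < U.card := Finset.card_pos.2 ⟨u₀, (h u₀).2 (by rw [sub_self]; exact (TX B Λ).zero_mem)⟩
  have hTXc : Fintype.card (TX B Λ) = Fintype.card X ^ k := by
    rw [← Nat.card_eq_fintype_card, tx_card hB Λ, hΛ.1, ← pow_mul, mul_comm, pow_mul,
      ← Nat.card_eq_fintype_card, Module.natCard_eq_pow_finrank (K := ZMod ℓ) (V := X), Nat.card_zmod]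
  have hcG : Fintype.card (TX B Λ × (pf Δ → TX B Λ)) = Fintype.card (EE X (pf Δ)) ^ k := by
    rw [Fintype.card_prod, Fintype.card_fun, hTXc, Fintype.card_prod, Fintype.card_fun, mul_pow, ← pow_mul, ← pow_mul,
      mul_comm k]
  have htot : (Fintype.card (Tp ℓ (pf Δ))) ^ U.card =
      Fintype.card (Tp ℓ (pf Δ)) * Fintype.card (EE X (pf Δ)) ^ k * c := by
    have e := Finset.card_eq_sum_card_fiberwise (f := Lam) (s := Finset.univ)
      (t := (Finset.univ : Finset (Tp ℓ (pf Δ) × (TX B Λ × (pf Δ → TX B Λ))))) (fun _ _ => Finset.mem_univ _)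
    rw [Finset.sum_congr rfl fun y _ => hfib y, Finset.card_univ, Finset.sum_const,
      Finset.card_univ, Fintype.card_fun, Fintype.card_coe,
      Fintype.card_prod (Tp ℓ (pf Δ)) (TX B Λ × (pf Δ → TX B Λ)), hcG,
      smul_eq_mul] at e
    exact e
  have hN : 0 < Fintype.card (Tp ℓ (pf Δ)) := Fintype.card_pos
  have htot' : (Fintype.card (Tp ℓ (pf Δ))) ^ (U.card - 1) = Fintype.card (EE X (pf Δ)) ^ k * c := by
    have e : Fintype.card (Tp ℓ (pf Δ)) * (Fintype.card (Tp ℓ (pf Δ))) ^ (U.card - 1) =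
        Fintype.card (Tp ℓ (pf Δ)) * (Fintype.card (EE X (pf Δ)) ^ k * c) := by
      rw [← pow_succ', Nat.sub_add_cancel hk, htot, mul_assoc]
    exact Nat.eq_of_mul_eq_mul_left hN e
  let KG : TX B Λ × (pf Δ → TX B Λ) → ℂ := fun g => aueK B dt k t (g.1.1.1, fun v => (g.2 v).1.1)
    (g.1.1.2, fun v => (g.2 v).1.2)
  have hval : ∀ τ : {u // u ∈ U} → Tp ℓ (pf Δ), aueA χ (CDX (Bk B k)) (GK (Bk B k) (dtk dt k) R) U t τ =
      ∑ g, if Lam τ = (t, g) then KG g else 0 := by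
    intro τ
    by_cases hτ : ∑ u, τ u = t
    · rw [aueA, if_pos hτ, Finset.sum_eq_single (Lam τ).2]
      · have hLt : Lam τ = (t, (Lam τ).2) := Prod.ext hτ rfl
        rw [if_pos hLt, aue_val hB hd ht hΛ u₀ U hu R hR τ hτ]
        have q1 : (Lam τ).2.1.1.1 = (tens (mgU U τ fun _ => 0) - (t.1 • u₀.1, fun v => t.2 v • u₀.1) :
            EE (Fin k → X) (pf Δ)).1 := by
          rw [hLd]
          simp only
          rw [Submodule.coe_sum]
          simp only [Submodule.coe_smul, hν, smul_sub, Finset.sum_sub_distrib, ← Finset.sum_smul]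
          change (∑ u : {u // u ∈ U}, (τ u).1 • (u.1 : (Fin k → X) × (Fin k → X))).1 - (∑ u, (τ u).1) • u₀.1 =
            (tens (mgU U τ fun _ => 0)).1 - t.1 • u₀.1
          rw [Prod.fst_sum, ← hτ, Prod.fst_sum]
          congr 1
          exact (aue_mg U (fun u (s : Tp ℓ (pf Δ)) => s.1 • u.1) (fun u => zero_smul _ _) τ).symm
        have q2 : (Lam τ).2.1.1.2 = (tens2 (mgU U τ fun _ => 0) - (t.1 • u₀.2, fun v => t.2 v • u₀.2) :
            EE (Fin k → X) (pf Δ)).1 := by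
          rw [hLd]
          simp only
          rw [Submodule.coe_sum]
          simp only [Submodule.coe_smul, hν, smul_sub, Finset.sum_sub_distrib, ← Finset.sum_smul]
          change (∑ u : {u // u ∈ U}, (τ u).1 • (u.1 : (Fin k → X) × (Fin k → X))).2 - (∑ u, (τ u).1) • u₀.2 =
            (tens2 (mgU U τ fun _ => 0)).1 - t.1 • u₀.2
          rw [Prod.snd_sum, ← hτ, Prod.fst_sum]
          congr 1
          exact (aue_mg U (fun u (s : Tp ℓ (pf Δ)) => s.1 • u.2) (fun u => zero_smul _ _) τ).symm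
        have q3 : (fun v => ((Lam τ).2.2 v).1.1) = (tens (mgU U τ fun _ => 0) - (t.1 • u₀.1, fun v => t.2 v • u₀.1) :
            EE (Fin k → X) (pf Δ)).2 := by
          funext v
          rw [hLd]
          simp only
          rw [Submodule.coe_sum]
          simp only [Submodule.coe_smul, hν, smul_sub, Finset.sum_sub_distrib, ← Finset.sum_smul]
          change (∑ u : {u // u ∈ U}, (τ u).2 v • (u.1 : (Fin k → X) × (Fin k → X))).1 - (∑ u, (τ u).2 v) • u₀.1 =
            (tens (mgU U τ fun _ => 0)).2 v - t.2 v • u₀.1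
          rw [Prod.fst_sum, ← hτ, Prod.snd_sum, Finset.sum_apply]
          congr 1
          exact (aue_mg U (fun u (s : Tp ℓ (pf Δ)) => s.2 v • u.1) (fun u => zero_smul _ _) τ).symm
        have q4 : (fun v => ((Lam τ).2.2 v).1.2) = (tens2 (mgU U τ fun _ => 0) - (t.1 • u₀.2, fun v => t.2 v • u₀.2) :
            EE (Fin k → X) (pf Δ)).2 := by
          funext v
          rw [hLd]
          simp only
          rw [Submodule.coe_sum]
          simp only [Submodule.coe_smul, hν, smul_sub, Finset.sum_sub_distrib, ← Finset.sum_smul]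
          change (∑ u : {u // u ∈ U}, (τ u).2 v • (u.1 : (Fin k → X) × (Fin k → X))).2 - (∑ u, (τ u).2 v) • u₀.2 =
            (tens2 (mgU U τ fun _ => 0)).2 v - t.2 v • u₀.2
          rw [Prod.snd_sum, ← hτ, Prod.snd_sum, Finset.sum_apply]
          congr 1
          exact (aue_mg U (fun u (s : Tp ℓ (pf Δ)) => s.2 v • u.2) (fun u => zero_smul _ _) τ).symm
        change _ = aueK B dt k t ((Lam τ).2.1.1.1, fun v => ((Lam τ).2.2 v).1.1)
          ((Lam τ).2.1.1.2, fun v => ((Lam τ).2.2 v).1.2)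
        rw [q1, q2, q3, q4]
      · intro g _ hg
        rw [if_neg]
        intro hc
        exact hg (by rw [hc])
      · intro h'
        exact absurd (Finset.mem_univ _) h'
    · rw [aueA, if_neg hτ, Finset.sum_eq_zero]
      intro g _
      rw [if_neg]
      intro hc
      exact hτ (congrArg Prod.fst hc)
  have hG : ∑ g, KG g = (Fintype.card (EE X (pf Δ)) : ℂ) ^ k := by
    rw [← Nat.card_eq_fintype_card, ← aue_gs hB ht hΛ]
    exact (aue_resum Λ (aueK B dt k t)).trans (aue_sum_inst _ _ _)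
  have hsumτ : ∑ τ : {u // u ∈ U} → Tp ℓ (pf Δ), aueA χ (CDX (Bk B k)) (GK (Bk B k) (dtk dt k) R) U t τ =
      (c : ℂ) * (Fintype.card (EE X (pf Δ)) : ℂ) ^ k := by
    rw [Finset.sum_congr rfl fun τ _ => hval τ, Finset.sum_comm, ← hG, Finset.mul_sum]
    refine Finset.sum_congr rfl fun g _ => ?_
    rw [← Finset.sum_filter, Finset.sum_const, hfib, nsmul_eq_mul]
  rw [aue_eq, hsumτ]
  have hcast : (Fintype.card (Tp ℓ (pf Δ)) : ℂ) ^ (U.card - 1) =
      (Fintype.card (EE X (pf Δ)) : ℂ) ^ k * (c : ℂ) := by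
    exact_mod_cast htot'
  have hne : (Fintype.card (Tp ℓ (pf Δ)) : ℂ) ^ (U.card - 1) ≠ 0 := by
    apply pow_ne_zero
    exact_mod_cast hN.ne'
  rw [mul_comm (c : ℂ), ← hcast]
  field_simp

end Pool.Agent.H94.PN
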