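import Pool.Agent.H94.PN.PHI
import Pool.Agent.H94.PM.DC
import Pool.Agent.H94.PM.QF

set_option autoImplicit false

/-!
# [H94 PN DKC] The maps of the data `DC`

* `dok_DC`: `self`: `lap_BB` with `e = 0`, symmetric in `x`, `y`; `BB_symm` (or `BB_apply` and `mul_comm`).  `bet`: `bet = lap (lg2) (Hs) - const`, by `lap_BB` `B y (lap x) - B x (lap y) = e ∑ p ∈ prs m, (x p.2 y p.1 - y p.2 x p.1)`, `e = χ.lg (-1)`, `- e = e`, so
  this is `e ∑_{i ≠ k} x i y k = e ((∑ x) (∑ y) - B x y) = - e B x y = e B x y` (`lap_pairs` for the sum over the pairs).  `two`: `lg2`.  `odd`: `e + e = 0` and `2 ≠ 0` in `ZMod ℓ`.  `alt`: after `subst`, `BB_dot`, `dot_self`.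
* `exists_self`: `x = ep ℓ i k`, `i ≠ k`: `B x x = 2`.  `nontriv_XX`: `ep ℓ i k ≠ 0`.
-/

namespace Pool.Agent.H94.PN

open Polynomial
open Pool.Agent.H94.PL
open Pool.Agent.H94.PM
open Pool.Agent.H94.PC (Mo Sq Pr pf om Mn mem_Mo mem_Sq mem_Pr mem_pf mem_pf')

variable {ℓ m : ℕ} [hl : Fact ℓ.Prime]

private theorem dkc_pairs {e : ZMod ℓ} (he : e + e = 0) (x y : XX m ℓ) :
    ∑ p ∈ prs m, (e * y.1 p.2 * (x.1 p.2 - x.1 p.1) - e * x.1 p.2 * (y.1 p.2 - y.1 p.1)) =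
      e * BB m ℓ x y := by
  have h1 : ∑ p ∈ prs m, (e * y.1 p.2 * (x.1 p.2 - x.1 p.1) - e * x.1 p.2 * (y.1 p.2 - y.1 p.1)) =
      ∑ p ∈ prs m, (e * (x.1 p.1 * y.1 p.2) + e * (x.1 p.2 * y.1 p.1)) := by
    refine Finset.sum_congr rfl fun p _ => ?_
    linear_combination (-(x.1 p.1 * y.1 p.2)) * he
  rw [h1, ← lap_pairs fun k i => e * (x.1 k * y.1 i)]
  have h2 : ∀ k : Fin m, ∑ i ∈ Finset.univ.erase k, e * (x.1 k * y.1 i) = e * (x.1 k * y.1 k) := by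
    intro k
    have h3 := Finset.add_sum_erase Finset.univ (fun i => e * (x.1 k * y.1 i)) (Finset.mem_univ k)
    have h4 : ∑ i, e * (x.1 k * y.1 i) = 0 := by
      rw [← Finset.mul_sum, ← Finset.mul_sum, XX_sum, mul_zero, mul_zero]
    rw [h4] at h3
    linear_combination h3 - (x.1 k * y.1 k) * he
  rw [Finset.sum_congr rfl fun k _ => h2 k, ← Finset.mul_sum, BB_apply]

theorem dok_DC {F : Type} [Field F] [Finite F] (χ : LChar F ℓ) (c : F) (A : Fin m → F[X])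
    (Wl : pf (dl A) → ZMod ℓ → Submodule (ZMod ℓ) (XX m ℓ × XX m ℓ))
    (Wi : ZMod ℓ → Submodule (ZMod ℓ) (XX m ℓ × XX m ℓ)) :
    DOK (BB m ℓ) (DC χ c A Wl Wi) (χ.lg (-1)) := by
  refine ⟨?_, ?_, lg2 χ, ?_, ?_⟩
  · intro v x y
    rw [BB_symm]
    change BB m ℓ y (lap (add_zero 0) (mlt ℓ A v.1) (fun _ _ _ => mlt_symm A v.1 _ _) x) =
      BB m ℓ x (lap (add_zero 0) (mlt ℓ A v.1) (fun _ _ _ => mlt_symm A v.1 _ _) y)
    rw [lap_BB, lap_BB]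
    refine Finset.sum_congr rfl fun p _ => ?_
    ring
  · intro x y
    change BB m ℓ y (lap (lg2 χ) (Hs χ A) (Hs_symm χ A) x - (χ.lg (-1) + χ.lg c) • x) =
      BB m ℓ x (lap (lg2 χ) (Hs χ A) (Hs_symm χ A) y - (χ.lg (-1) + χ.lg c) • y) +
        χ.lg (-1) * BB m ℓ x y
    simp only [map_sub, map_smul, smul_eq_mul]
    rw [BB_symm y x, ← dkc_pairs (lg2 χ) x y, lap_BB, lap_BB]
    have h1 : ∑ p ∈ prs m, (Hs χ A p.1 p.2 * (y.1 p.1 - y.1 p.2) * (x.1 p.1 - x.1 p.2) +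
        χ.lg (-1) * y.1 p.2 * (x.1 p.2 - x.1 p.1)) =
        ∑ p ∈ prs m, (Hs χ A p.1 p.2 * (x.1 p.1 - x.1 p.2) * (y.1 p.1 - y.1 p.2) +
        χ.lg (-1) * x.1 p.2 * (y.1 p.2 - y.1 p.1)) +
        ∑ p ∈ prs m, (χ.lg (-1) * y.1 p.2 * (x.1 p.2 - x.1 p.1) -
          χ.lg (-1) * x.1 p.2 * (y.1 p.2 - y.1 p.1)) := by
      rw [← Finset.sum_add_distrib]
      refine Finset.sum_congr rfl fun p _ => ?_
      ring
    rw [h1]
    ring
  · intro h2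
    have h := lg2 χ
    have h3 : (2 : ZMod ℓ) * χ.lg (-1) = 0 := by rw [two_mul, h]
    rcases mul_eq_zero.1 h3 with h4 | h4
    · exfalso
      have h5 : ((2 : ℕ) : ZMod ℓ) = 0 := by exact_mod_cast h4
      rw [ZMod.natCast_eq_zero_iff] at h5
      exact h2 ((Nat.prime_dvd_prime_iff_eq hl.out Nat.prime_two).1 h5)
    · exact h4
  · intro h2 x
    subst h2
    rw [BB_dot]
    exact dot_self x.2

theorem exists_self (hm : 2 ≤ m) (h2 : ℓ ≠ 2) : ∃ x : XX m ℓ, BB m ℓ x x ≠ 0 := by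
  have hne : (⟨0, by omega⟩ : Fin m) ≠ ⟨1, by omega⟩ := by
    intro h
    have := congrArg Fin.val h
    simp at this
  refine ⟨ep ℓ ⟨0, by omega⟩ ⟨1, by omega⟩, ?_⟩
  rw [BB_ep, ep_apply, ep_apply, if_pos rfl, if_neg hne, if_neg hne.symm, if_pos rfl]
  intro h
  have h5 : ((2 : ℕ) : ZMod ℓ) = 0 := by
    push_cast
    linear_combination h
  rw [ZMod.natCast_eq_zero_iff] at h5
  exact h2 ((Nat.prime_dvd_prime_iff_eq hl.out Nat.prime_two).1 h5)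

theorem nontriv_XX (hm : 2 ≤ m) : Nontrivial (XX m ℓ) := by
  have hne : (⟨0, by omega⟩ : Fin m) ≠ ⟨1, by omega⟩ := by
    intro h
    have := congrArg Fin.val h
    simp at this
  refine ⟨⟨ep ℓ ⟨0, by omega⟩ ⟨1, by omega⟩, 0, ?_⟩⟩
  intro h
  have h1 : (ep ℓ ⟨0, by omega⟩ ⟨1, by omega⟩ : XX m ℓ).1 ⟨0, by omega⟩ = 0 := by
    rw [h]
    rfl
  rw [ep_apply, if_pos rfl, if_neg hne, sub_zero] at h1
  have : Fact (1 < ℓ) := ⟨hl.out.one_lt⟩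
  exact one_ne_zero h1

end Pool.Agent.H94.PN
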