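import Pool.Agent.H94.PN.TOR
import Pool.Agent.H94.PN.AUE
import Pool.Agent.H94.PN.DKC
import Pool.Agent.H94.PM.PAR

set_option autoImplicit false

/-!
# [H94 PN TK2] The local conditions at the types of the `D`, `ℓ = 2`

* `bt_self`: `bt z z = B ξ.1 ε.1 + B ξ.1 (bet ξ.1) + ∑ v, (B (ξ.2 v) (ε.2 v) + B (ξ.2 v) (L v (ξ.2 v)))`, `z = (ε, ξ)`; `x_bet`, `x_L` (`PM.ID2`) give `Qr χ A z` (`BB` symmetric, `BB_dot`).
* `tk2`: `card`: `card_WC2`.  `alt`: `bt_self`, `Qr_WC`.  `sym`: `bt` is biadditive, so `0 = bt (z + z') (z + z') = bt z z + bt z' z' + bt z z' + bt z' z = bt z z' + bt z' z`, in `ZMod 2`.  `tor`: `tor_DC`.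
-/

namespace Pool.Agent.H94.PN

open Polynomial
open Pool.Agent.H94.PL
open Pool.Agent.H94.PM
open Pool.Agent.H94.PC (Mo Sq Pr pf om Mn mem_Mo mem_Sq mem_Pr mem_pf mem_pf')

variable {F : Type} [Field F] [Finite F] {m : ℕ} (χ : LChar F 2)
variable {α : ℕ} {c : F} {A : Fin m → F[X]} {D : F[X]}
  {Wl : pf (dl A) → ZMod 2 → Submodule (ZMod 2) (XX m 2 × XX m 2)}
  {Wi : ZMod 2 → Submodule (ZMod 2) (XX m 2 × XX m 2)}

theorem bt_self (z : EE (XX m 2) (pf (dl A)) × EE (XX m 2) (pf (dl A))) :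
    bt (BB m 2) (DC χ c A Wl Wi) z z = Qr χ A z := by
  unfold bt Qr
  have h1 : ∀ v, BB m 2 (z.2.2 v) (z.1.2 v + (DC χ c A Wl Wi).L v (z.2.2 v)) =
      BB m 2 (z.1.2 v) (z.2.2 v) + dot (z.2.2 v).1 (phV A v) := by
    intro v
    rw [map_add, x_L, BB_symm]
  rw [map_add, x_bet, BB_symm, Finset.sum_congr rfl fun v _ => h1 v, Finset.sum_add_distrib]
  ring

private theorem bt_polar (z z' : EE (XX m 2) (pf (dl A)) × EE (XX m 2) (pf (dl A))) :
    bt (BB m 2) (DC χ c A Wl Wi) (z + z') (z + z') =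
      bt (BB m 2) (DC χ c A Wl Wi) z z + bt (BB m 2) (DC χ c A Wl Wi) z' z' +
      (bt (BB m 2) (DC χ c A Wl Wi) z z' + bt (BB m 2) (DC χ c A Wl Wi) z' z) := by
  unfold bt
  simp only [Prod.fst_add, Prod.snd_add, Pi.add_apply, map_add, LinearMap.add_apply,
    Finset.sum_add_distrib]
  ring

theorem tk2 [DecidableEq (RatFunc F)] (hm : Nat.Coprime m 2) (hα : 2 ∣ α * m + 1) (hc : c ≠ 0)
    (hA : ∀ i k, i ≠ k → A i ≠ A k) (h : LOK χ A Wl Wi)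
    (hWl : OKl χ α A Wl) (hWi : OKi χ α c A Wi) {n : ℕ} (hD : D ∈ Cls (dl A) n) :
    TOK (BB m 2) (DC χ c A Wl Wi) (ty χ (dl A) D) := by
  have halt : ∀ z ∈ (DC χ c A Wl Wi).W (ty χ (dl A) D),
      bt (BB m 2) (DC χ c A Wl Wi) z z = 0 := by
    intro z hz
    rw [bt_self]
    exact Qr_WC hA h c _ hz
  refine ⟨card_WC2 h c _, ?_, fun _ => halt, ?_⟩
  · intro z hz z' hz'
    have h1 := bt_polar (χ := χ) (c := c) (Wl := Wl) (Wi := Wi) z z'
    rw [halt z hz, halt z' hz', halt (z + z') (Submodule.add_mem _ hz hz'), zero_add,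
      zero_add] at h1
    exact CharTwo.add_eq_zero.1 h1.symm
  · intro σ
    exact tor_DC χ hm hα hc hA hD hWl hWi σ

end Pool.Agent.H94.PN
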