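import Pool.Agent.H94.PN.STR

set_option autoImplicit false

/-!
# [H94 PN CNT] The number of the maximal unlinked sets which matter

Let `𝒰` be the finset of the statement.  Count the pairs `(U, u)`, `U ∈ 𝒰`, `u ∈ U`: there are `card 𝒰 * card X ^ k` of them (`U.card = (CDX (Bk B k)).N = card (Fin k → X)`).
The map `(Λ, u) ↦ (u + TX Λ, u)` from `{Λ // Lag ℓ k Λ} × (X^k × X^k)` to these pairs is a bijection: `u + TX Λ = univ.filter (fun u' => u' - u ∈ TX Λ)` is in `𝒰` (`str_conv`); injective: `TX Λ = (u + TX Λ) - u` and `tx_inj`;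
surjective: by `str` `U = u₀ + TX Λ`, and `u ∈ U` gives `U = u + TX Λ`.  So `card 𝒰 * card X ^ k = Lk * (card X ^ k) ^ 2`.
-/

namespace Pool.Agent.H94.PN

open Pool.Agent.H94.PL
open Pool.Agent.H94.PM

variable {ℓ k : ℕ} [hl : Fact ℓ.Prime] {X : Type} [AddCommGroup X] [Module (ZMod ℓ) X] [Fintype X]
  [DecidableEq X] {B : X →ₗ[ZMod ℓ] X →ₗ[ZMod ℓ] ZMod ℓ}

open Classical in
theorem cnt (hB : BGood B) [Nontrivial X] (hx : ℓ ≠ 2 → ∃ x : X, B x x ≠ 0)
    (halt : ℓ = 2 → ∀ x, B x x = 0) {S : Type} (dt : Dat ℓ X S)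
    (hs : ∀ v x y, B (dt.L v x) y = B x (dt.L v y))
    (hG : Algebra.adjoin (ZMod ℓ) (Set.range dt.L) = (⊤ : Subalgebra (ZMod ℓ) (Module.End (ZMod ℓ) X))) :
    ((MaxU (CDX (Bk B k))).filter fun U => ¬ Non (Bk B k) (dtk dt k) U).card =
      Lk ℓ k * Fintype.card X ^ k := by
  set 𝒰 := (MaxU (CDX (Bk B k))).filter fun U => ¬ Non (Bk B k) (dtk dt k) U with h𝒰
  have hcardX : Fintype.card (Fin k → X) = Fintype.card X ^ k := by
    rw [Fintype.card_pi, Finset.prod_const, Finset.card_univ, Fintype.card_fin]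
  have hpos : 0 < Fintype.card X ^ k := pow_pos Fintype.card_pos k
  -- the cards of the members
  have h1 : ∀ U ∈ 𝒰, U.card = Fintype.card X ^ k := by
    intro U hU
    rw [← hcardX]
    exact (mem_MaxU.1 (Finset.mem_filter.1 hU).1).2
  -- the members which contain a given point
  have h2 : ∀ u : (Fin k → X) × (Fin k → X), (𝒰.filter fun U => u ∈ U).card = Lk ℓ k := by
    intro u
    have hmem : ∀ Λ : {Λ : Submodule (ZMod ℓ) (H0 ℓ k) // Lag ℓ k Λ},
        (Finset.univ.filter fun u' => u' - u ∈ TX B Λ.1) ∈ (𝒰.filter fun U => u ∈ U) := by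
      intro Λ
      have h3 := str_conv hB halt dt hs Λ.2 u (Finset.univ.filter fun u' => u' - u ∈ TX B Λ.1)
        (fun u' => by rw [Finset.mem_filter]; exact ⟨fun h => h.2, fun h => ⟨Finset.mem_univ _, h⟩⟩)
      rw [Finset.mem_filter, h𝒰, Finset.mem_filter]
      refine ⟨h3, ?_⟩
      rw [Finset.mem_filter, sub_self]
      exact ⟨Finset.mem_univ _, Submodule.zero_mem _⟩
    have hbij : Function.Bijective (fun Λ : {Λ : Submodule (ZMod ℓ) (H0 ℓ k) // Lag ℓ k Λ} =>
        (⟨_, hmem Λ⟩ : {U // U ∈ (𝒰.filter fun U => u ∈ U)})) := by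
      constructor
      · intro Λ Λ' h
        have h0 := congrArg Subtype.val h
        apply Subtype.ext
        refine tx_inj hB (le_antisymm ?_ ?_)
        · intro w hw
          have h3 : w + u ∈ (Finset.univ.filter fun u' => u' - u ∈ TX B Λ.1) := by
            rw [Finset.mem_filter, add_sub_cancel_right]
            exact ⟨Finset.mem_univ _, hw⟩
          have h4 : w + u ∈ (Finset.univ.filter fun u' => u' - u ∈ TX B Λ'.1) := by
            have h5 : (Finset.univ.filter fun u' => u' - u ∈ TX B Λ.1) =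
              (Finset.univ.filter fun u' => u' - u ∈ TX B Λ'.1) := h0
            rw [← h5]
            exact h3
          rw [Finset.mem_filter, add_sub_cancel_right] at h4
          exact h4.2
        · intro w hw
          have h3 : w + u ∈ (Finset.univ.filter fun u' => u' - u ∈ TX B Λ'.1) := by
            rw [Finset.mem_filter, add_sub_cancel_right]
            exact ⟨Finset.mem_univ _, hw⟩
          have h4 : w + u ∈ (Finset.univ.filter fun u' => u' - u ∈ TX B Λ.1) := by
            have h5 : (Finset.univ.filter fun u' => u' - u ∈ TX B Λ.1) =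
              (Finset.univ.filter fun u' => u' - u ∈ TX B Λ'.1) := h0
            rw [h5]
            exact h3
          rw [Finset.mem_filter, add_sub_cancel_right] at h4
          exact h4.2
      · rintro ⟨U, hU⟩
        obtain ⟨hU1, huU⟩ := Finset.mem_filter.1 hU
        obtain ⟨hU2, hU3⟩ := Finset.mem_filter.1 hU1
        obtain ⟨u₀, Λ, hΛ, hUΛ⟩ := str hB hx dt hs hG U hU2 hU3
        refine ⟨⟨Λ, hΛ⟩, Subtype.ext ?_⟩
        ext u'
        rw [Finset.mem_filter, hUΛ]
        have hu : u - u₀ ∈ TX B Λ := (hUΛ u).1 huU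
        constructor
        · rintro ⟨_, h⟩
          have e : u' - u₀ = (u' - u) + (u - u₀) := by abel
          rw [e]
          exact (TX B Λ).add_mem h hu
        · intro h
          refine ⟨Finset.mem_univ _, ?_⟩
          have e : u' - u = (u' - u₀) - (u - u₀) := by abel
          rw [e]
          exact (TX B Λ).sub_mem h hu
    have h3 := Nat.card_congr (Equiv.ofBijective _ hbij)
    rw [Nat.card_eq_fintype_card (α := {U // U ∈ (𝒰.filter fun U => u ∈ U)}),
      Fintype.card_coe] at h3
    exact h3.symm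
  -- double counting
  have h3 : ∑ U ∈ 𝒰, U.card = ∑ u : (Fin k → X) × (Fin k → X), (𝒰.filter fun U => u ∈ U).card := by
    simp only [Finset.card_eq_sum_ones, Finset.sum_filter]
    rw [Finset.sum_comm]
    refine Finset.sum_congr rfl fun U _ => ?_
    rw [← Finset.sum_filter]
    refine Finset.sum_congr ?_ fun _ _ => rfl
    ext u
    rw [Finset.mem_filter]
    exact ⟨fun h => ⟨Finset.mem_univ _, h⟩, fun h => h.2⟩
  rw [Finset.sum_congr rfl h1, Finset.sum_congr rfl fun u _ => h2 u, Finset.sum_const,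
    Finset.sum_const, Finset.card_univ, Fintype.card_prod, hcardX, smul_eq_mul, smul_eq_mul] at h3
  apply Nat.eq_of_mul_eq_mul_right hpos
  rw [h3]
  ring

end Pool.Agent.H94.PN
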