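import Pool.Agent.H94.PN.TAIL

set_option autoImplicit false

/-!
# [H94 PN LAWG] The moments determine the law

`Z n` finite sets, `s` a function with values in `ℕ`, `0 ≤ T n ≤ E n`; the moments of `Q ^ s` on `Z n` are `(∑' t, w t * (Q ^ t) ^ k) * T n + o(E n)`.
* `law_poly`: the same for every polynomial `g = ∑ k, c k X ^ k` (`Polynomial.eval_eq_sum_range`): `∑ z ∈ Z n, g (Q ^ s z) = ∑ k, c k ∑ z, (Q ^ s z) ^ k`; use `hM` for each `k ≤ deg g` with `ε / (1 + ∑ k, |c k|)`, and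
  `∑ k, c k ∑' t, w t (Q ^ t) ^ k = ∑' t, w t * g (Q ^ t)` (`tsum` of a finite sum of summable functions, `w_summable` for `X ^ k`).
* `lawg`: choose `K ≥ j` with `K - j` even and `C0 * Q ^ j * (2 / Q) ^ K ≤ ε / 2` (`2 / Q < 1`), also `K' = K + 1`.  `g = gp Q j K`: `g (Q ^ s) ≥ [s = j]` for all `s` (`gp_node`, `gp_even`), so `#{z ∈ Z n | s z = j} ≤ ∑ z, g (Q ^ s z) ≤ (∑' t, w t g (Q ^ t)) T n + (ε / 2) E n`
  `≤ w j T n + ε E n` (`law_poly` with `ε / 2`, `tail_bound`).  `g' = gp Q j (K + 1)`: `g' (Q ^ s) ≤ [s = j]` (`gp_odd`) gives the lower bound.  (`0 ≤ C0`: `hw0 0`, `hw 0`.)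
-/

namespace Pool.Agent.H94.PN

open Polynomial

variable {Q C0 : ℝ} {w : ℕ → ℝ} {ι : Type} {Z : ℕ → Finset ι} {s : ι → ℕ} {T E : ℕ → ℝ}

theorem law_poly (hQ : 3 ≤ Q) (hw0 : ∀ s, 0 ≤ w s) (hw : ∀ s, w s * Q ^ (s * (s + 1) / 2) ≤ C0)
    (hT : ∀ n, 0 ≤ T n) (hE : ∀ n, T n ≤ E n)
    (hM : ∀ (k : ℕ) (ε : ℝ), 0 < ε → ∃ n₀ : ℕ, ∀ n : ℕ, n₀ ≤ n →
      |∑ z ∈ Z n, (Q ^ s z) ^ k - (∑' t, w t * (Q ^ t) ^ k) * T n| ≤ ε * E n)
    (g : ℝ[X]) (ε : ℝ) (hε : 0 < ε) : ∃ n₀ : ℕ, ∀ n : ℕ, n₀ ≤ n →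
      |∑ z ∈ Z n, g.eval (Q ^ s z) - (∑' t, w t * g.eval (Q ^ t)) * T n| ≤ ε * E n := by
  classical
  set S : ℝ := 1 + ∑ i ∈ Finset.range (g.natDegree + 1), |g.coeff i| with hS
  have hsum0 : 0 ≤ ∑ i ∈ Finset.range (g.natDegree + 1), |g.coeff i| :=
    Finset.sum_nonneg fun i _ => abs_nonneg _
  have hSpos : 0 < S := by linarith
  have hex : ∀ k : ℕ, ∃ n₀ : ℕ, ∀ n : ℕ, n₀ ≤ n →
      |∑ z ∈ Z n, (Q ^ s z) ^ k - (∑' t, w t * (Q ^ t) ^ k) * T n| ≤ ε / S * E n :=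
    fun k => hM k (ε / S) (by positivity)
  choose N hN using hex
  refine ⟨(Finset.range (g.natDegree + 1)).sup N, fun n hn => ?_⟩
  have hE0 : 0 ≤ E n := (hT n).trans (hE n)
  have h1 : ∑ z ∈ Z n, g.eval (Q ^ s z)
      = ∑ i ∈ Finset.range (g.natDegree + 1), g.coeff i * ∑ z ∈ Z n, (Q ^ s z) ^ i := by
    simp_rw [eval_eq_sum_range, Finset.mul_sum]
    exact Finset.sum_comm
  have hsw : ∀ i : ℕ, Summable fun t => w t * (Q ^ t) ^ i := by
    intro i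
    have := w_summable hQ hw0 hw (X ^ i)
    simpa using this
  have h2 : (∑' t, w t * g.eval (Q ^ t))
      = ∑ i ∈ Finset.range (g.natDegree + 1), g.coeff i * ∑' t, w t * (Q ^ t) ^ i := by
    have h3 : (fun t => w t * g.eval (Q ^ t)) =
        fun t => ∑ i ∈ Finset.range (g.natDegree + 1), g.coeff i * (w t * (Q ^ t) ^ i) := by
      funext t
      rw [eval_eq_sum_range, Finset.mul_sum]
      refine Finset.sum_congr rfl fun i _ => ?_
      ring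
    rw [h3, Summable.tsum_finsetSum fun i _ => (hsw i).mul_left _]
    refine Finset.sum_congr rfl fun i _ => ?_
    rw [tsum_mul_left]
  have h4 : ∑ z ∈ Z n, g.eval (Q ^ s z) - (∑' t, w t * g.eval (Q ^ t)) * T n
      = ∑ i ∈ Finset.range (g.natDegree + 1), g.coeff i *
        (∑ z ∈ Z n, (Q ^ s z) ^ i - (∑' t, w t * (Q ^ t) ^ i) * T n) := by
    rw [h1, h2, Finset.sum_mul, ← Finset.sum_sub_distrib]
    refine Finset.sum_congr rfl fun i _ => ?_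
    ring
  rw [h4]
  calc |∑ i ∈ Finset.range (g.natDegree + 1), g.coeff i *
        (∑ z ∈ Z n, (Q ^ s z) ^ i - (∑' t, w t * (Q ^ t) ^ i) * T n)|
      ≤ ∑ i ∈ Finset.range (g.natDegree + 1), |g.coeff i *
        (∑ z ∈ Z n, (Q ^ s z) ^ i - (∑' t, w t * (Q ^ t) ^ i) * T n)| :=
        Finset.abs_sum_le_sum_abs _ _
    _ ≤ ∑ i ∈ Finset.range (g.natDegree + 1), |g.coeff i| * (ε / S * E n) := by
        refine Finset.sum_le_sum fun i hi => ?_
        rw [abs_mul]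
        refine mul_le_mul_of_nonneg_left (hN i n ?_) (abs_nonneg _)
        exact (Finset.le_sup (f := N) hi).trans hn
    _ = (∑ i ∈ Finset.range (g.natDegree + 1), |g.coeff i|) * (ε / S * E n) := by
        rw [Finset.sum_mul]
    _ ≤ S * (ε / S * E n) :=
        mul_le_mul_of_nonneg_right (by linarith) (by positivity)
    _ = ε * E n := by
        field_simp

theorem lawg (hQ : 3 ≤ Q) (hw0 : ∀ s, 0 ≤ w s) (hw : ∀ s, w s * Q ^ (s * (s + 1) / 2) ≤ C0)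
    (hT : ∀ n, 0 ≤ T n) (hE : ∀ n, T n ≤ E n)
    (hM : ∀ (k : ℕ) (ε : ℝ), 0 < ε → ∃ n₀ : ℕ, ∀ n : ℕ, n₀ ≤ n →
      |∑ z ∈ Z n, (Q ^ s z) ^ k - (∑' t, w t * (Q ^ t) ^ k) * T n| ≤ ε * E n)
    (j : ℕ) (ε : ℝ) (hε : 0 < ε) : ∃ n₀ : ℕ, ∀ n : ℕ, n₀ ≤ n →
      |(((Z n).filter fun z => s z = j).card : ℝ) - w j * T n| ≤ ε * E n := by
  classical
  have hQ0 : (0 : ℝ) < Q := by linarith
  have hC0 : 0 ≤ C0 := le_trans (mul_nonneg (hw0 0) (by positivity)) (hw 0)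
  have hr0 : 0 ≤ 2 / Q := by positivity
  have hr1 : 2 / Q < 1 := by
    rw [div_lt_one hQ0]
    linarith
  -- choice of the degree
  obtain ⟨m, hm⟩ : ∃ m : ℕ, C0 * Q ^ j * (2 / Q) ^ m ≤ ε / 2 := by
    have h1 : Filter.Tendsto (fun m : ℕ => C0 * Q ^ j * (2 / Q) ^ m) Filter.atTop (nhds 0) := by
      have := (tendsto_pow_atTop_nhds_zero_of_lt_one hr0 hr1).const_mul (C0 * Q ^ j)
      rwa [mul_zero] at this
    exact ((h1.eventually (gt_mem_nhds (half_pos hε))).exists).imp fun m h => h.le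
  have hbd : ∀ K : ℕ, m ≤ K → C0 * Q ^ j * (2 / Q) ^ K ≤ ε / 2 := by
    intro K hK
    refine le_trans ?_ hm
    exact mul_le_mul_of_nonneg_left (pow_le_pow_of_le_one hr0 hr1.le hK) (by positivity)
  set K : ℕ := j + 2 * m with hK
  have hjK : j ≤ K := by omega
  have hjK' : j ≤ K + 1 := by omega
  have heven : Even (K - j) := ⟨m, by omega⟩
  have hodd : Odd (K + 1 - j) := ⟨m, by omega⟩
  obtain ⟨n₁, hn₁⟩ := law_poly (Z := Z) (s := s) hQ hw0 hw hT hE hM (gp Q j K) (ε / 2) (half_pos hε)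
  obtain ⟨n₂, hn₂⟩ := law_poly (Z := Z) (s := s) hQ hw0 hw hT hE hM (gp Q j (K + 1)) (ε / 2)
    (half_pos hε)
  refine ⟨max n₁ n₂, fun n hn => ?_⟩
  have hE0 : 0 ≤ E n := (hT n).trans (hE n)
  have hcard : (((Z n).filter fun z => s z = j).card : ℝ)
      = ∑ z ∈ Z n, (if s z = j then (1 : ℝ) else 0) := by
    rw [Finset.sum_boole]
  have hup : (((Z n).filter fun z => s z = j).card : ℝ) ≤ ∑ z ∈ Z n, (gp Q j K).eval (Q ^ s z) := by
    rw [hcard]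
    refine Finset.sum_le_sum fun z _ => ?_
    rcases le_or_gt (s z) K with h | h
    · rw [gp_node (by linarith) hjK h]
    · rw [if_neg (by omega)]
      exact gp_even (by linarith) hjK heven h
  have hlo : ∑ z ∈ Z n, (gp Q j (K + 1)).eval (Q ^ s z)
      ≤ (((Z n).filter fun z => s z = j).card : ℝ) := by
    rw [hcard]
    refine Finset.sum_le_sum fun z _ => ?_
    rcases le_or_gt (s z) (K + 1) with h | h
    · rw [gp_node (by linarith) hjK' h]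
    · rw [if_neg (by omega)]
      exact gp_odd (by linarith) hjK' hodd h
  have ha := abs_le.1 (hn₁ n ((le_max_left _ _).trans hn))
  have hb := abs_le.1 (hn₂ n ((le_max_right _ _).trans hn))
  have ta := abs_le.1 ((tail_bound hQ hw0 hw hjK).trans (hbd K (by omega)))
  have tb := abs_le.1 ((tail_bound hQ hw0 hw hjK').trans (hbd (K + 1) (by omega)))
  have hTE : ε / 2 * T n ≤ ε / 2 * E n := mul_le_mul_of_nonneg_left (hE n) (half_pos hε).le
  rw [abs_le]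
  constructor
  · have h1 : (w j - ε / 2) * T n ≤ (∑' t, w t * (gp Q j (K + 1)).eval (Q ^ t)) * T n :=
      mul_le_mul_of_nonneg_right (by linarith [tb.1]) (hT n)
    nlinarith [hb.1]
  · have h1 : (∑' t, w t * (gp Q j K).eval (Q ^ t)) * T n ≤ (w j + ε / 2) * T n :=
      mul_le_mul_of_nonneg_right (by linarith [ta.2]) (hT n)
    nlinarith [ha.2]

end Pool.Agent.H94.PN
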