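import Pool.Agent.H94.PN.TEN

set_option autoImplicit false

/-!
# [H94 PN LKR] The number of maximal isotropic subspaces

`F = ZMod ℓ`.  The coordinates of `F^(k+1)` are `0` and `Fin.succ i`: write `a = (a₀, a')`; `dotp b a = b₀ a₀ + dotp b' a'`.  `⟨g, h⟩ = dotp g.2 h.1 + dotp h.2 g.1`, nondegenerate on `H0`, `Lag` subspaces are their own orthogonals (cardinalities).
For `Λ` with `Lag ℓ (k+1) Λ` let `Λ' = {(a', b') | ∃ β, ((0, a'), (β, b')) ∈ Λ}`, `v = ((0, 0), (1, 0))`, `K = {g ∈ Λ | g.1 0 = 0}`; `K → Λ'` is onto with kernel `Λ ∩ F v`.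
(I) `v ∈ Λ`: then `g.1 0 = ⟨v, g⟩ = 0` on `Λ`, `K = Λ`, `card Λ' = ℓ ^ (k + 1) / ℓ`.  (II) `v ∉ Λ`: some element of `Λ` has `g.1 0 ≠ 0`, `card K = ℓ ^ k`, `Λ ∩ F v = 0`, `card Λ' = ℓ ^ k`.  In both cases `Lag ℓ k Λ'`.
Fibres of `Λ ↦ Λ'` over a given `Λ'` with `Lag ℓ k Λ'`:
(I) exactly one `Λ` with `v ∈ Λ`: `{((0, a'), (β, b')) | (a', b') ∈ Λ', β ∈ F}`.
(II) Count the pairs `(Λ, g)`, `v ∉ Λ`, `g ∈ Λ`, `g.1 0 = 1`: for each `Λ` there are `ℓ ^ k` such `g` (a coset of `K`).  `g = ((1, x), (γ, y))`, with `γ + dotp y x = 0` if `ℓ ≠ 2`: for each such `g` there is exactly one `Λ`: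
`Λ = {s g + ((0, a'), (φ, b')) | s ∈ F, (a', b') ∈ Λ'}`, `φ = - (dotp b' x + dotp y a')` (`⟨g, ·⟩ = 0` forces the value of `φ`; and this `Λ` is `Lag` and maps to `Λ'`, `v ∉ Λ` as `⟨v, g⟩ = 1`).
The number of these `g` is `ℓ ^ (2 k)` if `ℓ ≠ 2` and `2 * 2 ^ (2 k)` if `ℓ = 2`, so there are `ℓ ^ k`, resp. `2 ^ (k + 1)`, such `Λ`.
-/

namespace Pool.Agent.H94.PN

open Pool.Agent.H94.PL
open Pool.Agent.H94.PM

variable {ℓ : ℕ} [hl : Fact ℓ.Prime]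

private noncomputable def lkr_B (k : ℕ) :
    (Fin k → ZMod ℓ) →ₗ[ZMod ℓ] (Fin k → ZMod ℓ) →ₗ[ZMod ℓ] ZMod ℓ :=
  LinearMap.mk₂ (ZMod ℓ) (fun a b => dotp a b)
    (fun x x' y => by
      simp only [dotp, Pi.add_apply, add_mul, Finset.sum_add_distrib])
    (fun c x y => by
      simp only [dotp, Pi.smul_apply, smul_eq_mul, Finset.mul_sum, mul_assoc])
    (fun x y y' => by
      simp only [dotp, Pi.add_apply, mul_add, Finset.sum_add_distrib])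
    (fun c x y => by
      simp only [dotp, Pi.smul_apply, smul_eq_mul, Finset.mul_sum, mul_left_comm])

private theorem lkr_B_apply (k : ℕ) (a b : Fin k → ZMod ℓ) : lkr_B k a b = dotp a b := rfl

private theorem lkr_good (k : ℕ) : BGood (lkr_B (ℓ := ℓ) k) where
  symm x y := by
    rw [lkr_B_apply, lkr_B_apply]
    unfold dotp
    exact Finset.sum_congr rfl fun i _ => mul_comm _ _
  nondeg x h := by
    funext i
    have h1 := h (Pi.single i 1)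
    rw [lkr_B_apply] at h1
    unfold dotp at h1
    rw [Finset.sum_eq_single i (fun j _ hj => by rw [Pi.single_eq_of_ne hj, mul_zero])
      (fun h => absurd (Finset.mem_univ i) h), Pi.single_eq_same, mul_one] at h1
    exact h1

private theorem lkr_bb (k : ℕ) (g h : H0 ℓ k) :
    laB (lkr_B k) g h = dotp g.2 h.1 + dotp h.2 g.1 := rfl

private theorem lkr_card (k : ℕ) : Fintype.card (Fin k → ZMod ℓ) = ℓ ^ k := by
  rw [Fintype.card_fun, ZMod.card, Fintype.card_fin]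

private theorem lkr_two (h : ℓ ≠ 2) : (2 : ZMod ℓ) ≠ 0 := by
  intro h0
  have h1 : ((2 : ℕ) : ZMod ℓ) = 0 := by exact_mod_cast h0
  rw [ZMod.natCast_eq_zero_iff] at h1
  exact h ((Nat.prime_dvd_prime_iff_eq hl.out Nat.prime_two).1 h1)

private theorem lkr_self {k : ℕ} {Λ : Submodule (ZMod ℓ) (H0 ℓ k)} (hΛ : Lag ℓ k Λ) (v : H0 ℓ k) :
    v ∈ Λ ↔ ∀ w ∈ Λ, laB (lkr_B k) v w = 0 := by
  have h1 : ∀ x ∈ Λ, ∀ y ∈ Λ, laB (lkr_B k) x y = 0 := by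
    intro x hx y hy
    rw [lkr_bb]
    exact hΛ.2.1 x hx y hy
  constructor
  · intro hv w hw
    exact h1 v hv w hw
  · intro h
    exact la_perp (lkr_B k) (lkr_good k) Λ h1 (by rw [hΛ.1, lkr_card]) v h

private theorem lkr_of {k : ℕ} {Λ : Submodule (ZMod ℓ) (H0 ℓ k)}
    (h : ∀ v, v ∈ Λ ↔ ∀ w ∈ Λ, laB (lkr_B k) v w = 0) : Lag ℓ k Λ := by
  have h1 : LinearMap.BilinForm.orthogonal (laB (lkr_B k)) Λ = Λ := by
    ext x
    rw [LinearMap.BilinForm.mem_orthogonal_iff, h x]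
    constructor
    · intro h2 w hw
      rw [laB_symm]
      exact h2 w hw
    · intro h2 w hw
      show laB (lkr_B k) w x = 0
      rw [laB_symm]
      exact h2 w hw
  have h2 := la_fin_perp (lkr_B k) (lkr_good k) Λ
  rw [h1, Module.finrank_fin_fun] at h2
  refine ⟨?_, fun x hx y hy => (h x).1 hx y hy, fun hl2 x hx => ?_⟩
  · rw [la_card_sub]
    congr 1
    omega
  · have h3 := (h x).1 hx x hx
    rw [lkr_bb, ← two_mul] at h3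
    exact (mul_eq_zero.1 h3).resolve_left (lkr_two hl2)

private theorem lkr_anti {k : ℕ} {Λ Λ' : Submodule (ZMod ℓ) (H0 ℓ k)} (hΛ : Lag ℓ k Λ)
    (hΛ' : Lag ℓ k Λ') (h : Λ ≤ Λ') : Λ = Λ' := by
  refine le_antisymm h fun x hx => ?_
  rw [lkr_self hΛ]
  intro w hw
  exact (lkr_self hΛ' x).1 hx w (h hw)

/-- forget the coordinate `0` -/
private def lkr_pi (k : ℕ) : H0 ℓ (k + 1) →ₗ[ZMod ℓ] H0 ℓ k where
  toFun g := (fun i => g.1 i.succ, fun i => g.2 i.succ)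
  map_add' _ _ := rfl
  map_smul' _ _ := rfl

private def lkr_e (k : ℕ) : H0 ℓ (k + 1) →ₗ[ZMod ℓ] ZMod ℓ where
  toFun g := g.1 0
  map_add' _ _ := rfl
  map_smul' _ _ := rfl

private theorem lkr_split {k : ℕ} (g h : H0 ℓ (k + 1)) :
    laB (lkr_B (k + 1)) g h = laB (lkr_B k) (lkr_pi k g) (lkr_pi k h) +
      (g.2 0 * h.1 0 + h.2 0 * g.1 0) := by
  rw [lkr_bb, lkr_bb]
  unfold dotp
  rw [Fin.sum_univ_succ, Fin.sum_univ_succ (f := fun i => h.2 i * g.1 i)]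
  simp only [lkr_pi, LinearMap.coe_mk, AddHom.coe_mk]
  ring

private def lkr_mk {k : ℕ} (a b : ZMod ℓ) (x : H0 ℓ k) : H0 ℓ (k + 1) :=
  (Fin.cons a x.1, Fin.cons b x.2)

private theorem lkr_mk_pi {k : ℕ} (a b : ZMod ℓ) (x : H0 ℓ k) :
    lkr_pi k (lkr_mk a b x) = x := by
  refine Prod.ext ?_ ?_ <;> funext i <;> simp [lkr_pi, lkr_mk]

omit hl in
private theorem lkr_mk_1 {k : ℕ} (a b : ZMod ℓ) (x : H0 ℓ k) : (lkr_mk a b x).1 0 = a := by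
  simp [lkr_mk]

omit hl in
private theorem lkr_mk_2 {k : ℕ} (a b : ZMod ℓ) (x : H0 ℓ k) : (lkr_mk a b x).2 0 = b := by
  simp [lkr_mk]

private theorem lkr_mk_self {k : ℕ} (g : H0 ℓ (k + 1)) :
    lkr_mk (g.1 0) (g.2 0) (lkr_pi k g) = g := by
  refine Prod.ext ?_ ?_ <;> funext i <;> refine Fin.cases ?_ (fun j => ?_) i <;>
    simp [lkr_mk, lkr_pi]

/-- the reduction -/
private def lkr_red {k : ℕ} (Λ : Submodule (ZMod ℓ) (H0 ℓ (k + 1))) :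
    Submodule (ZMod ℓ) (H0 ℓ k) := (Λ ⊓ LinearMap.ker (lkr_e k)).map (lkr_pi k)

private theorem lkr_mem_red {k : ℕ} {Λ : Submodule (ZMod ℓ) (H0 ℓ (k + 1))} {x : H0 ℓ k} :
    x ∈ lkr_red Λ ↔ ∃ g ∈ Λ, g.1 0 = 0 ∧ lkr_pi k g = x := by
  unfold lkr_red
  rw [Submodule.mem_map]
  constructor
  · rintro ⟨g, hg, rfl⟩
    exact ⟨g, hg.1, hg.2, rfl⟩
  · rintro ⟨g, hg, h0, rfl⟩
    exact ⟨g, ⟨hg, h0⟩, rfl⟩

private theorem lkr_red_lag {k : ℕ} {Λ : Submodule (ZMod ℓ) (H0 ℓ (k + 1))}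
    (hΛ : Lag ℓ (k + 1) Λ) : Lag ℓ k (lkr_red Λ) := by
  apply lkr_of
  intro v
  constructor
  · intro hv w hw
    obtain ⟨g, hg, hg0, rfl⟩ := lkr_mem_red.1 hv
    obtain ⟨h, hh, hh0, rfl⟩ := lkr_mem_red.1 hw
    have h1 := (lkr_self hΛ g).1 hg h hh
    rw [lkr_split, hg0, hh0, mul_zero, mul_zero, add_zero, add_zero] at h1
    exact h1
  · intro hv
    rw [lkr_mem_red]
    have hK : ∀ h ∈ Λ, h.1 0 = 0 → laB (lkr_B k) v (lkr_pi k h) = 0 := by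
      intro h hh h0
      exact hv _ (lkr_mem_red.2 ⟨h, hh, h0, rfl⟩)
    have hgen : ∀ (b : ZMod ℓ) (h : H0 ℓ (k + 1)), laB (lkr_B (k + 1)) (lkr_mk 0 b v) h =
        laB (lkr_B k) v (lkr_pi k h) + b * h.1 0 := by
      intro b h
      rw [lkr_split, lkr_mk_pi, lkr_mk_1, lkr_mk_2, mul_zero, add_zero]
    by_cases hc : ∀ h ∈ Λ, h.1 0 = 0
    · refine ⟨lkr_mk 0 0 v, ?_, lkr_mk_1 _ _ _, lkr_mk_pi _ _ _⟩
      rw [lkr_self hΛ]
      intro h hh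
      rw [hgen, zero_mul, add_zero]
      exact hK h hh (hc h hh)
    · push Not at hc
      obtain ⟨h₀, hh₀, hne⟩ := hc
      obtain ⟨c, hcd⟩ : ∃ c : ZMod ℓ, c = laB (lkr_B k) v (lkr_pi k h₀) / h₀.1 0 := ⟨_, rfl⟩
      refine ⟨lkr_mk 0 (-c) v, ?_, lkr_mk_1 _ _ _, lkr_mk_pi _ _ _⟩
      rw [lkr_self hΛ]
      intro h hh
      rw [hgen]
      have h1 := hK (h - (h.1 0 / h₀.1 0) • h₀) (Λ.sub_mem hh (Λ.smul_mem _ hh₀)) (by
        simp only [Prod.fst_sub, Prod.smul_fst, Pi.sub_apply, Pi.smul_apply, smul_eq_mul]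
        rw [div_mul_cancel₀ _ hne, sub_self])
      rw [map_sub, map_smul, map_sub, map_smul, smul_eq_mul, sub_eq_zero] at h1
      rw [h1, hcd]
      field_simp
      ring

/-- the first lift -/
private def lkr_up {k : ℕ} (Λ : Submodule (ZMod ℓ) (H0 ℓ k)) :
    Submodule (ZMod ℓ) (H0 ℓ (k + 1)) := LinearMap.ker (lkr_e k) ⊓ Λ.comap (lkr_pi k)

private theorem lkr_mem_up {k : ℕ} {Λ : Submodule (ZMod ℓ) (H0 ℓ k)} {g : H0 ℓ (k + 1)} :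
    g ∈ lkr_up Λ ↔ g.1 0 = 0 ∧ lkr_pi k g ∈ Λ := Iff.rfl

private theorem lkr_up_lag {k : ℕ} {Λ : Submodule (ZMod ℓ) (H0 ℓ k)} (hΛ : Lag ℓ k Λ) :
    Lag ℓ (k + 1) (lkr_up Λ) := by
  apply lkr_of
  intro v
  constructor
  · intro hv w hw
    have hv1 : v.1 0 = 0 := hv.1
    have hw1 : w.1 0 = 0 := hw.1
    rw [lkr_split, hv1, hw1, mul_zero, mul_zero, add_zero, add_zero]
    exact (lkr_self hΛ _).1 hv.2 _ hw.2
  · intro hv
    rw [lkr_mem_up]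
    have h1 : v.1 0 = 0 := by
      have h2 := hv (lkr_mk 0 1 0) (by
        rw [lkr_mem_up, lkr_mk_1, lkr_mk_pi]
        exact ⟨rfl, Λ.zero_mem⟩)
      rw [lkr_split, lkr_mk_1, lkr_mk_2, lkr_mk_pi, map_zero, mul_zero, one_mul, zero_add,
        zero_add] at h2
      exact h2
    refine ⟨h1, ?_⟩
    rw [lkr_self hΛ]
    intro w hw
    have h2 := hv (lkr_mk 0 0 w) (by
      rw [lkr_mem_up, lkr_mk_1, lkr_mk_pi]
      exact ⟨rfl, hw⟩)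
    rw [lkr_split, lkr_mk_1, lkr_mk_2, lkr_mk_pi, mul_zero, zero_mul, add_zero, add_zero] at h2
    exact h2

private theorem lkr_red_up {k : ℕ} {Λ : Submodule (ZMod ℓ) (H0 ℓ k)} (hΛ : Lag ℓ k Λ) :
    lkr_red (lkr_up Λ) = Λ := by
  refine lkr_anti (lkr_red_lag (lkr_up_lag hΛ)) hΛ fun x hx => ?_
  obtain ⟨g, hg, _, rfl⟩ := lkr_mem_red.1 hx
  exact hg.2

private theorem lkr_up_red {k : ℕ} {Λ : Submodule (ZMod ℓ) (H0 ℓ (k + 1))}
    (hΛ : Lag ℓ (k + 1) Λ) (hv : (lkr_mk 0 1 0 : H0 ℓ (k + 1)) ∈ Λ) : lkr_up (lkr_red Λ) = Λ := by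
  refine (lkr_anti hΛ (lkr_up_lag (lkr_red_lag hΛ)) fun g hg => ?_).symm
  have h1 : g.1 0 = 0 := by
    have h2 := (lkr_self hΛ g).1 hg _ hv
    rw [lkr_split, lkr_mk_1, lkr_mk_2, lkr_mk_pi, map_zero, mul_zero, one_mul, zero_add,
      zero_add] at h2
    exact h2
  exact ⟨h1, lkr_mem_red.2 ⟨g, hg, h1, rfl⟩⟩

/-- the second lift -/
private noncomputable def lkr_up2 {k : ℕ} (Λ : Submodule (ZMod ℓ) (H0 ℓ k)) (g : H0 ℓ (k + 1)) :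
    Submodule (ZMod ℓ) (H0 ℓ (k + 1)) := LinearMap.ker (laB (lkr_B (k + 1)) g) ⊓
      Λ.comap (lkr_pi k - (lkr_e k).smulRight (lkr_pi k g))

private theorem lkr_mem_up2 {k : ℕ} {Λ : Submodule (ZMod ℓ) (H0 ℓ k)} {g h : H0 ℓ (k + 1)} :
    h ∈ lkr_up2 Λ g ↔ laB (lkr_B (k + 1)) g h = 0 ∧ lkr_pi k h - h.1 0 • lkr_pi k g ∈ Λ := Iff.rfl

private theorem lkr_qq {k : ℕ} (g : H0 ℓ k) (hq : ℓ ≠ 2 → dotp g.2 g.1 = 0) :
    laB (lkr_B k) g g = 0 := by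
  rw [lkr_bb]
  by_cases h2 : ℓ = 2
  · subst h2
    exact CharTwo.add_self_eq_zero _
  · rw [hq h2, add_zero]

private theorem lkr_up2_lag {k : ℕ} {Λ : Submodule (ZMod ℓ) (H0 ℓ k)} (hΛ : Lag ℓ k Λ)
    (g : H0 ℓ (k + 1)) (hg : g.1 0 = 1) (hq : ℓ ≠ 2 → dotp g.2 g.1 = 0) :
    Lag ℓ (k + 1) (lkr_up2 Λ g) := by
  have hgg := lkr_qq g hq
  have hgm : g ∈ lkr_up2 Λ g := by
    rw [lkr_mem_up2, hg, one_smul, sub_self]
    exact ⟨hgg, Λ.zero_mem⟩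
  have hiso : ∀ v ∈ lkr_up2 Λ g, ∀ w ∈ lkr_up2 Λ g, laB (lkr_B (k + 1)) v w = 0 := by
    intro v hv w hw
    rw [lkr_mem_up2] at hv hw
    obtain ⟨c, hc⟩ : ∃ c : H0 ℓ (k + 1), c = v - v.1 0 • g := ⟨_, rfl⟩
    obtain ⟨d, hd⟩ : ∃ d : H0 ℓ (k + 1), d = w - w.1 0 • g := ⟨_, rfl⟩
    have hc0 : c.1 0 = 0 := by
      rw [hc]
      simp only [Prod.fst_sub, Prod.smul_fst, Pi.sub_apply, Pi.smul_apply, smul_eq_mul]
      rw [hg, mul_one, sub_self]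
    have hd0 : d.1 0 = 0 := by
      rw [hd]
      simp only [Prod.fst_sub, Prod.smul_fst, Pi.sub_apply, Pi.smul_apply, smul_eq_mul]
      rw [hg, mul_one, sub_self]
    have hcL : lkr_pi k c ∈ Λ := by
      rw [hc, map_sub, map_smul]
      exact hv.2
    have hdL : lkr_pi k d ∈ Λ := by
      rw [hd, map_sub, map_smul]
      exact hw.2
    have h1 : laB (lkr_B (k + 1)) c d = 0 := by
      rw [lkr_split, hc0, hd0, mul_zero, mul_zero, add_zero, add_zero]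
      exact (lkr_self hΛ _).1 hcL _ hdL
    have h2 : laB (lkr_B (k + 1)) v g = 0 := by
      rw [laB_symm]
      exact hv.1
    rw [hc, hd] at h1
    simp only [map_sub, map_smul, LinearMap.sub_apply, LinearMap.smul_apply, smul_eq_mul, hgg,
      hw.1, h2, mul_zero, sub_zero] at h1
    exact h1
  apply lkr_of
  intro v
  refine ⟨fun hv w hw => hiso v hv w hw, fun hv => ?_⟩
  have hgv : laB (lkr_B (k + 1)) g v = 0 := by
    rw [laB_symm]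
    exact hv g hgm
  rw [lkr_mem_up2]
  refine ⟨hgv, ?_⟩
  obtain ⟨c, hc⟩ : ∃ c : H0 ℓ (k + 1), c = v - v.1 0 • g := ⟨_, rfl⟩
  have hc0 : c.1 0 = 0 := by
    rw [hc]
    simp only [Prod.fst_sub, Prod.smul_fst, Pi.sub_apply, Pi.smul_apply, smul_eq_mul]
    rw [hg, mul_one, sub_self]
  have hpc : lkr_pi k v - v.1 0 • lkr_pi k g = lkr_pi k c := by
    rw [hc, map_sub, map_smul]
  rw [hpc, lkr_self hΛ]
  intro w hw
  obtain ⟨b, hb⟩ : ∃ b : ZMod ℓ, b = -(laB (lkr_B k) (lkr_pi k g) w) := ⟨_, rfl⟩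
  have hm : lkr_mk 0 b w ∈ lkr_up2 Λ g := by
    rw [lkr_mem_up2, lkr_split, lkr_mk_1, lkr_mk_2, lkr_mk_pi, hg, mul_zero, mul_one, zero_add, hb,
      zero_smul, sub_zero]
    exact ⟨by ring, hw⟩
  have h3 : laB (lkr_B (k + 1)) c (lkr_mk 0 b w) = 0 := by
    have h4 := hiso g hgm _ hm
    rw [hc, map_sub, map_smul, LinearMap.sub_apply, LinearMap.smul_apply, h4, hv _ hm, smul_zero,
      sub_zero]
  rw [lkr_split, lkr_mk_1, lkr_mk_2, lkr_mk_pi, hc0, mul_zero, mul_zero, add_zero, add_zero] at h3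
  exact h3

private theorem lkr_red_up2 {k : ℕ} {Λ : Submodule (ZMod ℓ) (H0 ℓ k)} (hΛ : Lag ℓ k Λ)
    (g : H0 ℓ (k + 1)) (hg : g.1 0 = 1) (hq : ℓ ≠ 2 → dotp g.2 g.1 = 0) :
    lkr_red (lkr_up2 Λ g) = Λ := by
  refine lkr_anti (lkr_red_lag (lkr_up2_lag hΛ g hg hq)) hΛ fun x hx => ?_
  obtain ⟨h, hh, h0, rfl⟩ := lkr_mem_red.1 hx
  have h1 := (lkr_mem_up2.1 hh).2
  rw [h0, zero_smul, sub_zero] at h1
  exact h1

private theorem lkr_up2_red {k : ℕ} {Λ : Submodule (ZMod ℓ) (H0 ℓ (k + 1))}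
    (hΛ : Lag ℓ (k + 1) Λ) (g : H0 ℓ (k + 1)) (hgΛ : g ∈ Λ) (hg : g.1 0 = 1) :
    lkr_up2 (lkr_red Λ) g = Λ := by
  refine (lkr_anti hΛ (lkr_up2_lag (lkr_red_lag hΛ) g hg fun h2 => hΛ.2.2 h2 g hgΛ)
    fun h hh => ?_).symm
  rw [lkr_mem_up2]
  refine ⟨(lkr_self hΛ g).1 hgΛ h hh, ?_⟩
  rw [lkr_mem_red]
  refine ⟨h - h.1 0 • g, Λ.sub_mem hh (Λ.smul_mem _ hgΛ), ?_, ?_⟩
  · simp only [Prod.fst_sub, Prod.smul_fst, Pi.sub_apply, Pi.smul_apply, smul_eq_mul]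
    rw [hg, mul_one, sub_self]
  · rw [map_sub, map_smul]

private theorem lkr_fin (k : ℕ) : Finite (Submodule (ZMod ℓ) (H0 ℓ k)) :=
  Finite.of_injective (fun Λ : Submodule (ZMod ℓ) (H0 ℓ k) => (Λ : Set (H0 ℓ k)))
    SetLike.coe_injective

/-- the fibre of the value `1` -/
private theorem lkr_fib {k : ℕ} {Λ : Submodule (ZMod ℓ) (H0 ℓ (k + 1))}
    (hΛ : Lag ℓ (k + 1) Λ) (hv : (lkr_mk 0 1 0 : H0 ℓ (k + 1)) ∉ Λ) :
    Nat.card {g : H0 ℓ (k + 1) // g ∈ Λ ∧ g.1 0 = 1} = ℓ ^ k := by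
  have hex : ∃ h ∈ Λ, h.1 0 ≠ 0 := by
    by_contra hc
    push Not at hc
    apply hv
    rw [lkr_self hΛ]
    intro w hw
    rw [lkr_split, lkr_mk_1, lkr_mk_2, lkr_mk_pi, hc w hw, map_zero, LinearMap.zero_apply,
      mul_zero, mul_zero, add_zero, add_zero]
  obtain ⟨h, hh, hne⟩ := hex
  obtain ⟨g₀, hg₀⟩ : ∃ g₀ : H0 ℓ (k + 1), g₀ = (h.1 0)⁻¹ • h := ⟨_, rfl⟩
  have hg1 : g₀ ∈ Λ := by
    rw [hg₀]
    exact Λ.smul_mem _ hh
  have hg2 : g₀.1 0 = 1 := by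
    rw [hg₀, Prod.smul_fst, Pi.smul_apply, smul_eq_mul, inv_mul_cancel₀ hne]
  have e : Λ ≃ ZMod ℓ × {g : H0 ℓ (k + 1) // g ∈ Λ ∧ g.1 0 = 1} :=
    { toFun := fun g => (g.1.1 0, ⟨g.1 + (1 - g.1.1 0) • g₀,
        Λ.add_mem g.2 (Λ.smul_mem _ hg1), by
          simp only [Prod.fst_add, Prod.smul_fst, Pi.add_apply, Pi.smul_apply, smul_eq_mul, hg2]
          ring⟩)
      invFun := fun x => ⟨x.2.1 + (x.1 - 1) • g₀, Λ.add_mem x.2.2.1 (Λ.smul_mem _ hg1)⟩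
      left_inv := by
        intro g
        apply Subtype.ext
        simp only
        rw [add_assoc, ← add_smul]
        have : (1 - g.1.1 0 + (g.1.1 0 - 1) : ZMod ℓ) = 0 := by ring
        rw [this, zero_smul, add_zero]
      right_inv := by
        rintro ⟨s, ⟨x, hx, hx1⟩⟩
        have h1 : (x + (s - 1) • g₀).1 0 = s := by
          simp only [Prod.fst_add, Prod.smul_fst, Pi.add_apply, Pi.smul_apply, smul_eq_mul, hg2,
            hx1]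
          ring
        simp only [h1]
        refine Prod.ext rfl (Subtype.ext ?_)
        simp only
        rw [add_assoc, ← add_smul]
        have : (s - 1 + (1 - s) : ZMod ℓ) = 0 := by ring
        rw [this, zero_smul, add_zero] }
  have h1 := Nat.card_congr e
  rw [Nat.card_prod, hΛ.1, Nat.card_zmod, pow_succ, mul_comm] at h1
  exact (Nat.eq_of_mul_eq_mul_left hl.out.pos h1).symm

private theorem lkr_G (k : ℕ) :
    Nat.card {g : H0 ℓ (k + 1) // g.1 0 = 1 ∧ (ℓ ≠ 2 → dotp g.2 g.1 = 0)} =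
      ℓ ^ k * ℓ ^ (if ℓ = 2 then k + 1 else k) := by
  have hd : ∀ a b (x : H0 ℓ k), dotp (lkr_mk a b x).2 (lkr_mk a b x).1 =
      b * a + dotp x.2 x.1 := by
    intro a b x
    unfold dotp
    rw [Fin.sum_univ_succ]
    simp [lkr_mk]
  by_cases h2 : ℓ = 2
  · rw [if_pos h2]
    have e : {g : H0 ℓ (k + 1) // g.1 0 = 1 ∧ (ℓ ≠ 2 → dotp g.2 g.1 = 0)} ≃ ZMod ℓ × H0 ℓ k :=
      { toFun := fun g => (g.1.2 0, lkr_pi k g.1)
        invFun := fun x => ⟨lkr_mk 1 x.1 x.2, lkr_mk_1 _ _ _, fun h => absurd h2 h⟩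
        left_inv := by
          rintro ⟨g, hg, _⟩
          apply Subtype.ext
          have := lkr_mk_self g
          rw [hg] at this
          exact this
        right_inv := by
          rintro ⟨b, x⟩
          simp only [lkr_mk_2, lkr_mk_pi] }
    rw [Nat.card_congr e, Nat.card_prod, Nat.card_prod, Nat.card_zmod, Nat.card_fun,
      Nat.card_zmod, Nat.card_eq_fintype_card, Fintype.card_fin, pow_succ]
    ring
  · rw [if_neg h2]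
    have e : {g : H0 ℓ (k + 1) // g.1 0 = 1 ∧ (ℓ ≠ 2 → dotp g.2 g.1 = 0)} ≃ H0 ℓ k :=
      { toFun := fun g => lkr_pi k g.1
        invFun := fun x => ⟨lkr_mk 1 (-dotp x.2 x.1) x, lkr_mk_1 _ _ _, fun _ => by
          rw [hd]
          ring⟩
        left_inv := by
          rintro ⟨g, hg, hq⟩
          apply Subtype.ext
          have h3 := lkr_mk_self g
          have h4 := hq h2
          rw [← h3, hd, hg, mul_one] at h4
          have h5 : g.2 0 = -dotp (lkr_pi k g).2 (lkr_pi k g).1 := eq_neg_of_add_eq_zero_left h4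
          rw [hg, h5] at h3
          exact h3
        right_inv := by
          intro x
          simp only [lkr_mk_pi] }
    rw [Nat.card_congr e, Nat.card_prod, Nat.card_fun, Nat.card_zmod, Nat.card_eq_fintype_card,
      Fintype.card_fin]

theorem lk_zero : Lk ℓ 0 = 1 := by
  unfold Lk
  have hsub : Subsingleton (H0 ℓ 0) := inferInstance
  have hd : ∀ a b : Fin 0 → ZMod ℓ, dotp a b = 0 := by
    intro a b
    unfold dotp
    exact Finset.sum_empty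
  have h1 : ∀ Λ : Submodule (ZMod ℓ) (H0 ℓ 0), Λ = ⊥ := by
    intro Λ
    rw [Submodule.eq_bot_iff]
    intro x _
    exact Subsingleton.elim _ _
  rw [Nat.card_eq_one_iff_unique]
  refine ⟨⟨fun a b => Subtype.ext ((h1 a.1).trans (h1 b.1).symm)⟩, ⟨⟨⊥, ?_, ?_, ?_⟩⟩⟩
  · rw [pow_zero, Nat.card_eq_one_iff_unique]
    exact ⟨inferInstance, inferInstance⟩
  · intro x _ y _
    rw [hd, hd, add_zero]
  · intro _ x _
    exact hd _ _

theorem lk_succ (k : ℕ) : Lk ℓ (k + 1) = (1 + ℓ ^ (if ℓ = 2 then k + 1 else k)) * Lk ℓ k := by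
  classical
  have := lkr_fin (ℓ := ℓ) (k + 1)
  have := lkr_fin (ℓ := ℓ) k
  obtain ⟨T, hT⟩ : ∃ T : Type, T = {Λ : Submodule (ZMod ℓ) (H0 ℓ (k + 1)) // Lag ℓ (k + 1) Λ} :=
    ⟨_, rfl⟩
  have hsplit : Lk ℓ (k + 1) =
      Nat.card {Λ : {Λ : Submodule (ZMod ℓ) (H0 ℓ (k + 1)) // Lag ℓ (k + 1) Λ} //
        (lkr_mk 0 1 0 : H0 ℓ (k + 1)) ∈ Λ.1} +
      Nat.card {Λ : {Λ : Submodule (ZMod ℓ) (H0 ℓ (k + 1)) // Lag ℓ (k + 1) Λ} //
        ¬ (lkr_mk 0 1 0 : H0 ℓ (k + 1)) ∈ Λ.1} := by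
    unfold Lk
    rw [← Nat.card_sum]
    exact (Nat.card_congr (Equiv.sumCompl _)).symm
  have hI : Nat.card {Λ : {Λ : Submodule (ZMod ℓ) (H0 ℓ (k + 1)) // Lag ℓ (k + 1) Λ} //
        (lkr_mk 0 1 0 : H0 ℓ (k + 1)) ∈ Λ.1} = Lk ℓ k := by
    unfold Lk
    refine Nat.card_congr
      { toFun := fun Λ => ⟨lkr_red Λ.1.1, lkr_red_lag Λ.1.2⟩
        invFun := fun Λ => ⟨⟨lkr_up Λ.1, lkr_up_lag Λ.2⟩, by
          rw [lkr_mem_up, lkr_mk_1, lkr_mk_pi]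
          exact ⟨rfl, Λ.1.zero_mem⟩⟩
        left_inv := ?_
        right_inv := ?_ }
    · rintro ⟨⟨Λ, hΛ⟩, hv⟩
      exact Subtype.ext (Subtype.ext (lkr_up_red hΛ hv))
    · rintro ⟨Λ, hΛ⟩
      exact Subtype.ext (lkr_red_up hΛ)
  have hII : Nat.card {Λ : {Λ : Submodule (ZMod ℓ) (H0 ℓ (k + 1)) // Lag ℓ (k + 1) Λ} //
        ¬ (lkr_mk 0 1 0 : H0 ℓ (k + 1)) ∈ Λ.1} * ℓ ^ k =
      Lk ℓ k * (ℓ ^ k * ℓ ^ (if ℓ = 2 then k + 1 else k)) := by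
    have h1 : Nat.card (Σ Λ : {Λ : {Λ : Submodule (ZMod ℓ) (H0 ℓ (k + 1)) // Lag ℓ (k + 1) Λ} //
        ¬ (lkr_mk 0 1 0 : H0 ℓ (k + 1)) ∈ Λ.1}, {g : H0 ℓ (k + 1) // g ∈ Λ.1.1 ∧ g.1 0 = 1}) =
        Nat.card {Λ : {Λ : Submodule (ZMod ℓ) (H0 ℓ (k + 1)) // Lag ℓ (k + 1) Λ} //
        ¬ (lkr_mk 0 1 0 : H0 ℓ (k + 1)) ∈ Λ.1} * ℓ ^ k := by
      have := Fintype.ofFinite {Λ : {Λ : Submodule (ZMod ℓ) (H0 ℓ (k + 1)) // Lag ℓ (k + 1) Λ} //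
        ¬ (lkr_mk 0 1 0 : H0 ℓ (k + 1)) ∈ Λ.1}
      rw [Nat.card_sigma, Finset.sum_congr rfl fun Λ _ => lkr_fib Λ.1.2 Λ.2, Finset.sum_const,
        smul_eq_mul, Finset.card_univ, ← Nat.card_eq_fintype_card]
    rw [← h1, ← lkr_G]
    unfold Lk
    rw [← Nat.card_prod]
    refine Nat.card_congr (Equiv.ofBijective
      (fun x => (⟨lkr_red x.1.1.1, lkr_red_lag x.1.1.2⟩, ⟨x.2.1, x.2.2.2, fun h2 =>
        x.1.1.2.2.2 h2 _ x.2.2.1⟩)) ⟨?_, ?_⟩)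
    · rintro ⟨⟨⟨Λ, hΛ⟩, hv⟩, ⟨g, hg, hg1⟩⟩ ⟨⟨⟨Λ', hΛ'⟩, hv'⟩, ⟨g', hg', hg1'⟩⟩ h
      simp only [Prod.mk.injEq, Subtype.mk.injEq] at h
      obtain ⟨h3, rfl⟩ := h
      have h4 : Λ = Λ' := by
        rw [← lkr_up2_red hΛ g hg hg1, ← lkr_up2_red hΛ' g hg' hg1', h3]
      subst h4
      rfl
    · rintro ⟨⟨Λ, hΛ⟩, ⟨g, hg, hq⟩⟩
      have hgm : g ∈ lkr_up2 Λ g := by
        rw [lkr_mem_up2, hg, one_smul, sub_self]
        exact ⟨lkr_qq g hq, Λ.zero_mem⟩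
      have hL := lkr_up2_lag hΛ g hg hq
      refine ⟨⟨⟨⟨lkr_up2 Λ g, hL⟩, fun hv => ?_⟩, ⟨g, hgm, hg⟩⟩, ?_⟩
      · have h5 := (lkr_self hL _).1 hv g hgm
        rw [lkr_split, lkr_mk_1, lkr_mk_2, lkr_mk_pi, map_zero, LinearMap.zero_apply, hg, one_mul,
          mul_zero, add_zero, zero_add] at h5
        exact one_ne_zero h5
      · refine Prod.ext (Subtype.ext ?_) rfl
        exact lkr_red_up2 hΛ g hg hq
  have hpos : 0 < ℓ ^ k := pow_pos hl.out.pos k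
  rw [hsplit, hI]
  have h6 : Nat.card {Λ : {Λ : Submodule (ZMod ℓ) (H0 ℓ (k + 1)) // Lag ℓ (k + 1) Λ} //
        ¬ (lkr_mk 0 1 0 : H0 ℓ (k + 1)) ∈ Λ.1} =
      Lk ℓ k * ℓ ^ (if ℓ = 2 then k + 1 else k) := by
    apply Nat.eq_of_mul_eq_mul_right hpos
    rw [hII]
    ring
  rw [h6]
  ring

end Pool.Agent.H94.PN
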