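import Mathlib

set_option autoImplicit false

/-!
# [H94 PN WT] The weights of the limit law

`wt b q r = ∏ i < r, b / (q ^ (i + 1) - 1)`, `q > 1`, `b` real (also negative).
* `wt_succ`: `Finset.prod_range_succ`, `q ^ (r + 1) - 1 ≠ 0`.  `wt_pos`.  `wt_neg`: `wt (-b) q r = (-1) ^ r * wt b q r`.
* `wt_summable`: terms `wt b q r * (q ^ r) ^ k`; the ratio of consecutive terms is `b * q ^ k / (q ^ (r + 1) - 1) → 0` (`summable_of_ratio_norm_eventually_le`).
* `sm_succ`: `Sm b q k = ∑' r, wt b q r * (q ^ r) ^ k`.  `wt b q r * (q ^ r) ^ (k + 1) - wt b q r * (q ^ r) ^ k = wt b q r * (q ^ r - 1) * (q ^ r) ^ k` is `0` for `r = 0` and `b * wt b q (r - 1) * (q ^ r) ^ k` for `r ≥ 1`, so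
  `Sm (k + 1) - Sm k = ∑' r, b * wt b q r * (q ^ (r + 1)) ^ k = b * q ^ k * Sm k` (`Summable.tsum_eq_zero_add`).
* `wt_bound`: `q ≥ 2`, `b ≥ 0`: `q ^ i - 1 ≥ q ^ i * (1 - 2 ^ (- i))` and `∏ i ∈ 1..r, (1 - 2 ^ (-i)) ≥ 1/4 + 2 ^ (- r - 1) ≥ 1/4` for `r ≥ 1` by induction (`(1/4 + x) (1 - x) ≥ 1/4 + x/2` for `0 ≤ x ≤ 1/4`, `x = 2 ^ (-r-1)`).
  `∑ i ∈ 1..r, i = r (r + 1) / 2` (`Finset.sum_range_id_mul_two`, or induction with `(r + 1) (r + 2) / 2 = r (r + 1) / 2 + (r + 1)`).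
* `sm_pos`: positive terms.
* `wt_alt`: `b = q`: `wt (-q) q r = wt (-1) q r * q ^ r` (`-q = (-1) * q`), so `Sm (-q) q 0 = Sm (-1) q 1 = (1 - 1) * Sm (-1) q 0 = 0` by `sm_succ`, and `Sm (-q) q (k + 1) = (1 - q * q ^ k) * Sm (-q) q k = 0`.
* `sm_parity`: `∑' t, wt q q (2 t + p) * (q ^ (2 t + p)) ^ k = Sm q q k / 2`, `p = 0, 1`: the sum of the two (`p = 0`, `p = 1`) is `Sm q q k` (`tsum_even_add_odd`), their difference is `Sm (-q) q k = 0` (`wt_neg`, `wt_alt`).
-/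

namespace Pool.Agent.H94.PN

/-- the weights -/
noncomputable def wt (b q : ℝ) (r : ℕ) : ℝ := ∏ i ∈ Finset.range r, b / (q ^ (i + 1) - 1)

/-- their moments -/
noncomputable def Sm (b q : ℝ) (k : ℕ) : ℝ := ∑' r, wt b q r * (q ^ r) ^ k

theorem wt_zero (b q : ℝ) : wt b q 0 = 1 := by
  simp [wt]

theorem wt_succ (b : ℝ) {q : ℝ} (hq : 1 < q) (r : ℕ) :
    wt b q (r + 1) * (q ^ (r + 1) - 1) = b * wt b q r := by
  have h1 : (1 : ℝ) < q ^ (r + 1) := one_lt_pow₀ hq (by omega)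
  have h2 : q ^ (r + 1) - 1 ≠ 0 := by linarith
  unfold wt
  rw [Finset.prod_range_succ]
  field_simp

theorem wt_pos {b q : ℝ} (hb : 0 < b) (hq : 1 < q) (r : ℕ) : 0 < wt b q r := by
  unfold wt
  refine Finset.prod_pos fun i _ => ?_
  have h1 : (1 : ℝ) < q ^ (i + 1) := one_lt_pow₀ hq (by omega)
  exact div_pos hb (by linarith)

theorem wt_neg (b q : ℝ) (r : ℕ) : wt (-b) q r = (-1) ^ r * wt b q r := by
  unfold wt
  have h : ∀ i ∈ Finset.range r, -b / (q ^ (i + 1) - 1) = (-1) * (b / (q ^ (i + 1) - 1)) := by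
    intro i _
    ring
  rw [Finset.prod_congr rfl h, Finset.prod_mul_distrib, Finset.prod_const, Finset.card_range]

theorem wt_summable (b : ℝ) {q : ℝ} (hq : 1 < q) (k : ℕ) :
    Summable fun r => wt b q r * (q ^ r) ^ k := by
  have hstep : ∀ r : ℕ, wt b q (r + 1) * (q ^ (r + 1)) ^ k =
      b * q ^ k / (q ^ (r + 1) - 1) * (wt b q r * (q ^ r) ^ k) := by
    intro r
    have h1 : (1 : ℝ) < q ^ (r + 1) := one_lt_pow₀ hq (by omega)
    have h2 : q ^ (r + 1) - 1 ≠ 0 := by linarith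
    have h3 := wt_succ b hq r
    have h4 : wt b q (r + 1) = b * wt b q r / (q ^ (r + 1) - 1) := by
      rw [eq_div_iff h2, h3]
    rw [h4, ← pow_mul, ← pow_mul, add_mul, pow_add, one_mul]
    ring
  have hlim : Filter.Tendsto (fun r : ℕ => q ^ (r + 1)) Filter.atTop Filter.atTop :=
    (tendsto_pow_atTop_atTop_of_one_lt hq).comp (Filter.tendsto_add_atTop_nat 1)
  refine summable_of_ratio_norm_eventually_le (r := 1 / 2) (by norm_num) ?_
  filter_upwards [hlim.eventually_ge_atTop (2 * |b * q ^ k| + 2)] with r hr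
  rw [hstep r, norm_mul]
  refine mul_le_mul_of_nonneg_right ?_ (norm_nonneg _)
  have h5 : 0 < q ^ (r + 1) - 1 := by
    have := abs_nonneg (b * q ^ k)
    linarith
  rw [norm_div, Real.norm_eq_abs, Real.norm_eq_abs, abs_of_pos h5, div_le_iff₀ h5]
  linarith

theorem sm_succ (b : ℝ) {q : ℝ} (hq : 1 < q) (k : ℕ) :
    Sm b q (k + 1) = (1 + b * q ^ k) * Sm b q k := by
  have h0 := wt_summable b hq k
  have h1 := wt_summable b hq (k + 1)
  have h2 : Sm b q (k + 1) - Sm b q k =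
      ∑' r, (wt b q r * (q ^ r) ^ (k + 1) - wt b q r * (q ^ r) ^ k) := by
    unfold Sm
    rw [h1.tsum_sub h0]
  have h3 : ∀ r : ℕ, wt b q (r + 1) * (q ^ (r + 1)) ^ (k + 1) - wt b q (r + 1) * (q ^ (r + 1)) ^ k =
      b * q ^ k * (wt b q r * (q ^ r) ^ k) := by
    intro r
    have h4 := wt_succ b hq r
    have h5 : (q ^ (r + 1)) ^ k = q ^ k * (q ^ r) ^ k := by
      rw [← pow_mul, ← pow_mul, add_mul, pow_add, one_mul]
      ring
    calc wt b q (r + 1) * (q ^ (r + 1)) ^ (k + 1) - wt b q (r + 1) * (q ^ (r + 1)) ^ k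
        = (wt b q (r + 1) * (q ^ (r + 1) - 1)) * (q ^ (r + 1)) ^ k := by ring
      _ = b * q ^ k * (wt b q r * (q ^ r) ^ k) := by
          rw [h4, h5]
          ring
  rw [(h1.sub h0).tsum_eq_zero_add] at h2
  simp only [h3, pow_zero, one_pow, mul_one, sub_self, zero_add] at h2
  rw [tsum_mul_left] at h2
  have h6 : Sm b q (k + 1) = Sm b q k + b * q ^ k * Sm b q k := by
    unfold Sm at h2 ⊢
    linarith
  rw [h6]
  ring

theorem sm_pos {b q : ℝ} (hb : 0 < b) (hq : 1 < q) (k : ℕ) : 0 < Sm b q k := by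
  have hq0 : 0 < q := by linarith
  exact (wt_summable b hq k).tsum_pos (fun r => by
    have := wt_pos hb hq r
    positivity) 0 (by
    have := wt_pos hb hq 0
    positivity)

theorem wt_bound {b q : ℝ} (hb : 0 ≤ b) (hq : 2 ≤ q) (r : ℕ) :
    wt b q r * q ^ (r * (r + 1) / 2) ≤ 4 * b ^ r := by
  have hq1 : (1 : ℝ) < q := by linarith
  have hq0 : 0 < q := by linarith
  have hnn : ∀ r, 0 ≤ wt b q r := by
    intro r
    unfold wt
    refine Finset.prod_nonneg fun i _ => ?_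
    have h1 : (1 : ℝ) < q ^ (i + 1) := one_lt_pow₀ hq1 (by omega)
    exact div_nonneg hb (by linarith)
  have hA : ∀ r, 0 ≤ wt b q r * q ^ (r * (r + 1) / 2) := fun r =>
    mul_nonneg (hnn r) (by positivity)
  have hexp : ∀ r : ℕ, (r + 1) * (r + 1 + 1) / 2 = r * (r + 1) / 2 + (r + 1) := by
    intro r
    have h1 : (r + 1) * (r + 1 + 1) = r * (r + 1) + (r + 1) * 2 := by ring
    rw [h1, Nat.add_mul_div_right _ _ (by norm_num)]
  have hstep : ∀ r : ℕ, (wt b q (r + 1) * q ^ ((r + 1) * (r + 1 + 1) / 2)) *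
      (1 - (1 / 2) ^ (r + 1)) ≤ (wt b q r * q ^ (r * (r + 1) / 2)) * b := by
    intro r
    have h1 : (1 : ℝ) < q ^ (r + 1) := one_lt_pow₀ hq1 (by omega)
    have h2 := wt_succ b hq1 r
    have h3 : (1 : ℝ) - (1 / 2) ^ (r + 1) ≤ 1 - (1 / q) ^ (r + 1) := by
      have h4 : (1 / q) ^ (r + 1) ≤ (1 / 2 : ℝ) ^ (r + 1) := by
        apply pow_le_pow_left₀ (by positivity)
        exact one_div_le_one_div_of_le (by norm_num) hq
      linarith
    calc (wt b q (r + 1) * q ^ ((r + 1) * (r + 1 + 1) / 2)) * (1 - (1 / 2) ^ (r + 1))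
        ≤ (wt b q (r + 1) * q ^ ((r + 1) * (r + 1 + 1) / 2)) * (1 - (1 / q) ^ (r + 1)) :=
          mul_le_mul_of_nonneg_left h3 (hA (r + 1))
      _ = (wt b q (r + 1) * (q ^ (r + 1) - 1)) * q ^ (r * (r + 1) / 2) := by
          rw [hexp, pow_add, one_div, inv_pow]
          field_simp
      _ = (wt b q r * q ^ (r * (r + 1) / 2)) * b := by
          rw [h2]
          ring
  have hmain : ∀ r : ℕ, (wt b q (r + 1) * q ^ ((r + 1) * (r + 1 + 1) / 2)) *
      (1 / 4 + (1 / 2) ^ (r + 2)) ≤ b ^ (r + 1) := by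
    intro r
    induction r with
    | zero =>
      have h1 := hstep 0
      simp only [wt_zero, zero_add, Nat.zero_mul, Nat.zero_div, pow_zero, one_mul] at h1 ⊢
      have h2 : (1 / 4 : ℝ) + (1 / 2) ^ 2 = 1 - (1 / 2) ^ 1 := by norm_num
      rw [h2, pow_one b]
      simpa using h1
    | succ r ih =>
      have h1 := hstep (r + 1)
      set x : ℝ := (1 / 2) ^ (r + 2) with hx
      have hx0 : 0 ≤ x := by positivity
      have hx1 : x ≤ 1 / 4 := by
        rw [hx, pow_add]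
        have : (1 / 2 : ℝ) ^ r ≤ 1 := pow_le_one₀ (by norm_num) (by norm_num)
        nlinarith
      have hx2 : (1 / 2 : ℝ) ^ (r + 1 + 2) = x / 2 := by
        rw [hx, show r + 1 + 2 = r + 2 + 1 by ring, pow_succ]
        ring
      rw [hx2]
      have h2 : 1 / 4 + x / 2 ≤ (1 / 4 + x) * (1 - x) := by nlinarith
      calc (wt b q (r + 1 + 1) * q ^ ((r + 1 + 1) * (r + 1 + 1 + 1) / 2)) * (1 / 4 + x / 2)
          ≤ (wt b q (r + 1 + 1) * q ^ ((r + 1 + 1) * (r + 1 + 1 + 1) / 2)) *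
              ((1 / 4 + x) * (1 - x)) := mul_le_mul_of_nonneg_left h2 (hA _)
        _ = ((wt b q (r + 1 + 1) * q ^ ((r + 1 + 1) * (r + 1 + 1 + 1) / 2)) * (1 - x)) *
              (1 / 4 + x) := by ring
        _ ≤ ((wt b q (r + 1) * q ^ ((r + 1) * (r + 1 + 1) / 2)) * b) * (1 / 4 + x) :=
              mul_le_mul_of_nonneg_right h1 (by linarith)
        _ = ((wt b q (r + 1) * q ^ ((r + 1) * (r + 1 + 1) / 2)) * (1 / 4 + x)) * b := by ring
        _ ≤ b ^ (r + 1) * b := mul_le_mul_of_nonneg_right ih hb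
        _ = b ^ (r + 1 + 1) := by rw [pow_succ b (r + 1)]
  rcases r with _ | r
  · simp [wt_zero]
  · have h1 := hmain r
    have h2 : 0 ≤ (1 / 2 : ℝ) ^ (r + 2) := by positivity
    have h3 := hA (r + 1)
    nlinarith

theorem wt_alt {q : ℝ} (hq : 1 < q) (k : ℕ) : Sm (-q) q k = 0 := by
  have h1 : ∀ r, wt (-q) q r = wt (-1) q r * q ^ r := by
    intro r
    unfold wt
    have h : ∀ i ∈ Finset.range r, -q / (q ^ (i + 1) - 1) = (-1) / (q ^ (i + 1) - 1) * q := by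
      intro i _
      ring
    rw [Finset.prod_congr rfl h, Finset.prod_mul_distrib, Finset.prod_const, Finset.card_range]
  have hS : ∀ j : ℕ, Sm (-1) q (j + 1) = 0 := by
    intro j
    induction j with
    | zero =>
      rw [sm_succ (-1) hq 0]
      norm_num
    | succ j ih => rw [sm_succ (-1) hq (j + 1), ih, mul_zero]
  have h2 : Sm (-q) q k = Sm (-1) q (k + 1) := by
    unfold Sm
    refine tsum_congr fun r => ?_
    rw [h1, pow_succ (q ^ r) k]
    ring
  rw [h2, hS k]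

theorem sm_parity {q : ℝ} (hq : 1 < q) (k : ℕ) {p : ℕ} (hp : p < 2) :
    HasSum (fun t => wt q q (2 * t + p) * (q ^ (2 * t + p)) ^ k) (Sm q q k / 2) := by
  have hs := wt_summable q hq k
  have hinj0 : Function.Injective fun t : ℕ => 2 * t := fun a b h => by
    simpa using h
  have hinj1 : Function.Injective fun t : ℕ => 2 * t + 1 := fun a b h => by
    simpa using h
  have e0 : Summable fun t : ℕ => wt q q (2 * t) * (q ^ (2 * t)) ^ k := by
    have := hs.comp_injective hinj0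
    simpa only [Function.comp_def] using this
  have e1 : Summable fun t : ℕ => wt q q (2 * t + 1) * (q ^ (2 * t + 1)) ^ k := by
    have := hs.comp_injective hinj1
    simpa only [Function.comp_def] using this
  have g0 : ∀ t : ℕ, wt (-q) q (2 * t) * (q ^ (2 * t)) ^ k =
      wt q q (2 * t) * (q ^ (2 * t)) ^ k := by
    intro t
    rw [wt_neg, pow_mul (-1 : ℝ) 2 t]
    norm_num
  have g1 : ∀ t : ℕ, wt (-q) q (2 * t + 1) * (q ^ (2 * t + 1)) ^ k =
      -(wt q q (2 * t + 1) * (q ^ (2 * t + 1)) ^ k) := by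
    intro t
    rw [wt_neg, pow_succ, pow_mul (-1 : ℝ) 2 t]
    norm_num
  have h1 : ∑' t : ℕ, wt q q (2 * t) * (q ^ (2 * t)) ^ k +
      ∑' t : ℕ, wt q q (2 * t + 1) * (q ^ (2 * t + 1)) ^ k = Sm q q k := by
    have := tsum_even_add_odd (f := fun r => wt q q r * (q ^ r) ^ k) e0 e1
    simpa only [Sm] using this
  have e0' : Summable fun t : ℕ => wt (-q) q (2 * t) * (q ^ (2 * t)) ^ k := by
    simpa only [g0] using e0
  have e1' : Summable fun t : ℕ => wt (-q) q (2 * t + 1) * (q ^ (2 * t + 1)) ^ k := by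
    simpa only [g1] using e1.neg
  have h2 : ∑' t : ℕ, wt (-q) q (2 * t) * (q ^ (2 * t)) ^ k +
      ∑' t : ℕ, wt (-q) q (2 * t + 1) * (q ^ (2 * t + 1)) ^ k = Sm (-q) q k := by
    have := tsum_even_add_odd (f := fun r => wt (-q) q r * (q ^ r) ^ k) e0' e1'
    simpa only [Sm] using this
  rw [wt_alt hq] at h2
  simp only [g0, g1, tsum_neg] at h2
  interval_cases p
  · have h3 : Sm q q k / 2 = ∑' t : ℕ, wt q q (2 * t) * (q ^ (2 * t)) ^ k := by linarith
    rw [h3]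
    exact e0.hasSum
  · have h3 : Sm q q k / 2 = ∑' t : ℕ, wt q q (2 * t + 1) * (q ^ (2 * t + 1)) ^ k := by linarith
    rw [h3]
    exact e1.hasSum

end Pool.Agent.H94.PN
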