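import Pool.Agent.H94.PN.MOMO
import Pool.Agent.H94.PN.LAWG
import Pool.Agent.H94.PN.WT
import Pool.Agent.H94.PN.LKR
import Pool.Agent.H94.PL.CardCls

set_option autoImplicit false

/-!
# [H94 PN LAWO] The law of the rank for the polynomials prime to the discriminant, `ℓ` odd

* `cls_le`: the elements of `Cls Δ n` are monic of degree `n` (`Cls Δ n ⊆ Mo F n`, `card (Mo F n) = q ^ n`, see `PC.MoMod` / `PL`).
* `lk_sm`: `Sm 1 ℓ k = Lk ℓ k * Sm 1 ℓ 0` by induction (`lk_zero`, `lk_succ` with `ℓ ≠ 2`, `sm_succ`).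
* `lawO`: `lawg` with `Q = ℓ ≥ 3`, `w t = wt 1 ℓ t / Sm 1 ℓ 0` (`wt_pos`, `sm_pos`; `wt_bound`: `C0 = 4 / Sm 1 ℓ 0`), `Z n = Cls (dl A) n`, `s = rkS ℓ α c A`, `T n = card (Cls (dl A) n)`, `E n = q ^ n` (`cls_le`); `∑' t, w t * (ℓ ^ t) ^ k = Sm 1 ℓ k / Sm 1 ℓ 0 = Lk ℓ k`;
  `hM`: `momO`.  Use it with `ε * κ`, where `κ * q ^ n ≤ card (Cls (dl A) n)` for large `n` (`PL.card_Cls_ge`; `q ≥ 4` as `ℓ ∣ q - 1`, `ℓ ≥ 3`, `q ≥ 2`; `dl A ≠ 0`).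
-/

namespace Pool.Agent.H94.PN

open Polynomial
open Pool.Agent.H94.PL
open Pool.Agent.H94.PM
open Pool.Agent.H94.PC (Mo Sq Pr pf om Mn mem_Mo mem_Sq mem_Pr mem_pf mem_pf')

theorem cls_le {F : Type} [Field F] [Finite F] (Δ : F[X]) (n : ℕ) :
    ((Cls Δ n).card : ℝ) ≤ (Nat.card F : ℝ) ^ n := by
  have h : (Cls Δ n).card ≤ Nat.card F ^ n := by
    rw [← Pool.Agent.H94.PC.card_Mo (F := F) n]
    exact Finset.card_le_card fun D hD => mem_Mo.2 ⟨(mem_Cls.1 hD).1, (mem_Cls.1 hD).2.1⟩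
  exact_mod_cast h

theorem lk_sm {ℓ : ℕ} [hl : Fact ℓ.Prime] (h2 : ℓ ≠ 2) (k : ℕ) :
    Sm 1 ℓ k = Lk ℓ k * Sm 1 ℓ 0 := by
  have hq : (1 : ℝ) < (ℓ : ℝ) := by exact_mod_cast hl.out.one_lt
  induction k with
  | zero => rw [lk_zero, Nat.cast_one, one_mul]
  | succ k ih =>
    rw [sm_succ 1 hq k, lk_succ, if_neg h2, ih]
    push_cast
    ring

variable {F : Type} [Field F] [Finite F] {ℓ m : ℕ} [hl : Fact ℓ.Prime]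
variable [DecidableEq (RatFunc F)] {α : ℕ} {c : F} {A : Fin m → F[X]}

theorem lawO (h2 : ℓ ≠ 2) (hq : ℓ ∣ Nat.card F - 1) (hm : Nat.Coprime m ℓ) (hm2 : 2 ≤ m)
    (hα : ℓ ∣ α * m + 1) (hc : c ≠ 0) (hA : ∀ i k, i ≠ k → A i ≠ A k) (hG : GenA ℓ A)
    (r : ℕ) (ε : ℝ) (hε : 0 < ε) :
    ∃ n₀ : ℕ, ∀ n : ℕ, n₀ ≤ n →
      |(((Cls (dl A) n).filter fun D => rkS ℓ α c A D = r).card : ℝ) -
        wt 1 ℓ r / Sm 1 ℓ 0 * ((Cls (dl A) n).card : ℝ)| ≤ ε * ((Cls (dl A) n).card : ℝ) := by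
  have hlp := hl.out.two_le
  have hl3 : 3 ≤ ℓ := by omega
  have hQ : (3 : ℝ) ≤ (ℓ : ℝ) := by exact_mod_cast hl3
  have hQ2 : (2 : ℝ) ≤ (ℓ : ℝ) := by linarith
  have hQ1 : (1 : ℝ) < (ℓ : ℝ) := by linarith
  have hq4 : 4 ≤ Nat.card F := by
    have h1 : 1 < Nat.card F := Finite.one_lt_card
    have h2 : ℓ ≤ Nat.card F - 1 := Nat.le_of_dvd (by omega) hq
    omega
  have hΔ : dl A ≠ 0 := by
    rw [dl, Finset.prod_ne_zero_iff]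
    intro p hp
    exact sub_ne_zero.2 (hA _ _ (mem_prs.1 hp).ne)
  obtain ⟨κ, hκ, n₁, hn₁⟩ := card_Cls_ge hq4 (dl A) hΔ
  have hS0 : 0 < Sm 1 (ℓ : ℝ) 0 := sm_pos one_pos hQ1 0
  have hq0 : (0 : ℝ) ≤ (Nat.card F : ℝ) := Nat.cast_nonneg _
  obtain ⟨n₀, hn₀⟩ := lawg (Q := (ℓ : ℝ)) (C0 := 4 / Sm 1 (ℓ : ℝ) 0)
    (w := fun t => wt 1 (ℓ : ℝ) t / Sm 1 (ℓ : ℝ) 0) (Z := fun n => Cls (dl A) n)
    (s := fun D => rkS ℓ α c A D) (T := fun n => ((Cls (dl A) n).card : ℝ))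
    (E := fun n => (Nat.card F : ℝ) ^ n) hQ
    (fun t => (div_pos (wt_pos one_pos hQ1 t) hS0).le)
    (fun t => by
      have h1 := wt_bound (b := 1) zero_le_one hQ2 t
      rw [one_pow, mul_one] at h1
      rw [div_mul_eq_mul_div]
      exact div_le_div_of_nonneg_right h1 hS0.le)
    (fun n => Nat.cast_nonneg _) (fun n => cls_le (dl A) n)
    (by
      intro k ε' hε'
      obtain ⟨n₂, hn₂⟩ := momO h2 hq hm hm2 hα hc hA hG k ε' hε'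
      refine ⟨n₂, fun n hn => ?_⟩
      have h3 : (∑' t, wt 1 (ℓ : ℝ) t / Sm 1 (ℓ : ℝ) 0 * ((ℓ : ℝ) ^ t) ^ k) = (Lk ℓ k : ℝ) := by
        have h4 : ∀ t, wt 1 (ℓ : ℝ) t / Sm 1 (ℓ : ℝ) 0 * ((ℓ : ℝ) ^ t) ^ k =
            (wt 1 (ℓ : ℝ) t * ((ℓ : ℝ) ^ t) ^ k) / Sm 1 (ℓ : ℝ) 0 := fun t => by ring
        rw [tsum_congr h4, tsum_div_const]
        change Sm 1 (ℓ : ℝ) k / Sm 1 (ℓ : ℝ) 0 = _
        rw [lk_sm h2 k, mul_div_assoc, div_self hS0.ne', mul_one]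
      rw [h3]
      exact hn₂ n hn)
    r (ε * κ) (mul_pos hε hκ)
  refine ⟨max n₀ n₁, fun n hn => ?_⟩
  have h3 := hn₀ n ((le_max_left _ _).trans hn)
  have h4 := hn₁ n ((le_max_right _ _).trans hn)
  refine h3.trans ?_
  calc ε * κ * (Nat.card F : ℝ) ^ n = ε * (κ * (Nat.card F : ℝ) ^ n) := by ring
    _ ≤ ε * ((Cls (dl A) n).card : ℝ) := mul_le_mul_of_nonneg_left h4 hε.le

end Pool.Agent.H94.PN
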