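import Pool.Agent.H94.PN.MOM2
import Pool.Agent.H94.PN.LAWO
import Pool.Agent.H94.PM.CC1

/-!
# [H94 PN LAW2] The law of the rank for the polynomials prime to the discriminant, `ℓ = 2`

* `lk_sm2`: `Sm 2 2 k = Lk 2 k * Sm 2 2 0` by induction (`lk_zero`, `lk_succ` with `ℓ = 2`, `sm_succ`: `1 + 2 * 2 ^ k = 1 + 2 ^ (k + 1)`).
* `w2_bound`: `p < 2`: `wt 2 2 r * 2 ^ (r (r + 1) / 2) ≤ 4 * 2 ^ r` (`wt_bound`) for `r = 2 t + p`; `4 ^ (t (t + 1) / 2) = 2 ^ (t (t + 1))` and `2 ^ (2 t + p + t (t + 1)) ≤ 2 * 2 ^ ((2 t + p) (2 t + p + 1) / 2)`: `p = 0`: `t (2 t + 1) + 1 ≥ 2 t + t (t + 1)`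
  (`t ^ 2 + 1 ≥ 2 t`); `p = 1`: `(2 t + 1) (t + 1) + 1 ≥ 2 t + 1 + t (t + 1)`.
* `law2c`: `p = r % 2`, `lawg` with `Q = 4`, `j = r / 2`, `w t = 2 * wt 2 2 (2 t + p) / Sm 2 2 0` (`C0 = 16 / Sm 2 2 0`, `w2_bound`), `Z n = {D ∈ Cls (dl A) n | rkS % 2 = p}`, `s = rkS / 2`, `T n = card (Z n)`, `E n = q ^ n`.
  `hM`: on `Z n`: `2 ^ rkS = 2 ^ p * 4 ^ s`, so `∑ (4 ^ s) ^ k = 2 ^ (- p k) ∑ (2 ^ rkS) ^ k`; `mom2` with `ε * 2 ^ (p k)` (or just `ε`, as `2 ^ (- p k) ≤ 1`).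
  `∑' t, w t * (4 ^ t) ^ k = 2 * 2 ^ (- p k) / Sm 2 2 0 * ∑' t, wt 2 2 (2 t + p) * (2 ^ (2 t + p)) ^ k = 2 ^ (- p k) * Lk 2 k` (`sm_parity`, `lk_sm2`).
  Finally `{z ∈ Z n | s z = j} = {D ∈ Cls | rkS = r}` (`r = 2 j + p`), `w j = 2 * wt 2 2 r / Sm 2 2 0`; use `ε * κ`, `κ * q ^ n ≤ card Cls` (`card_Cls_ge3`; `q ≥ 3` as `2 ∣ q - 1`, `q ≥ 2`).
* `law2`: `law2c` with `ε / 2` and `half2` with `ε * κ / (4 * (wt 2 2 r / Sm 2 2 0 + 1))`.
-/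

set_option autoImplicit false

namespace Pool.Agent.H94.PN

open Polynomial
open Pool.Agent.H94.PL
open Pool.Agent.H94.PM
open Pool.Agent.H94.PC (Mo Sq Pr pf om Mn mem_Mo mem_Sq mem_Pr mem_pf mem_pf')

theorem lk_sm2 (k : ℕ) : Sm 2 2 k = Lk 2 k * Sm 2 2 0 := by
  induction k with
  | zero => rw [lk_zero]; simp
  | succ k ih =>
    rw [sm_succ 2 (by norm_num : (1 : ℝ) < 2) k, ih, lk_succ, if_pos rfl]
    push_cast
    rw [pow_succ (2 : ℝ) k]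
    ring

theorem w2_bound {p : ℕ} (hp : p < 2) (t : ℕ) :
    wt 2 2 (2 * t + p) * (4 : ℝ) ^ (t * (t + 1) / 2) ≤ 8 := by
  have h1 := wt_bound (b := 2) (q := 2) (by norm_num) le_rfl (2 * t + p)
  have hpos : 0 < wt 2 2 (2 * t + p) := wt_pos (by norm_num) (by norm_num) _
  have h4 : (4 : ℝ) ^ (t * (t + 1) / 2) = 2 ^ (t * (t + 1)) := by
    have h5 : 2 * (t * (t + 1) / 2) = t * (t + 1) :=
      Nat.two_mul_div_two_of_even (Nat.even_mul_succ_self t)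
    rw [show (4 : ℝ) = 2 ^ 2 by norm_num, ← pow_mul, h5]
  have hexp : (2 * t + p) + t * (t + 1) ≤ 1 + (2 * t + p) * (2 * t + p + 1) / 2 := by
    have h6 : (2 * t + p) * (2 * t + p + 1) / 2 = if p = 0 then t * (2 * t + 1)
        else (2 * t + 1) * (t + 1) := by
      interval_cases p
      · rw [if_pos rfl]
        have : (2 * t + 0) * (2 * t + 0 + 1) = 2 * (t * (2 * t + 1)) := by ring
        rw [this]
        exact Nat.mul_div_cancel_left _ (by norm_num)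
      · rw [if_neg (by norm_num)]
        have : (2 * t + 1) * (2 * t + 1 + 1) = 2 * ((2 * t + 1) * (t + 1)) := by ring
        rw [this]
        exact Nat.mul_div_cancel_left _ (by norm_num)
    rw [h6]
    interval_cases p
    · rw [if_pos rfl]
      zify
      nlinarith [sq_nonneg ((t : ℤ) - 1)]
    · rw [if_neg (by norm_num)]
      zify
      nlinarith [sq_nonneg ((t : ℤ) - 1), sq_nonneg (t : ℤ)]
  have h7 : (2 : ℝ) ^ (2 * t + p) * 2 ^ (t * (t + 1)) ≤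
      2 * 2 ^ ((2 * t + p) * (2 * t + p + 1) / 2) := by
    calc (2 : ℝ) ^ (2 * t + p) * 2 ^ (t * (t + 1))
        = 2 ^ ((2 * t + p) + t * (t + 1)) := (pow_add _ _ _).symm
      _ ≤ 2 ^ (1 + (2 * t + p) * (2 * t + p + 1) / 2) :=
          pow_le_pow_right₀ (by norm_num) hexp
      _ = 2 * 2 ^ ((2 * t + p) * (2 * t + p + 1) / 2) := by rw [pow_add, pow_one]
  rw [h4]
  have hX : (0 : ℝ) < 2 ^ ((2 * t + p) * (2 * t + p + 1) / 2) := by positivity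
  have hY : (0 : ℝ) < 2 ^ (t * (t + 1)) := by positivity
  -- wt * X ≤ 4 * 2 ^ r, 2 ^ r * Y ≤ 2 X
  have h8 : wt 2 2 (2 * t + p) * 2 ^ (t * (t + 1)) *
      2 ^ ((2 * t + p) * (2 * t + p + 1) / 2) ≤
      8 * 2 ^ ((2 * t + p) * (2 * t + p + 1) / 2) := by
    calc wt 2 2 (2 * t + p) * 2 ^ (t * (t + 1)) *
        2 ^ ((2 * t + p) * (2 * t + p + 1) / 2)
        = (wt 2 2 (2 * t + p) * 2 ^ ((2 * t + p) * (2 * t + p + 1) / 2)) *
            2 ^ (t * (t + 1)) := by ring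
      _ ≤ (4 * 2 ^ (2 * t + p)) * 2 ^ (t * (t + 1)) :=
          mul_le_mul_of_nonneg_right h1 hY.le
      _ = 4 * (2 ^ (2 * t + p) * 2 ^ (t * (t + 1))) := by ring
      _ ≤ 4 * (2 * 2 ^ ((2 * t + p) * (2 * t + p + 1) / 2)) :=
          mul_le_mul_of_nonneg_left h7 (by norm_num)
      _ = 8 * 2 ^ ((2 * t + p) * (2 * t + p + 1) / 2) := by ring
  exact le_of_mul_le_mul_right h8 hX

variable {F : Type} [Field F] [Finite F] {m : ℕ}
variable [DecidableEq (RatFunc F)] {α : ℕ} {c : F} {A : Fin m → F[X]}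

private theorem law2_q3 (hq : 2 ∣ Nat.card F - 1) : 3 ≤ Nat.card F := by
  have h1 : 1 < Nat.card F := Finite.one_lt_card
  omega

theorem law2c (hq : 2 ∣ Nat.card F - 1) (hm : Nat.Coprime m 2) (hm3 : 3 ≤ m)
    (hα : 2 ∣ α * m + 1) (hc : c ≠ 0) (hA : ∀ i k, i ≠ k → A i ≠ A k) (hG : GenA 2 A)
    (r : ℕ) (ε : ℝ) (hε : 0 < ε) :
    ∃ n₀ : ℕ, ∀ n : ℕ, n₀ ≤ n →
      |(((Cls (dl A) n).filter fun D => rkS 2 α c A D = r).card : ℝ) -
        2 * (wt 2 2 r / Sm 2 2 0) *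
          (((Cls (dl A) n).filter fun D => rkS 2 α c A D % 2 = r % 2).card : ℝ)| ≤
        ε * ((Cls (dl A) n).card : ℝ) := by
  classical
  have hS : 0 < Sm 2 2 0 := sm_pos (by norm_num) (by norm_num) 0
  have hp : r % 2 < 2 := Nat.mod_lt _ (by norm_num)
  set p : ℕ := r % 2 with hpdef
  set E : ℕ → ℝ := fun n => (Nat.card F : ℝ) ^ n with hEdef
  set w : ℕ → ℝ := fun t => 2 * wt 2 2 (2 * t + p) / Sm 2 2 0 with hw
  set Z : ℕ → Finset F[X] := fun n => (Cls (dl A) n).filter fun D => rkS 2 α c A D % 2 = p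
    with hZ
  have hwpos : ∀ t, 0 ≤ w t := fun t => by
    have := wt_pos (b := 2) (q := 2) (by norm_num) (by norm_num) (2 * t + p)
    simp only [hw]
    positivity
  have hwb : ∀ t, w t * (4 : ℝ) ^ (t * (t + 1) / 2) ≤ 16 / Sm 2 2 0 := fun t => by
    have h1 := w2_bound hp t
    have h2 : w t * (4 : ℝ) ^ (t * (t + 1) / 2) =
        2 * (wt 2 2 (2 * t + p) * (4 : ℝ) ^ (t * (t + 1) / 2)) / Sm 2 2 0 := by
      simp only [hw]; ring
    rw [h2]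
    apply div_le_div_of_nonneg_right _ hS.le
    linarith
  have hT : ∀ n, 0 ≤ ((Z n).card : ℝ) := fun n => Nat.cast_nonneg _
  have hE : ∀ n, ((Z n).card : ℝ) ≤ E n := fun n => by
    refine le_trans ?_ (cls_le (dl A) n)
    exact_mod_cast Finset.card_le_card (Finset.filter_subset _ _)
  -- the moments of the weights
  have hmw : ∀ k : ℕ, ∑' t, w t * ((4 : ℝ) ^ t) ^ k = (Lk 2 k : ℝ) / (2 ^ p) ^ k := by
    intro k
    have h1 := (sm_parity (q := 2) (by norm_num) k hp).tsum_eq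
    have h2 : ∀ t : ℕ, w t * ((4 : ℝ) ^ t) ^ k =
        2 / Sm 2 2 0 / (2 ^ p) ^ k * (wt 2 2 (2 * t + p) * (2 ^ (2 * t + p)) ^ k) := by
      intro t
      have h3 : ((2 : ℝ) ^ (2 * t + p)) ^ k = ((4 : ℝ) ^ t) ^ k * (2 ^ p) ^ k := by
        rw [pow_add, mul_pow, pow_mul 2 2 t]
        norm_num
      have h4 : ((2 : ℝ) ^ p) ^ k ≠ 0 := by positivity
      rw [h3]
      simp only [hw]
      field_simp
    simp_rw [h2]
    rw [tsum_mul_left, h1, lk_sm2 k]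
    have h4 : ((2 : ℝ) ^ p) ^ k ≠ 0 := by positivity
    field_simp
  have hM : ∀ (k : ℕ) (ε : ℝ), 0 < ε → ∃ n₀ : ℕ, ∀ n : ℕ, n₀ ≤ n →
      |∑ z ∈ Z n, ((4 : ℝ) ^ (rkS 2 α c A z / 2)) ^ k -
        (∑' t, w t * ((4 : ℝ) ^ t) ^ k) * ((Z n).card : ℝ)| ≤ ε * E n := by
    intro k ε hε
    obtain ⟨n₀, hn₀⟩ := mom2 hq hm hm3 hα hc hA hG hp k ε hε
    refine ⟨n₀, fun n hn => ?_⟩
    have h1 := hn₀ n hn
    rw [← Finset.sum_filter] at h1
    have hP : (1 : ℝ) ≤ (2 ^ p) ^ k := one_le_pow₀ (one_le_pow₀ (by norm_num))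
    have hP0 : (0 : ℝ) < (2 ^ p) ^ k := by positivity
    have h2 : ∑ z ∈ Z n, ((2 : ℝ) ^ rkS 2 α c A z) ^ k =
        (2 ^ p) ^ k * ∑ z ∈ Z n, ((4 : ℝ) ^ (rkS 2 α c A z / 2)) ^ k := by
      rw [Finset.mul_sum]
      refine Finset.sum_congr rfl fun z hz => ?_
      have h3 : rkS 2 α c A z % 2 = p := (Finset.mem_filter.1 hz).2
      have h4 : rkS 2 α c A z = 2 * (rkS 2 α c A z / 2) + p := by omega
      have h5 : (2 : ℝ) ^ rkS 2 α c A z = 2 ^ p * 4 ^ (rkS 2 α c A z / 2) := by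
        conv_lhs => rw [h4]
        rw [pow_add, pow_mul]
        norm_num [mul_comm]
      rw [h5, mul_pow]
    rw [h2] at h1
    rw [hmw k]
    have h6 : ∑ z ∈ Z n, ((4 : ℝ) ^ (rkS 2 α c A z / 2)) ^ k -
        (Lk 2 k : ℝ) / (2 ^ p) ^ k * ((Z n).card : ℝ) =
        ((2 ^ p) ^ k * ∑ z ∈ Z n, ((4 : ℝ) ^ (rkS 2 α c A z / 2)) ^ k -
          (Lk 2 k : ℝ) * ((Z n).card : ℝ)) / (2 ^ p) ^ k := by
      field_simp
    rw [h6, abs_div, abs_of_pos hP0]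
    exact (div_le_self (abs_nonneg _) hP).trans h1
  obtain ⟨κ, hκ, n₁, hn₁⟩ := card_Cls_ge3 (law2_q3 hq) (dl A) (wl2_dl0 hA)
  obtain ⟨n₂, hn₂⟩ := lawg (Q := 4) (by norm_num) hwpos hwb hT hE hM (r / 2) (ε * κ)
    (mul_pos hε hκ)
  refine ⟨max n₁ n₂, fun n hn => ?_⟩
  have h1 := hn₂ n ((le_max_right _ _).trans hn)
  have h2 := hn₁ n ((le_max_left _ _).trans hn)
  have h3 : ((Z n).filter fun z => rkS 2 α c A z / 2 = r / 2) =
      (Cls (dl A) n).filter fun D => rkS 2 α c A D = r := by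
    ext z
    simp only [hZ, Finset.mem_filter]
    constructor
    · rintro ⟨⟨ha, hb⟩, hc'⟩
      exact ⟨ha, by omega⟩
    · rintro ⟨ha, hb⟩
      exact ⟨⟨ha, by rw [hb]⟩, by rw [hb]⟩
  have h4 : w (r / 2) = 2 * (wt 2 2 r / Sm 2 2 0) := by
    have h5 : 2 * (r / 2) + p = r := by omega
    simp only [hw, h5]
    ring
  rw [h3, h4] at h1
  refine h1.trans ?_
  calc ε * κ * E n = ε * (κ * (Nat.card F : ℝ) ^ n) := by simp only [hEdef]; ring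
    _ ≤ ε * ((Cls (dl A) n).card : ℝ) := mul_le_mul_of_nonneg_left h2 hε.le

theorem law2 (hq : 2 ∣ Nat.card F - 1) (hm : Nat.Coprime m 2) (hm3 : 3 ≤ m)
    (hα : 2 ∣ α * m + 1) (hc : c ≠ 0) (hA : ∀ i k, i ≠ k → A i ≠ A k) (hG : GenA 2 A)
    {i k : Fin m} (hd : Dtc 2 A i k) (r : ℕ) (ε : ℝ) (hε : 0 < ε) :
    ∃ n₀ : ℕ, ∀ n : ℕ, n₀ ≤ n →
      |(((Cls (dl A) n).filter fun D => rkS 2 α c A D = r).card : ℝ) -
        wt 2 2 r / Sm 2 2 0 * ((Cls (dl A) n).card : ℝ)| ≤ ε * ((Cls (dl A) n).card : ℝ) := by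
  classical
  have hS : 0 < Sm 2 2 0 := sm_pos (by norm_num) (by norm_num) 0
  have hwr : 0 < wt 2 2 r := wt_pos (by norm_num) (by norm_num) r
  have hp : r % 2 < 2 := Nat.mod_lt _ (by norm_num)
  set a : ℝ := wt 2 2 r / Sm 2 2 0 with ha
  have ha0 : 0 < a := div_pos hwr hS
  obtain ⟨κ, hκ, n₁, hn₁⟩ := card_Cls_ge3 (law2_q3 hq) (dl A) (wl2_dl0 hA)
  obtain ⟨n₂, hn₂⟩ := law2c hq hm hm3 hα hc hA hG r (ε / 2) (half_pos hε)
  obtain ⟨n₃, hn₃⟩ := half2 hq hm hm3 hα hc hA hd hp (ε * κ / (4 * (a + 1))) (by positivity)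
  refine ⟨max n₁ (max n₂ n₃), fun n hn => ?_⟩
  have h1 := hn₁ n ((le_max_left _ _).trans hn)
  have h2 := hn₂ n (((le_max_left _ _).trans (le_max_right _ _)).trans hn)
  have h3 := hn₃ n (((le_max_right _ _).trans (le_max_right _ _)).trans hn)
  set X : ℝ := (((Cls (dl A) n).filter fun D => rkS 2 α c A D = r).card : ℝ) with hX
  set Y : ℝ := (((Cls (dl A) n).filter fun D => rkS 2 α c A D % 2 = r % 2).card : ℝ) with hY
  set N : ℝ := ((Cls (dl A) n).card : ℝ) with hN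
  have h4 : X - a * N = (X - 2 * a * Y) + 2 * a * (Y - 1 / 2 * N) := by ring
  rw [h4]
  refine (abs_add_le _ _).trans ?_
  have h5 : |2 * a * (Y - 1 / 2 * N)| = 2 * a * |Y - 1 / 2 * N| := by
    rw [abs_mul, abs_of_pos (by positivity)]
  rw [h5]
  have h6 : 2 * a * |Y - 1 / 2 * N| ≤ 2 * a * (ε * κ / (4 * (a + 1)) * (Nat.card F : ℝ) ^ n) :=
    mul_le_mul_of_nonneg_left h3 (by positivity)
  have h7 : 2 * a * (ε * κ / (4 * (a + 1)) * (Nat.card F : ℝ) ^ n) =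
      (a / (a + 1)) * (ε / 2 * (κ * (Nat.card F : ℝ) ^ n)) := by
    field_simp
    ring
  have h8 : a / (a + 1) ≤ 1 := by
    rw [div_le_one (by positivity)]
    linarith
  have h9 : (a / (a + 1)) * (ε / 2 * (κ * (Nat.card F : ℝ) ^ n)) ≤
      1 * (ε / 2 * (κ * (Nat.card F : ℝ) ^ n)) :=
    mul_le_mul_of_nonneg_right h8 (by positivity)
  have h10 : ε / 2 * (κ * (Nat.card F : ℝ) ^ n) ≤ ε / 2 * N :=
    mul_le_mul_of_nonneg_left h1 (by positivity)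
  linarith

end Pool.Agent.H94.PN
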