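import Pool.Agent.H94.PN.SRJ2

set_option autoImplicit false

/-!
# [H94 PN SCD] The number of Selmer classes

`SelC` is the set of the classes of the Selmer tuples modulo `ℓ`-th powers.
* `kap_mul_pow`, `ex_mul_pow`: the lemmas of `PL.Kx`; so `zM_congr`.
* `scd`: the map `KM → SelC`, `z ↦` class of the `δ` chosen by `srj` (units: `IsSln.ne`).  Injective: if the classes of `δ`, `δ'` are equal then `δ k = δ' k * y k ^ ℓ` (`QuotientGroup.eq`), so `zM δ = zM δ'` (`zM_congr`).  Surjective: a class of `δ'` with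
  `IsSln δ'`: `z = zM δ' ∈ KM` (`zM_mem`), the chosen `δ` for `z` has `zM δ = zM δ'`, `zM_inj` gives `δ k = δ' k * y ^ ℓ`, so the class is the same.
* `selC_card`: `scd`, `km_dich` (the first component), `km_pow`, `card_XX`: `card = ℓ ^ j * ℓ ^ (m - 1)`.
  `Wl`, `Wi` from `exists_OKl`, `exists_OKi`, `χ` from `PL.exists_LChar` (see `PM.FINO`).  `m ≥ 1` as `m` is prime to `ℓ`.
* `rkS_spec`: `Nat.log_pow`.
-/

namespace Pool.Agent.H94.PN

open Polynomial WithZero IsDedekindDomain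
open Pool.Agent.H94.PL
open Pool.Agent.H94.PM
open Pool.Agent.H94.PC (Mo Sq Pr pf om Mn mem_Mo mem_Sq mem_Pr mem_pf mem_pf')

/-- the classes of the Selmer tuples -/
def SelC {F : Type} [Field F] {m : ℕ} [DecidableEq (RatFunc F)] (ℓ α : ℕ) (c : F)
    (A : Fin m → F[X]) (D : F[X]) :
    Set (Fin m → (RatFunc F)ˣ ⧸ (powMonoidHom ℓ : (RatFunc F)ˣ →* (RatFunc F)ˣ).range) :=
  {x | ∃ δ : Fin m → (RatFunc F)ˣ, (∀ k, x k = QuotientGroup.mk (δ k)) ∧
    IsSln ℓ α c A D fun k => (δ k : RatFunc F)}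

/-- the rank: `card SelC = ℓ ^ (m - 1 + rkS)` -/
noncomputable def rkS {F : Type} [Field F] {m : ℕ} [DecidableEq (RatFunc F)] (ℓ α : ℕ) (c : F)
    (A : Fin m → F[X]) (D : F[X]) : ℕ :=
  Nat.log ℓ (Nat.card (SelC ℓ α c A D)) - (m - 1)

variable {F : Type} [Field F] [Finite F] {ℓ m : ℕ} [hl : Fact ℓ.Prime]

theorem zM_congr (χ : LChar F ℓ) {A : Fin m → F[X]} {D : F[X]} {δ δ' : Fin m → RatFunc F}
    (hne : ∀ k, δ' k ≠ 0) (h : ∀ k, ∃ y : RatFunc F, y ≠ 0 ∧ δ k = δ' k * y ^ ℓ) :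
    zM χ A D δ = zM χ A D δ' := by
  choose y hy0 hy using h
  have h1 : ∀ k, kap χ (δ k) = kap χ (δ' k) := by
    intro k
    rw [hy k, kap_mul χ (hne k) (pow_ne_zero _ (hy0 k)), kap_pow_l χ (hy0 k), add_zero]
  have h2 : ∀ P : F[X], Irreducible P → ∀ k, PL.ex ℓ P (δ k) = PL.ex ℓ P (δ' k) := by
    intro P hP k
    rw [hy k, ex_mul hP (hne k) (pow_ne_zero _ (hy0 k)), ex_pow_l hP (hy0 k), add_zero]
  refine Prod.ext (Prod.ext ?_ ?_) ?_
  · show toX (fun k => kap χ (δ k)) = toX (fun k => kap χ (δ' k))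
    congr 1
    funext k
    exact h1 k
  · funext v
    show toX (fun k => PL.ex ℓ v.1 (δ k)) = toX (fun k => PL.ex ℓ v.1 (δ' k))
    congr 1
    funext k
    exact h2 v.1 (mem_pf' v.2).2.1 k
  · funext P
    show toX (fun k => PL.ex ℓ P.1 (δ k)) = toX (fun k => PL.ex ℓ P.1 (δ' k))
    congr 1
    funext k
    exact h2 P.1 (mem_pf' P.2).2.1 k

variable [DecidableEq (RatFunc F)] {α : ℕ} {c : F} {A : Fin m → F[X]} {D : F[X]}

theorem scd (χ : LChar F ℓ)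
    {Wl : pf (dl A) → ZMod ℓ → Submodule (ZMod ℓ) (XX m ℓ × XX m ℓ)}
    {Wi : ZMod ℓ → Submodule (ZMod ℓ) (XX m ℓ × XX m ℓ)}
    (hq : ℓ ∣ Nat.card F - 1) (hm : Nat.Coprime m ℓ)
    (hα : ℓ ∣ α * m + 1) (hc : c ≠ 0) (hA : ∀ i k, i ≠ k → A i ≠ A k)
    (hWl : OKl χ α A Wl) (hcl : ∀ v b, Nat.card (Wl v b) ≤ Nat.card (XX m ℓ))
    (hWi : OKi χ α c A Wi) (hci : ∀ b, Nat.card (Wi b) ≤ Nat.card (XX m ℓ))
    {n : ℕ} (hD : D ∈ Cls (dl A) n) :
    Nat.card (SelC ℓ α c A D) = Nat.card (KM χ (DC χ c A Wl Wi) D) := by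
  obtain ⟨hDm, _, hDs, hDA⟩ := mem_Cls.1 hD
  have hex : ∀ z : KM χ (DC χ c A Wl Wi) D, ∃ δ : Fin m → RatFunc F,
      IsSln ℓ α c A D δ ∧ zM χ A D δ = z.1 := fun z =>
    srj χ hq hm hα hc hA hWl hcl hWi hci hD z.2
  choose dz hS hzM using hex
  let f : KM χ (DC χ c A Wl Wi) D → SelC ℓ α c A D := fun z =>
    ⟨fun k => QuotientGroup.mk (Units.mk0 (dz z k) ((hS z).ne k)),
      ⟨fun k => Units.mk0 (dz z k) ((hS z).ne k), fun k => rfl, hS z⟩⟩
  have hf : Function.Bijective f := by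
    constructor
    · intro z z' hzz
      have h1 : ∀ k, (QuotientGroup.mk (Units.mk0 (dz z k) ((hS z).ne k)) :
          (RatFunc F)ˣ ⧸ (powMonoidHom ℓ : (RatFunc F)ˣ →* (RatFunc F)ˣ).range) =
          QuotientGroup.mk (Units.mk0 (dz z' k) ((hS z').ne k)) := fun k =>
        congrFun (congrArg Subtype.val hzz) k
      have h2 : ∀ k, ∃ y : RatFunc F, y ≠ 0 ∧ dz z' k = dz z k * y ^ ℓ := by
        intro k
        obtain ⟨w, hw⟩ := QuotientGroup.eq.1 (h1 k)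
        refine ⟨(w : RatFunc F), w.ne_zero, ?_⟩
        have h3 : (w : RatFunc F) ^ ℓ = (dz z k)⁻¹ * dz z' k := by
          have h4 := congrArg (fun u : (RatFunc F)ˣ => (u : RatFunc F)) hw
          simp only [powMonoidHom_apply, Units.val_pow_eq_pow_val, Units.val_mul,
            Units.val_inv_eq_inv_val, Units.val_mk0] at h4
          exact h4
        rw [h3, mul_inv_cancel_left₀ ((hS z).ne k)]
      apply Subtype.ext
      rw [← hzM z, ← hzM z']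
      exact (zM_congr χ (hS z).ne h2).symm
    · rintro ⟨x, δ', hx, hsl⟩
      have hmem := zM_mem χ hm hα hc hA hDm hDs hDA hsl hWl hWi
      refine ⟨⟨_, hmem⟩, ?_⟩
      apply Subtype.ext
      funext k
      show QuotientGroup.mk (Units.mk0 (dz ⟨_, hmem⟩ k) _) = x k
      rw [hx k]
      obtain ⟨y, hy0, hy⟩ := zM_inj χ hm hα hc hA hDm (hS ⟨_, hmem⟩) hsl (hzM ⟨_, hmem⟩) k
      refine (QuotientGroup.eq.2 (MonoidHom.mem_range.2 ⟨Units.mk0 y hy0, ?_⟩)).symm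
      apply Units.ext
      simp only [powMonoidHom_apply, Units.val_pow_eq_pow_val, Units.val_mul,
        Units.val_inv_eq_inv_val, Units.val_mk0]
      rw [hy, inv_mul_cancel_left₀ (δ' k).ne_zero]
  exact (Nat.card_congr (Equiv.ofBijective f hf)).symm

theorem selC_card (hq : ℓ ∣ Nat.card F - 1) (hm : Nat.Coprime m ℓ)
    (hα : ℓ ∣ α * m + 1) (hc : c ≠ 0) (hA : ∀ i k, i ≠ k → A i ≠ A k)
    {n : ℕ} (hn : 1 ≤ n) (hD : D ∈ Cls (dl A) n) :
    ∃ r : ℕ, Nat.card (SelC ℓ α c A D) = ℓ ^ (m - 1 + r) := by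
  obtain ⟨χ⟩ := exists_LChar F hl.out hq
  obtain ⟨Wl, hcl, hWl⟩ := exists_OKl χ hq hm hα A
  obtain ⟨Wi, hci, hWi⟩ := exists_OKi χ hq hm hα c A
  have h1 := (km_dich χ hm hα hc hA hn hD hWl hWi).1
  obtain ⟨j, hj⟩ := km_pow χ h1
  have hm1 : 1 ≤ m := by
    rcases Nat.eq_zero_or_pos m with h0 | h0
    · rw [h0, Nat.coprime_zero_left] at hm
      exact (hl.out.ne_one hm).elim
    · exact h0
  refine ⟨j, ?_⟩
  rw [scd χ hq hm hα hc hA hWl hcl hWi hci hD, hj, card_XX hm1, ← pow_add, add_comm]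

theorem rkS_spec (hq : ℓ ∣ Nat.card F - 1) (hm : Nat.Coprime m ℓ)
    (hα : ℓ ∣ α * m + 1) (hc : c ≠ 0) (hA : ∀ i k, i ≠ k → A i ≠ A k)
    {n : ℕ} (hn : 1 ≤ n) (hD : D ∈ Cls (dl A) n) (r : ℕ) :
    Nat.card (SelC ℓ α c A D) = ℓ ^ (m - 1 + r) ↔ rkS ℓ α c A D = r := by
  obtain ⟨r₀, hr₀⟩ := selC_card hq hm hα hc hA hn hD
  have h1 : rkS ℓ α c A D = r₀ := by
    rw [rkS, hr₀, Nat.log_pow hl.out.one_lt, Nat.add_sub_cancel_left]
  rw [h1, hr₀]
  constructor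
  · intro h
    have h2 := Nat.pow_right_injective hl.out.two_le h
    exact Nat.add_left_cancel h2
  · intro h
    rw [h]

end Pool.Agent.H94.PN
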