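import Pool.Agent.H94.PM.TRF

set_option autoImplicit false

/-!
# [H94 PN TOR] The coordinates of the torsion classes

`σ = toX (s k)`.  `δ k = tv (-DK c D) (AK A) s k = (-DK c D) ^ s k * ∏ i ≠ k, (AK A k - AK A i) ^ (s i - s k)`.
* `zM_tor`: the three components.  `kap (δ k) = s k (lg (-1) + lg c) + ∑ i ≠ k, (s i - s k) lg (lc (A k - A i))` (`kap` of products, powers: the lemmas of `PL.Kx`; `kap_poly`; `D` monic) `= - (bet σ) k` (`Hs_eq`).
  `ex v (δ k) = s k * 0 + ∑ i ≠ k, (s i - s k) mlt v k i = - (L v σ) k` for `v ∈ pf (dl A)` (`v ∤ D`: `ex_poly`, multiplicity `0`).  At `P ∈ pf D`: `zM_tv`.  (`toX_apply`: the sums over `k` are `0`, as `- bet σ ∈ XX`.  The `ℓ`-divisibility of `∑ s` gives `∑ (s k : ZMod ℓ) = 0`.)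
* `xi_const`: `xi χ (dl A) D (fun _ => σ) = (∑ P, deg P • σ, fun v => ∑ P, lm χ v P • σ)`, `D = ∏ P ∈ pf D, P` (monic squarefree), `natDegree_prod`, `lm` of a product (`v` is prime to all `P`; see `PM.TOTM.totm_sum`, `ty`).
* `tor_DC`: for `s k = ((σ.1 k).val : ℤ)`, `δ` is a torsion class (`IsTcn`, `y = 1`), so a Selmer class (`sln_of_tcn`) and `zM δ ∈ KM` (`zM_mem`), `mem_KM`; with `zM_tor`, `xi_const` the first condition is the statement.
-/

namespace Pool.Agent.H94.PN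

open Polynomial
open Pool.Agent.H94.PL
open Pool.Agent.H94.PM
open Pool.Agent.H94.PC (Mo Sq Pr pf om Mn mem_Mo mem_Sq mem_Pr mem_pf mem_pf')

variable {F : Type} [Field F] [Finite F] {ℓ m : ℕ} [hl : Fact ℓ.Prime] (χ : LChar F ℓ)
variable {α : ℕ} {c : F} {A : Fin m → F[X]} {D : F[X]}
  {Wl : pf (dl A) → ZMod ℓ → Submodule (ZMod ℓ) (XX m ℓ × XX m ℓ)}
  {Wi : ZMod ℓ → Submodule (ZMod ℓ) (XX m ℓ × XX m ℓ)}

private theorem tor_toX (f : Fin m → ZMod ℓ) (x : XX m ℓ) (h : ∀ k, f k = x.1 k) :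
    toX f = x := by
  have h0 : ∑ k, f k = 0 := by
    rw [Finset.sum_congr rfl fun k _ => h k]
    exact XX_sum x
  apply Subtype.ext
  funext k
  rw [toX_apply h0, h k]

theorem zM_tor [DecidableEq (RatFunc F)] (hm : Nat.Coprime m ℓ) (hα : ℓ ∣ α * m + 1) (hc : c ≠ 0)
    (hA : ∀ i k, i ≠ k → A i ≠ A k) (hD : D.Monic) (hDs : Squarefree D)
    (hDA : IsCoprime D (dl A)) (s : Fin m → ℤ) (hs : (ℓ : ℤ) ∣ ∑ k, s k) :
    zM χ A D (fun k => tv (-DK c D) (AK A) s k) =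
      ((-(DC χ c A Wl Wi).bet (toX fun k => (s k : ZMod ℓ)),
        fun v => -(DC χ c A Wl Wi).L v (toX fun k => (s k : ZMod ℓ))),
        fun _ => toX fun k => (s k : ZMod ℓ)) := by
  have hs0 : ∑ k, ((s k : ℤ) : ZMod ℓ) = 0 := by
    rw [← Int.cast_sum]
    exact (ZMod.intCast_zmod_eq_zero_iff_dvd _ _).2 hs
  have hσ : ∀ k, (toX fun k => ((s k : ℤ) : ZMod ℓ)).1 k = (s k : ZMod ℓ) :=
    fun k => toX_apply hs0 k
  have hDK : -DK c D ≠ 0 := neg_ne_zero.2 (DK_ne hc hD.ne_zero)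
  have hAne : ∀ k i, i ∈ Finset.univ.erase k → AK A k - AK A i ≠ 0 := by
    intro k i hi h
    exact hA k i (Finset.ne_of_mem_erase hi).symm
      (RatFunc.algebraMap_injective F (sub_eq_zero.1 h))
  have hpne : ∀ k, ∏ i ∈ Finset.univ.erase k, (AK A k - AK A i) ^ (s i - s k) ≠ 0 := fun k =>
    Finset.prod_ne_zero_iff.2 fun i hi => zpow_ne_zero _ (hAne k i hi)
  have eDK : -DK c D = algebraMap F[X] (RatFunc F) (-(C c * D)) := by
    rw [DK, map_neg]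
  have eAK : ∀ k i, AK A k - AK A i = algebraMap F[X] (RatFunc F) (A k - A i) := by
    intro k i
    rw [AK, AK, map_sub]
  have hcD : C c * D ≠ 0 := mul_ne_zero (C_ne_zero.2 hc) hD.ne_zero
  refine Prod.ext (Prod.ext ?_ ?_) ?_
  · refine tor_toX _ _ fun k => ?_
    show kap χ (tv (-DK c D) (AK A) s k) = -((lap (lg2 χ) (Hs χ A) (Hs_symm χ A)
      (toX fun k => ((s k : ℤ) : ZMod ℓ))).1 k - (χ.lg (-1) + χ.lg c) *
        (toX fun k => ((s k : ℤ) : ZMod ℓ)).1 k)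
    rw [lap_apply, hσ]
    simp only [hσ]
    rw [tv, kap_mul χ (zpow_ne_zero _ hDK) (hpne k), kap_zpow χ hDK,
      kap_prod χ _ _ fun i hi => zpow_ne_zero _ (hAne k i hi)]
    have e1 : kap χ (-DK c D) = χ.lg (-1) + χ.lg c := by
      rw [eDK, kap_poly χ (neg_ne_zero.2 hcD), leadingCoeff_neg, leadingCoeff_mul, leadingCoeff_C,
        hD.leadingCoeff, mul_one, lg_neg' χ hc]
    have e2 : ∑ i ∈ Finset.univ.erase k, kap χ ((AK A k - AK A i) ^ (s i - s k)) =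
        ∑ i ∈ Finset.univ.erase k, ((s i : ZMod ℓ) - (s k : ZMod ℓ)) * Hs χ A k i := by
      refine Finset.sum_congr rfl fun i hi => ?_
      have h1 := hA k i (Finset.ne_of_mem_erase hi).symm
      rw [kap_zpow χ (hAne k i hi), eAK, kap_poly χ (sub_ne_zero.2 h1), Hs_eq χ h1]
      push_cast
      ring
    rw [e1, e2, neg_sub]
    have e3 : ∑ i ∈ Finset.univ.erase k, Hs χ A k i * ((s k : ZMod ℓ) - (s i : ZMod ℓ)) =
        -∑ i ∈ Finset.univ.erase k, ((s i : ZMod ℓ) - (s k : ZMod ℓ)) * Hs χ A k i := by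
      rw [← Finset.sum_neg_distrib]
      exact Finset.sum_congr rfl fun i _ => by ring
    rw [e3]
    ring
  · funext v
    have hv := mem_pf' v.2
    refine tor_toX _ _ fun k => ?_
    show ex ℓ v.1 (tv (-DK c D) (AK A) s k) = -((lap (add_zero 0) (mlt ℓ A v.1)
      (fun _ _ _ => mlt_symm A v.1 _ _) (toX fun k => ((s k : ℤ) : ZMod ℓ))).1 k)
    rw [lap_apply, hσ]
    simp only [hσ]
    rw [tv, ex_mul hv.2.1 (zpow_ne_zero _ hDK) (hpne k), ex_zpow hv.2.1 hDK,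
      ex_prod hv.2.1 _ _ fun i hi => zpow_ne_zero _ (hAne k i hi)]
    have e1 : ex ℓ v.1 (-DK c D) = 0 := by
      rw [eDK]
      refine ex_of_not_dvd hv.2.1 ?_
      rw [dvd_neg]
      intro h
      rcases hv.2.1.prime.dvd_or_dvd h with h1 | h1
      · exact hv.2.1.not_isUnit (isUnit_of_dvd_unit h1 (isUnit_C.2 (isUnit_iff_ne_zero.2 hc)))
      · exact hv.2.1.not_isUnit (hDA.isUnit_of_dvd' h1 hv.2.2)
    have e2 : ∑ i ∈ Finset.univ.erase k, ex ℓ v.1 ((AK A k - AK A i) ^ (s i - s k)) =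
        ∑ i ∈ Finset.univ.erase k, ((s i : ZMod ℓ) - (s k : ZMod ℓ)) * mlt ℓ A v.1 k i := by
      refine Finset.sum_congr rfl fun i hi => ?_
      have h1 := hA k i (Finset.ne_of_mem_erase hi).symm
      rw [ex_zpow hv.2.1 (hAne k i hi), eAK, ex_poly hv.2.1 (sub_ne_zero.2 h1), mlt]
      push_cast
      ring
    rw [e1, e2, mul_zero, zero_add, ← Finset.sum_neg_distrib]
    exact Finset.sum_congr rfl fun i _ => by ring
  · funext P
    apply Subtype.ext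
    funext k
    rw [zM_tv χ hm hα hc hA hD hDs hDA s hs P k]
    exact (hσ k).symm

theorem xi_const {n : ℕ} (hD : D ∈ Cls (dl A) n) (σ : XX m ℓ) :
    xi χ (dl A) D (fun _ => σ) =
      ((ty χ (dl A) D).1 • σ, fun v => (ty χ (dl A) D).2 v • σ) := by
  obtain ⟨hD1, hD2, hD3, hD4⟩ := mem_Cls.1 hD
  refine Prod.ext ?_ ?_
  · show ∑ P : pf D, (P.1.natDegree : ZMod ℓ) • σ = (D.natDegree : ZMod ℓ) • σ
    rw [← Finset.sum_smul]
    congr 1
    rw [← PC.natDegree_prod_pf hD1 hD3, Nat.cast_sum]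
    exact Finset.sum_coe_sort (pf D) (fun P => (P.natDegree : ZMod ℓ))
  · funext v
    show ∑ P : pf D, lm χ v.1 P.1 • σ = lm χ v.1 D • σ
    rw [← Finset.sum_smul]
    congr 1
    have h1 : IsCoprime v.1 D := (hD4.of_isCoprime_of_dvd_right (mem_pf' v.2).2.2).symm
    conv_rhs => rw [← PC.prod_pf hD1 hD3]
    rw [lm_prod_right]
    · exact Finset.sum_coe_sort (pf D) (fun P => lm χ v.1 P)
    · intro P hP
      exact (mem_pf' hP).1
    · intro P hP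
      exact h1.of_isCoprime_of_dvd_right (mem_pf' hP).2.2

theorem tor_DC [DecidableEq (RatFunc F)] (hm : Nat.Coprime m ℓ) (hα : ℓ ∣ α * m + 1) (hc : c ≠ 0)
    (hA : ∀ i k, i ≠ k → A i ≠ A k) {n : ℕ} (hD : D ∈ Cls (dl A) n)
    (hWl : OKl χ α A Wl) (hWi : OKi χ α c A Wi) (σ : XX m ℓ) :
    (((-(DC χ c A Wl Wi).bet σ, fun v => -(DC χ c A Wl Wi).L v σ),
      ((ty χ (dl A) D).1 • σ, fun v => (ty χ (dl A) D).2 v • σ)) :
      EE (XX m ℓ) (pf (dl A)) × EE (XX m ℓ) (pf (dl A))) ∈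
        (DC χ c A Wl Wi).W (ty χ (dl A) D) := by
  obtain ⟨hDm, hDn, hDs, hDA⟩ := mem_Cls.1 hD
  have : NeZero ℓ := ⟨hl.out.ne_zero⟩
  obtain ⟨s, hsσ⟩ : ∃ s : Fin m → ℤ, ∀ k, ((s k : ℤ) : ZMod ℓ) = σ.1 k :=
    ⟨fun k => ((σ.1 k).val : ℤ), fun k => by simp⟩
  have hs : (ℓ : ℤ) ∣ ∑ k, s k := by
    rw [← ZMod.intCast_zmod_eq_zero_iff_dvd, Int.cast_sum]
    simp only [hsσ]
    exact XX_sum σ
  have htc : IsTcn ℓ c A D (fun k => tv (-DK c D) (AK A) s k) :=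
    ⟨s, hs, fun k => ⟨1, one_ne_zero, by rw [one_pow, mul_one]⟩⟩
  have hsl : IsSln ℓ α c A D (fun k => tv (-DK c D) (AK A) s k) :=
    sln_of_tcn hl.out hm hα hc hA hDm.ne_zero htc
  have h := zM_mem χ hm hα hc hA hDm hDs hDA hsl hWl hWi
  rw [zM_tor χ hm hα hc hA hDm hDs hDA s hs (Wl := Wl) (Wi := Wi), mem_KM] at h
  have h1 := h.1
  have e : (toX fun k => ((s k : ℤ) : ZMod ℓ)) = σ := tor_toX _ _ hsσ
  rw [e] at h1
  have e2 := xi_const χ hD σ
  rw [← e2]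
  exact h1

end Pool.Agent.H94.PN
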