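import Pool.Agent.H94.PM.WL2

set_option autoImplicit false

/-!
# [H94 PN LOKX] Existence of the local conditions, `ℓ = 2`, without a detected pair

This is a part of the proof of `PM.exists_L2`: for each `v` let `W v` be from `exists_W2` for the completion at `v`, `W∞` the same at infinity, `Wl v b = W v 0 b`, `Wi b = W∞ b (χ.lg c)`; `phL_v`, `psL_v`, `un1_v`, `phL_i`, `psL_i`, `un1_i`.
-/

namespace Pool.Agent.H94.PN

open Polynomial
open Pool.Agent.H94.PL
open Pool.Agent.H94.PM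
open Pool.Agent.H94.PC (Mo Sq Pr pf om Mn mem_Mo mem_Sq mem_Pr mem_pf mem_pf')

variable {F : Type} [Field F] [Finite F] {m : ℕ} (χ : LChar F 2) {A : Fin m → F[X]}

theorem exists_lokx [DecidableEq (RatFunc F)] (hq : 2 ∣ Nat.card F - 1) (hm : Nat.Coprime m 2)
    {α : ℕ} (hα : 2 ∣ α * m + 1) (c : F) (hA : ∀ i k, i ≠ k → A i ≠ A k) :
    ∃ (Wl : pf (dl A) → ZMod 2 → Submodule (ZMod 2) (XX m 2 × XX m 2))
      (Wi : ZMod 2 → Submodule (ZMod 2) (XX m 2 × XX m 2)),
      LOK χ A Wl Wi ∧ OKl χ α A Wl ∧ OKi χ α c A Wi := by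
  classical
  -- the local spaces at the finite places
  have hAv : ∀ (v : pf (dl A)) (a b : Fin m), a ≠ b → toV v (AK A a) ≠ toV v (AK A b) := by
    intro v a b hab h
    have h1 := (toV v).injective h
    rw [AK, AK] at h1
    exact hA a b hab (RatFunc.algebraMap_injective F h1)
  have hAi : ∀ (a b : Fin m), a ≠ b → toI F (AK A a) ≠ toI F (AK A b) := by
    intro a b hab h
    have h1 := (toI F).injective h
    rw [AK, AK] at h1
    exact hA a b hab (RatFunc.algebraMap_injective F h1)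
  have hW : ∀ v : pf (dl A), ∃ W : ZMod 2 → ZMod 2 → Submodule (ZMod 2) (XX m 2 × XX m 2),
      (∀ a b, Nat.card (W a b) = Nat.card (XX m 2) ∧
        ∀ g ∈ W a b, qf ((UV χ v).un (-1)) (phL (wP v.1 (mem_pf' v.2).2.1)
          (fun k => toV v (AK A k))) (psL (UV χ v) (fun k => toV v (AK A k))) g = 0) ∧
      ∀ D, D ≠ 0 → Gam (UV χ v) α D (fun k => toV v (AK A k)) ≤
        W (vl (wP v.1 (mem_pf' v.2).2.1) D : ZMod 2) ((UV χ v).un D) := by
    intro v
    exact exists_W2 (UV χ v) (val_l_P hq (mem_pf' v.2).2.1) (wP_self v.1 (mem_pf' v.2).2.1) hm hα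
      (hAv v)
  choose W hW1 hW2 using hW
  obtain ⟨Wi, hWi1, hWi2⟩ : ∃ W : ZMod 2 → ZMod 2 → Submodule (ZMod 2) (XX m 2 × XX m 2),
      (∀ a b, Nat.card (W a b) = Nat.card (XX m 2) ∧
        ∀ g ∈ W a b, qf ((UI χ).un (-1)) (phL (wI F)
          (fun k => toI F (AK A k))) (psL (UI χ) (fun k => toI F (AK A k))) g = 0) ∧
      ∀ D, D ≠ 0 → Gam (UI χ) α D (fun k => toI F (AK A k)) ≤
        W (vl (wI F) D : ZMod 2) ((UI χ).un D) := by
    haveI := complete_inf F
    exact exists_W2 (UI χ) (val_l_inf hq) (unif_inf (F := F)) hm hα hAi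
  refine ⟨fun v b => W v 0 b, fun b => Wi b (χ.lg c), ⟨?_, ?_, ?_, ?_⟩, ?_, ?_⟩
  · intro v b
    exact (hW1 v 0 b).1
  · intro v b g hg
    rw [← un1_v χ v, ← phL_v hA v, ← psL_v χ hA v]
    exact (hW1 v 0 b).2 g hg
  · intro b
    exact (hWi1 b (χ.lg c)).1
  · intro b g hg
    rw [← un1_i χ, ← phL_i hA, ← psL_i χ hA]
    exact (hWi1 b (χ.lg c)).2 g hg
  · intro v D' hD' hvD'
    have h3 := hW2 v D' hD'
    rw [hvD'] at h3
    exact h3
  · intro D' hD' hun
    have h3 := hWi2 D' hD'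
    rw [hun] at h3
    exact h3

end Pool.Agent.H94.PN
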