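import Pool.Agent.H94.PN.AUE
import Pool.Agent.H94.PN.CNT
import Pool.Agent.H94.PM.AVM

/-!
# [H94 PN MOM] The moments of the number of classes

`Xk = Fin k → X`, `C = CDX (Bk B k)`, good (`cdx_good'`, `Bk_good`).  As in `PM.AVM.avm`: with `K = card (EE Xk (pf Δ)) ≥ 1`, `G = (1/K) • GK (Bk B k) (dtk dt k) R`, `‖G‖ ≤ 1` (`norm_GK`), `wg_smul`, `au_smul`, `ang` (with `ε / K`; `n₀` does not depend on `R`):
`‖∑ x, WG (GK R) - ∑ U ∈ MaxU C, ∑ D ∈ Cls Δ n, AU (GK R) U (ty D)‖ ≤ ε q^n` for `n ≥ n₀`.  The first sum is `∑ D ∈ Cls Δ n, [R (ty D)] card (KM (dtk dt k) D)` (`totm`), and `card (KM (dtk dt k) D) = card (KM dt D) ^ k` (`km_pow_card`).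
In the second sum: `Non U`: `0` (`avu_non`).  Otherwise `str` and `au_one` give `[R (ty D)]` (`n ≥ 1`, `hT`).  So the double sum is `#{U | ¬ Non U} * #{D | R (ty D)}`, and `cnt` gives the number of `U`.
-/

set_option autoImplicit false

namespace Pool.Agent.H94.PN

open Polynomial
open Pool.Agent.H94.PL
open Pool.Agent.H94.PM
open Pool.Agent.H94.PC (Mo Sq Pr pf om Mn mem_Mo mem_Sq mem_Pr mem_pf mem_pf')

variable {ℓ : ℕ} [hl : Fact ℓ.Prime] {X : Type} [AddCommGroup X] [Module (ZMod ℓ) X] [Fintype X]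
  [DecidableEq X] {B : X →ₗ[ZMod ℓ] X →ₗ[ZMod ℓ] ZMod ℓ}
  {F : Type} [Field F] [Finite F] (χ : LChar F ℓ) {Δ : F[X]}

open Classical in
theorem mom (hB : BGood B) [Nontrivial X] (hx : ℓ ≠ 2 → ∃ x : X, B x x ≠ 0) (hΔ : Δ ≠ 0)
    {dt : Dat ℓ X (pf Δ)} (hd : DOK B dt (χ.lg (-1)))
    (hG : Algebra.adjoin (ZMod ℓ) (Set.range dt.L) = (⊤ : Subalgebra (ZMod ℓ) (Module.End (ZMod ℓ) X)))
    (hT : ∀ n, 1 ≤ n → ∀ D ∈ Cls Δ n, TOK B dt (ty χ Δ D)) (k : ℕ) (ε : ℝ) (hε : 0 < ε) :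
    ∃ n₀ : ℕ, ∀ n : ℕ, n₀ ≤ n → ∀ R : Tp ℓ (pf Δ) → Prop,
      |∑ D ∈ Cls Δ n, (if R (ty χ Δ D) then (Nat.card (KM χ dt D) : ℝ) ^ k else 0) -
        (Lk ℓ k : ℝ) * (Fintype.card X : ℝ) ^ k *
          (((Cls Δ n).filter fun D => R (ty χ Δ D)).card : ℝ)| ≤
        ε * (Nat.card F : ℝ) ^ n := by
  have hBk := Bk_good hB k
  have hM : 0 < Fintype.card (EE (Fin k → X) (pf Δ)) := Fintype.card_pos_iff.2 ⟨0⟩
  obtain ⟨M, hMd⟩ : ∃ M : ℝ, M = (Fintype.card (EE (Fin k → X) (pf Δ)) : ℝ) := ⟨_, rfl⟩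
  have hM0 : 0 < M := by rw [hMd]; exact_mod_cast hM
  obtain ⟨n₀, h⟩ := ang χ (CDX (Bk B k)) (cdx_good' (Bk B k) hBk) Δ hΔ (ε / M) (by positivity)
  refine ⟨max n₀ 1, fun n hn R => ?_⟩
  have hn0 : n₀ ≤ n := (le_max_left _ _).trans hn
  have hn1 : 1 ≤ n := (le_max_right _ _).trans hn
  have h1 := h n hn0 (fun τ => (M : ℂ)⁻¹ * GK (Bk B k) (dtk dt k) R τ) (by
    intro τ
    rw [norm_mul, norm_inv, Complex.norm_real, Real.norm_of_nonneg hM0.le, inv_mul_le_iff₀ hM0,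
      mul_one, hMd]
    exact norm_GK (Bk B k) (dtk dt k) R τ)
  have e1 : ∑ x : (Fin k → X) × (Fin k → X) → Mn F n,
      WG χ (CDX (Bk B k)) Δ (fun τ => (M : ℂ)⁻¹ * GK (Bk B k) (dtk dt k) R τ) n x =
      (M : ℂ)⁻¹ * ∑ x : (Fin k → X) × (Fin k → X) → Mn F n,
        WG χ (CDX (Bk B k)) Δ (GK (Bk B k) (dtk dt k) R) n x := by
    rw [Finset.mul_sum]
    exact Finset.sum_congr rfl fun x _ => wg_smul χ (CDX (Bk B k)) _ _ n x
  have e2 : ∑ U ∈ MaxU (CDX (Bk B k)), ∑ D ∈ Cls Δ n,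
      AU χ (CDX (Bk B k)) Δ (fun τ => (M : ℂ)⁻¹ * GK (Bk B k) (dtk dt k) R τ) U (ty χ Δ D) =
      (M : ℂ)⁻¹ * ∑ U ∈ MaxU (CDX (Bk B k)), ∑ D ∈ Cls Δ n,
        AU χ (CDX (Bk B k)) Δ (GK (Bk B k) (dtk dt k) R) U (ty χ Δ D) := by
    rw [Finset.mul_sum]
    refine Finset.sum_congr rfl fun U _ => ?_
    rw [Finset.mul_sum]
    exact Finset.sum_congr rfl fun D _ => au_smul χ (CDX (Bk B k)) _ _ U _
  rw [e1, e2, ← mul_sub, norm_mul, norm_inv, Complex.norm_real, Real.norm_of_nonneg hM0.le,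
    inv_mul_le_iff₀ hM0] at h1
  have h2 : M * (ε / M * (Nat.card F : ℝ) ^ n) = ε * (Nat.card F : ℝ) ^ n := by
    field_simp
  rw [h2, ← totm (Bk B k) χ (dtk dt k) hBk R n] at h1
  have h3 : ∑ U ∈ MaxU (CDX (Bk B k)), ∑ D ∈ Cls Δ n,
      AU χ (CDX (Bk B k)) Δ (GK (Bk B k) (dtk dt k) R) U (ty χ Δ D) =
      ((Lk ℓ k : ℝ) * (Fintype.card X : ℝ) ^ k *
        (((Cls Δ n).filter fun D => R (ty χ Δ D)).card : ℝ) : ℝ) := by
    have h4 : ∀ U ∈ MaxU (CDX (Bk B k)), ∀ D ∈ Cls Δ n,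
        AU χ (CDX (Bk B k)) Δ (GK (Bk B k) (dtk dt k) R) U (ty χ Δ D) =
          (if ¬ Non (Bk B k) (dtk dt k) U then (1 : ℂ) else 0) *
            (if R (ty χ Δ D) then (1 : ℂ) else 0) := by
      intro U hU D hD
      by_cases hn : Non (Bk B k) (dtk dt k) U
      · rw [avu_non (Bk B k) χ (dtk dt k) R U hn, if_neg (not_not.2 hn), zero_mul]
      · obtain ⟨u₀, Λ, hΛ, hU'⟩ := str hB hx dt hd.self hG U hU hn
        rw [if_pos hn, one_mul]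
        exact au_one χ hB hd (hT n hn1 D hD) hΛ u₀ U hU' R
    rw [Finset.sum_congr rfl fun U hU => Finset.sum_congr rfl fun D hD => h4 U hU D hD,
      ← Finset.sum_mul_sum, Finset.sum_boole, Finset.sum_boole,
      cnt hB hx hd.alt dt hd.self hG]
    push_cast
    rfl
  have h4 : ((∑ D ∈ Cls Δ n, (if R (ty χ Δ D) then (Nat.card (KM χ dt D) : ℝ) ^ k else 0) : ℝ) : ℂ) =
      ∑ D ∈ Cls Δ n, (if R (ty χ Δ D) then (Nat.card (KM χ (dtk dt k) D) : ℂ) else 0) := by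
    rw [Complex.ofReal_sum]
    refine Finset.sum_congr rfl fun D _ => ?_
    split_ifs
    · rw [km_pow_card]
      push_cast
      rfl
    · simp
  rw [h3, ← h4, ← Complex.ofReal_sub, Complex.norm_real, Real.norm_eq_abs] at h1
  exact h1

end Pool.Agent.H94.PN
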