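import Pool.Agent.H94.PM.PAR
import Pool.Agent.H94.PM.CC3
import Pool.Agent.H94.PM.DC

set_option autoImplicit false

/-!
# [H94 PN PAR2] The parity of the rank, `ℓ = 2`

* `ev_iff`: `par`: `card KM * card (K1 W) * 4 ^ j = card (pf D → XX m 2) * (2 ^ k) ^ 2`.  `card (XX m 2) = 2 ^ (m - 1) = 4 ^ h` (`card_XX`, `m` odd), `card (pf D → XX) = (4 ^ h) ^ (card (pf D))`, `card (K1 W) = 2 ^ s` (a finite vector space over `ZMod 2`); with
  `card KM = 2 ^ r * 4 ^ h` the exponents of `2` give `r + s` even.  `Ev` iff `s` is even.  (Compare the proof of `ev_dich`.)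
* `ev_half`: `cc3` for `R t = Ev (WC χ c Wl Wi t)` (`Ev_flip`) and for `R t = ¬ Ev ..` (`hR`: by `Ev_flip`, `not_not`), with `ε`; `#{D | ¬ Ev} = #Cls - #{D | Ev}`.
-/

namespace Pool.Agent.H94.PN

open Polynomial
open Pool.Agent.H94.PL
open Pool.Agent.H94.PM
open Pool.Agent.H94.PC (Mo Sq Pr pf om Mn mem_Mo mem_Sq mem_Pr mem_pf mem_pf')

variable {F : Type} [Field F] [Finite F] {m : ℕ} (χ : LChar F 2) {A : Fin m → F[X]}
  {Wl : pf (dl A) → ZMod 2 → Submodule (ZMod 2) (XX m 2 × XX m 2)}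
  {Wi : ZMod 2 → Submodule (ZMod 2) (XX m 2 × XX m 2)}

theorem ev_iff (hm : Nat.Coprime m 2) (hA : ∀ i k, i ≠ k → A i ≠ A k) (h : LOK χ A Wl Wi)
    (c : F) (D : F[X]) {r : ℕ}
    (hr : Nat.card (KM χ (DC χ c A Wl Wi) D) = 2 ^ r * Nat.card (XX m 2)) :
    Ev (WC χ c Wl Wi (ty χ (dl A) D)) ↔ Even r := by
  obtain ⟨j, k, hjk⟩ := par hm hA h c D
  have hodd : Odd m := Nat.coprime_two_right.1 hm
  obtain ⟨n, hn⟩ := hodd
  have hX : Nat.card (XX m 2) = 2 ^ (2 * n) := by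
    rw [card_XX (by omega), hn]
    rfl
  have hK1 : Nat.card (K1 (WC χ c Wl Wi (ty χ (dl A) D))) =
      2 ^ Module.finrank (ZMod 2) (K1 (WC χ c Wl Wi (ty χ (dl A) D))) := by
    rw [Module.natCard_eq_pow_finrank (K := ZMod 2), Nat.card_zmod]
  have hEv : Ev (WC χ c Wl Wi (ty χ (dl A) D)) ↔
      Even (Module.finrank (ZMod 2) (K1 (WC χ c Wl Wi (ty χ (dl A) D)))) := by
    unfold Ev
    rw [hK1]
    constructor
    · rintro ⟨j', hj'⟩
      have h4 : (4 : ℕ) ^ j' = 2 ^ (2 * j') := by rw [pow_mul]; norm_num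
      rw [h4] at hj'
      exact ⟨j', by have := Nat.pow_right_injective le_rfl hj'; omega⟩
    · rintro ⟨j', hj'⟩
      refine ⟨j', ?_⟩
      have h4 : (4 : ℕ) ^ j' = 2 ^ (2 * j') := by rw [pow_mul]; norm_num
      rw [h4, hj', two_mul]
  rw [hEv]
  generalize Module.finrank (ZMod 2) (K1 (WC χ c Wl Wi (ty χ (dl A) D))) = s at hK1
  rw [hr, hK1, Nat.card_fun, hX] at hjk
  have h4 : ∀ a : ℕ, 4 ^ a = 2 ^ (2 * a) := fun a => by
    rw [pow_mul]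
    norm_num
  rw [h4, ← pow_mul, ← pow_mul, ← pow_add, ← pow_add, ← pow_add, ← pow_add] at hjk
  have h5 := Nat.pow_right_injective le_rfl hjk
  have h7 : 2 * n * Nat.card (pf D) = 2 * (n * Nat.card (pf D)) := by ring
  rw [h7] at h5
  rw [Nat.even_iff, Nat.even_iff]
  omega

omit [Finite F] in
theorem dl_ne {m : ℕ} {A : Fin m → F[X]} (hA : ∀ i k, i ≠ k → A i ≠ A k) : dl A ≠ 0 := by
  unfold dl
  refine Finset.prod_ne_zero_iff.2 fun p hp => sub_ne_zero.2 (hA _ _ ?_)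
  exact (Finset.mem_filter.1 hp).2.ne

open Classical in
theorem ev_half (hq : 3 ≤ Nat.card F) (hm : Nat.Coprime m 2) (hA : ∀ i k, i ≠ k → A i ≠ A k)
    (h : LOK χ A Wl Wi) (c : F) (v0 : pf (dl A))
    (hinf : ∀ b, 2 * Nat.card (Wl v0 b ⊓ Wl v0 (b + 1) : Submodule (ZMod 2) (XX m 2 × XX m 2)) =
      Nat.card (XX m 2)) (ε : ℝ) (hε : 0 < ε) :
    ∃ n₀ : ℕ, ∀ n : ℕ, n₀ ≤ n →
      |(((Cls (dl A) n).filter fun D => Ev (WC χ c Wl Wi (ty χ (dl A) D))).card : ℝ) -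
        1 / 2 * ((Cls (dl A) n).card : ℝ)| ≤ ε * (Nat.card F : ℝ) ^ n := by
  have hΔ : dl A ≠ 0 := dl_ne hA
  obtain ⟨n1, h1⟩ := cc3 χ hq hΔ v0 (fun t => Ev (WC χ c Wl Wi t))
    (fun t => Ev_flip hm hA h c v0 hinf t) ε hε
  obtain ⟨n2, h2⟩ := cc3 χ hq hΔ v0 (fun t => ¬ Ev (WC χ c Wl Wi t))
    (fun t => not_congr (Ev_flip hm hA h c v0 hinf t)) ε hε
  refine ⟨max n1 n2, fun n hn => ?_⟩
  have h3 := h1 n ((le_max_left _ _).trans hn)
  have h4 := h2 n ((le_max_right _ _).trans hn)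
  have h5 : (((Cls (dl A) n).filter fun D => Ev (WC χ c Wl Wi (ty χ (dl A) D))).card : ℝ) +
      (((Cls (dl A) n).filter fun D => ¬ Ev (WC χ c Wl Wi (ty χ (dl A) D))).card : ℝ) =
      ((Cls (dl A) n).card : ℝ) := by
    exact_mod_cast Finset.card_filter_add_card_filter_not _
  have h6 : (1 / 2) * ((Cls (dl A) n).card : ℝ) - ε * (Nat.card F : ℝ) ^ n ≤
      ((Cls (dl A) n).card : ℝ) -
        (((Cls (dl A) n).filter fun D => Ev (WC χ c Wl Wi (ty χ (dl A) D))).card : ℝ) := by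
    refine h4.trans (le_of_eq ?_)
    rw [eq_sub_iff_add_eq, add_comm]
    convert h5
  rw [abs_le]
  constructor <;> linarith

end Pool.Agent.H94.PN
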