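import Pool.Agent.H94.PN.TK2
import Pool.Agent.H94.PN.GENA
import Pool.Agent.H94.PN.MOM
import Pool.Agent.H94.PN.SCD
import Pool.Agent.H94.PN.PAR2
import Pool.Agent.H94.PN.LOKX
import Pool.Agent.H94.PM.WL2

set_option autoImplicit false

/-!
# [H94 PN MOM2] The moments of `2 ^ rank` on the polynomials with a given parity of the rank

`χ` from `PL.exists_LChar`, `dt = DC χ c A Wl Wi`, `N = card (XX m 2) = 2 ^ (m - 1)`.
* `ev_rkS`: `LOK`, `OKl`, `OKi`, `D ∈ Cls (dl A) n`, `n ≥ 1`: `card KM = card SelC` (`scd`; `LOK.cl`, `LOK.ci`) `= N * 2 ^ rkS` (`selC_card`, `rkS_spec`), and `ev_iff`.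
* `mom2`: `Wl`, `Wi` from `exists_lokx`.  `mom` for `dt` (`BB_good`, `nontriv_XX`, `hx` is void, `dl A ≠ 0`, `dok_DC`, `genA_DC`, `tk2`) and `R t = (Ev (WC χ c Wl Wi t) ↔ p = 0)`, i.e. `Ev` for `p = 0` and `¬ Ev` for `p = 1`, with `ε * N ^ j`.
  `R (ty D) ↔ rkS % 2 = p` by `ev_rkS`; divide by `N ^ j`.
* `half2`: `Wl`, `Wi`, `v0` from `exists_L2` (with the pair `i, k`), `ev_half`, `ev_rkS`; `p = 1`: the complement.
-/

namespace Pool.Agent.H94.PN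

open Polynomial
open Pool.Agent.H94.PL
open Pool.Agent.H94.PM
open Pool.Agent.H94.PC (Mo Sq Pr pf om Mn mem_Mo mem_Sq mem_Pr mem_pf mem_pf')

variable {F : Type} [Field F] [Finite F] {m : ℕ}
variable [DecidableEq (RatFunc F)] {α : ℕ} {c : F} {A : Fin m → F[X]}

theorem ev_rkS (χ : LChar F 2)
    {Wl : pf (dl A) → ZMod 2 → Submodule (ZMod 2) (XX m 2 × XX m 2)}
    {Wi : ZMod 2 → Submodule (ZMod 2) (XX m 2 × XX m 2)}
    (hq : 2 ∣ Nat.card F - 1) (hm : Nat.Coprime m 2)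
    (hα : 2 ∣ α * m + 1) (hc : c ≠ 0) (hA : ∀ i k, i ≠ k → A i ≠ A k)
    (h : LOK χ A Wl Wi) (hWl : OKl χ α A Wl) (hWi : OKi χ α c A Wi)
    {n : ℕ} (hn : 1 ≤ n) {D : F[X]} (hD : D ∈ Cls (dl A) n) :
    Nat.card (KM χ (DC χ c A Wl Wi) D) = 2 ^ rkS 2 α c A D * Nat.card (XX m 2) ∧
      (Ev (WC χ c Wl Wi (ty χ (dl A) D)) ↔ Even (rkS 2 α c A D)) := by
  have hm1 : 1 ≤ m := by
    rcases Nat.eq_zero_or_pos m with h0 | h0
    · rw [h0] at hm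
      norm_num at hm
    · exact h0
  obtain ⟨r, hr⟩ := selC_card hq hm hα hc hA hn hD
  have hr' := (rkS_spec hq hm hα hc hA hn hD r).1 hr
  have h1 : Nat.card (KM χ (DC χ c A Wl Wi) D) = 2 ^ r * Nat.card (XX m 2) := by
    rw [← scd χ hq hm hα hc hA hWl (fun v b => (h.cl v b).le) hWi (fun b => (h.ci b).le) hD, hr,
      card_XX hm1, ← pow_add, add_comm]
  rw [hr']
  exact ⟨h1, ev_iff χ hm hA h c D h1⟩

theorem mom2 (hq : 2 ∣ Nat.card F - 1) (hm : Nat.Coprime m 2) (hm3 : 3 ≤ m)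
    (hα : 2 ∣ α * m + 1) (hc : c ≠ 0) (hA : ∀ i k, i ≠ k → A i ≠ A k) (hG : GenA 2 A)
    {p : ℕ} (hp : p < 2) (j : ℕ) (ε : ℝ) (hε : 0 < ε) :
    ∃ n₀ : ℕ, ∀ n : ℕ, n₀ ≤ n →
      |∑ D ∈ Cls (dl A) n, (if rkS 2 α c A D % 2 = p then ((2 : ℝ) ^ rkS 2 α c A D) ^ j else 0) -
        (Lk 2 j : ℝ) * (((Cls (dl A) n).filter fun D => rkS 2 α c A D % 2 = p).card : ℝ)| ≤
        ε * (Nat.card F : ℝ) ^ n := by
  classical
  letI : Fintype (XX m 2) := Fintype.ofFinite _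
  haveI : Nontrivial (XX m 2) := nontriv_XX (by omega)
  have hΔ : dl A ≠ 0 := by
    unfold dl
    rw [Finset.prod_ne_zero_iff]
    intro p hp
    exact sub_ne_zero.2 (hA p.1 p.2 (mem_prs.1 hp).ne)
  obtain ⟨χ⟩ := exists_LChar F Nat.prime_two hq
  obtain ⟨Wl, Wi, hL, hWl, hWi⟩ := exists_lokx χ hq hm hα c hA
  obtain ⟨N, hNd⟩ : ∃ N : ℝ, N = (Fintype.card (XX m 2) : ℝ) := ⟨_, rfl⟩
  have hN0 : 0 < N := by
    rw [hNd]
    exact_mod_cast Fintype.card_pos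
  have hNk : 0 < N ^ j := pow_pos hN0 j
  obtain ⟨n₁, h⟩ := mom χ (BB_good hm) (fun h2 => absurd rfl h2) hΔ (dok_DC χ c A Wl Wi)
    (genA_DC χ c hA hG Wl Wi)
    (fun n _ D hD => tk2 χ hm hα hc hA hL hWl hWi hD) j (ε * N ^ j) (by positivity)
  refine ⟨max n₁ 1, fun n hn => ?_⟩
  have hn1 : 1 ≤ n := (le_max_right _ _).trans hn
  obtain ⟨R, hR0⟩ : ∃ R : Tp 2 (pf (dl A)) → Prop, ∀ t, R t ↔ (Ev (WC χ c Wl Wi t) ↔ p = 0) :=
    ⟨_, fun _ => Iff.rfl⟩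
  have h1 := h n ((le_max_left _ _).trans hn) R
  have hR : ∀ D ∈ Cls (dl A) n, (R (ty χ (dl A) D) ↔ rkS 2 α c A D % 2 = p) := by
    intro D hD
    obtain ⟨-, h2⟩ := ev_rkS χ hq hm hα hc hA hL hWl hWi hn1 hD
    rw [hR0, h2, Nat.even_iff]
    omega
  have h3 : ∀ D ∈ Cls (dl A) n, (if R (ty χ (dl A) D) then
      (Nat.card (KM χ (DC χ c A Wl Wi) D) : ℝ) ^ j else 0) =
      N ^ j * (if rkS 2 α c A D % 2 = p then ((2 : ℝ) ^ rkS 2 α c A D) ^ j else 0) := by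
    intro D hD
    obtain ⟨h2, -⟩ := ev_rkS χ hq hm hα hc hA hL hWl hWi hn1 hD
    by_cases h4 : rkS 2 α c A D % 2 = p
    · rw [if_pos ((hR D hD).2 h4), if_pos h4, h2, hNd, ← mul_pow, Nat.card_eq_fintype_card]
      push_cast
      rw [mul_comm]
    · rw [if_neg (fun h5 => h4 ((hR D hD).1 h5)), if_neg h4, mul_zero]
  have h4 : ((Cls (dl A) n).filter fun D => R (ty χ (dl A) D)) =
      (Cls (dl A) n).filter fun D => rkS 2 α c A D % 2 = p := Finset.filter_congr hR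
  rw [Finset.sum_congr rfl h3, ← Finset.mul_sum, ← hNd, h4] at h1
  obtain ⟨Sm, hSm⟩ : ∃ Sm : ℝ, Sm = ∑ D ∈ Cls (dl A) n,
    (if rkS 2 α c A D % 2 = p then ((2 : ℝ) ^ rkS 2 α c A D) ^ j else 0) := ⟨_, rfl⟩
  obtain ⟨T, hT⟩ : ∃ T : ℝ, T = (((Cls (dl A) n).filter fun D => rkS 2 α c A D % 2 = p).card : ℝ) :=
    ⟨_, rfl⟩
  rw [← hSm, ← hT] at h1 ⊢
  have h5 : N ^ j * Sm - (Lk 2 j : ℝ) * N ^ j * T = N ^ j * (Sm - (Lk 2 j : ℝ) * T) := by ring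
  rw [h5, abs_mul, abs_of_pos hNk] at h1
  have h6 : ε * N ^ j * (Nat.card F : ℝ) ^ n = N ^ j * (ε * (Nat.card F : ℝ) ^ n) := by ring
  rw [h6] at h1
  exact le_of_mul_le_mul_left h1 hNk

theorem half2 (hq : 2 ∣ Nat.card F - 1) (hm : Nat.Coprime m 2) (hm3 : 3 ≤ m)
    (hα : 2 ∣ α * m + 1) (hc : c ≠ 0) (hA : ∀ i k, i ≠ k → A i ≠ A k)
    {i k : Fin m} (hd : Dtc 2 A i k) {p : ℕ} (hp : p < 2) (ε : ℝ) (hε : 0 < ε) :
    ∃ n₀ : ℕ, ∀ n : ℕ, n₀ ≤ n →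
      |(((Cls (dl A) n).filter fun D => rkS 2 α c A D % 2 = p).card : ℝ) -
        1 / 2 * ((Cls (dl A) n).card : ℝ)| ≤ ε * (Nat.card F : ℝ) ^ n := by
  classical
  obtain ⟨χ⟩ := exists_LChar F Nat.prime_two hq
  obtain ⟨Wl, Wi, v0, hL, hWl, hWi, hinf⟩ := exists_L2 χ hq hm hm3 hα c hA hd
  have hq3 : 3 ≤ Nat.card F := by
    have h1 : 1 < Nat.card F := Finite.one_lt_card
    have h3 := Nat.le_of_dvd (by omega) hq
    omega
  obtain ⟨n₁, h⟩ := ev_half χ hq3 hm hA hL c v0 hinf ε hε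
  refine ⟨max n₁ 1, fun n hn => ?_⟩
  have hn1 : 1 ≤ n := (le_max_right _ _).trans hn
  have h1 := h n ((le_max_left _ _).trans hn)
  have hE : ∀ D ∈ Cls (dl A) n, (Ev (WC χ c Wl Wi (ty χ (dl A) D)) ↔ rkS 2 α c A D % 2 = 0) := by
    intro D hD
    obtain ⟨-, h2⟩ := ev_rkS χ hq hm hα hc hA hL hWl hWi hn1 hD
    rw [h2, Nat.even_iff]
  have h4 : ((Cls (dl A) n).filter fun D => Ev (WC χ c Wl Wi (ty χ (dl A) D))) =
      (Cls (dl A) n).filter fun D => rkS 2 α c A D % 2 = 0 := Finset.filter_congr hE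
  rw [h4] at h1
  rcases (by omega : p = 0 ∨ p = 1) with hp0 | hp0
  · rw [hp0]
    exact h1
  · rw [hp0]
    have h5 := Finset.card_filter_add_card_filter_not (s := Cls (dl A) n)
      (fun D => rkS 2 α c A D % 2 = 0)
    have h6 : ((Cls (dl A) n).filter fun D => ¬ rkS 2 α c A D % 2 = 0) =
        (Cls (dl A) n).filter fun D => rkS 2 α c A D % 2 = 1 :=
      Finset.filter_congr fun D _ => by omega
    rw [h6] at h5
    have h7 : (((Cls (dl A) n).filter fun D => rkS 2 α c A D % 2 = 0).card : ℝ) +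
        (((Cls (dl A) n).filter fun D => rkS 2 α c A D % 2 = 1).card : ℝ) =
        ((Cls (dl A) n).card : ℝ) := by exact_mod_cast h5
    rw [abs_le] at h1 ⊢
    constructor <;> linarith [h1.1, h1.2]

end Pool.Agent.H94.PN
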