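import Pool.Agent.H94.PN.LAWO
import Pool.Agent.H94.PN.SCL
import Pool.Agent.H94.PN.SQF
import Pool.Agent.H94.PN.EUL

set_option autoImplicit false

/-!
# [H94 PN ALLO] The law of the rank for all squarefree polynomials, `ℓ` odd

* `allO`: `Δ = dl A ≠ 0`; `sqf_law` with `f D = 1` if `card (SelC ℓ α c A D) = ℓ ^ (m - 1 + r)` and `0` otherwise, `g D = a`, `h D = 1`, `a = wt 1 ℓ r / Sm 1 ℓ 0`.  For `T ⊆ pf Δ`: `D0 = ∏ P ∈ T, P` is monic and divides `Δ` (`sqf_dvd`),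
  `A_T = D0 ^ α * A` is injective, `GenA ℓ A_T` (`scl_gen`), `Cls (dl A_T) n = Cls Δ n` (`scl_cls`), `SelC (A, D0 * D) = SelC (A_T, D)` (`scl_sel`), `card SelC (A_T, D) = ℓ ^ (m - 1 + r) ↔ rkS A_T D = r` (`rkS_spec`, `n ≥ 1`), so the hypothesis of `sqf_law`
  is `lawO` for `A_T`.
* `eul1`, `wt`: `a = (∏' i, (1 + 1 / ℓ ^ (i + 1)))⁻¹ * ∏ i < r, (ℓ ^ (i + 1) - 1)⁻¹`.
-/

namespace Pool.Agent.H94.PN

open Polynomial
open Pool.Agent.H94.PL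
open Pool.Agent.H94.PM
open Pool.Agent.H94.PC (Mo Sq Pr pf om Mn mem_Mo mem_Sq mem_Pr mem_pf mem_pf')

variable {F : Type} [Field F] [Finite F] {ℓ m : ℕ} [hl : Fact ℓ.Prime]
variable [DecidableEq (RatFunc F)] {α : ℕ} {c : F} {A : Fin m → F[X]}

theorem wt1_eul {ℓ : ℕ} (hℓ : 1 < ℓ) (r : ℕ) : wt 1 (ℓ : ℝ) r / Sm 1 (ℓ : ℝ) 0 =
    (∏' i : ℕ, (1 + 1 / (ℓ : ℝ) ^ (i + 1)))⁻¹ *
      (∏ i ∈ Finset.range r, ((ℓ : ℝ) ^ (i + 1) - 1)⁻¹) := by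
  have h1 : (1 : ℝ) < ℓ := by exact_mod_cast hℓ
  rw [eul1 h1, wt, div_eq_inv_mul]
  simp only [one_div]

open Classical in
theorem allO (h2 : ℓ ≠ 2) (hq : ℓ ∣ Nat.card F - 1) (hm : Nat.Coprime m ℓ) (hm2 : 2 ≤ m)
    (hα : ℓ ∣ α * m + 1) (hc : c ≠ 0) (hA : ∀ i k, i ≠ k → A i ≠ A k) (hG : GenA ℓ A)
    (r : ℕ) (ε : ℝ) (hε : 0 < ε) :
    ∃ n₀ : ℕ, ∀ n : ℕ, n₀ ≤ n →
      |(((Sq F n).filter fun D => Nat.card (SelC ℓ α c A D) = ℓ ^ (m - 1 + r)).card : ℝ) -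
        (∏' i : ℕ, (1 + 1 / (ℓ : ℝ) ^ (i + 1)))⁻¹ * (∏ i ∈ Finset.range r, ((ℓ : ℝ) ^ (i + 1) - 1)⁻¹) *
          ((Sq F n).card : ℝ)| ≤ ε * ((Sq F n).card : ℝ) := by
  have hℓ := hl.out
  have hdl : dl A ≠ 0 := by
    rw [dl, Finset.prod_ne_zero_iff]
    intro p hp
    exact sub_ne_zero.2 (hA _ _ (mem_prs.1 hp).ne)
  rw [← wt1_eul hℓ.one_lt r]
  set a : ℝ := wt 1 (ℓ : ℝ) r / Sm 1 (ℓ : ℝ) 0 with ha
  have key := sqf_law hdl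
    (fun D => if Nat.card (SelC ℓ α c A D) = ℓ ^ (m - 1 + r) then (1 : ℝ) else 0)
    (fun _ => a) (fun _ => 1) ?_ ε hε
  · obtain ⟨n₀, h⟩ := key
    refine ⟨n₀, fun n hn => ?_⟩
    have h1 := h n hn
    rw [Finset.sum_const, Finset.sum_const, nsmul_eq_mul, nsmul_eq_mul, mul_one,
      Finset.sum_boole, mul_comm ((Sq F n).card : ℝ) a] at h1
    exact h1
  · intro T hT ε hε
    obtain ⟨hTm, hTd⟩ := sqf_dvd hdl hT
    set D0 : F[X] := ∏ P ∈ T, P with hD0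
    have h0 : D0 ≠ 0 := hTm.ne_zero
    have hA' : ∀ i k, i ≠ k → D0 ^ α * A i ≠ D0 ^ α * A k := fun i k hik h =>
      hA i k hik (mul_left_cancel₀ (pow_ne_zero _ h0) h)
    have hG' : GenA ℓ (fun k => D0 ^ α * A k) := scl_gen hA h0 hG
    obtain ⟨n₀, h⟩ := lawO h2 hq hm hm2 hα hc hA' hG' r ε hε
    refine ⟨max n₀ 1, fun n hn => ?_⟩
    have h1 := h n ((le_max_left _ _).trans hn)
    have hn1 : 1 ≤ n := (le_max_right _ _).trans hn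
    rw [scl_cls hTd n] at h1
    rw [Finset.sum_const, Finset.sum_const, nsmul_eq_mul, nsmul_eq_mul, mul_one,
      Finset.sum_boole, mul_comm ((Cls (dl A) n).card : ℝ) a]
    have h3 : (Cls (dl A) n).filter (fun D => Nat.card (SelC ℓ α c A (D0 * D)) = ℓ ^ (m - 1 + r)) =
        (Cls (dl A) n).filter fun D => rkS ℓ α c (fun k => D0 ^ α * A k) D = r := by
      refine Finset.filter_congr fun D hD => ?_
      rw [scl_sel hα h0]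
      refine rkS_spec hq hm hα hc hA' hn1 ?_ r
      rw [scl_cls hTd n]
      exact hD
    rw [h3]
    exact h1

end Pool.Agent.H94.PN
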