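import Pool.Agent.H94.PM.HEN

set_option autoImplicit false

/-!
# [H94 PN HEL] Lifting of `ℓ`-th roots modulo a monic polynomial over the integers of a complete field

`O = v.integer`.  An element of `O[X]` with zero reduction is `C ϖ` times an element of `O[X]` (divide the coefficients by `ϖ`: `v < 1` means `v ≤ exp (-1) = v ϖ`).
Let `R₀ ∈ O[X]` be a lift of an inverse of `Q₀.map red` modulo `P.map red` (`hc`, `Polynomial.map_surjective`): `Q₀ * R₀ ≡ 1` modulo `(P, ϖ)`.  Let `λ = ℓ⁻¹ ∈ O`.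
Construct `Q_n`, `n ≥ 0`, with `Q_0 = Q₀`, `Q_{n+1} - Q_n = ϖ ^ (n+1) * H_n`, `deg H_n < deg P` (or `≤ deg P`; take remainders modulo `P`, `modByMonic`), and `Q_n ^ ℓ - G = P * S_n + ϖ ^ (n+1) * E_n`:
`H_n = - λ * R₀ ^ (ℓ - 1) * E_n` modulo `P`; then `Q_{n+1} ^ ℓ - Q_n ^ ℓ ≡ ℓ Q_n ^ (ℓ - 1) ϖ ^ (n+1) H_n` modulo `ϖ ^ (n+2)`, and `ℓ Q_n ^ (ℓ - 1) H_n ≡ - (Q_n R₀) ^ (ℓ - 1) E_n ≡ - E_n` modulo `(P, ϖ)`.
The degrees of the `Q_n` are bounded and the coefficients are Cauchy sequences; `M` is complete and `O` is closed: let `Q` be the limit; `Q - Q_n` is divisible by `ϖ ^ (n+1)`.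
So `(Q ^ ℓ - G) %ₘ P` is divisible by `ϖ ^ (n+1)` for all `n`, so it is `0` (a nonzero coefficient has a finite valuation).
(Alternatively: `Λ = AdjoinRoot P` is a finite free `O`-module, so it is `ϖ`-adically complete, and `IsAdicComplete.henselianRing` applies to `T ^ ℓ - G`.
See `PM.HEN` for limits of Cauchy sequences in `M`.)
-/

namespace Pool.Agent.H94.PN

open Polynomial WithZero

section

variable {M : Type} [Field M] [hv : Valued M ℤᵐ⁰]

private lemma hel_nb (δ : M) (hδ : (Valued.v : Valuation M ℤᵐ⁰) δ ≠ 0) (L : M) :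
    {y : M | (Valued.v : Valuation M ℤᵐ⁰) (y - L) < (Valued.v : Valuation M ℤᵐ⁰) δ} ∈ nhds L := by
  rw [Valued.mem_nhds]
  have h' : (Valued.v : Valuation M ℤᵐ⁰).restrict δ ≠ 0 := by simpa using hδ
  refine ⟨Units.mk0 _ h', ?_⟩
  intro y hy
  rw [Units.val_mk0] at hy
  exact (Valued.v : Valuation M ℤᵐ⁰).restrict_lt_iff.mp hy

private lemma hel_exists {c : ℤᵐ⁰} (hc : c ≠ 0) : ∃ N : ℕ, exp (-(N : ℤ)) < c := by
  refine ⟨(1 - log c).toNat, ?_⟩
  rw [← exp_log hc, exp_lt_exp, log_exp]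
  have := Int.self_le_toNat (1 - log c)
  omega

private lemma hel_cauchy (a : ℕ → M)
    (h : ∀ m n, m ≤ n → (Valued.v : Valuation M ℤᵐ⁰) (a n - a m) ≤ exp (-(m : ℤ))) :
    CauchySeq a := by
  unfold CauchySeq
  rw [Valued.cauchy_iff]
  refine ⟨inferInstance, fun γ => ?_⟩
  have hc : MonoidWithZeroHom.ValueGroup₀.embedding γ.1 ≠ (0 : ℤᵐ⁰) := by
    intro h
    exact γ.ne_zero ((map_eq_zero _).1 h)
  obtain ⟨N, hN⟩ := hel_exists hc
  refine ⟨a '' {n | N ≤ n}, ?_, ?_⟩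
  · rw [Filter.mem_map]
    exact Filter.mem_of_superset (Filter.Ici_mem_atTop N) (fun n hn => ⟨n, hn, rfl⟩)
  · rintro _ ⟨m, hm, rfl⟩ _ ⟨n, hn, rfl⟩
    rw [Valuation.restrict_lt_iff_lt_embedding]
    have h1 : a n - a m = (a n - a N) - (a m - a N) := by ring
    have h2 : (Valued.v : Valuation M ℤᵐ⁰) (a n - a m) ≤ exp (-(N : ℤ)) := by
      rw [h1]
      exact (Valuation.map_sub _ _ _).trans (max_le (h N n hn) (h N m hm))
    exact h2.trans_lt hN

private lemma hel_lim [CompleteSpace M] (a : ℕ → M)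
    (h : ∀ m n, m ≤ n → (Valued.v : Valuation M ℤᵐ⁰) (a n - a m) ≤ exp (-(m : ℤ))) :
    ∃ L : M, ∀ m, (Valued.v : Valuation M ℤᵐ⁰) (L - a m) ≤ exp (-(m : ℤ)) := by
  obtain ⟨L, hL⟩ := cauchySeq_tendsto_of_complete (hel_cauchy a h)
  refine ⟨L, fun m => ?_⟩
  by_contra hne
  push Not at hne
  have h0 : (Valued.v : Valuation M ℤᵐ⁰) (L - a m) ≠ 0 := (lt_of_le_of_lt zero_le hne).ne'
  have h1 := hL (hel_nb (L - a m) h0 L)
  rw [Filter.mem_map] at h1
  obtain ⟨n, hn, hnm⟩ := (Filter.nonempty_of_mem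
    (Filter.inter_mem h1 (Filter.Ici_mem_atTop m)))
  have hn' : (Valued.v : Valuation M ℤᵐ⁰) (a n - L)
      < (Valued.v : Valuation M ℤᵐ⁰) (L - a m) := hn
  have hnm' : m ≤ n := hnm
  have h2 : L - a m = (a n - a m) - (a n - L) := by ring
  have h3 : (Valued.v : Valuation M ℤᵐ⁰) (L - a m) ≤
      max ((Valued.v : Valuation M ℤᵐ⁰) (a n - a m)) ((Valued.v : Valuation M ℤᵐ⁰) (a n - L)) := by
    conv_lhs => rw [h2]
    exact Valuation.map_sub _ _ _
  exact absurd (h3.trans_lt (max_lt ((h m n hnm').trans_lt hne) hn')) (lt_irrefl _)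

private lemma hel_dvd {ϖ : M} (hϖ : (Valued.v : Valuation M ℤᵐ⁰) ϖ = exp (-1 : ℤ))
    (w : (Valued.v : Valuation M ℤᵐ⁰).integer) (hw : (w : M) = ϖ) (n : ℕ)
    (x : (Valued.v : Valuation M ℤᵐ⁰).integer) :
    w ^ n ∣ x ↔ (Valued.v : Valuation M ℤᵐ⁰) (x : M) ≤ exp (-(n : ℤ)) := by
  have hn : (Valued.v : Valuation M ℤᵐ⁰) (ϖ ^ n) = exp (-(n : ℤ)) := by
    rw [map_pow, hϖ, ← exp_nsmul]
    congr 1
    simp
  have hϖ0 : ϖ ≠ 0 := by
    rintro rfl
    rw [map_zero] at hϖ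
    exact exp_ne_zero hϖ.symm
  constructor
  · rintro ⟨y, rfl⟩
    have hy : (Valued.v : Valuation M ℤᵐ⁰) (y : M) ≤ 1 := y.2
    rw [Subring.coe_mul, Subring.coe_pow, hw, map_mul, hn]
    exact mul_le_of_le_one_right' hy
  · intro h
    refine ⟨⟨(x : M) / ϖ ^ n, ?_⟩, ?_⟩
    · rw [Valuation.mem_integer_iff, map_div₀, hn]
      exact div_le_one_of_le₀ h zero_le
    · apply Subtype.ext
      rw [Subring.coe_mul, Subring.coe_pow, hw]
      field_simp

private lemma hel_haus {ϖ : M} (hϖ : (Valued.v : Valuation M ℤᵐ⁰) ϖ = exp (-1 : ℤ))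
    (w : (Valued.v : Valuation M ℤᵐ⁰).integer) (hw : (w : M) = ϖ)
    (x : (Valued.v : Valuation M ℤᵐ⁰).integer) (h : ∀ n : ℕ, w ^ n ∣ x) : x = 0 := by
  by_contra hx
  have hx' : (Valued.v : Valuation M ℤᵐ⁰) (x : M) ≠ 0 := by
    rw [Valuation.ne_zero_iff]
    intro h0
    exact hx (Subtype.ext h0)
  obtain ⟨N, hN⟩ := hel_exists hx'
  exact absurd ((hel_dvd hϖ w hw N x).1 (h N)) (not_le.2 hN)

private lemma hel_prec [CompleteSpace M] {ϖ : M}
    (hϖ : (Valued.v : Valuation M ℤᵐ⁰) ϖ = exp (-1 : ℤ))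
    (w : (Valued.v : Valuation M ℤᵐ⁰).integer) (hw : (w : M) = ϖ)
    (f : ℕ → (Valued.v : Valuation M ℤᵐ⁰).integer) (h : ∀ m n, m ≤ n → w ^ m ∣ f n - f m) :
    ∃ L : (Valued.v : Valuation M ℤᵐ⁰).integer, ∀ m, w ^ m ∣ L - f m := by
  obtain ⟨L, hL⟩ := hel_lim (fun n => (f n : M)) (fun m n hmn => by
    have := (hel_dvd hϖ w hw m _).1 (h m n hmn)
    simpa using this)
  have hL1 : L ∈ (Valued.v : Valuation M ℤᵐ⁰).integer := by
    rw [Valuation.mem_integer_iff]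
    have h1 : L = (L - f 0) + f 0 := by ring
    rw [h1]
    refine (Valuation.map_add _ _ _).trans (max_le ?_ (f 0).2)
    refine (hL 0).trans (le_of_eq ?_)
    simp
  refine ⟨⟨L, hL1⟩, fun m => ?_⟩
  rw [hel_dvd hϖ w hw]
  have := hL m
  simpa using this

end

private lemma hel_mem {R S : Type} [CommRing R] [CommRing S] [Algebra R S] {d : ℕ}
    (b : Module.Basis (Fin d) R S) (w : R) (n : ℕ) (x : S) :
    x ∈ ((Ideal.span {algebraMap R S w}) ^ n • (⊤ : Submodule S S) : Submodule S S) ↔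
      ∀ i, w ^ n ∣ b.repr x i := by
  have h0 : ((Ideal.span {algebraMap R S w}) ^ n • (⊤ : Submodule S S) : Submodule S S) =
      Ideal.span {algebraMap R S (w ^ n)} := by
    rw [Ideal.span_singleton_pow, map_pow]
    exact Ideal.mul_top _
  rw [h0, Ideal.mem_span_singleton]
  constructor
  · rintro ⟨y, rfl⟩ i
    refine ⟨b.repr y i, ?_⟩
    rw [← Algebra.smul_def, map_smul, Finsupp.smul_apply, smul_eq_mul]
  · intro h
    choose c hc using h
    refine ⟨b.equivFun.symm c, ?_⟩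
    apply b.ext_elem
    intro i
    rw [← Algebra.smul_def, map_smul, Finsupp.smul_apply, smul_eq_mul, ← b.equivFun_apply,
      ← b.equivFun_apply, LinearEquiv.apply_symm_apply, b.equivFun_apply]
    exact hc i

private lemma hel_adic {R S : Type} [CommRing R] [CommRing S] [Algebra R S] {d : ℕ}
    (b : Module.Basis (Fin d) R S) (w : R) (h1 : ∀ x : R, (∀ n : ℕ, w ^ n ∣ x) → x = 0)
    (h2 : ∀ f : ℕ → R, (∀ m n, m ≤ n → w ^ m ∣ f n - f m) → ∃ L, ∀ m, w ^ m ∣ L - f m) :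
    IsAdicComplete (Ideal.span {algebraMap R S w}) S where
  haus' := by
    intro x hx
    apply b.ext_elem
    intro i
    rw [map_zero, Finsupp.zero_apply]
    refine h1 _ fun n => ?_
    have h3 := hx n
    rw [SModEq.zero, hel_mem b] at h3
    exact h3 i
  prec' := by
    intro f hf
    have h3 : ∀ i, ∃ L, ∀ m, w ^ m ∣ L - b.repr (f m) i := by
      intro i
      refine h2 (fun n => b.repr (f n) i) fun m n hmn => ?_
      have h4 := hf hmn
      rw [SModEq.sub_mem, hel_mem b] at h4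
      have h5 := h4 i
      rw [map_sub, Finsupp.sub_apply] at h5
      exact (dvd_sub_comm).1 h5
    choose L hL using h3
    refine ⟨b.equivFun.symm L, fun n => ?_⟩
    rw [SModEq.sub_mem, hel_mem b]
    intro i
    rw [map_sub, Finsupp.sub_apply]
    have h6 : b.repr (b.equivFun.symm L) i = L i := by
      rw [← b.equivFun_apply, LinearEquiv.apply_symm_apply]
    rw [h6]
    exact (dvd_sub_comm).1 (hL i n)

private lemma hel_red {M : Type} [Field M] [hv : Valued M ℤᵐ⁰] {κ : Type} [Field κ]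
    (red : (Valued.v : Valuation M ℤᵐ⁰).integer →+* κ)
    (hk : ∀ x, red x = 0 ↔ (Valued.v : Valuation M ℤᵐ⁰) (x : M) < 1) {ϖ : M}
    (hϖ : (Valued.v : Valuation M ℤᵐ⁰) ϖ = exp (-1 : ℤ))
    (w : (Valued.v : Valuation M ℤᵐ⁰).integer) (hw : (w : M) = ϖ)
    (F : (Valued.v : Valuation M ℤᵐ⁰).integer[X]) (hF : F.map red = 0) : C w ∣ F := by
  rw [C_dvd_iff_dvd_coeff]
  intro n
  have h1 : red (F.coeff n) = 0 := by
    rw [← coeff_map, hF, coeff_zero]
  have h2 := (hk _).1 h1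
  have h3 := (hel_dvd hϖ w hw 1 (F.coeff n)).2 (by
    rcases eq_or_ne ((Valued.v : Valuation M ℤᵐ⁰) (F.coeff n : M)) 0 with h0 | h0
    · rw [h0]
      exact zero_le
    · rw [← exp_log h0] at h2 ⊢
      rw [← exp_zero, exp_lt_exp] at h2
      rw [exp_le_exp]
      push_cast
      omega)
  rwa [pow_one] at h3

theorem hel {M : Type} [Field M] [hv : Valued M ℤᵐ⁰] [CompleteSpace M] {κ : Type} [Field κ]
    (red : (Valued.v : Valuation M ℤᵐ⁰).integer →+* κ) (hs : Function.Surjective red)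
    (hk : ∀ x, red x = 0 ↔ (Valued.v : Valuation M ℤᵐ⁰) (x : M) < 1) {ϖ : M}
    (hϖ : (Valued.v : Valuation M ℤᵐ⁰) ϖ = exp (-1 : ℤ)) {ℓ : ℕ}
    (hℓ : (Valued.v : Valuation M ℤᵐ⁰) (ℓ : M) = 1)
    {P G Q₀ : (Valued.v : Valuation M ℤᵐ⁰).integer[X]} (hP : P.Monic)
    (hc : IsCoprime (P.map red) (Q₀.map red)) (hd : P.map red ∣ (Q₀ ^ ℓ - G).map red) :
    ∃ Q : (Valued.v : Valuation M ℤᵐ⁰).integer[X], P ∣ Q ^ ℓ - G := by
  have hw1 : ϖ ∈ (Valued.v : Valuation M ℤᵐ⁰).integer := by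
    rw [Valuation.mem_integer_iff, hϖ, ← exp_zero, exp_le_exp]
    norm_num
  obtain ⟨w, hw⟩ : ∃ w : (Valued.v : Valuation M ℤᵐ⁰).integer, (w : M) = ϖ := ⟨⟨ϖ, hw1⟩, rfl⟩
  have hl0 : ℓ ≠ 0 := by
    rintro rfl
    rw [Nat.cast_zero, map_zero] at hℓ
    exact zero_ne_one hℓ
  have hadic : IsAdicComplete (Ideal.span {algebraMap (Valued.v : Valuation M ℤᵐ⁰).integer
      (AdjoinRoot P) w}) (AdjoinRoot P) :=
    hel_adic (AdjoinRoot.powerBasis' hP).basis w (hel_haus hϖ w hw) (hel_prec hϖ w hw)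
  obtain ⟨I, hI⟩ : ∃ I : Ideal (AdjoinRoot P), I = Ideal.span
    {algebraMap (Valued.v : Valuation M ℤᵐ⁰).integer (AdjoinRoot P) w} := ⟨_, rfl⟩
  rw [← hI] at hadic
  -- elements with zero reduction are in the ideal
  have hmem : ∀ F : (Valued.v : Valuation M ℤᵐ⁰).integer[X], P.map red ∣ F.map red →
      AdjoinRoot.mk P F ∈ I := by
    rintro F ⟨S, hS⟩
    obtain ⟨S', rfl⟩ := Polynomial.map_surjective red hs S
    have h1 : (F - P * S').map red = 0 := by
      rw [Polynomial.map_sub, Polynomial.map_mul, hS, sub_self]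
    obtain ⟨T, hT⟩ := hel_red red hk hϖ w hw _ h1
    have h2 : AdjoinRoot.mk P F = AdjoinRoot.mk P (C w * T) := by
      rw [← hT, map_sub, map_mul, AdjoinRoot.mk_self, zero_mul, sub_zero]
    rw [h2, map_mul, AdjoinRoot.mk_C, hI]
    exact Ideal.mul_mem_right _ _ (Ideal.mem_span_singleton_self _)
  have hhen := (inferInstance : HenselianRing (AdjoinRoot P) I)
  have hmon : (X ^ ℓ - C (AdjoinRoot.mk P G) : (AdjoinRoot P)[X]).Monic :=
    monic_X_pow_sub_C _ hl0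
  have hev : (X ^ ℓ - C (AdjoinRoot.mk P G) : (AdjoinRoot P)[X]).eval (AdjoinRoot.mk P Q₀) ∈ I := by
    rw [eval_sub, eval_pow, eval_X, eval_C, ← map_pow, ← map_sub]
    exact hmem _ hd
  have hunit : IsUnit (Ideal.Quotient.mk I
      ((derivative (X ^ ℓ - C (AdjoinRoot.mk P G) : (AdjoinRoot P)[X])).eval
        (AdjoinRoot.mk P Q₀))) := by
    rw [derivative_sub, derivative_C, sub_zero, derivative_X_pow, eval_mul, eval_C, eval_pow,
      eval_X, map_mul, map_pow]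
    refine IsUnit.mul ?_ (IsUnit.pow _ ?_)
    · have h1 : IsUnit ((ℓ : ℕ) : (Valued.v : Valuation M ℤᵐ⁰).integer) := by
        have hl1 : (ℓ : M) ≠ 0 := by
          intro h0
          rw [h0, map_zero] at hℓ
          exact zero_ne_one hℓ
        have h2 : ((ℓ : M)⁻¹) ∈ (Valued.v : Valuation M ℤᵐ⁰).integer := by
          rw [Valuation.mem_integer_iff, map_inv₀, hℓ, inv_one]
        refine IsUnit.of_mul_eq_one ⟨(ℓ : M)⁻¹, h2⟩ ?_
        apply Subtype.ext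
        rw [Subring.coe_mul]
        simp [hl1]
      have h3 := (h1.map (algebraMap (Valued.v : Valuation M ℤᵐ⁰).integer (AdjoinRoot P))).map
        (Ideal.Quotient.mk I)
      simpa using h3
    · obtain ⟨a, b, hab⟩ := hc
      obtain ⟨b', rfl⟩ := Polynomial.map_surjective red hs b
      have h1 : AdjoinRoot.mk P (Q₀ * b' - 1) ∈ I := by
        apply hmem
        refine ⟨-a, ?_⟩
        rw [Polynomial.map_sub, Polynomial.map_mul, Polynomial.map_one, ← hab]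
        ring
      refine IsUnit.of_mul_eq_one (Ideal.Quotient.mk I (AdjoinRoot.mk P b')) ?_
      rw [← map_mul, ← map_mul, ← map_one (Ideal.Quotient.mk I), Ideal.Quotient.eq,
        ← map_one (AdjoinRoot.mk P), ← map_sub]
      exact h1
  obtain ⟨y, hy, _⟩ := hhen.is_henselian _ hmon _ hev hunit
  obtain ⟨Q, rfl⟩ := AdjoinRoot.mk_surjective y
  refine ⟨Q, ?_⟩
  rw [← AdjoinRoot.mk_eq_zero, map_sub, map_pow]
  rw [IsRoot, eval_sub, eval_pow, eval_X, eval_C] at hy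
  exact hy

end Pool.Agent.H94.PN
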