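import Pool.Agent.H94.PM.GAM

set_option autoImplicit false

/-!
# [H94 PN LD] Clusters of the roots over a local field: definitions

`M` a field with a discrete valuation `v`, `A : Fin m → M` injective.  A cluster is a nonempty set `I` of indices such that the `A i`, `i ∈ I`, are closer to each other than to the `A k`, `k ∉ I`.
A Mumford polynomial `P` is located at `I` if `P (A k)` is, up to factors near `1`, equal to `(A k - A i) ^ deg P` for `i ∈ I`, `k ∉ I`.
`Ann I` is the space of the functionals `φ = (p, q)`, supported on `I`, with `∑ φ = 0`, which vanish on the classes `(vl (P (A k)), un (P (A k)))` of the polynomials located at `I`.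
-/

namespace Pool.Agent.H94.PN

open Polynomial WithZero
open Pool.Agent.H94.PL
open Pool.Agent.H94.PM

/-- a residue map which is compatible with the unit logarithm -/
structure Rs {M : Type} [Field M] (v : Valuation M ℤᵐ⁰) {ℓ : ℕ} (U : LU v ℓ) (κ : Type) [Field κ]
    (χ : LChar κ ℓ) where
  /-- the residue map -/
  red : v.integer →+* κ
  surj : Function.Surjective red
  ker : ∀ x, red x = 0 ↔ v (x : M) < 1
  un : ∀ x : v.integer, v (x : M) = 1 → U.un (x : M) = χ.lg (red x)

section
variable {M : Type} [Field M] (v : Valuation M ℤᵐ⁰) {m : ℕ}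

/-- clusters -/
def Clu (A : Fin m → M) (I : Finset (Fin m)) : Prop :=
  I.Nonempty ∧ ∀ i ∈ I, ∀ i' ∈ I, ∀ k, k ∉ I → v (A i - A i') < v (A i - A k)

/-- polynomials located at a cluster -/
def LocP (A : Fin m → M) (I : Finset (Fin m)) (P : M[X]) : Prop :=
  ∀ i ∈ I, ∀ k, k ∉ I → v (P.eval (A k) / (A k - A i) ^ P.natDegree - 1) < 1

/-- the constant of the equation near a cluster -/
noncomputable def cI (D : M) (A : Fin m → M) (I : Finset (Fin m)) (a : M) : M :=
  D / ∏ k ∈ Iᶜ, (a - A k)

variable {v} {ℓ : ℕ} [hl : Fact ℓ.Prime] (U : LU v ℓ)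

/-- the value of a functional at a tuple -/
noncomputable def pr (φ : Fin m → ZMod ℓ × ZMod ℓ) (x : Fin m → M) : ZMod ℓ :=
  ∑ k, ((φ k).1 * (vl v (x k) : ZMod ℓ) + (φ k).2 * U.un (x k))

/-- the functionals which vanish at the polynomials located at `I` -/
noncomputable def Ann (D : M) (A : Fin m → M) (I : Finset (Fin m)) :
    Submodule (ZMod ℓ) (Fin m → ZMod ℓ × ZMod ℓ) where
  carrier := {φ | (∀ k, k ∉ I → φ k = 0) ∧ ∑ k, φ k = 0 ∧
    ∀ P Q : M[X], IsMum ℓ D A P Q → LocP v A I P → pr U φ (fun k => P.eval (A k)) = 0}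
  zero_mem' := by
    refine ⟨fun _ _ => rfl, by simp, fun P Q _ _ => ?_⟩
    simp [pr]
  add_mem' := by
    rintro φ ψ ⟨h1, h2, h3⟩ ⟨h1', h2', h3'⟩
    refine ⟨fun k hk => by rw [Pi.add_apply, h1 k hk, h1' k hk, add_zero], ?_, fun P Q h h' => ?_⟩
    · simp only [Pi.add_apply, Finset.sum_add_distrib, h2, h2', add_zero]
    · have e : pr U (φ + ψ) (fun k => P.eval (A k)) =
          pr U φ (fun k => P.eval (A k)) + pr U ψ (fun k => P.eval (A k)) := by
        unfold pr
        rw [← Finset.sum_add_distrib]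
        refine Finset.sum_congr rfl fun k _ => ?_
        simp only [Pi.add_apply, Prod.fst_add, Prod.snd_add]
        ring
      rw [e, h3 P Q h h', h3' P Q h h', add_zero]
  smul_mem' := by
    rintro c φ ⟨h1, h2, h3⟩
    refine ⟨fun k hk => by rw [Pi.smul_apply, h1 k hk, smul_zero], ?_, fun P Q h h' => ?_⟩
    · simp only [Pi.smul_apply, ← Finset.smul_sum, h2, smul_zero]
    · have e : pr U (c • φ) (fun k => P.eval (A k)) = c * pr U φ (fun k => P.eval (A k)) := by
        unfold pr
        rw [Finset.mul_sum]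
        refine Finset.sum_congr rfl fun k _ => ?_
        simp only [Pi.smul_apply, Prod.smul_fst, Prod.smul_snd, smul_eq_mul]
        ring
      rw [e, h3 P Q h h', mul_zero]

theorem mem_Ann {D : M} {A : Fin m → M} {I : Finset (Fin m)} {φ : Fin m → ZMod ℓ × ZMod ℓ} :
    φ ∈ Ann U D A I ↔ (∀ k, k ∉ I → φ k = 0) ∧ ∑ k, φ k = 0 ∧
      ∀ P Q : M[X], IsMum ℓ D A P Q → LocP v A I P → pr U φ (fun k => P.eval (A k)) = 0 :=
  Iff.rfl

/-- the exceptional clusters -/
def CC (D : M) (A : Fin m → M) (I : Finset (Fin m)) : Prop :=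
  ℓ ∣ I.card ∧ ∀ i ∈ I, (vl v (cI D A I (A i)) : ZMod ℓ) = 0 ∧ U.un (cI D A I (A i)) = 0

open Classical in
/-- `1` for the exceptional clusters -/
noncomputable def eC (D : M) (A : Fin m → M) (I : Finset (Fin m)) : ℕ :=
  if CC U D A I then 1 else 0

end

section
variable {M : Type} [Field M] {v : Valuation M ℤᵐ⁰} {m : ℕ} {ℓ : ℕ} {U : LU v ℓ} {κ : Type}
  [Field κ] {χ : LChar κ ℓ}

/-- the data at a cluster `I` with at least two elements: `a = A i₀`, `i₀ ∈ I`, the smallest valuation `R` of the differences, and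
the reductions `w i = (A i - a) / ϖ ^ R` -/
structure Vtx (rs : Rs v U κ χ) (ϖ : M) (A : Fin m → M) (I : Finset (Fin m)) (a : M) (R : ℤ)
    (w : Fin m → v.integer) : Prop where
  base : ∃ i ∈ I, A i = a
  eq : ∀ i ∈ I, (w i : M) * ϖ ^ R = A i - a
  out : ∀ k, k ∉ I → A k ≠ a ∧ vl v (A k - a) < R
  two : ∃ i ∈ I, ∃ j ∈ I, rs.red (w i) ≠ rs.red (w j)

/-- the child of `I` with the residue `t` -/
def chd (rs : Rs v U κ χ) [DecidableEq κ] (I : Finset (Fin m)) (w : Fin m → v.integer) (t : κ) :
    Finset (Fin m) := I.filter fun i => rs.red (w i) = t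

/-- the residues of the children -/
def res (rs : Rs v U κ χ) [DecidableEq κ] (I : Finset (Fin m)) (w : Fin m → v.integer) :
    Finset κ := I.image fun i => rs.red (w i)

/-- the sums of a functional over the children -/
def sgm (rs : Rs v U κ χ) [DecidableEq κ] (I : Finset (Fin m)) (w : Fin m → v.integer) :
    (Fin m → ZMod ℓ × ZMod ℓ) →ₗ[ZMod ℓ] (κ → ZMod ℓ × ZMod ℓ) where
  toFun φ t := ∑ i ∈ chd rs I w t, φ i
  map_add' φ ψ := by
    funext t
    simp only [Pi.add_apply, Finset.sum_add_distrib]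
  map_smul' c φ := by
    funext t
    simp only [Pi.smul_apply, RingHom.id_apply, Finset.smul_sum]

end

end Pool.Agent.H94.PN
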