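import Pool.Agent.H94.PN.ROOT
import Pool.Agent.H94.PN.LD

set_option autoImplicit false

/-!
# [H94 PN ANP] Mumford polynomials `(X - a) ^ N - β`

* `anp`: `P = (X - C a) ^ N - C β`, `Λ = AdjoinRoot P` (an `M`-algebra), `T` the class of `X - C a`: `T ^ N = β`, so `T` is a unit (`T⁻¹ = T ^ (N - 1) / β`).
  In `Λ`: `f = ∏ k, (X - A k) = ∏ k ∉ J, (a - A k) * ∏ k ∉ J, (1 + T / (a - A k)) * T ^ card J * ∏ i ∈ J, (1 + (a - A i) T⁻¹)` (`X - A k = T + (a - A k)`).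
  `y = T / (a - A k)`: `y ^ N = β / (a - A k) ^ N`, of valuation `< 1` (`hout`), so `1 + y` is an `ℓ`-th power (`root`).  `y = (a - A i) T⁻¹`: `y = 0` if `A i = a`, and otherwise
  `y ^ N = (a - A i) ^ N / β`, of valuation `< 1` (`hin`).  So `f = ∏ k ∉ J, (a - A k) * z ^ ℓ * T ^ card J = ∏ k ∉ J, (a - A k) * z ^ ℓ * cI D A J a * S ^ ℓ = D * (z S) ^ ℓ` in `Λ` (`cI * ∏ = D`).
  Lift `z S` to a polynomial `Q` (`AdjoinRoot.mk_surjective`).
  Values: `k ∉ J`: `P (A k) / (A k - a) ^ N - 1 = - β / (A k - a) ^ N`.  `i ∈ J`: `P (A i) / (- β) - 1 = - (A i - a) ^ N / β` (`0` if `A i = a`, `N ≥ 1`).  `P (A k) ≠ 0` from this.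
* `anpA`: `T ^ (ℓ N' + 1) = β`: `T ^ n * (T ^ (n N')) ^ ℓ = β ^ n = c b ^ ℓ`, so `T ^ n = c * (b * T⁻¹ ^ (n N')) ^ ℓ`.  As polynomials: `S = C (b * β⁻¹ ^ (n N')) * (X - C a) ^ (ℓ N' n N')` (`T⁻¹ = T ^ (ℓ N') / β`).
* `anpB`: `N = ℓ N'`, `n = ℓ j`, `β = c b ^ ℓ`: `S = T ^ j * b * T ^ (N - N') / β`.
* `anpC`: `n = ℓ j`, `c = b ^ ℓ`: `S = C b⁻¹ * (X - C a) ^ j`, `C c * S ^ ℓ = (X - C a) ^ n`.
  (A divisibility `P ∣ G` is `AdjoinRoot.mk P G = 0`.)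
-/

namespace Pool.Agent.H94.PN

open Polynomial WithZero
open Pool.Agent.H94.PL
open Pool.Agent.H94.PM

private theorem anp_lt_one {M : Type} [Field M] {v : Valuation M ℤᵐ⁰} {x : M} (hx : x ≠ 0)
    (h : 0 < vl v x) : v x < 1 := by
  rw [val_vl hx, ← exp_zero, exp_lt_exp]
  omega

private theorem anp_mon {M : Type} [Field M] (a β : M) {N : ℕ} (hN : 1 ≤ N) :
    ((X - C a) ^ N - C β : M[X]).Monic ∧ ((X - C a) ^ N - C β : M[X]).natDegree = N := by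
  have h1 : ((X - C a) ^ N : M[X]).Monic := (monic_X_sub_C a).pow N
  have h2 : ((X - C a) ^ N : M[X]).natDegree = N := by
    rw [(monic_X_sub_C a).natDegree_pow, natDegree_X_sub_C, mul_one]
  have h3 : (C β : M[X]).natDegree < ((X - C a) ^ N : M[X]).natDegree := by
    rw [natDegree_C, h2]
    exact hN
  refine ⟨h1.sub_of_left (degree_lt_degree h3), ?_⟩
  rw [natDegree_sub_eq_left_of_natDegree_lt h3, h2]

private theorem anp_T {M : Type} [Field M] (a β : M) (N : ℕ) :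
    (AdjoinRoot.mk ((X - C a) ^ N - C β) (X - C a)) ^ N =
      algebraMap M (AdjoinRoot ((X - C a) ^ N - C β)) β := by
  have h1 := AdjoinRoot.mk_self (f := ((X - C a) ^ N - C β : M[X]))
  rw [map_sub, map_pow, sub_eq_zero] at h1
  rw [h1, AdjoinRoot.mk_C, AdjoinRoot.algebraMap_eq]

theorem anp {M : Type} [Field M] [hv : Valued M ℤᵐ⁰] [CompleteSpace M] {p : ℕ}
    [hp : Fact p.Prime] [CharP M p] {ϖ : M}
    (hϖ : (Valued.v : Valuation M ℤᵐ⁰) ϖ = exp (-1 : ℤ)) {ℓ m : ℕ}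
    (hℓ : (Valued.v : Valuation M ℤᵐ⁰) (ℓ : M) = 1) (hℓ1 : 1 ≤ ℓ) {D : M} (hD : D ≠ 0)
    (A : Fin m → M) (J : Finset (Fin m)) (a β : M) {N : ℕ} (hN : 1 ≤ N) (hβ : β ≠ 0)
    (hout : ∀ k, k ∉ J → A k ≠ a ∧ (N : ℤ) * vl (Valued.v : Valuation M ℤᵐ⁰) (A k - a) <
      vl (Valued.v : Valuation M ℤᵐ⁰) β)
    (hin : ∀ i ∈ J, A i ≠ a → vl (Valued.v : Valuation M ℤᵐ⁰) β <
      (N : ℤ) * vl (Valued.v : Valuation M ℤᵐ⁰) (A i - a))
    (hS : ∃ S : M[X], (X - C a) ^ N - C β ∣ C (cI D A J a) * S ^ ℓ - (X - C a) ^ J.card) :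
    (∃ Q : M[X], IsMum ℓ D A ((X - C a) ^ N - C β) Q) ∧
      (∀ k, k ∉ J → (Valued.v : Valuation M ℤᵐ⁰)
        (((X - C a) ^ N - C β).eval (A k) / (A k - a) ^ N - 1) < 1) ∧
      (∀ i ∈ J, (Valued.v : Valuation M ℤᵐ⁰)
        (((X - C a) ^ N - C β).eval (A i) / (-β) - 1) < 1) := by
  classical
  have hev : ∀ x : M, ((X - C a) ^ N - C β).eval x = (x - a) ^ N - β := by
    intro x
    rw [eval_sub, eval_pow, eval_sub, eval_X, eval_C, eval_C]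
  have hc1 : ∀ k, k ∉ J → (Valued.v : Valuation M ℤᵐ⁰)
      (((X - C a) ^ N - C β).eval (A k) / (A k - a) ^ N - 1) < 1 := by
    intro k hk
    obtain ⟨h1, h2⟩ := hout k hk
    have h3 : A k - a ≠ 0 := sub_ne_zero.2 h1
    have h4 : ((X - C a) ^ N - C β).eval (A k) / (A k - a) ^ N - 1 =
        -(β / (A k - a) ^ N) := by
      rw [hev, sub_div, div_self (pow_ne_zero _ h3)]
      ring
    rw [h4, Valuation.map_neg]
    refine anp_lt_one (div_ne_zero hβ (pow_ne_zero _ h3)) ?_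
    rw [vl_div hβ (pow_ne_zero _ h3), vl_pow]
    linarith
  have hc2 : ∀ i ∈ J, (Valued.v : Valuation M ℤᵐ⁰)
      (((X - C a) ^ N - C β).eval (A i) / (-β) - 1) < 1 := by
    intro i hi
    have h4 : ((X - C a) ^ N - C β).eval (A i) / (-β) - 1 = -((A i - a) ^ N / β) := by
      rw [hev]
      field_simp
      ring
    rw [h4, Valuation.map_neg]
    by_cases h1 : A i = a
    · rw [h1, sub_self, zero_pow (by omega), zero_div, map_zero]
      exact zero_lt_one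
    · have h3 : A i - a ≠ 0 := sub_ne_zero.2 h1
      refine anp_lt_one (div_ne_zero (pow_ne_zero _ h3) hβ) ?_
      rw [vl_div (pow_ne_zero _ h3) hβ, vl_pow]
      have := hin i hi h1
      linarith
  refine ⟨?_, hc1, hc2⟩
  have hne : ∀ k, ((X - C a) ^ N - C β).eval (A k) ≠ 0 := by
    intro k h0
    by_cases hk : k ∈ J
    · have h1 := hc2 k hk
      rw [h0, zero_div, zero_sub, Valuation.map_neg, map_one] at h1
      exact lt_irrefl _ h1
    · have h1 := hc1 k hk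
      rw [h0, zero_div, zero_sub, Valuation.map_neg, map_one] at h1
      exact lt_irrefl _ h1
  obtain ⟨S, hS⟩ := hS
  obtain ⟨P, hP⟩ : ∃ P : M[X], P = (X - C a) ^ N - C β := ⟨_, rfl⟩
  obtain ⟨T, hT⟩ : ∃ T : AdjoinRoot P, T = AdjoinRoot.mk P (X - C a) := ⟨_, rfl⟩
  obtain ⟨al, hal⟩ : ∃ al : M →+* AdjoinRoot P, al = algebraMap M (AdjoinRoot P) := ⟨_, rfl⟩
  have hmkC : ∀ x : M, AdjoinRoot.mk P (C x) = al x := by
    intro x
    rw [hal, AdjoinRoot.mk_C, AdjoinRoot.algebraMap_eq]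
  have hTN : T ^ N = al β := by
    rw [hT, hal, hP]
    exact anp_T a β N
  obtain ⟨Ti, hTi⟩ : ∃ Ti : AdjoinRoot P, Ti = T ^ (N - 1) * al β⁻¹ := ⟨_, rfl⟩
  have hTTi : T * Ti = 1 := by
    rw [hTi, ← mul_assoc, ← pow_succ', Nat.sub_add_cancel hN, hTN, ← map_mul,
      mul_inv_cancel₀ hβ, map_one]
  have hTiN : Ti ^ N = al β⁻¹ := by
    have h1 : al β * Ti ^ N = 1 := by
      rw [← hTN, ← mul_pow, hTTi, one_pow]
    have h2 : al β⁻¹ * al β = 1 := by rw [← map_mul, inv_mul_cancel₀ hβ, map_one]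
    calc Ti ^ N = (al β⁻¹ * al β) * Ti ^ N := by rw [h2, one_mul]
      _ = al β⁻¹ * (al β * Ti ^ N) := by ring
      _ = al β⁻¹ := by rw [h1, mul_one]
  have hX : ∀ k, AdjoinRoot.mk P (X - C (A k)) = T + al (a - A k) := by
    intro k
    rw [hT, ← hmkC, ← map_add]
    congr 1
    rw [C_sub]
    ring
  have hz : ∀ k, ∃ z : AdjoinRoot P, AdjoinRoot.mk P (X - C (A k)) =
      (if k ∈ J then T else al (a - A k)) * z ^ ℓ := by
    intro k
    by_cases hk : k ∈ J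
    · rw [if_pos hk]
      by_cases h1 : A k = a
      · refine ⟨1, ?_⟩
        rw [hX, h1, sub_self, map_zero, one_pow, mul_one, add_zero]
      · have h3 : A k - a ≠ 0 := sub_ne_zero.2 h1
        have h3' : a - A k ≠ 0 := sub_ne_zero.2 (Ne.symm h1)
        obtain ⟨z, hz⟩ := root (Λ := AdjoinRoot P) (y := al (a - A k) * Ti)
          (γ := (a - A k) ^ N * β⁻¹) hϖ hℓ hN
          (by
            refine anp_lt_one (mul_ne_zero (pow_ne_zero _ h3') (inv_ne_zero hβ)) ?_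
            rw [vl_mul (pow_ne_zero _ h3') (inv_ne_zero hβ), vl_inv, vl_pow, ← neg_sub (A k) a,
              vl_neg]
            have := hin k hk h1
            linarith)
          (by rw [mul_pow, hTiN, ← map_pow, ← map_mul, hal])
        refine ⟨z, ?_⟩
        rw [hz, hX]
        calc T + al (a - A k) = T * 1 + al (a - A k) * (T * Ti) := by rw [hTTi]; ring
          _ = T * (1 + al (a - A k) * Ti) := by ring
    · rw [if_neg hk]
      obtain ⟨h1, h2⟩ := hout k hk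
      have h3 : A k - a ≠ 0 := sub_ne_zero.2 h1
      have h3' : a - A k ≠ 0 := sub_ne_zero.2 (Ne.symm h1)
      obtain ⟨z, hz⟩ := root (Λ := AdjoinRoot P) (y := T * al (a - A k)⁻¹)
        (γ := β * ((a - A k)⁻¹) ^ N) hϖ hℓ hN
        (by
          refine anp_lt_one (mul_ne_zero hβ (pow_ne_zero _ (inv_ne_zero h3'))) ?_
          rw [vl_mul hβ (pow_ne_zero _ (inv_ne_zero h3')), vl_pow, vl_inv, ← neg_sub (A k) a,
            vl_neg]
          linarith)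
        (by rw [mul_pow, hTN, ← map_pow, ← map_mul, hal])
      refine ⟨z, ?_⟩
      rw [hz, hX]
      have h5 : al (a - A k) * al (a - A k)⁻¹ = 1 := by
        rw [← map_mul, mul_inv_cancel₀ h3', map_one]
      calc T + al (a - A k) = al (a - A k) + T * (al (a - A k) * al (a - A k)⁻¹) := by
            rw [h5]; ring
        _ = al (a - A k) * (1 + T * al (a - A k)⁻¹) := by ring
  choose z hz using hz
  have hprod : AdjoinRoot.mk P (fA A) =
      T ^ J.card * al (∏ k ∈ Jᶜ, (a - A k)) * (∏ k, z k) ^ ℓ := by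
    unfold fA
    rw [map_prod, Finset.prod_congr rfl fun k _ => hz k, Finset.prod_mul_distrib,
      Finset.prod_pow]
    congr 1
    rw [← Finset.prod_mul_prod_compl J]
    congr 1
    · rw [Finset.prod_congr rfl (fun k hk => if_pos hk), Finset.prod_const]
    · rw [map_prod]
      exact Finset.prod_congr rfl fun k hk => if_neg (Finset.mem_compl.1 hk)
  have hSm : al (cI D A J a) * (AdjoinRoot.mk P S) ^ ℓ = T ^ J.card := by
    rw [← hP] at hS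
    have h1 := AdjoinRoot.mk_eq_zero.2 hS
    rw [map_sub, map_mul, map_pow, map_pow, hmkC, ← hT, sub_eq_zero] at h1
    exact h1
  have hcI : cI D A J a * ∏ k ∈ Jᶜ, (a - A k) = D := by
    unfold cI
    refine div_mul_cancel₀ _ (Finset.prod_ne_zero_iff.2 fun k hk => ?_)
    exact sub_ne_zero.2 (Ne.symm (hout k (Finset.mem_compl.1 hk)).1)
  obtain ⟨Q, hQ⟩ := AdjoinRoot.mk_surjective (AdjoinRoot.mk P S * ∏ k, z k)
  refine ⟨Q, (anp_mon a β hN).1, hne, ?_⟩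
  rw [← hP, ← AdjoinRoot.mk_eq_zero, map_sub, map_mul, map_pow, hmkC, hQ, hprod, ← hSm,
    sub_eq_zero]
  calc al D * (AdjoinRoot.mk P S * ∏ k, z k) ^ ℓ
      = al (cI D A J a * ∏ k ∈ Jᶜ, (a - A k)) * (AdjoinRoot.mk P S * ∏ k, z k) ^ ℓ := by
        rw [hcI]
    _ = _ := by rw [map_mul, mul_pow]; ring

section
variable {M : Type} [Field M]

theorem anp_monic (a β : M) {N : ℕ} (hN : 1 ≤ N) : ((X - C a) ^ N - C β : M[X]).Monic ∧
    ((X - C a) ^ N - C β : M[X]).natDegree = N := anp_mon a β hN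

theorem anpA (a : M) {ℓ N' n : ℕ} {c b β : M} (hc : c ≠ 0) (hβ : β ≠ 0)
    (h : β ^ n = c * b ^ ℓ) :
    ∃ S : M[X], (X - C a) ^ (ℓ * N' + 1) - C β ∣ C c * S ^ ℓ - (X - C a) ^ n := by
  obtain ⟨P, hP⟩ : ∃ P : M[X], P = (X - C a) ^ (ℓ * N' + 1) - C β := ⟨_, rfl⟩
  obtain ⟨T, hT⟩ : ∃ T : AdjoinRoot P, T = AdjoinRoot.mk P (X - C a) := ⟨_, rfl⟩
  obtain ⟨al, hal⟩ : ∃ al : M →+* AdjoinRoot P, al = algebraMap M (AdjoinRoot P) := ⟨_, rfl⟩
  have hmkC : ∀ x : M, AdjoinRoot.mk P (C x) = al x := by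
    intro x
    rw [hal, AdjoinRoot.mk_C, AdjoinRoot.algebraMap_eq]
  have hTN : T ^ (ℓ * N' + 1) = al β := by
    rw [hT, hal, hP]
    exact anp_T a β _
  refine ⟨C (b * β⁻¹ ^ (n * N')) * (X - C a) ^ (ℓ * N' * (n * N')), ?_⟩
  rw [← hP, ← AdjoinRoot.mk_eq_zero, map_sub, map_mul, map_pow, map_mul, map_pow, map_pow, hmkC,
    hmkC, ← hT, sub_eq_zero]
  have h1 : al c * al b ^ ℓ = T ^ ((ℓ * N' + 1) * n) := by
    rw [pow_mul, hTN, ← map_pow, ← map_pow, ← map_mul, h]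
  have h2 : T ^ ((ℓ * N' + 1) * (n * N' * ℓ)) * al β⁻¹ ^ (n * N' * ℓ) = 1 := by
    rw [pow_mul, hTN, ← mul_pow, ← map_mul, mul_inv_cancel₀ hβ, map_one, one_pow]
  calc al c * (al (b * β⁻¹ ^ (n * N')) * T ^ (ℓ * N' * (n * N'))) ^ ℓ
      = (al c * al b ^ ℓ) * (al β⁻¹ ^ (n * N' * ℓ) * T ^ (ℓ * N' * (n * N') * ℓ)) := by
        rw [map_mul, map_pow, mul_pow, mul_pow, ← pow_mul, ← pow_mul]
        ring
    _ = T ^ n * (T ^ ((ℓ * N' + 1) * (n * N' * ℓ)) * al β⁻¹ ^ (n * N' * ℓ)) := by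
        rw [h1]
        ring
    _ = T ^ n := by rw [h2, mul_one]

theorem anpB (a : M) {ℓ N' j : ℕ} (hℓ : 1 ≤ ℓ) {c b β : M} (hβ : β ≠ 0) (h : β = c * b ^ ℓ) :
    ∃ S : M[X], (X - C a) ^ (ℓ * N') - C β ∣ C c * S ^ ℓ - (X - C a) ^ (ℓ * j) := by
  obtain ⟨P, hP⟩ : ∃ P : M[X], P = (X - C a) ^ (ℓ * N') - C β := ⟨_, rfl⟩
  obtain ⟨T, hT⟩ : ∃ T : AdjoinRoot P, T = AdjoinRoot.mk P (X - C a) := ⟨_, rfl⟩
  obtain ⟨al, hal⟩ : ∃ al : M →+* AdjoinRoot P, al = algebraMap M (AdjoinRoot P) := ⟨_, rfl⟩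
  have hmkC : ∀ x : M, AdjoinRoot.mk P (C x) = al x := by
    intro x
    rw [hal, AdjoinRoot.mk_C, AdjoinRoot.algebraMap_eq]
  have hTN : T ^ (ℓ * N') = al β := by
    rw [hT, hal, hP]
    exact anp_T a β _
  obtain ⟨l, rfl⟩ : ∃ l, ℓ = l + 1 := ⟨ℓ - 1, by omega⟩
  refine ⟨C (b * β⁻¹) * (X - C a) ^ (l * N' + j), ?_⟩
  rw [← hP, ← AdjoinRoot.mk_eq_zero, map_sub, map_mul, map_pow, map_mul, map_pow, map_pow, hmkC,
    hmkC, ← hT, sub_eq_zero]
  have h0 : al β * al β⁻¹ = 1 := by rw [← map_mul, mul_inv_cancel₀ hβ, map_one]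
  have h1 : al c * al b ^ (l + 1) = al β := by
    rw [← map_pow, ← map_mul, ← h]
  calc al c * (al (b * β⁻¹) * T ^ (l * N' + j)) ^ (l + 1)
      = (al c * al b ^ (l + 1)) * al β⁻¹ * ((T ^ ((l + 1) * N')) ^ l * al β⁻¹ ^ l) *
          T ^ ((l + 1) * j) := by
        rw [map_mul]
        ring
    _ = T ^ ((l + 1) * j) := by
        rw [h1, h0, hTN, ← mul_pow, h0, one_pow, one_mul, one_mul]

theorem anpC (a : M) {ℓ N j : ℕ} {c b β : M} (hb : b ≠ 0) (h : c = b ^ ℓ) :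
    ∃ S : M[X], (X - C a) ^ N - C β ∣ C c * S ^ ℓ - (X - C a) ^ (ℓ * j) := by
  refine ⟨C b⁻¹ * (X - C a) ^ j, ?_⟩
  have h1 : C c * (C b⁻¹ * (X - C a) ^ j) ^ ℓ - (X - C a : M[X]) ^ (ℓ * j) = 0 := by
    rw [h, mul_pow, ← C_pow, ← mul_assoc, ← C_mul, ← mul_pow, mul_inv_cancel₀ hb, one_pow, C_1,
      one_mul, ← pow_mul, mul_comm j ℓ, sub_self]
  rw [h1]
  exact dvd_zero _

end

end Pool.Agent.H94.PN
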