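import Pool.Agent.H94.PN.VER

set_option autoImplicit false

/-!
# [H94 PN CCH] The constants of the children

`I` a cluster with the data `a, R, w`, `c = cI D A I a`, `j ∈ chd t`, `c_t = cI D A (chd t) (A j)`, `n_t = card (chd t)`.
`∏ k ∉ chd t, (A j - A k) = ∏ k ∉ I, (A j - A k) * ∏ k ∈ I, red (w k) ≠ t, (A j - A k)`; for `k ∉ I` `(A j - A k) / (a - A k)` is near `1` (`vtx_out`), for the others `vtx_ne`
(`un (A j - A k) = R un ϖ + lg (t - red (w k))`, `vl = R`).  So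
* `cch_vl`: `vl c_t = vl c - R (card I - n_t)`.
* `cch_un`: `un c_t = un c - (card I - n_t) R un ϖ - ∑ t' ∈ res, t' ≠ t, n_{t'} lg (t - t')` in `ZMod ℓ`.
* `cc_iff`: `CC I ↔ ℓ ∣ card I ∧ vl c = 0 ∧ un c = 0` (in `ZMod ℓ`): the classes of `cI D A I (A i)`, `i ∈ I`, and of `c` agree (`a = A i₀`).
* `cc_self`: if `ℓ ∣ card I` and `vl c ≡ R card I` modulo `ℓ`: `CC I ↔ rhoI = 0` (`card I = 0` and `vl c = 0` in `ZMod ℓ`, `rhoI = un c`).
* `cc_chd`: if moreover `ℓ ∣ n_t` for all `t ∈ res`: `CC (chd t) ↔ rhoI = 0`: `vl c_t = vl c - R (card I - n_t) = 0`, `un c_t = un c` by `cch_un`.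
-/

namespace Pool.Agent.H94.PN

open Polynomial WithZero
open Pool.Agent.H94.PL
open Pool.Agent.H94.PM

variable {M : Type} [Field M] {v : Valuation M ℤᵐ⁰} {m : ℕ} {ℓ : ℕ} [hl : Fact ℓ.Prime]
  {U : LU v ℓ} {κ : Type} [Field κ] [DecidableEq κ] {χ : LChar κ ℓ} (rs : Rs v U κ χ) {ϖ : M}
  (hϖ : v ϖ = exp (-1 : ℤ)) {D : M} (hD : D ≠ 0) {A : Fin m → M}
  (hA : ∀ i k, i ≠ k → A i ≠ A k) {I : Finset (Fin m)} {a : M} {R : ℤ}
  {w : Fin m → v.integer}

include hϖ in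
/-- the factors outside `I` -/
private theorem cch_far (hV : Vtx rs ϖ A I a R w) {j k : Fin m} (hj : j ∈ I) (hk : k ∉ I) :
    a - A k ≠ 0 ∧ A j - A k ≠ 0 ∧ vl v (A j - A k) = vl v (a - A k) ∧
      U.un (A j - A k) = U.un (a - A k) := by
  have h1 : a - A k ≠ 0 := sub_ne_zero.2 (hV.out k hk).1.symm
  have h2 := vtx_out rs hϖ hV hj hk
  have e : (A k - A j) / (A k - a) = (A j - A k) / (a - A k) := by
    rw [← neg_sub (A j) (A k), ← neg_sub a (A k), neg_div_neg_eq]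
  rw [e] at h2
  have h3 : A j - A k ≠ 0 := by
    intro h
    rw [h, zero_div, zero_sub, Valuation.map_neg, map_one] at h2
    exact lt_irrefl _ h2
  refine ⟨h1, h3, ?_, U.un_congr h1 h2⟩
  have h4 := vl_near h2
  rw [vl_div h3 h1] at h4
  linarith

include hϖ hD hA

theorem cI_ne (hV : Vtx rs ϖ A I a R w) : cI D A I a ≠ 0 := by
  unfold cI
  refine div_ne_zero hD (Finset.prod_ne_zero_iff.2 fun k hk => sub_ne_zero.2 ?_)
  exact (hV.out k (Finset.mem_compl.1 hk)).1.symm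

/-- the constant at the other elements of `I` -/
private theorem cch_self (hV : Vtx rs ϖ A I a R w) {i : Fin m} (hi : i ∈ I) :
    cI D A I (A i) ≠ 0 ∧ vl v (cI D A I (A i)) = vl v (cI D A I a) ∧
      U.un (cI D A I (A i)) = U.un (cI D A I a) := by
  have h1 : ∀ k ∈ Iᶜ, A i - A k ≠ 0 := fun k hk =>
    (cch_far (U := U) rs hϖ hV hi (Finset.mem_compl.1 hk)).2.1
  have h2 : ∀ k ∈ Iᶜ, a - A k ≠ 0 := fun k hk =>
    (cch_far (U := U) rs hϖ hV hi (Finset.mem_compl.1 hk)).1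
  have h3 := Finset.prod_ne_zero_iff.2 h1
  have h4 := Finset.prod_ne_zero_iff.2 h2
  unfold cI
  refine ⟨div_ne_zero hD h3, ?_, ?_⟩
  · rw [vl_div hD h3, vl_div hD h4, vl_prod _ _ h1, vl_prod _ _ h2]
    congr 1
    exact Finset.sum_congr rfl fun k hk =>
      (cch_far (U := U) rs hϖ hV hi (Finset.mem_compl.1 hk)).2.2.1
  · rw [U.un_div hD h3, U.un_div hD h4, U.un_prod _ _ h1, U.un_prod _ _ h2]
    congr 1
    exact Finset.sum_congr rfl fun k hk =>
      (cch_far (U := U) rs hϖ hV hi (Finset.mem_compl.1 hk)).2.2.2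

omit hϖ hD hA in
/-- the complement of a child -/
private theorem cch_compl (t : κ) : (chd rs I w t)ᶜ = Iᶜ ∪ (I.filter fun k => rs.red (w k) ≠ t) ∧
    Disjoint Iᶜ (I.filter fun k => rs.red (w k) ≠ t) := by
  constructor
  · ext k
    simp only [chd, Finset.mem_compl, Finset.mem_filter, Finset.mem_union, not_and]
    by_cases hk : k ∈ I
    · simp [hk]
    · simp [hk]
  · rw [Finset.disjoint_left]
    intro k hk hk'
    exact (Finset.mem_compl.1 hk) (Finset.mem_filter.1 hk').1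

omit hϖ hD hA in
private theorem cch_num (t : κ) : (chd rs I w t).card +
    (I.filter fun k => rs.red (w k) ≠ t).card = I.card :=
  Finset.card_filter_add_card_filter_not _

/-- the product over the complement of a child -/
private theorem cch_prod (hV : Vtx rs ϖ A I a R w) {t : κ} {j : Fin m}
    (hj : j ∈ chd rs I w t) : cI D A (chd rs I w t) (A j) =
      cI D A I (A j) / ∏ k ∈ I.filter (fun k => rs.red (w k) ≠ t), (A j - A k) ∧
    (∀ k ∈ I.filter (fun k => rs.red (w k) ≠ t), A j - A k ≠ 0 ∧ vl v (A j - A k) = R ∧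
      U.un (A j - A k) = (R : ZMod ℓ) * U.un ϖ + χ.lg (t - rs.red (w k))) := by
  obtain ⟨hjI, hjt⟩ := Finset.mem_filter.1 hj
  constructor
  · unfold cI
    rw [(cch_compl rs t).1, Finset.prod_union (cch_compl rs t).2, div_div]
  · intro k hk
    obtain ⟨hkI, hkt⟩ := Finset.mem_filter.1 hk
    have hne : A j - A k ≠ 0 := sub_ne_zero.2 (hA j k (by
      rintro rfl
      exact hkt hjt))
    obtain ⟨h1, h2⟩ := vtx_ne rs hϖ hV hjI hkI (by rw [hjt]; exact fun h => hkt h.symm)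
    rw [hjt] at h2
    exact ⟨hne, (vl_eq_iff hne R).2 h1, h2⟩

theorem cch_vl (hV : Vtx rs ϖ A I a R w) {t : κ} {j : Fin m} (hj : j ∈ chd rs I w t) :
    vl v (cI D A (chd rs I w t) (A j)) =
      vl v (cI D A I a) - R * ((I.card : ℤ) - ((chd rs I w t).card : ℤ)) := by
  obtain ⟨h1, h2⟩ := cch_prod (U := U) rs hϖ hD hA hV hj
  obtain ⟨h3, h4, _⟩ := cch_self (U := U) rs hϖ hD hA hV (Finset.mem_filter.1 hj).1
  have h5 := Finset.prod_ne_zero_iff.2 fun k hk => (h2 k hk).1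
  rw [h1, vl_div h3 h5, h4, vl_prod _ _ fun k hk => (h2 k hk).1,
    Finset.sum_congr rfl fun k hk => (h2 k hk).2.1, Finset.sum_const, nsmul_eq_mul,
    ← cch_num rs (I := I) (w := w) t]
  push_cast
  ring

theorem cch_un (hV : Vtx rs ϖ A I a R w) {t : κ} {j : Fin m} (hj : j ∈ chd rs I w t) :
    U.un (cI D A (chd rs I w t) (A j)) = U.un (cI D A I a) -
      ((I.card : ZMod ℓ) - ((chd rs I w t).card : ZMod ℓ)) * ((R : ZMod ℓ) * U.un ϖ) -
      ∑ t' ∈ (res rs I w).erase t, ((chd rs I w t').card : ZMod ℓ) * χ.lg (t - t') := by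
  obtain ⟨h1, h2⟩ := cch_prod (U := U) rs hϖ hD hA hV hj
  obtain ⟨h3, _, h4⟩ := cch_self (U := U) rs hϖ hD hA hV (Finset.mem_filter.1 hj).1
  have h5 := Finset.prod_ne_zero_iff.2 fun k hk => (h2 k hk).1
  have h6 : ∑ k ∈ I.filter (fun k => rs.red (w k) ≠ t), χ.lg (t - rs.red (w k)) =
      ∑ t' ∈ (res rs I w).erase t, ((chd rs I w t').card : ZMod ℓ) * χ.lg (t - t') := by
    have h := Finset.sum_fiberwise_of_maps_to (s := I.filter fun k => rs.red (w k) ≠ t)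
      (t := (res rs I w).erase t) (g := fun i => rs.red (w i)) (fun i hi =>
        Finset.mem_erase.2 ⟨(Finset.mem_filter.1 hi).2,
          Finset.mem_image_of_mem _ (Finset.mem_filter.1 hi).1⟩)
      (fun k => χ.lg (t - rs.red (w k)))
    rw [← h]
    refine Finset.sum_congr rfl fun t' ht' => ?_
    have h7 : (I.filter fun k => rs.red (w k) ≠ t).filter (fun i => rs.red (w i) = t') =
        chd rs I w t' := by
      ext k
      simp only [chd, Finset.mem_filter]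
      constructor
      · rintro ⟨⟨h8, _⟩, h9⟩
        exact ⟨h8, h9⟩
      · rintro ⟨h8, h9⟩
        exact ⟨⟨h8, by rw [h9]; exact (Finset.mem_erase.1 ht').1⟩, h9⟩
    rw [h7, Finset.sum_congr rfl fun k hk => by rw [(Finset.mem_filter.1 hk).2],
      Finset.sum_const, nsmul_eq_mul]
  rw [h1, U.un_div h3 h5, h4, U.un_prod _ _ fun k hk => (h2 k hk).1,
    Finset.sum_congr rfl fun k hk => (h2 k hk).2.2, Finset.sum_add_distrib, Finset.sum_const,
    nsmul_eq_mul, h6, ← cch_num rs (I := I) (w := w) t]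
  push_cast
  ring

theorem cc_iff (hV : Vtx rs ϖ A I a R w) : CC U D A I ↔
    ℓ ∣ I.card ∧ (vl v (cI D A I a) : ZMod ℓ) = 0 ∧ U.un (cI D A I a) = 0 := by
  constructor
  · rintro ⟨h1, h2⟩
    obtain ⟨i, hi, _⟩ := hV.base
    obtain ⟨_, h4, h5⟩ := cch_self (U := U) rs hϖ hD hA hV hi
    have h6 := h2 i hi
    rw [h4, h5] at h6
    exact ⟨h1, h6⟩
  · rintro ⟨h1, h2⟩
    refine ⟨h1, fun i hi => ?_⟩
    obtain ⟨_, h4, h5⟩ := cch_self (U := U) rs hϖ hD hA hV hi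
    rw [h4, h5]
    exact h2

theorem cc_self (hV : Vtx rs ϖ A I a R w) (h1 : ℓ ∣ I.card)
    (hν : (ℓ : ℤ) ∣ R * (I.card : ℤ) - vl v (cI D A I a)) :
    CC U D A I ↔ rhoI U D A I ϖ a R = 0 := by
  have h2 := (ZMod.intCast_zmod_eq_zero_iff_dvd _ _).2 hν
  have h3 : (I.card : ZMod ℓ) = 0 := (ZMod.natCast_eq_zero_iff _ _).2 h1
  push_cast at h2
  rw [h3, mul_zero, zero_sub, neg_eq_zero] at h2
  rw [cc_iff rs hϖ hD hA hV]
  unfold rhoI
  rw [h3, mul_zero, zero_mul, zero_mul, sub_zero, add_zero]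
  exact ⟨fun h => h.2.2, fun h => ⟨h1, h2, h⟩⟩

theorem cc_chd (hV : Vtx rs ϖ A I a R w) (h1 : ∀ t ∈ res rs I w, ℓ ∣ (chd rs I w t).card)
    (hν : (ℓ : ℤ) ∣ R * (I.card : ℤ) - vl v (cI D A I a)) {t : κ} (ht : t ∈ res rs I w) :
    CC U D A (chd rs I w t) ↔ rhoI U D A I ϖ a R = 0 := by
  have hn : ∀ t ∈ res rs I w, ((chd rs I w t).card : ZMod ℓ) = 0 := fun t ht =>
    (ZMod.natCast_eq_zero_iff _ _).2 (h1 t ht)
  have h2 := (ZMod.intCast_zmod_eq_zero_iff_dvd _ _).2 hν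
  have h3 : (I.card : ZMod ℓ) = 0 := by
    rw [← chd_card rs (I := I) (w := w)]
    push_cast
    exact Finset.sum_eq_zero hn
  push_cast at h2
  rw [h3, mul_zero, zero_sub, neg_eq_zero] at h2
  have h4 : ∀ j ∈ chd rs I w t, (vl v (cI D A (chd rs I w t) (A j)) : ZMod ℓ) = 0 ∧
      U.un (cI D A (chd rs I w t) (A j)) = U.un (cI D A I a) := by
    intro j hj
    constructor
    · rw [cch_vl rs hϖ hD hA hV hj]
      push_cast
      rw [h2, h3, hn t ht]
      ring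
    · rw [cch_un rs hϖ hD hA hV hj, h3, hn t ht, Finset.sum_eq_zero fun t' ht' => by
        rw [hn t' (Finset.mem_erase.1 ht').2, zero_mul]]
      ring
  unfold rhoI
  rw [h3, mul_zero, zero_mul, zero_mul, sub_zero, add_zero]
  obtain ⟨j, hjI, hjt⟩ := Finset.mem_image.1 ht
  have hj : j ∈ chd rs I w t := Finset.mem_filter.2 ⟨hjI, hjt⟩
  constructor
  · intro h
    rw [← (h4 j hj).2]
    exact (h.2 j hj).2
  · intro h
    refine ⟨h1 t ht, fun i hi => ⟨(h4 i hi).1, ?_⟩⟩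
    rw [(h4 i hi).2]
    exact h

end Pool.Agent.H94.PN
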