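import Pool.Agent.H94.PN.LD

set_option autoImplicit false

/-!
# [H94 PN CH] The children of a cluster

`v ϖ = exp (-1)`, so `v (ϖ ^ R) = exp (-R)`.
* `exists_vtx`: `I` a cluster with at least two elements, `i₀ ∈ I`, `a = A i₀`, `R` the minimum of `vl (A i - A i₀)` over `i ∈ I`, `i ≠ i₀` (so `v (A i - A j) ≤ exp (-R)` for all `i, j ∈ I`, ultrametric inequality).
  `w i = (A i - a) / ϖ ^ R`, of valuation `≤ 1` (`0` for `i = i₀`; for `i ∉ I` put `0`).  `out`: for `k ∉ I`, with `i ∈ I` such that `v (A i₀ - A i) = exp (-R)`: `exp (-R) = v (A i₀ - A i) < v (A i₀ - A k)`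
  (cluster).  `two`: `i₀` and this `i`: `red (w i₀) = 0`, `red (w i) ≠ 0` (`rs.ker`).
* `vtx_lt`: `A i - A j = (w i - w j) ϖ ^ R`, and `v (w i - w j) < 1` iff `red (w i) = red (w j)`.
* `vtx_ne`: `v (w i - w j) = 1`; `un` by `rs.un`, `un_zpow`.
* `vtx_out`: `(A k - A i) / (A k - a) - 1 = - (A i - a) / (A k - a)`, `v (A i - a) ≤ exp (-R) < v (A k - a)`.
* `chd_clu`: `t ∈ res`: `chd t` is nonempty.  For `i, i' ∈ chd t` (`v (A i - A i') < exp (-R)`) and `k ∉ chd t`: if `k ∈ I`: `v (A i - A k) = exp (-R)` (`vtx_ne`); if `k ∉ I`: `v (A i - A k) > v (A i - A i')` by `hI`.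
* `chd_card`: `∑ t ∈ res, card (chd t) = card I` (`Finset.card_eq_sum_card_image`).  `res_two`: by `two`.  `chd_lt`: `chd t ≠ I` by `two`.
-/

namespace Pool.Agent.H94.PN

open Polynomial WithZero
open Pool.Agent.H94.PL
open Pool.Agent.H94.PM

variable {M : Type} [Field M] {v : Valuation M ℤᵐ⁰} {m : ℕ} {ℓ : ℕ} [hl : Fact ℓ.Prime]
  {U : LU v ℓ} {κ : Type} [Field κ] [DecidableEq κ] {χ : LChar κ ℓ} (rs : Rs v U κ χ) {ϖ : M}
  (hϖ : v ϖ = exp (-1 : ℤ)) {A : Fin m → M} {I : Finset (Fin m)} {a : M} {R : ℤ}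
  {w : Fin m → v.integer}

include hϖ

omit hl in
private theorem ch_pi : ϖ ≠ 0 ∧ ∀ R : ℤ, v (ϖ ^ R) = exp (-R) := by
  have h0 : ϖ ≠ 0 := by
    rintro rfl
    rw [map_zero] at hϖ
    exact exp_ne_zero hϖ.symm
  refine ⟨h0, fun R => ?_⟩
  have h1 : vl v ϖ = 1 := (vl_eq_iff h0 1).2 hϖ
  refine (vl_eq_iff (zpow_ne_zero R h0) R).1 ?_
  rw [vl_zpow, h1, mul_one]

theorem exists_vtx (hA : ∀ i k, i ≠ k → A i ≠ A k) (hI : Clu v A I) (h2 : 2 ≤ I.card) :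
    ∃ (a : M) (R : ℤ) (w : Fin m → v.integer), Vtx rs ϖ A I a R w := by
  obtain ⟨hϖ0, hϖR⟩ := ch_pi hϖ
  obtain ⟨i0, hi0⟩ := hI.1
  have hne : (I.erase i0).Nonempty := Finset.card_pos.1 (by
    rw [Finset.card_erase_of_mem hi0]
    omega)
  obtain ⟨i1, hi1, hmin⟩ := Finset.exists_min_image (I.erase i0)
    (fun i => vl v (A i - A i0)) hne
  obtain ⟨hi10, hi1I⟩ := Finset.mem_erase.1 hi1
  obtain ⟨R, hR⟩ : ∃ R, R = vl v (A i1 - A i0) := ⟨_, rfl⟩
  have hsub : ∀ i, i ≠ i0 → A i - A i0 ≠ 0 := fun i hi => sub_ne_zero.2 (hA i i0 hi)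
  have hle : ∀ i ∈ I, v ((A i - A i0) / ϖ ^ R) ≤ 1 := by
    intro i hi
    by_cases h : i = i0
    · rw [h, sub_self, zero_div, map_zero]
      exact zero_le_one
    · rw [map_div₀, hϖR, div_le_one₀ (by exact exp_pos), val_vl (hsub i h), exp_le_exp]
      have := hmin i (Finset.mem_erase.2 ⟨h, hi⟩)
      rw [hR]
      linarith
  obtain ⟨w, hw⟩ : ∃ w : Fin m → v.integer, ∀ i ∈ I, (w i : M) = (A i - A i0) / ϖ ^ R := by
    classical
    refine ⟨fun i => if h : i ∈ I then ⟨(A i - A i0) / ϖ ^ R, hle i h⟩ else 0, fun i hi => ?_⟩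
    simp only [dif_pos hi]
  refine ⟨A i0, R, w, ⟨i0, hi0, rfl⟩, fun i hi => ?_, fun k hk => ?_, i1, hi1I, i0, hi0, ?_⟩
  · rw [hw i hi, div_mul_cancel₀ _ (zpow_ne_zero R hϖ0)]
  · have hk0 : k ≠ i0 := by
      rintro rfl
      exact hk hi0
    refine ⟨hA k i0 hk0, ?_⟩
    have h3 := hI.2 i0 hi0 i1 hi1I k hk
    rw [Valuation.map_sub_swap v (A i0) (A i1), Valuation.map_sub_swap v (A i0) (A k),
      val_vl (hsub i1 hi10), val_vl (hsub k hk0), exp_lt_exp] at h3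
    rw [hR]
    linarith
  · have h3 : w i0 = 0 := by
      apply Subtype.ext
      rw [hw i0 hi0, sub_self, zero_div]
      rfl
    rw [h3, map_zero]
    intro h4
    have h5 := (rs.ker (w i1)).1 h4
    rw [hw i1 hi1I, map_div₀, hϖR, val_vl (hsub i1 hi10), ← hR,
      div_self (exp_ne_zero)] at h5
    exact lt_irrefl _ h5

omit hϖ in
private theorem ch_sub (hV : Vtx rs ϖ A I a R w) {i j : Fin m} (hi : i ∈ I) (hj : j ∈ I) :
    A i - A j = ((w i - w j : v.integer) : M) * ϖ ^ R := by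
  have h1 := hV.eq i hi
  have h2 := hV.eq j hj
  have h3 : ((w i - w j : v.integer) : M) = (w i : M) - (w j : M) := rfl
  rw [h3, sub_mul, h1, h2]
  ring

theorem vtx_lt (hV : Vtx rs ϖ A I a R w) {i j : Fin m} (hi : i ∈ I) (hj : j ∈ I)
    (h : rs.red (w i) = rs.red (w j)) : v (A i - A j) < exp (-R) := by
  obtain ⟨hϖ0, hϖR⟩ := ch_pi hϖ
  have h1 : v ((w i - w j : v.integer) : M) < 1 := (rs.ker _).1 (by
    rw [map_sub, h, sub_self])
  rw [ch_sub rs hV hi hj, map_mul, hϖR]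
  calc v ((w i - w j : v.integer) : M) * exp (-R) < 1 * exp (-R) :=
        (mul_lt_mul_iff_left₀ exp_pos).2 h1
    _ = exp (-R) := one_mul _

theorem vtx_ne (hV : Vtx rs ϖ A I a R w) {i j : Fin m} (hi : i ∈ I) (hj : j ∈ I)
    (h : rs.red (w i) ≠ rs.red (w j)) : v (A i - A j) = exp (-R) ∧
      U.un (A i - A j) = (R : ZMod ℓ) * U.un ϖ + χ.lg (rs.red (w i) - rs.red (w j)) := by
  obtain ⟨hϖ0, hϖR⟩ := ch_pi hϖ
  have h1 : v ((w i - w j : v.integer) : M) = 1 := by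
    refine le_antisymm (w i - w j).2 (not_lt.1 fun h2 => ?_)
    have h3 := (rs.ker _).2 h2
    rw [map_sub] at h3
    exact h (sub_eq_zero.1 h3)
  have h2 : ((w i - w j : v.integer) : M) ≠ 0 := by
    intro h3
    rw [h3, map_zero] at h1
    exact zero_ne_one h1
  rw [ch_sub rs hV hi hj, map_mul, h1, one_mul]
  refine ⟨hϖR R, ?_⟩
  rw [U.mul _ _ h2 (zpow_ne_zero R hϖ0), rs.un _ h1, U.un_zpow hϖ0, map_sub, add_comm]

theorem vtx_out (hV : Vtx rs ϖ A I a R w) {i k : Fin m} (hi : i ∈ I) (hk : k ∉ I) :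
    v ((A k - A i) / (A k - a) - 1) < 1 := by
  obtain ⟨hϖ0, hϖR⟩ := ch_pi hϖ
  obtain ⟨h1, h2⟩ := hV.out k hk
  have h3 : A k - a ≠ 0 := sub_ne_zero.2 h1
  have e : (A k - A i) / (A k - a) - 1 = -((A i - a) / (A k - a)) := by
    rw [div_sub_one h3, ← neg_div]
    congr 1
    ring
  rw [e, Valuation.map_neg, map_div₀, div_lt_one₀ (by
    rw [zero_lt_iff, ne_eq, Valuation.zero_iff]
    exact h3), ← hV.eq i hi, map_mul, hϖR]
  calc v (w i : M) * exp (-R) ≤ 1 * exp (-R) := mul_le_mul_left (w i).2 _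
    _ = exp (-R) := one_mul _
    _ < v (A k - a) := by
        rw [val_vl h3, exp_lt_exp]
        linarith

theorem chd_clu (hI : Clu v A I) (hV : Vtx rs ϖ A I a R w) {t : κ} (ht : t ∈ res rs I w) :
    Clu v A (chd rs I w t) := by
  obtain ⟨j, hjI, hjt⟩ := Finset.mem_image.1 ht
  refine ⟨⟨j, Finset.mem_filter.2 ⟨hjI, hjt⟩⟩, fun i hi i' hi' k hk => ?_⟩
  obtain ⟨h1, h2⟩ := Finset.mem_filter.1 hi
  obtain ⟨h3, h4⟩ := Finset.mem_filter.1 hi'
  by_cases hkI : k ∈ I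
  · rw [(vtx_ne rs hϖ hV h1 hkI (by
      rw [h2]
      exact fun h => hk (Finset.mem_filter.2 ⟨hkI, h.symm⟩))).1]
    exact vtx_lt rs hϖ hV h1 h3 (h2.trans h4.symm)
  · exact hI.2 i h1 i' h3 k hkI

omit hϖ in
theorem chd_card : ∑ t ∈ res rs I w, (chd rs I w t).card = I.card :=
  (Finset.card_eq_sum_card_image (fun i => rs.red (w i)) I).symm

omit hϖ in
theorem res_two (hV : Vtx rs ϖ A I a R w) : 2 ≤ (res rs I w).card := by
  obtain ⟨i, hi, j, hj, hij⟩ := hV.two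
  exact Finset.one_lt_card.2 ⟨_, Finset.mem_image_of_mem _ hi, _, Finset.mem_image_of_mem _ hj,
    hij⟩

omit hϖ in
theorem chd_lt (hV : Vtx rs ϖ A I a R w) (t : κ) : (chd rs I w t).card < I.card := by
  refine Finset.card_lt_card (Finset.filter_ssubset.2 ?_)
  obtain ⟨i, hi, j, hj, hij⟩ := hV.two
  by_cases h : rs.red (w i) = t
  · exact ⟨j, hj, fun h' => hij (h.trans h'.symm)⟩
  · exact ⟨i, hi, h⟩

end Pool.Agent.H94.PN
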