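import Pool.Agent.H94.PN.CH

set_option autoImplicit false

/-!
# [H94 PN CV] Values of a polynomial located at a child; the recursion

`I` a cluster, `t ∈ res`, `J = chd t`, `P` a Mumford polynomial located at `J`, `n = deg P`.
* `loc_up`: `P` is located at `I`: `i ∈ I`, `k ∉ I`: take `j ∈ J`; `P (A k) / (A k - A j) ^ n` is near `1` (`k ∉ J`), and `(A k - A j) / (A k - A i)` is near `1`: the difference to `1` is
  `(A i - A j) / (A k - A i)` and `v (A i - A j) < v (A i - A k)` (`hI.2`).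
* `val_sib`: `i ∈ I`, `red (w i) ≠ t`: `P (A i)` is near `(A i - A j) ^ n`, `j ∈ J`, so `vl = n R`, `un = n (R un ϖ + lg (red (w i) - t))` (`vtx_ne`; `un_congr`, `vl` of a quotient near `1` is `0`, `vl_near`).
* `pr_child`: if the values of `P` on `J` have the class `(x, y)` then for `φ ∈ Ann I`, `σ = sgm φ`:
  `∑ t' ∈ res, t' ≠ t, (σ t').1 (n R) + (σ t').2 n (R un ϖ + lg (t' - t)) + (σ t).1 x + (σ t).2 y = 0`: this is `pr φ (P (A ·)) = 0`, split over the children
  (`Finset.sum_fiberwise_of_maps_to` on `I`; `φ = 0` outside `I`).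
* `rec_card`: `sgm` restricted to `Ann I` has the kernel `K = {φ ∈ Ann I | ∑ i ∈ chd t, φ i = 0 for all t}`, `card (Ann I) = card K * card (image)`.  `K` embeds in `∏ t ∈ res, Ann (chd t)` by `φ ↦ (φ restricted to chd t, 0 outside)`:
  for `φ ∈ K`, `t ∈ res`, `ψ = φ` on `J = chd t`, `0` outside: `∑ ψ = 0`; for `P` located at `J`: `0 = pr φ (P (A ·))` (`loc_up`), and the part of the sum over `chd t'`, `t' ≠ t`, is
  `(∑ i ∈ chd t', (φ i).1) * n R + (∑ (φ i).2) * n (..) = 0` (`val_sib`), so `pr ψ (P (A ·)) = 0`.  Injective since `φ = 0` outside `I = ⋃ chd t`.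
-/

namespace Pool.Agent.H94.PN

open Polynomial WithZero
open Pool.Agent.H94.PL
open Pool.Agent.H94.PM

variable {M : Type} [Field M] {v : Valuation M ℤᵐ⁰} {m : ℕ} {ℓ : ℕ} [hl : Fact ℓ.Prime]
  {U : LU v ℓ} {κ : Type} [Field κ] [DecidableEq κ] {χ : LChar κ ℓ} (rs : Rs v U κ χ) {ϖ : M}
  (hϖ : v ϖ = exp (-1 : ℤ)) {D : M} {A : Fin m → M} {I : Finset (Fin m)} {a : M} {R : ℤ}
  {w : Fin m → v.integer}

private theorem cv_mem {t : κ} {i : Fin m} : i ∈ chd rs I w t ↔ i ∈ I ∧ rs.red (w i) = t :=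
  Finset.mem_filter

private theorem cv_pr {φ : Fin m → ZMod ℓ × ZMod ℓ} (h0 : ∀ k, k ∉ I → φ k = 0)
    (x : Fin m → M) : pr U φ x = ∑ t ∈ res rs I w, ∑ i ∈ chd rs I w t,
      ((φ i).1 * (vl v (x i) : ZMod ℓ) + (φ i).2 * U.un (x i)) := by
  have h := Finset.sum_fiberwise_of_maps_to (s := I) (t := res rs I w)
    (g := fun i => rs.red (w i)) (fun i hi => Finset.mem_image_of_mem _ hi)
    (fun i => (φ i).1 * (vl v (x i) : ZMod ℓ) + (φ i).2 * U.un (x i))
  have h2 : pr U φ x = ∑ i ∈ I, ((φ i).1 * (vl v (x i) : ZMod ℓ) + (φ i).2 * U.un (x i)) := by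
    unfold pr
    symm
    refine Finset.sum_subset (Finset.subset_univ I) fun k _ hk => ?_
    rw [h0 k hk, Prod.fst_zero, Prod.snd_zero, zero_mul, zero_mul, add_zero]
  rw [h2, ← h]
  rfl

/-- the part of a child with constant class -/
private theorem cv_part {φ : Fin m → ZMod ℓ × ZMod ℓ} {x : Fin m → M} {t : κ} {c d : ZMod ℓ}
    (h : ∀ i ∈ chd rs I w t, (vl v (x i) : ZMod ℓ) = c ∧ U.un (x i) = d) :
    ∑ i ∈ chd rs I w t, ((φ i).1 * (vl v (x i) : ZMod ℓ) + (φ i).2 * U.un (x i)) =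
      (sgm rs I w φ t).1 * c + (sgm rs I w φ t).2 * d := by
  show _ = (∑ i ∈ chd rs I w t, φ i).1 * c + (∑ i ∈ chd rs I w t, φ i).2 * d
  rw [Prod.fst_sum, Prod.snd_sum, Finset.sum_mul, Finset.sum_mul, ← Finset.sum_add_distrib]
  refine Finset.sum_congr rfl fun i hi => ?_
  rw [(h i hi).1, (h i hi).2]

include hϖ

theorem loc_up (hI : Clu v A I) (hV : Vtx rs ϖ A I a R w) {t : κ} (ht : t ∈ res rs I w)
    {P : M[X]} (hP : LocP v A (chd rs I w t) P) : LocP v A I P := by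
  intro i hi k hk
  obtain ⟨j, hjI, hjt⟩ := Finset.mem_image.1 ht
  have hj : j ∈ chd rs I w t := (cv_mem rs).2 ⟨hjI, hjt⟩
  have hk' : k ∉ chd rs I w t := fun h => hk ((cv_mem rs).1 h).1
  have h1 := hP j hj k hk'
  have hki : A k - A i ≠ 0 := by
    intro h
    have h2 := hI.2 i hi i hi k hk
    rw [sub_self, map_zero, ← Valuation.map_sub_swap v (A k) (A i), h, map_zero] at h2
    exact lt_irrefl _ h2
  have hkj : A k - A j ≠ 0 := by
    intro h
    have h2 := hI.2 j hjI j hjI k hk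
    rw [sub_self, map_zero, ← Valuation.map_sub_swap v (A k) (A j), h, map_zero] at h2
    exact lt_irrefl _ h2
  have h2 : v ((A k - A j) / (A k - A i) - 1) < 1 := by
    have e : (A k - A j) / (A k - A i) - 1 = (A i - A j) / (A k - A i) := by
      rw [div_sub_one hki]
      congr 1
      ring
    rw [e, map_div₀, div_lt_one₀ (by
      rw [zero_lt_iff, ne_eq, Valuation.zero_iff]
      exact hki)]
    have h3 := hI.2 i hi j hjI k hk
    rwa [Valuation.map_sub_swap v (A i) (A k)] at h3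
  have h3 : ∀ n : ℕ, v (((A k - A j) / (A k - A i)) ^ n - 1) < 1 := by
    intro n
    induction n with
    | zero =>
      rw [pow_zero, sub_self, map_zero]
      exact zero_lt_one
    | succ n ih =>
      rw [pow_succ]
      exact near_mul ih h2
  have h4 := near_mul h1 (h3 P.natDegree)
  have e : eval (A k) P / (A k - A j) ^ P.natDegree *
      ((A k - A j) / (A k - A i)) ^ P.natDegree = eval (A k) P / (A k - A i) ^ P.natDegree := by
    have a1 : (A k - A j) ^ P.natDegree ≠ 0 := pow_ne_zero _ hkj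
    have a2 : (A k - A i) ^ P.natDegree ≠ 0 := pow_ne_zero _ hki
    rw [div_pow]
    field_simp
  rwa [e] at h4

theorem val_sib (hI : Clu v A I) (hV : Vtx rs ϖ A I a R w) {t : κ} (ht : t ∈ res rs I w)
    {P : M[X]} (hP : LocP v A (chd rs I w t) P) (h0 : ∀ k, P.eval (A k) ≠ 0) {i : Fin m}
    (hi : i ∈ I) (hit : rs.red (w i) ≠ t) :
    (vl v (P.eval (A i)) : ZMod ℓ) = (P.natDegree : ZMod ℓ) * (R : ZMod ℓ) ∧
      U.un (P.eval (A i)) = (P.natDegree : ZMod ℓ) *
        ((R : ZMod ℓ) * U.un ϖ + χ.lg (rs.red (w i) - t)) := by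
  obtain ⟨j, hjI, hjt⟩ := Finset.mem_image.1 ht
  have hj : j ∈ chd rs I w t := (cv_mem rs).2 ⟨hjI, hjt⟩
  have hi' : i ∉ chd rs I w t := fun h => hit ((cv_mem rs).1 h).2
  have h1 := hP j hj i hi'
  obtain ⟨h2, h3⟩ := vtx_ne rs hϖ hV hi hjI (by rw [hjt]; exact hit)
  have hij : A i - A j ≠ 0 := by
    intro h
    rw [h, map_zero] at h2
    exact exp_ne_zero h2.symm
  have h4 : vl v (A i - A j) = R := (vl_eq_iff hij R).2 h2
  constructor
  · have h5 := vl_near h1
    rw [vl_div (h0 i) (pow_ne_zero _ hij), vl_pow, h4] at h5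
    rw [sub_eq_zero.1 h5]
    push_cast
    rfl
  · rw [U.un_congr (pow_ne_zero _ hij) h1, U.un_pow hij, h3, hjt]

theorem pr_child (hI : Clu v A I) (hV : Vtx rs ϖ A I a R w) {t : κ} (ht : t ∈ res rs I w)
    {P Q : M[X]} (hM : IsMum ℓ D A P Q) (hP : LocP v A (chd rs I w t) P) {x y : ZMod ℓ}
    (hxy : ∀ i ∈ chd rs I w t, (vl v (P.eval (A i)) : ZMod ℓ) = x ∧ U.un (P.eval (A i)) = y)
    {φ : Fin m → ZMod ℓ × ZMod ℓ} (hφ : φ ∈ Ann U D A I) :
    ∑ t' ∈ (res rs I w).erase t, ((sgm rs I w φ t').1 *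
        ((P.natDegree : ZMod ℓ) * (R : ZMod ℓ)) + (sgm rs I w φ t').2 * ((P.natDegree : ZMod ℓ) *
        ((R : ZMod ℓ) * U.un ϖ + χ.lg (t' - t)))) +
      ((sgm rs I w φ t).1 * x + (sgm rs I w φ t).2 * y) = 0 := by
  obtain ⟨h0, _, h2⟩ := (mem_Ann U).1 hφ
  have h3 := h2 P Q hM (loc_up rs hϖ hI hV ht hP)
  rw [cv_pr rs h0, ← Finset.sum_erase_add _ _ ht] at h3
  rw [← h3]
  congr 1
  · refine Finset.sum_congr rfl fun t' ht' => ?_
    symm
    refine cv_part rs (x := fun k => P.eval (A k)) fun i hi => ?_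
    obtain ⟨hi1, hi2⟩ := (cv_mem rs).1 hi
    have h4 := val_sib rs hϖ hI hV ht hP hM.2.1 hi1 (by
      rw [hi2]
      exact (Finset.mem_erase.1 ht').1)
    rw [hi2] at h4
    exact h4
  · symm
    exact cv_part rs (x := fun k => P.eval (A k)) hxy

omit hϖ in
theorem sgm_sum {φ : Fin m → ZMod ℓ × ZMod ℓ} (hφ : φ ∈ Ann U D A I) :
    ∑ t ∈ res rs I w, sgm rs I w φ t = 0 := by
  obtain ⟨h0, h1, _⟩ := (mem_Ann U).1 hφ
  have h := Finset.sum_fiberwise_of_maps_to (s := I) (t := res rs I w)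
    (g := fun i => rs.red (w i)) (fun i hi => Finset.mem_image_of_mem _ hi) φ
  rw [← h1, ← Finset.sum_subset (Finset.subset_univ I) fun k _ hk => h0 k hk, ← h]
  rfl

omit hϖ in
theorem sgm_out {φ : Fin m → ZMod ℓ × ZMod ℓ} {t : κ} (ht : t ∉ res rs I w) :
    sgm rs I w φ t = 0 := by
  show ∑ i ∈ chd rs I w t, φ i = 0
  refine Finset.sum_eq_zero fun i hi => ?_
  obtain ⟨hi1, hi2⟩ := (cv_mem rs).1 hi
  exact absurd (hi2 ▸ Finset.mem_image_of_mem _ hi1) ht

omit hϖ in
private theorem cv_ker {V W : Type} [AddCommGroup V] [Module (ZMod ℓ) V] [AddCommGroup W]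
    [Module (ZMod ℓ) W] (S : Submodule (ZMod ℓ) V) (g : V →ₗ[ZMod ℓ] W) :
    Nat.card S = Nat.card (LinearMap.ker (g.domRestrict S)) * Nat.card (S.map g) := by
  have h1 := Submodule.card_eq_card_quotient_mul_card (LinearMap.ker (g.domRestrict S))
  have h2 : Nat.card (S ⧸ LinearMap.ker (g.domRestrict S)) = Nat.card (S.map g) := by
    rw [Nat.card_congr (g.domRestrict S).quotKerEquivRange.toEquiv,
      LinearMap.range_domRestrict]
  rw [h1, h2]

theorem rec_card (hI : Clu v A I) (hV : Vtx rs ϖ A I a R w) :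
    Nat.card (Ann U D A I) ≤ (∏ t ∈ res rs I w, Nat.card (Ann U D A (chd rs I w t))) *
      Nat.card ((Ann U D A I).map (sgm rs I w)) := by
  classical
  rw [cv_ker (Ann U D A I) (sgm rs I w)]
  refine Nat.mul_le_mul_right _ ?_
  have hK : ∀ φ : LinearMap.ker ((sgm rs I w).domRestrict (Ann U D A I)), ∀ t : κ,
      sgm rs I w (φ.1.1) t = 0 := fun φ t => congrFun (LinearMap.mem_ker.1 φ.2) t
  have hmem : ∀ (φ : LinearMap.ker ((sgm rs I w).domRestrict (Ann U D A I)))
      (t : res rs I w), (fun k => if k ∈ chd rs I w t.1 then φ.1.1 k else 0) ∈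
        Ann U D A (chd rs I w t.1) := by
    intro φ t
    have hφ := φ.1.2
    obtain ⟨h0, _, h2⟩ := (mem_Ann U).1 hφ
    refine (mem_Ann U).2 ⟨fun k hk => if_neg hk, ?_, fun P Q hM hP => ?_⟩
    · rw [Finset.sum_ite_mem, Finset.univ_inter]
      exact hK φ t.1
    · have h3 := h2 P Q hM (loc_up rs hϖ hI hV t.2 hP)
      rw [cv_pr rs h0, ← Finset.sum_erase_add _ _ t.2] at h3
      have h4 : ∑ t' ∈ (res rs I w).erase t.1, ∑ i ∈ chd rs I w t',
          ((φ.1.1 i).1 * (vl v (P.eval (A i)) : ZMod ℓ) +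
            (φ.1.1 i).2 * U.un (P.eval (A i))) = 0 := by
        refine Finset.sum_eq_zero fun t' ht' => ?_
        rw [cv_part rs (x := fun k => P.eval (A k)) (c := (P.natDegree : ZMod ℓ) * (R : ZMod ℓ))
          (d := (P.natDegree : ZMod ℓ) * ((R : ZMod ℓ) * U.un ϖ + χ.lg (t' - t.1))) (fun i hi => ?_),
          hK φ t', Prod.fst_zero, Prod.snd_zero, zero_mul, zero_mul, add_zero]
        obtain ⟨hi1, hi2⟩ := (cv_mem rs).1 hi
        have h4 := val_sib rs hϖ hI hV t.2 hP hM.2.1 hi1 (by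
          rw [hi2]
          exact (Finset.mem_erase.1 ht').1)
        rw [hi2] at h4
        exact h4
      rw [h4, zero_add] at h3
      rw [← h3]
      unfold pr
      symm
      rw [← Finset.sum_subset (Finset.subset_univ (chd rs I w t.1)) fun k _ hk => ?_]
      · refine Finset.sum_congr rfl fun i hi => ?_
        simp only [if_pos hi]
      · simp only
        rw [if_neg hk, Prod.fst_zero, Prod.snd_zero, zero_mul, zero_mul, add_zero]
  have h5 : Nat.card (LinearMap.ker ((sgm rs I w).domRestrict (Ann U D A I))) ≤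
      Nat.card ((t : res rs I w) → Ann U D A (chd rs I w t.1)) := by
    refine Nat.card_le_card_of_injective (fun φ t => ⟨_, hmem φ t⟩) fun φ ψ h => ?_
    refine Subtype.ext (Subtype.ext (funext fun k => ?_))
    by_cases hk : k ∈ I
    · have ht : rs.red (w k) ∈ res rs I w := Finset.mem_image_of_mem _ hk
      have h6 := congrFun (congrArg Subtype.val (congrFun h ⟨_, ht⟩)) k
      simp only [if_pos ((cv_mem rs).2 ⟨hk, rfl⟩)] at h6
      exact h6
    · rw [((mem_Ann U).1 φ.1.2).1 k hk, ((mem_Ann U).1 ψ.1.2).1 k hk]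
  rw [Nat.card_pi] at h5
  rw [← Finset.prod_coe_sort]
  exact h5

end Pool.Agent.H94.PN
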