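import Pool.Agent.H94.PL.VM
import Pool.Agent.H94.PM.IN

set_option autoImplicit false

/-!
# [H94 PN FF1] Characters of polynomials given by the values at finitely many points

`F` a finite field, `T ⊆ F` finite, `q = card F`.  `hc a b A = ps (a deg A + ∑ t ∈ T, b t * lg (A t))` if `A t ≠ 0` for all `t ∈ T`, and `0` otherwise.

* `hc_CMc`: `A, B` monic: `natDegree_mul`, `eval_mul`, `χ.mul`, `ps_add`; if `(A B) t = 0` then `A t = 0` or `B t = 0`.  `norm_ps`.  `hc 1 = ps 0 = 1` (`lg_one`).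
* `hc_add`: for `A t ≠ 0`: `ps_add`.
* `hc_zero`: `b t₀ ≠ 0` for some `t₀ ∈ T` and `card T ≤ n`: the sum over the monic `A` of degree `n` is `0`.  Take `c : F`, `c ≠ 0`, with `χ.lg c = 1`
  (`χ.surj`).  Let `L` be the polynomial of degree `< card T` with `L t₀ = 1`, `L t = 0` for `t ∈ T`, `t ≠ t₀` (Lagrange; `Lagrange.basis T id t₀`).  The map
  `A ↦ A + C ((c - 1) * A t₀) * L` is a bijection of the monic polynomials of degree `n` (degree of `L` `< card T ≤ n`; inverse with `c⁻¹`, or injective on a finite set), it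
  multiplies `A t₀` by `c` and does not change the other values.  So `∑ hc A = ps (b t₀) * ∑ hc A`, and `ps (b t₀) ≠ 1` (`ps_eq_one_iff`).
* `hc_twist`: `b = 0` on `T`: `hc a b A = ps (a deg A) * hc 0 0 A = ps a ^ n * ..` (`ps_natCast_mul`).
-/

namespace Pool.Agent.H94.PN

open Polynomial
open Pool.Agent.H94.PL
open Pool.Agent.H94.PC (Mo Sq Pr pf om Mn mem_Mo mem_Sq mem_Pr mem_pf mem_pf')

variable {F : Type} [Field F] [Finite F] {ℓ : ℕ} [NeZero ℓ] (χ : LChar F ℓ) (T : Finset F)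

open Classical in
/-- the characters -/
noncomputable def hc (a : ZMod ℓ) (b : F → ZMod ℓ) (A : F[X]) : ℂ :=
  if ∀ t ∈ T, A.eval t ≠ 0 then
    ps (a * (A.natDegree : ZMod ℓ) + ∑ t ∈ T, b t * χ.lg (A.eval t)) else 0

theorem hc_val (a : ZMod ℓ) (b : F → ZMod ℓ) {A : F[X]} (h : ∀ t ∈ T, A.eval t ≠ 0) :
    hc χ T a b A = ps (a * (A.natDegree : ZMod ℓ) + ∑ t ∈ T, b t * χ.lg (A.eval t)) := by
  unfold hc
  rw [if_pos h]

theorem hc_out (a : ZMod ℓ) (b : F → ZMod ℓ) {A : F[X]} (h : ¬ ∀ t ∈ T, A.eval t ≠ 0) :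
    hc χ T a b A = 0 := by
  unfold hc
  rw [if_neg h]

theorem hc_CMc (a : ZMod ℓ) (b : F → ZMod ℓ) : CMc (hc χ T a b) := by
  refine ⟨?_, ?_, ?_⟩
  · rw [hc_val]
    · simp only [natDegree_one, Nat.cast_zero, mul_zero, eval_one, lg_one, Finset.sum_const_zero,
        add_zero]
      exact ps_zero
    · intro t _
      rw [eval_one]
      exact one_ne_zero
  · intro A B hA hB
    by_cases h1 : ∀ t ∈ T, A.eval t ≠ 0
    · by_cases h2 : ∀ t ∈ T, B.eval t ≠ 0
      · rw [hc_val χ T a b h1, hc_val χ T a b h2, hc_val χ T a b (A := A * B), ← ps_add]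
        · congr 1
          rw [natDegree_mul hA.ne_zero hB.ne_zero]
          have h3 : ∑ t ∈ T, b t * χ.lg ((A * B).eval t) =
              ∑ t ∈ T, b t * χ.lg (A.eval t) + ∑ t ∈ T, b t * χ.lg (B.eval t) := by
            rw [← Finset.sum_add_distrib]
            refine Finset.sum_congr rfl fun t ht => ?_
            rw [eval_mul, χ.mul (h1 t ht) (h2 t ht), mul_add]
          rw [h3]
          push_cast
          ring
        · intro t ht
          rw [eval_mul]
          exact mul_ne_zero (h1 t ht) (h2 t ht)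
      · rw [hc_out χ T a b h2, mul_zero, hc_out]
        intro h3
        apply h2
        intro t ht h4
        apply h3 t ht
        rw [eval_mul, h4, mul_zero]
    · rw [hc_out χ T a b h1, zero_mul, hc_out]
      intro h3
      apply h1
      intro t ht h4
      apply h3 t ht
      rw [eval_mul, h4, zero_mul]
  · intro A _
    by_cases h1 : ∀ t ∈ T, A.eval t ≠ 0
    · rw [hc_val χ T a b h1, norm_ps]
    · rw [hc_out χ T a b h1, norm_zero]
      exact zero_le_one

private theorem ff_mem {t₀ : F} (ht₀ : t₀ ∈ T) [DecidableEq F] {n : ℕ} (hn : T.card ≤ n) (x : F)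
    {A : F[X]} (hA : A ∈ Mo F n) : A + C x * Lagrange.basis T id t₀ ∈ Mo F n := by
  obtain ⟨h1, h2⟩ := mem_Mo.1 hA
  have hc : 0 < T.card := Finset.card_pos.2 ⟨t₀, ht₀⟩
  have h3 : (C x * Lagrange.basis T id t₀).degree < A.degree := by
    have h4 : (C x * Lagrange.basis T id t₀).degree ≤ ((T.card - 1 : ℕ) : WithBot ℕ) := by
      have h5 : (C x * Lagrange.basis T id t₀).degree ≤
          (C x).degree + (Lagrange.basis T id t₀).degree := degree_mul_le _ _
      have h6 : (C x).degree + (Lagrange.basis T id t₀).degree ≤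
          0 + (Lagrange.basis T id t₀).degree := by
        gcongr
        exact degree_C_le
      refine (h5.trans h6).trans (le_of_eq ?_)
      rw [zero_add]
      exact Lagrange.degree_basis (Set.injOn_id _) ht₀
    refine lt_of_le_of_lt h4 ?_
    rw [degree_eq_natDegree h1.ne_zero, h2]
    exact_mod_cast (by omega : T.card - 1 < n)
  refine mem_Mo.2 ⟨h1.add_of_left h3, ?_⟩
  rw [natDegree_add_eq_left_of_degree_lt h3, h2]

theorem hc_zero (a : ZMod ℓ) (b : F → ZMod ℓ) (hb : ∃ t ∈ T, b t ≠ 0) {n : ℕ} (hn : T.card ≤ n) :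
    Bs (hc χ T a b) n = 0 := by
  classical
  obtain ⟨t₀, ht₀, hbt⟩ := hb
  obtain ⟨c, hc0, hc1⟩ := χ.surj
  have hL1 : (Lagrange.basis T id t₀).eval t₀ = 1 := Lagrange.eval_basis_self (Set.injOn_id _) ht₀
  have hL0 : ∀ t ∈ T, t ≠ t₀ → (Lagrange.basis T id t₀).eval t = 0 := fun t ht hne =>
    Lagrange.eval_basis_of_ne (v := id) (Ne.symm hne) ht
  set L : F[X] := Lagrange.basis T id t₀ with hL
  have hev : ∀ (x : F) (A : F[X]), (A + C ((x - 1) * A.eval t₀) * L).eval t₀ = x * A.eval t₀ := by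
    intro x A
    rw [eval_add, eval_mul, eval_C, hL1]
    ring
  have hinv : ∀ (x y : F) (A : F[X]), y * x = 1 →
      (A + C ((x - 1) * A.eval t₀) * L) + C ((y - 1) * (A + C ((x - 1) * A.eval t₀) * L).eval t₀) * L
        = A := by
    intro x y A hxy
    rw [hev, add_assoc, ← add_mul, ← C_add]
    have h0 : (x - 1) * A.eval t₀ + (y - 1) * (x * A.eval t₀) = 0 := by
      linear_combination (A.eval t₀) * hxy
    rw [h0, C_0, zero_mul, add_zero]
  have hcc : c⁻¹ * c = 1 := inv_mul_cancel₀ hc0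
  have hcc' : c * c⁻¹ = 1 := mul_inv_cancel₀ hc0
  have hsum : ∑ A ∈ Mo F n, hc χ T a b (A + C ((c - 1) * A.eval t₀) * L) =
      ∑ A ∈ Mo F n, hc χ T a b A := by
    refine Finset.sum_bij' (fun A _ => A + C ((c - 1) * A.eval t₀) * L)
      (fun A _ => A + C ((c⁻¹ - 1) * A.eval t₀) * L) ?_ ?_ ?_ ?_ ?_
    · intro A hA
      exact ff_mem T ht₀ hn _ hA
    · intro A hA
      exact ff_mem T ht₀ hn _ hA
    · intro A _
      exact hinv c c⁻¹ A hcc
    · intro A _
      exact hinv c⁻¹ c A hcc'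
    · intro A _
      rfl
  have hval : ∀ A ∈ Mo F n, hc χ T a b (A + C ((c - 1) * A.eval t₀) * L) =
      ps (b t₀) * hc χ T a b A := by
    intro A hA
    have hM := mem_Mo.1 (ff_mem T ht₀ hn ((c - 1) * A.eval t₀) hA)
    have hM0 := mem_Mo.1 hA
    have hne : ∀ t ∈ T, t ≠ t₀ → (A + C ((c - 1) * A.eval t₀) * L).eval t = A.eval t := by
      intro t ht h1
      rw [eval_add, eval_mul, hL0 t ht h1, mul_zero, add_zero]
    by_cases h1 : ∀ t ∈ T, A.eval t ≠ 0
    · have h2 : ∀ t ∈ T, (A + C ((c - 1) * A.eval t₀) * L).eval t ≠ 0 := by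
        intro t ht
        by_cases h3 : t = t₀
        · rw [h3, hev]
          exact mul_ne_zero hc0 (h1 t₀ ht₀)
        · rw [hne t ht h3]
          exact h1 t ht
      rw [hc_val χ T a b h1, hc_val χ T a b h2, ← ps_add]
      congr 1
      rw [hM.2, hM0.2, ← Finset.add_sum_erase T _ ht₀, ← Finset.add_sum_erase T _ ht₀, hev,
        χ.mul hc0 (h1 t₀ ht₀), hc1]
      have h4 : ∑ t ∈ T.erase t₀, b t * χ.lg ((A + C ((c - 1) * A.eval t₀) * L).eval t) =
          ∑ t ∈ T.erase t₀, b t * χ.lg (A.eval t) := by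
        refine Finset.sum_congr rfl fun t ht => ?_
        rw [hne t (Finset.mem_of_mem_erase ht) (Finset.ne_of_mem_erase ht)]
      rw [h4]
      ring
    · rw [hc_out χ T a b h1, mul_zero, hc_out]
      intro h2
      apply h1
      intro t ht h3
      apply h2 t ht
      by_cases h4 : t = t₀
      · rw [h4, hev, ← h4, h3, mul_zero]
      · rw [hne t ht h4, h3]
  unfold Bs
  rw [Finset.sum_congr rfl hval, ← Finset.mul_sum] at hsum
  have h5 : (ps (b t₀) - 1) * ∑ A ∈ Mo F n, hc χ T a b A = 0 := by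
    rw [sub_mul, one_mul, hsum, sub_self]
  rcases mul_eq_zero.1 h5 with h6 | h6
  · exact absurd (ps_eq_one_iff.1 (sub_eq_zero.1 h6)) hbt
  · exact h6

theorem hc_twist (a : ZMod ℓ) (b : F → ZMod ℓ) (hb : ∀ t ∈ T, b t = 0) (n : ℕ) :
    Bs (hc χ T a b) n = ps a ^ n * Bs (hc χ T 0 0) n := by
  unfold Bs
  rw [Finset.mul_sum]
  refine Finset.sum_congr rfl fun A hA => ?_
  obtain ⟨-, h2⟩ := mem_Mo.1 hA
  by_cases h1 : ∀ t ∈ T, A.eval t ≠ 0
  · rw [hc_val χ T a b h1, hc_val χ T 0 0 h1, ← ps_natCast_mul, ← ps_add]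
    congr 1
    have h3 : ∑ t ∈ T, b t * χ.lg (A.eval t) = 0 :=
      Finset.sum_eq_zero fun t ht => by rw [hb t ht, zero_mul]
    rw [h2, h3]
    simp only [Pi.zero_apply, zero_mul, Finset.sum_const_zero]
    ring
  · rw [hc_out χ T a b h1, hc_out χ T 0 0 h1, mul_zero]

end Pool.Agent.H94.PN
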