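import Pool.Agent.H94.PN.FF1

set_option autoImplicit false

/-!
# [H94 PN FF2] Power series of the characters: identities

`gf θ = ∑ n, Bs θ n X ^ n` in `PowerSeries ℂ`, `eu f = X * f'` (as in `PL.Cmp`, where `eu`, `gB`, `gL` are private: copy `eu_mul`, `coeff_eu`, `eu_gB`; `PL.vm_rec` gives
`eu (gf θ) = gl θ * gf θ`, `gl θ = ∑ n, Ls θ n X ^ n`, `Ls θ n = ∑ d ∣ n, ∑ P ∈ Pr d, d * θ P ^ (n / d)`, `Ls θ 0 = 0`).
Uniqueness: if `eu f = c * f`, `eu g = c * g`, `coeff 0 c = 0`, and `f`, `g` have the same coefficient at `0`, then `f = g` (strong induction: `n f_n = ∑ i ∈ Icc 1 n, c_i f_{n-i}`).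
* `gf_one`: `(1 - q X) * gf (hc 0 0) = (1 - X) ^ card T`, `q = card F`.  `(1 - X) * gf_{T} = gf_{T ∪ t}`-type induction, or directly by uniqueness: `Bs (fun _ => 1) n = q ^ n` (`card_Mo` of `PC`), so
  `(1 - q X) * gf (fun _ => 1) = 1`, and `gf (hc 0 0) = (1 - X) ^ card T * gf (fun _ => 1)`: both have constant coefficient `1` and for `n ≥ 1`
  `Ls (hc 0 0) n = Ls 1 n - card T` (the polynomials `P` monic irreducible with `P t = 0` for some `t ∈ T` are the `X - C t`, `t ∈ T`, of degree `1`, each contributes `1` to `Ls 1 n` and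
  `0` to `Ls (hc 0 0) n`; for the others `hc 0 0 P = 1`), `eu ((1 - X) ^ k) = - k X (1 - X) ^ (k - 1) = - k (∑ n ≥ 1, X ^ n) (1 - X) ^ k`.
* `gf_pos`: `G = ∏ i : ZMod ℓ, gf (hc (i a) (i b))` (`i b = fun t => i * b t`).  `eu G = c * G`, `c n = ∑ i, Ls (hc (i a) (i b)) n = ∑ d ∣ n, ∑ P ∈ Pr d, d * ∑ i, hc (i a) (i b) P ^ (n / d)`.
  For `P` with `P t ≠ 0` on `T`, with `x = a deg P + ∑ b t lg (P t)`: `∑ i, hc (i a) (i b) P ^ e = ∑ i, ps (i * (e x)) = ℓ` or `0` (`sum_ps_mul`), for the other `P` it is `0` (`e ≥ 1`).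
  So all `c n` are real `≥ 0`, and all coefficients of `G` are real `≥ 0` (`r 0 = 1`, `n r_n = ∑ c_i r_{n-i}`).  Let `P₀` be monic irreducible of degree `≥ 2` (exists: e.g.
  a finite field has irreducible polynomials of degree `2`, or `Irreducible` factors of large degree by counting; then `P₀ t ≠ 0` for all `t`), `d₀ = deg P₀`: for `n = ℓ d₀ j`, `j ≥ 1`, the term of `P₀`
  (`e = ℓ j`, `e x = 0`) gives `c n ≥ ℓ d₀ > 0`, so `n r_n ≥ c_n r_0 > 0`.  So infinitely many coefficients of `G` are nonzero.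
* `gf_prod`: hypothesis: for `P` monic irreducible with `P t ≠ 0` on `T`: `a₀ deg P + ∑ b₀ t lg (P t) = 0 → a₁ deg P + ∑ b₁ t lg (P t) = 0`.  Then
  `∏ i, ∏ k, gf (hc (i a₀ + k a₁) (i b₀ + k b₁)) = (∏ i, gf (hc (i a₀) (i b₀))) ^ ℓ`.  By uniqueness it is enough that for each `P` and `e ≥ 1`:
  `∑ i, ∑ k, hc (i a₀ + k a₁) (i b₀ + k b₁) P ^ e = ℓ * ∑ i, hc (i a₀) (i b₀) P ^ e`: with `x`, `y` the two exponents the left side is
  `(∑ i, ps (i (e x))) (∑ k, ps (k (e y)))`; if `e = 0` in `ZMod ℓ` both sides are `ℓ ^ 2`; otherwise `e x = 0 ↔ x = 0`, and `x = 0 → y = 0`.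
  (`ℓ` is prime here.)
-/

namespace Pool.Agent.H94.PN

open Polynomial
open Pool.Agent.H94.PL
open Pool.Agent.H94.PC (Mo Sq Pr pf om Mn mem_Mo mem_Sq mem_Pr mem_pf mem_pf')

/-- the generating series -/
noncomputable def gf {F : Type} [Field F] [Finite F] (θ : F[X] → ℂ) : PowerSeries ℂ :=
  PowerSeries.mk fun n => Bs θ n

/-! ### The Euler derivation -/

private noncomputable def eu (f : PowerSeries ℂ) : PowerSeries ℂ :=
  PowerSeries.X * PowerSeries.derivative ℂ f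

private theorem eu_mul (f g : PowerSeries ℂ) : eu (f * g) = eu f * g + f * eu g := by
  unfold eu
  rw [Derivation.leibniz, smul_eq_mul, smul_eq_mul]
  ring

private theorem coeff_eu (f : PowerSeries ℂ) (j : ℕ) :
    PowerSeries.coeff j (eu f) = (j : ℂ) * PowerSeries.coeff j f := by
  unfold eu
  cases j with
  | zero => simp
  | succ n =>
    rw [PowerSeries.coeff_succ_X_mul, PowerSeries.coeff_derivative]
    push_cast
    ring

private theorem coeff_mul_Icc (f g : PowerSeries ℂ) (hf : PowerSeries.coeff 0 f = 0) (j : ℕ) :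
    PowerSeries.coeff j (f * g) =
      ∑ i ∈ Finset.Icc 1 j, PowerSeries.coeff i f * PowerSeries.coeff (j - i) g := by
  rw [PowerSeries.coeff_mul, Finset.Nat.sum_antidiagonal_eq_sum_range_succ
    (fun a b => PowerSeries.coeff a f * PowerSeries.coeff b g), Finset.range_eq_Ico,
    Finset.sum_eq_sum_Ico_succ_bot (Nat.succ_pos j), hf, zero_mul, zero_add]
  rfl

private theorem eu_uniq {c f g : PowerSeries ℂ} (hc : PowerSeries.coeff 0 c = 0)
    (hf : eu f = c * f) (hg : eu g = c * g)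
    (h0 : PowerSeries.coeff 0 f = PowerSeries.coeff 0 g) : f = g := by
  ext n
  induction n using Nat.strong_induction_on with
  | _ n ih =>
    rcases Nat.eq_zero_or_pos n with rfl | hn
    · exact h0
    · have h1 := congrArg (PowerSeries.coeff n) hf
      have h2 := congrArg (PowerSeries.coeff n) hg
      rw [coeff_eu, coeff_mul_Icc _ _ hc] at h1 h2
      have h3 : ∑ i ∈ Finset.Icc 1 n, PowerSeries.coeff i c * PowerSeries.coeff (n - i) f =
          ∑ i ∈ Finset.Icc 1 n, PowerSeries.coeff i c * PowerSeries.coeff (n - i) g := by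
        refine Finset.sum_congr rfl fun i hi => ?_
        rw [Finset.mem_Icc] at hi
        rw [ih (n - i) (by omega)]
      have h4 : (n : ℂ) ≠ 0 := by exact_mod_cast hn.ne'
      exact mul_left_cancel₀ h4 (by rw [h1, h2, h3])

private theorem eu_prod {ι : Type} (s : Finset ι) (f c : ι → PowerSeries ℂ)
    (h : ∀ i ∈ s, eu (f i) = c i * f i) :
    eu (∏ i ∈ s, f i) = (∑ i ∈ s, c i) * ∏ i ∈ s, f i := by
  classical
  induction s using Finset.induction_on with
  | empty =>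
    rw [Finset.prod_empty, Finset.sum_empty, zero_mul]
    unfold eu
    rw [Derivation.map_one_eq_zero, mul_zero]
  | insert i s hi ih =>
    rw [Finset.prod_insert hi, Finset.sum_insert hi, eu_mul, h i (Finset.mem_insert_self i s),
      ih fun k hk => h k (Finset.mem_insert_of_mem hk)]
    ring

private theorem eu_pow (f c : PowerSeries ℂ) (h : eu f = c * f) (k : ℕ) :
    eu (f ^ k) = ((k : PowerSeries ℂ) * c) * f ^ k := by
  have h1 := eu_prod (Finset.range k) (fun _ => f) (fun _ => c) (fun _ _ => h)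
  rw [Finset.prod_const, Finset.sum_const, Finset.card_range, nsmul_eq_mul] at h1
  exact h1

section
variable {F : Type} [Field F] [Finite F]

private noncomputable def gl (θ : F[X] → ℂ) : PowerSeries ℂ := PowerSeries.mk fun j => Ls θ j

private theorem gl_zero (θ : F[X] → ℂ) : PowerSeries.coeff 0 (gl θ) = 0 := by
  unfold gl Ls
  rw [PowerSeries.coeff_mk, Nat.divisors_zero, Finset.sum_empty]

private theorem eu_gf {θ : F[X] → ℂ} (h : CMc θ) : eu (gf θ) = gl θ * gf θ := by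
  ext j
  rw [coeff_eu, coeff_mul_Icc _ _ (gl_zero θ)]
  unfold gl gf
  rw [PowerSeries.coeff_mk, vm_rec h]
  refine Finset.sum_congr rfl fun i _ => ?_
  rw [PowerSeries.coeff_mk, PowerSeries.coeff_mk]

private theorem gf_zero {θ : F[X] → ℂ} (h : CMc θ) : PowerSeries.coeff 0 (gf θ) = 1 := by
  have h1 : Mo F 0 = {1} := by
    ext f
    rw [mem_Mo, Finset.mem_singleton]
    constructor
    · rintro ⟨h1, h2⟩
      exact h1.natDegree_eq_zero.1 h2
    · rintro rfl
      exact ⟨monic_one, natDegree_one⟩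
  unfold gf Bs
  rw [PowerSeries.coeff_mk, h1, Finset.sum_singleton, h.one]

private theorem coeff_sum_gl {ι : Type} (s : Finset ι) (θ : ι → F[X] → ℂ) (n : ℕ) :
    PowerSeries.coeff n (∑ i ∈ s, gl (θ i)) =
      ∑ d ∈ n.divisors, ∑ P ∈ Pr F d, (d : ℂ) * ∑ i ∈ s, θ i P ^ (n / d) := by
  rw [map_sum]
  unfold gl Ls
  simp only [PowerSeries.coeff_mk]
  rw [Finset.sum_comm]
  refine Finset.sum_congr rfl fun d _ => ?_
  rw [Finset.sum_comm]
  refine Finset.sum_congr rfl fun P _ => ?_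
  rw [Finset.mul_sum]

private theorem gf_const :
    (1 - PowerSeries.C (Nat.card F : ℂ) * PowerSeries.X) * gf (fun _ : F[X] => (1 : ℂ)) = 1 := by
  have hB : ∀ n, Bs (fun _ : F[X] => (1 : ℂ)) n = (Nat.card F : ℂ) ^ n := by
    intro n
    unfold Bs
    rw [Finset.sum_const, PC.card_Mo, nsmul_eq_mul, mul_one]
    push_cast
    rfl
  ext n
  rw [sub_mul, one_mul, mul_assoc, map_sub, PowerSeries.coeff_C_mul]
  unfold gf
  cases n with
  | zero =>
    rw [PowerSeries.coeff_zero_X_mul, PowerSeries.coeff_mk, hB, mul_zero, sub_zero, pow_zero,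
      PowerSeries.coeff_one, if_pos rfl]
  | succ n =>
    rw [PowerSeries.coeff_succ_X_mul, PowerSeries.coeff_mk, PowerSeries.coeff_mk, hB, hB,
      PowerSeries.coeff_one, if_neg (Nat.succ_ne_zero n), pow_succ]
    ring

/-- there is a monic irreducible polynomial without zeros in `F` -/
private theorem exists_irr : ∃ P : F[X], P.Monic ∧ Irreducible P ∧ ∀ t : F, P.eval t ≠ 0 := by
  have hfin : (Set.range (algebraMap F (AlgebraicClosure F))).Finite := Set.finite_range _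
  obtain ⟨x, hx⟩ := hfin.exists_notMem
  have hi : IsIntegral F x := (AlgebraicClosure.isAlgebraic F).isAlgebraic x |>.isIntegral
  refine ⟨minpoly F x, minpoly.monic hi, minpoly.irreducible hi, fun t ht => hx ?_⟩
  have h1 := degree_eq_one_of_irreducible_of_root (minpoly.irreducible hi) ht
  have h2 : (minpoly F x).natDegree = 1 := natDegree_eq_of_degree_eq_some h1
  rw [minpoly.natDegree_eq_one_iff] at h2
  exact h2

end

variable {F : Type} [Field F] [Finite F] {ℓ : ℕ} [hl : Fact ℓ.Prime] (χ : LChar F ℓ) (T : Finset F)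

private noncomputable def xv (a : ZMod ℓ) (b : F → ZMod ℓ) (P : F[X]) : ZMod ℓ :=
  a * (P.natDegree : ZMod ℓ) + ∑ t ∈ T, b t * χ.lg (P.eval t)

private theorem hc_lin (a : ZMod ℓ) (b : F → ZMod ℓ) (i : ZMod ℓ) {P : F[X]}
    (h : ∀ t ∈ T, P.eval t ≠ 0) (e : ℕ) :
    hc χ T (i * a) (fun t => i * b t) P ^ e = ps (i * ((e : ZMod ℓ) * xv χ T a b P)) := by
  rw [hc_val χ T _ _ h, ← ps_natCast_mul]
  congr 1
  unfold xv
  have h1 : ∑ t ∈ T, i * b t * χ.lg (P.eval t) = i * ∑ t ∈ T, b t * χ.lg (P.eval t) := by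
    rw [Finset.mul_sum]
    refine Finset.sum_congr rfl fun t _ => ?_
    ring
  rw [h1]
  ring

private theorem hc_lin2 (a₀ a₁ : ZMod ℓ) (b₀ b₁ : F → ZMod ℓ) (i k : ZMod ℓ) {P : F[X]}
    (h : ∀ t ∈ T, P.eval t ≠ 0) (e : ℕ) :
    hc χ T (i * a₀ + k * a₁) (fun t => i * b₀ t + k * b₁ t) P ^ e =
      ps (i * ((e : ZMod ℓ) * xv χ T a₀ b₀ P)) * ps (k * ((e : ZMod ℓ) * xv χ T a₁ b₁ P)) := by
  rw [hc_val χ T _ _ h, ← ps_natCast_mul, ← ps_add]
  congr 1
  unfold xv
  have h1 : ∑ t ∈ T, (i * b₀ t + k * b₁ t) * χ.lg (P.eval t) =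
      i * ∑ t ∈ T, b₀ t * χ.lg (P.eval t) + k * ∑ t ∈ T, b₁ t * χ.lg (P.eval t) := by
    rw [Finset.mul_sum, Finset.mul_sum, ← Finset.sum_add_distrib]
    refine Finset.sum_congr rfl fun t _ => ?_
    ring
  rw [h1]
  ring

open Classical in
private theorem sum_hc (a : ZMod ℓ) (b : F → ZMod ℓ) (P : F[X]) (e : ℕ) (he : e ≠ 0) :
    ∑ i : ZMod ℓ, hc χ T (i * a) (fun t => i * b t) P ^ e =
      (((if (∀ t ∈ T, P.eval t ≠ 0) ∧ (e : ZMod ℓ) * xv χ T a b P = 0 then (ℓ : ℝ) else 0 : ℝ)) : ℂ) := by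
  by_cases h : ∀ t ∈ T, P.eval t ≠ 0
  · rw [Finset.sum_congr rfl fun i _ => hc_lin χ T a b i h e, sum_ps_mul]
    by_cases h1 : (e : ZMod ℓ) * xv χ T a b P = 0
    · rw [if_pos h1, if_pos ⟨h, h1⟩]
      push_cast
      rfl
    · rw [if_neg h1, if_neg fun hh => h1 hh.2]
      push_cast
      rfl
  · rw [if_neg fun hh => h hh.1]
    push_cast
    refine Finset.sum_eq_zero fun i _ => ?_
    rw [hc_out χ T _ _ h, zero_pow he]

private theorem sum_hc2 (a₀ a₁ : ZMod ℓ) (b₀ b₁ : F → ZMod ℓ) (P : F[X]) (e : ℕ) (he : e ≠ 0)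
    (h : (∀ t ∈ T, P.eval t ≠ 0) → xv χ T a₀ b₀ P = 0 → xv χ T a₁ b₁ P = 0) :
    ∑ i : ZMod ℓ, ∑ k : ZMod ℓ, hc χ T (i * a₀ + k * a₁) (fun t => i * b₀ t + k * b₁ t) P ^ e =
      (ℓ : ℂ) * ∑ i : ZMod ℓ, hc χ T (i * a₀) (fun t => i * b₀ t) P ^ e := by
  by_cases hn : ∀ t ∈ T, P.eval t ≠ 0
  · have h1 : ∀ i : ZMod ℓ, ∑ k : ZMod ℓ, hc χ T (i * a₀ + k * a₁)
        (fun t => i * b₀ t + k * b₁ t) P ^ e =
        ps (i * ((e : ZMod ℓ) * xv χ T a₀ b₀ P)) *
          ∑ k : ZMod ℓ, ps (k * ((e : ZMod ℓ) * xv χ T a₁ b₁ P)) := by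
      intro i
      rw [Finset.mul_sum]
      exact Finset.sum_congr rfl fun k _ => hc_lin2 χ T a₀ a₁ b₀ b₁ i k hn e
    rw [Finset.sum_congr rfl fun i _ => h1 i, ← Finset.sum_mul,
      Finset.sum_congr rfl fun i _ => hc_lin χ T a₀ b₀ i hn e, sum_ps_mul, sum_ps_mul]
    by_cases h2 : (e : ZMod ℓ) * xv χ T a₀ b₀ P = 0
    · have h3 : (e : ZMod ℓ) * xv χ T a₁ b₁ P = 0 := by
        rcases mul_eq_zero.1 h2 with h4 | h4
        · rw [h4, zero_mul]
        · rw [h hn h4, mul_zero]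
      rw [if_pos h2, if_pos h3]
    · rw [if_neg h2, zero_mul, mul_zero]
  · rw [Finset.sum_eq_zero, Finset.sum_eq_zero, mul_zero]
    · intro i _
      rw [hc_out χ T _ _ hn, zero_pow he]
    · intro i _
      refine Finset.sum_eq_zero fun k _ => ?_
      rw [hc_out χ T _ _ hn, zero_pow he]

private theorem hc00 {P : F[X]} (h : ∀ t ∈ T, P.eval t ≠ 0) : hc χ T 0 0 P = 1 := by
  rw [hc_val χ T 0 0 h]
  simp only [Pi.zero_apply, zero_mul, Finset.sum_const_zero, add_zero]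
  exact ps_zero

private theorem card_lin (n d : ℕ) (hn : n ≠ 0) (hd : d ∈ n.divisors) :
    ∑ P ∈ Pr F d, ((1 : ℂ) - hc χ T 0 0 P ^ (n / d)) = if d = 1 then (T.card : ℂ) else 0 := by
  classical
  have hd' := Nat.mem_divisors.1 hd
  have he : n / d ≠ 0 := (Nat.div_pos (Nat.le_of_dvd (Nat.pos_of_ne_zero hn) hd'.1)
    (Nat.pos_of_mem_divisors hd)).ne'
  have h1 : ∀ P ∈ Pr F d, ((1 : ℂ) - hc χ T 0 0 P ^ (n / d)) =
      if ∀ t ∈ T, P.eval t ≠ 0 then 0 else 1 := by
    intro P _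
    by_cases h : ∀ t ∈ T, P.eval t ≠ 0
    · rw [if_pos h, hc00 χ T h, one_pow, sub_self]
    · rw [if_neg h, hc_out χ T _ _ h, zero_pow he, sub_zero]
  rw [Finset.sum_congr rfl h1]
  by_cases hd1 : d = 1
  · subst hd1
    rw [if_pos rfl]
    have h2 : ∑ P ∈ Pr F 1, (if ∀ t ∈ T, P.eval t ≠ 0 then (0 : ℂ) else 1) =
        ∑ P ∈ (Pr F 1).filter (fun P => ¬ ∀ t ∈ T, P.eval t ≠ 0), (1 : ℂ) := by
      rw [Finset.sum_filter]
      refine Finset.sum_congr rfl fun P _ => ?_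
      by_cases h : ∀ t ∈ T, P.eval t ≠ 0
      · rw [if_pos h, if_neg (not_not.2 h)]
      · rw [if_neg h, if_pos h]
    have h3 : (Pr F 1).filter (fun P => ¬ ∀ t ∈ T, P.eval t ≠ 0) = T.image (fun t => X - C t) := by
      ext P
      rw [Finset.mem_filter, Finset.mem_image, mem_Pr]
      constructor
      · rintro ⟨⟨hm, hdeg, hi⟩, h4⟩
        push Not at h4
        obtain ⟨t, ht, h5⟩ := h4
        refine ⟨t, ht, ?_⟩
        have h6 : (X - C t) ∣ P := dvd_iff_isRoot.2 h5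
        exact eq_of_monic_of_associated (monic_X_sub_C t) hm
          ((irreducible_X_sub_C t).associated_of_dvd hi h6)
      · rintro ⟨t, ht, rfl⟩
        refine ⟨⟨monic_X_sub_C t, natDegree_X_sub_C t, irreducible_X_sub_C t⟩, fun h4 => ?_⟩
        apply h4 t ht
        rw [eval_sub, eval_X, eval_C, sub_self]
    rw [h2, h3, Finset.sum_const, nsmul_eq_mul, mul_one, Finset.card_image_of_injective]
    intro t u htu
    exact C_injective (sub_right_injective htu)
  · rw [if_neg hd1]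
    refine Finset.sum_eq_zero fun P hP => ?_
    rw [if_pos]
    intro t _ h4
    obtain ⟨hm, hdeg, hi⟩ := mem_Pr.1 hP
    have h5 := degree_eq_one_of_irreducible_of_root hi h4
    have h6 : P.natDegree = 1 := natDegree_eq_of_degree_eq_some h5
    rw [hdeg] at h6
    exact hd1 h6

theorem gf_one : (1 - PowerSeries.C (Nat.card F : ℂ) * PowerSeries.X) * gf (hc χ T 0 0) =
    (1 - PowerSeries.X) ^ T.card := by
  set S : PowerSeries ℂ := PowerSeries.mk fun n => if n = 0 then 0 else 1 with hS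
  have hS1 : S * (1 - PowerSeries.X) = PowerSeries.X := by
    ext n
    rw [mul_sub, mul_one, map_sub, mul_comm S]
    cases n with
    | zero =>
      rw [PowerSeries.coeff_zero_X_mul, hS, PowerSeries.coeff_mk, if_pos rfl,
        PowerSeries.coeff_zero_X, sub_zero]
    | succ n =>
      rw [PowerSeries.coeff_succ_X_mul, hS, PowerSeries.coeff_mk, PowerSeries.coeff_mk,
        if_neg (Nat.succ_ne_zero n), PowerSeries.coeff_X]
      cases n with
      | zero => simp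
      | succ n => simp
  have hX : eu (1 - PowerSeries.X) = (-S) * (1 - PowerSeries.X) := by
    rw [neg_mul, hS1]
    unfold eu
    rw [map_sub, Derivation.map_one_eq_zero, PowerSeries.derivative_X]
    ring
  have hk := eu_pow _ _ hX T.card
  have h1 := eu_gf (F := F) CMc.const
  have h2 : eu ((1 - PowerSeries.X) ^ T.card * gf (fun _ : F[X] => (1 : ℂ))) =
      (gl (fun _ : F[X] => (1 : ℂ)) - (T.card : PowerSeries ℂ) * S) *
        ((1 - PowerSeries.X) ^ T.card * gf (fun _ : F[X] => (1 : ℂ))) := by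
    rw [eu_mul, hk, h1]
    ring
  have hcm : CMc (hc χ T 0 0) := hc_CMc χ T 0 0
  have h3 := eu_gf hcm
  have h4 : gl (hc χ T 0 0) = gl (fun _ : F[X] => (1 : ℂ)) - (T.card : PowerSeries ℂ) * S := by
    ext n
    rw [map_sub, ← map_natCast (PowerSeries.C (R := ℂ)) T.card, PowerSeries.coeff_C_mul, hS,
      PowerSeries.coeff_mk]
    by_cases hn : n = 0
    · subst hn
      rw [gl_zero, gl_zero, if_pos rfl]
      ring
    · rw [if_neg hn, mul_one]
      have h5 : ∑ d ∈ n.divisors, ∑ P ∈ Pr F d, (d : ℂ) * ((1 : ℂ) - hc χ T 0 0 P ^ (n / d)) =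
          (T.card : ℂ) := by
        have h6 : ∀ d ∈ n.divisors, ∑ P ∈ Pr F d, (d : ℂ) * ((1 : ℂ) - hc χ T 0 0 P ^ (n / d)) =
            if d = 1 then (T.card : ℂ) else 0 := by
          intro d hd
          rw [← Finset.mul_sum, card_lin χ T n d hn hd]
          by_cases hd1 : d = 1
          · rw [if_pos hd1, hd1, Nat.cast_one, one_mul]
          · rw [if_neg hd1, mul_zero]
        rw [Finset.sum_congr rfl h6, Finset.sum_ite_eq', if_pos (Nat.one_mem_divisors.2 hn)]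
      unfold gl Ls
      rw [PowerSeries.coeff_mk, PowerSeries.coeff_mk, ← h5, ← Finset.sum_sub_distrib]
      refine Finset.sum_congr rfl fun d _ => ?_
      rw [← Finset.sum_sub_distrib]
      refine Finset.sum_congr rfl fun P _ => ?_
      rw [one_pow]
      ring
  rw [h4] at h3
  have h5 : gf (hc χ T 0 0) = (1 - PowerSeries.X) ^ T.card * gf (fun _ : F[X] => (1 : ℂ)) := by
    refine eu_uniq ?_ h3 h2 ?_
    · rw [← h4, gl_zero]
    · rw [gf_zero hcm, PowerSeries.coeff_zero_eq_constantCoeff, map_mul, map_pow, map_sub, map_one,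
        PowerSeries.constantCoeff_X, sub_zero, one_pow, one_mul,
        ← PowerSeries.coeff_zero_eq_constantCoeff_apply, gf_zero CMc.const]
  rw [h5, mul_left_comm, gf_const, mul_one]

theorem gf_pos (a : ZMod ℓ) (b : F → ZMod ℓ) (N : ℕ) : ∃ n, N ≤ n ∧
    PowerSeries.coeff n (∏ i : ZMod ℓ, gf (hc χ T (i * a) (fun t => i * b t))) ≠ 0 := by
  classical
  set G : PowerSeries ℂ := ∏ i : ZMod ℓ, gf (hc χ T (i * a) (fun t => i * b t)) with hG
  have hcm : ∀ i : ZMod ℓ, CMc (hc χ T (i * a) (fun t => i * b t)) := fun i => hc_CMc χ T _ _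
  set c : PowerSeries ℂ := ∑ i : ZMod ℓ, gl (hc χ T (i * a) (fun t => i * b t)) with hc'
  have hc0 : PowerSeries.coeff 0 c = 0 := by
    rw [hc', map_sum]
    exact Finset.sum_eq_zero fun i _ => gl_zero _
  have hG0 : PowerSeries.coeff 0 G = 1 := by
    rw [hG, PowerSeries.coeff_zero_eq_constantCoeff, map_prod]
    refine Finset.prod_eq_one fun i _ => ?_
    rw [← PowerSeries.coeff_zero_eq_constantCoeff_apply, gf_zero (hcm i)]
  have hGe : eu G = c * G := eu_prod Finset.univ _ _ fun i _ => eu_gf (hcm i)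
  set cN : ℕ → ℝ := fun n => ∑ d ∈ n.divisors, ∑ P ∈ Pr F d, (d : ℝ) *
    (if (∀ t ∈ T, P.eval t ≠ 0) ∧ ((n / d : ℕ) : ZMod ℓ) * xv χ T a b P = 0 then (ℓ : ℝ) else 0)
    with hcN
  have hterm : ∀ (n d : ℕ) (P : F[X]), 0 ≤ (d : ℝ) *
    (if (∀ t ∈ T, P.eval t ≠ 0) ∧ ((n / d : ℕ) : ZMod ℓ) * xv χ T a b P = 0 then (ℓ : ℝ) else 0) := by
    intro n d P
    split_ifs
    · positivity
    · rw [mul_zero]
  have hcN0 : ∀ n, 0 ≤ cN n := fun n =>
    Finset.sum_nonneg fun d _ => Finset.sum_nonneg fun P _ => hterm n d P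
  have hcc : ∀ n, PowerSeries.coeff n c = (cN n : ℂ) := by
    intro n
    rw [hc', coeff_sum_gl, hcN]
    push_cast
    refine Finset.sum_congr rfl fun d hd => ?_
    refine Finset.sum_congr rfl fun P _ => ?_
    have hd' := Nat.mem_divisors.1 hd
    have he : n / d ≠ 0 := (Nat.div_pos (Nat.le_of_dvd (Nat.pos_of_ne_zero hd'.2) hd'.1)
      (Nat.pos_of_mem_divisors hd)).ne'
    rw [sum_hc χ T a b P (n / d) he]
  have hrec : ∀ n : ℕ, (n : ℂ) * PowerSeries.coeff n G =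
      ∑ i ∈ Finset.Icc 1 n, (cN i : ℂ) * PowerSeries.coeff (n - i) G := by
    intro n
    have h1 := congrArg (PowerSeries.coeff n) hGe
    rw [coeff_eu, coeff_mul_Icc _ _ hc0] at h1
    rw [h1]
    refine Finset.sum_congr rfl fun i _ => ?_
    rw [hcc]
  have hreal : ∀ n : ℕ, PowerSeries.coeff n G = ((PowerSeries.coeff n G).re : ℂ) ∧
      0 ≤ (PowerSeries.coeff n G).re := by
    intro n
    induction n using Nat.strong_induction_on with
    | _ n ih =>
      rcases Nat.eq_zero_or_pos n with rfl | hn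
      · rw [hG0]
        simp
      · have h1 : (n : ℂ) * PowerSeries.coeff n G =
            ((∑ i ∈ Finset.Icc 1 n, cN i * (PowerSeries.coeff (n - i) G).re : ℝ) : ℂ) := by
          rw [hrec n]
          push_cast
          refine Finset.sum_congr rfl fun i hi => ?_
          rw [Finset.mem_Icc] at hi
          rw [← (ih (n - i) (by omega)).1]
        have hS : 0 ≤ ∑ i ∈ Finset.Icc 1 n, cN i * (PowerSeries.coeff (n - i) G).re := by
          refine Finset.sum_nonneg fun i hi => ?_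
          rw [Finset.mem_Icc] at hi
          exact mul_nonneg (hcN0 i) (ih (n - i) (by omega)).2
        have hn0 : (n : ℂ) ≠ 0 := by exact_mod_cast hn.ne'
        have h2 : PowerSeries.coeff n G =
            (((∑ i ∈ Finset.Icc 1 n, cN i * (PowerSeries.coeff (n - i) G).re) / n : ℝ) : ℂ) := by
          rw [Complex.ofReal_div, ← h1, Complex.ofReal_natCast]
          field_simp
        rw [h2, Complex.ofReal_re]
        exact ⟨rfl, by positivity⟩
  have hlow : ∀ n : ℕ, 1 ≤ n → cN n ≤ (n : ℝ) * (PowerSeries.coeff n G).re := by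
    intro n hn
    have h1 : ((n : ℝ) * (PowerSeries.coeff n G).re) =
        ∑ i ∈ Finset.Icc 1 n, cN i * (PowerSeries.coeff (n - i) G).re := by
      have h2 := congrArg Complex.re (hrec n)
      have h3 : ((n : ℂ) * PowerSeries.coeff n G).re = (n : ℝ) * (PowerSeries.coeff n G).re := by
        rw [← Complex.ofReal_natCast, Complex.re_ofReal_mul]
      rw [← h3, h2, Complex.re_sum]
      refine Finset.sum_congr rfl fun i _ => ?_
      rw [Complex.re_ofReal_mul]
    rw [h1]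
    have h4 := Finset.single_le_sum (f := fun i => cN i * (PowerSeries.coeff (n - i) G).re)
      (s := Finset.Icc 1 n) (fun i _ => mul_nonneg (hcN0 i) (hreal (n - i)).2)
      (Finset.mem_Icc.2 ⟨hn, le_rfl⟩)
    simp only [Nat.sub_self, hG0, Complex.one_re, mul_one] at h4
    exact h4
  obtain ⟨P, hPm, hPi, hPt⟩ := exists_irr (F := F)
  have hd0 : 1 ≤ P.natDegree := hPi.natDegree_pos
  have hl0 : 1 ≤ ℓ := hl.out.one_lt.le
  have hn1 : N + 1 ≤ P.natDegree * (ℓ * (N + 1)) := by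
    have h1 : N + 1 ≤ ℓ * (N + 1) := Nat.le_mul_of_pos_left _ hl0
    exact h1.trans (Nat.le_mul_of_pos_left _ hd0)
  refine ⟨P.natDegree * (ℓ * (N + 1)), by omega, fun h0 => ?_⟩
  have h1 := hlow (P.natDegree * (ℓ * (N + 1))) (by omega)
  rw [h0, Complex.zero_re, mul_zero] at h1
  have h2 : (P.natDegree : ℝ) * ℓ ≤ cN (P.natDegree * (ℓ * (N + 1))) := by
    have hmem : P.natDegree ∈ (P.natDegree * (ℓ * (N + 1))).divisors :=
      Nat.mem_divisors.2 ⟨Dvd.intro _ rfl, by omega⟩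
    have hmemP : P ∈ Pr F P.natDegree := mem_Pr.2 ⟨hPm, rfl, hPi⟩
    have h3 := Finset.single_le_sum (f := fun d => ∑ P' ∈ Pr F d, (d : ℝ) *
      (if (∀ t ∈ T, P'.eval t ≠ 0) ∧ (((P.natDegree * (ℓ * (N + 1))) / d : ℕ) : ZMod ℓ) *
        xv χ T a b P' = 0 then (ℓ : ℝ) else 0))
      (s := (P.natDegree * (ℓ * (N + 1))).divisors)
      (fun d _ => Finset.sum_nonneg fun P' _ => hterm _ d P') hmem
    have h4 := Finset.single_le_sum (f := fun P' => (P.natDegree : ℝ) *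
      (if (∀ t ∈ T, P'.eval t ≠ 0) ∧ (((P.natDegree * (ℓ * (N + 1))) / P.natDegree : ℕ) : ZMod ℓ) *
        xv χ T a b P' = 0 then (ℓ : ℝ) else 0))
      (s := Pr F P.natDegree) (fun P' _ => hterm _ P.natDegree P') hmemP
    have h5 : (∀ t ∈ T, P.eval t ≠ 0) ∧
        (((P.natDegree * (ℓ * (N + 1))) / P.natDegree : ℕ) : ZMod ℓ) * xv χ T a b P = 0 := by
      refine ⟨fun t _ => hPt t, ?_⟩
      rw [Nat.mul_div_cancel_left _ hd0]
      push_cast
      rw [ZMod.natCast_self, zero_mul, zero_mul]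
    rw [if_pos h5] at h4
    exact h4.trans h3
  have h3 : (0 : ℝ) < (P.natDegree : ℝ) * ℓ := by positivity
  linarith

theorem gf_prod (a₀ a₁ : ZMod ℓ) (b₀ b₁ : F → ZMod ℓ)
    (h : ∀ P : F[X], P.Monic → Irreducible P → (∀ t ∈ T, P.eval t ≠ 0) →
      a₀ * (P.natDegree : ZMod ℓ) + ∑ t ∈ T, b₀ t * χ.lg (P.eval t) = 0 →
      a₁ * (P.natDegree : ZMod ℓ) + ∑ t ∈ T, b₁ t * χ.lg (P.eval t) = 0) :
    ∏ i : ZMod ℓ, ∏ k : ZMod ℓ,
        gf (hc χ T (i * a₀ + k * a₁) (fun t => i * b₀ t + k * b₁ t)) =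
      (∏ i : ZMod ℓ, gf (hc χ T (i * a₀) (fun t => i * b₀ t))) ^ ℓ := by
  have hcm2 : ∀ i k : ZMod ℓ, CMc (hc χ T (i * a₀ + k * a₁) (fun t => i * b₀ t + k * b₁ t)) :=
    fun i k => hc_CMc χ T _ _
  have hcm : ∀ i : ZMod ℓ, CMc (hc χ T (i * a₀) (fun t => i * b₀ t)) := fun i => hc_CMc χ T _ _
  have h1 : eu (∏ i : ZMod ℓ, ∏ k : ZMod ℓ,
      gf (hc χ T (i * a₀ + k * a₁) (fun t => i * b₀ t + k * b₁ t))) =
      (∑ i : ZMod ℓ, ∑ k : ZMod ℓ,
        gl (hc χ T (i * a₀ + k * a₁) (fun t => i * b₀ t + k * b₁ t))) *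
      ∏ i : ZMod ℓ, ∏ k : ZMod ℓ,
        gf (hc χ T (i * a₀ + k * a₁) (fun t => i * b₀ t + k * b₁ t)) :=
    eu_prod Finset.univ _ _ fun i _ => eu_prod Finset.univ _ _ fun k _ => eu_gf (hcm2 i k)
  have h2 : eu (∏ i : ZMod ℓ, gf (hc χ T (i * a₀) (fun t => i * b₀ t))) =
      (∑ i : ZMod ℓ, gl (hc χ T (i * a₀) (fun t => i * b₀ t))) *
      ∏ i : ZMod ℓ, gf (hc χ T (i * a₀) (fun t => i * b₀ t)) :=
    eu_prod Finset.univ _ _ fun i _ => eu_gf (hcm i)
  have h3 := eu_pow _ _ h2 ℓ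
  have h4 : ((ℓ : PowerSeries ℂ) * ∑ i : ZMod ℓ, gl (hc χ T (i * a₀) (fun t => i * b₀ t))) =
      ∑ i : ZMod ℓ, ∑ k : ZMod ℓ,
        gl (hc χ T (i * a₀ + k * a₁) (fun t => i * b₀ t + k * b₁ t)) := by
    have h5 : ∑ i : ZMod ℓ, ∑ k : ZMod ℓ,
        gl (hc χ T (i * a₀ + k * a₁) (fun t => i * b₀ t + k * b₁ t)) =
        ∑ x : ZMod ℓ × ZMod ℓ,
          gl (hc χ T (x.1 * a₀ + x.2 * a₁) (fun t => x.1 * b₀ t + x.2 * b₁ t)) := by
      rw [Fintype.sum_prod_type]
    rw [h5]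
    ext n
    rw [← map_natCast (PowerSeries.C (R := ℂ)) ℓ, PowerSeries.coeff_C_mul, coeff_sum_gl, coeff_sum_gl,
      Finset.mul_sum]
    refine Finset.sum_congr rfl fun d hd => ?_
    rw [Finset.mul_sum]
    refine Finset.sum_congr rfl fun P hP => ?_
    obtain ⟨hm, -, hi⟩ := mem_Pr.1 hP
    have hd' := Nat.mem_divisors.1 hd
    have he : n / d ≠ 0 := (Nat.div_pos (Nat.le_of_dvd (Nat.pos_of_ne_zero hd'.2) hd'.1)
      (Nat.pos_of_mem_divisors hd)).ne'
    rw [Fintype.sum_prod_type, sum_hc2 χ T a₀ a₁ b₀ b₁ P (n / d) he (fun hn => h P hm hi hn)]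
    ring
  rw [h4] at h3
  refine eu_uniq ?_ h1 h3 ?_
  · rw [map_sum]
    refine Finset.sum_eq_zero fun i _ => ?_
    rw [map_sum]
    exact Finset.sum_eq_zero fun k _ => gl_zero _
  · rw [PowerSeries.coeff_zero_eq_constantCoeff, map_prod, map_pow, map_prod]
    have h6 : ∀ θ : F[X] → ℂ, CMc θ → PowerSeries.constantCoeff (gf θ) = 1 := by
      intro θ hθ
      rw [← PowerSeries.coeff_zero_eq_constantCoeff_apply, gf_zero hθ]
    rw [Finset.prod_eq_one, Finset.prod_eq_one, one_pow]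
    · intro i _
      exact h6 _ (hcm i)
    · intro i _
      rw [map_prod]
      exact Finset.prod_eq_one fun k _ => h6 _ (hcm2 i k)

end Pool.Agent.H94.PN
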