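import Pool.Agent.H94.PN.FF2

set_option autoImplicit false

/-!
# [H94 PN FF3] The primes in the kernel of a character determine the character

Let `q = card F`, `z₀ = 1 / q`, `p₁ = 1 - q X` (as a polynomial over `ℂ`).  For `(a, b)` (only the values of `b` on `T` matter) there are three types:
(I) `b t ≠ 0` for some `t ∈ T`: `gf (hc a b)` is (the power series of) a polynomial `π`, of degree `< card T` (`hc_zero`).
(II) `b = 0` on `T`, `a ≠ 0`: by `hc_twist` and `gf_one` with `X` replaced by `ps a * X` (`PowerSeries.rescale`):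
`(1 - q ps a X) * gf (hc a b) = (1 - ps a X) ^ card T`; at `z₀` the polynomials have the values `1 - ps a ≠ 0`, `(1 - ps a / q) ^ card T ≠ 0` (`q ≥ 2`, `‖ps a‖ = 1`).
(III) `a = 0`, `b = 0` on `T`: `(1 - q X) * gf = (1 - X) ^ card T`, and `(1 - 1 / q) ^ card T ≠ 0`.

Let `(a₀, b₀) = (-ρ, s)`, `(a₁, b₁) = (-a, b)`.  Suppose there is no `τ` as in the statement.
Step 1.  For `i ≠ 0` there are polynomials `δ_i, π_i` with `δ_i * gf (hc (i a₀) (i b₀)) = π_i`, `δ_i(z₀) ≠ 0`, `π_i(z₀) ≠ 0`.  If `s = 0` on `T` then `ρ ≠ 0` and this is type (II).  If `s ≠ 0` on `T`, all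
`i ≠ 0` are of type (I), `δ_i = 1`.  If `π_{i₀}(z₀) = 0` then `π_{i₀} = p₁ * π'`, so `G = ∏ i, gf (hc (i a₀) (i b₀)) = gf (hc 0 0) * ∏ i ≠ 0, π_i = (1 - X) ^ card T * π' * ∏ i ≠ 0, i₀, π_i` is a polynomial,
but infinitely many of its coefficients are nonzero (`gf_pos`), contradiction.
Step 2.  For `(i, k) ≠ (0, 0)`: `(i a₀ + k a₁, i b₀ + k b₁)` is of type (I) or (II): otherwise `i ρ + k a = 0` and `i s t + k b t = 0` on `T`; if `k ≠ 0`: `τ = - i / k` is as in the statement; if `k = 0`, `i ≠ 0`: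
`ρ = 0`, `s = 0` on `T`, excluded.  So there are `δ_{ik}, π_{ik}` with `δ_{ik} * gf = π_{ik}`, `δ_{ik}(z₀) ≠ 0`.
Step 3.  Multiply `gf_prod` by `p₁ ^ ℓ * ∏_{(i,k) ≠ 0} δ_{ik} * (∏_{i ≠ 0} δ_i) ^ ℓ`: as polynomials (`Polynomial.coe_injective`)
`p₁ ^ (ℓ - 1) * (1 - X) ^ card T * ∏ π_{ik} * (∏ δ_i) ^ ℓ = ((1 - X) ^ card T * ∏ π_i) ^ ℓ * ∏ δ_{ik}`.  At `z₀` the left side is `0` (`ℓ ≥ 2`) and the right side is not.
-/

namespace Pool.Agent.H94.PN

open Polynomial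
open Pool.Agent.H94.PL

variable {F : Type} [Field F] [Finite F] {ℓ : ℕ} [hl : Fact ℓ.Prime] (χ : LChar F ℓ)

private theorem ff3_card : 2 ≤ Nat.card F := by
  have := Fintype.ofFinite F
  rw [Nat.card_eq_fintype_card]
  exact Fintype.one_lt_card

private theorem ff3_q0 : (Nat.card F : ℂ) ≠ 0 := by
  have := ff3_card (F := F)
  exact_mod_cast (by omega : Nat.card F ≠ 0)

/-- the polynomial `1 - q X` -/
private noncomputable def ff3p (F : Type) [Field F] : ℂ[X] := 1 - C (Nat.card F : ℂ) * X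

private theorem ff3p_coe : ((ff3p F : ℂ[X]) : PowerSeries ℂ) =
    1 - PowerSeries.C (Nat.card F : ℂ) * PowerSeries.X := by
  unfold ff3p
  rw [Polynomial.coe_sub, Polynomial.coe_one, Polynomial.coe_mul, Polynomial.coe_C,
    Polynomial.coe_X]

private theorem ff3p_eval : (ff3p F).eval ((Nat.card F : ℂ)⁻¹) = 0 := by
  unfold ff3p
  simp only [eval_sub, eval_one, eval_mul, eval_C, eval_X]
  rw [mul_inv_cancel₀ ff3_q0, sub_self]

private theorem ff3p_ne : ff3p F ≠ 0 := by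
  intro h
  have h1 := congrArg (fun P : ℂ[X] => P.eval 0) h
  simp only [ff3p, eval_sub, eval_one, eval_mul, eval_C, eval_X, mul_zero, sub_zero,
    eval_zero] at h1
  exact one_ne_zero h1

private theorem ff3_coe_pow (T : Finset F) (c : ℂ) :
    (((1 - C c * X) ^ T.card : ℂ[X]) : PowerSeries ℂ) =
      (1 - PowerSeries.C c * PowerSeries.X) ^ T.card := by
  rw [Polynomial.coe_pow, Polynomial.coe_sub, Polynomial.coe_one, Polynomial.coe_mul,
    Polynomial.coe_C, Polynomial.coe_X]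

private theorem ff3_eval_pow (T : Finset F) (c : ℂ) (hc1 : ‖c‖ = 1) :
    ((1 - C c * X) ^ T.card : ℂ[X]).eval ((Nat.card F : ℂ)⁻¹) ≠ 0 := by
  simp only [eval_pow, eval_sub, eval_one, eval_mul, eval_C, eval_X]
  apply pow_ne_zero
  intro h
  have h1 : c * (Nat.card F : ℂ)⁻¹ = 1 := (sub_eq_zero.1 h).symm
  have h2 : ‖c * (Nat.card F : ℂ)⁻¹‖ = 1 := by rw [h1, norm_one]
  rw [norm_mul, hc1, one_mul, norm_inv, Complex.norm_natCast] at h2
  have h3 : (Nat.card F : ℝ) = 1 := inv_eq_one.1 h2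
  have h4 := ff3_card (F := F)
  have h5 : Nat.card F = 1 := by exact_mod_cast h3
  omega

/-- the series of the trivial character -/
private theorem ff3_zero (T : Finset F) :
    ((ff3p F : ℂ[X]) : PowerSeries ℂ) * gf (hc χ T 0 0) =
      (((1 - C 1 * X) ^ T.card : ℂ[X]) : PowerSeries ℂ) := by
  rw [ff3p_coe, gf_one, ff3_coe_pow, map_one, one_mul]

private theorem ff3_one (T : Finset F) (a : ZMod ℓ) (b : F → ZMod ℓ) (hb : ∃ t ∈ T, b t ≠ 0) :
    ∃ π : ℂ[X], gf (hc χ T a b) = (π : PowerSeries ℂ) := by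
  refine ⟨PowerSeries.trunc T.card (gf (hc χ T a b)), ?_⟩
  ext n
  rw [Polynomial.coeff_coe, PowerSeries.coeff_trunc]
  split_ifs with h
  · rfl
  · unfold gf
    rw [PowerSeries.coeff_mk]
    exact hc_zero χ T a b hb (not_lt.1 h)

private theorem ff3_two (T : Finset F) (a : ZMod ℓ) (b : F → ZMod ℓ) (hb : ∀ t ∈ T, b t = 0) :
    (((1 - C ((Nat.card F : ℂ) * ps a) * X : ℂ[X])) : PowerSeries ℂ) * gf (hc χ T a b) =
      (((1 - C (ps a) * X) ^ T.card : ℂ[X]) : PowerSeries ℂ) := by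
  have h1 : gf (hc χ T a b) = PowerSeries.rescale (ps a) (gf (hc χ T 0 0)) := by
    ext n
    rw [PowerSeries.coeff_rescale]
    unfold gf
    rw [PowerSeries.coeff_mk, PowerSeries.coeff_mk]
    exact hc_twist χ T a b hb n
  have hC : ∀ r : ℂ, PowerSeries.rescale (ps a) (PowerSeries.C r) = PowerSeries.C r := by
    intro r
    ext n
    rw [PowerSeries.coeff_rescale, PowerSeries.coeff_C]
    split_ifs with h
    · rw [h, pow_zero, one_mul]
    · rw [mul_zero]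
  have h2 := congrArg (PowerSeries.rescale (ps a)) (gf_one χ T)
  rw [map_mul, map_sub, map_one, map_mul, map_pow, map_sub, map_one, PowerSeries.rescale_X, hC] at h2
  rw [ff3_coe_pow, Polynomial.coe_sub, Polynomial.coe_one, Polynomial.coe_mul, Polynomial.coe_C,
    Polynomial.coe_X, h1, map_mul, mul_assoc]
  exact h2

private theorem ff3_two_eval (a : ZMod ℓ) (ha : a ≠ 0) :
    (1 - C ((Nat.card F : ℂ) * ps a) * X : ℂ[X]).eval ((Nat.card F : ℂ)⁻¹) ≠ 0 := by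
  simp only [eval_sub, eval_one, eval_mul, eval_C, eval_X]
  rw [mul_comm (Nat.card F : ℂ), mul_assoc, mul_inv_cancel₀ ff3_q0, mul_one]
  intro h
  exact ha (ps_eq_one_iff.1 (sub_eq_zero.1 h).symm)

/-- types (I) and (II) -/
private theorem ff3_good (T : Finset F) (a : ZMod ℓ) (b : F → ZMod ℓ)
    (h : a ≠ 0 ∨ ∃ t ∈ T, b t ≠ 0) :
    ∃ δ π : ℂ[X], (δ : PowerSeries ℂ) * gf (hc χ T a b) = (π : PowerSeries ℂ) ∧
      δ.eval ((Nat.card F : ℂ)⁻¹) ≠ 0 := by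
  by_cases hb : ∃ t ∈ T, b t ≠ 0
  · obtain ⟨π, hπ⟩ := ff3_one χ T a b hb
    refine ⟨1, π, ?_, ?_⟩
    · rw [Polynomial.coe_one, one_mul, hπ]
    · rw [eval_one]
      exact one_ne_zero
  · have ha : a ≠ 0 := h.resolve_right hb
    push Not at hb
    exact ⟨_, _, ff3_two χ T a b hb, ff3_two_eval a ha⟩

private theorem ff3_root (π : ℂ[X]) (h : π.eval ((Nat.card F : ℂ)⁻¹) = 0) :
    ∃ π' : ℂ[X], π = ff3p F * π' := by
  obtain ⟨P, hP⟩ := Polynomial.dvd_iff_isRoot.2 (show π.IsRoot ((Nat.card F : ℂ)⁻¹) from h)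
  refine ⟨C (-(Nat.card F : ℂ)⁻¹) * P, ?_⟩
  have h1 : ff3p F * C (-(Nat.card F : ℂ)⁻¹) = X - C ((Nat.card F : ℂ)⁻¹) := by
    have h2 : C (Nat.card F : ℂ) * C ((Nat.card F : ℂ)⁻¹) = (1 : ℂ[X]) := by
      rw [← C_mul, mul_inv_cancel₀ ff3_q0, C_1]
    unfold ff3p
    rw [C_neg]
    linear_combination X * h2
  rw [← mul_assoc, h1]
  exact hP

/-- the series of the multiples of the first character -/
private theorem ff3_first (T : Finset F) (a : ZMod ℓ) (b : F → ZMod ℓ)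
    (hne : a ≠ 0 ∨ ∃ t ∈ T, b t ≠ 0) (i₀ : ZMod ℓ) (hi₀ : i₀ ≠ 0) :
    ∃ δ π : ℂ[X], (δ : PowerSeries ℂ) * gf (hc χ T (i₀ * a) (fun t => i₀ * b t)) =
      (π : PowerSeries ℂ) ∧ δ.eval ((Nat.card F : ℂ)⁻¹) ≠ 0 ∧ π.eval ((Nat.card F : ℂ)⁻¹) ≠ 0 := by
  classical
  by_cases hb : ∃ t ∈ T, b t ≠ 0
  · have h1 : ∀ i : ZMod ℓ, ∃ π : ℂ[X], i ≠ 0 →
        gf (hc χ T (i * a) (fun t => i * b t)) = (π : PowerSeries ℂ) := by
      intro i
      by_cases hi : i = 0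
      · exact ⟨0, fun h => absurd hi h⟩
      · obtain ⟨t, ht, hbt⟩ := hb
        obtain ⟨π, hπ⟩ := ff3_one χ T (i * a) (fun t => i * b t) ⟨t, ht, mul_ne_zero hi hbt⟩
        exact ⟨π, fun _ => hπ⟩
    choose π hπ using h1
    refine ⟨1, π i₀, ?_, ?_, ?_⟩
    · rw [Polynomial.coe_one, one_mul, hπ i₀ hi₀]
    · rw [eval_one]
      exact one_ne_zero
    · intro hroot
      obtain ⟨π', hπ'⟩ := ff3_root (F := F) (π i₀) hroot
      obtain ⟨P, hP⟩ : ∃ P : ℂ[X], P = (1 - C 1 * X) ^ T.card * (π' *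
        ∏ i ∈ (Finset.univ.erase (0 : ZMod ℓ)).erase i₀, π i) := ⟨_, rfl⟩
      have h2 : ∏ i : ZMod ℓ, gf (hc χ T (i * a) (fun t => i * b t)) = (P : PowerSeries ℂ) := by
        rw [← Finset.mul_prod_erase Finset.univ _ (Finset.mem_univ (0 : ZMod ℓ)),
          ← Finset.mul_prod_erase (Finset.univ.erase (0 : ZMod ℓ)) _
            (Finset.mem_erase.2 ⟨hi₀, Finset.mem_univ i₀⟩)]
        have h3 : ∏ i ∈ (Finset.univ.erase (0 : ZMod ℓ)).erase i₀,
            gf (hc χ T (i * a) (fun t => i * b t)) =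
            ((∏ i ∈ (Finset.univ.erase (0 : ZMod ℓ)).erase i₀, π i : ℂ[X]) : PowerSeries ℂ) := by
          have h4 : ∀ s : Finset (ZMod ℓ), ((∏ i ∈ s, π i : ℂ[X]) : PowerSeries ℂ) =
              ∏ i ∈ s, ((π i : ℂ[X]) : PowerSeries ℂ) := by
            intro s
            exact map_prod (Polynomial.coeToPowerSeries.ringHom (R := ℂ)) π s
          rw [h4]
          refine Finset.prod_congr rfl fun i hi => ?_
          exact hπ i (Finset.mem_erase.1 (Finset.mem_erase.1 hi).2).1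
        have h5 : hc χ T (0 * a) (fun t => 0 * b t) = hc χ T 0 0 := by
          congr 1
          · rw [zero_mul]
          · funext t
            rw [zero_mul]
            rfl
        rw [h3, hπ i₀ hi₀, h5, hπ', hP, Polynomial.coe_mul, Polynomial.coe_mul, Polynomial.coe_mul,
          ← ff3_zero χ T]
        ring
      obtain ⟨n, hn, hne2⟩ := gf_pos χ T a b (P.natDegree + 1)
      rw [h2, Polynomial.coeff_coe] at hne2
      exact hne2 (Polynomial.coeff_eq_zero_of_natDegree_lt (by omega))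
  · have ha : a ≠ 0 := hne.resolve_right hb
    push Not at hb
    have hb' : ∀ t ∈ T, i₀ * b t = 0 := fun t ht => by rw [hb t ht, mul_zero]
    exact ⟨_, _, ff3_two χ T (i₀ * a) (fun t => i₀ * b t) hb', ff3_two_eval _ (mul_ne_zero hi₀ ha),
      ff3_eval_pow T _ (norm_ps _)⟩

private theorem ff3_prod_coe {ι : Type*} (s : Finset ι) (f : ι → ℂ[X]) :
    ((∏ i ∈ s, f i : ℂ[X]) : PowerSeries ℂ) = ∏ i ∈ s, ((f i : ℂ[X]) : PowerSeries ℂ) :=
  map_prod (Polynomial.coeToPowerSeries.ringHom (R := ℂ)) f s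

/-- the final comparison of the orders of the zeros -/
private theorem ff3_end (g : ZMod ℓ × ZMod ℓ → PowerSeries ℂ) (g' : ZMod ℓ → PowerSeries ℂ)
    (δ π : ZMod ℓ × ZMod ℓ → ℂ[X]) (δ' π' : ZMod ℓ → ℂ[X]) (p : ℂ[X]) (z : ℂ) (hp : p ≠ 0)
    (hz : p.eval z = 0)
    (h1 : ∀ x, (δ x : PowerSeries ℂ) * g x = (π x : PowerSeries ℂ))
    (h2 : ∀ i, (δ' i : PowerSeries ℂ) * g' i = (π' i : PowerSeries ℂ))
    (h3 : δ 0 = p) (h4 : δ' 0 = p) (h5 : ∀ x, x ≠ 0 → (δ x).eval z ≠ 0)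
    (h6 : ∀ i, (π' i).eval z ≠ 0)
    (h7 : ∏ x, g x = (∏ i, g' i) ^ ℓ) : False := by
  classical
  have e1 : ∏ x, ((π x : ℂ[X]) : PowerSeries ℂ) =
      (∏ x, ((δ x : ℂ[X]) : PowerSeries ℂ)) * (∏ i, g' i) ^ ℓ := by
    rw [← h7, ← Finset.prod_mul_distrib]
    exact Finset.prod_congr rfl fun x _ => (h1 x).symm
  have e2 : (∏ i, ((π' i : ℂ[X]) : PowerSeries ℂ)) =
      (∏ i, ((δ' i : ℂ[X]) : PowerSeries ℂ)) * ∏ i, g' i := by
    rw [← Finset.prod_mul_distrib]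
    exact Finset.prod_congr rfl fun x _ => (h2 x).symm
  have e3 : (∏ x, π x) * (∏ i, δ' i) ^ ℓ = (∏ x, δ x) * (∏ i, π' i) ^ ℓ := by
    apply Polynomial.coe_injective ℂ
    rw [Polynomial.coe_mul, Polynomial.coe_mul, Polynomial.coe_pow, Polynomial.coe_pow,
      ff3_prod_coe, ff3_prod_coe, ff3_prod_coe, ff3_prod_coe, e1, e2]
    ring
  have e4 : ∏ x, δ x = p * ∏ x ∈ Finset.univ.erase (0 : ZMod ℓ × ZMod ℓ), δ x := by
    rw [← Finset.mul_prod_erase Finset.univ _ (Finset.mem_univ (0 : ZMod ℓ × ZMod ℓ)), h3]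
  have e5 : ∏ i, δ' i = p * ∏ i ∈ Finset.univ.erase (0 : ZMod ℓ), δ' i := by
    rw [← Finset.mul_prod_erase Finset.univ _ (Finset.mem_univ (0 : ZMod ℓ)), h4]
  obtain ⟨m, hm⟩ : ∃ m, ℓ = m + 2 := ⟨ℓ - 2, by have := hl.out.two_le; omega⟩
  obtain ⟨A, hA⟩ : ∃ A, A = ∏ i ∈ Finset.univ.erase (0 : ZMod ℓ), δ' i := ⟨_, rfl⟩
  obtain ⟨D, hD⟩ : ∃ D, D = ∏ x ∈ Finset.univ.erase (0 : ZMod ℓ × ZMod ℓ), δ x := ⟨_, rfl⟩
  have e6 : p * ((∏ x, π x) * (p * p ^ m * A ^ ℓ)) = p * (D * (∏ i, π' i) ^ ℓ) := by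
    rw [e4, e5, ← hA, ← hD] at e3
    have e7 : (p * A) ^ ℓ = p * (p * p ^ m * A ^ ℓ) := by
      have e8 : p ^ ℓ = p * (p * p ^ m) := by
        rw [hm]
        ring
      rw [mul_pow, e8]
      ring
    rw [e7] at e3
    linear_combination e3
  have e9 := mul_left_cancel₀ hp e6
  have e10 := congrArg (fun P : ℂ[X] => P.eval z) e9
  simp only [eval_mul, hz, zero_mul, mul_zero, eval_pow] at e10
  have e11 : D.eval z ≠ 0 := by
    rw [hD, eval_prod]
    exact Finset.prod_ne_zero_iff.2 fun x hx => h5 x (Finset.mem_erase.1 hx).1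
  have e12 : (∏ i, π' i).eval z ≠ 0 := by
    rw [eval_prod]
    exact Finset.prod_ne_zero_iff.2 fun x _ => h6 x
  exact mul_ne_zero e11 (pow_ne_zero _ e12) e10.symm

theorem ff (T : Finset F) (s b : F → ZMod ℓ) (ρ a : ZMod ℓ) (hne : ρ ≠ 0 ∨ ∃ t ∈ T, s t ≠ 0)
    (h : ∀ P : F[X], P.Monic → Irreducible P → (∀ t ∈ T, P.eval t ≠ 0) →
      ∑ t ∈ T, s t * χ.lg (P.eval t) = ρ * (P.natDegree : ZMod ℓ) →
      ∑ t ∈ T, b t * χ.lg (P.eval t) = a * (P.natDegree : ZMod ℓ)) :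
    ∃ τ : ZMod ℓ, a = τ * ρ ∧ ∀ t ∈ T, b t = τ * s t := by
  classical
  by_contra hno
  have hprod := gf_prod χ T (-ρ) (-a) s b (fun P hP hPi hPT hx => by
    have h1 := h P hP hPi hPT (by linear_combination hx)
    rw [h1]
    ring)
  have hne' : -ρ ≠ 0 ∨ ∃ t ∈ T, s t ≠ 0 := hne.imp_left neg_ne_zero.2
  have hgood : ∀ x : ZMod ℓ × ZMod ℓ, x ≠ 0 →
      (x.1 * -ρ + x.2 * -a ≠ 0 ∨ ∃ t ∈ T, x.1 * s t + x.2 * b t ≠ 0) := by
    rintro ⟨i, k⟩ hx
    by_contra hcon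
    push Not at hcon
    obtain ⟨hc1, hc2⟩ := hcon
    simp only at hc1 hc2
    by_cases hk : k = 0
    · have hi : i ≠ 0 := by
        intro hi
        apply hx
        rw [hi, hk]
        rfl
      rcases hne with hρ | ⟨t, ht, hst⟩
      · rw [hk, zero_mul, add_zero] at hc1
        exact (mul_ne_zero hi (neg_ne_zero.2 hρ)) hc1
      · have := hc2 t ht
        rw [hk, zero_mul, add_zero] at this
        exact (mul_ne_zero hi hst) this
    · apply hno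
      refine ⟨-i * k⁻¹, ?_, fun t ht => ?_⟩
      · field_simp
        linear_combination -hc1
      · have := hc2 t ht
        field_simp
        linear_combination this
  have hA : ∀ x : ZMod ℓ × ZMod ℓ, ∃ δ π : ℂ[X],
      (δ : PowerSeries ℂ) * gf (hc χ T (x.1 * -ρ + x.2 * -a) (fun t => x.1 * s t + x.2 * b t)) =
        (π : PowerSeries ℂ) ∧ (x = 0 → δ = ff3p F) ∧ (x ≠ 0 → δ.eval ((Nat.card F : ℂ)⁻¹) ≠ 0) := by
    intro x
    by_cases hx : x = 0
    · refine ⟨ff3p F, (1 - C 1 * X) ^ T.card, ?_, fun _ => rfl, fun h => absurd hx h⟩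
      have h5 : hc χ T (x.1 * -ρ + x.2 * -a) (fun t => x.1 * s t + x.2 * b t) = hc χ T 0 0 := by
        rw [hx]
        congr 1
        · rw [Prod.fst_zero, Prod.snd_zero, zero_mul, zero_mul, add_zero]
        · funext t
          rw [Prod.fst_zero, Prod.snd_zero, zero_mul, zero_mul, add_zero]
          rfl
      rw [h5]
      exact ff3_zero χ T
    · obtain ⟨δ, π, h1, h2⟩ := ff3_good χ T _ (fun t => x.1 * s t + x.2 * b t) (hgood x hx)
      exact ⟨δ, π, h1, fun h => absurd h hx, fun _ => h2⟩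
  choose δ π hδ1 hδ2 hδ3 using hA
  have hB : ∀ i : ZMod ℓ, ∃ δ π : ℂ[X],
      (δ : PowerSeries ℂ) * gf (hc χ T (i * -ρ) (fun t => i * s t)) =
        (π : PowerSeries ℂ) ∧ (i = 0 → δ = ff3p F) ∧ π.eval ((Nat.card F : ℂ)⁻¹) ≠ 0 := by
    intro i
    by_cases hi : i = 0
    · refine ⟨ff3p F, (1 - C 1 * X) ^ T.card, ?_, fun _ => rfl, ff3_eval_pow T 1 norm_one⟩
      have h5 : hc χ T (i * -ρ) (fun t => i * s t) = hc χ T 0 0 := by
        rw [hi]
        congr 1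
        · rw [zero_mul]
        · funext t
          rw [zero_mul]
          rfl
      rw [h5]
      exact ff3_zero χ T
    · obtain ⟨δ, π, h1, _, h3⟩ := ff3_first χ T (-ρ) s hne' i hi
      exact ⟨δ, π, h1, fun h => absurd h hi, h3⟩
  choose δ' π' hδ'1 hδ'2 hδ'3 using hB
  refine ff3_end _ _ δ π δ' π' (ff3p F) ((Nat.card F : ℂ)⁻¹) ff3p_ne ff3p_eval hδ1 hδ'1
    (hδ2 0 rfl) (hδ'2 0 rfl) hδ3 hδ'3 ?_
  rw [← hprod, Fintype.prod_prod_type]

end Pool.Agent.H94.PN
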