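import Pool.Agent.H94.PM.CLW

set_option autoImplicit false

/-!
# [H94 PN GENC] The algebra generated by a connected graph of reflections

`X = XX m ℓ`; `T = Algebra.adjoin (ZMod ℓ) (Set.range L)`; `E(a, b; c, d)` is the map `x ↦ (x.1 c - x.1 d) • ep ℓ a b` (`Em`).
Let `{a, b}` be detected (`Det L a b`): `E(a, b; a, b) = d⁻¹ • L v ∈ T` (`r_ab`).  `r_ab ∘ E(e, f; c, d) = ((ep e f) a - (ep e f) b) • E(a, b; c, d)`.
(1) Fix a detected pair `(c, d)`.  Claim: for every `j` with `ReflTransGen (Det L) c j` and every `l` with `Det L j l`: `E(j, l; c, d) ∈ T`.  Induction: `j = c`: `l = d`: `r_cd`; `l ≠ d`: `r_cl ∘ E(c, d; c, d)`, with the factor `1 - 0 = 1`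
(`(ep c d) c = 1`, `(ep c d) l = 0` as `l ≠ c, d`).  Step from `j` to `j'` (`Det L j j'`): for `l = j`: `E(j', j; c, d) = - E(j, j'; c, d)`; for `l ≠ j`: `r_{j'l} ∘ E(j, j'; c, d)`, with the factor `-1 - 0 = -1`.
(2) So `E(j, l; c, d) ∈ T` for all `j, l` (induction along a path from `j` to `l`: `E(j, l'; ..) = E(j, l; ..) + E(l, l'; ..)`; `E(j, j; ..) = 0`) and then for all `c, d` (`E(..; c, d') = E(..; c, d) + E(..; d, d')`).
(3) Let `f : X → X`.  For `m ≤ 1` all `x` are zero.  Otherwise `x = ∑ k, x k • ep k 0` (as `∑ x = 0`) and `m x k = ∑ i, (x k - x i)`, `m` invertible in `ZMod ℓ`; `f (ep k 0) = ∑ j, (f (ep k 0)) j • ep j 0`.  So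
`f = ∑ k, ∑ i, ∑ j, (m⁻¹ * (f (ep k 0)) j) • E(j, 0; k, i) ∈ T`.
-/

namespace Pool.Agent.H94.PN

open Pool.Agent.H94.PL
open Pool.Agent.H94.PM

variable {ℓ m : ℕ} [hl : Fact ℓ.Prime]

/-- the rank one maps -/
def Em (ℓ : ℕ) {m : ℕ} (a b c d : Fin m) : XX m ℓ →ₗ[ZMod ℓ] XX m ℓ where
  toFun x := (x.1 c - x.1 d) • ep ℓ a b
  map_add' x y := by
    rw [← add_smul]
    congr 1
    change x.1 c + y.1 c - (x.1 d + y.1 d) = _
    ring
  map_smul' r x := by
    rw [RingHom.id_apply, smul_smul]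
    congr 1
    change r * x.1 c - r * x.1 d = _
    ring

private theorem genc_Em (a b c d : Fin m) (x : XX m ℓ) :
    Em ℓ a b c d x = (x.1 c - x.1 d) • ep ℓ a b := rfl

private theorem genc_ep (i j k : Fin m) :
    (ep ℓ i j).1 k = (if k = i then 1 else 0) - (if k = j then 1 else 0) := rfl

private theorem genc_ep_self (j : Fin m) : (ep ℓ j j : XX m ℓ) = 0 := by
  apply Subtype.ext
  funext k
  rw [genc_ep, sub_self]
  rfl

private theorem genc_ep_neg (i j : Fin m) : (ep ℓ i j : XX m ℓ) = -ep ℓ j i := by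
  apply Subtype.ext
  funext k
  change (ep ℓ i j : XX m ℓ).1 k = -((ep ℓ j i : XX m ℓ).1 k)
  rw [genc_ep, genc_ep]
  ring

private theorem genc_ep_add (i j k : Fin m) : (ep ℓ i k : XX m ℓ) = ep ℓ i j + ep ℓ j k := by
  apply Subtype.ext
  funext l
  change (ep ℓ i k : XX m ℓ).1 l = (ep ℓ i j : XX m ℓ).1 l + (ep ℓ j k : XX m ℓ).1 l
  rw [genc_ep, genc_ep, genc_ep]
  ring

private theorem genc_mul (a b e f c d : Fin m) :
    (Em ℓ a b a b * Em ℓ e f c d : Module.End (ZMod ℓ) (XX m ℓ)) =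
      ((ep ℓ e f).1 a - (ep ℓ e f).1 b) • Em ℓ a b c d := by
  refine LinearMap.ext fun x => ?_
  change Em ℓ a b a b (Em ℓ e f c d x) = ((ep ℓ e f).1 a - (ep ℓ e f).1 b) • Em ℓ a b c d x
  rw [genc_Em, genc_Em, genc_Em, smul_smul]
  congr 1
  change (x.1 c - x.1 d) * (ep ℓ e f).1 a - (x.1 c - x.1 d) * (ep ℓ e f).1 b = _
  ring

private theorem genc_sum (x : XX m ℓ) :
    (∑ j, ∑ l, x.1 j • ep ℓ j l : XX m ℓ) = (m : ZMod ℓ) • x := by
  apply Subtype.ext
  rw [Submodule.coe_sum]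
  funext k
  rw [Finset.sum_apply]
  have h1 : ∀ j, ((∑ l, x.1 j • ep ℓ j l : XX m ℓ) : Fin m → ZMod ℓ) k =
      (m : ZMod ℓ) * (if k = j then x.1 j else 0) - x.1 j := by
    intro j
    rw [Submodule.coe_sum, Finset.sum_apply]
    have h2 : ∀ l, ((x.1 j • ep ℓ j l : XX m ℓ) : Fin m → ZMod ℓ) k =
        (if k = j then x.1 j else 0) - (if k = l then x.1 j else 0) := by
      intro l
      change x.1 j * (ep ℓ j l).1 k = _
      rw [genc_ep, mul_sub, mul_ite, mul_ite, mul_one, mul_zero]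
    rw [Finset.sum_congr rfl fun l _ => h2 l, Finset.sum_sub_distrib, Finset.sum_const,
      Finset.sum_ite_eq, if_pos (Finset.mem_univ k), Finset.card_univ, Fintype.card_fin,
      nsmul_eq_mul]
  rw [Finset.sum_congr rfl fun j _ => h1 j, Finset.sum_sub_distrib, XX_sum x, sub_zero,
    ← Finset.mul_sum, Finset.sum_ite_eq, if_pos (Finset.mem_univ k)]
  rfl

theorem genc (hm : Nat.Coprime m ℓ) {S : Type} (L : S → XX m ℓ →ₗ[ZMod ℓ] XX m ℓ)
    (hconn : ∀ i k, Relation.ReflTransGen (Det L) i k) :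
    Algebra.adjoin (ZMod ℓ) (Set.range L) =
      (⊤ : Subalgebra (ZMod ℓ) (Module.End (ZMod ℓ) (XX m ℓ))) := by
  obtain ⟨T, hT⟩ : ∃ T : Subalgebra (ZMod ℓ) (Module.End (ZMod ℓ) (XX m ℓ)),
    T = Algebra.adjoin (ZMod ℓ) (Set.range L) := ⟨_, rfl⟩
  rw [← hT]
  have hm0 : (m : ZMod ℓ) ≠ 0 := by
    intro h0
    rw [ZMod.natCast_eq_zero_iff] at h0
    have := (Nat.Prime.coprime_iff_not_dvd hl.out).1 hm.symm
    exact this h0
  -- detected pairs
  have hr : ∀ a b, Det L a b → (Em ℓ a b a b : Module.End (ZMod ℓ) (XX m ℓ)) ∈ T := by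
    rintro a b ⟨_, v, d, hd, hv⟩
    have h1 : (Em ℓ a b a b : Module.End (ZMod ℓ) (XX m ℓ)) = d⁻¹ • L v := by
      refine LinearMap.ext fun x => ?_
      rw [LinearMap.smul_apply, hv x, genc_Em, smul_smul, ← mul_assoc, inv_mul_cancel₀ hd, one_mul]
    rw [h1, hT]
    exact Subalgebra.smul_mem _ (Algebra.subset_adjoin (Set.mem_range_self v)) _
  -- (1)
  have h1 : ∀ c d, Det L c d → ∀ j, Relation.ReflTransGen (Det L) c j → ∀ l, Det L j l →
      (Em ℓ j l c d : Module.End (ZMod ℓ) (XX m ℓ)) ∈ T := by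
    intro c d hcd j hj
    induction hj with
    | refl =>
      intro l hl'
      by_cases hld : l = d
      · subst hld
        exact hr _ _ hcd
      · have h2 := T.mul_mem (hr c l hl') (hr c d hcd)
        rw [genc_mul, genc_ep, genc_ep, if_pos rfl, if_neg hcd.1, if_neg (Ne.symm hl'.1),
          if_neg hld, sub_zero, sub_zero, sub_zero, one_smul] at h2
        exact h2
    | @tail j j' _ hjj' ih =>
      intro l hl'
      have h3 := ih j' hjj'
      by_cases hlj : l = j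
      · subst hlj
        have h4 : (Em ℓ j' l c d : Module.End (ZMod ℓ) (XX m ℓ)) = -(Em ℓ l j' c d) := by
          refine LinearMap.ext fun x => ?_
          rw [LinearMap.neg_apply, genc_Em, genc_Em, genc_ep_neg j' l, smul_neg]
        rw [h4]
        exact T.neg_mem h3
      · have h2 := T.mul_mem (hr j' l hl') h3
        rw [genc_mul, genc_ep, genc_ep, if_neg (Ne.symm hjj'.1), if_pos rfl, if_neg hlj,
          if_neg (Ne.symm hl'.1), sub_zero, sub_zero, zero_sub, neg_smul, one_smul] at h2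
        have h5 := T.neg_mem h2
        rwa [neg_neg] at h5
  -- (2)
  have h2 : ∀ c d, Det L c d → ∀ j l, (Em ℓ j l c d : Module.End (ZMod ℓ) (XX m ℓ)) ∈ T := by
    intro c d hcd j l
    have hjl := hconn j l
    induction hjl with
    | refl =>
      have h4 : (Em ℓ j j c d : Module.End (ZMod ℓ) (XX m ℓ)) = 0 := by
        refine LinearMap.ext fun x => ?_
        rw [genc_Em, genc_ep_self, smul_zero]
        rfl
      rw [h4]
      exact T.zero_mem
    | @tail l l' _ hll' ih =>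
      have h4 : (Em ℓ j l' c d : Module.End (ZMod ℓ) (XX m ℓ)) = Em ℓ j l c d + Em ℓ l l' c d := by
        refine LinearMap.ext fun x => ?_
        rw [LinearMap.add_apply, genc_Em, genc_Em, genc_Em, genc_ep_add j l l', smul_add]
      rw [h4]
      exact T.add_mem ih (h1 c d hcd l (hconn c l) l' hll')
  have h3 : ∀ c d j l, (Em ℓ j l c d : Module.End (ZMod ℓ) (XX m ℓ)) ∈ T := by
    intro c d j l
    have hcd := hconn c d
    induction hcd with
    | refl =>
      have h4 : (Em ℓ j l c c : Module.End (ZMod ℓ) (XX m ℓ)) = 0 := by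
        refine LinearMap.ext fun x => ?_
        rw [genc_Em, sub_self, zero_smul]
        rfl
      rw [h4]
      exact T.zero_mem
    | @tail d d' _ hdd' ih =>
      have h4 : (Em ℓ j l c d' : Module.End (ZMod ℓ) (XX m ℓ)) = Em ℓ j l c d + Em ℓ j l d d' := by
        refine LinearMap.ext fun x => ?_
        rw [LinearMap.add_apply, genc_Em, genc_Em, genc_Em, ← add_smul]
        congr 1
        ring
      rw [h4]
      exact T.add_mem ih (h2 d d' hdd' j l)
  -- (3)
  have h4 : ∀ (k : Fin m) (y : XX m ℓ) (g : Module.End (ZMod ℓ) (XX m ℓ)),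
      (∀ x : XX m ℓ, g x = x.1 k • y) → g ∈ T := by
    intro k y g hg
    have h5 : g = ((m : ZMod ℓ)⁻¹ * (m : ZMod ℓ)⁻¹) • ∑ j, ∑ l, ∑ c, (y.1 j) •
        (Em ℓ j l k c : Module.End (ZMod ℓ) (XX m ℓ)) := by
      refine LinearMap.ext fun x => ?_
      rw [LinearMap.smul_apply, LinearMap.sum_apply]
      have h6 : ∀ j, (∑ l, ∑ c, (y.1 j) • (Em ℓ j l k c : Module.End (ZMod ℓ) (XX m ℓ))) x =
          ((m : ZMod ℓ) * x.1 k) • ∑ l, y.1 j • ep ℓ j l := by
        intro j
        rw [LinearMap.sum_apply, Finset.smul_sum]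
        refine Finset.sum_congr rfl fun l _ => ?_
        rw [LinearMap.sum_apply]
        have h7 : ∀ c, ((y.1 j) • (Em ℓ j l k c : Module.End (ZMod ℓ) (XX m ℓ))) x =
            (x.1 k - x.1 c) • (y.1 j • ep ℓ j l) := by
          intro c
          rw [LinearMap.smul_apply, genc_Em, smul_comm]
        rw [Finset.sum_congr rfl fun c _ => h7 c, ← Finset.sum_smul, Finset.sum_sub_distrib,
          XX_sum x, sub_zero, Finset.sum_const, Finset.card_univ, Fintype.card_fin, nsmul_eq_mul]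
      rw [Finset.sum_congr rfl fun j _ => h6 j, ← Finset.smul_sum, genc_sum, hg x, smul_smul,
        smul_smul]
      congr 1
      field_simp
    rw [h5]
    exact T.smul_mem (T.sum_mem fun j _ => T.sum_mem fun l _ => T.sum_mem fun c _ =>
      T.smul_mem (h3 k c j l) _) _
  rw [eq_top_iff]
  intro f _
  have h5 : ∀ (k : Fin m) (y : XX m ℓ), ∃ g : Module.End (ZMod ℓ) (XX m ℓ),
      ∀ x : XX m ℓ, g x = x.1 k • y := by
    intro k y
    refine ⟨{ toFun := fun x => x.1 k • y, map_add' := ?_, map_smul' := ?_ }, fun x => rfl⟩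
    · intro x x'
      rw [← add_smul]
      rfl
    · intro r x
      rw [RingHom.id_apply, smul_smul]
      rfl
  choose g hg using h5
  have h6 : f = (m : ZMod ℓ)⁻¹ • ∑ k, ∑ i, g k (f (ep ℓ k i)) := by
    refine LinearMap.ext fun x => ?_
    rw [LinearMap.smul_apply, LinearMap.sum_apply]
    have h7 : ∀ k, (∑ i, g k (f (ep ℓ k i))) x = ∑ i, x.1 k • f (ep ℓ k i) := by
      intro k
      rw [LinearMap.sum_apply]
      exact Finset.sum_congr rfl fun i _ => hg k _ x
    have h8 := congrArg f (genc_sum x)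
    rw [map_sum, map_smul] at h8
    have h9 : ∀ k, f (∑ l, x.1 k • ep ℓ k l) = ∑ i, x.1 k • f (ep ℓ k i) := by
      intro k
      rw [map_sum]
      exact Finset.sum_congr rfl fun i _ => by rw [map_smul]
    rw [Finset.sum_congr rfl fun k _ => h9 k] at h8
    rw [Finset.sum_congr rfl fun k _ => h7 k, h8, smul_smul, inv_mul_cancel₀ hm0, one_smul]
  rw [h6]
  exact T.smul_mem (T.sum_mem fun k _ => T.sum_mem fun i _ => h4 k _ _ (hg k _)) _

end Pool.Agent.H94.PN
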