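import Pool.Agent.H94.PN.ANP
import Pool.Agent.H94.PN.CV
import Pool.Agent.H94.PN.CCH
import Pool.Agent.H94.PN.FF3

set_option autoImplicit false

/-!
# [H94 PN IM0] The image of `sgm`, second case: `vl c ≡ R card I`

`c = cI D A I a`, `n_t = card (chd t)`, `ρ = rhoI`, `φ ∈ Ann I`, `σ = sgm φ`.
* `im0_q`: if `ρ ≠ 0` or some `n_t ≢ 0` then there is `τ` with `τ ρ = 0` and `(σ t).2 = τ n_t` for all `t ∈ res`: `ff` with `T = res`, `s t = n_t`, `b t = (σ t).2`, `a = 0`.  Let `pb` be monic irreducible over `κ`, `pb t ≠ 0` on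
  `res`, `∑ t, n_t lg (pb t) = ρ deg pb`, i.e. `∑ i ∈ I, lg (pb (red (w i))) = deg pb * ρ`.  `ver` gives a Mumford polynomial `P` located at `I`, and `0 = pr φ (P (A ·)) = ∑ i ∈ I, (φ i).1 n R + (φ i).2 (n R un ϖ + lg (pb (red (w i))))
  = ∑ t, (σ t).2 lg (pb t)` since `∑ φ = 0` (`n = deg pb`).
* `im0_c`: if `CC (chd t)` then `σ t = 0`: `ℓ ∣ n_t` and `c_t = b ^ ℓ` (`pow_of_lu`; `c_t = cI D A (chd t) (A j)`, `j ∈ chd t`).  For every class `(x, y)` there is `β ≠ 0` with `vl β ≡ x`, `un (-β) = y`,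
  `2 ℓ R < vl β < 2 ℓ (R + 1)` (`-β = ϖ ^ s * u`, `v u = 1`, `un u = y - s un ϖ`; units with any logarithm exist: `rs.surj`, `exists_lg`, `rs.un`; `s` in an interval with at least `ℓ` integers).  `P = (X - A j) ^ (2 ℓ) - β` is Mumford (`anp`, `anpC`),
  located at `chd t`, with class `(x, y)` on `chd t` (the inequalities as in `IM1`), and `pr_child` gives `(σ t).1 x + (σ t).2 y = 0` (`deg P = 2 ℓ = 0` in `ZMod ℓ`).  For `(x, y) = (1, 0), (0, 1)`: `σ t = 0`.
* `im0`: `k = ∑ t ∈ res, eC (chd t)` the number of exceptional children, `r = card res`.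
  (i) `ρ = 0` and all `n_t ≡ 0`: all children and `I` are exceptional (`cc_chd`, `cc_self`; `card I = ∑ n_t`), `k = r`, `σ = 0` (`im0_c`, `sgm_out`), the image is `{0}`: `ℓ ^ (1 + r) ≤ ℓ ^ (r + 1)`.
  (ii) otherwise some child is not exceptional: some `n_t ≢ 0` gives `¬ CC (chd t)`; if all `n_t ≡ 0`, `ρ ≠ 0` and `cc_chd`.  By `im0_q` `(σ t).2 = τ n_t`, `τ ρ = 0`, and `∑ σ = 0` gives `τ card I = 0`.  If `ρ ≠ 0` or `card I ≢ 0` then `τ = 0` and the second components
  vanish.  Otherwise `I` is exceptional (`cc_self`), and there are at most `ℓ` possibilities for the second components.  So at most `ℓ ^ eC I` possibilities.  The first components vanish outside `res` and at the exceptional children, and have sum `0`: at most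
  `ℓ ^ (r - k - 1)` possibilities.  So `card (image) * ℓ ^ (1 + k) ≤ ℓ ^ (r + eC I)`.
-/

namespace Pool.Agent.H94.PN

open Polynomial WithZero
open Pool.Agent.H94.PL
open Pool.Agent.H94.PM

variable {M : Type} [Field M] [hv : Valued M ℤᵐ⁰] [CompleteSpace M] {p : ℕ} [hp : Fact p.Prime]
  [CharP M p] {ϖ : M} (hϖ : (Valued.v : Valuation M ℤᵐ⁰) ϖ = exp (-1 : ℤ)) {ℓ m : ℕ}
  [hl : Fact ℓ.Prime] (hℓ : (Valued.v : Valuation M ℤᵐ⁰) (ℓ : M) = 1)
  {U : LU (Valued.v : Valuation M ℤᵐ⁰) ℓ} {κ : Type} [Field κ] [Finite κ] [DecidableEq κ]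
  {χ : LChar κ ℓ} (rs : Rs Valued.v U κ χ) {D : M} (hD : D ≠ 0) {A : Fin m → M}
  (hA : ∀ i k, i ≠ k → A i ≠ A k) {I : Finset (Fin m)} {a : M} {R : ℤ}
  {w : Fin m → (Valued.v : Valuation M ℤᵐ⁰).integer}

/-- sums over the children -/
private theorem im0_fib {M' : Type} [Field M'] {v : Valuation M' ℤᵐ⁰} {m ℓ : ℕ} {U : LU v ℓ}
    {κ : Type} [Field κ] [DecidableEq κ] {χ : LChar κ ℓ} (rs : Rs v U κ χ) (I : Finset (Fin m))
    (w : Fin m → v.integer) (f : Fin m → ZMod ℓ) (g : κ → ZMod ℓ) :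
    ∑ i ∈ I, f i * g (rs.red (w i)) = ∑ t ∈ res rs I w, (∑ i ∈ chd rs I w t, f i) * g t := by
  have h := Finset.sum_fiberwise_of_maps_to (s := I) (t := res rs I w)
    (g := fun i => rs.red (w i)) (fun i hi => Finset.mem_image_of_mem _ hi)
    (fun i => f i * g (rs.red (w i)))
  rw [← h]
  refine Finset.sum_congr rfl fun t _ => ?_
  rw [Finset.sum_mul]
  refine Finset.sum_congr rfl fun i hi => ?_
  rw [(Finset.mem_filter.1 hi).2]

/-- a functional with sum zero on tuples with values in `I` -/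
private theorem im0_pr {M' : Type} [Field M'] {v : Valuation M' ℤᵐ⁰} {m ℓ : ℕ}
    [Fact ℓ.Prime] {U : LU v ℓ} {κ : Type} [Field κ] [DecidableEq κ] {χ : LChar κ ℓ}
    (rs : Rs v U κ χ) {I : Finset (Fin m)} {w : Fin m → v.integer}
    {φ : Fin m → ZMod ℓ × ZMod ℓ} (h0 : ∀ k, k ∉ I → φ k = 0) (hs : ∑ k, φ k = 0)
    {x : Fin m → M'} {c d : ZMod ℓ} {g : κ → ZMod ℓ}
    (hx : ∀ i ∈ I, (vl v (x i) : ZMod ℓ) = c ∧ U.un (x i) = d + g (rs.red (w i)))
    (hp : pr U φ x = 0) : ∑ t ∈ res rs I w, (sgm rs I w φ t).2 * g t = 0 := by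
  have hs1 : ∑ k, (φ k).1 = 0 := by
    have := congrArg Prod.fst hs
    rwa [Prod.fst_sum, Prod.fst_zero] at this
  have hs2 : ∑ k, (φ k).2 = 0 := by
    have := congrArg Prod.snd hs
    rwa [Prod.snd_sum, Prod.snd_zero] at this
  have e1 : pr U φ x = ∑ k, ((φ k).1 * c + ((φ k).2 * d + (φ k).2 * g (rs.red (w k)))) := by
    unfold pr
    refine Finset.sum_congr rfl fun k _ => ?_
    by_cases hk : k ∈ I
    · rw [(hx k hk).1, (hx k hk).2]
      ring
    · rw [h0 k hk]
      simp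
  rw [hp, Finset.sum_add_distrib, Finset.sum_add_distrib, ← Finset.sum_mul, ← Finset.sum_mul,
    hs1, hs2, zero_mul, zero_mul, zero_add, zero_add] at e1
  have e2 : ∑ k, (φ k).2 * g (rs.red (w k)) = ∑ k ∈ I, (φ k).2 * g (rs.red (w k)) := by
    symm
    refine Finset.sum_subset (Finset.subset_univ I) fun k _ hk => ?_
    rw [h0 k hk, Prod.snd_zero, zero_mul]
  rw [e2, im0_fib rs I w (fun k => (φ k).2) g] at e1
  rw [← e1.symm]
  refine Finset.sum_congr rfl fun t _ => ?_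
  congr 1
  show (∑ i ∈ chd rs I w t, φ i).2 = _
  rw [Prod.snd_sum]

include hϖ hℓ hD in
theorem im0_q (hV : Vtx rs ϖ A I a R w)
    (hν : (ℓ : ℤ) ∣ R * (I.card : ℤ) - vl (Valued.v : Valuation M ℤᵐ⁰) (cI D A I a))
    (hne : rhoI U D A I ϖ a R ≠ 0 ∨ ∃ t ∈ res rs I w, ((chd rs I w t).card : ZMod ℓ) ≠ 0)
    {φ : Fin m → ZMod ℓ × ZMod ℓ} (hφ : φ ∈ Ann U D A I) :
    ∃ τ : ZMod ℓ, τ * rhoI U D A I ϖ a R = 0 ∧
      ∀ t ∈ res rs I w, (sgm rs I w φ t).2 = τ * ((chd rs I w t).card : ZMod ℓ) := by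
  obtain ⟨h0, hs, hP⟩ := (mem_Ann U).1 hφ
  have hff : ∀ pb : κ[X], pb.Monic → Irreducible pb → (∀ t ∈ res rs I w, pb.eval t ≠ 0) →
      ∑ t ∈ res rs I w, ((chd rs I w t).card : ZMod ℓ) * χ.lg (pb.eval t) =
        rhoI U D A I ϖ a R * (pb.natDegree : ZMod ℓ) →
      ∑ t ∈ res rs I w, (sgm rs I w φ t).2 * χ.lg (pb.eval t) =
        0 * (pb.natDegree : ZMod ℓ) := by
    intro pb hPm hPi hP0 hc
    rw [zero_mul]
    have hP0' : ∀ i ∈ I, pb.eval (rs.red (w i)) ≠ 0 := fun i hi =>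
      hP0 _ (Finset.mem_image_of_mem _ hi)
    have hc' : ∑ i ∈ I, χ.lg (pb.eval (rs.red (w i))) =
        (pb.natDegree : ZMod ℓ) * rhoI U D A I ϖ a R := by
      have e := im0_fib rs I w (fun _ => 1) (fun t => χ.lg (pb.eval t))
      simp only [one_mul] at e
      rw [e, mul_comm, ← hc]
      refine Finset.sum_congr rfl fun t _ => ?_
      rw [Finset.sum_const, nsmul_eq_mul, mul_one]
    obtain ⟨P, Q, hPQ, hL, hval⟩ := ver hϖ hℓ rs hD hV hν hPm hPi hP0' hc'
    exact im0_pr rs h0 hs hval (hP P Q hPQ hL)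
  obtain ⟨τ, h1, h2⟩ := ff χ (res rs I w) (fun t => ((chd rs I w t).card : ZMod ℓ))
    (fun t => (sgm rs I w φ t).2) (rhoI U D A I ϖ a R) 0 hne hff
  exact ⟨τ, h1.symm, h2⟩

include p hp hϖ hℓ hD hA in
theorem im0_c (hI : Clu (Valued.v : Valuation M ℤᵐ⁰) A I) (hV : Vtx rs ϖ A I a R w) {t : κ}
    (ht : t ∈ res rs I w) (hc : CC U D A (chd rs I w t)) {φ : Fin m → ZMod ℓ × ZMod ℓ}
    (hφ : φ ∈ Ann U D A I) : sgm rs I w φ t = 0 := by
  have hl1 : 1 ≤ ℓ := hl.out.one_lt.le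
  have hlz : (0 : ℤ) < ℓ := by exact_mod_cast hl.out.pos
  have hϖ0 : ϖ ≠ 0 := by
    rintro rfl
    rw [map_zero] at hϖ
    exact exp_ne_zero hϖ.symm
  have hvϖ : vl (Valued.v : Valuation M ℤᵐ⁰) ϖ = 1 := by
    rw [vl_eq_iff hϖ0]
    exact hϖ
  obtain ⟨j, hjI, hjt⟩ := Finset.mem_image.1 ht
  have hj : j ∈ chd rs I w t := Finset.mem_filter.2 ⟨hjI, hjt⟩
  have hJ := chd_clu rs hϖ hI hV ht
  obtain ⟨j', hj'⟩ := hc.1
  -- the constant is a power
  have hct : cI D A (chd rs I w t) (A j) ≠ 0 := by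
    unfold cI
    refine div_ne_zero hD (Finset.prod_ne_zero_iff.2 fun k hk => sub_ne_zero.2 (hA j k ?_))
    rintro rfl
    exact (Finset.mem_compl.1 hk) hj
  obtain ⟨b, hb0, hb⟩ := pow_of_lu hℓ hϖ U hct
    ((ZMod.intCast_zmod_eq_zero_iff_dvd _ _).1 (hc.2 j hj).1) (hc.2 j hj).2
  -- valuations of the differences
  have hout : ∀ k, k ∉ chd rs I w t → A k ≠ A j ∧
      vl (Valued.v : Valuation M ℤᵐ⁰) (A k - A j) ≤ R := by
    intro k hk
    have hkj : A k ≠ A j := hA k j (by rintro rfl; exact hk hj)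
    refine ⟨hkj, ?_⟩
    by_cases hkI : k ∈ I
    · have hkt : rs.red (w k) ≠ rs.red (w j) := by
        rw [hjt]
        exact fun h => hk (Finset.mem_filter.2 ⟨hkI, h⟩)
      exact ((vl_eq_iff (sub_ne_zero.2 hkj) R).2 (vtx_ne rs hϖ hV hkI hjI hkt).1).le
    · have h1 := hV.out k hkI
      have h2 := vtx_out rs hϖ hV hjI hkI
      have h3 := vl_near h2
      rw [vl_div (sub_ne_zero.2 hkj) (sub_ne_zero.2 h1.1)] at h3
      linarith [h1.2]
  have hin : ∀ i ∈ chd rs I w t, A i ≠ A j →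
      R + 1 ≤ vl (Valued.v : Valuation M ℤᵐ⁰) (A i - A j) := by
    intro i hi hij
    have h1 := vtx_lt rs hϖ hV (Finset.mem_filter.1 hi).1 hjI
      ((Finset.mem_filter.1 hi).2.trans hjt.symm)
    rw [val_vl (sub_ne_zero.2 hij), exp_lt_exp] at h1
    linarith
  -- the polynomials
  have key : ∀ x y : ZMod ℓ, (sgm rs I w φ t).1 * x + (sgm rs I w φ t).2 * y = 0 := by
    intro x y
    obtain ⟨s, hs1, hs2, hs3⟩ : ∃ s : ℤ, 2 * (ℓ : ℤ) * R < s ∧ s < 2 * (ℓ : ℤ) * (R + 1) ∧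
        (s : ZMod ℓ) = x := by
      refine ⟨2 * (ℓ : ℤ) * R + 1 + ((x - 1).val : ℤ), ?_, ?_, ?_⟩
      · have : (0 : ℤ) ≤ ((x - 1).val : ℤ) := Int.natCast_nonneg _
        linarith
      · have : ((x - 1).val : ℤ) < ℓ := by exact_mod_cast ZMod.val_lt (x - 1)
        have h2 : 2 * (ℓ : ℤ) * (R + 1) = 2 * (ℓ : ℤ) * R + (ℓ + ℓ) := by ring
        rw [h2]
        linarith
      · push_cast
        rw [ZMod.natCast_self, ZMod.natCast_zmod_val]
        ring
    obtain ⟨t0, ht0, hlt0⟩ := exists_lg χ (y - (s : ZMod ℓ) * U.un ϖ)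
    obtain ⟨u, hu⟩ := rs.surj t0
    have hvu : (Valued.v : Valuation M ℤᵐ⁰) (u : M) = 1 := by
      refine le_antisymm u.2 (not_lt.1 fun h => ht0 ?_)
      rw [← hu]
      exact (rs.ker u).2 h
    have hu0 : (u : M) ≠ 0 := by
      intro h
      rw [h, map_zero] at hvu
      exact zero_ne_one hvu
    have hunu : U.un (u : M) = y - (s : ZMod ℓ) * U.un ϖ := by
      rw [rs.un u hvu, hu, hlt0]
    have hϖs : ϖ ^ s ≠ 0 := zpow_ne_zero _ hϖ0
    obtain ⟨β, hβ⟩ : ∃ β : M, β = -(ϖ ^ s * (u : M)) := ⟨_, rfl⟩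
    have hβ0 : β ≠ 0 := by
      rw [hβ]
      exact neg_ne_zero.2 (mul_ne_zero hϖs hu0)
    have hvlu : vl (Valued.v : Valuation M ℤᵐ⁰) (u : M) = 0 := by
      rw [vl_eq_iff hu0, neg_zero, exp_zero]
      exact hvu
    have hvβ : vl (Valued.v : Valuation M ℤᵐ⁰) β = s := by
      rw [hβ, vl_neg, vl_mul hϖs hu0, vl_zpow, hvϖ, hvlu]
      ring
    have hnβ : -β = ϖ ^ s * (u : M) := by rw [hβ, neg_neg]
    have huβ : U.un (-β) = y := by
      rw [hnβ, U.mul _ _ hϖs hu0, U.un_zpow hϖ0, hunu]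
      ring
    have hN : 1 ≤ 2 * ℓ := by omega
    obtain ⟨hmon, hdeg⟩ := anp_monic (A j) β hN
    have hS : ∃ S : M[X], (X - C (A j)) ^ (2 * ℓ) - C β ∣
        C (cI D A (chd rs I w t) (A j)) * S ^ ℓ - (X - C (A j)) ^ (chd rs I w t).card := by
      rw [hj']
      exact anpC (A j) hb0 hb
    obtain ⟨⟨Q, hQ⟩, hP1, hP2⟩ := anp hϖ hℓ hl1 hD A (chd rs I w t) (A j) β hN hβ0
      (fun k hk => ⟨(hout k hk).1, by
        have h1 := (hout k hk).2
        have h2 : ((2 * ℓ : ℕ) : ℤ) * vl (Valued.v : Valuation M ℤᵐ⁰) (A k - A j) ≤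
            ((2 * ℓ : ℕ) : ℤ) * R := mul_le_mul_of_nonneg_left h1 (Int.natCast_nonneg _)
        rw [hvβ]
        push_cast at h2 ⊢
        linarith⟩)
      (fun i hi hij => by
        have h1 := hin i hi hij
        have h2 : ((2 * ℓ : ℕ) : ℤ) * (R + 1) ≤
            ((2 * ℓ : ℕ) : ℤ) * vl (Valued.v : Valuation M ℤᵐ⁰) (A i - A j) :=
          mul_le_mul_of_nonneg_left h1 (Int.natCast_nonneg _)
        rw [hvβ]
        push_cast at h2 ⊢
        linarith) hS
    have hloc : LocP (Valued.v : Valuation M ℤᵐ⁰) A (chd rs I w t)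
        ((X - C (A j)) ^ (2 * ℓ) - C β) := by
      intro i hi k hk
      rw [hdeg]
      have h1 := hP1 k hk
      have hkj := (hout k hk).1
      have hki : A k ≠ A i := hA k i (by rintro rfl; exact hk hi)
      have h2 : (Valued.v : Valuation M ℤᵐ⁰) ((A k - A j) / (A k - A i) - 1) < 1 := by
        have e : (A k - A j) / (A k - A i) - 1 = (A i - A j) / (A k - A i) := by
          rw [div_sub_one (sub_ne_zero.2 hki)]
          congr 1
          ring
        rw [e, map_div₀, div_lt_one₀ (by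
          rw [zero_lt_iff, ne_eq, Valuation.zero_iff]
          exact sub_ne_zero.2 hki)]
        have h3 := hJ.2 i hi j hj k hk
        rwa [Valuation.map_sub_swap _ (A i) (A k)] at h3
      have h3 : ∀ n : ℕ, (Valued.v : Valuation M ℤᵐ⁰)
          (((A k - A j) / (A k - A i)) ^ n - 1) < 1 := by
        intro n
        induction n with
        | zero =>
          rw [pow_zero, sub_self, map_zero]
          exact zero_lt_one
        | succ n ih =>
          rw [pow_succ]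
          exact near_mul ih h2
      have h4 := near_mul h1 (h3 (2 * ℓ))
      have e : eval (A k) ((X - C (A j)) ^ (2 * ℓ) - C β) / (A k - A j) ^ (2 * ℓ) *
          ((A k - A j) / (A k - A i)) ^ (2 * ℓ) =
          eval (A k) ((X - C (A j)) ^ (2 * ℓ) - C β) / (A k - A i) ^ (2 * ℓ) := by
        have a1 : (A k - A j) ^ (2 * ℓ) ≠ 0 := pow_ne_zero _ (sub_ne_zero.2 hkj)
        have a2 : (A k - A i) ^ (2 * ℓ) ≠ 0 := pow_ne_zero _ (sub_ne_zero.2 hki)
        rw [div_pow]
        field_simp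
      rwa [e] at h4
    have h5 := pr_child rs hϖ hI hV ht hQ hloc (x := x) (y := y) (fun i hi => by
      have h6 := hP2 i hi
      constructor
      · have h7 := vl_near h6
        rw [vl_div (hQ.2.1 i) (neg_ne_zero.2 hβ0), vl_neg, hvβ] at h7
        rw [← hs3, sub_eq_zero.1 h7]
      · rw [U.un_congr (neg_ne_zero.2 hβ0) h6, huβ]) hφ
    rw [hdeg] at h5
    have h6 : ((2 * ℓ : ℕ) : ZMod ℓ) = 0 := by
      push_cast
      rw [ZMod.natCast_self, mul_zero]
    rw [h6] at h5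
    simpa using h5
  have k1 := key 1 0
  have k2 := key 0 1
  rw [mul_one, mul_zero, add_zero] at k1
  rw [mul_one, mul_zero, zero_add] at k2
  exact Prod.ext k1 k2

/-- counting -/
private theorem im0_card {ℓ : ℕ} [Fact ℓ.Prime] {V W : Type} [AddCommGroup V]
    [Module (ZMod ℓ) V] [AddCommGroup W] [Module (ZMod ℓ) W] [Finite W]
    (S : Submodule (ZMod ℓ) V) (g : V →ₗ[ZMod ℓ] W) (h : ∀ x ∈ S, g x = 0 → x = 0) :
    Nat.card S ≤ Nat.card W := by
  refine Nat.card_le_card_of_injective (fun x : S => g x.1) fun x y hxy => ?_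
  have h1 := h (x.1 - y.1) (S.sub_mem x.2 y.2) (by rw [map_sub, sub_eq_zero]; exact hxy)
  exact Subtype.ext (sub_eq_zero.1 h1)

include p hp hϖ hℓ hD hA in
theorem im0 (hI : Clu (Valued.v : Valuation M ℤᵐ⁰) A I) (hV : Vtx rs ϖ A I a R w)
    (hν : (ℓ : ℤ) ∣ R * (I.card : ℤ) - vl (Valued.v : Valuation M ℤᵐ⁰) (cI D A I a)) :
    Nat.card ((Ann U D A I).map (sgm rs I w)) *
        ℓ ^ (1 + ∑ t ∈ res rs I w, eC U D A (chd rs I w t)) ≤
      ℓ ^ ((res rs I w).card + eC U D A I) := by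
  classical
  have hcardI : ∑ t ∈ res rs I w, ((chd rs I w t).card : ZMod ℓ) = (I.card : ZMod ℓ) := by
    rw [← chd_card rs (I := I) (w := w)]
    push_cast
    rfl
  by_cases hcase : rhoI U D A I ϖ a R = 0 ∧
      ∀ t ∈ res rs I w, ((chd rs I w t).card : ZMod ℓ) = 0
  · obtain ⟨hρ, hn⟩ := hcase
    have hn' : ∀ t ∈ res rs I w, ℓ ∣ (chd rs I w t).card := fun t ht =>
      (ZMod.natCast_eq_zero_iff _ _).1 (hn t ht)
    have hCC : ∀ t ∈ res rs I w, CC U D A (chd rs I w t) := fun t ht =>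
      (cc_chd rs hϖ hD hA hV hn' hν ht).2 hρ
    have hIc : ℓ ∣ I.card := by
      rw [← ZMod.natCast_eq_zero_iff, ← hcardI]
      exact Finset.sum_eq_zero hn
    have hCI : CC U D A I := (cc_self rs hϖ hD hA hV hIc hν).2 hρ
    have e1 : ∑ t ∈ res rs I w, eC U D A (chd rs I w t) = (res rs I w).card := by
      rw [Finset.card_eq_sum_ones]
      refine Finset.sum_congr rfl fun t ht => ?_
      unfold eC
      rw [if_pos (hCC t ht)]
    have e2 : eC U D A I = 1 := by
      unfold eC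
      rw [if_pos hCI]
    have e3 : (Ann U D A I).map (sgm rs I w) = ⊥ := by
      rw [eq_bot_iff]
      rintro _ ⟨φ, hφ, rfl⟩
      rw [Submodule.mem_bot]
      funext t
      by_cases ht : t ∈ res rs I w
      · exact im0_c hϖ hℓ rs hD hA hI hV ht (hCC t ht) hφ
      · exact sgm_out rs ht
    rw [e1, e2, e3, Nat.card_eq_one_iff_unique.2 ⟨inferInstance, inferInstance⟩, one_mul,
      add_comm]
  · have hne : rhoI U D A I ϖ a R ≠ 0 ∨
        ∃ t ∈ res rs I w, ((chd rs I w t).card : ZMod ℓ) ≠ 0 := by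
      by_contra hcon
      push Not at hcon
      exact hcase hcon
    -- a child which is not exceptional
    obtain ⟨t0, ht0, hct0⟩ : ∃ t0 ∈ res rs I w, ¬ CC U D A (chd rs I w t0) := by
      by_cases h1 : ∃ t ∈ res rs I w, ((chd rs I w t).card : ZMod ℓ) ≠ 0
      · obtain ⟨t, ht, h2⟩ := h1
        exact ⟨t, ht, fun h => h2 ((ZMod.natCast_eq_zero_iff _ _).2 h.1)⟩
      · push Not at h1
        have hρ : rhoI U D A I ϖ a R ≠ 0 := by
          rcases hne with h | ⟨t, ht, h⟩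
          · exact h
          · exact absurd (h1 t ht) h
        have hr := res_two rs hV
        obtain ⟨t, ht⟩ : (res rs I w).Nonempty := Finset.card_pos.1 (by omega)
        exact ⟨t, ht, fun h => hρ ((cc_chd rs hϖ hD hA hV
          (fun t ht => (ZMod.natCast_eq_zero_iff _ _).1 (h1 t ht)) hν ht).1 h)⟩
    obtain ⟨N, hNdef⟩ : ∃ N : Finset κ, N = ((res rs I w).filter
      fun t => ¬ CC U D A (chd rs I w t)).erase t0 := ⟨_, rfl⟩
    have hNcard : N.card + (1 + ∑ t ∈ res rs I w, eC U D A (chd rs I w t)) =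
        (res rs I w).card := by
      have h1 : ∑ t ∈ res rs I w, eC U D A (chd rs I w t) =
          ((res rs I w).filter fun t => CC U D A (chd rs I w t)).card := by
        rw [Finset.card_filter]
        rfl
      have h2 : ((res rs I w).filter fun t => CC U D A (chd rs I w t)).card +
          ((res rs I w).filter fun t => ¬ CC U D A (chd rs I w t)).card =
          (res rs I w).card := Finset.card_filter_add_card_filter_not _
      have h3 : t0 ∈ (res rs I w).filter fun t => ¬ CC U D A (chd rs I w t) :=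
        Finset.mem_filter.2 ⟨ht0, hct0⟩
      have h4 : N.card + 1 = ((res rs I w).filter
          fun t => ¬ CC U D A (chd rs I w t)).card := by
        rw [hNdef]
        exact Finset.card_erase_add_one h3
      omega
    have hWcard : Nat.card (N → ZMod ℓ) = ℓ ^ N.card := by
      rw [Nat.card_eq_fintype_card, Fintype.card_fun, ZMod.card, Fintype.card_coe]
    -- the first components
    have hfst : ∀ φ ∈ Ann U D A I, (∀ t ∈ N, (sgm rs I w φ t).1 = 0) →
        ∀ t, (sgm rs I w φ t).1 = 0 := by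
      intro φ hφ h1
      have h2 : ∀ t, t ≠ t0 → (sgm rs I w φ t).1 = 0 := by
        intro t htt
        by_cases ht : t ∈ res rs I w
        · by_cases hc : CC U D A (chd rs I w t)
          · rw [im0_c hϖ hℓ rs hD hA hI hV ht hc hφ, Prod.fst_zero]
          · refine h1 t ?_
            rw [hNdef]
            exact Finset.mem_erase.2 ⟨htt, Finset.mem_filter.2 ⟨ht, hc⟩⟩
        · rw [sgm_out rs ht, Prod.fst_zero]
      intro t
      by_cases htt : t = t0
      · have h3 := congrArg Prod.fst (sgm_sum rs (w := w) hφ)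
        rw [Prod.fst_sum, Prod.fst_zero, Finset.sum_eq_single_of_mem t0 ht0
          (fun t _ h => h2 t h)] at h3
        rw [htt]
        exact h3
      · exact h2 t htt
    have hsnd0 : ∀ φ ∈ Ann U D A I, (∀ t ∈ res rs I w, (sgm rs I w φ t).2 = 0) →
        ∀ t, (sgm rs I w φ t).2 = 0 := by
      intro φ _ h1 t
      by_cases ht : t ∈ res rs I w
      · exact h1 t ht
      · rw [sgm_out rs ht, Prod.snd_zero]
    obtain ⟨G1, hG1⟩ : ∃ G1 : (κ → ZMod ℓ × ZMod ℓ) →ₗ[ZMod ℓ] (N → ZMod ℓ),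
        ∀ x t, G1 x t = (x t.1).1 :=
      ⟨LinearMap.pi fun t => (LinearMap.fst (ZMod ℓ) (ZMod ℓ) (ZMod ℓ)).comp
        (LinearMap.proj t.1), fun x t => rfl⟩
    by_cases hCI : CC U D A I
    · -- one more coordinate
      have e2 : eC U D A I = 1 := by
        unfold eC
        rw [if_pos hCI]
      obtain ⟨t1, ht1, ht1'⟩ : ∃ t1 ∈ res rs I w, (∃ t ∈ res rs I w,
          ((chd rs I w t).card : ZMod ℓ) ≠ 0) → ((chd rs I w t1).card : ZMod ℓ) ≠ 0 := by
        by_cases h1 : ∃ t ∈ res rs I w, ((chd rs I w t).card : ZMod ℓ) ≠ 0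
        · obtain ⟨t, ht, h2⟩ := h1
          exact ⟨t, ht, fun _ => h2⟩
        · exact ⟨t0, ht0, fun h => absurd h h1⟩
      have h1 : Nat.card ((Ann U D A I).map (sgm rs I w)) ≤
          Nat.card ((N → ZMod ℓ) × ZMod ℓ) := by
        refine im0_card _ (G1.prod ((LinearMap.snd (ZMod ℓ) (ZMod ℓ) (ZMod ℓ)).comp
          (LinearMap.proj t1))) ?_
        rintro _ ⟨φ, hφ, rfl⟩ h2
        have h3 : ∀ t ∈ N, (sgm rs I w φ t).1 = 0 := by
          intro t ht
          have := congrFun (congrArg Prod.fst h2) ⟨t, ht⟩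
          rw [← hG1 (sgm rs I w φ) ⟨t, ht⟩]
          exact this
        have h4 : (sgm rs I w φ t1).2 = 0 := congrArg Prod.snd h2
        obtain ⟨τ, _, hτ⟩ := im0_q hϖ hℓ rs hD hV hν hne hφ
        have h5 : ∀ t ∈ res rs I w, (sgm rs I w φ t).2 = 0 := by
          by_cases h6 : ∃ t ∈ res rs I w, ((chd rs I w t).card : ZMod ℓ) ≠ 0
          · have h7 := ht1' h6
            rw [hτ t1 ht1] at h4
            have h8 : τ = 0 := (mul_eq_zero.1 h4).resolve_right h7
            intro t ht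
            rw [hτ t ht, h8, zero_mul]
          · push Not at h6
            intro t ht
            rw [hτ t ht, h6 t ht, mul_zero]
        funext t
        exact Prod.ext (hfst φ hφ h3 t) (hsnd0 φ hφ h5 t)
      rw [Nat.card_prod, hWcard, Nat.card_zmod] at h1
      calc Nat.card ((Ann U D A I).map (sgm rs I w)) *
            ℓ ^ (1 + ∑ t ∈ res rs I w, eC U D A (chd rs I w t)) ≤
            ℓ ^ N.card * ℓ * ℓ ^ (1 + ∑ t ∈ res rs I w, eC U D A (chd rs I w t)) :=
            Nat.mul_le_mul_right _ h1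
        _ = ℓ ^ ((res rs I w).card + eC U D A I) := by
            rw [e2, ← hNcard, ← pow_succ, ← pow_add]
            congr 1
            omega
    · have e2 : eC U D A I = 0 := by
        unfold eC
        rw [if_neg hCI]
      have h1 : Nat.card ((Ann U D A I).map (sgm rs I w)) ≤ Nat.card (N → ZMod ℓ) := by
        refine im0_card _ G1 ?_
        rintro _ ⟨φ, hφ, rfl⟩ h2
        have h3 : ∀ t ∈ N, (sgm rs I w φ t).1 = 0 := by
          intro t ht
          have := congrFun h2 ⟨t, ht⟩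
          rw [← hG1 (sgm rs I w φ) ⟨t, ht⟩]
          exact this
        obtain ⟨τ, hτ0, hτ⟩ := im0_q hϖ hℓ rs hD hV hν hne hφ
        have hτI : τ * (I.card : ZMod ℓ) = 0 := by
          have h4 := congrArg Prod.snd (sgm_sum rs (w := w) hφ)
          rw [Prod.snd_sum, Prod.snd_zero, Finset.sum_congr rfl hτ, ← Finset.mul_sum,
            hcardI] at h4
          exact h4
        have hτz : τ = 0 := by
          by_contra hτn
          have a1 := (mul_eq_zero.1 hτ0).resolve_left hτn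
          have a2 := (mul_eq_zero.1 hτI).resolve_left hτn
          exact hCI ((cc_self rs hϖ hD hA hV ((ZMod.natCast_eq_zero_iff _ _).1 a2) hν).2 a1)
        have h5 : ∀ t ∈ res rs I w, (sgm rs I w φ t).2 = 0 := by
          intro t ht
          rw [hτ t ht, hτz, zero_mul]
        funext t
        exact Prod.ext (hfst φ hφ h3 t) (hsnd0 φ hφ h5 t)
      rw [hWcard] at h1
      calc Nat.card ((Ann U D A I).map (sgm rs I w)) *
            ℓ ^ (1 + ∑ t ∈ res rs I w, eC U D A (chd rs I w t)) ≤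
            ℓ ^ N.card * ℓ ^ (1 + ∑ t ∈ res rs I w, eC U D A (chd rs I w t)) :=
            Nat.mul_le_mul_right _ h1
        _ = ℓ ^ ((res rs I w).card + eC U D A I) := by
            rw [e2, ← hNcard, ← pow_add, add_zero]

end Pool.Agent.H94.PN
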