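import Pool.Agent.H94.PN.IM1
import Pool.Agent.H94.PN.IM0
import Pool.Agent.H94.PM.LOCE

set_option autoImplicit false

/-!
# [H94 PN LMAX] The group of the values over a local field is maximal isotropic

* `ann_card`: `card (Ann I) * ℓ ≤ ℓ ^ (card I + eC I)` for every cluster `I`, by strong induction on `card I`.  `card I = 1`: `φ` is supported on one point with sum `0`, so `φ = 0`.
  `card I ≥ 2`: `exists_vtx`; `r = card res`, `k = ∑ t ∈ res, eC (chd t)`.  For the children (clusters, `chd_clu`, smaller, `chd_lt`): `∏ card (Ann (chd t)) * ℓ ^ r ≤ ℓ ^ (card I + k)` (`chd_card`).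
  `im1` (with `im1_cc`: all `eC` vanish) or `im0`: `card (image) * ℓ ^ (1 + k) ≤ ℓ ^ (r + eC I)`.  With `rec_card`:
  `card (Ann I) * ℓ ^ (r + 1 + k) ≤ ℓ ^ (card I + k + r + eC I)`; cancel `ℓ ^ (r + k)`.
* `gam_max` (`m ≥ 1` since `m` is prime to `ℓ`... if `m = 0` then `ℓ = 1`, impossible): `univ` is a cluster (no `k ∉ univ`), `eC univ = 0` as `ℓ ∤ m`, so `card (Ann univ) ≤ ℓ ^ (m - 1) = card (XX m ℓ)` (`card_XX`).
  Let `E = ee m ℓ (un (-1))`, nondegenerate on `V = XX × XX` (`ee_nondeg`), `G = Gam U α D A`, `G' = {g | E g g' = 0 for all g' ∈ G}`.  `card G * card G' = card V = card (XX) ^ 2`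
  (`LinearMap.BilinForm.finrank_add_finrank_orthogonal'` as in `iso_card_le`, or the argument there).  `G'` embeds in `Ann univ` by `g ↦ φ`, `φ k = (g.2 k + e g.1 k, - g.1 k)`, `e = un (-1)`: `∑ φ = 0`;
  for a Mumford polynomial `P` of degree `n`: `δ k = dvn α D P (A k)` is a value (`IsVln`, `r = 1`), `lgs δ ∈ G`, `0 = E g (lgs δ) = ∑ k, (g.2 k + e g.1 k) vl (δ k) - g.1 k un (δ k) = pr φ δ`, and
  `vl (δ k) = α n vl D + vl (P (A k))`, `un (δ k) = α n (e + un D) + un (P (A k))` with constants which do not matter as `∑ φ = 0`.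
  So `card G' ≤ card (XX)`, so `card G ≥ card (XX)`; the other inequality is `gam_card`.
-/

namespace Pool.Agent.H94.PN

open Polynomial WithZero
open Pool.Agent.H94.PL
open Pool.Agent.H94.PM

variable {M : Type} [Field M] [hv : Valued M ℤᵐ⁰] [CompleteSpace M] {p : ℕ} [hp : Fact p.Prime]
  [CharP M p] {ϖ : M} (hϖ : (Valued.v : Valuation M ℤᵐ⁰) ϖ = exp (-1 : ℤ)) {ℓ m : ℕ}
  [hl : Fact ℓ.Prime] (hℓ : (Valued.v : Valuation M ℤᵐ⁰) (ℓ : M) = 1)
  {U : LU (Valued.v : Valuation M ℤᵐ⁰) ℓ} {κ : Type} [Field κ] [Finite κ]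
  {χ : LChar κ ℓ} (rs : Rs Valued.v U κ χ) {D : M} (hD : D ≠ 0) {A : Fin m → M}
  (hA : ∀ i k, i ≠ k → A i ≠ A k)

/-- arithmetic of the induction step -/
private theorem ann_step {ℓ a P g c k r e : ℕ} (hl0 : 0 < ℓ) (h1 : a ≤ P * g)
    (h2 : P * ℓ ^ r ≤ ℓ ^ (c + k)) (h3 : g * ℓ ^ (1 + k) ≤ ℓ ^ (r + e)) :
    a * ℓ ≤ ℓ ^ (c + e) := by
  have h4 : 0 < ℓ ^ (r + k) := pow_pos hl0 _
  refine Nat.le_of_mul_le_mul_right ?_ h4
  calc a * ℓ * ℓ ^ (r + k) ≤ P * g * ℓ * ℓ ^ (r + k) :=
        Nat.mul_le_mul_right _ (Nat.mul_le_mul_right _ h1)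
    _ = (P * ℓ ^ r) * (g * ℓ ^ (1 + k)) := by
        rw [pow_add, pow_add, pow_one]
        ring
    _ ≤ ℓ ^ (c + k) * ℓ ^ (r + e) := Nat.mul_le_mul h2 h3
    _ = ℓ ^ (c + e) * ℓ ^ (r + k) := by
        rw [← pow_add, ← pow_add]
        congr 1
        omega

include p hp hϖ hℓ rs hD hA

theorem ann_card {I : Finset (Fin m)} (hI : Clu (Valued.v : Valuation M ℤᵐ⁰) A I) :
    Nat.card (Ann U D A I) * ℓ ≤ ℓ ^ (I.card + eC U D A I) := by
  classical
  have hl0 : 0 < ℓ := hl.out.pos
  have key : ∀ N : ℕ, ∀ I : Finset (Fin m), I.card = N →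
      Clu (Valued.v : Valuation M ℤᵐ⁰) A I →
      Nat.card (Ann U D A I) * ℓ ≤ ℓ ^ (I.card + eC U D A I) := by
    intro N
    induction N using Nat.strong_induction_on with
    | _ N ih =>
      intro I hN hI
      have hpos : 0 < I.card := Finset.card_pos.2 hI.1
      by_cases h1 : I.card = 1
      · obtain ⟨i, hi⟩ := Finset.card_eq_one.1 h1
        have hone : Nat.card (Ann U D A I) = 1 := by
          have hsub : Subsingleton (Ann U D A I) := by
            have hz : ∀ φ ∈ Ann U D A I, φ = 0 := by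
              intro φ hφ
              obtain ⟨h2, h3, _⟩ := (mem_Ann U).1 hφ
              have h4 : ∀ k, k ≠ i → φ k = 0 := fun k hk => h2 k (by
                rw [hi]
                exact fun h => hk (Finset.mem_singleton.1 h))
              rw [Finset.sum_eq_single_of_mem i (Finset.mem_univ i) fun k _ hk => h4 k hk] at h3
              funext k
              by_cases hk : k = i
              · rw [hk]
                exact h3
              · exact h4 k hk
            refine ⟨fun φ ψ => Subtype.ext ?_⟩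
            rw [hz φ.1 φ.2, hz ψ.1 ψ.2]
          exact Nat.card_eq_one_iff_unique.2 ⟨hsub, inferInstance⟩
        rw [hone, one_mul, h1]
        calc ℓ = ℓ ^ 1 := (pow_one ℓ).symm
          _ ≤ ℓ ^ (1 + eC U D A I) := Nat.pow_le_pow_right hl0 (by omega)
      · have h2 : 2 ≤ I.card := by omega
        obtain ⟨a, R, w, hV⟩ := exists_vtx rs hϖ hA hI h2
        have h3 : ∀ t ∈ res rs I w, Nat.card (Ann U D A (chd rs I w t)) * ℓ ≤
            ℓ ^ ((chd rs I w t).card + eC U D A (chd rs I w t)) := fun t ht =>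
          ih _ (by rw [← hN]; exact chd_lt rs hV t) _ rfl (chd_clu rs hϖ hI hV ht)
        have h4 : (∏ t ∈ res rs I w, Nat.card (Ann U D A (chd rs I w t))) *
            ℓ ^ (res rs I w).card ≤
            ℓ ^ (I.card + ∑ t ∈ res rs I w, eC U D A (chd rs I w t)) := by
          calc (∏ t ∈ res rs I w, Nat.card (Ann U D A (chd rs I w t))) *
              ℓ ^ (res rs I w).card =
              ∏ t ∈ res rs I w, (Nat.card (Ann U D A (chd rs I w t)) * ℓ) := by
                rw [Finset.prod_mul_distrib, Finset.prod_const]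
            _ ≤ ∏ t ∈ res rs I w, ℓ ^ ((chd rs I w t).card + eC U D A (chd rs I w t)) :=
                Finset.prod_le_prod' h3
            _ = _ := by
                rw [Finset.prod_pow_eq_pow_sum, Finset.sum_add_distrib, chd_card rs]
        have h5 := rec_card (U := U) (D := D) rs hϖ hI hV
        by_cases hν : (ℓ : ℤ) ∣ R * (I.card : ℤ) -
            vl (Valued.v : Valuation M ℤᵐ⁰) (cI D A I a)
        · exact ann_step hl0 h5 h4 (im0 hϖ hℓ rs hD hA hI hV hν)
        · obtain ⟨h6, h7⟩ := im1_cc hϖ rs hD hA hV hν (U := U)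
          have h8 : ∑ t ∈ res rs I w, eC U D A (chd rs I w t) = 0 := by
            refine Finset.sum_eq_zero fun t ht => ?_
            unfold eC
            rw [if_neg (h7 t ht)]
          have h9 : eC U D A I = 0 := by
            unfold eC
            rw [if_neg h6]
          refine ann_step hl0 h5 h4 ?_
          rw [h8, h9, add_zero, pow_one, add_zero]
          exact im1 hϖ hℓ rs hD hA hI hV hν
  exact key _ I rfl hI

theorem gam_max (hm : Nat.Coprime m ℓ) {α : ℕ} (hα : ℓ ∣ α * m + 1) :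
    Nat.card (Gam U α D A) = Nat.card (XX m ℓ) := by
  classical
  refine le_antisymm (gam_card U hm hα hD A) ?_
  have hl0 : 0 < ℓ := hl.out.pos
  have hm1 : 1 ≤ m := by
    rcases Nat.eq_zero_or_pos m with h | h
    · subst h
      rw [Nat.coprime_zero_left] at hm
      exact absurd hm hl.out.one_lt.ne'
    · exact h
  have hu : Clu (Valued.v : Valuation M ℤᵐ⁰) A Finset.univ :=
    ⟨⟨⟨0, hm1⟩, Finset.mem_univ _⟩, fun i _ i' _ k hk => absurd (Finset.mem_univ k) hk⟩
  have hC : eC U D A Finset.univ = 0 := by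
    unfold eC
    rw [if_neg]
    rintro ⟨h, _⟩
    rw [Finset.card_univ, Fintype.card_fin] at h
    exact hl.out.one_lt.ne' (Nat.eq_one_of_dvd_coprimes hm h (dvd_refl ℓ))
  have hA1 := ann_card hϖ hℓ rs hD hA (U := U) hu
  rw [hC, add_zero, Finset.card_univ, Fintype.card_fin] at hA1
  have hA2 : Nat.card (Ann U D A Finset.univ) ≤ Nat.card (XX m ℓ) := by
    rw [card_XX hm1]
    refine Nat.le_of_mul_le_mul_right ?_ hl0
    rw [← pow_succ, Nat.sub_add_cancel hm1]
    exact hA1
  obtain ⟨e, he⟩ : ∃ e, e = U.un (-1) := ⟨_, rfl⟩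
  obtain ⟨b, hb⟩ : ∃ b, b = ee m ℓ e := ⟨_, rfl⟩
  -- the orthogonal complement
  have hk : LinearMap.ker b = ⊥ := by
    rw [LinearMap.ker_eq_bot']
    intro x hx
    rw [hb] at hx
    refine ee_nondeg hm e x fun y => ?_
    rw [hx, LinearMap.zero_apply]
  have h := LinearMap.BilinForm.finrank_add_finrank_orthogonal' (B := b) (Gam U α D A)
  rw [hk, inf_bot_eq, finrank_bot, add_zero] at h
  have hprod : Nat.card (Gam U α D A) *
      Nat.card (LinearMap.BilinForm.orthogonal b (Gam U α D A)) =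
      Nat.card (XX m ℓ) * Nat.card (XX m ℓ) := by
    rw [← Nat.card_prod (XX m ℓ) (XX m ℓ), Module.natCard_eq_pow_finrank (K := ZMod ℓ),
      Module.natCard_eq_pow_finrank (K := ZMod ℓ)
        (V := LinearMap.BilinForm.orthogonal b (Gam U α D A)),
      Module.natCard_eq_pow_finrank (K := ZMod ℓ) (V := XX m ℓ × XX m ℓ), ← pow_add, h]
  obtain ⟨Φ, hΦ⟩ : ∃ Φ : XX m ℓ × XX m ℓ → Fin m → ZMod ℓ × ZMod ℓ,
      ∀ g k, Φ g k = (e * g.1.1 k - g.2.1 k, g.1.1 k) := ⟨fun g k => _, fun g k => rfl⟩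
  have hmem : ∀ g ∈ LinearMap.BilinForm.orthogonal b (Gam U α D A),
      Φ g ∈ Ann U D A Finset.univ := by
    intro g hg
    have hs1 : ∑ k, g.1.1 k = 0 := XX_sum g.1
    have hs2 : ∑ k, g.2.1 k = 0 := XX_sum g.2
    refine (mem_Ann U).2 ⟨fun k hk => absurd (Finset.mem_univ k) hk, ?_, fun P Q hPQ _ => ?_⟩
    · refine Prod.ext ?_ ?_
      · rw [Prod.fst_sum]
        simp only [hΦ, Finset.sum_sub_distrib, ← Finset.mul_sum, hs1, hs2, mul_zero, sub_zero]
        rfl
      · rw [Prod.snd_sum]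
        simp only [hΦ, hs1]
        rfl
    · have hδ : IsVln ℓ α D A (fun k => dvn α D P (A k)) := by
        refine ⟨1, fun _ => P, fun _ => Q, fun _ => 1, fun _ => hPQ, fun _ => one_ne_zero,
          fun k => ?_⟩
        rw [one_pow, mul_one, Finset.prod_const, Finset.card_univ, Fintype.card_fin, pow_one]
      have h1 := (LinearMap.BilinForm.mem_orthogonal_iff.1 hg) _ (lgs_mem_Gam U hδ)
      have h2 : b (lgs U (fun k => dvn α D P (A k))) g = 0 := h1
      have hne := fun k => isVln_ne hD hδ k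
      have hpd := prod_of_isVln hl.out hα hδ
      rw [hb, ee_apply, BB_apply, BB_apply, BB_apply, Finset.mul_sum,
        ← Finset.sum_sub_distrib, ← Finset.sum_add_distrib] at h2
      have hD' : (-D) ≠ 0 := neg_ne_zero.2 hD
      have e1 : ∀ k, (lgs U (fun k => dvn α D P (A k))).1.1 k =
          ((P.natDegree : ZMod ℓ) * ((α : ZMod ℓ) *
            (vl (Valued.v : Valuation M ℤᵐ⁰) (-D) : ZMod ℓ))) +
            (vl (Valued.v : Valuation M ℤᵐ⁰) (P.eval (A k)) : ZMod ℓ) := by
        intro k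
        rw [lgs_fst U hne hpd]
        unfold dvn
        rw [vl_mul (pow_ne_zero _ (pow_ne_zero _ hD')) (hPQ.2.1 k), vl_pow, vl_pow]
        push_cast
        rfl
      have e2 : ∀ k, (lgs U (fun k => dvn α D P (A k))).2.1 k =
          ((P.natDegree : ZMod ℓ) * ((α : ZMod ℓ) * U.un (-D))) + U.un (P.eval (A k)) := by
        intro k
        rw [lgs_snd U hne hpd]
        unfold dvn
        rw [U.mul _ _ (pow_ne_zero _ (pow_ne_zero _ hD')) (hPQ.2.1 k),
          U.un_pow (pow_ne_zero _ hD'), U.un_pow hD']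
      have e3 : pr U (Φ g) (fun k => P.eval (A k)) =
          ∑ k, ((lgs U (fun k => dvn α D P (A k))).2.1 k * g.1.1 k -
            (lgs U (fun k => dvn α D P (A k))).1.1 k * g.2.1 k +
            e * ((lgs U (fun k => dvn α D P (A k))).1.1 k * g.1.1 k)) := by
        obtain ⟨c1, hc1⟩ : ∃ c1, c1 = (P.natDegree : ZMod ℓ) * ((α : ZMod ℓ) *
            (vl (Valued.v : Valuation M ℤᵐ⁰) (-D) : ZMod ℓ)) := ⟨_, rfl⟩
        obtain ⟨c2, hc2⟩ : ∃ c2, c2 = (P.natDegree : ZMod ℓ) * ((α : ZMod ℓ) * U.un (-D)) :=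
          ⟨_, rfl⟩
        simp only [e1, e2, ← hc1, ← hc2]
        unfold pr
        have e4 : ∀ k, (c2 + U.un (P.eval (A k))) * g.1.1 k -
            (c1 + (vl (Valued.v : Valuation M ℤᵐ⁰) (P.eval (A k)) : ZMod ℓ)) * g.2.1 k +
            e * ((c1 + (vl (Valued.v : Valuation M ℤᵐ⁰) (P.eval (A k)) : ZMod ℓ)) *
              g.1.1 k) =
            ((Φ g k).1 * (vl (Valued.v : Valuation M ℤᵐ⁰) (P.eval (A k)) : ZMod ℓ) +
              (Φ g k).2 * U.un (P.eval (A k))) +
            ((c2 + e * c1) * g.1.1 k + (-c1) * g.2.1 k) := by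
          intro k
          rw [hΦ]
          simp only
          ring
        simp only [e4]
        rw [Finset.sum_add_distrib (f := fun k => (Φ g k).1 *
            (vl (Valued.v : Valuation M ℤᵐ⁰) (P.eval (A k)) : ZMod ℓ) +
              (Φ g k).2 * U.un (P.eval (A k))),
          Finset.sum_add_distrib (f := fun k => (c2 + e * c1) * g.1.1 k), ← Finset.mul_sum,
          ← Finset.mul_sum, hs1, hs2, mul_zero, mul_zero, add_zero, add_zero]
      rw [e3]
      exact h2
  have hle : Nat.card (LinearMap.BilinForm.orthogonal b (Gam U α D A)) ≤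
      Nat.card (Ann U D A Finset.univ) := by
    refine Nat.card_le_card_of_injective (fun g => ⟨Φ g.1, hmem g.1 g.2⟩) fun g g' hgg => ?_
    have h1 : Φ g.1 = Φ g'.1 := congrArg Subtype.val hgg
    have h2 : ∀ k, g.1.1.1 k = g'.1.1.1 k := fun k => by
      have := congrArg Prod.snd (congrFun h1 k)
      rw [hΦ, hΦ] at this
      exact this
    have h3 : ∀ k, g.1.2.1 k = g'.1.2.1 k := fun k => by
      have := congrArg Prod.fst (congrFun h1 k)
      rw [hΦ, hΦ] at this
      simp only [h2 k] at this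
      exact sub_right_injective this
    exact Subtype.ext (Prod.ext (Subtype.ext (funext h2)) (Subtype.ext (funext h3)))
  have hpos : 0 < Nat.card (XX m ℓ) := Nat.card_pos
  refine Nat.le_of_mul_le_mul_right ?_ hpos
  rw [← hprod]
  exact Nat.mul_le_mul_left _ (hle.trans hA2)

end Pool.Agent.H94.PN
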