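import Pool.Agent.H94.PN.RSP
import Pool.Agent.H94.PN.LMAX
import Pool.Agent.H94.PM.WLO

set_option autoImplicit false

/-!
# [H94 PN GMX] The groups of the values at the places are maximal isotropic; values and groups

* `gam_max_P`, `gam_max_I`: `gam_max` for the completions: `p` the characteristic of `F` (`CharP.exists`, prime as `F` is finite), `exists_RsP`, `char_P`, uniformizer `toP P`, `wP_self`, `val_l_P hq`; at infinity `complete_inf`, `unif_inf`,
  `val_l_inf hq`, `exists_RsI`, `char_I` (see `PM.WLO.exists_OKl`, `exists_OKi` for the use of these).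
* `isVln_of_mem`: the set `{lgs U δ | IsVln ℓ α D A δ}` contains `0` (`isVln_one`) and is closed under addition (`isVln_mul`; `lgs` of a product is the sum: components by `lgs_fst`, `lgs_snd`, with `isVln_ne`, `prod_of_isVln`) and under
  multiplication by `c : ZMod ℓ` (`isVln_pow` with exponent `c.val`), so it is the span `Gam`.  If `lgs U δ = lgs U δ'`, `IsVln δ'`, then `x = δ k / δ' k` has `vl x ≡ 0`, `un x = 0` (`lgs_fst`, `lgs_snd` for both), so `x = y ^ ℓ` (`pow_of_lu`), and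
  `isVln_congr`.
-/

namespace Pool.Agent.H94.PN

open Polynomial WithZero IsDedekindDomain
open Pool.Agent.H94.PL
open Pool.Agent.H94.PM

section
variable {F : Type} [Field F] [Finite F] {ℓ m : ℕ} [hl : Fact ℓ.Prime] (χ : LChar F ℓ)

theorem gam_max_P (hq : ℓ ∣ Nat.card F - 1) (hm : Nat.Coprime m ℓ) {α : ℕ}
    (hα : ℓ ∣ α * m + 1) {P : F[X]} (hPm : P.Monic) (hP : Irreducible P)
    {D' : (LT.place P hP).adicCompletion (RatFunc F)} (hD : D' ≠ 0)
    {A' : Fin m → (LT.place P hP).adicCompletion (RatFunc F)}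
    (hA : ∀ i k, i ≠ k → A' i ≠ A' k) :
    Nat.card (Gam (UP χ hPm hP) α D' A') = Nat.card (XX m ℓ) := by
  obtain ⟨p, hp⟩ := CharP.exists F
  have : Fact p.Prime := ⟨CharP.char_is_prime F p⟩
  have := char_P hP p
  obtain ⟨κ, hκ, hκf, χ', ⟨rs⟩⟩ := exists_RsP χ hPm hP
  exact gam_max (wP_self P hP) (val_l_P hq hP) rs hD hA hm hα

theorem gam_max_I [DecidableEq (RatFunc F)] (hq : ℓ ∣ Nat.card F - 1) (hm : Nat.Coprime m ℓ)
    {α : ℕ} (hα : ℓ ∣ α * m + 1) {D' : RatFunc.CompletionAtInfty F} (hD : D' ≠ 0)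
    {A' : Fin m → RatFunc.CompletionAtInfty F} (hA : ∀ i k, i ≠ k → A' i ≠ A' k) :
    Nat.card (Gam (UI χ) α D' A') = Nat.card (XX m ℓ) := by
  obtain ⟨p, hp⟩ := CharP.exists F
  have : Fact p.Prime := ⟨CharP.char_is_prime F p⟩
  have := char_I (F := F) p
  have := complete_inf F
  obtain ⟨rs⟩ := exists_RsI χ
  exact gam_max (unif_inf (F := F)) (val_l_inf hq) rs hD hA hm hα

end

theorem isVln_of_mem {M : Type} [Field M] [hv : Valued M ℤᵐ⁰] [CompleteSpace M] {ϖ : M}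
    (hϖ : (Valued.v : Valuation M ℤᵐ⁰) ϖ = exp (-1 : ℤ)) {ℓ m : ℕ} [hl : Fact ℓ.Prime]
    (hℓ : (Valued.v : Valuation M ℤᵐ⁰) (ℓ : M) = 1)
    (U : LU (Valued.v : Valuation M ℤᵐ⁰) ℓ) {α : ℕ} (hα : ℓ ∣ α * m + 1) {D : M} (hD : D ≠ 0)
    {A δ : Fin m → M} (h0 : ∀ k, δ k ≠ 0) (hy : ∃ y : M, ∏ k, δ k = y ^ ℓ)
    (h : lgs U δ ∈ Gam U α D A) : IsVln ℓ α D A δ := by
  have hlp := hl.out
  have hprod : ∀ {δ' : Fin m → M}, IsVln ℓ α D A δ' → ∃ y : M, ∏ k, δ' k = y ^ ℓ :=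
    fun h' => prod_of_isVln hlp hα h'
  have key : ∃ δ' : Fin m → M, IsVln ℓ α D A δ' ∧ lgs U δ = lgs U δ' := by
    refine Submodule.span_induction (p := fun g _ => ∃ δ' : Fin m → M,
      IsVln ℓ α D A δ' ∧ g = lgs U δ') ?_ ?_ ?_ ?_ h
    · rintro g ⟨δ', h1, h2⟩
      exact ⟨δ', h1, h2⟩
    · refine ⟨1, isVln_one D A, ?_⟩
      have h1 : ∃ y : M, ∏ k, (1 : Fin m → M) k = y ^ ℓ := hprod (isVln_one D A)
      have hne : ∀ k, (1 : Fin m → M) k ≠ 0 := fun k => one_ne_zero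
      refine Prod.ext (Subtype.ext (funext fun k => ?_)) (Subtype.ext (funext fun k => ?_))
      · rw [lgs_fst U hne h1 k, Pi.one_apply, vl_one, Int.cast_zero]
        rfl
      · rw [lgs_snd U hne h1 k, Pi.one_apply, U.un_one]
        rfl
    · rintro g g' _ _ ⟨δ₁, h1, rfl⟩ ⟨δ₂, h2, rfl⟩
      have h3 := isVln_mul h1 h2
      refine ⟨δ₁ * δ₂, h3, ?_⟩
      have n1 := isVln_ne hD h1
      have n2 := isVln_ne hD h2
      have n3 := isVln_ne hD h3
      refine Prod.ext (Subtype.ext (funext fun k => ?_)) (Subtype.ext (funext fun k => ?_))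
      · have e1 := lgs_fst U n1 (hprod h1) k
        have e2 := lgs_fst U n2 (hprod h2) k
        have e3 := lgs_fst U n3 (hprod h3) k
        rw [e3, Pi.mul_apply, vl_mul (n1 k) (n2 k), Int.cast_add, ← e1, ← e2]
        rfl
      · have e1 := lgs_snd U n1 (hprod h1) k
        have e2 := lgs_snd U n2 (hprod h2) k
        have e3 := lgs_snd U n3 (hprod h3) k
        rw [e3, Pi.mul_apply, U.mul _ _ (n1 k) (n2 k), ← e1, ← e2]
        rfl
    · rintro c g _ ⟨δ₁, h1, rfl⟩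
      have h3 := isVln_pow h1 c.val
      have : NeZero ℓ := ⟨hlp.ne_zero⟩
      refine ⟨fun k => δ₁ k ^ c.val, h3, ?_⟩
      have n1 := isVln_ne hD h1
      have n3 := isVln_ne hD h3
      refine Prod.ext (Subtype.ext (funext fun k => ?_)) (Subtype.ext (funext fun k => ?_))
      · have e1 := lgs_fst U n1 (hprod h1) k
        have e3 := lgs_fst U n3 (hprod h3) k
        rw [e3, vl_pow, Int.cast_mul, Int.cast_natCast, ZMod.natCast_zmod_val, ← e1]
        rfl
      · have e1 := lgs_snd U n1 (hprod h1) k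
        have e3 := lgs_snd U n3 (hprod h3) k
        rw [e3, U.un_pow (n1 k), ZMod.natCast_zmod_val, ← e1]
        rfl
  obtain ⟨δ', h1, h2⟩ := key
  have n1 := isVln_ne hD h1
  have p1 := hprod h1
  have hγ : ∀ k, ∃ y : M, y ≠ 0 ∧ δ k / δ' k = y ^ ℓ := by
    intro k
    refine pow_of_lu hℓ hϖ U (div_ne_zero (h0 k) (n1 k)) ?_ ?_
    · have e1 := lgs_fst U h0 hy k
      have e2 := lgs_fst U n1 p1 k
      rw [h2, e2] at e1
      rw [← ZMod.intCast_zmod_eq_zero_iff_dvd, vl_div (h0 k) (n1 k), Int.cast_sub, ← e1, sub_self]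
    · have e1 := lgs_snd U h0 hy k
      have e2 := lgs_snd U n1 p1 k
      rw [h2, e2] at e1
      rw [U.un_div (h0 k) (n1 k), ← e1, sub_self]
  choose y hy0 hy1 using hγ
  have h3 := isVln_congr h1 hy0
  have h4 : (fun k => δ' k * y k ^ ℓ) = δ := by
    funext k
    rw [← hy1 k, mul_div_cancel₀ _ (n1 k)]
  rw [h4] at h3
  exact h3

end Pool.Agent.H94.PN
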