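import Pool.Agent.H94.PM.LOCE
import Pool.Agent.H94.PM.QF

set_option autoImplicit false

/-!
# [H94 PN IDO] The sum of the local forms, `ℓ` odd

`z = (ε, ξ)`, `z' = (ε', ξ')`, `B = BB m ℓ`, `e0 = χ.lg (-1) = 0` as `ℓ ≠ 2` (`lg2`).  `ee m ℓ 0 g g' = B g.2 g'.1 - B g.1 g'.2`.  `locv v z = (ε.2 v, deg v • ε.1 + ∑ v' ≠ v, lm v' v • ε.2 v' + ξ.2 v + 0)`, `loci z = (- (∑ v, deg v • ε.2 v + ξ.1), ε.1)`.
Sum over `v`: `∑ v, [deg v B ε.1 (ε'.2 v) + ∑ v' ≠ v, lm v' v B (ε.2 v') (ε'.2 v) + B (ξ.2 v) (ε'.2 v)] - ∑ v, [deg v B (ε.2 v) ε'.1 + ∑ v' ≠ v, lm v' v B (ε.2 v) (ε'.2 v') + B (ε.2 v) (ξ'.2 v)]`;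
infinity: `B ε.1 (- (∑ deg v ε'.2 v + ξ'.1)) + B (∑ deg v ε.2 v + ξ.1) ε'.1`.  The terms with `deg v` cancel; the terms with `lm` cancel since `lm χ v' v = lm χ v v'` (`lm_recip'` with `lg (-1) = 0`; exchange `v`, `v'` in the second sum).
It remains `∑ v, B (ξ.2 v) (ε'.2 v) + B ξ.1 ε'.1 - ∑ v, B (ε.2 v) (ξ'.2 v) - B ε.1 ξ'.1` (and `B` is symmetric).
-/

namespace Pool.Agent.H94.PN

open Polynomial
open Pool.Agent.H94.PL
open Pool.Agent.H94.PM
open Pool.Agent.H94.PC (Mo Sq Pr pf om Mn mem_Mo mem_Sq mem_Pr mem_pf mem_pf')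

variable {F : Type} [Field F] [Finite F] {ℓ m : ℕ} [hl : Fact ℓ.Prime] (χ : LChar F ℓ)
variable {A : Fin m → F[X]}

private theorem ido_abs {K X S : Type} [CommRing K] [AddCommGroup X] [Module K X] [Fintype S]
    (inst : DecidableEq S) (B : X →ₗ[K] X →ₗ[K] K) (hB : ∀ x y, B x y = B y x) (d : S → K)
    (l : S → S → K) (hl : ∀ v v', l v v' = l v' v) (κ κ' ξ ξ' : X) (y y' x x' : S → X) :
    ∑ v, (B (d v • κ + ∑ v' ∈ Finset.univ.erase v, l v' v • y v' + x v) (y' v) -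
        B (y v) (d v • κ' + ∑ v' ∈ Finset.univ.erase v, l v' v • y' v' + x' v)) +
      (B κ (-(∑ v, d v • y' v + ξ')) - B (-(∑ v, d v • y v + ξ)) κ') =
      (B ξ κ' + ∑ v, B (x v) (y' v)) - (B ξ' κ + ∑ v, B (x' v) (y v)) := by
  have e1 : ∀ v, B (d v • κ + ∑ v' ∈ Finset.univ.erase v, l v' v • y v' + x v) (y' v) =
      d v * B κ (y' v) + ∑ v', (if v' ≠ v then l v' v * B (y v') (y' v) else 0) +
        B (x v) (y' v) := by
    intro v
    rw [map_add, map_add, LinearMap.add_apply, LinearMap.add_apply, map_smul, LinearMap.smul_apply,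
      smul_eq_mul, map_sum, LinearMap.sum_apply]
    congr 2
    rw [← Finset.sum_filter]
    refine Finset.sum_congr ?_ fun v' _ => ?_
    · ext v'
      simp
    · rw [map_smul, LinearMap.smul_apply, smul_eq_mul]
  have e2 : ∀ v, B (y v) (d v • κ' + ∑ v' ∈ Finset.univ.erase v, l v' v • y' v' + x' v) =
      d v * B (y v) κ' + ∑ v', (if v' ≠ v then l v' v * B (y v) (y' v') else 0) +
        B (y v) (x' v) := by
    intro v
    rw [map_add, map_add, map_smul, smul_eq_mul, map_sum]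
    congr 2
    rw [← Finset.sum_filter]
    refine Finset.sum_congr ?_ fun v' _ => ?_
    · ext v'
      simp
    · rw [map_smul, smul_eq_mul]
  have e3 : B κ (-(∑ v, d v • y' v + ξ')) = -(∑ v, d v * B κ (y' v) + B κ ξ') := by
    rw [map_neg, map_add, map_sum]
    simp only [map_smul, smul_eq_mul]
  have e4 : B (-(∑ v, d v • y v + ξ)) κ' = -(∑ v, d v * B (y v) κ' + B ξ κ') := by
    rw [map_neg, map_add, map_sum, LinearMap.neg_apply, LinearMap.add_apply, LinearMap.sum_apply]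
    simp only [map_smul, LinearMap.smul_apply, smul_eq_mul]
  have e5 : ∑ v, ∑ v', (if v' ≠ v then l v' v * B (y v') (y' v) else 0) =
      ∑ v, ∑ v', (if v' ≠ v then l v' v * B (y v) (y' v') else 0) := by
    rw [Finset.sum_comm]
    refine Finset.sum_congr rfl fun v _ => Finset.sum_congr rfl fun v' _ => ?_
    by_cases h : v = v'
    · rw [if_neg (not_not.2 h), if_neg (not_not.2 h.symm)]
    · rw [if_pos h, if_pos (Ne.symm h), hl v v']
  have e6 : ∑ v, B (x' v) (y v) = ∑ v, B (y v) (x' v) :=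
    Finset.sum_congr rfl fun v _ => hB _ _
  simp only [e1, e2, e3, e4, Finset.sum_sub_distrib, Finset.sum_add_distrib, e5, e6]
  rw [hB ξ' κ]
  ring

private theorem ido_lg (h2 : ℓ ≠ 2) : χ.lg (-1) = 0 := by
  have h := lg2 χ
  have h3 : (2 : ZMod ℓ) ≠ 0 := by
    intro h4
    have h5 : ((2 : ℕ) : ZMod ℓ) = 0 := by exact_mod_cast h4
    rw [ZMod.natCast_eq_zero_iff] at h5
    exact h2 ((Nat.prime_dvd_prime_iff_eq hl.out Nat.prime_two).1 h5)
  rw [← two_mul] at h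
  exact (mul_eq_zero.1 h).resolve_left h3

theorem ido (h2 : ℓ ≠ 2) (z z' : EE (XX m ℓ) (pf (dl A)) × EE (XX m ℓ) (pf (dl A))) :
    ∑ v, ee m ℓ 0 (locv χ v z) (locv χ v z') + ee m ℓ 0 (loci z) (loci z') =
      (BB m ℓ z.2.1 z'.1.1 + ∑ v, BB m ℓ (z.2.2 v) (z'.1.2 v)) -
        (BB m ℓ z'.2.1 z.1.1 + ∑ v, BB m ℓ (z'.2.2 v) (z.1.2 v)) := by
  have hlg := ido_lg χ h2
  have hB : ∀ x y : XX m ℓ, BB m ℓ x y = BB m ℓ y x := BB_symm
  have e1 : ∀ g g' : XX m ℓ × XX m ℓ, ee m ℓ 0 g g' = BB m ℓ g.2 g'.1 - BB m ℓ g.1 g'.2 := by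
    intro g g'
    rw [ee_apply, zero_mul, add_zero]
  simp only [e1]
  simp only [locv, loci, LinearMap.coe_mk, AddHom.coe_mk, hlg, zero_mul, zero_smul, add_zero]
  exact ido_abs _ (BB m ℓ) hB
    (fun v : pf (dl A) => (v.1.natDegree : ZMod ℓ))
    (fun v' v : pf (dl A) => lm χ v'.1 v.1) (fun v v' => lm_recip χ h2 _ _) z.1.1 z'.1.1 z.2.1
    z'.2.1 z.1.2 z'.1.2 z.2.2 z'.2.2

end Pool.Agent.H94.PN
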