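import Pool.Agent.H94.PN.ANP
import Pool.Agent.H94.PN.CV
import Pool.Agent.H94.PN.CCH

set_option autoImplicit false

/-!
# [H94 PN IM1] The image of `sgm`, first case: `vl c ≢ R card I`

`ν = vl c - R card I ≢ 0` modulo `ℓ`, `c = cI D A I a`, `n_t = card (chd t)`.
(1) No `chd t` is exceptional and `I` is not: if `ℓ ∣ n_t` then `vl c_t = ν + R n_t ≢ 0` (`cch_vl`); for `I`: `cc_iff`.
(2) For each `t ∈ res` there is `(x, y)` and a Mumford polynomial `P` located at `chd t` whose values on `chd t` have the class `(x, y)`, with `x ≠ deg P * R` in `ZMod ℓ`.  Let `j ∈ chd t`, `a_t = A j`, `c_t = cI D A (chd t) a_t`,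
`P = (X - a_t) ^ N - β`.  For `anp` we need `N vl (A k - a_t) < vl β` for `k ∉ chd t` (enough: `N R < vl β`, as `vl (A k - a_t) ≤ R`: `vtx_ne`, `vtx_out` and `out`) and `vl β < N vl (A i - a_t)`
for `i ∈ chd t`, `i ≠ j` (enough: `vl β < N (R + 1)`, `vtx_lt`).
 - `ℓ ∤ n_t`: `N = ℓ + 1`; let `n' n_t = 1 + ℓ z` (`n' ≥ 1`, `z ≥ 0`), `β = c_t ^ n' * y ^ ℓ`, `y = ϖ ^ s`: `β ^ n_t = c_t * (c_t ^ z * y ^ n_t) ^ ℓ` (`anpA`, `N' = 1`), and `s` is chosen with `N R < vl β ≤ N R + ℓ < N (R + 1)`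
   (`vl β = n' vl c_t + ℓ s`).  `x = vl (-β)`, `n_t (x - N R) ≡ vl c_t - n_t R = ν ≢ 0` (`N ≡ 1`, `n' n_t ≡ 1`).
 - `ℓ ∣ n_t`: `N = 2 ℓ`, `β = c_t * (ϖ ^ s) ^ ℓ` (`anpB`), `N R < vl β ≤ N R + ℓ < N (R + 1)`; `x - N R ≡ vl c_t ≡ ν ≢ 0` (`R n_t ≡ 0`).
(3) By `pr_child` and `∑ σ = 0` (`sgm_sum`): `(σ t).1 (x - n R) + (linear function of the (σ t').2) = 0`, `n = deg P`: `∑_{t' ≠ t} (σ t').1 n R = - (σ t).1 n R`.  So `(σ t).1` is a function of the second components.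
The image of `Ann I` in `κ → ZMod ℓ × ZMod ℓ` therefore embeds by `σ ↦ σ.2` in `{q : κ → ZMod ℓ | q = 0 outside res, ∑ q = 0}` (`sgm_out`, `sgm_sum`), which has `ℓ ^ (card res - 1)` elements (`res` nonempty).
-/

namespace Pool.Agent.H94.PN

open Polynomial WithZero
open Pool.Agent.H94.PL
open Pool.Agent.H94.PM

variable {M : Type} [Field M] [hv : Valued M ℤᵐ⁰] [CompleteSpace M] {p : ℕ} [hp : Fact p.Prime]
  [CharP M p] {ϖ : M} (hϖ : (Valued.v : Valuation M ℤᵐ⁰) ϖ = exp (-1 : ℤ)) {ℓ m : ℕ}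
  [hl : Fact ℓ.Prime] (hℓ : (Valued.v : Valuation M ℤᵐ⁰) (ℓ : M) = 1)
  {U : LU (Valued.v : Valuation M ℤᵐ⁰) ℓ} {κ : Type} [Field κ] [Finite κ] [DecidableEq κ]
  {χ : LChar κ ℓ} (rs : Rs Valued.v U κ χ) {D : M} (hD : D ≠ 0) {A : Fin m → M}
  (hA : ∀ i k, i ≠ k → A i ≠ A k) {I : Finset (Fin m)} {a : M} {R : ℤ}
  {w : Fin m → (Valued.v : Valuation M ℤᵐ⁰).integer}

include hϖ hD hA in
theorem im1_cc (hV : Vtx rs ϖ A I a R w)
    (hν : ¬ (ℓ : ℤ) ∣ R * (I.card : ℤ) - vl (Valued.v : Valuation M ℤᵐ⁰) (cI D A I a)) :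
    ¬ CC U D A I ∧ ∀ t ∈ res rs I w, ¬ CC U D A (chd rs I w t) := by
  constructor
  · intro h
    obtain ⟨h1, h2, _⟩ := (cc_iff rs hϖ hD hA hV).1 h
    refine hν ((ZMod.intCast_zmod_eq_zero_iff_dvd _ _).1 ?_)
    push_cast
    rw [h2, (ZMod.natCast_eq_zero_iff _ _).2 h1]
    ring
  · intro t ht h
    obtain ⟨j, hjI, hjt⟩ := Finset.mem_image.1 ht
    have hj : j ∈ chd rs I w t := Finset.mem_filter.2 ⟨hjI, hjt⟩
    have h1 := (h.2 j hj).1
    rw [cch_vl rs hϖ hD hA hV hj] at h1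
    refine hν ((ZMod.intCast_zmod_eq_zero_iff_dvd _ _).1 ?_)
    push_cast at h1 ⊢
    rw [(ZMod.natCast_eq_zero_iff _ _).2 h.1] at h1
    linear_combination -h1

include p hp hϖ hℓ hD hA in
/-- the polynomials at a child -/
private theorem im1_pol (hI : Clu (Valued.v : Valuation M ℤᵐ⁰) A I) (hV : Vtx rs ϖ A I a R w)
    {t : κ} (ht : t ∈ res rs I w) {j : Fin m} (hj : j ∈ chd rs I w t) {N : ℕ} (hN : 1 ≤ N)
    {β : M} (hβ0 : β ≠ 0) (h1 : (N : ℤ) * R < vl (Valued.v : Valuation M ℤᵐ⁰) β)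
    (h2 : vl (Valued.v : Valuation M ℤᵐ⁰) β < (N : ℤ) * (R + 1))
    (hS : ∃ S : M[X], (X - C (A j)) ^ N - C β ∣
        C (cI D A (chd rs I w t) (A j)) * S ^ ℓ - (X - C (A j)) ^ (chd rs I w t).card) :
    ∃ P Q : M[X], IsMum ℓ D A P Q ∧ P.natDegree = N ∧
      LocP (Valued.v : Valuation M ℤᵐ⁰) A (chd rs I w t) P ∧
      ∀ i ∈ chd rs I w t, (vl (Valued.v : Valuation M ℤᵐ⁰) (P.eval (A i)) : ZMod ℓ) =
        (vl (Valued.v : Valuation M ℤᵐ⁰) β : ZMod ℓ) ∧ U.un (P.eval (A i)) = U.un (-β) := by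
  have hl1 : 1 ≤ ℓ := hl.out.one_lt.le
  have hjI : j ∈ I := (Finset.mem_filter.1 hj).1
  have hjt : rs.red (w j) = t := (Finset.mem_filter.1 hj).2
  have hJ := chd_clu rs hϖ hI hV ht
  -- valuations of the differences
  have hout : ∀ k, k ∉ chd rs I w t → A k ≠ A j ∧
      vl (Valued.v : Valuation M ℤᵐ⁰) (A k - A j) ≤ R := by
    intro k hk
    have hkj : A k ≠ A j := hA k j (by rintro rfl; exact hk hj)
    refine ⟨hkj, ?_⟩
    by_cases hkI : k ∈ I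
    · have hkt : rs.red (w k) ≠ rs.red (w j) := by
        rw [hjt]
        exact fun h => hk (Finset.mem_filter.2 ⟨hkI, h⟩)
      exact ((vl_eq_iff (sub_ne_zero.2 hkj) R).2 (vtx_ne rs hϖ hV hkI hjI hkt).1).le
    · have h1 := hV.out k hkI
      have h2 := vtx_out rs hϖ hV hjI hkI
      have h3 := vl_near h2
      rw [vl_div (sub_ne_zero.2 hkj) (sub_ne_zero.2 h1.1)] at h3
      linarith [h1.2]
  have hin : ∀ i ∈ chd rs I w t, A i ≠ A j →
      R + 1 ≤ vl (Valued.v : Valuation M ℤᵐ⁰) (A i - A j) := by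
    intro i hi hij
    have h1 := vtx_lt rs hϖ hV (Finset.mem_filter.1 hi).1 hjI
      ((Finset.mem_filter.1 hi).2.trans hjt.symm)
    rw [val_vl (sub_ne_zero.2 hij), exp_lt_exp] at h1
    linarith
  obtain ⟨hmon, hdeg⟩ := anp_monic (A j) β hN
  obtain ⟨⟨Q, hQ⟩, hP1, hP2⟩ := anp hϖ hℓ hl1 hD A (chd rs I w t) (A j) β hN hβ0
    (fun k hk => ⟨(hout k hk).1, by
      have h3 : (N : ℤ) * vl (Valued.v : Valuation M ℤᵐ⁰) (A k - A j) ≤ (N : ℤ) * R :=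
        mul_le_mul_of_nonneg_left (hout k hk).2 (Int.natCast_nonneg _)
      linarith⟩)
    (fun i hi hij => by
      have h3 : (N : ℤ) * (R + 1) ≤ (N : ℤ) * vl (Valued.v : Valuation M ℤᵐ⁰) (A i - A j) :=
        mul_le_mul_of_nonneg_left (hin i hi hij) (Int.natCast_nonneg _)
      linarith) hS
  refine ⟨(X - C (A j)) ^ N - C β, Q, hQ, hdeg, ?_, ?_⟩
  · intro i hi k hk
    rw [hdeg]
    have h1 := hP1 k hk
    have hkj := (hout k hk).1
    have hki : A k ≠ A i := hA k i (by rintro rfl; exact hk hi)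
    have h2 : (Valued.v : Valuation M ℤᵐ⁰) ((A k - A j) / (A k - A i) - 1) < 1 := by
      have e : (A k - A j) / (A k - A i) - 1 = (A i - A j) / (A k - A i) := by
        rw [div_sub_one (sub_ne_zero.2 hki)]
        congr 1
        ring
      rw [e, map_div₀, div_lt_one₀ (by
        rw [zero_lt_iff, ne_eq, Valuation.zero_iff]
        exact sub_ne_zero.2 hki)]
      have h3 := hJ.2 i hi j hj k hk
      rwa [Valuation.map_sub_swap _ (A i) (A k)] at h3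
    have h3 : ∀ n : ℕ, (Valued.v : Valuation M ℤᵐ⁰)
        (((A k - A j) / (A k - A i)) ^ n - 1) < 1 := by
      intro n
      induction n with
      | zero =>
        rw [pow_zero, sub_self, map_zero]
        exact zero_lt_one
      | succ n ih =>
        rw [pow_succ]
        exact near_mul ih h2
    have h4 := near_mul h1 (h3 N)
    have e : eval (A k) ((X - C (A j)) ^ N - C β) / (A k - A j) ^ N *
        ((A k - A j) / (A k - A i)) ^ N =
        eval (A k) ((X - C (A j)) ^ N - C β) / (A k - A i) ^ N := by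
      have a1 : (A k - A j) ^ N ≠ 0 := pow_ne_zero _ (sub_ne_zero.2 hkj)
      have a2 : (A k - A i) ^ N ≠ 0 := pow_ne_zero _ (sub_ne_zero.2 hki)
      rw [div_pow]
      field_simp
    rwa [e] at h4
  · intro i hi
    have h6 := hP2 i hi
    constructor
    · have h7 := vl_near h6
      rw [vl_div (hQ.2.1 i) (neg_ne_zero.2 hβ0), vl_neg] at h7
      rw [sub_eq_zero.1 h7]
    · exact U.un_congr (neg_ne_zero.2 hβ0) h6

/-- an integer in an interval -/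
private theorem im1_int (d l : ℤ) (hl : 0 < l) : ∃ s : ℤ, d < l * s ∧ l * s ≤ d + l := by
  refine ⟨d / l + 1, ?_, ?_⟩
  · have := Int.lt_mul_ediv_self_add (x := d) (k := l) hl
    linarith
  · have := Int.mul_ediv_self_le (x := d) (k := l) hl.ne'
    linarith

include p hp hϖ hℓ hD hA in
/-- polynomials whose class is not that of a generic one -/
private theorem im1_ex (hI : Clu (Valued.v : Valuation M ℤᵐ⁰) A I) (hV : Vtx rs ϖ A I a R w)
    (hν : ¬ (ℓ : ℤ) ∣ R * (I.card : ℤ) - vl (Valued.v : Valuation M ℤᵐ⁰) (cI D A I a))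
    {t : κ} (ht : t ∈ res rs I w) :
    ∃ (P Q : M[X]) (x y : ZMod ℓ), IsMum ℓ D A P Q ∧
      LocP (Valued.v : Valuation M ℤᵐ⁰) A (chd rs I w t) P ∧
      (∀ i ∈ chd rs I w t, (vl (Valued.v : Valuation M ℤᵐ⁰) (P.eval (A i)) : ZMod ℓ) = x ∧
        U.un (P.eval (A i)) = y) ∧ x ≠ (P.natDegree : ZMod ℓ) * (R : ZMod ℓ) := by
  have hl1 : 1 ≤ ℓ := hl.out.one_lt.le
  have hl2 : 2 ≤ ℓ := hl.out.two_le
  have hlz : (0 : ℤ) < ℓ := by exact_mod_cast hl.out.pos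
  have hϖ0 : ϖ ≠ 0 := by
    rintro rfl
    rw [map_zero] at hϖ
    exact exp_ne_zero hϖ.symm
  have hvϖ : vl (Valued.v : Valuation M ℤᵐ⁰) ϖ = 1 := by
    rw [vl_eq_iff hϖ0]
    exact hϖ
  have hν' : (R : ZMod ℓ) * (I.card : ZMod ℓ) -
      (vl (Valued.v : Valuation M ℤᵐ⁰) (cI D A I a) : ZMod ℓ) ≠ 0 := by
    intro h
    refine hν ((ZMod.intCast_zmod_eq_zero_iff_dvd _ _).1 ?_)
    push_cast
    exact h
  obtain ⟨j, hjI, hjt⟩ := Finset.mem_image.1 ht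
  have hj : j ∈ chd rs I w t := Finset.mem_filter.2 ⟨hjI, hjt⟩
  have hct : cI D A (chd rs I w t) (A j) ≠ 0 := by
    unfold cI
    refine div_ne_zero hD (Finset.prod_ne_zero_iff.2 fun k hk => sub_ne_zero.2 (hA j k ?_))
    rintro rfl
    exact (Finset.mem_compl.1 hk) hj
  have hvc := cch_vl rs hϖ hD hA hV hj
  obtain ⟨c, hc⟩ : ∃ c : M, c = cI D A (chd rs I w t) (A j) := ⟨_, rfl⟩
  obtain ⟨nt, hnt⟩ : ∃ nt : ℕ, nt = (chd rs I w t).card := ⟨_, rfl⟩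
  have hvc' : (vl (Valued.v : Valuation M ℤᵐ⁰) c : ZMod ℓ) =
      (vl (Valued.v : Valuation M ℤᵐ⁰) (cI D A I a) : ZMod ℓ) -
        (R : ZMod ℓ) * ((I.card : ZMod ℓ) - (nt : ZMod ℓ)) := by
    rw [hc, hvc, hnt]
    push_cast
    rfl
  rw [← hc] at hct
  by_cases hd : ℓ ∣ nt
  · obtain ⟨j', hj'⟩ := hd
    obtain ⟨s, hs1, hs2⟩ := im1_int (((ℓ * 2 : ℕ) : ℤ) * R -
      vl (Valued.v : Valuation M ℤᵐ⁰) c) ℓ hlz
    have hϖs : ϖ ^ s ≠ 0 := zpow_ne_zero _ hϖ0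
    have hβ0 : c * (ϖ ^ s) ^ ℓ ≠ 0 := mul_ne_zero hct (pow_ne_zero _ hϖs)
    have hvβ : vl (Valued.v : Valuation M ℤᵐ⁰) (c * (ϖ ^ s) ^ ℓ) =
        vl (Valued.v : Valuation M ℤᵐ⁰) c + ℓ * s := by
      rw [vl_mul hct (pow_ne_zero _ hϖs), vl_pow, vl_zpow, hvϖ, mul_one]
    have hS := anpB (A j) (N' := 2) (j := j') hl1 hβ0 (rfl : c * (ϖ ^ s) ^ ℓ = c * (ϖ ^ s) ^ ℓ)
    rw [← hj', hnt, hc] at hS
    rw [hc] at hβ0 hvβ hs1 hs2
    obtain ⟨P, Q, hPQ, hdeg, hloc, hval⟩ := im1_pol (U := U) hϖ hℓ rs hD hA hI hV ht hj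
      (N := ℓ * 2) (by omega) hβ0 (by rw [hvβ]; linarith) (by
        rw [hvβ]
        have e : ((ℓ * 2 : ℕ) : ℤ) * (R + 1) = ((ℓ * 2 : ℕ) : ℤ) * R + (ℓ + ℓ) := by
          push_cast
          ring
        rw [e]
        linarith) hS
    refine ⟨P, Q, _, _, hPQ, hloc, hval, ?_⟩
    rw [hdeg, hvβ, ← hc]
    push_cast
    rw [hvc', ZMod.natCast_self, hj']
    push_cast
    rw [ZMod.natCast_self]
    intro h
    apply hν'
    linear_combination -h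
  · have hnt0 : (nt : ZMod ℓ) ≠ 0 := fun h => hd ((ZMod.natCast_eq_zero_iff _ _).1 h)
    obtain ⟨n', z, hn'⟩ : ∃ n' z : ℕ, n' * nt = 1 + ℓ * z := by
      have hnt1 : 1 ≤ nt := Nat.one_le_iff_ne_zero.2 (by rintro rfl; exact hnt0 (by simp))
      have hcop : Nat.Coprime nt ℓ := (Nat.Prime.coprime_iff_not_dvd hl.out).2 hd |>.symm
      obtain ⟨n', _, hn'⟩ := Nat.exists_mul_mod_eq_one_of_coprime hcop hl.out.one_lt
      refine ⟨n', nt * n' / ℓ, ?_⟩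
      have h1 := Nat.mod_add_div (nt * n') ℓ
      rw [hn'] at h1
      rw [mul_comm n' nt, h1]
    obtain ⟨s, hs1, hs2⟩ := im1_int (((ℓ * 1 + 1 : ℕ) : ℤ) * R -
      n' * vl (Valued.v : Valuation M ℤᵐ⁰) c) ℓ hlz
    have hϖs : ϖ ^ s ≠ 0 := zpow_ne_zero _ hϖ0
    have hβ0 : c ^ n' * (ϖ ^ s) ^ ℓ ≠ 0 :=
      mul_ne_zero (pow_ne_zero _ hct) (pow_ne_zero _ hϖs)
    have hvβ : vl (Valued.v : Valuation M ℤᵐ⁰) (c ^ n' * (ϖ ^ s) ^ ℓ) =
        n' * vl (Valued.v : Valuation M ℤᵐ⁰) c + ℓ * s := by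
      rw [vl_mul (pow_ne_zero _ hct) (pow_ne_zero _ hϖs), vl_pow, vl_pow, vl_zpow, hvϖ, mul_one]
    have hS := anpA (A j) (ℓ := ℓ) (N' := 1) (n := nt) (b := c ^ z * (ϖ ^ s) ^ nt) hct hβ0 (by
      rw [mul_pow, ← pow_mul, hn', pow_add, pow_one, mul_pow, ← pow_mul, ← pow_mul, ← pow_mul,
        mul_comm ℓ z, mul_comm ℓ nt, mul_assoc])
    rw [hnt, hc] at hS
    rw [hc] at hβ0 hvβ hs1 hs2
    obtain ⟨P, Q, hPQ, hdeg, hloc, hval⟩ := im1_pol (U := U) hϖ hℓ rs hD hA hI hV ht hj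
      (N := ℓ * 1 + 1) (by omega) hβ0 (by rw [hvβ]; linarith) (by
        rw [hvβ]
        have e : ((ℓ * 1 + 1 : ℕ) : ℤ) * (R + 1) = ((ℓ * 1 + 1 : ℕ) : ℤ) * R + (ℓ + 1) := by
          push_cast
          ring
        rw [e]
        linarith) hS
    refine ⟨P, Q, _, _, hPQ, hloc, hval, ?_⟩
    rw [hdeg, hvβ, ← hc]
    push_cast
    rw [hvc', ZMod.natCast_self]
    intro h
    have hn'' : (n' : ZMod ℓ) * (nt : ZMod ℓ) = 1 := by
      have := congrArg (Nat.cast : ℕ → ZMod ℓ) hn'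
      push_cast at this
      rw [ZMod.natCast_self] at this
      linear_combination this
    apply hν'
    have h2 := congrArg (fun u => (nt : ZMod ℓ) * u) h
    linear_combination (-1 : ZMod ℓ) * h2 + ((vl (Valued.v : Valuation M ℤᵐ⁰) (cI D A I a) :
      ZMod ℓ) - (R : ZMod ℓ) * ((I.card : ZMod ℓ) - (nt : ZMod ℓ))) * hn''

/-- counting -/
private theorem im1_card {ℓ : ℕ} [Fact ℓ.Prime] {V W : Type} [AddCommGroup V]
    [Module (ZMod ℓ) V] [AddCommGroup W] [Module (ZMod ℓ) W] [Finite W]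
    (S : Submodule (ZMod ℓ) V) (g : V →ₗ[ZMod ℓ] W) (h : ∀ x ∈ S, g x = 0 → x = 0) :
    Nat.card S ≤ Nat.card W := by
  refine Nat.card_le_card_of_injective (fun x : S => g x.1) fun x y hxy => ?_
  have h1 := h (x.1 - y.1) (S.sub_mem x.2 y.2) (by rw [map_sub, sub_eq_zero]; exact hxy)
  exact Subtype.ext (sub_eq_zero.1 h1)

include p hp hϖ hℓ hD hA in
theorem im1 (hI : Clu (Valued.v : Valuation M ℤᵐ⁰) A I) (hV : Vtx rs ϖ A I a R w)
    (hν : ¬ (ℓ : ℤ) ∣ R * (I.card : ℤ) - vl (Valued.v : Valuation M ℤᵐ⁰) (cI D A I a)) :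
    Nat.card ((Ann U D A I).map (sgm rs I w)) * ℓ ≤ ℓ ^ (res rs I w).card := by
  classical
  have hr := res_two rs hV
  obtain ⟨t0, ht0⟩ : (res rs I w).Nonempty := Finset.card_pos.1 (by omega)
  obtain ⟨N, hN⟩ : ∃ N : Finset κ, N = (res rs I w).erase t0 := ⟨_, rfl⟩
  have hNcard : N.card + 1 = (res rs I w).card := by
    rw [hN]
    exact Finset.card_erase_add_one ht0
  obtain ⟨G1, hG1⟩ : ∃ G1 : (κ → ZMod ℓ × ZMod ℓ) →ₗ[ZMod ℓ] (N → ZMod ℓ),
      ∀ x t, G1 x t = (x t.1).2 :=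
    ⟨LinearMap.pi fun t => (LinearMap.snd (ZMod ℓ) (ZMod ℓ) (ZMod ℓ)).comp
      (LinearMap.proj t.1), fun x t => rfl⟩
  have h1 : Nat.card ((Ann U D A I).map (sgm rs I w)) ≤ Nat.card (N → ZMod ℓ) := by
    refine im1_card _ G1 ?_
    rintro _ ⟨φ, hφ, rfl⟩ h2
    have hsum := sgm_sum rs (w := w) hφ
    have h3 : ∀ t, t ≠ t0 → (sgm rs I w φ t).2 = 0 := by
      intro t htt
      by_cases ht : t ∈ res rs I w
      · have ht' : t ∈ N := by
          rw [hN]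
          exact Finset.mem_erase.2 ⟨htt, ht⟩
        have := congrFun h2 ⟨t, ht'⟩
        rw [hG1 (sgm rs I w φ) ⟨t, ht'⟩] at this
        exact this
      · rw [sgm_out rs ht, Prod.snd_zero]
    have h4 : ∀ t, (sgm rs I w φ t).2 = 0 := by
      intro t
      by_cases htt : t = t0
      · have h3' := congrArg Prod.snd hsum
        rw [Prod.snd_sum, Prod.snd_zero, Finset.sum_eq_single_of_mem t0 ht0
          (fun t _ h => h3 t h)] at h3'
        rw [htt]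
        exact h3'
      · exact h3 t htt
    funext t
    refine Prod.ext ?_ (h4 t)
    by_cases ht : t ∈ res rs I w
    · obtain ⟨P, Q, x, y, hPQ, hloc, hval, hne⟩ := im1_ex (U := U) hϖ hℓ rs hD hA hI hV hν ht
      have h5 := pr_child rs hϖ hI hV ht hPQ hloc hval hφ
      simp only [h4, zero_mul, add_zero] at h5
      rw [← Finset.sum_mul] at h5
      have h6 := congrArg Prod.fst hsum
      rw [Prod.fst_sum, Prod.fst_zero, ← Finset.sum_erase_add _ _ ht] at h6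
      have h7 : (sgm rs I w φ t).1 * (x - (P.natDegree : ZMod ℓ) * (R : ZMod ℓ)) = 0 := by
        linear_combination h5 - ((P.natDegree : ZMod ℓ) * (R : ZMod ℓ)) * h6
      exact (mul_eq_zero.1 h7).resolve_right (sub_ne_zero.2 hne)
    · rw [sgm_out rs ht, Prod.fst_zero]
      rfl
  have hWcard : Nat.card (N → ZMod ℓ) = ℓ ^ N.card := by
    rw [Nat.card_eq_fintype_card, Fintype.card_fun, ZMod.card, Fintype.card_coe]
  rw [hWcard] at h1
  calc Nat.card ((Ann U D A I).map (sgm rs I w)) * ℓ ≤ ℓ ^ N.card * ℓ :=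
        Nat.mul_le_mul_right _ h1
    _ = ℓ ^ (res rs I w).card := by rw [← pow_succ, hNcard]

end Pool.Agent.H94.PN
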