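import Pool.Agent.H94.PN.TKO
import Pool.Agent.H94.PN.GENA
import Pool.Agent.H94.PN.MOM
import Pool.Agent.H94.PN.SCD

set_option autoImplicit false

/-!
# [H94 PN MOMO] The moments of `ℓ ^ rank`, `ℓ` odd

`χ` from `PL.exists_LChar`, `Wl`, `Wi` from `exists_OKl`, `exists_OKi` (as in `PM.FINO`), `dt = DC χ c A Wl Wi`, `N = card (XX m ℓ) = ℓ ^ (m - 1)`.  `mom` for `dt`, `R = fun _ => True`, `ε * N ^ k` (`BB_good`, `nontriv_XX`, `exists_self`, `dl A ≠ 0`, `dok_DC`, `genA_DC`, `tko`).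
For `D ∈ Cls (dl A) n`, `n ≥ 1`: `card KM = card SelC` (`scd`) `= ℓ ^ (m - 1 + rkS) = N * ℓ ^ rkS` (`selC_card`, `rkS_spec`).  Divide by `N ^ k`.
-/

namespace Pool.Agent.H94.PN

open Polynomial
open Pool.Agent.H94.PL
open Pool.Agent.H94.PM
open Pool.Agent.H94.PC (Mo Sq Pr pf om Mn mem_Mo mem_Sq mem_Pr mem_pf mem_pf')

variable {F : Type} [Field F] [Finite F] {ℓ m : ℕ} [hl : Fact ℓ.Prime]
variable [DecidableEq (RatFunc F)] {α : ℕ} {c : F} {A : Fin m → F[X]}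

theorem momO (h2 : ℓ ≠ 2) (hq : ℓ ∣ Nat.card F - 1) (hm : Nat.Coprime m ℓ) (hm2 : 2 ≤ m)
    (hα : ℓ ∣ α * m + 1) (hc : c ≠ 0) (hA : ∀ i k, i ≠ k → A i ≠ A k) (hG : GenA ℓ A)
    (k : ℕ) (ε : ℝ) (hε : 0 < ε) :
    ∃ n₀ : ℕ, ∀ n : ℕ, n₀ ≤ n →
      |∑ D ∈ Cls (dl A) n, ((ℓ : ℝ) ^ rkS ℓ α c A D) ^ k -
        (Lk ℓ k : ℝ) * ((Cls (dl A) n).card : ℝ)| ≤ ε * (Nat.card F : ℝ) ^ n := by
  classical
  letI : Fintype (XX m ℓ) := Fintype.ofFinite _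
  haveI : Nontrivial (XX m ℓ) := nontriv_XX hm2
  have hΔ : dl A ≠ 0 := by
    unfold dl
    rw [Finset.prod_ne_zero_iff]
    intro p hp
    exact sub_ne_zero.2 (hA p.1 p.2 (mem_prs.1 hp).ne)
  obtain ⟨χ⟩ := exists_LChar F hl.out hq
  obtain ⟨Wl, hWlc, hWl⟩ := exists_OKl χ hq hm hα A
  obtain ⟨Wi, hWic, hWi⟩ := exists_OKi χ hq hm hα c A
  obtain ⟨N, hNd⟩ : ∃ N : ℝ, N = (Fintype.card (XX m ℓ) : ℝ) := ⟨_, rfl⟩
  have hN0 : 0 < N := by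
    rw [hNd]
    exact_mod_cast Fintype.card_pos
  have hNl : N = (ℓ : ℝ) ^ (m - 1) := by
    have h1 : Nat.card (XX m ℓ) = ℓ ^ (m - 1) := card_XX (by omega)
    rw [hNd, ← Nat.card_eq_fintype_card, h1]
    push_cast
    rfl
  have hNk : 0 < N ^ k := pow_pos hN0 k
  obtain ⟨n₁, h⟩ := mom χ (BB_good hm) (fun _ => exists_self hm2 h2) hΔ (dok_DC χ c A Wl Wi)
    (genA_DC χ c hA hG Wl Wi)
    (fun n _ D hD => tko χ h2 hq hm hα hc hA hWl hWlc hWi hWic hD) k (ε * N ^ k) (by positivity)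
  refine ⟨max n₁ 1, fun n hn => ?_⟩
  have h1 := h n ((le_max_left _ _).trans hn) (fun _ => True)
  have hn1 : 1 ≤ n := (le_max_right _ _).trans hn
  simp only [if_true, Finset.filter_true] at h1
  have h3 : ∀ D ∈ Cls (dl A) n, (Nat.card (KM χ (DC χ c A Wl Wi) D) : ℝ) ^ k =
      N ^ k * ((ℓ : ℝ) ^ rkS ℓ α c A D) ^ k := by
    intro D hD
    obtain ⟨r, hr⟩ := selC_card hq hm hα hc hA hn1 hD
    have hr' := (rkS_spec hq hm hα hc hA hn1 hD r).1 hr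
    rw [← scd χ hq hm hα hc hA hWl hWlc hWi hWic hD, hr, hr', hNl, ← mul_pow, ← pow_add]
    push_cast
    rfl
  rw [Finset.sum_congr rfl h3, ← Finset.mul_sum, ← hNd] at h1
  have h4 : N ^ k * ∑ D ∈ Cls (dl A) n, ((ℓ : ℝ) ^ rkS ℓ α c A D) ^ k -
      (Lk ℓ k : ℝ) * N ^ k * ((Cls (dl A) n).card : ℝ) =
      N ^ k * (∑ D ∈ Cls (dl A) n, ((ℓ : ℝ) ^ rkS ℓ α c A D) ^ k -
      (Lk ℓ k : ℝ) * ((Cls (dl A) n).card : ℝ)) := by ring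
  rw [h4, abs_mul, abs_of_pos hNk] at h1
  have h5 : ε * N ^ k * (Nat.card F : ℝ) ^ n = N ^ k * (ε * (Nat.card F : ℝ) ^ n) := by ring
  rw [h5] at h1
  exact le_of_mul_le_mul_left h1 hNk

end Pool.Agent.H94.PN
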