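import Pool.Agent.H94.PN.PWR

set_option autoImplicit false

/-!
# [H94 PN PHI] The phase on a coset of `X ⊗ Λ`

`U` a finset with `u - u₀ ∈ TX B Λ` for `u ∈ U`, `u₀ = (x₀, c₀)`, `Lag ℓ k Λ`; `τ : U → Tp`, `t = ∑ τ`, `T = mgU U τ 0`, `α = tens T`, `γ = tens2 T = ∑ τ_u ⊗ c_u`; `a = α - t ⊗ x₀`, `b = γ - t ⊗ c₀`, i.e. `(a, b) = ∑ τ_u ⊗ (u - u₀)`.
`x · y = Bk x y`, `e + e = 0`, `e = 0` if `ℓ ≠ 2`.  Write `λ = u - u₀ ∈ TX`, `d_u = (τ u).1`.  `phs ε T = γ · ε + ∑ u, d_u (c_u · bet x_u) + ∑ v, ∑ u, (τ u).2 v (c_u · L_v x_u)`.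
* For `M = L_v` or `bet`: `c_u · M x_u = c₀ · M x₀ + c₀ · M λ.1 + λ.2 · M x₀ + h_M(λ)`, `h_M(λ) = λ.2 · M λ.1`; the first three terms, summed over `u` with the coefficients, give `t_M (c₀ · M x₀) + c₀ · M a_M + b_M · M x₀`.
* `M = L_v`: `∑ u, (τ u).2 v h_v(λ_u) = b_v · L_v a_v = h_v(∑ (τ u).2 v • λ_u)`: `h_v(w + w') = h_v(w) + h_v(w') + (w.2 · L_v w'.1 + w'.2 · L_v w.1)` and the bracket is `0` on `TX` (`tx_sym` for the symmetric form `B x (L_v y)`), `h_v(c w) = c^2 h_v(w)`;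
  `ℓ = 2`: `c^2 = c`; `ℓ ≠ 2`: `h_v = 0` on `TX` (`tx_alt`).
* `M = bet`: `∑ u, d_u h(λ_u) + e * rS = h(∑ d_u • λ_u) + e (t.1 + 1) (c₀ · a.1)`.  `ℓ ≠ 2`: `e = 0` and `h = 0` on `TX` (`tx_alt` for `B x (bet y)`, symmetric as `e = 0`).  `ℓ = 2`: `h(w + w') = h(w) + h(w') + e (w.2 · w'.1)` on `TX`
  (`w.2 · bet w'.1 + w'.2 · bet w.1`, and `w'.2 · bet w.1 = w.1 · bet w'.2 + e (w.1 · w'.2)` by `hbet`, `tx_sym` for `B x (bet y)`: `= e (w.1 · w'.2) = e (w.2 · w'.1)` by `tx_sym` for `B`), so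
  `h(∑ d_u • λ_u) = ∑ d_u h(λ_u) + e ∑_{u < u'} d_u d_{u'} (λ_u.2 · λ_{u'}.1)` (`<` the order of `rS`; the form `w.2 · w'.1` is symmetric on `TX`, zero for `w = w'`).
  In `rS`: `Phi u u' = c_u · (x_{u'} - x_u) = c₀ · (λ'.1 - λ.1) + λ.2 · λ'.1 - λ.2 · λ.1`, `λ.2 · λ.1 = 0` (`tx_alt`, `B` alternating).  `∑_{u < u'} d_u d_{u'} c₀ · (λ.1 + λ'.1) = ∑ u, d_u (c₀ · λ_u.1) ∑_{u' ≠ u} d_{u'} = (t.1 + 1) (c₀ · a.1)` as `d_u^2 = d_u`.
  So `∑ d_u h(λ_u) + e rS = h(∑ d_u λ_u) + 2 e (..) + e (t.1 + 1) (c₀ · a.1)`.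
-/

namespace Pool.Agent.H94.PN

open Pool.Agent.H94.PL
open Pool.Agent.H94.PM

/-- the properties of the linear maps -/
structure DOK {ℓ : ℕ} {X S : Type} [AddCommGroup X] [Module (ZMod ℓ) X]
    (B : X →ₗ[ZMod ℓ] X →ₗ[ZMod ℓ] ZMod ℓ) (dt : Dat ℓ X S) (e : ZMod ℓ) : Prop where
  self : ∀ v x y, B (dt.L v x) y = B x (dt.L v y)
  bet : ∀ x y, B y (dt.bet x) = B x (dt.bet y) + e * B x y
  two : e + e = 0
  odd : ℓ ≠ 2 → e = 0
  alt : ℓ = 2 → ∀ x, B x x = 0

section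
variable {ℓ : ℕ} {X S : Type} [AddCommGroup X] [Module (ZMod ℓ) X]

/-- `∑ c_u ⊗ τ_u` -/
def tens2 [Fintype X] (τ : X × X → Tp ℓ S) : EE X S :=
  (∑ u, (τ u).1 • u.2, fun v => ∑ u, (τ u).2 v • u.2)

end

private theorem phi_sq2 : ∀ c : ZMod 2, c * c = c := by decide

section alg

variable {F Y : Type} [CommRing F] [AddCommGroup Y] [Module F Y] {I : Type} [Fintype I]

private theorem phi_A (Bf : Y →ₗ[F] Y →ₗ[F] F) (M : Y →ₗ[F] Y) (x₀ c₀ : Y) (x c : I → Y) (d : I → F) :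
    ∑ u, d u * Bf (c u) (M (x u)) =
      (∑ u, d u) * Bf c₀ (M x₀) + Bf c₀ (M (∑ u, d u • (x u - x₀))) + Bf (∑ u, d u • (c u - c₀)) (M x₀) +
      ∑ u, d u * Bf (c u - c₀) (M (x u - x₀)) := by
  simp only [map_sum, map_smul, LinearMap.sum_apply, LinearMap.smul_apply, smul_eq_mul, Finset.sum_mul,
    ← Finset.sum_add_distrib]
  refine Finset.sum_congr rfl fun u _ => ?_
  simp only [map_sub, LinearMap.sub_apply]
  ring

/-- a function with a bilinear defect -/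
private theorem phi_D {A : Type} [AddCommGroup A] {n : ℕ} (r : I → Fin n) (hr : Function.Injective r) (T : AddSubgroup A)
    (h : A → F) (e : F) (g : A → A → F) (h0 : h 0 = 0)
    (hadd : ∀ w ∈ T, ∀ w' ∈ T, h (w + w') = h w + h w' + e * g w w')
    (hg0 : ∀ w, g w 0 = 0) (hg : ∀ w x y, g w (x + y) = g w x + g w y)
    (hgs : ∀ w ∈ T, ∀ w' ∈ T, e * g w w' = e * g w' w) (x : I → A) (hx : ∀ u, x u ∈ T) (s : Finset I) :
    h (∑ u ∈ s, x u) = ∑ u ∈ s, h (x u) +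
      e * ∑ u ∈ s, ∑ w ∈ s, (if r u < r w then g (x u) (x w) else 0) := by
  classical
  induction s using Finset.induction_on with
  | empty => simp [h0]
  | insert a s ha ih =>
    have hgsum : ∀ (w : A) (t : Finset I), g w (∑ u ∈ t, x u) = ∑ u ∈ t, g w (x u) := by
      intro w t
      induction t using Finset.induction_on with
      | empty => simp [hg0]
      | insert b t hb ih2 => rw [Finset.sum_insert hb, Finset.sum_insert hb, hg, ih2]
    have e1 : ∑ u ∈ insert a s, ∑ w ∈ insert a s, (if r u < r w then g (x u) (x w) else 0) =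
        ∑ u ∈ s, ∑ w ∈ s, (if r u < r w then g (x u) (x w) else 0) +
          ∑ u ∈ s, ((if r a < r u then g (x a) (x u) else 0) + (if r u < r a then g (x u) (x a) else 0)) := by
      rw [Finset.sum_insert ha, Finset.sum_insert ha, if_neg (lt_irrefl _), zero_add]
      have e2 : ∀ u ∈ s, ∑ w ∈ insert a s, (if r u < r w then g (x u) (x w) else 0) =
          (if r u < r a then g (x u) (x a) else 0) + ∑ w ∈ s, (if r u < r w then g (x u) (x w) else 0) :=
        fun u _ => Finset.sum_insert ha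
      rw [Finset.sum_congr rfl e2, Finset.sum_add_distrib, Finset.sum_add_distrib]
      ring
    have e3 : e * ∑ u ∈ s, ((if r a < r u then g (x a) (x u) else 0) + (if r u < r a then g (x u) (x a) else 0)) =
        e * ∑ u ∈ s, g (x a) (x u) := by
      rw [Finset.mul_sum, Finset.mul_sum]
      refine Finset.sum_congr rfl fun u hu => ?_
      have hne : r a ≠ r u := fun hc => ha (by rw [hr hc]; exact hu)
      rcases lt_or_gt_of_ne hne with h1 | h1
      · rw [if_pos h1, if_neg (not_lt.2 h1.le), add_zero]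
      · rw [if_neg (not_lt.2 (le_of_lt h1)), if_pos h1, zero_add, hgs _ (hx u) _ (hx a)]
    rw [Finset.sum_insert ha, Finset.sum_insert ha, hadd _ (hx a) _ (T.sum_mem fun u _ => hx u), ih, hgsum, e1,
      mul_add, e3]
    ring

private theorem phi_E [DecidableEq I] {n : ℕ} (r : I → Fin n) (hr : Function.Injective r) (d s : I → F) :
    ∑ u, ∑ w, (if r u < r w then d u * d w * (s u + s w) else 0) =
      (∑ u, d u) * (∑ u, d u * s u) - ∑ u, d u * d u * s u := by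
  have e1 : ∑ u, ∑ w, (if r u < r w then d u * d w * (s u + s w) else 0) =
      ∑ u, ∑ w, (if r u < r w then d u * d w * s u else 0) + ∑ u, ∑ w, (if r u < r w then d u * d w * s w else 0) := by
    rw [← Finset.sum_add_distrib]
    refine Finset.sum_congr rfl fun u _ => ?_
    rw [← Finset.sum_add_distrib]
    refine Finset.sum_congr rfl fun w _ => ?_
    split_ifs <;> ring
  have e2 : ∑ u, ∑ w, (if r u < r w then d u * d w * s w else 0) =
      ∑ u, ∑ w, (if r w < r u then d u * d w * s u else 0) := by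
    rw [Finset.sum_comm]
    refine Finset.sum_congr rfl fun u _ => Finset.sum_congr rfl fun w _ => ?_
    split_ifs <;> ring
  rw [e1, e2, ← Finset.sum_add_distrib, Finset.mul_sum, ← Finset.sum_sub_distrib]
  refine Finset.sum_congr rfl fun u _ => ?_
  rw [← Finset.sum_add_distrib]
  have e3 : ∀ w, (if r u < r w then d u * d w * s u else 0) + (if r w < r u then d u * d w * s u else 0) =
      d u * d w * s u - (if w = u then d u * d u * s u else 0) := by
    intro w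
    by_cases hw : w = u
    · subst hw
      rw [if_neg (lt_irrefl _), if_pos rfl]
      ring
    · have hne : r w ≠ r u := fun hc => hw (hr hc)
      rw [if_neg hw]
      rcases lt_or_gt_of_ne hne with h1 | h1
      · rw [if_pos h1, if_neg (not_lt.2 h1.le)]
        ring
      · rw [if_neg (not_lt.2 (le_of_lt h1)), if_pos h1]
        ring
  rw [Finset.sum_congr rfl fun w _ => e3 w, Finset.sum_sub_distrib, Finset.sum_ite_eq', if_pos (Finset.mem_univ _)]
  rw [Finset.sum_mul]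
  congr 1
  refine Finset.sum_congr rfl fun w _ => ?_
  ring

end alg

section mg
variable {V : Type} [Fintype V] [DecidableEq V] (U : Finset V) {M : Type} [AddCommMonoid M]

private theorem phi_mg {M' : Type} [AddCommMonoid M'] (φ : V → M → M') (hφ : ∀ u, φ u 0 = 0)
    (τ : {u // u ∈ U} → M) :
    ∑ u, φ u (mgU U τ (fun _ => 0) u) = ∑ u : {u // u ∈ U}, φ u.1 (τ u) := by
  rw [add_mgU U (fun u => φ u (mgU U τ (fun _ => 0) u))]
  simp only [mgU_in, mgU_out, hφ, Finset.sum_const_zero, add_zero]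

end mg

variable {ℓ k : ℕ} [hl : Fact ℓ.Prime] {X : Type} [AddCommGroup X] [Module (ZMod ℓ) X] [Fintype X]
  [DecidableEq X] {B : X →ₗ[ZMod ℓ] X →ₗ[ZMod ℓ] ZMod ℓ} {S : Type} [Fintype S]

private theorem phi_sq (h : ℓ = 2) (c : ZMod ℓ) : c * c = c := by
  subst h
  exact phi_sq2 c

/-- the case of a self-adjoint map -/
private theorem phi_L (hB : BGood B) {m : X →ₗ[ZMod ℓ] X} (hm : ∀ x y, B (m x) y = B x (m y))
    {Λ : Submodule (ZMod ℓ) (H0 ℓ k)} (hΛ : Lag ℓ k Λ) {I : Type} [Fintype I] (x : I → (Fin k → X) × (Fin k → X))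
    (hx : ∀ u, x u ∈ TX B Λ) (d : I → ZMod ℓ) :
    ∑ u, d u * (∑ i, B ((x u).2 i) (m ((x u).1 i))) =
      ∑ i, B ((∑ u, d u • x u).2 i) (m ((∑ u, d u • x u).1 i)) := by
  have hsym : ∀ x y, (B.compl₂ m) x y = (B.compl₂ m) y x := by
    intro x y
    rw [LinearMap.compl₂_apply, LinearMap.compl₂_apply, ← hm, hB.symm]
  by_cases h2 : ℓ = 2
  · have hadd : ∀ w ∈ TX B Λ, ∀ w' ∈ TX B Λ, ∑ i, B ((w + w').2 i) (m ((w + w').1 i)) =
        ∑ i, B (w.2 i) (m (w.1 i)) + ∑ i, B (w'.2 i) (m (w'.1 i)) := by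
      intro w hw w' hw'
      have h3 := tx_sym hB hΛ (B.compl₂ m) hw hw'
      have h4 : ∑ i, B ((w + w').2 i) (m ((w + w').1 i)) = ∑ i, B (w.2 i) (m (w.1 i)) + ∑ i, B (w'.2 i) (m (w'.1 i)) +
          (∑ i, (B.compl₂ m) (w.2 i) (w'.1 i) + ∑ i, (B.compl₂ m) (w.1 i) (w'.2 i)) := by
        rw [← Finset.sum_add_distrib, ← Finset.sum_add_distrib, ← Finset.sum_add_distrib]
        refine Finset.sum_congr rfl fun i _ => ?_
        rw [hsym (w.1 i) (w'.2 i)]
        simp only [LinearMap.compl₂_apply, Prod.fst_add, Prod.snd_add, Pi.add_apply, map_add, LinearMap.add_apply]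
        ring
      rw [h4, h3, add_zero]
    have hsum : ∀ s : Finset I, ∑ u ∈ s, d u * (∑ i, B ((x u).2 i) (m ((x u).1 i))) =
        ∑ i, B ((∑ u ∈ s, d u • x u).2 i) (m ((∑ u ∈ s, d u • x u).1 i)) := by
      classical
      intro s
      induction s using Finset.induction_on with
      | empty => simp
      | insert a s ha ih =>
        rw [Finset.sum_insert ha, Finset.sum_insert ha, hadd _ ((TX B Λ).smul_mem _ (hx a)) _
          ((TX B Λ).sum_mem fun u _ => (TX B Λ).smul_mem _ (hx u)), ih]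
        congr 1
        rw [Finset.mul_sum]
        refine Finset.sum_congr rfl fun i _ => ?_
        simp only [Prod.smul_fst, Prod.smul_snd, Pi.smul_apply, map_smul, LinearMap.smul_apply, smul_eq_mul]
        rw [← mul_assoc, phi_sq h2]
    exact hsum Finset.univ
  · have hz : ∀ w ∈ TX B Λ, ∑ i, B (w.2 i) (m (w.1 i)) = 0 := fun w hw =>
      tx_alt hB hΛ (B.compl₂ m) hsym (fun h => absurd h h2) hw
    rw [hz _ ((TX B Λ).sum_mem fun u _ => (TX B Λ).smul_mem _ (hx u)), Finset.sum_eq_zero]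
    intro u _
    rw [hz _ (hx u), mul_zero]

/-- the case of the map `bet` -/
private theorem phi_C (hB : BGood B) {m : X →ₗ[ZMod ℓ] X} {e : ZMod ℓ} (hm : ∀ x y, B y (m x) = B x (m y) + e * B x y)
    (hee : e + e = 0) (he : ℓ ≠ 2 → e = 0) (halt : ℓ = 2 → ∀ x, B x x = 0)
    {Λ : Submodule (ZMod ℓ) (H0 ℓ k)} (hΛ : Lag ℓ k Λ) {I : Type} [Fintype I] {n : ℕ} (r : I → Fin n)
    (hr : Function.Injective r) (u₀ : (Fin k → X) × (Fin k → X)) (x : I → (Fin k → X) × (Fin k → X))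
    (hx : ∀ u, x u - u₀ ∈ TX B Λ) (d : I → ZMod ℓ) :
    ∑ u, d u * (∑ i, B ((x u - u₀).2 i) (m ((x u - u₀).1 i))) +
      e * ∑ u, ∑ w, (if r u < r w then Bk B k (x u).2 ((x w).1 - (x u).1) * (d u * d w) else 0) =
      ∑ i, B ((∑ u, d u • (x u - u₀)).2 i) (m ((∑ u, d u • (x u - u₀)).1 i)) +
        e * (∑ u, d u + 1) * Bk B k u₀.2 (∑ u, d u • (x u - u₀)).1 := by
  classical
  by_cases h2 : ℓ = 2
  · have hadd : ∀ w ∈ TX B Λ, ∀ w' ∈ TX B Λ, ∑ i, B ((w + w').2 i) (m ((w + w').1 i)) =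
        ∑ i, B (w.2 i) (m (w.1 i)) + ∑ i, B (w'.2 i) (m (w'.1 i)) + e * Bk B k w.2 w'.1 := by
      intro w hw w' hw'
      have h3 := tx_sym hB hΛ (B.compl₂ m) hw hw'
      have h5 := tx_sym hB hΛ B hw hw'
      have h4 : ∑ i, B ((w + w').2 i) (m ((w + w').1 i)) = ∑ i, B (w.2 i) (m (w.1 i)) + ∑ i, B (w'.2 i) (m (w'.1 i)) +
          (∑ i, (B.compl₂ m) (w.2 i) (w'.1 i) + ∑ i, (B.compl₂ m) (w.1 i) (w'.2 i)) +
          e * ∑ i, B (w.1 i) (w'.2 i) := by
        rw [Finset.mul_sum, ← Finset.sum_add_distrib, ← Finset.sum_add_distrib, ← Finset.sum_add_distrib,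
          ← Finset.sum_add_distrib]
        refine Finset.sum_congr rfl fun i _ => ?_
        have h6 := hm (w.1 i) (w'.2 i)
        simp only [LinearMap.compl₂_apply, Prod.fst_add, Prod.snd_add, Pi.add_apply, map_add, LinearMap.add_apply]
        linear_combination h6
      rw [h4, h3, add_zero, Bk_apply]
      linear_combination e * h5 - (∑ i, B (w.2 i) (w'.1 i)) * hee
    have hgs : ∀ w ∈ TX B Λ, ∀ w' ∈ TX B Λ, e * Bk B k w.2 w'.1 = e * Bk B k w'.2 w.1 := by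
      intro w hw w' hw'
      have h5 := tx_sym hB hΛ B hw hw'
      have h6 : ∑ i, B (w.1 i) (w'.2 i) = ∑ i, B (w'.2 i) (w.1 i) :=
        Finset.sum_congr rfl fun i _ => hB.symm _ _
      rw [h6] at h5
      rw [Bk_apply, Bk_apply]
      linear_combination e * h5 - (∑ i, B (w'.2 i) (w.1 i)) * hee
    have hg0 : ∀ w ∈ TX B Λ, Bk B k w.2 w.1 = 0 := fun w hw => tx_alt hB hΛ B hB.symm halt hw
    have hD := phi_D r hr (TX B Λ).toAddSubgroup (fun w => ∑ i, B (w.2 i) (m (w.1 i))) e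
      (fun w w' => Bk B k w.2 w'.1) (by simp) hadd (by simp)
      (fun w x y => by simp only [Prod.fst_add, map_add]) hgs (fun u => d u • (x u - u₀))
      (fun u => (TX B Λ).smul_mem _ (hx u)) Finset.univ
    have hE := phi_E r hr d (fun u => Bk B k u₀.2 (x u - u₀).1)
    rw [hD]
    have e1 : ∀ u, ∑ i, B ((d u • (x u - u₀)).2 i) (m ((d u • (x u - u₀)).1 i)) =
        d u * ∑ i, B ((x u - u₀).2 i) (m ((x u - u₀).1 i)) := by
      intro u
      rw [Finset.mul_sum]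
      refine Finset.sum_congr rfl fun i _ => ?_
      simp only [Prod.smul_fst, Prod.smul_snd, Pi.smul_apply, map_smul, LinearMap.smul_apply, smul_eq_mul]
      rw [← mul_assoc, phi_sq h2]
    rw [Finset.sum_congr rfl fun u _ => e1 u]
    have e2 : ∀ u w, Bk B k (d u • (x u - u₀)).2 (d w • (x w - u₀)).1 =
        d u * d w * Bk B k (x u - u₀).2 (x w - u₀).1 := by
      intro u w
      simp only [Prod.smul_fst, Prod.smul_snd, map_smul, LinearMap.smul_apply, smul_eq_mul]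
      ring
    simp only [e2]
    have e3 : ∀ u w, Bk B k (x u).2 ((x w).1 - (x u).1) = Bk B k u₀.2 (x w - u₀).1 - Bk B k u₀.2 (x u - u₀).1 +
        Bk B k (x u - u₀).2 (x w - u₀).1 := by
      intro u w
      have h7 := hg0 _ (hx u)
      simp only [Prod.fst_sub, Prod.snd_sub, map_sub, LinearMap.sub_apply] at h7 ⊢
      linear_combination -h7
    have e4 : e * ∑ u, ∑ w, (if r u < r w then Bk B k (x u).2 ((x w).1 - (x u).1) * (d u * d w) else 0) =
        e * ∑ u, ∑ w, (if r u < r w then d u * d w * (Bk B k u₀.2 (x u - u₀).1 + Bk B k u₀.2 (x w - u₀).1) else 0) +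
        e * ∑ u, ∑ w, (if r u < r w then d u * d w * Bk B k (x u - u₀).2 (x w - u₀).1 else 0) := by
      rw [← mul_add, ← Finset.sum_add_distrib, Finset.mul_sum, Finset.mul_sum]
      refine Finset.sum_congr rfl fun u _ => ?_
      rw [← Finset.sum_add_distrib, Finset.mul_sum, Finset.mul_sum]
      refine Finset.sum_congr rfl fun w _ => ?_
      split_ifs
      · rw [e3 u w]
        linear_combination (-(d u * d w * Bk B k u₀.2 (x u - u₀).1)) * hee
      · ring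
    rw [e4, hE]
    have e5 : Bk B k u₀.2 (∑ u, d u • (x u - u₀)).1 = ∑ u, d u * Bk B k u₀.2 (x u - u₀).1 := by
      rw [Prod.fst_sum, map_sum]
      refine Finset.sum_congr rfl fun u _ => ?_
      rw [Prod.smul_fst, map_smul, smul_eq_mul]
    have e6 : ∑ u, d u * d u * Bk B k u₀.2 (x u - u₀).1 = ∑ u, d u * Bk B k u₀.2 (x u - u₀).1 :=
      Finset.sum_congr rfl fun u _ => by rw [phi_sq h2 (d u)]
    rw [e5, e6]
    linear_combination (-(∑ u, d u * Bk B k u₀.2 (x u - u₀).1)) * hee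
  · have he0 := he h2
    subst he0
    have hsym : ∀ x y, (B.compl₂ m) x y = (B.compl₂ m) y x := by
      intro x y
      rw [LinearMap.compl₂_apply, LinearMap.compl₂_apply, hm y x]
      ring
    have hz : ∀ w ∈ TX B Λ, ∑ i, B (w.2 i) (m (w.1 i)) = 0 := fun w hw =>
      tx_alt hB hΛ (B.compl₂ m) hsym (fun h => absurd h h2) hw
    rw [hz _ ((TX B Λ).sum_mem fun u _ => (TX B Λ).smul_mem _ (hx u)), Finset.sum_eq_zero]
    · ring
    · intro u _
      rw [hz _ (hx u), mul_zero]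

theorem phi (hB : BGood B) {dt : Dat ℓ X S} {e : ZMod ℓ} (hd : DOK B dt e)
    {Λ : Submodule (ZMod ℓ) (H0 ℓ k)} (hΛ : Lag ℓ k Λ) (u₀ : (Fin k → X) × (Fin k → X))
    (U : Finset ((Fin k → X) × (Fin k → X))) (h : ∀ u ∈ U, u - u₀ ∈ TX B Λ)
    (τ : {u // u ∈ U} → Tp ℓ S) (ε : EE (Fin k → X) S) {t : Tp ℓ S} (ht : ∑ u, τ u = t)
    {a b γ : EE (Fin k → X) S} (hγ : γ = tens2 (mgU U τ fun _ => 0))
    (ha : a = tens (mgU U τ fun _ => 0) - (t.1 • u₀.1, fun v => t.2 v • u₀.1))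
    (hb : b = γ - (t.1 • u₀.2, fun v => t.2 v • u₀.2)) :
    phs (Bk B k) (dtk dt k) ε (mgU U τ fun _ => 0) +
        e * rS (CDX (Bk B k)) U (fun u => (τ u).1) =
      (Bk B k γ.1 ε.1 + ∑ v, Bk B k (γ.2 v) (ε.2 v)) +
      (t.1 * Bk B k u₀.2 ((dtk dt k).bet u₀.1) + Bk B k u₀.2 ((dtk dt k).bet a.1) +
        Bk B k b.1 ((dtk dt k).bet u₀.1) + Bk B k b.1 ((dtk dt k).bet a.1)) +
      ∑ v, (t.2 v * Bk B k u₀.2 ((dtk dt k).L v u₀.1) + Bk B k u₀.2 ((dtk dt k).L v (a.2 v)) +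
        Bk B k (b.2 v) ((dtk dt k).L v u₀.1) + Bk B k (b.2 v) ((dtk dt k).L v (a.2 v))) +
      e * (t.1 + 1) * Bk B k u₀.2 a.1 := by
  classical
  have hxU : ∀ u : {u // u ∈ U}, (u : (Fin k → X) × (Fin k → X)) - u₀ ∈ TX B Λ := fun u => h u.1 u.2
  have ht1 : ∑ u, (τ u).1 = t.1 := by rw [← ht, Prod.fst_sum]
  have ht2 : ∀ v, ∑ u, (τ u).2 v = t.2 v := by
    intro v
    rw [← ht, Prod.snd_sum, Finset.sum_apply]
  have hγ1 : γ.1 = ∑ u, (τ u).1 • (u : (Fin k → X) × (Fin k → X)).2 := by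
    rw [hγ]
    exact phi_mg U (fun u (s : Tp ℓ S) => s.1 • u.2) (fun u => zero_smul _ _) τ
  have hγ2 : ∀ v, γ.2 v = ∑ u, (τ u).2 v • (u : (Fin k → X) × (Fin k → X)).2 := by
    intro v
    rw [hγ]
    exact phi_mg U (fun u (s : Tp ℓ S) => s.2 v • u.2) (fun u => zero_smul _ _) τ
  have hs1 : ∀ (D : {u // u ∈ U} → ZMod ℓ), (∑ u, D u • ((u : (Fin k → X) × (Fin k → X)) - u₀)) =
      (∑ u, D u • (u : (Fin k → X) × (Fin k → X)).1 - (∑ u, D u) • u₀.1,
        ∑ u, D u • (u : (Fin k → X) × (Fin k → X)).2 - (∑ u, D u) • u₀.2) := by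
    intro D
    refine Prod.ext ?_ ?_
    · rw [Prod.fst_sum]
      simp only [Prod.smul_fst, Prod.fst_sub, smul_sub, Finset.sum_sub_distrib, Finset.sum_smul]
    · rw [Prod.snd_sum]
      simp only [Prod.smul_snd, Prod.snd_sub, smul_sub, Finset.sum_sub_distrib, Finset.sum_smul]
  have hab1 : (∑ u, (τ u).1 • ((u : (Fin k → X) × (Fin k → X)) - u₀)) = (a.1, b.1) := by
    rw [hs1, ht1, ha, hb]
    refine Prod.ext ?_ ?_
    · change ∑ u, (τ u).1 • (u : (Fin k → X) × (Fin k → X)).1 - t.1 • u₀.1 =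
        (tens (mgU U τ fun _ => 0)).1 - t.1 • u₀.1
      congr 1
      exact (phi_mg U (fun u (s : Tp ℓ S) => s.1 • u.1) (fun u => zero_smul _ _) τ).symm
    · change _ = γ.1 - t.1 • u₀.2
      rw [hγ1]
  have hab2 : ∀ v, (∑ u, (τ u).2 v • ((u : (Fin k → X) × (Fin k → X)) - u₀)) = (a.2 v, b.2 v) := by
    intro v
    rw [hs1, ht2, ha, hb]
    refine Prod.ext ?_ ?_
    · change ∑ u, (τ u).2 v • (u : (Fin k → X) × (Fin k → X)).1 - t.2 v • u₀.1 =
        (tens (mgU U τ fun _ => 0)).2 v - t.2 v • u₀.1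
      congr 1
      exact (phi_mg U (fun u (s : Tp ℓ S) => s.2 v • u.1) (fun u => zero_smul _ _) τ).symm
    · change _ = γ.2 v - t.2 v • u₀.2
      rw [hγ2]
  have hphs : phs (Bk B k) (dtk dt k) ε (mgU U τ fun _ => 0) =
      (Bk B k γ.1 ε.1 + ∑ v, Bk B k (γ.2 v) (ε.2 v)) +
      (∑ u, (τ u).1 * Bk B k (u : (Fin k → X) × (Fin k → X)).2 ((dtk dt k).bet (u : (Fin k → X) × (Fin k → X)).1) +
        ∑ v, ∑ u, (τ u).2 v * Bk B k (u : (Fin k → X) × (Fin k → X)).2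
          ((dtk dt k).L v (u : (Fin k → X) × (Fin k → X)).1)) := by
    unfold phs
    rw [phi_mg U (fun u (s : Tp ℓ S) => s.1 * Bk B k u.2 (ε.1 + (dtk dt k).bet u.1) +
      ∑ v, s.2 v * Bk B k u.2 (ε.2 v + (dtk dt k).L v u.1)) (by intro u; simp), hγ1]
    simp only [hγ2, map_sum, map_smul, LinearMap.sum_apply, LinearMap.smul_apply, smul_eq_mul]
    rw [Finset.sum_comm (s := Finset.univ (α := S)), Finset.sum_comm (s := Finset.univ (α := S)),
      ← Finset.sum_add_distrib, ← Finset.sum_add_distrib, ← Finset.sum_add_distrib]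
    refine Finset.sum_congr rfl fun u _ => ?_
    simp only [map_add, mul_add, Finset.sum_add_distrib]
    ring
  have hL : ∀ v, ∑ u, (τ u).2 v * Bk B k (u : (Fin k → X) × (Fin k → X)).2
      ((dtk dt k).L v (u : (Fin k → X) × (Fin k → X)).1) =
      t.2 v * Bk B k u₀.2 ((dtk dt k).L v u₀.1) + Bk B k u₀.2 ((dtk dt k).L v (a.2 v)) +
        Bk B k (b.2 v) ((dtk dt k).L v u₀.1) + Bk B k (b.2 v) ((dtk dt k).L v (a.2 v)) := by
    intro v
    have h1 := phi_A (Bk B k) ((dtk dt k).L v) u₀.1 u₀.2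
      (fun u : {u // u ∈ U} => (u : (Fin k → X) × (Fin k → X)).1) (fun u => (u : (Fin k → X) × (Fin k → X)).2)
      (fun u => (τ u).2 v)
    have h2 := phi_L hB (hd.self v) hΛ (fun u : {u // u ∈ U} => (u : (Fin k → X) × (Fin k → X)) - u₀) hxU
      (fun u => (τ u).2 v)
    rw [hab2 v] at h2
    have h3 : ∑ u : {u // u ∈ U}, (τ u).2 v • ((u : (Fin k → X) × (Fin k → X)).1 - u₀.1) = a.2 v := by
      have := congrArg Prod.fst (hab2 v)
      rw [Prod.fst_sum] at this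
      exact this
    have h4 : ∑ u : {u // u ∈ U}, (τ u).2 v • ((u : (Fin k → X) × (Fin k → X)).2 - u₀.2) = b.2 v := by
      have := congrArg Prod.snd (hab2 v)
      rw [Prod.snd_sum] at this
      exact this
    rw [h1, ht2, h3, h4]
    congr 1
  have hC := phi_C hB hd.bet hd.two hd.odd hd.alt hΛ
    (fun u : {u // u ∈ U} => Fintype.equivFin ((Fin k → X) × (Fin k → X)) u.1)
    (fun u w huw => Subtype.ext ((Fintype.equivFin _).injective huw)) u₀
    (fun u : {u // u ∈ U} => (u : (Fin k → X) × (Fin k → X))) hxU (fun u => (τ u).1)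
  rw [hab1, ht1] at hC
  have hA := phi_A (Bk B k) ((dtk dt k).bet) u₀.1 u₀.2
      (fun u : {u // u ∈ U} => (u : (Fin k → X) × (Fin k → X)).1) (fun u => (u : (Fin k → X) × (Fin k → X)).2)
      (fun u => (τ u).1)
  have h3 : ∑ u : {u // u ∈ U}, (τ u).1 • ((u : (Fin k → X) × (Fin k → X)).1 - u₀.1) = a.1 := by
    have := congrArg Prod.fst hab1
    rw [Prod.fst_sum] at this
    exact this
  have h4 : ∑ u : {u // u ∈ U}, (τ u).1 • ((u : (Fin k → X) × (Fin k → X)).2 - u₀.2) = b.1 := by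
    have := congrArg Prod.snd hab1
    rw [Prod.snd_sum] at this
    exact this
  rw [ht1, h3, h4] at hA
  rw [hphs, Finset.sum_congr rfl fun v _ => hL v, hA]
  have hC' : ∑ u : {u // u ∈ U}, (τ u).1 * Bk B k ((u : (Fin k → X) × (Fin k → X)).2 - u₀.2)
      ((dtk dt k).bet ((u : (Fin k → X) × (Fin k → X)).1 - u₀.1)) +
      e * rS (CDX (Bk B k)) U (fun u => (τ u).1) =
      Bk B k b.1 ((dtk dt k).bet a.1) + e * (t.1 + 1) * Bk B k u₀.2 a.1 := hC
  linear_combination hC'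

end Pool.Agent.H94.PN
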