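import Pool.Agent.H94.PM.TRV

set_option autoImplicit false

/-!
# [H94 PN PRE] Coordinates of tuples of rational functions

`Pre ℓ A D δ`: all `δ k ≠ 0`, the product is an `ℓ`-th power, and the exponents at the primes which do not divide `D`, `dl A` are `0`.  These are the only properties of Selmer classes used in `lgs_v`, `lgs_i` (`PM.TRV`), `un_dl_P` (`PM.TRA`):
* `pre_v`, `pre_i`, `pre_P`: copy the proofs of `PM.lgs_v`, `PM.lgs_i`, `PM.un_dl_P` with `h.ex` instead of `sln_good`, `pre_kap`, `pre_ex` instead of `sln_kap`, `sln_ex` (copy these proofs also: `kap`, `ex` of `∏ δ k = y ^ ℓ`).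
* `pre_sln`: a Selmer class has these properties (`sln_good`).
-/

namespace Pool.Agent.H94.PN

open Polynomial WithZero IsDedekindDomain
open Pool.Agent.H94.PL
open Pool.Agent.H94.PM
open Pool.Agent.H94.PC (Mo Sq Pr pf om Mn mem_Mo mem_Sq mem_Pr mem_pf mem_pf')

/-- tuples whose coordinates describe their classes -/
structure Pre {F : Type} [Field F] {m : ℕ} (ℓ : ℕ) (A : Fin m → F[X]) (D : F[X])
    (δ : Fin m → RatFunc F) : Prop where
  ne : ∀ k, δ k ≠ 0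
  prod : ∃ y : RatFunc F, ∏ k, δ k = y ^ ℓ
  ex : ∀ Q : F[X], Q.Monic → Irreducible Q → ¬ Q ∣ D → ¬ Q ∣ dl A → ∀ k, ex ℓ Q (δ k) = 0

variable {F : Type} [Field F] [Finite F] {ℓ m : ℕ} [hl : Fact ℓ.Prime] (χ : LChar F ℓ)
variable {α : ℕ} {c : F} {A : Fin m → F[X]} {D : F[X]} {δ : Fin m → RatFunc F}

omit [Finite F] in
private theorem pre_root (h : Pre ℓ A D δ) : ∃ y : RatFunc F, y ≠ 0 ∧ ∏ k, δ k = y ^ ℓ := by
  obtain ⟨y, hy⟩ := h.prod
  refine ⟨y, ?_, hy⟩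
  rintro rfl
  rw [zero_pow hl.out.ne_zero] at hy
  exact (Finset.prod_ne_zero_iff.2 fun k _ => h.ne k) hy

theorem pre_kap (h : Pre ℓ A D δ) : ∑ k, kap χ (δ k) = 0 := by
  obtain ⟨y, hy0, hy⟩ := pre_root h
  rw [← kap_prod χ Finset.univ δ fun k _ => h.ne k, hy, kap_pow_l χ hy0]

theorem pre_ex (h : Pre ℓ A D δ) {P : F[X]} (hP : Irreducible P) :
    ∑ k, ex ℓ P (δ k) = 0 := by
  obtain ⟨y, hy0, hy⟩ := pre_root h
  rw [← ex_prod hP Finset.univ δ fun k _ => h.ne k, hy, ex_pow_l hP hy0]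

theorem pre_sln [DecidableEq (RatFunc F)] (hm : Nat.Coprime m ℓ) (hα : ℓ ∣ α * m + 1) (hc : c ≠ 0)
    (hD : D.Monic) (h : IsSln ℓ α c A D δ) : Pre ℓ A D δ :=
  ⟨h.ne, h.prod, fun _ hQm hQi h1 h2 k => sln_good hm hα hc hD h hQm hQi h1 h2 k⟩

private theorem pre_h_coe_sum {ι : Type*} (s : Finset ι) (f : ι → XX m ℓ) (k : Fin m) :
    (∑ i ∈ s, f i).1 k = ∑ i ∈ s, (f i).1 k := by
  classical
  induction s using Finset.induction_on with
  | empty => rfl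
  | insert a s ha ih =>
    rw [Finset.sum_insert ha, Finset.sum_insert ha, ← ih]
    rfl

private theorem pre_h_dl0 {A : Fin m → F[X]} (hA : ∀ i k, i ≠ k → A i ≠ A k) : dl A ≠ 0 := by
  rw [dl, Finset.prod_ne_zero_iff]
  intro p hp
  exact sub_ne_zero.2 (hA _ _ (mem_prs.1 hp).ne)

open Classical in
private theorem pre_h_erase {Δ : F[X]} (v : pf Δ) (f : F[X] → ZMod ℓ) :
    ∑ v' ∈ Finset.univ.erase v, f v'.1 = ∑ Q ∈ (pf Δ).erase v.1, f Q := by
  have h1 := Finset.add_sum_erase Finset.univ (fun v' : pf Δ => f v'.1) (Finset.mem_univ v)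
  have h2 := Finset.add_sum_erase (pf Δ) f v.2
  have h3 : ∑ P : pf Δ, f P.1 = ∑ Q ∈ pf Δ, f Q := Finset.sum_coe_sort (pf Δ) f
  rw [← h2, ← h1] at h3
  exact add_left_cancel h3

theorem pre_v (hA : ∀ i k, i ≠ k → A i ≠ A k) (hD : D.Monic)
    (hDA : IsCoprime D (dl A)) (h : Pre ℓ A D δ) (v : pf (dl A)) :
    lgs (UV χ v) (fun k => toV v (δ k)) =
      locv χ v ((zM χ A D δ).1, xi χ (dl A) D (zM χ A D δ).2) := by
  classical
  have hv := mem_pf' v.2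
  have hvD : ¬ v.1 ∣ D := tk_cop hDA.symm hv.2.1 hv.2.2
  have hdl0 := pre_h_dl0 hA
  have hne : ∀ k, toV v (δ k) ≠ 0 := fun k => (_root_.map_ne_zero _).2 (h.ne k)
  have hroot : ∃ y, ∏ k, toV v (δ k) = y ^ ℓ := by
    obtain ⟨y, hy⟩ := h.prod
    exact ⟨toV v y, by rw [← map_prod, hy, map_pow]⟩
  have hT : ∀ Q ∈ (pf (dl A)).erase v.1 ∪ pf D, Q.Monic ∧ Irreducible Q := by
    intro Q hQ
    rcases Finset.mem_union.1 hQ with h1 | h1
    · exact ⟨(mem_pf' (Finset.mem_of_mem_erase h1)).1, (mem_pf' (Finset.mem_of_mem_erase h1)).2.1⟩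
    · exact ⟨(mem_pf' h1).1, (mem_pf' h1).2.1⟩
  have hvT : v.1 ∉ (pf (dl A)).erase v.1 ∪ pf D := by
    intro h1
    rcases Finset.mem_union.1 h1 with h2 | h2
    · exact Finset.ne_of_mem_erase h2 rfl
    · exact hvD (mem_pf' h2).2.2
  have hdisj : Disjoint ((pf (dl A)).erase v.1) (pf D) := by
    rw [Finset.disjoint_left]
    intro Q hQ1 hQ2
    have h1 := mem_pf' (Finset.mem_of_mem_erase hQ1)
    exact tk_cop hDA h1.2.1 (mem_pf' hQ2).2.2 h1.2.2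
  refine Prod.ext ?_ ?_
  · change toX (fun k => (vl (wP v.1 (mem_pf' v.2).2.1) (toV v (δ k)) : ZMod ℓ)) =
      toX (fun k => ex ℓ v.1 (δ k))
    congr 1
    funext k
    exact vl_toP hv.2.1 (h.ne k)
  · apply Subtype.ext
    funext k
    have e0 : ((lgs (UV χ v) fun k => toV v (δ k)).2).1 k = (UV χ v).un (toV v (δ k)) :=
      lgs_snd (UV χ v) hne hroot k
    have e1 : (UV χ v).un (toV v (δ k)) = (v.1.natDegree : ZMod ℓ) * kap χ (δ k) +
        ∑ Q ∈ (pf (dl A)).erase v.1 ∪ pf D, ex ℓ Q (δ k) * lm χ Q v.1 := by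
      refine un_toP χ hv.1 hv.2.1 (h.ne k) _ hT hvT ?_
      intro Q hQm hQi hQT hQv
      refine h.ex Q hQm hQi ?_ ?_ k
      · intro hd
        exact hQT (Finset.mem_union_right _ ((mem_pf hD.ne_zero).2 ⟨hQm, hQi, hd⟩))
      · intro hd
        exact hQT (Finset.mem_union_left _
          (Finset.mem_erase.2 ⟨hQv, (mem_pf hdl0).2 ⟨hQm, hQi, hd⟩⟩))
    have hk : ∀ k, (toX fun k => kap χ (δ k)).1 k = kap χ (δ k) := toX_apply (pre_kap χ h)
    have hx : ∀ (P : pf D) k, (toX fun k => ex ℓ P.1 (δ k)).1 k = ex ℓ P.1 (δ k) := fun P =>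
      toX_apply (pre_ex h (mem_pf' P.2).2.1)
    have hy : ∀ (P : pf (dl A)) k, (toX fun k => ex ℓ P.1 (δ k)).1 k = ex ℓ P.1 (δ k) :=
      fun P => toX_apply (pre_ex h (mem_pf' P.2).2.1)
    have e2 : ((locv χ v ((zM χ A D δ).1, xi χ (dl A) D (zM χ A D δ).2)).2).1 k =
        (v.1.natDegree : ZMod ℓ) * kap χ (δ k) +
        (∑ v' ∈ Finset.univ.erase v, lm χ v'.1 v.1 * ex ℓ v'.1 (δ k)) +
        (∑ P : pf D, lm χ v.1 P.1 * ex ℓ P.1 (δ k)) +
        (χ.lg (-1) * (v.1.natDegree : ZMod ℓ)) *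
          ∑ P : pf D, (P.1.natDegree : ZMod ℓ) * ex ℓ P.1 (δ k) := by
      change ((v.1.natDegree : ZMod ℓ) * (toX fun k => kap χ (δ k)).1 k +
        (∑ v' ∈ Finset.univ.erase v, lm χ v'.1 v.1 • (toX fun k => ex ℓ v'.1 (δ k))).1 k +
        (∑ P : pf D, lm χ v.1 P.1 • (toX fun k => ex ℓ P.1 (δ k))).1 k +
        (χ.lg (-1) * (v.1.natDegree : ZMod ℓ)) *
          (∑ P : pf D, (P.1.natDegree : ZMod ℓ) • (toX fun k => ex ℓ P.1 (δ k))).1 k) = _
      rw [hk, pre_h_coe_sum, pre_h_coe_sum, pre_h_coe_sum]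
      congr 1
      · congr 1
        · congr 1
          exact Finset.sum_congr rfl fun v' _ => congrArg (lm χ v'.1 v.1 * ·) (hy v' k)
        · exact Finset.sum_congr rfl fun P _ => congrArg (lm χ v.1 P.1 * ·) (hx P k)
      · congr 1
        exact Finset.sum_congr rfl fun P _ => congrArg ((P.1.natDegree : ZMod ℓ) * ·) (hx P k)
    rw [e0, e1, Finset.sum_union hdisj]
    refine Eq.trans ?_ e2.symm
    have e3 : ∑ v' ∈ Finset.univ.erase v, lm χ v'.1 v.1 * ex ℓ v'.1 (δ k) =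
        ∑ Q ∈ (pf (dl A)).erase v.1, lm χ Q v.1 * ex ℓ Q (δ k) :=
      pre_h_erase v fun Q => lm χ Q v.1 * ex ℓ Q (δ k)
    have e4 : ∑ Q ∈ pf D, ex ℓ Q (δ k) * lm χ Q v.1 =
        (∑ P : pf D, lm χ v.1 P.1 * ex ℓ P.1 (δ k)) + (χ.lg (-1) * (v.1.natDegree : ZMod ℓ)) *
          ∑ P : pf D, (P.1.natDegree : ZMod ℓ) * ex ℓ P.1 (δ k) := by
      rw [← Finset.sum_coe_sort (pf D) (fun Q => ex ℓ Q (δ k) * lm χ Q v.1), Finset.mul_sum,
        ← Finset.sum_add_distrib]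
      refine Finset.sum_congr rfl fun P _ => ?_
      have hP := mem_pf' P.2
      have hcop : IsCoprime P.1 v.1 := by
        rw [hP.2.1.coprime_iff_not_dvd]
        intro h1
        have h2 := eq_of_monic_of_associated hP.1 hv.1 (hP.2.1.associated_of_dvd hv.2.1 h1)
        exact hvD (h2 ▸ hP.2.2)
      rw [lm_recip' χ hP.1 hv.1 hcop]
      ring
    rw [e3, e4]
    have e5 : ∑ Q ∈ (pf (dl A)).erase v.1, ex ℓ Q (δ k) * lm χ Q v.1 =
        ∑ Q ∈ (pf (dl A)).erase v.1, lm χ Q v.1 * ex ℓ Q (δ k) :=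
      Finset.sum_congr rfl fun Q _ => mul_comm _ _
    rw [e5]
    ring

theorem pre_i [DecidableEq (RatFunc F)] (hA : ∀ i k, i ≠ k → A i ≠ A k) (hD : D.Monic)
    (hDA : IsCoprime D (dl A)) (h : Pre ℓ A D δ) :
    lgs (UI χ) (fun k => toI F (δ k)) =
      loci ((zM χ A D δ).1, xi χ (dl A) D (zM χ A D δ).2) := by
  classical
  have hdl0 := pre_h_dl0 hA
  have hne : ∀ k, toI F (δ k) ≠ 0 := fun k => (_root_.map_ne_zero _).2 (h.ne k)
  have hroot : ∃ y, ∏ k, toI F (δ k) = y ^ ℓ := by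
    obtain ⟨y, hy⟩ := h.prod
    exact ⟨toI F y, by rw [← map_prod, hy, map_pow]⟩
  have hT : ∀ Q ∈ pf (dl A) ∪ pf D, Q.Monic ∧ Irreducible Q := by
    intro Q hQ
    rcases Finset.mem_union.1 hQ with h1 | h1
    · exact ⟨(mem_pf' h1).1, (mem_pf' h1).2.1⟩
    · exact ⟨(mem_pf' h1).1, (mem_pf' h1).2.1⟩
  have hdisj : Disjoint (pf (dl A)) (pf D) := by
    rw [Finset.disjoint_left]
    intro Q hQ1 hQ2
    have h1 := mem_pf' hQ1
    exact tk_cop hDA h1.2.1 (mem_pf' hQ2).2.2 h1.2.2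
  refine Prod.ext ?_ ?_
  · apply Subtype.ext
    funext k
    have e0 : ((lgs (UI χ) fun k => toI F (δ k)).1).1 k = (vl (wI F) (toI F (δ k)) : ZMod ℓ) :=
      lgs_fst (UI χ) hne hroot k
    have e1 : (vl (wI F) (toI F (δ k)) : ZMod ℓ) =
        -∑ Q ∈ pf (dl A) ∪ pf D, ex ℓ Q (δ k) * (Q.natDegree : ZMod ℓ) := by
      refine vl_inf χ (h.ne k) _ hT ?_
      intro Q hQm hQi hQT
      refine h.ex Q hQm hQi ?_ ?_ k
      · intro hd
        exact hQT (Finset.mem_union_right _ ((mem_pf hD.ne_zero).2 ⟨hQm, hQi, hd⟩))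
      · intro hd
        exact hQT (Finset.mem_union_left _ ((mem_pf hdl0).2 ⟨hQm, hQi, hd⟩))
    have hx : ∀ (P : pf D) k, (toX fun k => ex ℓ P.1 (δ k)).1 k = ex ℓ P.1 (δ k) := fun P =>
      toX_apply (pre_ex h (mem_pf' P.2).2.1)
    have hy : ∀ (P : pf (dl A)) k, (toX fun k => ex ℓ P.1 (δ k)).1 k = ex ℓ P.1 (δ k) :=
      fun P => toX_apply (pre_ex h (mem_pf' P.2).2.1)
    have e2 : ((loci ((zM χ A D δ).1, xi χ (dl A) D (zM χ A D δ).2)).1).1 k =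
        -((∑ v : pf (dl A), (v.1.natDegree : ZMod ℓ) * ex ℓ v.1 (δ k)) +
          ∑ P : pf D, (P.1.natDegree : ZMod ℓ) * ex ℓ P.1 (δ k)) := by
      change -((∑ v : pf (dl A), (v.1.natDegree : ZMod ℓ) •
          (toX fun k => ex ℓ v.1 (δ k))).1 k +
        (∑ P : pf D, (P.1.natDegree : ZMod ℓ) • (toX fun k => ex ℓ P.1 (δ k))).1 k) = _
      rw [pre_h_coe_sum, pre_h_coe_sum]
      congr 1
      congr 1
      · exact Finset.sum_congr rfl fun P _ => congrArg ((P.1.natDegree : ZMod ℓ) * ·) (hy P k)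
      · exact Finset.sum_congr rfl fun P _ => congrArg ((P.1.natDegree : ZMod ℓ) * ·) (hx P k)
    rw [e0, e1, Finset.sum_union hdisj]
    refine Eq.trans ?_ e2.symm
    rw [← Finset.sum_coe_sort (pf D) (fun Q => ex ℓ Q (δ k) * (Q.natDegree : ZMod ℓ)),
      ← Finset.sum_coe_sort (pf (dl A)) (fun Q => ex ℓ Q (δ k) * (Q.natDegree : ZMod ℓ))]
    congr 1
    congr 1
    · exact Finset.sum_congr rfl fun P _ => mul_comm _ _
    · exact Finset.sum_congr rfl fun P _ => mul_comm _ _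
  · change toX (fun k => (UI χ).un (toI F (δ k))) = toX (fun k => kap χ (δ k))
    congr 1
    funext k
    exact un_inf χ (h.ne k)

open Classical in
theorem pre_P (hA : ∀ i k, i ≠ k → A i ≠ A k) (hD : D.Monic)
    (hDA : IsCoprime D (dl A)) (h : Pre ℓ A D δ) {P : F[X]} (hPm : P.Monic)
    (hP : Irreducible P) (hPD : P ∣ D) (k : Fin m) : (UP χ hPm hP).un (toP P hP (δ k)) =
      (P.natDegree : ZMod ℓ) * kap χ (δ k) + (∑ Q ∈ (pf D).erase P, PL.ex ℓ Q (δ k) * lm χ Q P +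
        ∑ v : pf (dl A), PL.ex ℓ v.1 (δ k) * lm χ v.1 P) := by
  have hdl0 : dl A ≠ 0 := by
    rw [dl]
    refine Finset.prod_ne_zero_iff.2 fun p hp => sub_ne_zero.2 (hA _ _ ?_)
    exact (mem_prs.1 hp).ne
  have hdis : Disjoint ((pf D).erase P) (pf (dl A)) := by
    rw [Finset.disjoint_left]
    intro Q hQ hQ'
    have hQ := Finset.mem_of_mem_erase hQ
    exact (mem_pf' hQ).2.1.not_isUnit (hDA.isUnit_of_dvd' (mem_pf' hQ).2.2 (mem_pf' hQ').2.2)
  have hPdl : P ∉ pf (dl A) := fun h =>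
    hP.not_isUnit (hDA.isUnit_of_dvd' hPD (mem_pf' h).2.2)
  rw [un_toP χ hPm hP (h.ne k) ((pf D).erase P ∪ pf (dl A)) (by
      intro Q hQ
      rcases Finset.mem_union.1 hQ with h | h
      · exact ⟨(mem_pf' (Finset.mem_of_mem_erase h)).1,
          (mem_pf' (Finset.mem_of_mem_erase h)).2.1⟩
      · exact ⟨(mem_pf' h).1, (mem_pf' h).2.1⟩)
    (by
      rw [Finset.mem_union, not_or]
      exact ⟨Finset.notMem_erase _ _, hPdl⟩) (by
      intro Q hQm hQ hQT hQP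
      rw [Finset.mem_union, not_or] at hQT
      refine h.ex Q hQm hQ (fun h4 => hQT.1 (Finset.mem_erase.2 ⟨hQP, ?_⟩))
        (fun h4 => hQT.2 ((mem_pf hdl0).2 ⟨hQm, hQ, h4⟩)) k
      exact (mem_pf hD.ne_zero).2 ⟨hQm, hQ, h4⟩)]
  rw [Finset.sum_union hdis, ← Finset.sum_coe_sort (pf (dl A))
    (fun Q => ex ℓ Q (δ k) * lm χ Q P)]

end Pool.Agent.H94.PN
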