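import Pool.Agent.H94.PN.PRE

set_option autoImplicit false

/-!
# [H94 PN PREX] Tuples with given coordinates

`z = (ε, x)`; `δ k = algebraMap (C (c_k) * ∏ v ∈ pf (dl A), v ^ ((ε.2 v).1 k).val * ∏ P ∈ pf D, P ^ ((x P).1 k).val)`, `c_k ≠ 0` with `χ.lg (c_k) = (ε.1).1 k` (`LChar.surj` and powers of an element with logarithm `1`).
`kap`, `ex` of such products: the lemmas of `PL.Kx` (`kap_poly`, `ex_poly`, multiplicativity; different monic irreducible polynomials do not divide each other; `pf D`, `pf (dl A)` are disjoint as `D` is prime to `dl A`): `kap (δ k) = (ε.1).1 k`,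
`ex v (δ k) = (ε.2 v).1 k`, `ex P (δ k) = (x P).1 k`, `ex Q (δ k) = 0` for the other `Q`.  The product over `k`: all `ex` and `kap` vanish (sums over `k` of elements of `XX`), so it is an `ℓ`-th power (`pow_of_ex_kap`).
-/

namespace Pool.Agent.H94.PN

open Polynomial
open Pool.Agent.H94.PL
open Pool.Agent.H94.PM
open Pool.Agent.H94.PC (Mo Sq Pr pf om Mn mem_Mo mem_Sq mem_Pr mem_pf mem_pf')

variable {F : Type} [Field F] [Finite F] {ℓ m : ℕ} [hl : Fact ℓ.Prime] (χ : LChar F ℓ)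
variable {A : Fin m → F[X]} {D : F[X]}

private theorem prex_lg (a : ZMod ℓ) : ∃ c : F, c ≠ 0 ∧ χ.lg c = a := by
  obtain ⟨x, hx, h1⟩ := χ.surj
  have h : ∀ n : ℕ, χ.lg (x ^ n) = n := by
    intro n
    induction n with
    | zero =>
      have h2 := χ.mul (one_ne_zero (α := F)) (one_ne_zero (α := F))
      rw [mul_one] at h2
      rw [pow_zero, Nat.cast_zero]
      exact left_eq_add.1 h2
    | succ n ih =>
      rw [pow_succ, χ.mul (pow_ne_zero n hx) hx, ih, h1]
      push_cast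
      ring
  refine ⟨x ^ a.val, pow_ne_zero _ hx, ?_⟩
  rw [h, ZMod.natCast_zmod_val]

private theorem prex_ex {P Q : F[X]} (hPm : P.Monic) (hP : Irreducible P) (hQm : Q.Monic)
    (hQ : Irreducible Q) [Decidable (P = Q)] :
    ex ℓ Q (algebraMap F[X] (RatFunc F) P) = if P = Q then 1 else 0 := by
  split_ifs with h
  · subst h
    exact ex_of_dvd_sqf hP dvd_rfl hP.squarefree
  · refine ex_of_not_dvd hQ fun h1 => h ?_
    exact (eq_of_monic_of_associated hQm hPm (hQ.associated_of_dvd hP h1)).symm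

private theorem prex_kap {P : F[X]} (hPm : P.Monic) :
    kap χ (algebraMap F[X] (RatFunc F) P) = 0 := by
  rw [kap_poly χ hPm.ne_zero, hPm.leadingCoeff]
  have h2 := χ.mul (one_ne_zero (α := F)) (one_ne_zero (α := F))
  rw [mul_one] at h2
  exact left_eq_add.1 h2

theorem exists_dl (hA : ∀ i k, i ≠ k → A i ≠ A k) (hD : D.Monic) (hDA : IsCoprime D (dl A))
    (z : EE (XX m ℓ) (pf (dl A)) × (pf D → XX m ℓ)) :
    ∃ δ : Fin m → RatFunc F, Pre ℓ A D δ ∧ zM χ A D δ = z := by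
  classical
  obtain ⟨⟨e1, e2⟩, x⟩ := z
  choose cc hc0 hc using fun k => prex_lg χ (e1.1 k)
  let δ : Fin m → RatFunc F := fun k => algebraMap F[X] (RatFunc F) (C (cc k)) *
    (∏ v : pf (dl A), algebraMap F[X] (RatFunc F) v.1 ^ ((e2 v).1 k).val) *
    ∏ P : pf D, algebraMap F[X] (RatFunc F) P.1 ^ ((x P).1 k).val
  have hC : ∀ k, algebraMap F[X] (RatFunc F) (C (cc k)) ≠ 0 := fun k =>
    RatFunc.algebraMap_ne_zero (C_ne_zero.2 (hc0 k))
  have hv : ∀ {Δ : F[X]} (v : pf Δ), algebraMap F[X] (RatFunc F) v.1 ≠ 0 := fun v =>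
    RatFunc.algebraMap_ne_zero (mem_pf' v.2).1.ne_zero
  have hp1 : ∀ k, (∏ v : pf (dl A), algebraMap F[X] (RatFunc F) v.1 ^ ((e2 v).1 k).val) ≠ 0 :=
    fun k => Finset.prod_ne_zero_iff.2 fun v _ => pow_ne_zero _ (hv v)
  have hp2 : ∀ k, (∏ P : pf D, algebraMap F[X] (RatFunc F) P.1 ^ ((x P).1 k).val) ≠ 0 :=
    fun k => Finset.prod_ne_zero_iff.2 fun v _ => pow_ne_zero _ (hv v)
  have hne : ∀ k, δ k ≠ 0 := fun k => mul_ne_zero (mul_ne_zero (hC k) (hp1 k)) (hp2 k)
  have hkap : ∀ k, kap χ (δ k) = e1.1 k := by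
    intro k
    change kap χ (algebraMap F[X] (RatFunc F) (C (cc k)) *
      (∏ v : pf (dl A), algebraMap F[X] (RatFunc F) v.1 ^ ((e2 v).1 k).val) *
      ∏ P : pf D, algebraMap F[X] (RatFunc F) P.1 ^ ((x P).1 k).val) = _
    rw [kap_mul χ (mul_ne_zero (hC k) (hp1 k)) (hp2 k), kap_mul χ (hC k) (hp1 k),
      kap_prod χ _ _ (fun v _ => pow_ne_zero _ (hv v)), kap_prod χ _ _ (fun v _ => pow_ne_zero _ (hv v)),
      kap_poly χ (C_ne_zero.2 (hc0 k)), leadingCoeff_C, hc k]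
    have g1 : ∑ v : pf (dl A), kap χ (algebraMap F[X] (RatFunc F) v.1 ^ ((e2 v).1 k).val) = 0 :=
      Finset.sum_eq_zero fun v _ => by
        rw [kap_pow χ (hv v), prex_kap χ (mem_pf' v.2).1, mul_zero]
    have g2 : ∑ v : pf D, kap χ (algebraMap F[X] (RatFunc F) v.1 ^ ((x v).1 k).val) = 0 :=
      Finset.sum_eq_zero fun v _ => by
        rw [kap_pow χ (hv v), prex_kap χ (mem_pf' v.2).1, mul_zero]
    rw [g1, g2, add_zero, add_zero]
  have hex : ∀ Q : F[X], Q.Monic → Irreducible Q → ∀ k, ex ℓ Q (δ k) =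
      ∑ v : pf (dl A), (e2 v).1 k * (if v.1 = Q then 1 else 0) +
        ∑ P : pf D, (x P).1 k * (if P.1 = Q then 1 else 0) := by
    intro Q hQm hQ k
    change ex ℓ Q (algebraMap F[X] (RatFunc F) (C (cc k)) *
      (∏ v : pf (dl A), algebraMap F[X] (RatFunc F) v.1 ^ ((e2 v).1 k).val) *
      ∏ P : pf D, algebraMap F[X] (RatFunc F) P.1 ^ ((x P).1 k).val) = _
    have hQC : ¬ Q ∣ C (cc k) := fun h1 =>
      hQ.not_isUnit (isUnit_of_dvd_unit h1 (isUnit_C.2 (isUnit_iff_ne_zero.2 (hc0 k))))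
    rw [ex_mul hQ (mul_ne_zero (hC k) (hp1 k)) (hp2 k), ex_mul hQ (hC k) (hp1 k),
      ex_prod hQ _ _ (fun v _ => pow_ne_zero _ (hv v)), ex_prod hQ _ _ (fun v _ => pow_ne_zero _ (hv v)),
      ex_of_not_dvd hQ hQC, zero_add]
    congr 1
    · refine Finset.sum_congr rfl fun v _ => ?_
      rw [ex_pow hQ (hv v), prex_ex (mem_pf' v.2).1 (mem_pf' v.2).2.1 hQm hQ, ZMod.natCast_zmod_val]
    · refine Finset.sum_congr rfl fun v _ => ?_
      rw [ex_pow hQ (hv v), prex_ex (mem_pf' v.2).1 (mem_pf' v.2).2.1 hQm hQ, ZMod.natCast_zmod_val]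
  have hdl0 : dl A ≠ 0 := by
    rw [dl]
    refine Finset.prod_ne_zero_iff.2 fun p hp => sub_ne_zero.2 (hA _ _ ?_)
    exact (mem_prs.1 hp).ne
  have hprod : ∃ y : RatFunc F, ∏ k, δ k = y ^ ℓ := by
    have h0 : ∏ k, δ k ≠ 0 := Finset.prod_ne_zero_iff.2 fun k _ => hne k
    obtain ⟨y, -, hy⟩ := pow_of_ex_kap χ h0 (by
      intro Q hQm hQ
      rw [ex_prod hQ _ _ (fun k _ => hne k), Finset.sum_congr rfl fun k _ => hex Q hQm hQ k,
        Finset.sum_add_distrib, Finset.sum_comm, Finset.sum_comm (s := Finset.univ (α := Fin m))]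
      have g1 : ∀ v : pf (dl A), ∑ k, (e2 v).1 k * (if v.1 = Q then 1 else 0) = 0 := by
        intro v
        rw [← Finset.sum_mul, XX_sum, zero_mul]
      have g2 : ∀ v : pf D, ∑ k, (x v).1 k * (if v.1 = Q then 1 else 0) = 0 := by
        intro v
        rw [← Finset.sum_mul, XX_sum, zero_mul]
      rw [Finset.sum_eq_zero fun v _ => g1 v, Finset.sum_eq_zero fun v _ => g2 v, add_zero])
      (by rw [kap_prod χ _ _ (fun k _ => hne k), Finset.sum_congr rfl fun k _ => hkap k, XX_sum])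
    exact ⟨y, hy⟩
  have hPre : Pre ℓ A D δ := by
    refine ⟨hne, hprod, ?_⟩
    intro Q hQm hQ h1 h2 k
    rw [hex Q hQm hQ k]
    rw [Finset.sum_eq_zero fun v _ => ?_, Finset.sum_eq_zero fun v _ => ?_, add_zero]
    · rw [if_neg, mul_zero]
      intro h3
      exact h1 (h3 ▸ (mem_pf' v.2).2.2)
    · rw [if_neg, mul_zero]
      intro h3
      exact h2 (h3 ▸ (mem_pf' v.2).2.2)
  have hnd : ∀ (v : pf (dl A)) (P : pf D), v.1 ≠ P.1 := by
    intro v P h3
    have h4 := mem_pf' P.2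
    exact h4.2.1.not_isUnit (hDA.isUnit_of_dvd' h4.2.2 (h3 ▸ (mem_pf' v.2).2.2))
  refine ⟨δ, hPre, ?_⟩
  refine Prod.ext (Prod.ext ?_ ?_) ?_
  · apply Subtype.ext
    funext k
    change (toX fun k => kap χ (δ k)).1 k = e1.1 k
    rw [toX_apply (pre_kap χ hPre), hkap]
  · funext v
    apply Subtype.ext
    funext k
    have hvv := mem_pf' v.2
    change (toX fun k => ex ℓ v.1 (δ k)).1 k = (e2 v).1 k
    rw [toX_apply (pre_ex hPre hvv.2.1), hex v.1 hvv.1 hvv.2.1]
    rw [Finset.sum_eq_single v, Finset.sum_eq_zero, add_zero, if_pos rfl, mul_one]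
    · intro P _
      rw [if_neg (hnd v P).symm, mul_zero]
    · intro w _ hw
      rw [if_neg fun h3 => hw (Subtype.ext h3), mul_zero]
    · intro h3
      exact absurd (Finset.mem_univ v) h3
  · funext v
    apply Subtype.ext
    funext k
    have hvv := mem_pf' v.2
    change (toX fun k => ex ℓ v.1 (δ k)).1 k = (x v).1 k
    rw [toX_apply (pre_ex hPre hvv.2.1), hex v.1 hvv.1 hvv.2.1]
    rw [Finset.sum_eq_zero, Finset.sum_eq_single v, zero_add, if_pos rfl, mul_one]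
    · intro w _ hw
      rw [if_neg fun h3 => hw (Subtype.ext h3), mul_zero]
    · intro h3
      exact absurd (Finset.mem_univ v) h3
    · intro P _
      rw [if_neg (hnd P v), mul_zero]

end Pool.Agent.H94.PN
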