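import Pool.Agent.H94.PN.TEN
import Pool.Agent.H94.PM.KD

set_option autoImplicit false

/-!
# [H94 PN PWR] Powers of the data

`X^k = Fin k → X` with the form `Bk x y = ∑ i, B (x i) (y i)`, and the data `dtk`: `bet`, `L v` in each component, `W t` the elements all of whose components are in `dt.W t`.
* `Bk_good`: symmetric; nondegenerate: take `y` with one nonzero component.
* `km_pow_card`: `z ∈ KM χ (dtk dt k) D` iff all components `((κ i, fun v => y v i), fun P => x P i)` are in `KM χ dt D` (`EM` and `xi` are computed in each component), so `KM (dtk) ≃ (Fin k → KM)`,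
  `Nat.card_congr`, `Nat.card_fun`.
-/

namespace Pool.Agent.H94.PN

open Polynomial
open Pool.Agent.H94.PL
open Pool.Agent.H94.PM
open Pool.Agent.H94.PC (Mo Sq Pr pf om Mn mem_Mo mem_Sq mem_Pr mem_pf mem_pf')

variable {ℓ : ℕ} [hl : Fact ℓ.Prime] {X : Type} [AddCommGroup X] [Module (ZMod ℓ) X]

/-- the form on the power -/
noncomputable def Bk (B : X →ₗ[ZMod ℓ] X →ₗ[ZMod ℓ] ZMod ℓ) (k : ℕ) :
    (Fin k → X) →ₗ[ZMod ℓ] (Fin k → X) →ₗ[ZMod ℓ] ZMod ℓ :=
  LinearMap.mk₂ (ZMod ℓ) (fun x y => ∑ i, B (x i) (y i))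
    (fun x x' y => by
      simp only [Pi.add_apply, map_add, LinearMap.add_apply, Finset.sum_add_distrib])
    (fun c x y => by
      simp only [Pi.smul_apply, map_smul, LinearMap.smul_apply, Finset.smul_sum])
    (fun x y y' => by
      simp only [Pi.add_apply, map_add, Finset.sum_add_distrib])
    (fun c x y => by
      simp only [Pi.smul_apply, map_smul, Finset.smul_sum])

theorem Bk_apply (B : X →ₗ[ZMod ℓ] X →ₗ[ZMod ℓ] ZMod ℓ) (k : ℕ) (x y : Fin k → X) :
    Bk B k x y = ∑ i, B (x i) (y i) := rfl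

theorem Bk_good {B : X →ₗ[ZMod ℓ] X →ₗ[ZMod ℓ] ZMod ℓ} (hB : BGood B) (k : ℕ) :
    BGood (Bk B k) := by
  refine ⟨fun x y => ?_, fun x hx => ?_⟩
  · rw [Bk_apply, Bk_apply]
    exact Finset.sum_congr rfl fun i _ => hB.symm _ _
  · funext i
    refine hB.nondeg (x i) fun y => ?_
    have h := hx (Pi.single i y)
    rw [Bk_apply, Finset.sum_eq_single i] at h
    · rw [Pi.single_eq_same] at h
      exact h
    · intro j _ hj
      rw [Pi.single_eq_of_ne hj, map_zero]
    · intro hi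
      exact absurd (Finset.mem_univ i) hi

/-- component `i` -/
def cpt {S : Type} {k : ℕ} (i : Fin k) (z : EE (Fin k → X) S) : EE X S := (z.1 i, fun v => z.2 v i)

/-- the power of the data -/
noncomputable def dtk {S : Type} (dt : Dat ℓ X S) (k : ℕ) : Dat ℓ (Fin k → X) S where
  bet := LinearMap.pi fun i => dt.bet ∘ₗ LinearMap.proj i
  L v := LinearMap.pi fun i => dt.L v ∘ₗ LinearMap.proj i
  W t := {
    carrier := {z | ∀ i, (cpt i z.1, cpt i z.2) ∈ dt.W t}
    zero_mem' := fun i => (dt.W t).zero_mem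
    add_mem' := fun {z w} h h' i => (dt.W t).add_mem (h i) (h' i)
    smul_mem' := fun c z h i => (dt.W t).smul_mem c (h i) }

theorem mem_dtk_W {S : Type} {dt : Dat ℓ X S} {k : ℕ} {t : Tp ℓ S}
    {z : EE (Fin k → X) S × EE (Fin k → X) S} :
    z ∈ (dtk dt k).W t ↔ ∀ i, (cpt i z.1, cpt i z.2) ∈ dt.W t := Iff.rfl

variable {F : Type} [Field F] [Finite F] (χ : LChar F ℓ) {Δ : F[X]} (dt : Dat ℓ X (pf Δ))

private theorem em_cpt (k : ℕ) (D : F[X]) (z : EE (Fin k → X) (pf Δ) × (pf D → Fin k → X))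
    (P : pf D) (i : Fin k) :
    EM χ (dtk dt k) D z P i = EM χ dt D (cpt i z.1, fun Q => z.2 Q i) P := by
  simp only [EM, dtk, cpt, Pi.add_apply, Finset.sum_apply, Pi.smul_apply, Pi.sub_apply,
    LinearMap.pi_apply, LinearMap.comp_apply, LinearMap.proj_apply]

private theorem xi_cpt (k : ℕ) (D : F[X]) (x : pf D → Fin k → X) (i : Fin k) :
    cpt i (xi χ Δ D x) = xi χ Δ D (fun Q => x Q i) := by
  refine Prod.ext ?_ ?_
  · simp only [xi, cpt, Finset.sum_apply, Pi.smul_apply]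
  · funext v
    simp only [xi, cpt, Finset.sum_apply, Pi.smul_apply]

private theorem mem_km_cpt (k : ℕ) (D : F[X])
    (z : EE (Fin k → X) (pf Δ) × (pf D → Fin k → X)) :
    z ∈ KM χ (dtk dt k) D ↔ ∀ i, ((cpt i z.1, fun Q => z.2 Q i) :
      EE X (pf Δ) × (pf D → X)) ∈ KM χ dt D := by
  rw [mem_KM]
  constructor
  · rintro ⟨h1, h2⟩ i
    rw [mem_KM]
    refine ⟨?_, fun P => ?_⟩
    · have h := (mem_dtk_W.1 h1) i
      rw [xi_cpt] at h
      exact h
    · rw [← em_cpt χ dt k D z P i, h2 P]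
      rfl
  · intro h
    refine ⟨mem_dtk_W.2 fun i => ?_, fun P => ?_⟩
    · have h' := ((mem_KM χ dt D).1 (h i)).1
      rw [← xi_cpt χ k D z.2 i] at h'
      exact h'
    · funext i
      rw [em_cpt]
      exact ((mem_KM χ dt D).1 (h i)).2 P

theorem km_pow_card (k : ℕ) (D : F[X]) :
    Nat.card (KM χ (dtk dt k) D) = Nat.card (KM χ dt D) ^ k := by
  have e : KM χ (dtk dt k) D ≃ (Fin k → KM χ dt D) :=
    { toFun := fun z i => ⟨(cpt i z.1.1, fun Q => z.1.2 Q i), (mem_km_cpt χ dt k D z.1).1 z.2 i⟩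
      invFun := fun f => ⟨((fun i => (f i).1.1.1, fun v i => (f i).1.1.2 v),
          fun Q i => (f i).1.2 Q), (mem_km_cpt χ dt k D _).2 fun i => (f i).2⟩
      left_inv := fun z => rfl
      right_inv := fun f => rfl }
  rw [Nat.card_congr e, Nat.card_fun, Nat.card_fin]

end Pool.Agent.H94.PN
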