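import Pool.Agent.H94.PN.HEL

set_option autoImplicit false

/-!
# [H94 PN ROOT] `ℓ`-th roots of `1 + y`, `y` topologically nilpotent, in algebras over a complete field of characteristic `p`

`O = v.integer`, `κ` its residue field (`IsLocalRing.ResidueField`, or the quotient by the ideal `v < 1`), `red` the residue map.  `(ℓ : M) ≠ 0`, so `p ∤ ℓ`; `(p : κ) = 0`.
Let `p ^ s ≥ N` and `e` with `e ℓ = 1 + p ^ s j` (`e ≥ 1`; `ℓ` is invertible modulo `p ^ s`).  `hel` for `P = X ^ N - C γ`, `G = 1 + X`, `Q₀ = (1 + X) ^ e`: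
`P.map red = X ^ N`; `(Q₀ ^ ℓ - G).map red = (1 + X) * ((1 + X ^ (p ^ s)) ^ j - 1)` is divisible by `X ^ (p ^ s)` (`add_pow_char_pow`), so by `X ^ N`; `X ^ N` and `(1 + X) ^ e` are coprime.
We get `Q ∈ O[X]` with `P ∣ Q ^ ℓ - (1 + X)`; substitute `X = y` in `Λ` (through `O → M → Λ`, `eval₂`): `P(y) = y ^ N - γ = 0`, so `z = Q(y)` satisfies `z ^ ℓ = 1 + y`.
-/

namespace Pool.Agent.H94.PN

open Polynomial WithZero

private lemma root_max {M : Type} [Field M] [hv : Valued M ℤᵐ⁰]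
    (w : (Valued.v : Valuation M ℤᵐ⁰).integer)
    (hw : (Valued.v : Valuation M ℤᵐ⁰) (w : M) = exp (-1 : ℤ))
    (x : (Valued.v : Valuation M ℤᵐ⁰).integer) :
    x ∈ Ideal.span {w} ↔ (Valued.v : Valuation M ℤᵐ⁰) (x : M) < 1 := by
  have hw0 : (w : M) ≠ 0 := by
    intro h0
    rw [h0, map_zero] at hw
    exact exp_ne_zero hw.symm
  rw [Ideal.mem_span_singleton]
  constructor
  · rintro ⟨y, rfl⟩
    have hy : (Valued.v : Valuation M ℤᵐ⁰) (y : M) ≤ 1 := y.2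
    rw [Subring.coe_mul, map_mul, hw]
    refine (mul_le_of_le_one_right' hy).trans_lt ?_
    rw [← exp_zero, exp_lt_exp]
    norm_num
  · intro h
    have h2 : (Valued.v : Valuation M ℤᵐ⁰) (x : M) ≤ exp (-1 : ℤ) := by
      rcases eq_or_ne ((Valued.v : Valuation M ℤᵐ⁰) (x : M)) 0 with h0 | h0
      · rw [h0]
        exact zero_le
      · rw [← exp_log h0] at h ⊢
        rw [← exp_zero, exp_lt_exp] at h
        rw [exp_le_exp]
        omega
    refine ⟨⟨(x : M) / (w : M), ?_⟩, ?_⟩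
    · rw [Valuation.mem_integer_iff, map_div₀, hw]
      exact div_le_one_of_le₀ h2 zero_le
    · apply Subtype.ext
      rw [Subring.coe_mul]
      field_simp

private lemma root_isMax {M : Type} [Field M] [hv : Valued M ℤᵐ⁰]
    (w : (Valued.v : Valuation M ℤᵐ⁰).integer)
    (hw : (Valued.v : Valuation M ℤᵐ⁰) (w : M) = exp (-1 : ℤ)) :
    (Ideal.span {w}).IsMaximal := by
  rw [Ideal.isMaximal_iff]
  constructor
  · rw [root_max w hw, Subring.coe_one, map_one]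
    exact lt_irrefl _
  · intro J x _ hx hxJ
    rw [root_max w hw, not_lt] at hx
    have hx1 : (Valued.v : Valuation M ℤᵐ⁰) (x : M) = 1 := le_antisymm x.2 hx
    have hx0 : (x : M) ≠ 0 := by
      intro h0
      rw [h0, map_zero] at hx1
      exact zero_ne_one hx1
    have h2 : (x : M)⁻¹ ∈ (Valued.v : Valuation M ℤᵐ⁰).integer := by
      rw [Valuation.mem_integer_iff, map_inv₀, hx1, inv_one]
    have h3 : (1 : (Valued.v : Valuation M ℤᵐ⁰).integer) = x * ⟨(x : M)⁻¹, h2⟩ := by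
      apply Subtype.ext
      rw [Subring.coe_mul, Subring.coe_one]
      exact (mul_inv_cancel₀ hx0).symm
    rw [h3]
    exact J.mul_mem_right _ hxJ

theorem root {M : Type} [Field M] [hv : Valued M ℤᵐ⁰] [CompleteSpace M] {p : ℕ}
    [hp : Fact p.Prime] [CharP M p] {ϖ : M}
    (hϖ : (Valued.v : Valuation M ℤᵐ⁰) ϖ = exp (-1 : ℤ)) {ℓ : ℕ}
    (hℓ : (Valued.v : Valuation M ℤᵐ⁰) (ℓ : M) = 1) {Λ : Type*} [CommRing Λ] [Algebra M Λ] {y : Λ}
    {N : ℕ} (hN : 1 ≤ N) {γ : M} (hγ : (Valued.v : Valuation M ℤᵐ⁰) γ < 1)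
    (h : y ^ N = algebraMap M Λ γ) : ∃ z : Λ, z ^ ℓ = 1 + y := by
  have hw1 : ϖ ∈ (Valued.v : Valuation M ℤᵐ⁰).integer := by
    rw [Valuation.mem_integer_iff, hϖ, ← exp_zero, exp_le_exp]
    norm_num
  obtain ⟨w, hw⟩ : ∃ w : (Valued.v : Valuation M ℤᵐ⁰).integer, w = ⟨ϖ, hw1⟩ := ⟨_, rfl⟩
  have hwv : (Valued.v : Valuation M ℤᵐ⁰) (w : M) = exp (-1 : ℤ) := by
    rw [hw]
    exact hϖ
  have := root_isMax w hwv
  let _ : Field ((Valued.v : Valuation M ℤᵐ⁰).integer ⧸ Ideal.span {w}) := Ideal.Quotient.field _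
  have hγ1 : γ ∈ (Valued.v : Valuation M ℤᵐ⁰).integer := by
    rw [Valuation.mem_integer_iff]
    exact hγ.le
  obtain ⟨g, hg⟩ : ∃ g : (Valued.v : Valuation M ℤᵐ⁰).integer, g = ⟨γ, hγ1⟩ := ⟨_, rfl⟩
  have hgr : Ideal.Quotient.mk (Ideal.span {w}) g = 0 := by
    rw [Ideal.Quotient.eq_zero_iff_mem, root_max w hwv, hg]
    exact hγ
  -- the exponents
  have hpl : Nat.Coprime ℓ (p ^ N) := by
    refine Nat.Coprime.pow_right _ ?_
    rw [Nat.coprime_comm, Nat.Prime.coprime_iff_not_dvd hp.out]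
    intro hd
    have h1 : (ℓ : M) = 0 := (CharP.cast_eq_zero_iff M p ℓ).2 hd
    rw [h1, map_zero] at hℓ
    exact zero_ne_one hℓ
  have hpN : N < p ^ N := Nat.lt_pow_self hp.out.one_lt
  obtain ⟨e, -, he⟩ := Nat.exists_mul_mod_eq_one_of_coprime hpl (by omega)
  obtain ⟨j, hj⟩ : ∃ j : ℕ, e * ℓ = 1 + p ^ N * j := by
    refine ⟨ℓ * e / p ^ N, ?_⟩
    have h1 := Nat.div_add_mod (ℓ * e) (p ^ N)
    rw [he] at h1
    rw [mul_comm e ℓ]
    omega
  have hmon : (X ^ N - C g : (Valued.v : Valuation M ℤᵐ⁰).integer[X]).Monic :=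
    monic_X_pow_sub_C _ (by omega)
  have hmap : (X ^ N - C g : (Valued.v : Valuation M ℤᵐ⁰).integer[X]).map
      (Ideal.Quotient.mk (Ideal.span {w})) = X ^ N := by
    rw [Polynomial.map_sub, Polynomial.map_pow, map_X, map_C, hgr, C_0, sub_zero]
  have hc : IsCoprime ((X ^ N - C g : (Valued.v : Valuation M ℤᵐ⁰).integer[X]).map
      (Ideal.Quotient.mk (Ideal.span {w})))
      (((1 + X) ^ e : (Valued.v : Valuation M ℤᵐ⁰).integer[X]).map
      (Ideal.Quotient.mk (Ideal.span {w}))) := by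
    rw [hmap, Polynomial.map_pow, Polynomial.map_add, Polynomial.map_one, map_X]
    refine IsCoprime.pow ⟨-1, 1, ?_⟩
    ring
  have hd : (X ^ N - C g : (Valued.v : Valuation M ℤᵐ⁰).integer[X]).map
      (Ideal.Quotient.mk (Ideal.span {w})) ∣
      (((1 + X) ^ e) ^ ℓ - (1 + X) : (Valued.v : Valuation M ℤᵐ⁰).integer[X]).map
      (Ideal.Quotient.mk (Ideal.span {w})) := by
    have h1 : (X ^ N : (Valued.v : Valuation M ℤᵐ⁰).integer[X]) ∣
        ((1 + X) ^ e) ^ ℓ - (1 + X) := by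
      have h2 : (((1 + X) ^ e) ^ ℓ - (1 + X) : (Valued.v : Valuation M ℤᵐ⁰).integer[X]) =
          (1 + X) * ((1 + X ^ (p ^ N)) ^ j - 1) := by
        rw [← pow_mul, hj, pow_add, pow_one, pow_mul, add_pow_char_pow, one_pow]
        ring
      rw [h2]
      refine Dvd.dvd.mul_left ?_ _
      have h3 := sub_dvd_pow_sub_pow (1 + X ^ (p ^ N) :
        (Valued.v : Valuation M ℤᵐ⁰).integer[X]) 1 j
      rw [one_pow, add_sub_cancel_left] at h3
      exact (pow_dvd_pow _ hpN.le).trans h3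
    have h4 := Polynomial.map_dvd (Ideal.Quotient.mk (Ideal.span {w})) h1
    rw [hmap]
    rwa [Polynomial.map_pow, map_X] at h4
  obtain ⟨Q, S, hQ⟩ := hel (Ideal.Quotient.mk (Ideal.span {w})) Ideal.Quotient.mk_surjective
    (fun x => by rw [Ideal.Quotient.eq_zero_iff_mem, root_max w hwv]) hϖ hℓ hmon hc hd
  obtain ⟨φ, hφ⟩ : ∃ φ : (Valued.v : Valuation M ℤᵐ⁰).integer →+* Λ,
    φ = (algebraMap M Λ).comp (Valued.v : Valuation M ℤᵐ⁰).integer.subtype := ⟨_, rfl⟩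
  refine ⟨eval₂ φ y Q, ?_⟩
  have h5 := congrArg (eval₂ φ y) hQ
  have h6 : φ g = y ^ N := by
    rw [h, hφ, hg]
    rfl
  rw [eval₂_sub, eval₂_pow, eval₂_add, eval₂_one, eval₂_X, eval₂_mul, eval₂_sub, eval₂_pow,
    eval₂_X, eval₂_C, h6, sub_self, zero_mul] at h5
  exact sub_eq_zero.1 h5

end Pool.Agent.H94.PN
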