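import Pool.Agent.H94.PN.LD
import Pool.Agent.H94.PM.UN

set_option autoImplicit false

/-!
# [H94 PN RSP] The residue maps of the completions

* `exists_RsP`: `κ = AdjoinRoot P` (a field, `P` irreducible; finite since `P` is monic and `F` finite), `O = (wP P hP).integer`.  For `x ∈ O` there is `g : F[X]` with `wP (x - toP g) < 1` (`TC.exists_approx` with exponent `1`, see `exists_LUP` in `PM.LUP` and
  `PL.exists_of_Cl_l`), and `P ∣ g - g'` for two such `g, g'` (`wP (toP g) < 1 → P ∣ g`: `wP_eq_one`).  `red x = AdjoinRoot.mk P g` for a chosen `g`: a ring homomorphism, surjective (`x = toP g`, `wP_le_one`), `red x = 0 ↔ wP x < 1`.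
  The character `χ'` of `κ`: `lg (mk P g) = lm χ g P` (`lm_congr`; choose representatives; at `0` any value), `mul` by `lm_mul_left` (`g`, `g'` prime to `P`), `surj` by `PL.exists_cs_prime` (`cs χ A P = ps 1` gives `A` prime to `P` with `lm χ A P = 1`), `ker` by
  `ker_lm`.  `un`: for `wP x = 1`: `wP (x / toP g - 1) < 1`, so `un x = un (toP g) = lm χ g P` (`un_congr`, `UP_poly`).
* `exists_RsI`: `κ = F`, `χ' = χ`.  For `x` with `wI x ≤ 1` there is a unique constant `c : F` with `wI (x - toI (C c)) < 1` (`LT.exists_const` for `wI x = 1`, see `exists_LUI` in `PM.LUI`; `c = 0` if `wI x < 1`; uniqueness: a nonzero constant has valuation `1`, `LT.val_const`).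
  `red x = c`.  `un`: `UI_poly` for the constant polynomial: `un (toI (C c)) = χ.lg c`.
* `char_P`, `char_I`: the fields contain `F`, injective ring homomorphisms (`charP_of_injective_ringHom`).
-/

namespace Pool.Agent.H94.PN

open Polynomial WithZero IsDedekindDomain
open Pool.Agent.H94.PL
open Pool.Agent.H94.PM

private theorem rs_mk {M R κ : Type} [Field M] [CommRing R] [Field κ] (v : Valuation M ℤᵐ⁰)
    (e : R →+* M) (q : R →+* κ) (hq : Function.Surjective q) (he : ∀ r, v (e r) ≤ 1)
    (hk : ∀ r, q r = 0 ↔ v (e r) < 1) (ha : ∀ x : M, v x ≤ 1 → ∃ r, v (x - e r) < 1) :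
    ∃ red : v.integer →+* κ, Function.Surjective red ∧ (∀ x, red x = 0 ↔ v (x : M) < 1) ∧
      ∀ (x : v.integer) (r : R), v ((x : M) - e r) < 1 → red x = q r := by
  have hx1 : ∀ x : v.integer, v (x : M) ≤ 1 := fun x => (Valuation.mem_integer_iff v _).1 x.2
  choose! f hf using ha
  have key : ∀ (x : M) (r r' : R), v (x - e r) < 1 → v (x - e r') < 1 → q r = q r' := by
    intro x r r' h h'
    rw [← sub_eq_zero, ← map_sub, hk, map_sub]
    have h1 : e r - e r' = (x - e r') - (x - e r) := by ring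
    rw [h1]
    exact lt_of_le_of_lt (v.map_sub _ _) (max_lt h' h)
  have hun : ∀ (x : v.integer) (r : R), v ((x : M) - e r) < 1 → q (f (x : M)) = q r :=
    fun x r h => key _ _ _ (hf _ (hx1 x)) h
  refine ⟨{ toFun := fun x => q (f (x : M)), map_one' := ?_, map_mul' := ?_, map_zero' := ?_,
            map_add' := ?_ }, ?_, ?_, ?_⟩
  · rw [hun 1 1 (by
      rw [map_one e]
      have : ((1 : v.integer) : M) - 1 = 0 := by simp
      rw [this, map_zero]
      exact zero_lt_one), map_one]
  · intro x y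
    rw [← map_mul q, hun (x * y) (f (x : M) * f (y : M))]
    have h1 : ((x * y : v.integer) : M) - e (f (x : M) * f (y : M)) =
        (x : M) * ((y : M) - e (f (y : M))) + ((x : M) - e (f (x : M))) * e (f (y : M)) := by
      rw [map_mul]
      push_cast
      ring
    rw [h1]
    refine lt_of_le_of_lt (v.map_add _ _) (max_lt ?_ ?_)
    · rw [map_mul]
      exact lt_of_le_of_lt (mul_le_of_le_one_left' (hx1 x)) (hf _ (hx1 y))
    · rw [map_mul]
      exact lt_of_le_of_lt (mul_le_of_le_one_right' (he _)) (hf _ (hx1 x))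
  · rw [hun 0 0 (by
      rw [map_zero e]
      have : ((0 : v.integer) : M) - 0 = 0 := by simp
      rw [this, map_zero]
      exact zero_lt_one), map_zero]
  · intro x y
    rw [← map_add q, hun (x + y) (f (x : M) + f (y : M))]
    have h1 : ((x + y : v.integer) : M) - e (f (x : M) + f (y : M)) =
        ((x : M) - e (f (x : M))) + ((y : M) - e (f (y : M))) := by
      rw [map_add]
      push_cast
      ring
    rw [h1]
    exact lt_of_le_of_lt (v.map_add _ _) (max_lt (hf _ (hx1 x)) (hf _ (hx1 y)))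
  · intro c
    obtain ⟨r, rfl⟩ := hq c
    refine ⟨⟨e r, (Valuation.mem_integer_iff v _).2 (he r)⟩, ?_⟩
    refine hun ⟨e r, (Valuation.mem_integer_iff v _).2 (he r)⟩ r ?_
    have : ((⟨e r, (Valuation.mem_integer_iff v _).2 (he r)⟩ : v.integer) : M) - e r = 0 :=
      sub_self _
    rw [this, map_zero]
    exact zero_lt_one
  · intro x
    have h1 := hf _ (hx1 x)
    show q (f (x : M)) = 0 ↔ _
    rw [hk]
    constructor
    · intro h2
      have h3 : (x : M) = ((x : M) - e (f (x : M))) + e (f (x : M)) := by ring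
      rw [h3]
      exact lt_of_le_of_lt (v.map_add _ _) (max_lt h1 h2)
    · intro h2
      have h3 : e (f (x : M)) = (x : M) - ((x : M) - e (f (x : M))) := by ring
      rw [h3]
      exact lt_of_le_of_lt (v.map_sub _ _) (max_lt h2 h1)
  · intro x r h
    exact hun x r h

variable {F : Type} [Field F] [Finite F] {ℓ : ℕ} [hl : Fact ℓ.Prime] (χ : LChar F ℓ)

omit [Finite F] in
private theorem wP_lt_of_dvd {P g : F[X]} (hP : Irreducible P) (hd : P ∣ g) :
    wP P hP (toP P hP (algebraMap F[X] (RatFunc F) g)) < 1 := by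
  obtain ⟨b, rfl⟩ := hd
  rw [map_mul, map_mul, map_mul, wP_self]
  refine lt_of_le_of_lt (mul_le_of_le_one_right' (wP_le_one P hP b)) ?_
  rw [← exp_zero, exp_lt_exp]
  norm_num

omit [Finite F] in
private theorem rsp_approx {P : F[X]} (hP : Irreducible P)
    (s : (LT.place P hP).adicCompletion (RatFunc F)) (hs : wP P hP s ≤ 1) :
    ∃ g : F[X], wP P hP (s - toP P hP (algebraMap F[X] (RatFunc F) g)) < 1 := by
  have hs1 : (Valued.v s : ℤᵐ⁰) ≤ 1 := hs
  obtain ⟨y, hy⟩ := TC.exists_approx (K := RatFunc F) (LT.place P hP) P hP.ne_zero rfl 1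
    ⟨s, hs1⟩
  rw [TC.pow_dvd_iff (K := RatFunc F) (LT.place P hP) P hP.ne_zero rfl] at hy
  refine ⟨y, ?_⟩
  have hy1 : (Valued.v (s - algebraMap (RatFunc F) ((LT.place P hP).adicCompletion (RatFunc F))
      (algebraMap F[X] (RatFunc F) y)) : ℤᵐ⁰) < 1 := by
    rw [LT.lt_one_iff_le]
    have h3 : (((⟨s, hs1⟩ : (LT.place P hP).adicCompletionIntegers (RatFunc F)) -
      algebraMap F[X] ((LT.place P hP).adicCompletionIntegers (RatFunc F)) y :
        (LT.place P hP).adicCompletionIntegers (RatFunc F)) :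
      (LT.place P hP).adicCompletion (RatFunc F)) =
        s - algebraMap (RatFunc F) ((LT.place P hP).adicCompletion (RatFunc F))
          (algebraMap F[X] (RatFunc F) y) := by
      rw [HeightOneSpectrum.algebraMap_adicCompletion]
      push_cast
      rw [HeightOneSpectrum.algebraMap_adicCompletionIntegers_apply]
      rfl
    rw [h3] at hy
    exact_mod_cast hy
  exact hy1

private theorem exists_lg {P : F[X]} (hPm : P.Monic) (hP : Irreducible P)
    [hfact : Fact (Irreducible P)] :
    ∃ χ' : LChar (AdjoinRoot P) ℓ, ∀ g : F[X], χ'.lg (AdjoinRoot.mk P g) = lm χ g P := by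
  have hcop : ∀ a : F[X], ¬ P ∣ a → IsCoprime a P := fun a ha =>
    ((hP.coprime_iff_not_dvd).2 ha).symm
  choose rep hrep using fun x : AdjoinRoot P => AdjoinRoot.mk_surjective x
  have hlg : ∀ g : F[X], lm χ (rep (AdjoinRoot.mk P g)) P = lm χ g P := by
    intro g
    exact lm_congr χ hPm (AdjoinRoot.mk_eq_mk.1 (hrep _))
  have hnd : ∀ x : AdjoinRoot P, x ≠ 0 → ¬ P ∣ rep x := by
    intro x hx hd
    have h1 : AdjoinRoot.mk P (rep x) = 0 := AdjoinRoot.mk_eq_zero.2 hd
    rw [hrep] at h1
    exact hx h1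
  refine ⟨{ lg := fun x => lm χ (rep x) P, mul := ?_, surj := ?_, ker := ?_ }, hlg⟩
  · intro x y hx hy
    rw [← lm_mul_left χ hPm (hcop _ (hnd x hx)) (hcop _ (hnd y hy))]
    have h1 : x * y = AdjoinRoot.mk P (rep x * rep y) := by
      rw [map_mul, hrep, hrep]
    rw [h1]
    exact hlg _
  · obtain ⟨A, hA⟩ := exists_cs_prime χ hPm hP
    have hAc : IsCoprime A P := by
      by_contra hn
      have h1 : cs χ A P = 0 := by
        rw [cs, res_eq_zero hPm hn, chc_zero]
      rw [h1] at hA
      exact ps_ne_zero _ hA.symm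
    have hAP : ¬ P ∣ A := fun hd => by
      obtain ⟨a, b, hab⟩ := hAc
      exact hP.not_isUnit (isUnit_of_dvd_one (by
        rw [← hab]
        exact dvd_add (Dvd.dvd.mul_left hd a) (Dvd.intro_left b rfl)))
    rw [cs_of_coprime χ hPm hAc] at hA
    have h2 := ps_inj hA
    refine ⟨AdjoinRoot.mk P A, fun h3 => hAP (AdjoinRoot.mk_eq_zero.1 h3), ?_⟩
    rw [hlg]
    exact h2
  · intro x hx h
    obtain ⟨u, hu, hgu⟩ := ker_lm χ hPm hP (hnd x hx) h
    refine ⟨AdjoinRoot.mk P u, fun h3 => hu (AdjoinRoot.mk_eq_zero.1 h3), ?_⟩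
    rw [← map_pow, ← hrep x]
    exact AdjoinRoot.mk_eq_mk.2 hgu

theorem exists_RsP {P : F[X]} (hPm : P.Monic) (hP : Irreducible P) :
    ∃ (κ : Type) (_ : Field κ) (_ : Finite κ) (χ' : LChar κ ℓ),
      Nonempty (Rs (wP P hP) (UP χ hPm hP) κ χ') := by
  have hfact : Fact (Irreducible P) := ⟨hP⟩
  have : FiniteDimensional F (AdjoinRoot P) := (AdjoinRoot.powerBasis hPm.ne_zero).finite
  have hfin : Finite (AdjoinRoot P) := Module.finite_of_finite F
  obtain ⟨χ', hχ'⟩ := exists_lg χ hPm hP
  have hlt : ∀ a : F[X], wP P hP (toP P hP (algebraMap F[X] (RatFunc F) a)) < 1 → P ∣ a := by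
    intro a ha
    by_contra hn
    exact absurd (wP_eq_one hP hn) ha.ne
  obtain ⟨red, hs, hk, hr⟩ := rs_mk (wP P hP) ((toP P hP).comp (algebraMap F[X] (RatFunc F)))
    (AdjoinRoot.mk P) AdjoinRoot.mk_surjective (fun r => wP_le_one P hP r)
    (fun r => by
      rw [AdjoinRoot.mk_eq_zero]
      exact ⟨fun h => wP_lt_of_dvd hP h, fun h => hlt r h⟩)
    (fun x hx => rsp_approx hP x hx)
  refine ⟨AdjoinRoot P, inferInstance, hfin, χ', ⟨⟨red, hs, hk, ?_⟩⟩⟩
  intro x hx
  obtain ⟨g, hg⟩ := rsp_approx hP (x : (LT.place P hP).adicCompletion (RatFunc F)) hx.le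
  have h1 : red x = AdjoinRoot.mk P g := hr x g hg
  have hgP : ¬ P ∣ g := by
    intro hd
    have h2 : red x = 0 := by rw [h1]; exact AdjoinRoot.mk_eq_zero.2 hd
    exact absurd hx ((hk x).1 h2).ne
  have hw := wP_eq_one hP hgP
  have hg0 : toP P hP (algebraMap F[X] (RatFunc F) g) ≠ 0 := by
    intro h2
    rw [h2, map_zero] at hw
    exact zero_ne_one hw
  rw [h1, hχ', ← UP_poly χ hPm hP hgP]
  refine (UP χ hPm hP).un_congr hg0 ?_
  have h3 : (x : (LT.place P hP).adicCompletion (RatFunc F)) /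
      toP P hP (algebraMap F[X] (RatFunc F) g) - 1 =
      ((x : (LT.place P hP).adicCompletion (RatFunc F)) -
        toP P hP (algebraMap F[X] (RatFunc F) g)) / toP P hP (algebraMap F[X] (RatFunc F) g) := by
    rw [sub_div, div_self hg0]
  rw [h3, map_div₀, hw, div_one]
  exact hg

theorem exists_RsI [DecidableEq (RatFunc F)] : Nonempty (Rs (wI F) (UI χ) F χ) := by
  have hv : ∀ c : F, c ≠ 0 → wI F (toI F (algebraMap F[X] (RatFunc F) (C c))) = 1 :=
    fun c hc => LT.val_const hc
  obtain ⟨red, hs, hk, hr⟩ := rs_mk (wI F)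
    ((toI F).comp ((algebraMap F[X] (RatFunc F)).comp (C : F →+* F[X])))
    (RingHom.id F) Function.surjective_id
    (fun c => by
      by_cases hc : c = 0
      · rw [hc, map_zero, map_zero]
        exact zero_le
      · exact (hv c hc).le)
    (fun c => by
      constructor
      · intro h
        have h1 : c = 0 := h
        rw [h1, map_zero, map_zero]
        exact zero_lt_one
      · intro h
        by_contra hc
        exact absurd (hv c hc) h.ne)
    (fun x hx => by
      rcases lt_or_eq_of_le hx with h | h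
      · refine ⟨0, ?_⟩
        rw [map_zero, sub_zero]
        exact h
      · obtain ⟨c, -, h1⟩ := LT.exists_const x h
        exact ⟨c, h1⟩)
  refine ⟨⟨red, hs, hk, ?_⟩⟩
  intro x hx
  obtain ⟨c, hc, h1⟩ := LT.exists_const (x : RatFunc.CompletionAtInfty F) hx
  have h2 : red x = c := hr x c h1
  have hw := hv c hc
  have hc0 : toI F (algebraMap F[X] (RatFunc F) (C c)) ≠ 0 := by
    intro h3
    rw [h3, map_zero] at hw
    exact zero_ne_one hw
  have h4 := UI_poly χ (g := C c) (by rwa [Ne, C_eq_zero])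
  rw [leadingCoeff_C] at h4
  rw [h2, ← h4]
  refine (UI χ).un_congr hc0 ?_
  have h3 : (x : RatFunc.CompletionAtInfty F) / toI F (algebraMap F[X] (RatFunc F) (C c)) - 1 =
      ((x : RatFunc.CompletionAtInfty F) - toI F (algebraMap F[X] (RatFunc F) (C c))) /
        toI F (algebraMap F[X] (RatFunc F) (C c)) := by
    rw [sub_div, div_self hc0]
  rw [h3, map_div₀, hw, div_one]
  exact h1

theorem char_P {P : F[X]} (hP : Irreducible P) (p : ℕ) [CharP F p] :
    CharP ((LT.place P hP).adicCompletion (RatFunc F)) p :=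
  charP_of_injective_ringHom (f := (toP P hP).comp ((algebraMap F[X] (RatFunc F)).comp
    (C : F →+* F[X]))) (RingHom.injective _) p

theorem char_I [DecidableEq (RatFunc F)] (p : ℕ) [CharP F p] :
    CharP (RatFunc.CompletionAtInfty F) p :=
  charP_of_injective_ringHom (f := (toI F).comp ((algebraMap F[X] (RatFunc F)).comp
    (C : F →+* F[X]))) (RingHom.injective _) p

end Pool.Agent.H94.PN
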