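import Mathlib

set_option autoImplicit false

/-!
# [H94 PN SND] Interpolation polynomials at the powers of `Q`

`Q ≥ 3` (only `Q ≥ 2` is used), `gp Q j K = ∏ t ∈ range (K + 1), t ≠ j, (X - C (Q ^ t)) * C (Q ^ j - Q ^ t)⁻¹`, `j ≤ K`.
* `gp_node`: `s ≤ K`: the value at `Q ^ s` is `1` if `s = j` (all factors are `1`) and `0` otherwise (the factor `t = s`).
* `gp_sign`: `s > K`: all numerators `Q ^ s - Q ^ t` are positive; `Q ^ j - Q ^ t` is negative for the `K - j` indices `t > j` and positive for `t < j`: the sign is `(-1) ^ (K - j)`.  (Induction on `K ≥ j`: for `K = j` all factors are positive, each step adds a negative factor.)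
  So `K - j` even: the value is `≥ 0`, `K - j` odd: `≤ 0`.
* `gp_bound`: `s > K`: `|Q ^ s - Q ^ t| ≤ Q ^ s` and `|Q ^ j - Q ^ t| ≥ Q ^ t / 2` for `t ≠ j` (`t > j`: `Q ^ j ≤ Q ^ t / Q ≤ Q ^ t / 2`; `t < j`: `Q ^ j ≥ Q * Q ^ t ≥ 2 Q ^ t`, so the difference is `≥ Q ^ t`).
  So `|value| * ∏_{t ≠ j} Q ^ t ≤ 2 ^ K * (Q ^ s) ^ K`, and `∏_{t ≤ K} Q ^ t = Q ^ (K (K + 1) / 2)`.
-/

namespace Pool.Agent.H94.PN

open Polynomial

/-- the interpolation polynomials -/
noncomputable def gp (Q : ℝ) (j K : ℕ) : ℝ[X] :=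
  ∏ t ∈ (Finset.range (K + 1)).erase j, ((X - C (Q ^ t)) * C (Q ^ j - Q ^ t)⁻¹)

private theorem gp_eval (Q : ℝ) (j K : ℕ) (x : ℝ) :
    (gp Q j K).eval x
      = ∏ t ∈ (Finset.range (K + 1)).erase j, ((x - Q ^ t) * (Q ^ j - Q ^ t)⁻¹) := by
  unfold gp
  rw [eval_prod]
  refine Finset.prod_congr rfl fun t _ => ?_
  rw [eval_mul, eval_sub, eval_X, eval_C, eval_C]

private theorem pow_lt' {Q : ℝ} (hQ : 2 ≤ Q) {a b : ℕ} (h : a < b) : 2 * Q ^ a ≤ Q ^ b := by
  have h1 : Q ^ (a + 1) ≤ Q ^ b := pow_le_pow_right₀ (by linarith) h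
  have h2 : 0 ≤ Q ^ a := by positivity
  calc 2 * Q ^ a ≤ Q * Q ^ a := mul_le_mul_of_nonneg_right hQ h2
    _ = Q ^ (a + 1) := by ring
    _ ≤ Q ^ b := h1

private theorem pow_lt'' {Q : ℝ} (hQ : 2 ≤ Q) {a b : ℕ} (h : a < b) : Q ^ a < Q ^ b := by
  have h1 := pow_lt' hQ h
  have h2 : 0 < Q ^ a := by positivity
  linarith

theorem gp_node {Q : ℝ} (hQ : 2 ≤ Q) {j K s : ℕ} (hj : j ≤ K) (hs : s ≤ K) :
    (gp Q j K).eval (Q ^ s) = if s = j then 1 else 0 := by
  rw [gp_eval]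
  split_ifs with h
  · subst h
    refine Finset.prod_eq_one fun t ht => ?_
    have hne : t ≠ s := (Finset.mem_erase.1 ht).1
    refine mul_inv_cancel₀ ?_
    rcases lt_or_gt_of_ne hne with h1 | h1
    · have := pow_lt'' hQ h1
      exact ne_of_gt (by linarith)
    · have := pow_lt'' hQ h1
      exact ne_of_lt (by linarith)
  · refine Finset.prod_eq_zero (i := s) ?_ ?_
    · exact Finset.mem_erase.2 ⟨h, Finset.mem_range.2 (by omega)⟩
    · rw [sub_self, zero_mul]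

private theorem gp_sign {Q : ℝ} (hQ : 2 ≤ Q) {j : ℕ} (K : ℕ) (hj : j ≤ K) :
    ∀ s : ℕ, K < s → 0 ≤ (-1 : ℝ) ^ (K - j) * (gp Q j K).eval (Q ^ s) := by
  induction K, hj using Nat.le_induction with
  | base =>
    intro s hs
    rw [Nat.sub_self, pow_zero, one_mul, gp_eval]
    refine Finset.prod_nonneg fun t ht => ?_
    have h1 := Finset.mem_erase.1 ht
    have h2 : t < j := by
      have := Finset.mem_range.1 h1.2
      have := h1.1
      omega
    have h3 := pow_lt'' hQ h2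
    have h4 := pow_lt'' hQ (h2.trans hs)
    exact mul_nonneg (by linarith) (inv_nonneg.2 (by linarith))
  | succ K hK ih =>
    intro s hs
    have h1 := ih s (by omega)
    have h2 : (Finset.range (K + 1 + 1)).erase j
        = insert (K + 1) ((Finset.range (K + 1)).erase j) := by
      ext t
      simp only [Finset.mem_erase, Finset.mem_insert, Finset.mem_range]
      omega
    have h3 : (gp Q j (K + 1)).eval (Q ^ s)
        = ((Q ^ s - Q ^ (K + 1)) * (Q ^ j - Q ^ (K + 1))⁻¹) * (gp Q j K).eval (Q ^ s) := by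
      rw [gp_eval, gp_eval, h2, Finset.prod_insert]
      simp
    have h4 : K + 1 - j = (K - j) + 1 := by omega
    rw [h3, h4, pow_succ]
    have h5 := pow_lt'' hQ hs
    have h6 : Q ^ j < Q ^ (K + 1) := pow_lt'' hQ (by omega)
    have h7 : (Q ^ s - Q ^ (K + 1)) * (Q ^ j - Q ^ (K + 1))⁻¹ ≤ 0 :=
      mul_nonpos_of_nonneg_of_nonpos (by linarith) (inv_nonpos.2 (by linarith))
    have h8 : (-1 : ℝ) ^ (K - j) * -1 *
        ((Q ^ s - Q ^ (K + 1)) * (Q ^ j - Q ^ (K + 1))⁻¹ * (gp Q j K).eval (Q ^ s))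
        = (-((Q ^ s - Q ^ (K + 1)) * (Q ^ j - Q ^ (K + 1))⁻¹)) *
          ((-1 : ℝ) ^ (K - j) * (gp Q j K).eval (Q ^ s)) := by ring
    rw [h8]
    exact mul_nonneg (by linarith) h1

theorem gp_even {Q : ℝ} (hQ : 2 ≤ Q) {j K s : ℕ} (hj : j ≤ K) (hK : Even (K - j)) (hs : K < s) :
    0 ≤ (gp Q j K).eval (Q ^ s) := by
  have h := gp_sign hQ K hj s hs
  rwa [hK.neg_one_pow, one_mul] at h

theorem gp_odd {Q : ℝ} (hQ : 2 ≤ Q) {j K s : ℕ} (hj : j ≤ K) (hK : Odd (K - j)) (hs : K < s) :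
    (gp Q j K).eval (Q ^ s) ≤ 0 := by
  have h := gp_sign hQ K hj s hs
  rw [hK.neg_one_pow] at h
  linarith

theorem gp_bound {Q : ℝ} (hQ : 2 ≤ Q) {j K s : ℕ} (hj : j ≤ K) (hs : K < s) :
    |(gp Q j K).eval (Q ^ s)| * Q ^ (K * (K + 1) / 2) ≤ 2 ^ K * Q ^ (s * K + j) := by
  have hjm : j ∈ Finset.range (K + 1) := Finset.mem_range.2 (by omega)
  have h1 : Q ^ (K * (K + 1) / 2) = (∏ t ∈ (Finset.range (K + 1)).erase j, Q ^ t) * Q ^ j := by
    rw [Finset.prod_erase_mul _ _ hjm, Finset.prod_pow_eq_pow_sum, Finset.sum_range_id]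
    congr 2
    rw [Nat.add_sub_cancel, mul_comm]
  have hcard : ((Finset.range (K + 1)).erase j).card = K := by
    rw [Finset.card_erase_of_mem hjm, Finset.card_range, Nat.add_sub_cancel]
  have h2 : |(gp Q j K).eval (Q ^ s)| * (∏ t ∈ (Finset.range (K + 1)).erase j, Q ^ t)
      ≤ ∏ t ∈ (Finset.range (K + 1)).erase j, (2 * Q ^ s) := by
    rw [gp_eval, Finset.abs_prod, ← Finset.prod_mul_distrib]
    refine Finset.prod_le_prod (fun t _ => by positivity) fun t ht => ?_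
    have h3 := Finset.mem_erase.1 ht
    have h4 : t < s := lt_of_lt_of_le (Finset.mem_range.1 h3.2) (by omega)
    have h5 := pow_lt'' hQ h4
    have h6 : 0 < Q ^ t := by positivity
    rw [abs_mul, abs_inv, abs_of_pos (by linarith : 0 < Q ^ s - Q ^ t)]
    have h7 : Q ^ t ≤ 2 * |Q ^ j - Q ^ t| := by
      rcases lt_or_gt_of_ne h3.1 with h8 | h8
      · have := pow_lt' hQ h8
        rw [abs_of_nonneg (by linarith)]
        linarith
      · have := pow_lt' hQ h8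
        rw [abs_of_nonpos (by linarith)]
        linarith
    have h8 : 0 < |Q ^ j - Q ^ t| := by linarith
    rw [mul_assoc]
    have h9 : |Q ^ j - Q ^ t|⁻¹ * Q ^ t ≤ 2 := by
      rw [inv_mul_le_iff₀ h8]
      linarith
    calc (Q ^ s - Q ^ t) * (|Q ^ j - Q ^ t|⁻¹ * Q ^ t) ≤ Q ^ s * 2 :=
          mul_le_mul (by linarith) h9 (by positivity) (by positivity)
      _ = 2 * Q ^ s := mul_comm _ _
  rw [Finset.prod_const, hcard] at h2
  have hQj : 0 ≤ Q ^ j := by positivity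
  calc |(gp Q j K).eval (Q ^ s)| * Q ^ (K * (K + 1) / 2)
      = (|(gp Q j K).eval (Q ^ s)| * (∏ t ∈ (Finset.range (K + 1)).erase j, Q ^ t)) * Q ^ j := by
        rw [h1]; ring
    _ ≤ (2 * Q ^ s) ^ K * Q ^ j := mul_le_mul_of_nonneg_right h2 hQj
    _ = 2 ^ K * Q ^ (s * K + j) := by
        rw [mul_pow, ← pow_mul, pow_add]; ring

end Pool.Agent.H94.PN
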