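import Pool.Agent.H94.PN.PRE
import Pool.Agent.H94.PN.GMX
import Pool.Agent.H94.PM.TRF

set_option autoImplicit false

/-!
# [H94 PN SRJ1] The groups of the values at the good primes and at the primes dividing `D`

`P` monic irreducible, `P ∤ dl A`: the differences of the `toP (AK A k)` are units (`PL.sd_diff`).
* `gam_good`: `P ∤ D`: by `lv_good` (`vl (toP (DK c D)) = 0`, `vl_DK_good`) and `lgs_fst` all `g ∈ Gam` have `g.1 = 0` (`Submodule.span_induction`), so `Gam ≤ {g | g.1 = 0}`; both have `card (XX m ℓ)` elements (`gam_max_P`), so they are equal.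
* `gam_at_D`: `P ∣ D`: by `gam_D` (`vl (toP (DK c D)) = 1`, `vl_DK_D`) `Gam` is contained in the set of the `g` with the relation, which has at most `card (XX m ℓ)` elements (`g.1` determines `g.2`), and `card Gam = card (XX m ℓ)`, so they are equal.
-/

namespace Pool.Agent.H94.PN

open Polynomial WithZero IsDedekindDomain
open Pool.Agent.H94.PL
open Pool.Agent.H94.PM
open Pool.Agent.H94.PC (Mo Sq Pr pf om Mn mem_Mo mem_Sq mem_Pr mem_pf mem_pf')

variable {F : Type} [Field F] [Finite F] {ℓ m : ℕ} [hl : Fact ℓ.Prime] (χ : LChar F ℓ)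
variable {α : ℕ} {c : F} {A : Fin m → F[X]} {D : F[X]}

theorem gam_good (hq : ℓ ∣ Nat.card F - 1) (hm : Nat.Coprime m ℓ) (hα : ℓ ∣ α * m + 1) (hc : c ≠ 0)
    (hA : ∀ i k, i ≠ k → A i ≠ A k) (hD : D.Monic) {P : F[X]} (hPm : P.Monic)
    (hP : Irreducible P) (hPD : ¬ P ∣ D) (hPA : ¬ P ∣ dl A) (g : XX m ℓ × XX m ℓ) :
    g ∈ Gam (UP χ hPm hP) α (toP P hP (DK c D)) (fun k => toP P hP (AK A k)) ↔ g.1 = 0 := by
  have : NeZero ℓ := ⟨hl.out.ne_zero⟩
  have : Finite (XX m ℓ) := inferInstance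
  have hD0 : toP P hP (DK c D) ≠ 0 := (map_ne_zero (toP P hP)).2 (DK_ne hc hD.ne_zero)
  have hAA : ∀ i k, i ≠ k → (fun k => toP P hP (AK A k)) i ≠ (fun k => toP P hP (AK A k)) k :=
    fun i k hik he => hA i k hik (RatFunc.algebraMap_injective F ((toP P hP).injective he))
  have hcard := gam_max_P χ hq hm hα hPm hP hD0 hAA
  have hv0 : (ℓ : ℤ) ∣ vl (wP P hP) (toP P hP (DK c D)) := by
    rw [vl_DK_good hc hP hPD]
    exact dvd_zero _
  have hfst : ∀ g ∈ Gam (UP χ hPm hP) α (toP P hP (DK c D)) (fun k => toP P hP (AK A k)),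
      g.1 = 0 := by
    intro g hg
    have hle : Gam (UP χ hPm hP) α (toP P hP (DK c D)) (fun k => toP P hP (AK A k)) ≤
        LinearMap.ker (LinearMap.fst (ZMod ℓ) (XX m ℓ) (XX m ℓ)) := by
      unfold Gam
      rw [Submodule.span_le]
      rintro _ ⟨δ, hδ, rfl⟩
      rw [SetLike.mem_coe, LinearMap.mem_ker, LinearMap.fst_apply]
      apply Subtype.ext
      funext k
      rw [lgs_fst _ (fun k => isVln_ne hD0 hδ k) (prod_of_isVln hl.out hα hδ)]
      exact (ZMod.intCast_zmod_eq_zero_iff_dvd _ _).2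
        (lv_good (A := fun k => toP P hP (AK A k)) (wP_self P hP) hl.out hm hα hD0 hv0
          (fun i k hik => sd_diff hP hPA hik) hδ k)
    exact LinearMap.mem_ker.1 (hle hg)
  refine ⟨hfst g, fun hg => ?_⟩
  have hinj : Function.Injective (fun x : Gam (UP χ hPm hP) α (toP P hP (DK c D))
      (fun k => toP P hP (AK A k)) => x.1.2) := by
    intro x y hxy
    apply Subtype.ext
    exact Prod.ext ((hfst x.1 x.2).trans (hfst y.1 y.2).symm) hxy
  obtain ⟨x, hx⟩ := (hinj.bijective_of_nat_card_le hcard.ge).2 g.2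
  have h1 : g = x.1 := Prod.ext (hg.trans (hfst x.1 x.2).symm) hx.symm
  rw [h1]
  exact x.2

theorem gam_at_D (hq : ℓ ∣ Nat.card F - 1) (hm : Nat.Coprime m ℓ) (hα : ℓ ∣ α * m + 1) (hc : c ≠ 0)
    (hA : ∀ i k, i ≠ k → A i ≠ A k) (hD : D.Monic) (hDs : Squarefree D) {P : F[X]} (hPm : P.Monic)
    (hP : Irreducible P) (hPD : P ∣ D) (hPA : ¬ P ∣ dl A) (g : XX m ℓ × XX m ℓ) :
    g ∈ Gam (UP χ hPm hP) α (toP P hP (DK c D)) (fun k => toP P hP (AK A k)) ↔
      ∀ k, g.2.1 k = g.1.1 k * ((UP χ hPm hP).un (-1) + (UP χ hPm hP).un (toP P hP (DK c D))) +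
        ∑ i ∈ Finset.univ.erase k, (g.1.1 i - g.1.1 k) *
          (UP χ hPm hP).un (toP P hP (AK A k) - toP P hP (AK A i)) := by
  have : NeZero ℓ := ⟨hl.out.ne_zero⟩
  have : Finite (XX m ℓ) := inferInstance
  have hD0 : toP P hP (DK c D) ≠ 0 := (map_ne_zero (toP P hP)).2 (DK_ne hc hD.ne_zero)
  have hAA : ∀ i k, i ≠ k → (fun k => toP P hP (AK A k)) i ≠ (fun k => toP P hP (AK A k)) k :=
    fun i k hik he => hA i k hik (RatFunc.algebraMap_injective F ((toP P hP).injective he))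
  have hcard := gam_max_P χ hq hm hα hPm hP hD0 hAA
  have hrel : ∀ g ∈ Gam (UP χ hPm hP) α (toP P hP (DK c D)) (fun k => toP P hP (AK A k)), ∀ k,
      g.2.1 k = g.1.1 k * ((UP χ hPm hP).un (-1) + (UP χ hPm hP).un (toP P hP (DK c D))) +
        ∑ i ∈ Finset.univ.erase k, (g.1.1 i - g.1.1 k) *
          (UP χ hPm hP).un (toP P hP (AK A k) - toP P hP (AK A i)) := by
    intro g hg k
    exact gam_D (UP χ hPm hP) hm hα hD0 (vl_DK_D hc hDs hP hPD)
      (A := fun k => toP P hP (AK A k)) (fun i k hik => sd_diff hP hPA hik) hg k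
  refine ⟨hrel g, fun hg => ?_⟩
  have hdet : ∀ x y : XX m ℓ × XX m ℓ,
      (∀ k, x.2.1 k = x.1.1 k * ((UP χ hPm hP).un (-1) + (UP χ hPm hP).un (toP P hP (DK c D))) +
        ∑ i ∈ Finset.univ.erase k, (x.1.1 i - x.1.1 k) *
          (UP χ hPm hP).un (toP P hP (AK A k) - toP P hP (AK A i))) →
      (∀ k, y.2.1 k = y.1.1 k * ((UP χ hPm hP).un (-1) + (UP χ hPm hP).un (toP P hP (DK c D))) +
        ∑ i ∈ Finset.univ.erase k, (y.1.1 i - y.1.1 k) *
          (UP χ hPm hP).un (toP P hP (AK A k) - toP P hP (AK A i))) → x.1 = y.1 → x = y := by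
    intro x y hx hy hxy
    refine Prod.ext hxy (Subtype.ext (funext fun k => ?_))
    rw [hx k, hy k, hxy]
  have hinj : Function.Injective (fun x : Gam (UP χ hPm hP) α (toP P hP (DK c D))
      (fun k => toP P hP (AK A k)) => x.1.1) := by
    intro x y hxy
    exact Subtype.ext (hdet x.1 y.1 (hrel x.1 x.2) (hrel y.1 y.2) hxy)
  obtain ⟨x, hx⟩ := (hinj.bijective_of_nat_card_le hcard.ge).2 g.1
  have h1 : g = x.1 := hdet g x.1 hg (hrel x.1 x.2) hx.symm
  rw [h1]
  exact x.2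

end Pool.Agent.H94.PN
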