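import Pool.Agent.H94.PN.GMX
import Pool.Agent.H94.PM.TRF

set_option autoImplicit false

/-!
# [H94 PN WEQ] The local conditions are the groups of the values

* `weq_v`: `Gam ≤ Wl v _` by `OKl` with `D' = toV v (DK c D)` (`≠ 0`; `vl_DK_good`: `v ∤ D` as `D` is prime to `dl A`; `un_DK_v`).  `card Gam = card (XX m ℓ)` by `gam_max_P` (`UV = UP`, `toV = toP`; the `toV v (AK A k)` are different), `card (Wl v _) ≤ card (XX m ℓ)`,
  so they are equal (finite sets; e.g. `Set.eq_of_subset_of_ncard_le`).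
* `weq_i`: `OKi` with `D' = toI F (DK c D)`: `UI_poly`: the leading coefficient of `C c * D` is `c`; `vl_inf_poly`: `vl = - deg D`; `gam_max_I`.
* `wc_card`: `WC` is the group of `card_loc` (`mem_WC`; unfold `WC` or by `Submodule.ext`) with `Zl v = Wl v (cls χ c v t)`, `Zi = Wi (- t.1)`, `t = ty χ (dl A) D`, all of cardinality `card (XX m ℓ)` by `weq_v`, `weq_i`, `gam_max_P`, `gam_max_I`; `card_EE`.
-/

namespace Pool.Agent.H94.PN

open Polynomial
open Pool.Agent.H94.PL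
open Pool.Agent.H94.PM
open Pool.Agent.H94.PC (Mo Sq Pr pf om Mn mem_Mo mem_Sq mem_Pr mem_pf mem_pf')

variable {F : Type} [Field F] [Finite F] {ℓ m : ℕ} [hl : Fact ℓ.Prime] (χ : LChar F ℓ)
variable {α : ℕ} {c : F} {A : Fin m → F[X]} {D : F[X]}
  {Wl : pf (dl A) → ZMod ℓ → Submodule (ZMod ℓ) (XX m ℓ × XX m ℓ)}
  {Wi : ZMod ℓ → Submodule (ZMod ℓ) (XX m ℓ × XX m ℓ)}

private theorem eq_of_le_card' {V : Type} [AddCommGroup V] [Module (ZMod ℓ) V] [Finite V]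
    {p q : Submodule (ZMod ℓ) V} (h : p ≤ q) (hc : Nat.card q ≤ Nat.card p) : q = p := by
  refine le_antisymm ?_ h
  have h1 : (p : Set V) = (q : Set V) := by
    refine Set.eq_of_subset_of_ncard_le h ?_ (Set.toFinite _)
    rw [← Nat.card_coe_set_eq, ← Nat.card_coe_set_eq]
    exact hc
  intro x hx
  have h2 : x ∈ (p : Set V) := by
    rw [h1]
    exact hx
  exact h2

theorem weq_v (hq : ℓ ∣ Nat.card F - 1) (hm : Nat.Coprime m ℓ) (hα : ℓ ∣ α * m + 1) (hc : c ≠ 0)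
    (hA : ∀ i k, i ≠ k → A i ≠ A k) (hD : D.Monic) (hDA : IsCoprime D (dl A))
    (hWl : OKl χ α A Wl) (hcl : ∀ v b, Nat.card (Wl v b) ≤ Nat.card (XX m ℓ)) (v : pf (dl A)) :
    Wl v (cls χ c v (ty χ (dl A) D)) =
      Gam (UV χ v) α (toV v (DK c D)) (fun k => toV v (AK A k)) := by
  have hv := mem_pf' v.2
  have hvD : ¬ v.1 ∣ D := fun h => hv.2.1.not_isUnit (hDA.isUnit_of_dvd' h hv.2.2)
  have hDK : toV v (DK c D) ≠ 0 := (map_ne_zero (toV v)).2 (DK_ne hc hD.ne_zero)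
  have hAK : ∀ i k, i ≠ k → toV v (AK A i) ≠ toV v (AK A k) := fun i k hik he =>
    hA i k hik (RatFunc.algebraMap_injective F ((toV v).injective he))
  have h0 : (vl (wP v.1 (mem_pf' v.2).2.1) (toV v (DK c D)) : ZMod ℓ) = 0 := by
    have h1 : vl (wP v.1 (mem_pf' v.2).2.1) (toV v (DK c D)) = 0 :=
      vl_DK_good hc (mem_pf' v.2).2.1 hvD
    rw [h1, Int.cast_zero]
  have h1 := hWl v (toV v (DK c D)) hDK h0
  rw [un_DK_v χ hc hD hDA v] at h1
  have h2 : Nat.card (Gam (UV χ v) α (toV v (DK c D)) (fun k => toV v (AK A k))) =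
      Nat.card (XX m ℓ) := gam_max_P χ hq hm hα (mem_pf' v.2).1 (mem_pf' v.2).2.1 hDK hAK
  exact eq_of_le_card' h1 ((hcl v _).trans h2.ge)

theorem weq_i [DecidableEq (RatFunc F)] (hq : ℓ ∣ Nat.card F - 1) (hm : Nat.Coprime m ℓ)
    (hα : ℓ ∣ α * m + 1) (hc : c ≠ 0)
    (hA : ∀ i k, i ≠ k → A i ≠ A k) (hD : D.Monic)
    (hWi : OKi χ α c A Wi) (hci : ∀ b, Nat.card (Wi b) ≤ Nat.card (XX m ℓ)) :
    Wi (-(ty χ (dl A) D).1) = Gam (UI χ) α (toI F (DK c D)) (fun k => toI F (AK A k)) := by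
  have hDK : toI F (DK c D) ≠ 0 := (map_ne_zero (toI F)).2 (DK_ne hc hD.ne_zero)
  have hAK : ∀ i k, i ≠ k → toI F (AK A i) ≠ toI F (AK A k) := fun i k hik he =>
    hA i k hik (RatFunc.algebraMap_injective F ((toI F).injective he))
  have hg : C c * D ≠ 0 := mul_ne_zero (C_ne_zero.2 hc) hD.ne_zero
  have h0 : (UI χ).un (toI F (DK c D)) = χ.lg c := by
    rw [DK, UI_poly χ hg, leadingCoeff_mul, leadingCoeff_C, hD.leadingCoeff, mul_one]
  have h3 : (vl (wI F) (toI F (DK c D)) : ZMod ℓ) = -(ty χ (dl A) D).1 := by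
    rw [DK, vl_inf_poly hg, natDegree_C_mul hc, ty]
    push_cast
    rfl
  have h1 := hWi (toI F (DK c D)) hDK h0
  rw [h3] at h1
  have h2 : Nat.card (Gam (UI χ) α (toI F (DK c D)) (fun k => toI F (AK A k))) =
      Nat.card (XX m ℓ) := gam_max_I χ hq hm hα hDK hAK
  exact eq_of_le_card' h1 ((hci _).trans h2.ge)

theorem wc_card [DecidableEq (RatFunc F)] (hq : ℓ ∣ Nat.card F - 1) (hm : Nat.Coprime m ℓ)
    (hα : ℓ ∣ α * m + 1) (hc : c ≠ 0)
    (hA : ∀ i k, i ≠ k → A i ≠ A k) (hD : D.Monic) (hDA : IsCoprime D (dl A))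
    (hWl : OKl χ α A Wl) (hcl : ∀ v b, Nat.card (Wl v b) ≤ Nat.card (XX m ℓ))
    (hWi : OKi χ α c A Wi) (hci : ∀ b, Nat.card (Wi b) ≤ Nat.card (XX m ℓ)) :
    Nat.card (WC χ c Wl Wi (ty χ (dl A) D)) = Nat.card (EE (XX m ℓ) (pf (dl A))) := by
  have hDK : toI F (DK c D) ≠ 0 := (map_ne_zero (toI F)).2 (DK_ne hc hD.ne_zero)
  have hAK : ∀ i k, i ≠ k → toI F (AK A i) ≠ toI F (AK A k) := fun i k hik he =>
    hA i k hik (RatFunc.algebraMap_injective F ((toI F).injective he))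
  have h1 : ∀ v : pf (dl A), Nat.card (Wl v (cls χ c v (ty χ (dl A) D))) =
      Nat.card (XX m ℓ) := by
    intro v
    rw [weq_v χ hq hm hα hc hA hD hDA hWl hcl v]
    exact gam_max_P χ hq hm hα (mem_pf' v.2).1 (mem_pf' v.2).2.1
      ((map_ne_zero (toV v)).2 (DK_ne hc hD.ne_zero)) fun i k hik he =>
        hA i k hik (RatFunc.algebraMap_injective F ((toV v).injective he))
  have h2 : Nat.card (Wi (-(ty χ (dl A) D).1)) = Nat.card (XX m ℓ) := by
    rw [weq_i χ hq hm hα hc hA hD hWi hci]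
    exact gam_max_I χ hq hm hα hDK hAK
  rw [WC, card_loc, card_EE, h2, pow_succ]
  simp only [h1]
  rw [Finset.prod_const, Finset.card_univ]

end Pool.Agent.H94.PN
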