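import Pool.Agent.H94.PN.PREX
import Pool.Agent.H94.PN.SRJ1
import Pool.Agent.H94.PN.WEQ

set_option autoImplicit false

/-!
# [H94 PN SRJ2] Every element of `KM` comes from a Selmer class

* `em_coord`: the computation of `PM.em_zero` with `pre_P`, `pre_kap`, `pre_ex` instead of `un_dl_P`, `sln_kap`, `sln_ex`: with `x_Q k = ex Q (δ k)`, `κ k = kap (δ k)`, `y_v k = ex v (δ k)` the coordinate `k` of `EM` at `P` is
  `∑ Q ≠ P, lm Q P (x_Q k - x_P k) + deg P (κ k + (bet x_P) k) + ∑ v, lm v P (y_v k + (L_v x_P) k)`; insert `un_at_D`, `un_AK`, `un_minus_one`, `pre_P`.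
* `srj`: `δ` from `exists_dl`.  `IsSln`: `ne`, `prod` from `Pre`.  `fin`: every `v : HeightOneSpectrum F[X]` is `LT.place P hP` for a monic irreducible `P` (as in the proofs of `PM` / `PL` which verify `IsSln`/`IsVln` at all places, or: `v.asIdeal` is generated by a
  monic irreducible polynomial; `subst`).  For this `P` use `isVln_of_mem` (complete, uniformizer `toP P`: `wP_self`; `val_l_P hq`; values `toP (δ k) ≠ 0`, the product is an `ℓ`-th power): have to show `lgs (UP ..) (toP ∘ δ) ∈ Gam ..`: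
  `P ∤ D`, `P ∤ dl A`: `gam_good`, `(lgs ..).1 k = vl (toP (δ k)) = ex P (δ k) = 0` (`lgs_fst`, `vl_toP`, `Pre.ex`).  `P ∣ D` (so `P ∤ dl A`): `gam_at_D`, `lgs_fst`, `vl_toP`, `lgs_snd`, `em_coord` and `EM = 0` (`mem_KM`).  `P ∣ dl A`: `v = ⟨P, _⟩ : pf (dl A)`,
  `pre_v`, `weq_v` and the first component of `mem_KM` with `mem_WC` (`(DC ..).W = WC ..`).
  `inf`: `isVln_of_mem` with `complete_inf`, `unif_inf`, `val_l_inf hq`; `pre_i`, `weq_i`, `mem_WC`.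
-/

namespace Pool.Agent.H94.PN

open Polynomial WithZero IsDedekindDomain
open Pool.Agent.H94.PL
open Pool.Agent.H94.PM
open Pool.Agent.H94.PC (Mo Sq Pr pf om Mn mem_Mo mem_Sq mem_Pr mem_pf mem_pf')

variable {F : Type} [Field F] [Finite F] {ℓ m : ℕ} [hl : Fact ℓ.Prime] (χ : LChar F ℓ)
variable {α : ℕ} {c : F} {A : Fin m → F[X]} {D : F[X]} {δ : Fin m → RatFunc F}
  {Wl : pf (dl A) → ZMod ℓ → Submodule (ZMod ℓ) (XX m ℓ × XX m ℓ)}
  {Wi : ZMod ℓ → Submodule (ZMod ℓ) (XX m ℓ × XX m ℓ)}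

theorem em_coord (hc : c ≠ 0) (hA : ∀ i k, i ≠ k → A i ≠ A k) (hD : D.Monic)
    (hDs : Squarefree D) (hDA : IsCoprime D (dl A)) (h : Pre ℓ A D δ) (P : pf D) (k : Fin m) :
    (EM χ (DC χ c A Wl Wi) D (zM χ A D δ) P).1 k =
      (UP χ (mem_pf' P.2).1 (mem_pf' P.2).2.1).un (toP P.1 (mem_pf' P.2).2.1 (δ k)) -
      (PL.ex ℓ P.1 (δ k) * ((UP χ (mem_pf' P.2).1 (mem_pf' P.2).2.1).un (-1) +
          (UP χ (mem_pf' P.2).1 (mem_pf' P.2).2.1).un (toP P.1 (mem_pf' P.2).2.1 (DK c D))) +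
        ∑ i ∈ Finset.univ.erase k, (PL.ex ℓ P.1 (δ i) - PL.ex ℓ P.1 (δ k)) *
          (UP χ (mem_pf' P.2).1 (mem_pf' P.2).2.1).un
            (toP P.1 (mem_pf' P.2).2.1 (AK A k) - toP P.1 (mem_pf' P.2).2.1 (AK A i))) := by
  classical
  have hPp := mem_pf' P.2
  have hPm : P.1.Monic := hPp.1
  have hP : Irreducible P.1 := hPp.2.1
  have hPD : P.1 ∣ D := hPp.2.2
  have hPdl : ¬ P.1 ∣ dl A := fun h => hP.not_isUnit (hDA.isUnit_of_dvd' hPD h)
  rw [pre_P χ hA hD hDA h hPm hP hPD k, un_minus_one χ hPm hP,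
    un_at_D χ hc hD hDs hPm hP hPD]
  have hAK : ∑ i ∈ Finset.univ.erase k, (PL.ex ℓ P.1 (δ i) - PL.ex ℓ P.1 (δ k)) *
        (UP χ hPm hP).un (toP P.1 hP (AK A k) - toP P.1 hP (AK A i)) =
      -((P.1.natDegree : ZMod ℓ) * ∑ i ∈ Finset.univ.erase k,
          Hs χ A k i * (PL.ex ℓ P.1 (δ k) - PL.ex ℓ P.1 (δ i)) +
        ∑ v : pf (dl A), lm χ v.1 P.1 * ∑ i ∈ Finset.univ.erase k,
          mlt ℓ A v.1 k i * (PL.ex ℓ P.1 (δ k) - PL.ex ℓ P.1 (δ i))) := by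
    simp only [Finset.mul_sum]
    rw [Finset.sum_comm, ← Finset.sum_add_distrib, ← Finset.sum_neg_distrib]
    refine Finset.sum_congr rfl fun i hi => ?_
    rw [un_AK χ hA hPm hP hPdl (Finset.ne_of_mem_erase hi).symm, mul_add, Finset.mul_sum,
      neg_add, ← Finset.sum_neg_distrib]
    congr 1
    · ring
    · refine Finset.sum_congr rfl fun v _ => ?_
      ring
  rw [hAK]
  -- coordinates
  have c1 : ∀ Q : pf D, ((zM χ A D δ).2 Q).1 k = PL.ex ℓ Q.1 (δ k) := fun Q =>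
    toX_apply (pre_ex h (mem_pf' Q.2).2.1) k
  have c1' : ∀ i, ((zM χ A D δ).2 P).1 i = PL.ex ℓ P.1 (δ i) := fun i =>
    toX_apply (pre_ex h hP) i
  have c2 : ((zM χ A D δ).1.1).1 k = kap χ (δ k) := toX_apply (pre_kap χ h) k
  have c3 : ∀ v : pf (dl A), ((zM χ A D δ).1.2 v).1 k = PL.ex ℓ v.1 (δ k) := fun v =>
    toX_apply (pre_ex h (mem_pf' v.2).2.1) k
  have hev : ∀ w : XX m ℓ, w.1 k = ((LinearMap.proj k).comp (XM m ℓ).subtype) w := fun _ => rfl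
  have e1 : (EM χ (DC χ c A Wl Wi) D (zM χ A D δ) P).1 k =
      ∑ Q : pf D, lm χ Q.1 P.1 * (PL.ex ℓ Q.1 (δ k) - PL.ex ℓ P.1 (δ k)) +
      (P.1.natDegree : ZMod ℓ) * (kap χ (δ k) + (∑ i ∈ Finset.univ.erase k,
          Hs χ A k i * (PL.ex ℓ P.1 (δ k) - PL.ex ℓ P.1 (δ i)) -
            (χ.lg (-1) + χ.lg c) * PL.ex ℓ P.1 (δ k))) +
      ∑ v : pf (dl A), lm χ v.1 P.1 * (PL.ex ℓ v.1 (δ k) + ∑ i ∈ Finset.univ.erase k,
          mlt ℓ A v.1 k i * (PL.ex ℓ P.1 (δ k) - PL.ex ℓ P.1 (δ i))) := by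
    rw [EM, hev, map_add, map_add, map_sum, map_sum, map_smul]
    congr 1
    · congr 1
      · refine Finset.sum_congr rfl fun Q _ => ?_
        rw [map_smul, map_sub, ← hev, ← hev, c1, c1, smul_eq_mul]
      · rw [map_add, ← hev, ← hev, c2, smul_eq_mul]
        congr 2
        show ((lap (lg2 χ) (Hs χ A) (Hs_symm χ A) ((zM χ A D δ).2 P)).1 k -
          (χ.lg (-1) + χ.lg c) * ((zM χ A D δ).2 P).1 k) = _
        rw [lap_apply]
        simp only [c1']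
    · refine Finset.sum_congr rfl fun v _ => ?_
      rw [map_smul, map_add, ← hev, ← hev, c3, smul_eq_mul]
      congr 2
      show (lap (add_zero 0) (mlt ℓ A v.1) (fun _ _ _ => mlt_symm A v.1 _ _)
        ((zM χ A D δ).2 P)).1 k = _
      rw [lap_apply]
      simp only [c1']
  rw [e1]
  have e2 : ∑ Q : pf D, lm χ Q.1 P.1 * (PL.ex ℓ Q.1 (δ k) - PL.ex ℓ P.1 (δ k)) =
      ∑ Q ∈ (pf D).erase P.1, PL.ex ℓ Q (δ k) * lm χ Q P.1 -
        PL.ex ℓ P.1 (δ k) * ∑ Q ∈ (pf D).erase P.1, lm χ Q P.1 := by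
    rw [Finset.sum_coe_sort (pf D)
      (fun Q => lm χ Q P.1 * (PL.ex ℓ Q (δ k) - PL.ex ℓ P.1 (δ k))),
      ← Finset.sum_erase (pf D)
        (f := fun Q => lm χ Q P.1 * (PL.ex ℓ Q (δ k) - PL.ex ℓ P.1 (δ k)))
        (a := P.1) (by rw [sub_self, mul_zero]), Finset.mul_sum, ← Finset.sum_sub_distrib]
    refine Finset.sum_congr rfl fun Q _ => ?_
    ring
  have e3 : ∑ v : pf (dl A), lm χ v.1 P.1 * (PL.ex ℓ v.1 (δ k) + ∑ i ∈ Finset.univ.erase k,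
          mlt ℓ A v.1 k i * (PL.ex ℓ P.1 (δ k) - PL.ex ℓ P.1 (δ i))) =
      ∑ v : pf (dl A), PL.ex ℓ v.1 (δ k) * lm χ v.1 P.1 +
        ∑ v : pf (dl A), lm χ v.1 P.1 * ∑ i ∈ Finset.univ.erase k,
          mlt ℓ A v.1 k i * (PL.ex ℓ P.1 (δ k) - PL.ex ℓ P.1 (δ i)) := by
    rw [← Finset.sum_add_distrib]
    refine Finset.sum_congr rfl fun v _ => ?_
    ring
  rw [e2, e3]
  ring

omit [Finite F] in
private theorem exists_place (v : HeightOneSpectrum F[X]) :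
    ∃ (P : F[X]) (_ : P.Monic) (hP : Irreducible P), v = LT.place P hP := by
  obtain ⟨g, hg⟩ := (IsPrincipalIdealRing.principal v.asIdeal).principal
  have hg' : v.asIdeal = Ideal.span {g} := hg
  have hg0 : g ≠ 0 := by
    rintro rfl
    apply v.ne_bot
    rw [hg', Ideal.span_singleton_eq_bot]
  have hpr : Prime g := by
    have h1 := v.isPrime
    rw [hg'] at h1
    exact (Ideal.span_singleton_prime hg0).1 h1
  have hu : IsUnit (C g.leadingCoeff⁻¹) :=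
    isUnit_C.2 (isUnit_iff_ne_zero.2 (inv_ne_zero (leadingCoeff_ne_zero.2 hg0)))
  have hass : Associated g (g * C g.leadingCoeff⁻¹) := (associated_mul_unit_left _ _ hu).symm
  refine ⟨g * C g.leadingCoeff⁻¹, monic_mul_leadingCoeff_inv hg0,
    hass.irreducible hpr.irreducible, ?_⟩
  apply HeightOneSpectrum.ext
  show v.asIdeal = Ideal.span {g * C g.leadingCoeff⁻¹}
  rw [hg']
  exact Ideal.span_singleton_eq_span_singleton.2 hass

theorem srj [DecidableEq (RatFunc F)] (hq : ℓ ∣ Nat.card F - 1) (hm : Nat.Coprime m ℓ)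
    (hα : ℓ ∣ α * m + 1) (hc : c ≠ 0) (hA : ∀ i k, i ≠ k → A i ≠ A k)
    (hWl : OKl χ α A Wl) (hcl : ∀ v b, Nat.card (Wl v b) ≤ Nat.card (XX m ℓ))
    (hWi : OKi χ α c A Wi) (hci : ∀ b, Nat.card (Wi b) ≤ Nat.card (XX m ℓ))
    {n : ℕ} (hD : D ∈ Cls (dl A) n)
    {z : EE (XX m ℓ) (pf (dl A)) × (pf D → XX m ℓ)} (hz : z ∈ KM χ (DC χ c A Wl Wi) D) :
    ∃ δ : Fin m → RatFunc F, IsSln ℓ α c A D δ ∧ zM χ A D δ = z := by
  obtain ⟨hDm, _, hDs, hDA⟩ := mem_Cls.1 hD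
  obtain ⟨δ, hδ, hzz⟩ := exists_dl χ hA hDm hDA z
  have hdl0 : dl A ≠ 0 := by
    rw [dl]
    refine Finset.prod_ne_zero_iff.2 fun p hp => sub_ne_zero.2 (hA _ _ ?_)
    exact (mem_prs.1 hp).ne
  rw [← hzz, mem_KM] at hz
  have hW : ((zM χ A D δ).1, xi χ (dl A) D (zM χ A D δ).2) ∈
      WC χ c Wl Wi (ty χ (dl A) D) := hz.1
  rw [mem_WC] at hW
  refine ⟨δ, ⟨hδ.ne, hδ.prod, ?_, ?_⟩, hzz⟩
  · intro v
    obtain ⟨P, hPm, hP, rfl⟩ := exists_place v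
    have hne : ∀ k, toP P hP (δ k) ≠ 0 := fun k => (map_ne_zero (toP P hP)).2 (hδ.ne k)
    have hroot : ∃ y : (LT.place P hP).adicCompletion (RatFunc F),
        ∏ k, toP P hP (δ k) = y ^ ℓ := by
      obtain ⟨y, hy⟩ := hδ.prod
      refine ⟨toP P hP y, ?_⟩
      rw [← map_prod, hy, map_pow]
    refine isVln_of_mem (wP_self P hP) (val_l_P hq hP) (UP χ hPm hP) hα
      ((map_ne_zero (toP P hP)).2 (DK_ne hc hDm.ne_zero)) hne hroot ?_
    show lgs (UP χ hPm hP) (fun k => toP P hP (δ k)) ∈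
      Gam (UP χ hPm hP) α (toP P hP (DK c D)) (fun k => toP P hP (AK A k))
    by_cases hPA : P ∣ dl A
    · have h2 := weq_v χ hq hm hα hc hA hDm hDA hWl hcl ⟨P, (mem_pf hdl0).2 ⟨hPm, hP, hPA⟩⟩
      have h3 := pre_v χ hA hDm hDA hδ ⟨P, (mem_pf hdl0).2 ⟨hPm, hP, hPA⟩⟩
      have h4 := hW.1 ⟨P, (mem_pf hdl0).2 ⟨hPm, hP, hPA⟩⟩
      rw [← h3, h2] at h4
      exact h4
    · by_cases hPD : P ∣ D
      · rw [gam_at_D χ hq hm hα hc hA hDm hDs hPm hP hPD hPA]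
        intro k
        have hf : ∀ i, (lgs (UP χ hPm hP) (fun k => toP P hP (δ k))).1.1 i = PL.ex ℓ P (δ i) := by
          intro i
          rw [lgs_fst (UP χ hPm hP) hne hroot i, vl_toP hP (hδ.ne i)]
        have hs : (lgs (UP χ hPm hP) (fun k => toP P hP (δ k))).2.1 k =
            (UP χ hPm hP).un (toP P hP (δ k)) := lgs_snd (UP χ hPm hP) hne hroot k
        have hem := em_coord (Wl := Wl) (Wi := Wi) χ hc hA hDm hDs hDA hδ
          ⟨P, (mem_pf hDm.ne_zero).2 ⟨hPm, hP, hPD⟩⟩ k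
        rw [hz.2 ⟨P, (mem_pf hDm.ne_zero).2 ⟨hPm, hP, hPD⟩⟩] at hem
        have h0 : ((0 : XX m ℓ).1 k : ZMod ℓ) = 0 := rfl
        rw [h0] at hem
        simp only [hf]
        rw [hs]
        exact sub_eq_zero.1 hem.symm
      · rw [gam_good χ hq hm hα hc hA hDm hPm hP hPD hPA]
        apply Subtype.ext
        funext k
        rw [lgs_fst (UP χ hPm hP) hne hroot k, vl_toP hP (hδ.ne k),
          hδ.ex P hPm hP hPD hPA k]
        rfl
  · haveI := complete_inf F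
    have hne : ∀ k, toI F (δ k) ≠ 0 := fun k => (map_ne_zero (toI F)).2 (hδ.ne k)
    have hroot : ∃ y : RatFunc.CompletionAtInfty F, ∏ k, toI F (δ k) = y ^ ℓ := by
      obtain ⟨y, hy⟩ := hδ.prod
      refine ⟨toI F y, ?_⟩
      rw [← map_prod, hy, map_pow]
    refine isVln_of_mem (unif_inf (F := F)) (val_l_inf hq) (UI χ) hα
      ((map_ne_zero (toI F)).2 (DK_ne hc hDm.ne_zero)) hne hroot ?_
    have h2 := weq_i χ hq hm hα hc hA hDm hWi hci
    have h3 := pre_i χ hA hDm hDA hδ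
    have h4 := hW.2
    rw [← h3, h2] at h4
    exact h4

end Pool.Agent.H94.PN
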