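import Pool.Agent.H94.PN.PWR
import Pool.Agent.H94.PM.AVU

set_option autoImplicit false

/-!
# [H94 PN STR] The maximal unlinked sets which matter are the cosets of the `X ⊗ Λ`

* `tx_of_stable`: `W ≤ X^k × X^k` stable under all `f : X → X` (acting on all components): `Λ = {g | ∀ x, (g.1 i • x, g.2 i • x)_i ∈ W}` is a subspace and `W = TX Λ`.  For `w ∈ W` and `y, x`: `f = B y (·) • x` (rank one) gives
  `(B y (w.1 i) • x, B y (w.2 i) • x) ∈ W`, so `(B y (w.1 ·), B y (w.2 ·)) ∈ Λ`.  Conversely `w ∈ TX Λ` is by `tx_basis` a sum of the pure vectors `((λ j).1 i • e_j, (λ j).2 i • e_j)`, `λ j ∈ Λ`, which are in `W`.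
* `tx_inj`: `TX Λ = TX Λ'` gives `Λ = Λ'`: for `g ∈ Λ` and `x, y` with `B y x = 1` (`X` nontrivial, `B` nondegenerate) the pure vector of `g, x` is in `TX Λ'` (`tx_pure`), so `g ∈ Λ'`.
* `str`: `la_str'` for `Bk` gives `u₀`, `W` with `u ∈ U ↔ u - u₀ ∈ W`, `laB = 0` on `W`, `Bk w.2 w.1 = 0` on `W`, `card W = card X^k`.  For `w, w' ∈ W` the points `u₀, u₀ + w, u₀ + w', u₀ + w + w'` are in `U`, so `¬ Non` gives
  `Bk w.2 (L v w'.1) + Bk w'.2 (L v w.1) = 0`, i.e. (`hs`: `L v` is self-adjoint) `laB (L v w') w = 0` where `L v w' = (L v w'.1, L v w'.2)`; so `L v w' ∈ W` (`la_perp`).  The `f : X → X` with `f W ⊆ W` form a subalgebra, so by `hG` it contains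
  everything (`Algebra.adjoin_induction` or `adjoin_le`).  `tx_of_stable`: `W = TX Λ`.  `Lag Λ`: `card Λ ^ d = card X ^ k = ℓ ^ (d k)`, `d = finrank X ≥ 1` (`tx_card`), so `card Λ = ℓ ^ k`; for `g, g' ∈ Λ` and `x, y` with
  `B y x = 1` the pure vectors `(g, x)`, `(g', y)` are in `W` and `laB = B x y (dotp g.2 g'.1 + dotp g'.2 g.1)`; for `ℓ ≠ 2` and `B x x ≠ 0`: `Bk w.2 w.1 = B x x * dotp g.2 g.1 = 0`.
* `str_conv`: `card U = card (TX Λ) = (ℓ ^ k) ^ d = card X ^ k = (CDX (Bk B k)).N`.  For `u, u' ∈ U`, `w = u - u' ∈ TX Λ`: `lk u u' = Phi u u' + Phi u' u = - Bk w.2 w.1 = 0` by `tx_alt` for `b = B`.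
  `¬ Non`: in `Non` `w, w' ∈ TX Λ` (differences), and `Bk w.2 (L v w'.1) + Bk w'.2 (L v w.1) = 0` by `tx_sym` for `b x y = B x (L v y)`, which is symmetric by `hs`.
-/

namespace Pool.Agent.H94.PN

open Pool.Agent.H94.PL
open Pool.Agent.H94.PM

variable {ℓ k : ℕ} [hl : Fact ℓ.Prime] {X : Type} [AddCommGroup X] [Module (ZMod ℓ) X] [Fintype X]
  [DecidableEq X] {B : X →ₗ[ZMod ℓ] X →ₗ[ZMod ℓ] ZMod ℓ}

theorem tx_of_stable (hB : BGood B) (W : Submodule (ZMod ℓ) ((Fin k → X) × (Fin k → X)))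
    (h : ∀ f : X →ₗ[ZMod ℓ] X, ∀ w ∈ W,
      ((fun i => f (w.1 i), fun i => f (w.2 i)) : (Fin k → X) × (Fin k → X)) ∈ W) :
    ∃ Λ : Submodule (ZMod ℓ) (H0 ℓ k), W = TX B Λ := by
  obtain ⟨Λ, hΛ⟩ : ∃ Λ : Submodule (ZMod ℓ) (H0 ℓ k), ∀ g, g ∈ Λ ↔
      ∀ x : X, ((fun i => g.1 i • x, fun i => g.2 i • x) : (Fin k → X) × (Fin k → X)) ∈ W := by
    refine ⟨
      { carrier := {g | ∀ x : X,
          ((fun i => g.1 i • x, fun i => g.2 i • x) : (Fin k → X) × (Fin k → X)) ∈ W}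
        zero_mem' := ?_
        add_mem' := ?_
        smul_mem' := ?_ }, fun g => Iff.rfl⟩
    · intro g g' hg hg' x
      have e : ((fun i => (g + g').1 i • x, fun i => (g + g').2 i • x) :
          (Fin k → X) × (Fin k → X)) = (fun i => g.1 i • x, fun i => g.2 i • x) +
            (fun i => g'.1 i • x, fun i => g'.2 i • x) := by
        refine Prod.ext ?_ ?_ <;> funext i <;> simp [add_smul]
      rw [e]
      exact W.add_mem (hg x) (hg' x)
    · intro x
      have e : ((fun i => (0 : H0 ℓ k).1 i • x, fun i => (0 : H0 ℓ k).2 i • x) :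
          (Fin k → X) × (Fin k → X)) = 0 := by
        refine Prod.ext ?_ ?_ <;> funext i <;> simp
      rw [e]
      exact W.zero_mem
    · intro c g hg x
      have e : ((fun i => (c • g).1 i • x, fun i => (c • g).2 i • x) :
          (Fin k → X) × (Fin k → X)) = c • ((fun i => g.1 i • x, fun i => g.2 i • x) :
            (Fin k → X) × (Fin k → X)) := by
        refine Prod.ext ?_ ?_ <;> funext i <;> simp [smul_smul]
      rw [e]
      exact W.smul_mem c (hg x)
  refine ⟨Λ, le_antisymm ?_ ?_⟩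
  · intro w hw
    rw [mem_TX]
    intro y
    rw [hΛ]
    intro x
    exact h ((B y).smulRight x) w hw
  · intro w hw
    obtain ⟨d, e, -, -, he⟩ := tx_basis (k := k) hB
    obtain ⟨g, hg, h1, h2⟩ := (he Λ w).1 hw
    have e1 : w = ∑ j, ((fun i => (g j).1 i • e j, fun i => (g j).2 i • e j) :
        (Fin k → X) × (Fin k → X)) := by
      refine Prod.ext ?_ ?_
      · rw [Prod.fst_sum]
        funext i
        rw [h1 i, Finset.sum_apply]
      · rw [Prod.snd_sum]
        funext i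
        rw [h2 i, Finset.sum_apply]
    rw [e1]
    exact W.sum_mem fun j _ => (hΛ _).1 (hg j) (e j)

omit [Fintype X] [DecidableEq X] in
private theorem str_one (hB : BGood B) [Nontrivial X] : ∃ x y : X, B y x = 1 := by
  obtain ⟨x₀, hx₀⟩ := exists_ne (0 : X)
  obtain ⟨y₀, hy₀⟩ : ∃ y₀, B x₀ y₀ ≠ 0 := by
    by_contra hcon
    push Not at hcon
    exact hx₀ (hB.nondeg x₀ hcon)
  refine ⟨(B x₀ y₀)⁻¹ • y₀, x₀, ?_⟩
  rw [map_smul, smul_eq_mul, inv_mul_cancel₀ hy₀]

private theorem str_le (hB : BGood B) [Nontrivial X] {Λ Λ' : Submodule (ZMod ℓ) (H0 ℓ k)}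
    (h : TX B Λ ≤ TX B Λ') : Λ ≤ Λ' := by
  obtain ⟨x, y, hxy⟩ := str_one hB
  intro g hg
  have h1 := (mem_TX B).1 (h (tx_pure hg x)) y
  have e : ((fun i => B y (g.1 i • x), fun i => B y (g.2 i • x)) : H0 ℓ k) = g := by
    refine Prod.ext ?_ ?_ <;> funext i
    · show B y (g.1 i • x) = g.1 i
      rw [map_smul, hxy, smul_eq_mul, mul_one]
    · show B y (g.2 i • x) = g.2 i
      rw [map_smul, hxy, smul_eq_mul, mul_one]
  rw [← e]
  exact h1

theorem tx_inj (hB : BGood B) [Nontrivial X] {Λ Λ' : Submodule (ZMod ℓ) (H0 ℓ k)}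
    (h : TX B Λ = TX B Λ') : Λ = Λ' :=
  le_antisymm (str_le hB h.le) (str_le hB h.ge)

theorem str (hB : BGood B) [Nontrivial X] (hx : ℓ ≠ 2 → ∃ x : X, B x x ≠ 0) {S : Type} (dt : Dat ℓ X S)
    (hs : ∀ v x y, B (dt.L v x) y = B x (dt.L v y))
    (hG : Algebra.adjoin (ZMod ℓ) (Set.range dt.L) = (⊤ : Subalgebra (ZMod ℓ) (Module.End (ZMod ℓ) X)))
    (U : Finset ((Fin k → X) × (Fin k → X))) (hU : U ∈ MaxU (CDX (Bk B k)))
    (hn : ¬ Non (Bk B k) (dtk dt k) U) :
    ∃ (u₀ : (Fin k → X) × (Fin k → X)) (Λ : Submodule (ZMod ℓ) (H0 ℓ k)), Lag ℓ k Λ ∧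
      ∀ u, u ∈ U ↔ u - u₀ ∈ TX B Λ := by
  obtain ⟨hU1, hU2⟩ := mem_MaxU.1 hU
  obtain ⟨u₀, W, hUW, hiso, hq, hc⟩ := la_str' (Bk B k) (Bk_good hB k) U hU1 hU2
  have hL : ∀ v, ∀ w' ∈ W, ((fun i => dt.L v (w'.1 i), fun i => dt.L v (w'.2 i)) :
      (Fin k → X) × (Fin k → X)) ∈ W := by
    intro v w' hw'
    refine la_perp (Bk B k) (Bk_good hB k) W hiso hc _ fun w hw => ?_
    have h1 : Bk B k w.2 ((dtk dt k).L v w'.1) + Bk B k w'.2 ((dtk dt k).L v w.1) = 0 := by
      by_contra hcon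
      refine hn ⟨v, u₀, w, w', ?_, ?_, ?_, ?_, hcon⟩
      · rw [hUW, sub_self]
        exact W.zero_mem
      · rw [hUW, add_sub_cancel_left]
        exact hw
      · rw [hUW, add_sub_cancel_left]
        exact hw'
      · rw [hUW, add_assoc, add_sub_cancel_left]
        exact W.add_mem hw hw'
    rw [laB_apply, Bk_apply, Bk_apply]
    rw [Bk_apply, Bk_apply] at h1
    rw [← h1, add_comm]
    congr 1
    refine Finset.sum_congr rfl fun i _ => ?_
    exact hs v (w'.2 i) (w.1 i)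
  have hall : ∀ f : X →ₗ[ZMod ℓ] X, ∀ w ∈ W,
      ((fun i => f (w.1 i), fun i => f (w.2 i)) : (Fin k → X) × (Fin k → X)) ∈ W := by
    intro f
    have hf : f ∈ Algebra.adjoin (ZMod ℓ) (Set.range dt.L) := by
      rw [hG]
      exact Algebra.mem_top
    induction hf using Algebra.adjoin_induction with
    | mem f hf =>
      obtain ⟨v, rfl⟩ := hf
      exact hL v
    | algebraMap r =>
      intro w hw
      have e : ((fun i => (algebraMap (ZMod ℓ) (Module.End (ZMod ℓ) X) r) (w.1 i),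
          fun i => (algebraMap (ZMod ℓ) (Module.End (ZMod ℓ) X) r) (w.2 i)) :
            (Fin k → X) × (Fin k → X)) = r • w := by
        refine Prod.ext ?_ ?_ <;> funext i
        · rfl
        · rfl
      rw [e]
      exact W.smul_mem r hw
    | add f g _ _ hf hg =>
      intro w hw
      exact W.add_mem (hf w hw) (hg w hw)
    | mul f g _ _ hf hg =>
      intro w hw
      exact hf _ (hg w hw)
  obtain ⟨Λ, hΛ⟩ := tx_of_stable hB W hall
  have hd : 0 < Module.finrank (ZMod ℓ) X := Module.finrank_pos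
  have hpure : ∀ g ∈ Λ, ∀ x : X, ((fun i => g.1 i • x, fun i => g.2 i • x) :
      (Fin k → X) × (Fin k → X)) ∈ W := by
    intro g hg x
    rw [hΛ]
    exact tx_pure hg x
  refine ⟨u₀, Λ, ⟨?_, ?_, ?_⟩, fun u => by rw [hUW, hΛ]⟩
  · have h1 := tx_card hB Λ
    rw [← hΛ, hc, Fintype.card_pi, Finset.prod_const, Finset.card_univ, Fintype.card_fin,
      la_card_pow (ℓ := ℓ) (X := X), ← pow_mul, mul_comm, pow_mul] at h1
    exact (Nat.pow_left_injective hd.ne' h1).symm
  · intro g hg g' hg'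
    obtain ⟨x, y, hxy⟩ := str_one hB
    have h1 := hiso _ (hpure g hg x) _ (hpure g' hg' y)
    rw [laB_apply, Bk_apply, Bk_apply] at h1
    have hxy' : B x y = 1 := by rw [hB.symm, hxy]
    simp only [map_smul, LinearMap.smul_apply, smul_eq_mul, hxy, hxy', mul_one] at h1
    unfold dotp
    rw [← h1]
    congr 1
    · exact Finset.sum_congr rfl fun i _ => mul_comm _ _
    · exact Finset.sum_congr rfl fun i _ => mul_comm _ _
  · intro h2 g hg
    obtain ⟨x, hx⟩ := hx h2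
    have h1 := hq _ (hpure g hg x)
    rw [Bk_apply] at h1
    simp only [map_smul, LinearMap.smul_apply, smul_eq_mul] at h1
    have h3 : dotp g.2 g.1 * B x x = 0 := by
      unfold dotp
      rw [← h1, Finset.sum_mul]
      exact Finset.sum_congr rfl fun i _ => by ring
    exact (mul_eq_zero.1 h3).resolve_right hx

theorem str_conv (hB : BGood B) (halt : ℓ = 2 → ∀ x, B x x = 0) {S : Type} (dt : Dat ℓ X S)
    (hs : ∀ v x y, B (dt.L v x) y = B x (dt.L v y)) {Λ : Submodule (ZMod ℓ) (H0 ℓ k)}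
    (hΛ : Lag ℓ k Λ) (u₀ : (Fin k → X) × (Fin k → X)) (U : Finset ((Fin k → X) × (Fin k → X)))
    (h : ∀ u, u ∈ U ↔ u - u₀ ∈ TX B Λ) :
    U ∈ MaxU (CDX (Bk B k)) ∧ ¬ Non (Bk B k) (dtk dt k) U := by
  constructor
  · rw [mem_MaxU]
    constructor
    · intro u hu u' hu'
      have hw : u - u' ∈ TX B Λ := by
        have e : u - u' = (u - u₀) - (u' - u₀) := by abel
        rw [e]
        exact (TX B Λ).sub_mem ((h u).1 hu) ((h u').1 hu')
      rw [lk_eq, Bk_apply, neg_eq_zero]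
      exact tx_alt hB hΛ B hB.symm halt hw
    · have e1 : U.card = Nat.card (TX B Λ) := by
        have e0 : Nat.card U = Nat.card (TX B Λ) := Nat.card_congr
          { toFun := fun u => ⟨u.1 - u₀, (h _).1 u.2⟩
            invFun := fun w => ⟨w.1 + u₀, (h _).2 (by
              rw [add_sub_cancel_right]
              exact w.2)⟩
            left_inv := fun u => Subtype.ext (sub_add_cancel _ _)
            right_inv := fun w => Subtype.ext (add_sub_cancel_right _ _) }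
        rwa [Nat.card_eq_fintype_card, Fintype.card_coe] at e0
      rw [e1, tx_card hB, hΛ.1]
      show _ = Fintype.card (Fin k → X)
      rw [Fintype.card_pi, Finset.prod_const, Finset.card_univ, Fintype.card_fin,
        la_card_pow (ℓ := ℓ) (X := X), ← pow_mul, ← pow_mul, mul_comm]
  · rintro ⟨v, u₁, w, w', h1, h2, h3, -, h5⟩
    have hw : w ∈ TX B Λ := by
      have e : w = (u₁ + w - u₀) - (u₁ - u₀) := by abel
      rw [e]
      exact (TX B Λ).sub_mem ((h _).1 h2) ((h _).1 h1)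
    have hw' : w' ∈ TX B Λ := by
      have e : w' = (u₁ + w' - u₀) - (u₁ - u₀) := by abel
      rw [e]
      exact (TX B Λ).sub_mem ((h _).1 h3) ((h _).1 h1)
    apply h5
    have h6 := tx_sym hB hΛ (B.compl₂ (dt.L v)) hw hw'
    rw [Bk_apply, Bk_apply, ← h6]
    congr 1
    refine Finset.sum_congr rfl fun i _ => ?_
    show B (w'.2 i) (dt.L v (w.1 i)) = B (w.1 i) (dt.L v (w'.2 i))
    rw [hB.symm, hs]

end Pool.Agent.H94.PN
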