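import Pool.Agent.H94.PN.SND

set_option autoImplicit false

/-!
# [H94 PN TAIL] The expectation of the interpolation polynomials

`Q ≥ 3`, `w s ≥ 0`, `w s * Q ^ (s (s + 1) / 2) ≤ C0`, so (for the sum over all `s` of `w s * g (Q ^ s)`, `g = gp Q j K`):
* `tail_one`: `s = K + u`, `u ≥ 1`: `w s * |g (Q ^ s)| ≤ C0 * 2 ^ K * Q ^ j * Q ^ (- K) * Q ^ (- u)`: by `gp_bound` and the bound of `w`: multiply by `Q ^ (K (K + 1) / 2) * Q ^ (s (s + 1) / 2)`:
  `K (K + 1) / 2 + s (s + 1) / 2 = s K + K + u (u + 1) / 2` for `s = K + u` (multiply by `2`; the numbers `n (n + 1)` are even), and `u (u + 1) / 2 ≥ u`.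
* `tail_bound`: `|∑' s, w s * g (Q ^ s) - w j| ≤ C0 * Q ^ j * (2 / Q) ^ K`: the terms `s ≤ K` give `w j` (`gp_node`), the others are bounded by `tail_one`, and `∑ u ≥ 1, Q ^ (-u) ≤ 1`.
* `w_summable`: `∑ s, w s * (Q ^ s) ^ k` converges: `w s * (Q ^ s) ^ k ≤ C0 * Q ^ (s k) / Q ^ (s (s + 1) / 2)`, which is at most `C0 * Q ^ (-s)` for `s ≥ 2 k + 2` (or a ratio test for the majorant); and for every polynomial.
-/

namespace Pool.Agent.H94.PN

open Polynomial

variable {Q C0 : ℝ} {w : ℕ → ℝ}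

private theorem w_sum_pow (hQ : 3 ≤ Q) (hw0 : ∀ s, 0 ≤ w s)
    (hw : ∀ s, w s * Q ^ (s * (s + 1) / 2) ≤ C0) (k : ℕ) :
    Summable fun s => w s * (Q ^ s) ^ k := by
  have hQ0 : (0 : ℝ) < Q := by linarith
  have hg : Summable fun s : ℕ => C0 * (1 / Q) ^ s := by
    refine (summable_geometric_of_lt_one (by positivity) ?_).mul_left C0
    rw [div_lt_one hQ0]
    linarith
  refine Summable.of_norm_bounded_eventually_nat hg ?_
  filter_upwards [Filter.eventually_ge_atTop (2 * k + 2)] with s hs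
  rw [Real.norm_of_nonneg (mul_nonneg (hw0 s) (by positivity)), one_div, inv_pow,
    ← div_eq_mul_inv, le_div_iff₀ (by positivity)]
  refine le_trans ?_ (hw s)
  rw [mul_assoc]
  refine mul_le_mul_of_nonneg_left ?_ (hw0 s)
  rw [← pow_mul, ← pow_add]
  refine pow_le_pow_right₀ (by linarith) ?_
  rw [Nat.le_div_iff_mul_le (by norm_num)]
  nlinarith

theorem w_summable (hQ : 3 ≤ Q) (hw0 : ∀ s, 0 ≤ w s)
    (hw : ∀ s, w s * Q ^ (s * (s + 1) / 2) ≤ C0) (g : ℝ[X]) :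
    Summable fun s => w s * g.eval (Q ^ s) := by
  have h1 : (fun s => w s * g.eval (Q ^ s)) =
      fun s => ∑ i ∈ Finset.range (g.natDegree + 1), g.coeff i * (w s * (Q ^ s) ^ i) := by
    funext s
    rw [eval_eq_sum_range, Finset.mul_sum]
    refine Finset.sum_congr rfl fun i _ => ?_
    ring
  rw [h1]
  exact summable_sum fun i _ => (w_sum_pow hQ hw0 hw i).mul_left _

private theorem two_div (n : ℕ) : 2 * (n * (n + 1) / 2) = n * (n + 1) :=
  Nat.two_mul_div_two_of_even (Nat.even_mul_succ_self n)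

private theorem tail_one (hQ : 3 ≤ Q) (hw0 : ∀ s, 0 ≤ w s)
    (hw : ∀ s, w s * Q ^ (s * (s + 1) / 2) ≤ C0) {j K u : ℕ} (hj : j ≤ K) (hu : 1 ≤ u) :
    ‖w (K + u) * (gp Q j K).eval (Q ^ (K + u))‖ ≤ C0 * Q ^ j * (2 / Q) ^ K * (1 / Q) ^ u := by
  have hQ0 : (0 : ℝ) < Q := by linarith
  have hb := gp_bound (by linarith : (2 : ℝ) ≤ Q) hj (show K < K + u by omega)
  have hC := hw (K + u)
  have hC0 : 0 ≤ C0 := le_trans (mul_nonneg (hw0 (K + u)) (by positivity)) hC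
  rw [norm_mul, Real.norm_of_nonneg (hw0 _), Real.norm_eq_abs]
  set G := |(gp Q j K).eval (Q ^ (K + u))| with hG
  have hG0 : 0 ≤ G := abs_nonneg _
  set W := w (K + u) with hW
  have hW0 : 0 ≤ W := hw0 _
  have hexp : (K + u) * K + K + u ≤ K * (K + 1) / 2 + (K + u) * (K + u + 1) / 2 := by
    have h1 := two_div K
    have h2 := two_div (K + u)
    have h3 : 2 * ((K + u) * K + K + u) ≤
        2 * (K * (K + 1) / 2) + 2 * ((K + u) * (K + u + 1) / 2) := by
      rw [h1, h2]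
      nlinarith
    omega
  have h1 : W * G * Q ^ ((K + u) * K + K + u) ≤ C0 * (2 ^ K * Q ^ ((K + u) * K + j)) := by
    calc W * G * Q ^ ((K + u) * K + K + u)
        ≤ W * G * Q ^ (K * (K + 1) / 2 + (K + u) * (K + u + 1) / 2) :=
          mul_le_mul_of_nonneg_left (pow_le_pow_right₀ (by linarith) hexp) (mul_nonneg hW0 hG0)
      _ = (W * Q ^ ((K + u) * (K + u + 1) / 2)) * (G * Q ^ (K * (K + 1) / 2)) := by
          rw [pow_add]; ring
      _ ≤ C0 * (2 ^ K * Q ^ ((K + u) * K + j)) :=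
          mul_le_mul hC hb (by positivity) hC0
  have h2 : W * G * Q ^ (K + u) ≤ C0 * 2 ^ K * Q ^ j := by
    have h3 : (0 : ℝ) < Q ^ ((K + u) * K) := by positivity
    refine le_of_mul_le_mul_right ?_ h3
    calc W * G * Q ^ (K + u) * Q ^ ((K + u) * K) = W * G * Q ^ ((K + u) * K + K + u) := by
          rw [add_assoc ((K + u) * K) K u, pow_add Q ((K + u) * K) (K + u)]; ring
      _ ≤ C0 * (2 ^ K * Q ^ ((K + u) * K + j)) := h1
      _ = C0 * 2 ^ K * Q ^ j * Q ^ ((K + u) * K) := by rw [pow_add]; ring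
  have h4 : (0 : ℝ) < Q ^ (K + u) := by positivity
  have h5 : C0 * Q ^ j * (2 / Q) ^ K * (1 / Q) ^ u = C0 * 2 ^ K * Q ^ j / Q ^ (K + u) := by
    rw [div_pow, div_pow, one_pow, pow_add]
    field_simp
  rw [h5, le_div_iff₀ h4]
  exact h2

theorem tail_bound (hQ : 3 ≤ Q) (hw0 : ∀ s, 0 ≤ w s)
    (hw : ∀ s, w s * Q ^ (s * (s + 1) / 2) ≤ C0) {j K : ℕ} (hj : j ≤ K) :
    |∑' s, w s * (gp Q j K).eval (Q ^ s) - w j| ≤ C0 * Q ^ j * (2 / Q) ^ K := by
  have hQ0 : (0 : ℝ) < Q := by linarith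
  have hC0 : 0 ≤ C0 := le_trans (mul_nonneg (hw0 0) (by positivity)) (hw 0)
  have hs := w_summable hQ hw0 hw (gp Q j K)
  have h1 := hs.sum_add_tsum_nat_add (K + 1)
  have h2 : ∑ s ∈ Finset.range (K + 1), w s * (gp Q j K).eval (Q ^ s) = w j := by
    rw [Finset.sum_eq_single j]
    · rw [gp_node (by linarith) hj hj, if_pos rfl, mul_one]
    · intro s hs' hne
      have : s ≤ K := by
        have := Finset.mem_range.1 hs'
        omega
      rw [gp_node (by linarith) hj this, if_neg hne, mul_zero]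
    · intro h
      exact absurd (Finset.mem_range.2 (by omega)) h
  rw [h2] at h1
  rw [← h1, add_sub_cancel_left, ← Real.norm_eq_abs]
  have hr1 : 1 / Q ≤ 1 / 3 := one_div_le_one_div_of_le (by norm_num) hQ
  have hr0 : 0 ≤ 1 / Q := by positivity
  have hgeo : HasSum (fun u : ℕ => C0 * Q ^ j * (2 / Q) ^ K * ((1 / Q) * (1 / Q) ^ u))
      (C0 * Q ^ j * (2 / Q) ^ K * ((1 / Q) * (1 - 1 / Q)⁻¹)) :=
    ((hasSum_geometric_of_lt_one hr0 (by linarith)).mul_left _).mul_left _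
  refine (tsum_of_norm_bounded hgeo fun u => ?_).trans ?_
  · have h3 := tail_one hQ hw0 hw hj (show 1 ≤ u + 1 by omega)
    have h4 : K + (u + 1) = u + (K + 1) := by omega
    rw [h4, pow_succ'] at h3
    exact h3
  · have h5 : (1 / Q) * (1 - 1 / Q)⁻¹ ≤ 1 := by
      rw [← div_eq_mul_inv, div_le_one (by linarith)]
      linarith
    have h6 : 0 ≤ C0 * Q ^ j * (2 / Q) ^ K := by positivity
    calc C0 * Q ^ j * (2 / Q) ^ K * ((1 / Q) * (1 - 1 / Q)⁻¹)
        ≤ C0 * Q ^ j * (2 / Q) ^ K * 1 := mul_le_mul_of_nonneg_left h5 h6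
      _ = C0 * Q ^ j * (2 / Q) ^ K := mul_one _

end Pool.Agent.H94.PN
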