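import Pool.Agent.H94.PM.KD

set_option autoImplicit false

/-!
# [H94 PN TEN] The subspaces `X ⊗ Λ` of `X^k × X^k`

`X` a finite vector space over `ZMod ℓ` with a good (symmetric, nondegenerate) form `B`, `X^k = Fin k → X`.  For a subspace `Λ` of `H0 = (ZMod ℓ)^k × (ZMod ℓ)^k` let
`TX B Λ = {w | ∀ y, (B y (w.1 ·), B y (w.2 ·)) ∈ Λ}` (this is `X ⊗ Λ`).  Let `e_j`, `j : Fin d`, be a basis of `X` (`Module.finBasis`, `d = finrank X`) and `f_j` its dual basis for `B`: `B f_j e_l = δ` (`B` nondegenerate: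
`x ↦ B x` is an isomorphism to the dual, by dimension), so `x = ∑ j, B f_j x • e_j`.
* `tx_basis`: for `w ∈ TX Λ` the vectors `λ j = (B (f_j) (w.1 ·), B (f_j) (w.2 ·)) ∈ Λ` satisfy `w.1 i = ∑ j, (λ j).1 i • e_j`, the same for `w.2`.  Conversely every such `w` is in `TX Λ` (`B y w.1 i = ∑ j, B y e_j (λ j).1 i`).
  So `TX Λ ≃ (Fin d → Λ)`: `tx_card`: `Nat.card (TX B Λ) = Nat.card Λ ^ finrank`.
* `tx_pure`: `(fun i => λ.1 i • x, fun i => λ.2 i • x) ∈ TX B Λ` for `λ ∈ Λ`.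
* `tx_map`: for `f : X → X` linear and `w ∈ TX Λ`: `(f ∘ w.1, f ∘ w.2) ∈ TX Λ` (by `tx_basis` it is a sum of pure vectors).
* `tx_sym`: `b` any bilinear form on `X`: `∑ i, b (w.2 i) (w'.1 i) + ∑ i, b (w.1 i) (w'.2 i) = 0` on `TX Λ`: by `tx_basis` it is
  `∑ j, ∑ l, b e_j e_l (dotp (λ j).2 (λ' l).1 + dotp (λ' l).2 (λ j).1)`.
* `tx_alt`: `b` symmetric: `∑ i, b (w.2 i) (w.1 i) = ∑_{j, l} b e_j e_l dotp (λ j).2 (λ l).1`; the pairs `j ≠ l` cancel, and the diagonal terms vanish: `ℓ ≠ 2`: `dotp (λ j).2 (λ j).1 = 0` (`Lag`), `ℓ = 2`: `b e_j e_j = 0`.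
  (For `ℓ = 2` `b` is assumed to be alternating; then it is symmetric.)
-/

namespace Pool.Agent.H94.PN

open Pool.Agent.H94.PL
open Pool.Agent.H94.PM

/-- the dot product -/
def dotp {ℓ k : ℕ} (a b : Fin k → ZMod ℓ) : ZMod ℓ := ∑ i, a i * b i

/-- the space with `2 k` coordinates -/
abbrev H0 (ℓ k : ℕ) : Type := (Fin k → ZMod ℓ) × (Fin k → ZMod ℓ)

/-- maximal isotropic subspaces (`ℓ ≠ 2`: totally singular, `ℓ = 2`: for the alternating form) -/
def Lag (ℓ k : ℕ) (Λ : Submodule (ZMod ℓ) (H0 ℓ k)) : Prop :=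
  Nat.card Λ = ℓ ^ k ∧ (∀ x ∈ Λ, ∀ y ∈ Λ, dotp x.2 y.1 + dotp y.2 x.1 = 0) ∧
    (ℓ ≠ 2 → ∀ x ∈ Λ, dotp x.2 x.1 = 0)

/-- the number of these subspaces -/
noncomputable def Lk (ℓ k : ℕ) : ℕ := Nat.card {Λ : Submodule (ZMod ℓ) (H0 ℓ k) // Lag ℓ k Λ}

variable {ℓ k : ℕ} [hl : Fact ℓ.Prime] {X : Type} [AddCommGroup X] [Module (ZMod ℓ) X] [Finite X]
  (B : X →ₗ[ZMod ℓ] X →ₗ[ZMod ℓ] ZMod ℓ)

/-- the subspace `X ⊗ Λ` -/
def TX (Λ : Submodule (ZMod ℓ) (H0 ℓ k)) :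
    Submodule (ZMod ℓ) ((Fin k → X) × (Fin k → X)) where
  carrier := {w | ∀ y : X, ((fun i => B y (w.1 i), fun i => B y (w.2 i)) : H0 ℓ k) ∈ Λ}
  zero_mem' := by
    intro y
    have e : ((fun i => B y ((0 : (Fin k → X) × (Fin k → X)).1 i),
        fun i => B y ((0 : (Fin k → X) × (Fin k → X)).2 i)) : H0 ℓ k) = 0 := by
      refine Prod.ext ?_ ?_ <;> funext i <;> simp
    rw [e]
    exact Λ.zero_mem
  add_mem' := by
    intro w w' h h' y
    have e : ((fun i => B y ((w + w').1 i), fun i => B y ((w + w').2 i)) : H0 ℓ k) =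
        (fun i => B y (w.1 i), fun i => B y (w.2 i)) +
          (fun i => B y (w'.1 i), fun i => B y (w'.2 i)) := by
      refine Prod.ext ?_ ?_ <;> funext i <;> simp
    rw [e]
    exact Λ.add_mem (h y) (h' y)
  smul_mem' := by
    intro c w h y
    have e : ((fun i => B y ((c • w).1 i), fun i => B y ((c • w).2 i)) : H0 ℓ k) =
        c • ((fun i => B y (w.1 i), fun i => B y (w.2 i)) : H0 ℓ k) := by
      refine Prod.ext ?_ ?_ <;> funext i <;> simp
    rw [e]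
    exact Λ.smul_mem c (h y)

omit [Finite X] in
theorem mem_TX {Λ : Submodule (ZMod ℓ) (H0 ℓ k)} {w : (Fin k → X) × (Fin k → X)} :
    w ∈ TX B Λ ↔ ∀ y : X, ((fun i => B y (w.1 i), fun i => B y (w.2 i)) : H0 ℓ k) ∈ Λ := Iff.rfl

variable {B}

private theorem ten_dual (hB : BGood B) : ∃ (d : ℕ) (e f : Fin d → X),
    d = Module.finrank (ZMod ℓ) X ∧ LinearIndependent (ZMod ℓ) e ∧
    ∀ x : X, x = ∑ j, B (f j) x • e j := by
  have hfin : Module.Finite (ZMod ℓ) X := Module.Finite.of_finite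
  have hinj : Function.Injective B := by
    rw [← LinearMap.ker_eq_bot, LinearMap.ker_eq_bot']
    intro x hx
    refine hB.nondeg x fun y => ?_
    rw [hx, LinearMap.zero_apply]
  have hsurj : Function.Surjective B :=
    (LinearMap.injective_iff_surjective_of_finrank_eq_finrank
      (Subspace.dual_finrank_eq (K := ZMod ℓ) (V := X)).symm).1 hinj
  choose f hf using fun j => hsurj ((Module.finBasis (ZMod ℓ) X).coord j)
  refine ⟨Module.finrank (ZMod ℓ) X, Module.finBasis (ZMod ℓ) X, f, rfl,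
    (Module.finBasis (ZMod ℓ) X).linearIndependent, fun x => ?_⟩
  conv_lhs => rw [← (Module.finBasis (ZMod ℓ) X).sum_repr x]
  refine Finset.sum_congr rfl fun j _ => ?_
  rw [hf j, Module.Basis.coord_apply]

theorem tx_basis (hB : BGood B) : ∃ (d : ℕ) (e : Fin d → X), d = Module.finrank (ZMod ℓ) X ∧
    LinearIndependent (ZMod ℓ) e ∧
    ∀ Λ : Submodule (ZMod ℓ) (H0 ℓ k), ∀ w : (Fin k → X) × (Fin k → X),
      w ∈ TX B Λ ↔ ∃ g : Fin d → H0 ℓ k, (∀ j, g j ∈ Λ) ∧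
        (∀ i, w.1 i = ∑ j, (g j).1 i • e j) ∧ ∀ i, w.2 i = ∑ j, (g j).2 i • e j := by
  obtain ⟨d, e, f, hd, hli, hx⟩ := ten_dual (ℓ := ℓ) hB
  refine ⟨d, e, hd, hli, fun Λ w => ?_⟩
  constructor
  · intro hw
    refine ⟨fun j => (fun i => B (f j) (w.1 i), fun i => B (f j) (w.2 i)), fun j => hw (f j),
      fun i => hx _, fun i => hx _⟩
  · rintro ⟨g, hg, h1, h2⟩ y
    have e1 : ((fun i => B y (w.1 i), fun i => B y (w.2 i)) : H0 ℓ k) =
        ∑ j, B y (e j) • g j := by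
      refine Prod.ext ?_ ?_
      · funext i
        rw [Prod.fst_sum, Finset.sum_apply]
        show B y (w.1 i) = _
        rw [h1 i, map_sum]
        refine Finset.sum_congr rfl fun j _ => ?_
        rw [map_smul, Prod.smul_fst, Pi.smul_apply, smul_eq_mul, smul_eq_mul, mul_comm]
      · funext i
        rw [Prod.snd_sum, Finset.sum_apply]
        show B y (w.2 i) = _
        rw [h2 i, map_sum]
        refine Finset.sum_congr rfl fun j _ => ?_
        rw [map_smul, Prod.smul_snd, Pi.smul_apply, smul_eq_mul, smul_eq_mul, mul_comm]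
    rw [e1]
    exact Submodule.sum_mem _ fun j _ => Submodule.smul_mem _ _ (hg j)

theorem tx_card (hB : BGood B) (Λ : Submodule (ZMod ℓ) (H0 ℓ k)) :
    Nat.card (TX B Λ) = Nat.card Λ ^ Module.finrank (ZMod ℓ) X := by
  obtain ⟨d, e, hd, hli, hbas⟩ := tx_basis (k := k) hB
  have hmem : ∀ g : Fin d → Λ, ((fun i => ∑ j, (g j : H0 ℓ k).1 i • e j,
      fun i => ∑ j, (g j : H0 ℓ k).2 i • e j) : (Fin k → X) × (Fin k → X)) ∈ TX B Λ := by
    intro g
    rw [hbas]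
    exact ⟨fun j => g j, fun j => (g j).2, fun i => rfl, fun i => rfl⟩
  have hbij : Function.Bijective (fun g : Fin d → Λ => (⟨_, hmem g⟩ : TX B Λ)) := by
    constructor
    · intro g g' h
      have h0 := congrArg Subtype.val h
      have h1 : ∀ i, ∑ j, (g j : H0 ℓ k).1 i • e j = ∑ j, (g' j : H0 ℓ k).1 i • e j :=
        fun i => congrFun (congrArg Prod.fst h0) i
      have h2 : ∀ i, ∑ j, (g j : H0 ℓ k).2 i • e j = ∑ j, (g' j : H0 ℓ k).2 i • e j :=
        fun i => congrFun (congrArg Prod.snd h0) i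
      have key : ∀ a b : Fin d → ZMod ℓ, ∑ j, a j • e j = ∑ j, b j • e j → ∀ j, a j = b j := by
        intro a b hab j
        have h3 : ∑ j, (a j - b j) • e j = 0 := by
          simp only [sub_smul, Finset.sum_sub_distrib]
          rw [hab, sub_self]
        have h4 := (Fintype.linearIndependent_iff.1 hli) (fun j => a j - b j) h3 j
        exact sub_eq_zero.1 h4
      funext j
      apply Subtype.ext
      refine Prod.ext ?_ ?_
      · funext i
        exact key (fun j => (g j : H0 ℓ k).1 i) (fun j => (g' j : H0 ℓ k).1 i) (h1 i) j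
      · funext i
        exact key (fun j => (g j : H0 ℓ k).2 i) (fun j => (g' j : H0 ℓ k).2 i) (h2 i) j
    · rintro ⟨w, hw⟩
      obtain ⟨g, hg, h1, h2⟩ := (hbas Λ w).1 hw
      refine ⟨fun j => ⟨g j, hg j⟩, Subtype.ext (Prod.ext ?_ ?_)⟩
      · funext i
        exact (h1 i).symm
      · funext i
        exact (h2 i).symm
  rw [← Nat.card_congr (Equiv.ofBijective _ hbij), Nat.card_fun, Nat.card_eq_fintype_card
    (α := Fin d), Fintype.card_fin, hd]

omit [Finite X] in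
theorem tx_pure {Λ : Submodule (ZMod ℓ) (H0 ℓ k)} {g : H0 ℓ k} (h : g ∈ Λ) (x : X) :
    ((fun i => g.1 i • x, fun i => g.2 i • x) : (Fin k → X) × (Fin k → X)) ∈ TX B Λ := by
  intro y
  have e1 : ((fun i => B y (((fun i => g.1 i • x, fun i => g.2 i • x) :
      (Fin k → X) × (Fin k → X)).1 i), fun i => B y (((fun i => g.1 i • x, fun i => g.2 i • x) :
      (Fin k → X) × (Fin k → X)).2 i)) : H0 ℓ k) = B y x • g := by
    refine Prod.ext ?_ ?_
    · funext i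
      show B y (g.1 i • x) = _
      rw [map_smul, Prod.smul_fst, Pi.smul_apply, smul_eq_mul, smul_eq_mul, mul_comm]
    · funext i
      show B y (g.2 i • x) = _
      rw [map_smul, Prod.smul_snd, Pi.smul_apply, smul_eq_mul, smul_eq_mul, mul_comm]
  rw [e1]
  exact Submodule.smul_mem _ _ h

theorem tx_map (hB : BGood B) {Λ : Submodule (ZMod ℓ) (H0 ℓ k)} (f : X →ₗ[ZMod ℓ] X)
    {w : (Fin k → X) × (Fin k → X)} (h : w ∈ TX B Λ) :
    ((fun i => f (w.1 i), fun i => f (w.2 i)) : (Fin k → X) × (Fin k → X)) ∈ TX B Λ := by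
  obtain ⟨d, e, hd, hli, hbas⟩ := tx_basis (k := k) hB
  obtain ⟨g, hg, h1, h2⟩ := (hbas Λ w).1 h
  have e1 : ((fun i => f (w.1 i), fun i => f (w.2 i)) : (Fin k → X) × (Fin k → X)) =
      ∑ j, ((fun i => (g j).1 i • f (e j), fun i => (g j).2 i • f (e j)) :
        (Fin k → X) × (Fin k → X)) := by
    refine Prod.ext ?_ ?_
    · funext i
      rw [Prod.fst_sum, Finset.sum_apply]
      show f (w.1 i) = _
      rw [h1 i, map_sum]
      exact Finset.sum_congr rfl fun j _ => map_smul _ _ _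
    · funext i
      rw [Prod.snd_sum, Finset.sum_apply]
      show f (w.2 i) = _
      rw [h2 i, map_sum]
      exact Finset.sum_congr rfl fun j _ => map_smul _ _ _
  rw [e1]
  exact Submodule.sum_mem _ fun j _ => tx_pure (hg j) (f (e j))

omit [Finite X] in
private theorem ten_expand {d : ℕ} (e : Fin d → X) (b : X →ₗ[ZMod ℓ] X →ₗ[ZMod ℓ] ZMod ℓ)
    (g g' : Fin d → Fin k → ZMod ℓ) (u u' : Fin k → X) (hu : ∀ i, u i = ∑ j, g j i • e j)
    (hu' : ∀ i, u' i = ∑ j, g' j i • e j) :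
    ∑ i, b (u i) (u' i) = ∑ j, ∑ l, b (e j) (e l) * dotp (g j) (g' l) := by
  have h1 : ∀ i, b (u i) (u' i) = ∑ j, ∑ l, b (e j) (e l) * (g j i * g' l i) := by
    intro i
    rw [hu i, hu' i, map_sum b, LinearMap.sum_apply]
    refine Finset.sum_congr rfl fun j _ => ?_
    rw [map_smul b, LinearMap.smul_apply, map_sum (b (e j)), Finset.smul_sum]
    refine Finset.sum_congr rfl fun l _ => ?_
    rw [map_smul, smul_eq_mul, smul_eq_mul]
    ring
  simp only [h1, dotp, Finset.mul_sum]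
  rw [Finset.sum_comm]
  refine Finset.sum_congr rfl fun j _ => ?_
  rw [Finset.sum_comm]

theorem tx_sym (hB : BGood B) {Λ : Submodule (ZMod ℓ) (H0 ℓ k)} (hΛ : Lag ℓ k Λ)
    (b : X →ₗ[ZMod ℓ] X →ₗ[ZMod ℓ] ZMod ℓ)
    {w w' : (Fin k → X) × (Fin k → X)} (h : w ∈ TX B Λ) (h' : w' ∈ TX B Λ) :
    ∑ i, b (w.2 i) (w'.1 i) + ∑ i, b (w.1 i) (w'.2 i) = 0 := by
  obtain ⟨d, e, hd, hli, hbas⟩ := tx_basis (k := k) hB
  obtain ⟨g, hg, h1, h2⟩ := (hbas Λ w).1 h
  obtain ⟨g', hg', h1', h2'⟩ := (hbas Λ w').1 h'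
  rw [ten_expand e b (fun j => (g j).2) (fun j => (g' j).1) w.2 w'.1 h2 h1',
    ten_expand e b (fun j => (g j).1) (fun j => (g' j).2) w.1 w'.2 h1 h2',
    ← Finset.sum_add_distrib]
  refine Finset.sum_eq_zero fun j _ => ?_
  rw [← Finset.sum_add_distrib]
  refine Finset.sum_eq_zero fun l _ => ?_
  have h3 := hΛ.2.1 (g j) (hg j) (g' l) (hg' l)
  have h4 : dotp (g j).1 (g' l).2 = dotp (g' l).2 (g j).1 := by
    unfold dotp
    exact Finset.sum_congr rfl fun i _ => mul_comm _ _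
  rw [← mul_add, h4, h3, mul_zero]

theorem tx_alt (hB : BGood B) {Λ : Submodule (ZMod ℓ) (H0 ℓ k)} (hΛ : Lag ℓ k Λ)
    (b : X →ₗ[ZMod ℓ] X →ₗ[ZMod ℓ] ZMod ℓ) (hb : ∀ x y, b x y = b y x)
    (hb2 : ℓ = 2 → ∀ x, b x x = 0)
    {w : (Fin k → X) × (Fin k → X)} (h : w ∈ TX B Λ) : ∑ i, b (w.2 i) (w.1 i) = 0 := by
  obtain ⟨d, e, hd, hli, hbas⟩ := tx_basis (k := k) hB
  obtain ⟨g, hg, h1, h2⟩ := (hbas Λ w).1 h
  rw [ten_expand e b (fun j => (g j).2) (fun j => (g j).1) w.2 w.1 h2 h1,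
    ← Finset.sum_product']
  refine Finset.sum_involution (fun p _ => (p.2, p.1)) ?_ ?_ ?_ ?_
  · rintro ⟨j, l⟩ _
    show b (e j) (e l) * dotp (g j).2 (g l).1 + b (e l) (e j) * dotp (g l).2 (g j).1 = 0
    rw [hb (e l) (e j), ← mul_add, hΛ.2.1 (g j) (hg j) (g l) (hg l), mul_zero]
  · rintro ⟨j, l⟩ _ hne heq
    have hjl : l = j := congrArg Prod.fst heq
    subst hjl
    apply hne
    show b (e l) (e l) * dotp (g l).2 (g l).1 = 0
    by_cases h2' : ℓ = 2
    · rw [hb2 h2' (e l), zero_mul]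
    · rw [hΛ.2.2 h2' (g l) (hg l), mul_zero]
  · intro p _
    exact Finset.mem_product.2 ⟨Finset.mem_univ _, Finset.mem_univ _⟩
  · intro p _
    rfl

end Pool.Agent.H94.PN
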