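import Pool.Agent.H94.PN.TOR
import Pool.Agent.H94.PN.WEQ
import Pool.Agent.H94.PN.IDO
import Pool.Agent.H94.PN.AUE
import Pool.Agent.H94.PN.DKC

set_option autoImplicit false

/-!
# [H94 PN TKO] The local conditions at the types of the `D`, `ℓ` odd

`t = ty χ (dl A) D`, `D ∈ Cls (dl A) n` (monic, squarefree, prime to `dl A`).
* `card`: `wc_card`.  `alt`: `ℓ ≠ 2`.  `tor`: `tor_DC`.
* `sym`: `z, z' ∈ WC`: by `mem_WC`, `weq_v`, `weq_i` the `locv v z`, `locv v z'` are in `Gam (UV χ v) ..`, the `loci z`, `loci z'` in `Gam (UI χ) ..`, and `gam_iso` gives `ee m ℓ (un (-1)) .. = 0`; `un (-1) = 0`: `U.un_neg_one_add`: `un (-1) + un (-1) = 0` and `ℓ` is odd.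
  So the left side of `ido` is `0`.  `bt z z' - bt z' z` is the right side of `ido` plus `B ξ.1 (bet ξ'.1) - B ξ'.1 (bet ξ.1)` plus `∑ v, B (ξ.2 v) (L v (ξ'.2 v)) - B (ξ'.2 v) (L v (ξ.2 v))`, which vanish by `dok_DC` (`bet` with `χ.lg (-1) = 0`, `self`) and
  the symmetry of `B`.
-/

namespace Pool.Agent.H94.PN

open Polynomial
open Pool.Agent.H94.PL
open Pool.Agent.H94.PM
open Pool.Agent.H94.PC (Mo Sq Pr pf om Mn mem_Mo mem_Sq mem_Pr mem_pf mem_pf')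

variable {F : Type} [Field F] [Finite F] {ℓ m : ℕ} [hl : Fact ℓ.Prime] (χ : LChar F ℓ)
variable {α : ℕ} {c : F} {A : Fin m → F[X]} {D : F[X]}
  {Wl : pf (dl A) → ZMod ℓ → Submodule (ZMod ℓ) (XX m ℓ × XX m ℓ)}
  {Wi : ZMod ℓ → Submodule (ZMod ℓ) (XX m ℓ × XX m ℓ)}

theorem tko [DecidableEq (RatFunc F)] (h2 : ℓ ≠ 2) (hq : ℓ ∣ Nat.card F - 1)
    (hm : Nat.Coprime m ℓ) (hα : ℓ ∣ α * m + 1) (hc : c ≠ 0)
    (hA : ∀ i k, i ≠ k → A i ≠ A k)
    (hWl : OKl χ α A Wl) (hcl : ∀ v b, Nat.card (Wl v b) ≤ Nat.card (XX m ℓ))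
    (hWi : OKi χ α c A Wi) (hci : ∀ b, Nat.card (Wi b) ≤ Nat.card (XX m ℓ))
    {n : ℕ} (hD : D ∈ Cls (dl A) n) :
    TOK (BB m ℓ) (DC χ c A Wl Wi) (ty χ (dl A) D) := by
  have hDo := dok_DC (m := m) χ c A Wl Wi
  have he0 : χ.lg (-1) = 0 := hDo.odd h2
  have htwo : ∀ a : ZMod ℓ, a + a = 0 → a = 0 := by
    intro a ha
    have h3 : (2 : ZMod ℓ) * a = 0 := by rw [two_mul, ha]
    rcases mul_eq_zero.1 h3 with h4 | h4
    · exfalso
      have h5 : ((2 : ℕ) : ZMod ℓ) = 0 := by exact_mod_cast h4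
      rw [ZMod.natCast_eq_zero_iff] at h5
      exact h2 ((Nat.prime_dvd_prime_iff_eq hl.out Nat.prime_two).1 h5)
    · exact h4
  obtain ⟨hDm, -, -, hDc⟩ := mem_Cls.1 hD
  have hC0 : C c * D ≠ 0 := mul_ne_zero (C_ne_zero.2 hc) hDm.ne_zero
  have hDK : DK c D ≠ 0 := by
    unfold DK
    rwa [Ne, map_eq_zero_iff _ (RatFunc.algebraMap_injective F)]
  refine ⟨?_, ?_, fun h => absurd h h2, ?_⟩
  · exact wc_card χ hq hm hα hc hA hDm hDc hWl hcl hWi hci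
  · intro z hz z' hz'
    obtain ⟨a1, a2⟩ := (mem_WC χ).1 hz
    obtain ⟨b1, b2⟩ := (mem_WC χ).1 hz'
    have h3 := ido χ h2 z z'
    have h4 : ∀ v, ee m ℓ 0 (locv χ v z) (locv χ v z') = 0 := by
      intro v
      have c1 := a1 v
      have c2 := b1 v
      rw [weq_v χ hq hm hα hc hA hDm hDc hWl hcl v] at c1 c2
      have c3 := gam_iso (UV χ v) hα (D := toV v (DK c D)) (by
        rw [Ne, map_eq_zero]
        exact hDK) _ _ c1 _ c2
      rwa [htwo _ (UV χ v).un_neg_one_add] at c3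
    have h5 : ee m ℓ 0 (loci z) (loci z') = 0 := by
      rw [weq_i χ hq hm hα hc hA hDm hWi hci] at a2 b2
      have c3 := gam_iso (UI χ) hα (D := toI F (DK c D)) (by
        rw [Ne, map_eq_zero]
        exact hDK) _ _ a2 _ b2
      rwa [htwo _ (UI χ).un_neg_one_add] at c3
    rw [h5, Finset.sum_eq_zero fun v _ => h4 v, add_zero] at h3
    have h6 := sub_eq_zero.1 h3.symm
    unfold bt
    have h7 : BB m ℓ z.2.1 ((DC χ c A Wl Wi).bet z'.2.1) =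
        BB m ℓ z'.2.1 ((DC χ c A Wl Wi).bet z.2.1) := by
      rw [hDo.bet z'.2.1 z.2.1, he0, zero_mul, add_zero]
    have h8 : ∀ v, BB m ℓ (z.2.2 v) ((DC χ c A Wl Wi).L v (z'.2.2 v)) =
        BB m ℓ (z'.2.2 v) ((DC χ c A Wl Wi).L v (z.2.2 v)) := by
      intro v
      rw [← hDo.self v, BB_symm]
    simp only [map_add, Finset.sum_add_distrib]
    rw [h7, Finset.sum_congr rfl fun v _ => h8 v]
    linear_combination h6
  · intro σ
    exact tor_DC χ hm hα hc hA hD hWl hWi σ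

end Pool.Agent.H94.PN
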