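import Pool.Agent.H94.PN.HEL
import Pool.Agent.H94.PN.CH
import Pool.Agent.H94.PM.LUP

/-!
# [H94 PN VER] Mumford polynomials with reduction irreducible, at a vertex

`O = v.integer`, `I` a cluster with the data `a, R, w`; `t i = red (w i)`; `c = cI D A I a`; `vl c = R card I - ℓ e` (`e ∈ ℤ`).  `pb ∈ κ[X]` monic irreducible of degree `n`, `pb (t i) ≠ 0` for `i ∈ I`, and
`∑ i ∈ I, lg (pb (t i)) = n * rhoI`, `rhoI = un c - R card I un ϖ + card I un (-1)`.
(1) Let `Pt ∈ O[X]` be a monic lift of `pb` of the same degree (`Polynomial.lifts_and_natDegree_eq_and_monic`), `P = ϖ ^ (R n) Pt ((X - a) / ϖ ^ R)`, monic of degree `n` over `M`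
(`Polynomial.scaleRoots`, `comp`; or define `P = (Pt.map ..).scaleRoots (ϖ ^ R)` composed with `X - C a`; `P (x) = (ϖ ^ R) ^ n * Pt ((x - a) / ϖ ^ R)`).
(2) Values: `i ∈ I`: `P (A i) = (ϖ ^ R) ^ n * Pt (w i)`, `red (Pt (w i)) = pb (t i) ≠ 0`, so `vl = n R`, `un = n R un ϖ + lg (pb (t i))` (`rs.un`).
`k ∉ I`: with `x = (A k - a) / ϖ ^ R`, `v x > 1`: `Pt x / x ^ n` is near `1` (`Pt` monic with coefficients in `O`: `Pt x = x ^ n + ∑ i < n, c_i x ^ i`), so `P (A k) / (A k - a) ^ n` is near `1`, and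
`(A k - a) / (A k - A i)` is near `1` (`vtx_out`).  So `LocP`.
(3) `Λ = AdjoinRoot (Pt : O[X])`, `u` the root, and over `M`: `X = a + ϖ ^ R u` in `AdjoinRoot P` (the map `Λ → AdjoinRoot P`, `u ↦ (X - a) / ϖ ^ R`).  There
`f = ∏ k, (X - A k) = ∏ k ∉ I, (a - A k) (1 + g_k u) * (ϖ ^ R) ^ card I * ∏ i ∈ I, (u - w i)`, `g_k = ϖ ^ R / (a - A k) ∈ O`, `red g_k = 0`.  So `f / D = (ϖ ^ e) ^ ℓ * G(u)`,
`G = C w₀⁻¹ * ∏ k ∉ I, (1 + g_k X) * ∏ i ∈ I, (X - w i) ∈ O[X]`, `w₀ = c ϖ ^ (ℓ e - R card I)`, `vl w₀ = 0`.  It is enough that `Pt ∣ Q ^ ℓ - G` for some `Q ∈ O[X]` (then substitute).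
(4) Reduction: `gb = C (red w₀)⁻¹ * ∏ i ∈ I, (X - C (t i))`.  `pb ∤ gb` (irreducible, `pb ≠ X - C (t i)`) and `lm χ gb pb = - n lg (red w₀) + ∑ i, (n lg (-1) + lg (pb (t i))) = 0`: `lm_C`, `lm_mul_left`,
`lm χ (X - C t) pb = lg (resultant pb (X - C t)) = lg ((-1) ^ n * pb (t))` (compare `PL.res_prod`), `lg (red w₀) = un w₀ = un c - R card I un ϖ` (`ℓ e = 0` in `ZMod ℓ`), `lg (-1) = un (-1)` (`rs.un`), `2 lg (-1) = 0`.
`ker_lm` gives `ub ∈ κ[X]`, `¬ pb ∣ ub`, `pb ∣ gb - ub ^ ℓ`.  Lift `ub` to `Q₀ ∈ O[X]` and apply `hel` (`P.map red = pb`; `pb` irreducible and `¬ pb ∣ ub`: coprime).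
-/

set_option autoImplicit false

namespace Pool.Agent.H94.PN

open Polynomial WithZero
open Pool.Agent.H94.PL
open Pool.Agent.H94.PM

/-- the constant in the condition at a vertex -/
noncomputable def rhoI {M : Type} [Field M] {v : Valuation M ℤᵐ⁰} {m ℓ : ℕ} (U : LU v ℓ) (D : M)
    (A : Fin m → M) (I : Finset (Fin m)) (ϖ a : M) (R : ℤ) : ZMod ℓ :=
  U.un (cI D A I a) - (R : ZMod ℓ) * (I.card : ZMod ℓ) * U.un ϖ + (I.card : ZMod ℓ) * U.un (-1)

/-- a monic polynomial with integral coefficients at an element of negative valuation -/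
private theorem ver_near {M : Type} [Field M] {v : Valuation M ℤᵐ⁰} {Pt : v.integer[X]} (hPt : Pt.Monic)
    {x : M} (hx : 1 < v x) :
    v ((Pt.map v.integer.subtype).eval x / x ^ Pt.natDegree - 1) < 1 := by
  have hx0 : x ≠ 0 := by
    rintro rfl
    rw [map_zero] at hx
    exact absurd hx (not_lt.2 zero_le_one)
  have hxn : x ^ Pt.natDegree ≠ 0 := pow_ne_zero _ hx0
  have h1 : (Pt.map v.integer.subtype).eval x =
      ∑ i ∈ Finset.range Pt.natDegree, ((Pt.coeff i : v.integer) : M) * x ^ i + x ^ Pt.natDegree := by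
    rw [eval_eq_sum_range' (n := Pt.natDegree + 1)
      (Nat.lt_succ_of_le (natDegree_map_le)), Finset.sum_range_succ]
    congr 1
    · refine Finset.sum_congr rfl fun i _ => ?_
      rw [coeff_map]
      rfl
    · rw [coeff_map, hPt.coeff_natDegree, map_one, one_mul]
  have h2 : (Pt.map v.integer.subtype).eval x / x ^ Pt.natDegree - 1 =
      ∑ i ∈ Finset.range Pt.natDegree, ((Pt.coeff i : v.integer) : M) * x ^ i / x ^ Pt.natDegree := by
    rw [h1, add_div, div_self hxn, add_sub_cancel_right, Finset.sum_div]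
  rw [h2]
  refine Valuation.map_sum_lt v one_ne_zero fun i hi => ?_
  rw [map_div₀, map_mul, map_pow, map_pow]
  have hi' := Finset.mem_range.1 hi
  have hc : v ((Pt.coeff i : v.integer) : M) ≤ 1 := (Pt.coeff i).2
  have hpos : 0 < v x := lt_trans zero_lt_one hx
  have hpn : 0 < v x ^ Pt.natDegree := pow_pos hpos _
  rw [div_lt_one₀ hpn]
  calc v ((Pt.coeff i : v.integer) : M) * v x ^ i ≤ 1 * v x ^ i := by
        gcongr
    _ = v x ^ i := one_mul _
    _ < v x ^ Pt.natDegree := pow_lt_pow_right₀ hx hi'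

private theorem ver_pow {M : Type} [Field M] {v : Valuation M ℤᵐ⁰} {x : M} (hx : v (x - 1) < 1) (n : ℕ) :
    v (x ^ n - 1) < 1 := by
  induction n with
  | zero =>
    rw [pow_zero, sub_self, map_zero]
    exact zero_lt_one
  | succ n ih =>
    rw [pow_succ]
    exact near_mul ih hx

/-- the transformed equation -/
private theorem ver_eq {M : Type} [Field M] {m : ℕ} (A : Fin m → M) (I : Finset (Fin m)) {a c : M}
    (hc : c ≠ 0) (w : Fin m → M) (hw : ∀ i ∈ I, w i * c = A i - a) (hout : ∀ k, k ∉ I → A k ≠ a) :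
    fA A = C ((∏ k ∈ Iᶜ, (a - A k)) * c ^ I.card) *
      ((∏ k ∈ Iᶜ, (1 + C (c / (a - A k)) * X)) * ∏ i ∈ I, (X - C (w i))).comp
        (C c⁻¹ * (X - C a)) := by
  classical
  have h1 : ∀ k ∈ Iᶜ, (X - C (A k) : M[X]) = C (a - A k) *
      (1 + C (c / (a - A k)) * X : M[X]).comp (C c⁻¹ * (X - C a)) := by
    intro k hk
    have hk' : a - A k ≠ 0 := sub_ne_zero.2 (Ne.symm (hout k (Finset.mem_compl.1 hk)))
    have h2 : C (a - A k) * (C (c / (a - A k)) * C c⁻¹) = (1 : M[X]) := by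
      rw [← C_mul, ← C_mul, show (a - A k) * (c / (a - A k) * c⁻¹) = 1 by field_simp, C_1]
    rw [add_comp, one_comp, mul_comp, C_comp, X_comp]
    rw [C_sub] at h2 ⊢
    linear_combination (-(X - C a)) * h2
  have h3 : ∀ i ∈ I, (X - C (A i) : M[X]) = C c * (X - C (w i) : M[X]).comp (C c⁻¹ * (X - C a)) := by
    intro i hi
    have h4 : C c * C c⁻¹ = (1 : M[X]) := by
      rw [← C_mul, mul_inv_cancel₀ hc, C_1]
    have h5 : C (w i) * C c = (C (A i) - C a : M[X]) := by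
      rw [← C_mul, hw i hi, C_sub]
    rw [sub_comp, X_comp, C_comp]
    linear_combination (-(X - C a)) * h4 + h5
  unfold fA
  rw [← Finset.prod_mul_prod_compl I, Finset.prod_congr rfl h1, Finset.prod_congr rfl h3,
    Finset.prod_mul_distrib, Finset.prod_mul_distrib, Finset.prod_const, mul_comp, prod_comp,
    prod_comp, C_mul, C_pow, map_prod]
  ring

private theorem ver_lm {κ : Type} [Field κ] {ℓ : ℕ} (χ : LChar κ ℓ) {pb : κ[X]} (_hm : pb.Monic)
    {t : κ} (ht : pb.eval t ≠ 0) :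
    lm χ (X - C t) pb = (pb.natDegree : ZMod ℓ) * χ.lg (-1) + χ.lg (pb.eval t) := by
  have h2 : resultant pb (X - C t) = (-1) ^ pb.natDegree * pb.eval t := by
    rw [natDegree_X_sub_C]
    exact resultant_X_sub_C_right pb pb.natDegree t le_rfl
  have h3 : (-1 : κ) ≠ 0 := neg_ne_zero.2 one_ne_zero
  rw [lm, h2, χ.mul (pow_ne_zero _ h3) ht, lg_pow χ h3]

private theorem ver_cop {κ : Type} [Field κ] {pb : κ[X]} {t : κ} (ht : pb.eval t ≠ 0) :
    IsCoprime (X - C t) pb := by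
  refine ((irreducible_X_sub_C t).coprime_iff_not_dvd).2 fun hd => ht ?_
  exact dvd_iff_isRoot.1 hd

theorem ver {M : Type} [Field M] [hv : Valued M ℤᵐ⁰] [CompleteSpace M] {ϖ : M}
    (hϖ : (Valued.v : Valuation M ℤᵐ⁰) ϖ = exp (-1 : ℤ)) {ℓ m : ℕ} [hl : Fact ℓ.Prime]
    (hℓ : (Valued.v : Valuation M ℤᵐ⁰) (ℓ : M) = 1)
    {U : LU (Valued.v : Valuation M ℤᵐ⁰) ℓ} {κ : Type} [Field κ] [Finite κ] [DecidableEq κ]
    {χ : LChar κ ℓ} (rs : Rs Valued.v U κ χ) {D : M} (hD : D ≠ 0) {A : Fin m → M}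
    {I : Finset (Fin m)} {a : M} {R : ℤ} {w : Fin m → (Valued.v : Valuation M ℤᵐ⁰).integer}
    (hV : Vtx rs ϖ A I a R w)
    (hν : (ℓ : ℤ) ∣ R * (I.card : ℤ) - vl (Valued.v : Valuation M ℤᵐ⁰) (cI D A I a))
    {pb : κ[X]} (hPm : pb.Monic) (hPi : Irreducible pb)
    (hP0 : ∀ i ∈ I, pb.eval (rs.red (w i)) ≠ 0)
    (hcond : ∑ i ∈ I, χ.lg (pb.eval (rs.red (w i))) =
      (pb.natDegree : ZMod ℓ) * rhoI U D A I ϖ a R) :
    ∃ P Q : M[X], IsMum ℓ D A P Q ∧ LocP (Valued.v : Valuation M ℤᵐ⁰) A I P ∧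
      ∀ i ∈ I, (vl (Valued.v : Valuation M ℤᵐ⁰) (P.eval (A i)) : ZMod ℓ) =
          (pb.natDegree : ZMod ℓ) * (R : ZMod ℓ) ∧
        U.un (P.eval (A i)) = (pb.natDegree : ZMod ℓ) * ((R : ZMod ℓ) * U.un ϖ) +
          χ.lg (pb.eval (rs.red (w i))) := by
  classical
  obtain ⟨v, hvv⟩ : ∃ v : Valuation M ℤᵐ⁰, v = (Valued.v : Valuation M ℤᵐ⁰) := ⟨_, rfl⟩
  have hϖ0 : ϖ ≠ 0 := by
    rintro rfl
    rw [map_zero] at hϖ
    exact exp_ne_zero hϖ.symm
  obtain ⟨c, hcdef⟩ : ∃ c : M, c = ϖ ^ R := ⟨_, rfl⟩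
  have hc : c ≠ 0 := by rw [hcdef]; exact zpow_ne_zero _ hϖ0
  have hvϖ : vl (Valued.v : Valuation M ℤᵐ⁰) ϖ = 1 := by
    rw [vl_eq_iff hϖ0]
    exact hϖ
  have hvc : vl (Valued.v : Valuation M ℤᵐ⁰) c = R := by
    rw [hcdef, vl_zpow, hvϖ, mul_one]
  have hunc : U.un c = (R : ZMod ℓ) * U.un ϖ := by
    rw [hcdef, U.un_zpow hϖ0]
  -- the lift
  obtain ⟨Pt, hPt, hdeg, hmon⟩ := lifts_and_natDegree_eq_and_monic (f := rs.red)
    ((mem_lifts _).2 (map_surjective rs.red rs.surj pb)) hPm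
  obtain ⟨n, hn⟩ : ∃ n : ℕ, n = pb.natDegree := ⟨_, rfl⟩
  rw [← hn] at hdeg hcond ⊢
  obtain ⟨PM, hPM⟩ : ∃ PM : M[X], PM = Pt.map (Valued.v : Valuation M ℤᵐ⁰).integer.subtype := ⟨_, rfl⟩
  have hPMm : PM.Monic := by rw [hPM]; exact hmon.map _
  have hPMn : PM.natDegree = n := by
    rw [hPM, hmon.natDegree_map, hdeg]
  obtain ⟨lin, hlin⟩ : ∃ lin : M[X], lin = C c⁻¹ * (X - C a) := ⟨_, rfl⟩
  have hci : c⁻¹ ≠ 0 := inv_ne_zero hc
  have hlind : lin.natDegree = 1 := by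
    rw [hlin, natDegree_C_mul hci, natDegree_X_sub_C]
  have hlinl : lin.leadingCoeff = c⁻¹ := by
    rw [hlin, leadingCoeff_mul, leadingCoeff_C, leadingCoeff_X_sub_C, mul_one]
  obtain ⟨P, hPdef⟩ : ∃ P : M[X], P = C (c ^ n) * PM.comp lin := ⟨_, rfl⟩
  have hPmon : P.Monic := by
    rw [Monic, hPdef, leadingCoeff_mul, leadingCoeff_C, leadingCoeff_comp (by rw [hlind]; exact one_ne_zero),
      hlinl, hPMm.leadingCoeff, hPMn, one_mul, ← mul_pow, mul_inv_cancel₀ hc, one_pow]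
  have hPn : P.natDegree = n := by
    rw [hPdef, natDegree_C_mul (pow_ne_zero _ hc), natDegree_comp, hlind, hPMn, mul_one]
  have hPeval : ∀ x, P.eval x = c ^ n * PM.eval ((x - a) / c) := by
    intro x
    rw [hPdef, eval_mul, eval_C, eval_comp, hlin, eval_mul, eval_C, eval_sub, eval_X, eval_C,
      inv_mul_eq_div]
  -- the values at the elements of the cluster
  have hval : ∀ i ∈ I, P.eval (A i) = c ^ n * ((Pt.eval (w i) : (Valued.v : Valuation M ℤᵐ⁰).integer) : M) := by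
    intro i hi
    have h1 : (A i - a) / c = ((w i : (Valued.v : Valuation M ℤᵐ⁰).integer) : M) := by
      rw [← hV.eq i hi, ← hcdef, mul_div_cancel_right₀ _ hc]
    rw [hPeval, h1, hPM]
    congr 1
    exact (eval_map_apply (f := (Valued.v : Valuation M ℤᵐ⁰).integer.subtype) (p := Pt) (w i))
  have hred : ∀ i, rs.red (Pt.eval (w i)) = pb.eval (rs.red (w i)) := by
    intro i
    rw [← hPt]
    exact (eval_map_apply (f := rs.red) (p := Pt) (w i)).symm
  have hv1 : ∀ i ∈ I, (Valued.v : Valuation M ℤᵐ⁰)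
      ((Pt.eval (w i) : (Valued.v : Valuation M ℤᵐ⁰).integer) : M) = 1 := by
    intro i hi
    refine le_antisymm (Pt.eval (w i)).2 (not_lt.1 fun h => hP0 i hi ?_)
    rw [← hred i]
    exact (rs.ker _).2 h
  have hne : ∀ i ∈ I, ((Pt.eval (w i) : (Valued.v : Valuation M ℤᵐ⁰).integer) : M) ≠ 0 := by
    intro i hi h
    have := hv1 i hi
    rw [h, map_zero] at this
    exact zero_ne_one this
  -- location
  have hloc : ∀ k, k ∉ I → (Valued.v : Valuation M ℤᵐ⁰) (P.eval (A k) / (A k - a) ^ n - 1) < 1 := by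
    intro k hk
    obtain ⟨hka, hkv⟩ := hV.out k hk
    have hka' : A k - a ≠ 0 := sub_ne_zero.2 hka
    have hx : 1 < (Valued.v : Valuation M ℤᵐ⁰) ((A k - a) / c) := by
      rw [map_div₀, val_vl hka', val_vl hc, hvc, ← exp_sub, ← exp_zero, exp_lt_exp]
      linarith
    have h1 := ver_near hmon hx
    rw [hdeg, ← hPM] at h1
    have h2 : P.eval (A k) / (A k - a) ^ n = PM.eval ((A k - a) / c) / ((A k - a) / c) ^ n := by
      rw [hPeval, div_pow]
      field_simp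
    rw [h2]
    exact h1
  have hLoc : LocP (Valued.v : Valuation M ℤᵐ⁰) A I P := by
    intro i hi k hk
    obtain ⟨hka, _⟩ := hV.out k hk
    have hka' : A k - a ≠ 0 := sub_ne_zero.2 hka
    have h3 := vtx_out rs hϖ hV hi hk
    have h3' : A k - A i ≠ 0 := by
      intro h0
      rw [h0, zero_div, zero_sub, Valuation.map_neg, map_one] at h3
      exact lt_irrefl _ h3
    have h4 := ver_pow (near_inv h3) n
    have h5 := near_mul (hloc k hk) h4
    rw [hPn]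
    have h6 : P.eval (A k) / (A k - A i) ^ n =
        P.eval (A k) / (A k - a) ^ n * ((A k - A i) / (A k - a))⁻¹ ^ n := by
      rw [inv_div, div_pow]
      field_simp
    rw [h6]
    exact h5
  have hPne : ∀ k, P.eval (A k) ≠ 0 := by
    intro k
    by_cases hk : k ∈ I
    · rw [hval k hk]
      exact mul_ne_zero (pow_ne_zero _ hc) (hne k hk)
    · intro h0
      have := hloc k hk
      rw [h0, zero_div, zero_sub, Valuation.map_neg, map_one] at this
      exact lt_irrefl _ this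
  -- the constant
  obtain ⟨e, he⟩ := hν
  obtain ⟨cc, hcc⟩ : ∃ cc : M, cc = cI D A I a := ⟨_, rfl⟩
  have hprod : ∏ k ∈ Iᶜ, (a - A k) ≠ 0 := by
    refine Finset.prod_ne_zero_iff.2 fun k hk => ?_
    exact sub_ne_zero.2 (Ne.symm (hV.out k (Finset.mem_compl.1 hk)).1)
  have hcc0 : cc ≠ 0 := by
    rw [hcc]
    exact div_ne_zero hD hprod
  have hccp : (∏ k ∈ Iᶜ, (a - A k)) * cc = D := by
    rw [hcc, cI]
    field_simp
  rw [← hcc] at he
  obtain ⟨w0, hw0⟩ : ∃ w0 : M, w0 = c ^ I.card / (cc * (ϖ ^ e) ^ ℓ) := ⟨_, rfl⟩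
  have hϖe : ϖ ^ e ≠ 0 := zpow_ne_zero _ hϖ0
  have hw00 : w0 ≠ 0 := by
    rw [hw0]
    exact div_ne_zero (pow_ne_zero _ hc) (mul_ne_zero hcc0 (pow_ne_zero _ hϖe))
  have hvw0 : (Valued.v : Valuation M ℤᵐ⁰) w0 = 1 := by
    have h1 : vl (Valued.v : Valuation M ℤᵐ⁰) w0 = 0 := by
      rw [hw0, vl_div (pow_ne_zero _ hc) (mul_ne_zero hcc0 (pow_ne_zero _ hϖe)),
        vl_mul hcc0 (pow_ne_zero _ hϖe), vl_pow, vl_pow, vl_zpow, hvϖ, hvc]
      linarith
    rw [val_vl hw00, h1, neg_zero, exp_zero]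
  have hunw0 : U.un w0 = -U.un cc + (R : ZMod ℓ) * (I.card : ZMod ℓ) * U.un ϖ := by
    rw [hw0, U.un_div (pow_ne_zero _ hc) (mul_ne_zero hcc0 (pow_ne_zero _ hϖe)),
      U.un_pow_l hcc0 hϖe, U.un_pow hc, hunc]
    ring
  obtain ⟨w1, hw1⟩ : ∃ w1 : (Valued.v : Valuation M ℤᵐ⁰).integer, (w1 : M) = w0 := ⟨⟨w0, hvw0.le⟩, rfl⟩
  have hlgw1 : χ.lg (rs.red w1) = U.un w0 := by
    rw [← rs.un w1 (by rw [hw1]; exact hvw0), hw1]
  have hredw1 : rs.red w1 ≠ 0 := by
    intro h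
    have := (rs.ker w1).1 h
    rw [hw1, hvw0] at this
    exact lt_irrefl _ this
  -- the coefficients outside
  have hg : ∀ k, ∃ g : (Valued.v : Valuation M ℤᵐ⁰).integer, k ∉ I → (g : M) = c / (a - A k) ∧ rs.red g = 0 := by
    intro k
    by_cases hk : k ∈ I
    · exact ⟨0, fun h => absurd hk h⟩
    · obtain ⟨hka, hkv⟩ := hV.out k hk
      have hka' : A k - a ≠ 0 := sub_ne_zero.2 hka
      have h1 : (Valued.v : Valuation M ℤᵐ⁰) (c / (a - A k)) < 1 := by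
        rw [show a - A k = -(A k - a) by ring, map_div₀, Valuation.map_neg, val_vl hka', val_vl hc, hvc,
          ← exp_sub, ← exp_zero, exp_lt_exp]
        linarith
      exact ⟨⟨c / (a - A k), h1.le⟩, fun _ => ⟨rfl, (rs.ker _).2 h1⟩⟩
  choose g hg using hg
  obtain ⟨G, hG⟩ : ∃ G : (Valued.v : Valuation M ℤᵐ⁰).integer[X],
      G = C w1 * ((∏ k ∈ Iᶜ, (1 + C (g k) * X)) * ∏ i ∈ I, (X - C (w i))) := ⟨_, rfl⟩
  have hGred : G.map rs.red = C (rs.red w1) * ∏ i ∈ I, (X - C (rs.red (w i))) := by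
    rw [hG, Polynomial.map_mul, map_C, Polynomial.map_mul, Polynomial.map_prod, Polynomial.map_prod]
    congr 1
    have h1 : ∏ k ∈ Iᶜ, Polynomial.map rs.red (1 + C (g k) * X) = 1 := by
      refine Finset.prod_eq_one fun k hk => ?_
      rw [Polynomial.map_add, Polynomial.map_one, Polynomial.map_mul, map_C,
        (hg k (Finset.mem_compl.1 hk)).2, C_0, zero_mul, add_zero]
    rw [h1, one_mul]
    refine Finset.prod_congr rfl fun i _ => ?_
    rw [Polynomial.map_sub, map_X, map_C]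
  have hcop1 : ∀ i ∈ I, IsCoprime (X - C (rs.red (w i))) pb := fun i hi => ver_cop (hP0 i hi)
  have hcopC : IsCoprime (C (rs.red w1)) pb := by
    refine ⟨C (rs.red w1)⁻¹, 0, ?_⟩
    rw [zero_mul, add_zero, ← C_mul, inv_mul_cancel₀ hredw1, C_1]
  have hcopP : IsCoprime (∏ i ∈ I, (X - C (rs.red (w i)))) pb := IsCoprime.prod_left hcop1
  have hlm : lm χ (G.map rs.red) pb = 0 := by
    rw [hGred, lm_mul_left χ hPm hcopC hcopP, lm_C χ hPm hredw1, lm_prod_left χ _ _ hPm hcop1,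
      Finset.sum_congr rfl fun i hi => ver_lm χ hPm (hP0 i hi), Finset.sum_add_distrib,
      Finset.sum_const, ← hn, hcond, hlgw1, hunw0, rhoI, ← hcc, nsmul_eq_mul]
    have h1 : χ.lg (-1) = U.un (-1) := by
      have h2 := rs.un (-1) (by
        push_cast
        rw [Valuation.map_neg, map_one])
      rw [map_neg, map_one] at h2
      push_cast at h2
      exact h2.symm
    have h3 := U.un_neg_one_add
    rw [h1]
    linear_combination ((n : ZMod ℓ) * (I.card : ZMod ℓ)) * h3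
  have hnd : ¬ pb ∣ G.map rs.red := by
    intro hd
    have hcopG : IsCoprime (G.map rs.red) pb := by
      rw [hGred]
      exact hcopC.mul_left hcopP
    exact hPi.not_isUnit (hcopG.isUnit_of_dvd' hd dvd_rfl)
  obtain ⟨ub, hub1, hub2⟩ := ker_lm χ hPm hPi hnd hlm
  obtain ⟨Q₀, hQ₀⟩ := map_surjective rs.red rs.surj ub
  obtain ⟨Q1, hQ1⟩ := hel (P := Pt) (G := G) (Q₀ := Q₀) rs.red rs.surj rs.ker hϖ hℓ hmon
    (by
      rw [hPt, hQ₀]
      exact (hPi.coprime_iff_not_dvd).2 hub1)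
    (by
      rw [hPt, Polynomial.map_sub, Polynomial.map_pow, hQ₀, ← neg_sub]
      exact (dvd_neg).2 hub2)
  -- substitution
  obtain ⟨G1, hG1⟩ : ∃ G1 : M[X], G1 = ((∏ k ∈ Iᶜ, (1 + C (c / (a - A k)) * X)) *
    ∏ i ∈ I, (X - C ((w i : (Valued.v : Valuation M ℤᵐ⁰).integer) : M))) := ⟨_, rfl⟩
  have hGM : G.map (Valued.v : Valuation M ℤᵐ⁰).integer.subtype = C w0 * G1 := by
    rw [hG, hG1, Polynomial.map_mul, map_C, Polynomial.map_mul, Polynomial.map_prod, Polynomial.map_prod]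
    congr 1
    · congr 1
    · congr 1
      · refine Finset.prod_congr rfl fun k hk => ?_
        rw [Polynomial.map_add, Polynomial.map_one, Polynomial.map_mul, map_C, map_X,
          ← (hg k (Finset.mem_compl.1 hk)).1]
        rfl
      · refine Finset.prod_congr rfl fun i _ => ?_
        rw [Polynomial.map_sub, map_X, map_C]
        rfl
  obtain ⟨S, hS⟩ := hQ1
  have hS' := congrArg (fun p => (p.map (Valued.v : Valuation M ℤᵐ⁰).integer.subtype).comp lin) hS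
  simp only [Polynomial.map_sub, Polynomial.map_pow, Polynomial.map_mul, sub_comp, pow_comp, mul_comp] at hS'
  rw [hGM, ← hPM, mul_comp, C_comp] at hS'
  have hfA := ver_eq A I hc (fun i => ((w i : (Valued.v : Valuation M ℤᵐ⁰).integer) : M))
    (fun i hi => by rw [hcdef]; exact hV.eq i hi) (fun k hk => (hV.out k hk).1)
  rw [← hG1, ← hlin] at hfA
  have hconst : (∏ k ∈ Iᶜ, (a - A k)) * c ^ I.card = D * (ϖ ^ e) ^ ℓ * w0 := by
    rw [← hccp, hw0]
    field_simp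
  refine ⟨P, C (ϖ ^ e) * (Q1.map (Valued.v : Valuation M ℤᵐ⁰).integer.subtype).comp lin, ⟨hPmon, hPne, ?_⟩, hLoc, ?_⟩
  · refine ⟨C (D * (ϖ ^ e) ^ ℓ * (c ^ n)⁻¹) * (S.map (Valued.v : Valuation M ℤᵐ⁰).integer.subtype).comp lin, ?_⟩
    have hcn : C (c ^ n) * C (c ^ n)⁻¹ = (1 : M[X]) := by
      rw [← C_mul, mul_inv_cancel₀ (pow_ne_zero _ hc), C_1]
    rw [hfA, hconst, hPdef, mul_pow, C_mul, C_mul, C_mul, C_mul, ← C_pow]
    linear_combination (C D * C ((ϖ ^ e) ^ ℓ)) * hS' - (C D * C ((ϖ ^ e) ^ ℓ) * PM.comp lin *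
      (S.map (Valued.v : Valuation M ℤᵐ⁰).integer.subtype).comp lin) * hcn
  · intro i hi
    constructor
    · rw [hval i hi, vl_mul (pow_ne_zero _ hc) (hne i hi), vl_pow, hvc]
      have h1 : vl (Valued.v : Valuation M ℤᵐ⁰)
          ((Pt.eval (w i) : (Valued.v : Valuation M ℤᵐ⁰).integer) : M) = 0 := by
        rw [vl_eq_iff (hne i hi), hv1 i hi, neg_zero, exp_zero]
      rw [h1]
      push_cast
      ring
    · rw [hval i hi, U.mul _ _ (pow_ne_zero _ hc) (hne i hi), U.un_pow hc, hunc, rs.un _ (hv1 i hi), hred i]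

end Pool.Agent.H94.PN
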